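import Mathlib

set_option autoImplicit false

namespace Pool.Agent.S0654

abbrev W := Fin 10 → ℚ
abbrev R := Module.End ℚ W

def lev : Fin 10 → ℕ := ![0,1,1,2,3,3,4,5,5,6]

def Fl (m : ℕ) : Set W := {w | ∀ i, lev i < m → w i = 0}

def I (k : ℕ) : Submodule ℚ R where
  carrier := {f | ∀ m, ∀ w, w ∈ Fl m → f w ∈ Fl (m + k)}
  add_mem' := by
    intro f g hf hg m w hw i hi
    rw [LinearMap.add_apply, Pi.add_apply, hf m w hw i hi, hg m w hw i hi, add_zero]
  zero_mem' := by
    intro m w hw i hi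
    rfl
  smul_mem' := by
    intro c f hf m w hw i hi
    rw [LinearMap.smul_apply, Pi.smul_apply, hf m w hw i hi, smul_zero]

lemma I_mul {a b k : ℕ} {f g : R} (hf : f ∈ I a) (hg : g ∈ I b) (h : k ≤ a + b) :
    f * g ∈ I k := by
  intro m w hw i hi
  have h1 := hg m w hw
  have h2 := hf (m + b) (g w) h1
  exact h2 i (by omega)

lemma I_mono {a b : ℕ} (h : a ≤ b) {f : R} (hf : f ∈ I b) : f ∈ I a := by
  intro m w hw i hi
  exact hf m w hw i (by omega)

lemma I7 {f : R} (h : f ∈ I 7) : f = 0 := by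
  apply LinearMap.ext
  intro w
  funext i
  apply h 0 w (by intro i hi; omega) i
  fin_cases i <;> simp [lev]

lemma one_mem : (1 : R) ∈ I 0 := by
  intro m w hw
  exact hw

def A (p q : ℚ) : R where
  toFun w := ![0, p * w 0, q * w 0, q * w 1 - p * w 2, p * w 3, q * w 3,
    10 * (q * w 4 - p * w 5), p * w 6, q * w 6, q * w 7 - p * w 8]
  map_add' := by
    intro v w
    funext i
    fin_cases i <;> simp <;> ring
  map_smul' := by
    intro v w
    funext i
    fin_cases i <;> simp <;> ring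

def Om : R where
  toFun w := ![0, 0, 0, -2 * w 0, w 1, w 2, -20 * w 3, 10 * w 4, 10 * w 5, -2 * w 6]
  map_add' := by
    intro v w
    funext i
    fin_cases i <;> simp <;> ring
  map_smul' := by
    intro v w
    funext i
    fin_cases i <;> simp <;> ring

def S (q : ℚ) : R where
  toFun w := ![0, 0, 0, 0, 0, 0, 0, q * w 4, - (q * w 4), 0]
  map_add' := by
    intro v w
    funext i
    fin_cases i <;> simp <;> ring
  map_smul' := by
    intro v w
    funext i
    fin_cases i <;> simp <;> ring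

def E : R where
  toFun w := ![0, 0, 0, 0, 0, 0, 0, 0, 0, w 0]
  map_add' := by
    intro v w
    funext i
    fin_cases i <;> simp
  map_smul' := by
    intro v w
    funext i
    fin_cases i <;> simp

lemma A_apply (p q : ℚ) (w : W) : A p q w = ![0, p * w 0, q * w 0, q * w 1 - p * w 2, p * w 3,
    q * w 3, 10 * (q * w 4 - p * w 5), p * w 6, q * w 6, q * w 7 - p * w 8] := rfl
lemma Om_apply (w : W) : Om w =
  ![0, 0, 0, -2 * w 0, w 1, w 2, -20 * w 3, 10 * w 4, 10 * w 5, -2 * w 6] := rfl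
lemma S_apply (q : ℚ) (w : W) : S q w = ![0, 0, 0, 0, 0, 0, 0, q * w 4, - (q * w 4), 0] := rfl
lemma E_apply (w : W) : E w = ![0, 0, 0, 0, 0, 0, 0, 0, 0, w 0] := rfl

lemma comm_AA (p q r s : ℚ) : A r s * A p q - A p q * A r s = (r * q - s * p) • Om := by
  apply LinearMap.ext
  intro w
  funext i
  simp only [LinearMap.sub_apply, Module.End.mul_apply, LinearMap.smul_apply, A_apply, Om_apply,
    Pi.sub_apply, Pi.smul_apply, smul_eq_mul]
  fin_cases i <;> simp <;> ring

def br (f g : R) : R := f * g - g * f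

lemma br_apply (f g : R) (w : W) : br f g w = f (g w) - g (f w) := rfl

lemma T5_zero (p q : ℚ) : br (br (br Om (A p q)) (A p q)) (A p q) = 0 := by
  apply LinearMap.ext
  intro w
  funext i
  simp only [br_apply, LinearMap.sub_apply, A_apply, Om_apply, Pi.sub_apply,
    LinearMap.zero_apply, Pi.zero_apply]
  fin_cases i <;> simp <;> ring

/-- degree two part of a group element -/
def A2 (p q l : ℚ) : R := (1 / 2 : ℚ) • (A p q * A p q) + l • Om + S q

lemma F6_eq (p q r s l m : ℚ) :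
    let a := A p q
    let b := A r s
    let a2 := A2 p q l
    let b2 := A2 r s m
    let C2 := br b a
    let C3 := br b2 a + br b a2 - C2 * (a + b)
    let D3 := br C2 a
    let D4 := br C3 a + br C2 a2 - D3 * a
    let E4 := br D3 a
    let E5 := br D4 a + br D3 a2 - E4 * a
    let F5 := br E4 a
    br E5 a + br E4 a2 - F5 * a = (5 * (r * q - s * p) * (p * q * (p + q))) • E := by
  intro a b a2 b2 C2 C3 D3 D4 E4 E5 F5
  apply LinearMap.ext
  intro w
  funext i
  simp only [a, b, a2, b2, C2, C3, D3, D4, E4, E5, F5, A2, br_apply, LinearMap.sub_apply,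
    LinearMap.add_apply, Module.End.mul_apply, LinearMap.smul_apply, A_apply, Om_apply, S_apply,
    E_apply, Pi.sub_apply, Pi.add_apply, Pi.smul_apply, smul_eq_mul]
  fin_cases i <;> simp <;> ring

lemma A_mem (p q : ℚ) : A p q ∈ I 1 := by
  intro m w hw i hi
  have h : ∀ j, lev j < m → w j = 0 := hw
  rw [A_apply]
  fin_cases i <;> simp [lev] at hi ⊢
  · rw [h 0 (by simp [lev]; omega)]; simp
  · rw [h 0 (by simp [lev]; omega)]; simp
  · rw [h 1 (by simp [lev]; omega), h 2 (by simp [lev]; omega)]; simp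
  · rw [h 3 (by simp [lev]; omega)]; simp
  · rw [h 3 (by simp [lev]; omega)]; simp
  · rw [h 4 (by simp [lev]; omega), h 5 (by simp [lev]; omega)]; simp
  · rw [h 6 (by simp [lev]; omega)]; simp
  · rw [h 6 (by simp [lev]; omega)]; simp
  · rw [h 7 (by simp [lev]; omega), h 8 (by simp [lev]; omega)]; simp

lemma Om_mem : Om ∈ I 2 := by
  intro m w hw i hi
  have h : ∀ j, lev j < m → w j = 0 := hw
  rw [Om_apply]
  fin_cases i <;> simp [lev] at hi ⊢
  · rw [h 0 (by simp [lev]; omega)]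
  · rw [h 1 (by simp [lev]; omega)]
  · rw [h 2 (by simp [lev]; omega)]
  · rw [h 3 (by simp [lev]; omega)]
  · rw [h 4 (by simp [lev]; omega)]
  · rw [h 5 (by simp [lev]; omega)]
  · rw [h 6 (by simp [lev]; omega)]

lemma S_mem (q : ℚ) : S q ∈ I 2 := by
  intro m w hw i hi
  have h : ∀ j, lev j < m → w j = 0 := hw
  rw [S_apply]
  fin_cases i <;> simp [lev] at hi ⊢
  · rw [h 4 (by simp [lev]; omega)]; simp
  · rw [h 4 (by simp [lev]; omega)]; simp

lemma E_mem : E ∈ I 6 := by
  intro m w hw i hi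
  have h : ∀ j, lev j < m → w j = 0 := hw
  rw [E_apply]
  fin_cases i <;> simp [lev] at hi ⊢
  · rw [h 0 (by simp [lev]; omega)]

lemma A2_mem (p q l : ℚ) : A2 p q l ∈ I 2 := by
  unfold A2
  exact (I 2).add_mem ((I 2).add_mem ((I 2).smul_mem _ (I_mul (A_mem p q) (A_mem p q) le_rfl))
    ((I 2).smul_mem _ Om_mem)) (S_mem q)

lemma br_mem {a b k : ℕ} {f g : R} (hf : f ∈ I a) (hg : g ∈ I b) (h : k ≤ a + b) :
    br f g ∈ I k :=
  (I k).sub_mem (I_mul hf hg h) (I_mul hg hf (by omega))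

lemma A_add (p q r s : ℚ) : A (p + r) (q + s) = A p q + A r s := by
  apply LinearMap.ext
  intro w
  funext i
  simp only [LinearMap.add_apply, A_apply, Pi.add_apply]
  fin_cases i <;> simp <;> ring

lemma A_neg (p q : ℚ) : A (-p) (-q) = - A p q := by
  apply LinearMap.ext
  intro w
  funext i
  simp only [LinearMap.neg_apply, A_apply, Pi.neg_apply]
  fin_cases i <;> simp <;> ring

lemma S_add (q s : ℚ) : S (q + s) = S q + S s := by
  apply LinearMap.ext
  intro w
  funext i
  simp only [LinearMap.add_apply, S_apply, Pi.add_apply]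
  fin_cases i <;> simp <;> ring

lemma S_neg (q : ℚ) : S (-q) = - S q := by
  apply LinearMap.ext
  intro w
  funext i
  simp only [LinearMap.neg_apply, S_apply, Pi.neg_apply]
  fin_cases i <;> simp

lemma A2_add (p q r s l m : ℚ) :
    A2 p q l + A2 r s m + A p q * A r s =
      A2 (p + r) (q + s) (l + m + (p * s - q * r) / 2) := by
  have h := comm_AA r s p q
  have h2 : A p q * A r s = A r s * A p q + (p * s - q * r) • Om := by rw [← h]; abel
  unfold A2
  rw [A_add, S_add, mul_add, add_mul, add_mul, h2]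
  module

lemma A2_neg (p q l : ℚ) : A p q * A p q - A2 p q l = A2 (-p) (-q) (-l) := by
  unfold A2
  rw [A_neg, S_neg]
  have h : (-A p q) * (-A p q) = A p q * A p q := by
    apply LinearMap.ext
    intro w
    simp only [Module.End.mul_apply, LinearMap.neg_apply, map_neg, neg_neg]
  rw [h]
  module

/-- the defining property of the group -/
def Pr (f : R) : Prop := ∃ p q : ℤ, ∃ l : ℚ, f - (1 + A p q + A2 p q l) ∈ I 3

lemma Pr_one : Pr 1 := by
  refine ⟨0, 0, 0, ?_⟩
  have : (1 : R) - (1 + A ((0 : ℤ) : ℚ) ((0 : ℤ) : ℚ) + A2 ((0 : ℤ) : ℚ) ((0 : ℤ) : ℚ) 0) = 0 := by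
    have h1 : A ((0 : ℤ) : ℚ) ((0 : ℤ) : ℚ) = 0 := by
      have := A_add 0 0 0 0
      simpa using this
    have h2 : S ((0 : ℤ) : ℚ) = 0 := by
      have := S_add 0 0
      simpa using this
    unfold A2
    rw [h1, h2]
    simp
  rw [this]
  exact (I 3).zero_mem

lemma Pr_mul {f g : R} (hf : Pr f) (hg : Pr g) : Pr (f * g) := by
  obtain ⟨p, q, l, hf⟩ := hf
  obtain ⟨r, s, m, hg⟩ := hg
  refine ⟨p + r, q + s, l + m + ((p : ℚ) * s - q * r) / 2, ?_⟩
  push_cast
  rw [A_add, ← A2_add]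
  obtain ⟨e, he⟩ : ∃ e, e = f - (1 + A p q + A2 p q l) := ⟨_, rfl⟩
  obtain ⟨d, hd⟩ : ∃ d, d = g - (1 + A r s + A2 r s m) := ⟨_, rfl⟩
  rw [← he] at hf
  rw [← hd] at hg
  have hf' : f = 1 + A p q + A2 p q l + e := by rw [he]; abel
  have hg' : g = 1 + A r s + A2 r s m + d := by rw [hd]; abel
  have key : f * g - (1 + (A p q + A r s) + (A2 p q l + A2 r s m + A p q * A r s)) =
      A p q * A2 r s m + A2 p q l * A r s + A2 p q l * A2 r s m +
      (e * (1 + A r s + A2 r s m + d) + (1 + A p q + A2 p q l) * d) := by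
    rw [hf', hg']
    noncomm_ring
  rw [key]
  have m1 : (1 + A r s + A2 r s m + d) ∈ I 0 :=
    (I 0).add_mem ((I 0).add_mem ((I 0).add_mem one_mem (I_mono (by omega) (A_mem _ _)))
      (I_mono (by omega) (A2_mem _ _ _))) (I_mono (by omega) hg)
  have m2 : (1 + A p q + A2 p q l) ∈ I 0 :=
    (I 0).add_mem ((I 0).add_mem one_mem (I_mono (by omega) (A_mem _ _)))
      (I_mono (by omega) (A2_mem _ _ _))
  exact (I 3).add_mem ((I 3).add_mem ((I 3).add_mem
    (I_mul (A_mem _ _) (A2_mem _ _ _) (by omega)) (I_mul (A2_mem _ _ _) (A_mem _ _) (by omega)))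
    (I_mul (A2_mem _ _ _) (A2_mem _ _ _) (by omega)))
    ((I 3).add_mem (I_mul hf m1 (by omega)) (I_mul m2 hg (by omega)))

def Gs : Subgroup Rˣ where
  carrier := {u | Pr (u : R) ∧ Pr ((u⁻¹ : Rˣ) : R)}
  mul_mem' := by
    rintro u v ⟨h1, h2⟩ ⟨h3, h4⟩
    refine ⟨?_, ?_⟩
    · rw [Units.val_mul]; exact Pr_mul h1 h3
    · rw [mul_inv_rev, Units.val_mul]; exact Pr_mul h4 h2
  one_mem' := ⟨by rw [Units.val_one]; exact Pr_one, by rw [inv_one, Units.val_one]; exact Pr_one⟩
  inv_mem' := by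
    rintro u ⟨h1, h2⟩
    exact ⟨h2, by rw [inv_inv]; exact h1⟩

abbrev G := Gs

/-- underlying operator -/
def v (g : G) : R := ((g : Rˣ) : R)

lemma v_mul (g h : G) : v (g * h) = v g * v h := rfl
lemma v_one : v 1 = 1 := rfl
lemma v_inj {g h : G} (e : v g = v h) : g = h := Subtype.ext (Units.ext e)
lemma v_mul_inv (g : G) : v g * v g⁻¹ = 1 := by rw [← v_mul, mul_inv_cancel, v_one]
lemma v_inv_mul (g : G) : v g⁻¹ * v g = 1 := by rw [← v_mul, inv_mul_cancel, v_one]

lemma v_pr (g : G) : Pr (v g) := g.2.1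

lemma v_one_mem (g : G) : v g - 1 ∈ I 1 := by
  obtain ⟨p, q, l, h⟩ := v_pr g
  have : v g - 1 = (v g - (1 + A p q + A2 p q l)) + (A p q + A2 p q l) := by abel
  rw [this]
  exact (I 1).add_mem (I_mono (by omega) h)
    ((I 1).add_mem (A_mem _ _) (I_mono (by omega) (A2_mem _ _ _)))

lemma v_zero_mem (g : G) : v g ∈ I 0 := by
  have : v g = (v g - 1) + 1 := by abel
  rw [this]
  exact (I 0).add_mem (I_mono (by omega) (v_one_mem g)) one_mem

/-! ### torsion-freeness -/

lemma torsion_free (g : G) (k : ℕ) (hk : 0 < k) (h : g ^ k = 1) : g = 1 := by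
  have key : ∀ m : ℕ, 1 ≤ m → v g - 1 ∈ I m → v g - 1 ∈ I (m + 1) := by
    intro m hm hmem
    have h1 : ∀ n : ℕ, v (g ^ n) - 1 - (n : ℚ) • (v g - 1) ∈ I (m + 1) := by
      intro n
      induction n with
      | zero => simp [v_one]
      | succ n ih =>
        rw [pow_succ, v_mul]
        have e : v (g ^ n) * v g - 1 - ((n + 1 : ℕ) : ℚ) • (v g - 1) =
            (v (g ^ n) - 1 - (n : ℚ) • (v g - 1)) * v g + (n : ℚ) • ((v g - 1) * (v g - 1)) := by
          obtain ⟨x, hx⟩ : ∃ x, x = v g - 1 := ⟨_, rfl⟩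
          have hx' : v g = 1 + x := by rw [hx]; abel
          rw [← hx, hx']
          push_cast
          simp only [mul_add, sub_mul, smul_mul_assoc, one_mul, mul_one]
          module
        rw [e]
        exact (I (m + 1)).add_mem (I_mul ih (v_zero_mem g) (by omega))
          ((I (m + 1)).smul_mem _ (I_mul hmem hmem (by omega)))
    have h2 := h1 k
    rw [h, v_one, sub_self, zero_sub] at h2
    have h3 : (k : ℚ) • (v g - 1) ∈ I (m + 1) := by
      have := (I (m + 1)).neg_mem h2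
      rwa [neg_neg] at this
    have hk' : (k : ℚ) ≠ 0 := by exact_mod_cast hk.ne'
    have h4 := (I (m + 1)).smul_mem ((k : ℚ)⁻¹) h3
    rwa [smul_smul, inv_mul_cancel₀ hk', one_smul] at h4
  have h1 := v_one_mem g
  have h7 := key 6 (by omega) (key 5 (by omega) (key 4 (by omega) (key 3 (by omega)
    (key 2 (by omega) (key 1 (by omega) h1)))))
  apply v_inj
  rw [v_one]
  exact sub_eq_zero.mp (I7 h7)

end Pool.Agent.S0654
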