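import Mathlib
import Pool.Agent.H7a18c0

set_option autoImplicit false
open scoped commutatorElement

namespace Pool.Agent.S0654

lemma ring_id1 {T : Type} [Ring T] (C A1 e d y : T) :
    ((1 + C + e) * (1 + A1 + d) - (1 + A1 + d) * (1 + C + e)) * (1 + y) - (C * A1 - A1 * C) =
      ((C * d - d * C) + (e * (A1 + d) - (A1 + d) * e)) * (1 + y) + (C * A1 - A1 * C) * y := by
  noncomm_ring

lemma ring_id2 {T : Type} [Ring T] (C C' A1 A2' e d y X : T) :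
    ((1 + C + C' + e) * (1 + A1 + A2' + d) - (1 + A1 + A2' + d) * (1 + C + C' + e)) * (1 - X + y) -
      (C * A1 - A1 * C) -
      ((C' * A1 - A1 * C') + (C * A2' - A2' * C) - (C * A1 - A1 * C) * X) =
      ((C * d - d * C) + (C' * (A2' + d) - (A2' + d) * C') +
        (e * (A1 + A2' + d) - (A1 + A2' + d) * e)) * (1 - X + y) +
      ((C' * A1 - A1 * C') + (C * A2' - A2' * C)) * (y - X) + (C * A1 - A1 * C) * y := by
  noncomm_ring

lemma v_inv_sub (g : G) (k : ℕ) (h : v g - 1 ∈ I k) : v g⁻¹ - 1 ∈ I k := by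
  have e : v g⁻¹ - 1 = - ((v g - 1) * v g⁻¹) := by
    rw [sub_mul, v_mul_inv, one_mul]; abel
  rw [e]
  exact (I k).neg_mem (I_mul h (v_zero_mem _) (by omega))

lemma v_comm (c a : G) : v ⁅c, a⁆ - 1 = br (v c) (v a) * (v c⁻¹ * v a⁻¹) := by
  have e : v ⁅c, a⁆ = v c * v a * (v c⁻¹ * v a⁻¹) := by
    rw [commutatorElement_def, v_mul, v_mul, v_mul]
    rw [mul_assoc]
  have e2 : v a * v c * (v c⁻¹ * v a⁻¹) = 1 := by
    rw [mul_assoc, ← mul_assoc (v c), v_mul_inv, one_mul, v_mul_inv]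
  unfold br
  rw [e, sub_mul, e2]

/-- leading terms of a commutator -/
lemma step1 (c a : G) (k : ℕ) (C A1 : R) (hC : C ∈ I k) (hA1 : A1 ∈ I 1)
    (hc : v c - 1 - C ∈ I (k + 1)) (ha : v a - 1 - A1 ∈ I 2) :
    v ⁅c, a⁆ - 1 - br C A1 ∈ I (k + 2) := by
  rw [v_comm]
  obtain ⟨e, he⟩ : ∃ e, e = v c - 1 - C := ⟨_, rfl⟩
  obtain ⟨d, hd⟩ : ∃ d, d = v a - 1 - A1 := ⟨_, rfl⟩
  obtain ⟨y, hy⟩ : ∃ y, y = v c⁻¹ * v a⁻¹ - 1 := ⟨_, rfl⟩
  have hy1 : y ∈ I 1 := by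
    have : y = v (c⁻¹ * a⁻¹) - 1 := by rw [hy, v_mul]
    rw [this]; exact v_one_mem _
  rw [← he] at hc
  rw [← hd] at ha
  have hc' : v c = 1 + C + e := by rw [he]; abel
  have ha' : v a = 1 + A1 + d := by rw [hd]; abel
  have hy' : v c⁻¹ * v a⁻¹ = 1 + y := by rw [hy]; abel
  have key : br (v c) (v a) * (v c⁻¹ * v a⁻¹) - br C A1 =
      (br C d + br e (A1 + d)) * (1 + y) + br C A1 * y := by
    rw [hy', hc', ha']
    exact ring_id1 C A1 e d y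
  rw [key]
  have m0 : (1 + y) ∈ I 0 := (I 0).add_mem one_mem (I_mono (by omega) hy1)
  exact (I (k+2)).add_mem (I_mul ((I (k+2)).add_mem (br_mem hC ha (by omega))
    (br_mem hc ((I 1).add_mem hA1 (I_mono (by omega) ha)) (by omega))) m0 (by omega))
    (I_mul (br_mem hC hA1 (k := k + 1) (by omega)) hy1 (by omega))

/-- two leading terms of a commutator -/
lemma step2 (c a : G) (k : ℕ) (hk : 1 ≤ k) (C C' A1 A2' X : R) (hC : C ∈ I k) (hC' : C' ∈ I (k+1))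
    (hA1 : A1 ∈ I 1) (hA2 : A2' ∈ I 2) (hX : X ∈ I 1)
    (hc : v c - 1 - C - C' ∈ I (k + 2)) (ha : v a - 1 - A1 - A2' ∈ I 3)
    (hy : v c⁻¹ * v a⁻¹ - 1 + X ∈ I 2) :
    v ⁅c, a⁆ - 1 - br C A1 - (br C' A1 + br C A2' - br C A1 * X) ∈ I (k + 3) := by
  rw [v_comm]
  obtain ⟨e, he⟩ : ∃ e, e = v c - 1 - C - C' := ⟨_, rfl⟩
  obtain ⟨d, hd⟩ : ∃ d, d = v a - 1 - A1 - A2' := ⟨_, rfl⟩
  obtain ⟨y, hy'⟩ : ∃ y, y = v c⁻¹ * v a⁻¹ - 1 + X := ⟨_, rfl⟩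
  rw [← he] at hc
  rw [← hd] at ha
  rw [← hy'] at hy
  have hc' : v c = 1 + C + C' + e := by rw [he]; abel
  have ha' : v a = 1 + A1 + A2' + d := by rw [hd]; abel
  have hy'' : v c⁻¹ * v a⁻¹ = 1 - X + y := by rw [hy']; abel
  have key : br (v c) (v a) * (v c⁻¹ * v a⁻¹) - br C A1 -
      (br C' A1 + br C A2' - br C A1 * X) =
      (br C d + br C' (A2' + d) + br e (A1 + A2' + d)) * (1 - X + y) +
      (br C' A1 + br C A2') * (y - X) + br C A1 * y := by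
    rw [hy'', hc', ha']
    exact ring_id2 C C' A1 A2' e d y X
  rw [key]
  have m0 : (1 - X + y) ∈ I 0 :=
    (I 0).add_mem ((I 0).sub_mem one_mem (I_mono (by omega) hX)) (I_mono (by omega) hy)
  have m1 : y - X ∈ I 1 := (I 1).sub_mem (I_mono (by omega) hy) hX
  refine (I (k+3)).add_mem ((I (k+3)).add_mem (I_mul (a := k+3) ?_ m0 (by omega))
    (I_mul (a := k+2) ?_ m1 (by omega))) (I_mul (br_mem hC hA1 (k := k + 1) (by omega)) hy (by omega))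
  · exact (I (k+3)).add_mem ((I (k+3)).add_mem (br_mem hC ha (by omega))
      (br_mem hC' ((I 2).add_mem hA2 (I_mono (by omega) ha)) (by omega)))
      (br_mem hc ((I 1).add_mem ((I 1).add_mem hA1 (I_mono (by omega) hA2))
      (I_mono (by omega) ha)) (by omega))
  · exact (I (k+2)).add_mem (br_mem hC' hA1 (by omega)) (br_mem hC hA2 (by omega))

lemma inv_lead (a : G) (A1 : R) (ha : v a - 1 - A1 ∈ I 2) :
    v a⁻¹ - 1 + A1 ∈ I 2 := by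
  have e : v a⁻¹ - 1 + A1 = - (v a - 1 - A1) - (v a - 1) * (v a⁻¹ - 1) := by
    rw [sub_mul, mul_sub, v_mul_inv]
    simp only [mul_one, one_mul]
    abel
  rw [e]
  exact (I 2).sub_mem ((I 2).neg_mem ha)
    (I_mul (v_one_mem a) (v_one_mem a⁻¹) (by omega))

lemma prod_lead (c a : G) (C1 A1 : R)
    (hc : v c⁻¹ - 1 + C1 ∈ I 2) (ha : v a⁻¹ - 1 + A1 ∈ I 2) :
    v c⁻¹ * v a⁻¹ - 1 + (A1 + C1) ∈ I 2 := by
  have e : v c⁻¹ * v a⁻¹ - 1 + (A1 + C1) = (v c⁻¹ - 1 + C1) + (v a⁻¹ - 1 + A1) +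
      (v c⁻¹ - 1) * (v a⁻¹ - 1) := by
    rw [sub_mul, mul_sub]
    simp only [mul_one, one_mul]
    abel
  rw [e]
  exact (I 2).add_mem ((I 2).add_mem hc ha)
    (I_mul (v_one_mem c⁻¹) (v_one_mem a⁻¹) (by omega))

/-- main commutator identity -/
lemma B_lemma (a b : G) (p q r s : ℤ) (l m : ℚ)
    (ha : v a - (1 + A p q + A2 p q l) ∈ I 3) (hb : v b - (1 + A r s + A2 r s m) ∈ I 3) :
    v ⁅⁅⁅⁅b, a⁆, a⁆, a⁆, a⁆ =
      1 + ((5 * (r * q - s * p) * (p * q * (p + q)) : ℤ) : ℚ) • E := by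
  have F := F6_eq p q r s l m
  have F5 := T5_zero (p : ℚ) q
  simp only at F
  obtain ⟨a1, ha1⟩ : ∃ a1, a1 = A (p : ℚ) q := ⟨_, rfl⟩
  obtain ⟨b1, hb1⟩ : ∃ b1, b1 = A (r : ℚ) s := ⟨_, rfl⟩
  obtain ⟨a2, ha2⟩ : ∃ a2, a2 = A2 (p : ℚ) q l := ⟨_, rfl⟩
  obtain ⟨b2, hb2⟩ : ∃ b2, b2 = A2 (r : ℚ) s m := ⟨_, rfl⟩
  have ma1 : a1 ∈ I 1 := by rw [ha1]; exact A_mem _ _
  have mb1 : b1 ∈ I 1 := by rw [hb1]; exact A_mem _ _
  have ma2 : a2 ∈ I 2 := by rw [ha2]; exact A2_mem _ _ _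
  have mb2 : b2 ∈ I 2 := by rw [hb2]; exact A2_mem _ _ _
  have hC2 : br b1 a1 = ((r * q - s * p : ℤ) : ℚ) • Om := by
    rw [hb1, ha1]; unfold br; rw [comm_AA]; push_cast; rfl
  rw [← ha1, ← hb1, ← ha2, ← hb2] at F
  rw [← ha1] at F5
  have ha' : v a - 1 - a1 - a2 ∈ I 3 := by
    have : v a - 1 - a1 - a2 = v a - (1 + A p q + A2 p q l) := by rw [ha1, ha2]; abel
    rw [this]; exact ha
  have hb' : v b - 1 - b1 - b2 ∈ I 3 := by
    have : v b - 1 - b1 - b2 = v b - (1 + A r s + A2 r s m) := by rw [hb1, hb2]; abel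
    rw [this]; exact hb
  have ha'' : v a - 1 - a1 ∈ I 2 := by
    have : v a - 1 - a1 = (v a - 1 - a1 - a2) + a2 := by abel
    rw [this]; exact (I 2).add_mem (I_mono (by omega) ha') ma2
  have hb'' : v b - 1 - b1 ∈ I 2 := by
    have : v b - 1 - b1 = (v b - 1 - b1 - b2) + b2 := by abel
    rw [this]; exact (I 2).add_mem (I_mono (by omega) hb') mb2
  have ia := inv_lead a a1 ha''
  have ib := inv_lead b b1 hb''
  obtain ⟨C2, hC2d⟩ : ∃ x, x = br b1 a1 := ⟨_, rfl⟩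
  rw [← hC2d] at F
  obtain ⟨C3, hC3d⟩ : ∃ x, x = br b2 a1 + br b1 a2 - C2 * (a1 + b1) := ⟨_, rfl⟩
  rw [← hC3d] at F
  obtain ⟨D3, hD3d⟩ : ∃ x, x = br C2 a1 := ⟨_, rfl⟩
  rw [← hD3d] at F
  obtain ⟨D4, hD4d⟩ : ∃ x, x = br C3 a1 + br C2 a2 - D3 * a1 := ⟨_, rfl⟩
  rw [← hD4d] at F
  obtain ⟨E4, hE4d⟩ : ∃ x, x = br D3 a1 := ⟨_, rfl⟩
  rw [← hE4d] at F
  obtain ⟨E5, hE5d⟩ : ∃ x, x = br D4 a1 + br D3 a2 - E4 * a1 := ⟨_, rfl⟩
  rw [← hE5d] at F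
  have mC2 : C2 ∈ I 2 := by rw [hC2d]; exact br_mem mb1 ma1 (by omega)
  have mC3 : C3 ∈ I 3 := by
    rw [hC3d]
    exact (I 3).sub_mem ((I 3).add_mem (br_mem mb2 ma1 (by omega)) (br_mem mb1 ma2 (by omega)))
      (I_mul mC2 ((I 1).add_mem ma1 mb1) (by omega))
  have mD3 : D3 ∈ I 3 := by rw [hD3d]; exact br_mem mC2 ma1 (by omega)
  have mD4 : D4 ∈ I 4 := by
    rw [hD4d]
    exact (I 4).sub_mem ((I 4).add_mem (br_mem mC3 ma1 (by omega)) (br_mem mC2 ma2 (by omega)))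
      (I_mul mD3 ma1 (by omega))
  have mE4 : E4 ∈ I 4 := by rw [hE4d]; exact br_mem mD3 ma1 (by omega)
  have mE5 : E5 ∈ I 5 := by
    rw [hE5d]
    exact (I 5).sub_mem ((I 5).add_mem (br_mem mD4 ma1 (by omega)) (br_mem mD3 ma2 (by omega)))
      (I_mul mE4 ma1 (by omega))
  -- first commutator
  have s1 : v ⁅b, a⁆ - 1 - C2 - C3 ∈ I 4 := by
    have h := step2 b a 1 le_rfl b1 b2 a1 a2 (a1 + b1) mb1 mb2 ma1 ma2 ((I 1).add_mem ma1 mb1)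
      hb' ha' (prod_lead b a b1 a1 ib ia)
    rw [← hC2d, ← hC3d] at h
    exact h
  have gen : ∀ (c : G) (k : ℕ) (C C' : R), 2 ≤ k → C ∈ I k → C' ∈ I (k+1) →
      v c - 1 - C - C' ∈ I (k + 2) →
      v ⁅c, a⁆ - 1 - br C a1 - (br C' a1 + br C a2 - br C a1 * a1) ∈ I (k + 3) := by
    intro c k C C' hk mC mC' hc
    refine step2 c a k (by omega) C C' a1 a2 a1 mC mC' ma1 ma2 ma1 hc ha' ?_
    have hc1 : v c - 1 ∈ I 2 := by
      have : v c - 1 = (v c - 1 - C - C') + (C + C') := by abel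
      rw [this]
      exact (I 2).add_mem (I_mono (by omega) hc)
        ((I 2).add_mem (I_mono (by omega) mC) (I_mono (by omega) mC'))
    have hc2 : v c⁻¹ - 1 + 0 ∈ I 2 := by rw [add_zero]; exact v_inv_sub c 2 hc1
    have := prod_lead c a 0 a1 hc2 ia
    rwa [add_zero] at this
  have s2 := gen _ 2 C2 C3 le_rfl mC2 mC3 s1
  rw [← hD3d, ← hD4d] at s2
  have s3 := gen _ 3 D3 D4 (by omega) mD3 mD4 s2
  rw [← hE4d, ← hE5d] at s3
  have s4 := gen _ 4 E4 E5 (by omega) mE4 mE5 s3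
  have hE4a : br E4 a1 = 0 := by
    have : br E4 a1 = ((r * q - s * p : ℤ) : ℚ) • br (br (br Om a1) a1) a1 := by
      rw [hE4d, hD3d, hC2d, hC2]
      unfold br
      simp only [smul_mul_assoc, mul_smul_comm, smul_sub, sub_mul, mul_sub]
    rw [this, F5, smul_zero]
  rw [F, hE4a, sub_zero] at s4
  have := I7 s4
  rw [sub_sub, sub_eq_zero] at this
  rw [this]
  push_cast
  rfl

end Pool.Agent.S0654
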