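import Mathlib

set_option autoImplicit false

namespace Pool.Agent.S0654

def om (u v : Fin 2 → ℤ) : ℤ := u 0 * v 1 - u 1 * v 0
def cub (u : Fin 2 → ℤ) : ℤ := u 0 * u 1 * (u 0 + u 1)

lemma smith2 (L : Submodule ℤ (Fin 2 → ℤ)) : ∃ (u0 v0 : Fin 2 → ℤ) (d1 d2 : ℤ),
    (om u0 v0 = 1 ∨ om u0 v0 = -1) ∧ d1 • u0 ∈ L ∧ d2 • v0 ∈ L ∧
    ∀ w ∈ L, ∃ x y : ℤ, w = (x * d1) • u0 + (y * d2) • v0 := by
  obtain ⟨n, snf⟩ := Submodule.smithNormalForm (Pi.basisFun ℤ (Fin 2)) L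
  classical
  let d : Fin 2 → ℤ := fun j => if h : ∃ i, snf.f i = j then snf.a h.choose else 0
  have hd : ∀ i, d (snf.f i) = snf.a i := by
    intro i
    have h : ∃ i', snf.f i' = snf.f i := ⟨i, rfl⟩
    have : d (snf.f i) = snf.a h.choose := dif_pos h
    rw [this, snf.f.injective h.choose_spec]
  refine ⟨snf.bM 0, snf.bM 1, d 0, d 1, ?_, ?_, ?_, ?_⟩
  · have key : ∀ e : Fin 2 → ℤ, ∃ x y : ℤ, e = x • snf.bM 0 + y • snf.bM 1 := by
      intro e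
      refine ⟨snf.bM.repr e 0, snf.bM.repr e 1, ?_⟩
      have := snf.bM.sum_repr e
      rw [Fin.sum_univ_two] at this
      exact this.symm
    obtain ⟨x, y, h0⟩ := key ![1, 0]
    obtain ⟨z, t, h1⟩ := key ![0, 1]
    have e1 : om (![1, 0] : Fin 2 → ℤ) ![0, 1] = 1 := by simp [om]
    have e2 : om (x • snf.bM 0 + y • snf.bM 1) (z • snf.bM 0 + t • snf.bM 1) =
        (x * t - y * z) * om (snf.bM 0) (snf.bM 1) := by
      unfold om
      simp only [Pi.add_apply, Pi.smul_apply, smul_eq_mul]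
      ring
    rw [h0, h1, e2] at e1
    exact Int.isUnit_iff.mp (IsUnit.of_mul_eq_one_right _ e1)
  · by_cases h : ∃ i, snf.f i = 0
    · obtain ⟨i, hi⟩ := h
      rw [← hi, hd, ← snf.snf]
      exact (snf.bN i).2
    · have : d 0 = 0 := dif_neg h
      rw [this, zero_smul]; exact L.zero_mem
  · by_cases h : ∃ i, snf.f i = 1
    · obtain ⟨i, hi⟩ := h
      rw [← hi, hd, ← snf.snf]
      exact (snf.bN i).2
    · have : d 1 = 0 := dif_neg h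
      rw [this, zero_smul]; exact L.zero_mem
  · intro w hw
    have h1 : w ∈ Submodule.span ℤ {d 0 • snf.bM 0, d 1 • snf.bM 1} := by
      have h2 := snf.bN.sum_repr ⟨w, hw⟩
      have h3 : w = ∑ i, snf.bN.repr ⟨w, hw⟩ i • ((snf.bN i : L) : Fin 2 → ℤ) := by
        have := congrArg (Subtype.val) h2
        simp only [Submodule.coe_sum, Submodule.coe_smul] at this
        exact this.symm
      rw [h3]
      refine Submodule.sum_mem _ (fun i _ => Submodule.smul_mem _ _ ?_)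
      rw [snf.snf, ← hd]
      generalize snf.f i = j
      apply Submodule.subset_span
      fin_cases j <;> simp
    obtain ⟨x, y, hxy⟩ := Submodule.mem_span_pair.mp h1
    refine ⟨x, y, ?_⟩
    rw [← hxy, smul_smul, smul_smul]

lemma disc_coprime (p q r s : ℤ) (h : p * s - q * r = 1 ∨ p * s - q * r = -1) :
    IsCoprime (p ^ 2 * q + p * q ^ 2)
      (2 * p * q * r + p ^ 2 * s + r * q ^ 2 + 2 * p * q * s) := by
  obtain ⟨α, hα⟩ : ∃ α, α = p ^ 2 * q + p * q ^ 2 := ⟨_, rfl⟩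
  obtain ⟨β, hβ⟩ : ∃ β, β = 2 * p * q * r + p ^ 2 * s + r * q ^ 2 + 2 * p * q * s := ⟨_, rfl⟩
  obtain ⟨γ, hγ⟩ : ∃ γ, γ = r ^ 2 * q + 2 * p * r * s + p * s ^ 2 + 2 * r * q * s := ⟨_, rfl⟩
  obtain ⟨δ, hδ⟩ : ∃ δ, δ = r ^ 2 * s + r * s ^ 2 := ⟨_, rfl⟩
  refine ⟨-4 * γ ^ 3 - 27 * α * δ ^ 2 + 18 * β * γ * δ, β * γ ^ 2 - 4 * β ^ 2 * δ, ?_⟩
  have e : (p * s - q * r) ^ 6 = 1 := by rcases h with h | h <;> rw [h] <;> norm_num
  rw [← hα, ← hβ, ← e, hα, hβ, hγ, hδ]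
  ring

lemma C_lemma (L : Submodule ℤ (Fin 2 → ℤ)) (J : AddSubgroup ℤ)
    (hJ : ∀ a ∈ L, ∀ b ∈ L, 5 * om b a * cub a ∈ J) :
    ∀ g : Fin 2 → ℤ, ∀ w ∈ L, ∀ u ∈ L, ∀ v ∈ L, ∀ a ∈ L, ∀ b ∈ L,
      10 * om g w * om u v * om a b ∈ J := by
  have hmul : ∀ (x t : ℤ), t ∈ J → x * t ∈ J := by
    intro x t ht
    have := J.zsmul_mem ht x
    simpa using this
  obtain ⟨u0, v0, d1, d2, hdet, hU, hV, hspan⟩ := smith2 L
  have hα : cub (d1 • u0) = d1 ^ 3 * (u0 0 ^ 2 * u0 1 + u0 0 * u0 1 ^ 2) := by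
    unfold cub; simp only [Pi.smul_apply, smul_eq_mul]; ring
  have hδ : cub (d2 • v0) = d2 ^ 3 * (v0 0 ^ 2 * v0 1 + v0 0 * v0 1 ^ 2) := by
    unfold cub; simp only [Pi.smul_apply, smul_eq_mul]; ring
  obtain ⟨α, hα'⟩ : ∃ α, α = u0 0 ^ 2 * u0 1 + u0 0 * u0 1 ^ 2 := ⟨_, rfl⟩
  obtain ⟨δ, hδ'⟩ : ∃ α, α = v0 0 ^ 2 * v0 1 + v0 0 * v0 1 ^ 2 := ⟨_, rfl⟩
  obtain ⟨β, hβ'⟩ : ∃ β, β = 2 * u0 0 * u0 1 * v0 0 + u0 0 ^ 2 * v0 1 + v0 0 * u0 1 ^ 2 +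
    2 * u0 0 * u0 1 * v0 1 := ⟨_, rfl⟩
  obtain ⟨γ, hγ'⟩ : ∃ γ, γ = 2 * v0 0 * v0 1 * u0 0 + v0 0 ^ 2 * u0 1 + u0 0 * v0 1 ^ 2 +
    2 * v0 0 * v0 1 * u0 1 := ⟨_, rfl⟩
  have cop1 : IsCoprime α β := by
    rw [hα', hβ']; exact disc_coprime _ _ _ _ hdet
  have cop2 : IsCoprime δ γ := by
    rw [hδ', hγ']
    apply disc_coprime
    unfold om at hdet
    rcases hdet with h | h
    · right; linarith
    · left; linarith
  obtain ⟨m, hm⟩ : ∃ m, m = om (d1 • u0) (d2 • v0) := ⟨_, rfl⟩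
  have hm' : m = d1 * d2 * om u0 v0 := by
    rw [hm]; unfold om; simp only [Pi.smul_apply, smul_eq_mul]; ring
  have hm2 : om (d2 • v0) (d1 • u0) = - m := by rw [hm]; unfold om; ring
  have j1 : 5 * m * (d1 ^ 3 * α) ∈ J := by
    have := hJ _ hU _ hV
    rw [hm2, hα, ← hα'] at this
    have h2 := J.neg_mem this
    convert h2 using 1; ring
  have j2 : 5 * m * (d2 ^ 3 * δ) ∈ J := by
    have := hJ _ hV _ hU
    rw [← hm, hδ, ← hδ'] at this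
    exact this
  have j3 : 5 * m * (d1 ^ 3 * α + d1 ^ 2 * d2 * β + d1 * d2 ^ 2 * γ + d2 ^ 3 * δ) ∈ J := by
    have := J.neg_mem (hJ _ (L.add_mem hU hV) _ hV)
    convert this using 1
    rw [hm, hα', hβ', hγ', hδ']
    unfold om cub
    simp only [Pi.add_apply, Pi.smul_apply, smul_eq_mul]
    ring
  have j4 : 5 * m * (d1 ^ 3 * α - d1 ^ 2 * d2 * β + d1 * d2 ^ 2 * γ - d2 ^ 3 * δ) ∈ J := by
    have := J.neg_mem (hJ _ (L.sub_mem hU hV) _ hV)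
    convert this using 1
    rw [hm, hα', hβ', hγ', hδ']
    unfold om cub
    simp only [Pi.sub_apply, Pi.smul_apply, smul_eq_mul]
    ring
  have jβ : 10 * m * (d1 ^ 2 * d2 * β) ∈ J := by
    have := J.sub_mem (J.sub_mem j3 j4) (hmul 2 _ j2)
    convert this using 1; ring
  have jγ : 10 * m * (d1 * d2 ^ 2 * γ) ∈ J := by
    have := J.sub_mem (J.add_mem j3 j4) (hmul 2 _ j1)
    convert this using 1; ring
  -- final
  intro g w hw u hu v hv a ha b hb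
  obtain ⟨x1, y1, rfl⟩ := hspan w hw
  obtain ⟨x2, y2, rfl⟩ := hspan u hu
  obtain ⟨x3, y3, rfl⟩ := hspan v hv
  obtain ⟨x4, y4, rfl⟩ := hspan a ha
  obtain ⟨x5, y5, rfl⟩ := hspan b hb
  have e1 : om ((x2 * d1) • u0 + (y2 * d2) • v0) ((x3 * d1) • u0 + (y3 * d2) • v0) =
      (x2 * y3 - y2 * x3) * m := by
    rw [hm]; unfold om; simp only [Pi.add_apply, Pi.smul_apply, smul_eq_mul]; ring
  have e2 : om ((x4 * d1) • u0 + (y4 * d2) • v0) ((x5 * d1) • u0 + (y5 * d2) • v0) =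
      (x4 * y5 - y4 * x5) * m := by
    rw [hm]; unfold om; simp only [Pi.add_apply, Pi.smul_apply, smul_eq_mul]; ring
  have e3 : om g ((x1 * d1) • u0 + (y1 * d2) • v0) = x1 * d1 * om g u0 + y1 * d2 * om g v0 := by
    unfold om; simp only [Pi.add_apply, Pi.smul_apply, smul_eq_mul]; ring
  rw [e1, e2, e3]
  by_cases hz : d1 = 0 ∧ d2 = 0
  · rw [hm', hz.1]; simp
  · have hpos : 0 < Int.gcd d1 d2 := by
      rw [Nat.pos_iff_ne_zero]
      intro h0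
      rw [Int.gcd_eq_zero_iff] at h0
      exact hz h0
    obtain ⟨d, f1, f2, hd0, hcop, hd1, hd2⟩ := Int.exists_gcd_one' hpos
    have hcop' : IsCoprime f1 f2 := Int.isCoprime_iff_gcd_eq_one.mpr hcop
    obtain ⟨P, Q, hPQ⟩ := hcop'.pow (m := 2) (n := 2)
    obtain ⟨A1, B1, hAB⟩ := cop1
    obtain ⟨A3, B3, hAB3⟩ := cop2
    have k1 : 10 * m * (d ^ 3 * f1 ^ 3 * f2) ∈ J := by
      have := J.add_mem (hmul (2 * A1 * f2) _ j1) (hmul (B1 * f1) _ jβ)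
      convert this using 1
      have : (10 * m * (d ^ 3 * f1 ^ 3 * f2) : ℤ) = 10 * m * (d ^ 3 * f1 ^ 3 * f2) * (A1 * α + B1 * β) := by
        rw [hAB, mul_one]
      rw [this, hd1, hd2]
      ring
    have k2 : 10 * m * (d ^ 3 * f1 * f2 ^ 3) ∈ J := by
      have := J.add_mem (hmul (2 * A3 * f1) _ j2) (hmul (B3 * f2) _ jγ)
      convert this using 1
      have : (10 * m * (d ^ 3 * f1 * f2 ^ 3) : ℤ) = 10 * m * (d ^ 3 * f1 * f2 ^ 3) * (A3 * δ + B3 * γ) := by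
        rw [hAB3, mul_one]
      rw [this, hd1, hd2]
      ring
    have k3 : 10 * m * (d ^ 3 * f1 * f2) ∈ J := by
      have := J.add_mem (hmul P _ k1) (hmul Q _ k2)
      convert this using 1
      have : (10 * m * (d ^ 3 * f1 * f2) : ℤ) = 10 * m * (d ^ 3 * f1 * f2) * (P * f1 ^ 2 + Q * f2 ^ 2) := by
        rw [hPQ, mul_one]
      rw [this]
      ring
    have e4 : m = d ^ 2 * f1 * f2 * om u0 v0 := by rw [hm', hd1, hd2]; ring
    have k4 := hmul ((x1 * f1 * om g u0 + y1 * f2 * om g v0) * (x2 * y3 - y2 * x3) *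
      (x4 * y5 - y4 * x5) * om u0 v0) _ k3
    convert k4 using 1
    have e5 : 10 * (x1 * d1 * om g u0 + y1 * d2 * om g v0) * ((x2 * y3 - y2 * x3) * m) *
      ((x4 * y5 - y4 * x5) * m) =
      10 * (x1 * d1 * om g u0 + y1 * d2 * om g v0) * ((x2 * y3 - y2 * x3) * m) *
      ((x4 * y5 - y4 * x5) * (d ^ 2 * f1 * f2 * om u0 v0)) := by rw [← e4]
    rw [e5, hd1, hd2]
    ring

end Pool.Agent.S0654
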