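import Pool.Statements.S0531
-- import your own Pool.Agent.* helpers here

set_option autoImplicit false
open Pool Pool.MP_5ee74f_al

namespace Pool.Agent.S0531

/-! ### Subgroups of free abelian groups are free -/

theorem submodule_free {F : Type*} [AddCommGroup F] [Module.Free ℤ F] (N : Submodule ℤ F) :
    Module.Free ℤ N := by
  classical
  let I := Module.Free.ChooseBasisIndex ℤ F
  let b : Module.Basis I ℤ F := Module.Free.chooseBasis ℤ F
  obtain ⟨lo, wf⟩ := exists_wellFoundedLT I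
  -- `A i`
  let A : I → Submodule ℤ F := fun i =>
    { carrier := {x | x ∈ N ∧ ∀ j, i < j → b.repr x j = 0}
      zero_mem' := ⟨N.zero_mem, fun j _ => by simp⟩
      add_mem' := fun {x y} hx hy => ⟨N.add_mem hx.1 hy.1, fun j hj => by
        rw [map_add, Finsupp.add_apply, hx.2 j hj, hy.2 j hj, add_zero]⟩
      smul_mem' := fun c x hx => ⟨N.smul_mem c hx.1, fun j hj => by
        rw [map_smul, Finsupp.smul_apply, hx.2 j hj, smul_zero]⟩ }
  let J : I → Submodule ℤ ℤ := fun i => (A i).map (b.coord i)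
  have hJ : ∀ i, ∃ n : ℤ, ∀ c, c ∈ J i ↔ n ∣ c := by
    intro i
    refine ⟨Submodule.IsPrincipal.generator (J i), fun c => ?_⟩
    rw [Submodule.IsPrincipal.mem_iff_eq_smul_generator (J i)]
    constructor
    · rintro ⟨q, rfl⟩; exact ⟨q, by rw [smul_eq_mul, mul_comm]⟩
    · rintro ⟨q, rfl⟩; exact ⟨q, by rw [smul_eq_mul, mul_comm]⟩
  choose n hn using hJ
  have hd : ∀ i, ∃ x ∈ A i, b.coord i x = n i := by
    intro i
    have := (hn i (n i)).mpr dvd_rfl
    exact this
  choose d hdA hdn using hd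
  let I' := {i : I // n i ≠ 0}
  let v : I' → N := fun i => ⟨d i, (hdA i).1⟩
  have hli : LinearIndependent ℤ v := by
    rw [linearIndependent_iff']
    intro s g hg
    by_contra hne
    push Not at hne
    obtain ⟨i1, hi1, hgi1⟩ := hne
    obtain ⟨i0, hi0, hmax⟩ := (s.filter (fun i => g i ≠ 0)).exists_max_image (fun i => (i : I))
      ⟨i1, Finset.mem_filter.mpr ⟨hi1, hgi1⟩⟩
    rw [Finset.mem_filter] at hi0
    have h1 : b.coord (i0 : I) ((∑ i ∈ s, g i • v i : N) : F) = 0 := by rw [hg]; simp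
    rw [Submodule.coe_sum, map_sum] at h1
    rw [Finset.sum_eq_single i0] at h1
    · have h2 : b.coord (i0 : I) ((g i0 • v i0 : N) : F) = g i0 * n i0 := by
        rw [Submodule.coe_smul, map_smul, smul_eq_mul, hdn]
      rw [h2] at h1
      rcases mul_eq_zero.mp h1 with h | h
      · exact hi0.2 h
      · exact i0.2 h
    · intro i hi hne
      rw [Submodule.coe_smul, map_smul]
      by_cases hgi : g i = 0
      · rw [hgi, zero_smul]
      · have hle : (i : I) ≤ i0 := hmax i (Finset.mem_filter.mpr ⟨hi, hgi⟩)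
        have hlt : (i : I) < i0 := lt_of_le_of_ne hle (fun h => hne (Subtype.ext h))
        have : b.coord (i0 : I) (v i : F) = 0 := (hdA i).2 i0 hlt
        rw [this, smul_zero]
    · intro h; exact absurd hi0.1 h
  have hspan : ∀ i, ∀ x (hx : x ∈ A i), (⟨x, hx.1⟩ : N) ∈ Submodule.span ℤ (Set.range v) := by
    intro i
    induction i using wf.induction with
    | ind i ih =>
      intro x hx
      obtain ⟨q, hq⟩ := (hn i (b.coord i x)).mp ⟨x, hx, rfl⟩
      -- x' = x - q d_i
      set x' := x - q • d i with hx'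
      have hx'A : x' ∈ A i := (A i).sub_mem hx ((A i).smul_mem q (hdA i))
      have hx'0 : b.repr x' i = 0 := by
        have : b.coord i x' = 0 := by
          rw [hx', map_sub, map_smul, hdn, hq, smul_eq_mul]; ring
        exact this
      have hmem : (⟨x', hx'A.1⟩ : N) ∈ Submodule.span ℤ (Set.range v) := by
        by_cases h0 : (b.repr x').support = ∅
        · have : x' = 0 := by
            rw [Finsupp.support_eq_empty] at h0
            exact b.repr.map_eq_zero_iff.mp h0
          have h2 : (⟨x', hx'A.1⟩ : N) = 0 := Subtype.ext this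
          rw [h2]; exact Submodule.zero_mem _
        · obtain ⟨j, hj, hjmax⟩ := (b.repr x').support.exists_max_image id (Finset.nonempty_iff_ne_empty.mpr h0)
          have hji : j < i := by
            by_contra hcon
            rcases lt_or_eq_of_le (not_lt.mp hcon) with h | h
            · exact (Finsupp.mem_support_iff.mp hj) (hx'A.2 j h)
            · rw [← h] at hj
              exact (Finsupp.mem_support_iff.mp hj) hx'0
          have hx'j : x' ∈ A j := ⟨hx'A.1, fun k hk => by
            by_contra hne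
            have := hjmax k (Finsupp.mem_support_iff.mpr hne)
            exact absurd hk (not_lt.mpr this)⟩
          exact ih j hji x' hx'j
      have hx2 : (⟨x, hx.1⟩ : N) = ⟨x', hx'A.1⟩ + q • (⟨d i, (hdA i).1⟩ : N) := by
        apply Subtype.ext
        show x = x' + q • d i
        rw [hx']; abel
      rw [hx2]
      apply Submodule.add_mem _ hmem
      apply Submodule.smul_mem
      by_cases hni : n i = 0
      · -- then d i has support < i
        have hd0 : b.repr (d i) i = 0 := by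
          have := hdn i
          rw [hni] at this
          exact this
        by_cases h0 : (b.repr (d i)).support = ∅
        · have : d i = 0 := by
            rw [Finsupp.support_eq_empty] at h0
            exact b.repr.map_eq_zero_iff.mp h0
          have h2 : (⟨d i, (hdA i).1⟩ : N) = 0 := Subtype.ext this
          rw [h2]; exact Submodule.zero_mem _
        · obtain ⟨j, hj, hjmax⟩ := (b.repr (d i)).support.exists_max_image id (Finset.nonempty_iff_ne_empty.mpr h0)
          have hji : j < i := by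
            by_contra hcon
            rcases lt_or_eq_of_le (not_lt.mp hcon) with h | h
            · exact (Finsupp.mem_support_iff.mp hj) ((hdA i).2 j h)
            · rw [← h] at hj
              exact (Finsupp.mem_support_iff.mp hj) hd0
          have hdj : d i ∈ A j := ⟨(hdA i).1, fun k hk => by
            by_contra hne
            have := hjmax k (Finsupp.mem_support_iff.mpr hne)
            exact absurd hk (not_lt.mpr this)⟩
          exact ih j hji (d i) hdj
      · exact Submodule.subset_span ⟨⟨i, hni⟩, rfl⟩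
  have htop : ⊤ ≤ Submodule.span ℤ (Set.range v) := by
    rintro ⟨x, hx⟩ -
    by_cases h0 : (b.repr x).support = ∅
    · have : x = 0 := by
        rw [Finsupp.support_eq_empty] at h0
        exact b.repr.map_eq_zero_iff.mp h0
      have h2 : (⟨x, hx⟩ : N) = 0 := Subtype.ext this
      rw [h2]; exact Submodule.zero_mem _
    · obtain ⟨j, hj, hjmax⟩ := (b.repr x).support.exists_max_image id (Finset.nonempty_iff_ne_empty.mpr h0)
      have hxj : x ∈ A j := ⟨hx, fun k hk => by
        by_contra hne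
        have := hjmax k (Finsupp.mem_support_iff.mpr hne)
        exact absurd hk (not_lt.mpr this)⟩
      exact hspan j x hxj
  exact Module.Free.of_basis (Module.Basis.mk hli htop)

/-! ### Finitely generated abelian groups -/

lemma fg_dual (M : Type) [AddCommGroup M] [Module.Finite ℤ M] :
    ∃ (n : ℕ) (e : Fin n → (M →+ ℤ)) (x : Fin n → M),
      (∀ φ : M →+ ℤ, ∀ y, φ y = ∑ i, φ (x i) * e i y) ∧
      (∀ i j, e i (x j) = if i = j then 1 else 0) ∧
      {y : M | ∀ i, e i y = 0}.Finite := by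
  classical
  let T := Submodule.torsion ℤ M
  let Q := M ⧸ T
  haveI : Module.IsTorsionFree ℤ Q := inferInstance
  haveI : Module.Finite ℤ Q := inferInstance
  let b := Module.finBasis ℤ Q
  have hsurj := T.mkQ_surjective
  choose x hx using fun i => hsurj (b i)
  have hTfin : (T : Set M).Finite := by
    haveI : Module.Finite ℤ T := inferInstance
    have htor : Module.IsTorsion ℤ T := Submodule.torsion_isTorsion
    haveI : Finite T := Module.finite_of_fg_torsion T htor
    exact Set.toFinite _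
  have hφT : ∀ (φ : M →+ ℤ) (y : M), y ∈ T → φ y = 0 := by
    intro φ y hy
    obtain ⟨a, ha⟩ := hy
    have h1 : (a : ℤ) • y = 0 := ha
    have h2 : (a : ℤ) * φ y = 0 := by
      rw [← smul_eq_mul, ← map_zsmul, h1, map_zero]
    rcases mul_eq_zero.mp h2 with h | h
    · exact absurd h (nonZeroDivisors.coe_ne_zero a)
    · exact h
  refine ⟨_, fun i => ((b.coord i).comp T.mkQ).toAddMonoidHom, x, ?_, ?_, ?_⟩
  · intro φ y
    have h1 : y - ∑ i, (b.coord i (T.mkQ y)) • x i ∈ T := by
      have : T.mkQ (y - ∑ i, (b.coord i (T.mkQ y)) • x i) = 0 := by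
        rw [map_sub, map_sum]
        simp_rw [map_smul, hx]
        have := b.sum_repr (T.mkQ y)
        simp only [Module.Basis.coord_apply]
        rw [this, sub_self]
      rwa [Submodule.mkQ_apply, Submodule.Quotient.mk_eq_zero] at this
    have h2 := hφT φ _ h1
    rw [map_sub, sub_eq_zero, map_sum] at h2
    rw [h2]
    apply Finset.sum_congr rfl
    intro i _
    rw [map_zsmul, smul_eq_mul, mul_comm]
    rfl
  · intro i j
    show b.coord i (T.mkQ (x j)) = _
    rw [hx, Module.Basis.coord_apply, Module.Basis.repr_self, Finsupp.single_apply]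
    simp [eq_comm]
  · refine hTfin.subset ?_
    intro y hy
    have : T.mkQ y = 0 := by
      apply b.ext_elem
      intro i
      have := hy i
      rw [map_zero]
      exact this
    rwa [Submodule.mkQ_apply, Submodule.Quotient.mk_eq_zero] at this

/-! ### The topological part -/

section top
variable {G : Type} [AddCommGroup G] [UniformSpace G] [IsUniformAddGroup G]
      [T2Space G] [CompleteSpace G]

variable (G) in
/-- continuous homomorphisms to `ℤ` -/
def CH : Submodule ℤ (G →+ ℤ) where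
  carrier := {φ | Continuous φ}
  zero_mem' := continuous_const
  add_mem' := fun {a b} ha hb => Continuous.add ha hb
  smul_mem' := fun c x hx => by
    show Continuous fun g => (c • x) g
    simp only [AddMonoidHom.smul_apply, smul_eq_mul]
    exact continuous_const.mul hx

lemma open_ker (Φ : CH G) : IsOpen ((Φ : G →+ ℤ).ker : Set G) := by
  have : ((Φ : G →+ ℤ).ker : Set G) = (Φ : G →+ ℤ) ⁻¹' {0} := by ext; simp [AddMonoidHom.mem_ker]
  rw [this]
  exact (isOpen_discrete _).preimage Φ.2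

lemma cont_of_open (ψ : G →+ ℤ) (U : AddSubgroup G) (hU : IsOpen (U : Set G)) (h : ∀ u ∈ U, ψ u = 0) :
    Continuous ψ := by
  apply continuous_of_continuousAt_zero ψ
  have h1 : (U : Set G) ∈ nhds (0 : G) := hU.mem_nhds U.zero_mem
  have h2 : (fun _ : G => (0:ℤ)) =ᶠ[nhds 0] ψ := by
    filter_upwards [h1] with u hu
    exact (h u hu).symm
  have h3 : ContinuousAt (fun _ : G => (0:ℤ)) 0 := continuousAt_const
  exact h3.congr h2

lemma fin_cover (K : Set G) (hK : IsCompact K) (U : AddSubgroup G) (hU : IsOpen (U : Set G)) :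
    ∃ t : Finset G, ∀ k ∈ K, ∃ y ∈ t, k - y ∈ U := by
  obtain ⟨t, -, ht⟩ := hK.elim_nhds_subcover (fun x => {y | y - x ∈ U}) (by
    intro x _
    have : IsOpen {y | y - x ∈ U} := hU.preimage (continuous_id.sub continuous_const)
    exact this.mem_nhds (by simp [U.zero_mem]))
  refine ⟨t, fun k hk => ?_⟩
  have := ht hk
  simp only [Set.mem_iUnion, Set.mem_ofPred_eq] at this
  obtain ⟨y, hy, h⟩ := this
  exact ⟨y, hy, h⟩

lemma quot_fg (K : Set G) (hK : IsCompact K) (hgen : AddSubgroup.closure K = ⊤)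
    (U : AddSubgroup G) (hU : IsOpen (U : Set G)) : Module.Finite ℤ (G ⧸ U) := by
  obtain ⟨t, ht⟩ := fin_cover K hK U hU
  have hfin : ((QuotientAddGroup.mk' U) '' K).Finite := by
    refine (t.finite_toSet.image (QuotientAddGroup.mk' U)).subset ?_
    rintro _ ⟨k, hk, rfl⟩
    obtain ⟨y, hy, h⟩ := ht k hk
    refine ⟨y, hy, ?_⟩
    rw [← sub_eq_zero, ← map_sub]
    have : k - y ∈ U := h
    exact (QuotientAddGroup.eq_zero_iff _).mpr (by rw [← neg_sub]; exact U.neg_mem this)
  rw [Module.Finite.iff_addGroup_fg, AddGroup.fg_iff]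
  refine ⟨(QuotientAddGroup.mk' U) '' K, ?_, hfin⟩
  rw [← AddMonoidHom.map_closure, hgen]
  exact AddSubgroup.map_top_of_surjective _ (QuotientAddGroup.mk'_surjective U)

lemma loc (K : Set G) (hK : IsCompact K) (hgen : AddSubgroup.closure K = ⊤)
    (U : AddSubgroup G) (hU : IsOpen (U : Set G)) :
    ∃ (n : ℕ) (e : Fin n → CH G) (x : Fin n → G),
      (∀ i, ∀ u ∈ U, (e i : G →+ ℤ) u = 0) ∧
      (∀ Φ : CH G, (∀ u ∈ U, (Φ : G →+ ℤ) u = 0) →
        Φ = ∑ i, ((Φ : G →+ ℤ) (x i)) • e i) ∧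
      (∀ i j, (e i : G →+ ℤ) (x j) = if i = j then 1 else 0) ∧
      ∃ F : Set G, F.Finite ∧ ∀ g, (∀ i, (e i : G →+ ℤ) g = 0) → ∃ y ∈ F, g - y ∈ U := by
  haveI := quot_fg K hK hgen U hU
  obtain ⟨n, e, x, h1, h2, h3⟩ := fg_dual (G ⧸ U)
  choose y hy using fun i => QuotientAddGroup.mk'_surjective U (x i)
  have hcont : ∀ i, Continuous ((e i).comp (QuotientAddGroup.mk' U)) := by
    intro i
    apply cont_of_open _ U hU
    intro u hu
    show e i (QuotientAddGroup.mk' U u) = 0
    have : QuotientAddGroup.mk' U u = 0 := (QuotientAddGroup.eq_zero_iff u).mpr hu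
    rw [this, map_zero]
  refine ⟨n, fun i => ⟨(e i).comp (QuotientAddGroup.mk' U), hcont i⟩, y, ?_, ?_, ?_, ?_⟩
  · intro i u hu
    show e i (QuotientAddGroup.mk' U u) = 0
    have : QuotientAddGroup.mk' U u = 0 := (QuotientAddGroup.eq_zero_iff u).mpr hu
    rw [this, map_zero]
  · intro Φ hΦ
    apply Subtype.ext
    ext g
    let φ : G ⧸ U →+ ℤ := QuotientAddGroup.lift U (Φ : G →+ ℤ) (fun u hu => hΦ u hu)
    have h4 := h1 φ (QuotientAddGroup.mk' U g)
    have h5 : ∀ g, φ (QuotientAddGroup.mk' U g) = (Φ : G →+ ℤ) g := fun g => rfl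
    rw [h5] at h4
    rw [h4]
    have h6 : ((∑ i, ((Φ : G →+ ℤ) (y i)) • (⟨(e i).comp (QuotientAddGroup.mk' U), hcont i⟩ : CH G) : CH G) : G →+ ℤ) g =
      ∑ i, ((Φ : G →+ ℤ) (y i)) * e i (QuotientAddGroup.mk' U g) := by
      rw [Submodule.coe_sum, AddMonoidHom.finsetSum_apply]
      rfl
    rw [h6]
    apply Finset.sum_congr rfl
    intro i _
    rw [← hy i, h5]
  · intro i j
    show e i (QuotientAddGroup.mk' U (y j)) = _
    rw [hy]; exact h2 i j
  · choose! s hs using QuotientAddGroup.mk'_surjective U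
    refine ⟨s '' {y | ∀ i, e i y = 0}, h3.image s, ?_⟩
    intro g hg
    refine ⟨s (QuotientAddGroup.mk' U g), ⟨_, hg, rfl⟩, ?_⟩
    rw [← QuotientAddGroup.eq_zero_iff]
    have := hs (QuotientAddGroup.mk' U g)
    show QuotientAddGroup.mk' U (g - s (QuotientAddGroup.mk' U g)) = 0
    rw [map_sub, this, sub_self]

lemma cauchy_of (hlin : ∀ s ∈ nhds (0 : G), ∃ U : AddSubgroup G, IsOpen (U : Set G) ∧ (U : Set G) ⊆ s)
    (𝒰 : Ultrafilter G)
    (h : ∀ U : AddSubgroup G, IsOpen (U : Set G) → ∃ F : Set G, F.Finite ∧ {g | ∃ y ∈ F, g - y ∈ U} ∈ 𝒰) :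
    Cauchy (𝒰 : Filter G) := by
  rw [cauchy_iff]
  refine ⟨inferInstance, ?_⟩
  intro s hs
  rw [uniformity_eq_comap_nhds_zero G] at hs
  obtain ⟨V, hV, hVs⟩ := hs
  obtain ⟨U, hU, hUV⟩ := hlin V hV
  obtain ⟨F, hF, hFU⟩ := h U hU
  have h1 : {g | ∃ y ∈ F, g - y ∈ U} = ⋃ y ∈ F, {g | g - y ∈ U} := by ext; simp
  rw [h1] at hFU
  rw [Ultrafilter.finite_biUnion_mem_iff hF] at hFU
  obtain ⟨y, hy, hyU⟩ := hFU
  refine ⟨_, hyU, ?_⟩
  rintro ⟨a, b⟩ ⟨ha, hb⟩
  apply hVs
  apply hUV
  show b - a ∈ U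
  have : b - a = (b - y) - (a - y) := by abel
  rw [this]
  exact U.sub_mem hb ha

lemma realize (hlin : ∀ s ∈ nhds (0 : G), ∃ U : AddSubgroup G, IsOpen (U : Set G) ∧ (U : Set G) ⊆ s)
    (K : Set G) (hK : IsCompact K) (hgen : AddSubgroup.closure K = ⊤) (f : CH G →+ ℤ) :
    ∃ g : G, ∀ Φ : CH G, (Φ : G →+ ℤ) g = f Φ := by
  let O := {U : AddSubgroup G // IsOpen (U : Set G)}
  let S : O → Set G := fun U => {g | ∀ Φ : CH G, (∀ u ∈ U.1, (Φ : G →+ ℤ) u = 0) → (Φ : G →+ ℤ) g = f Φ}
  have hne : ∀ U, (S U).Nonempty := by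
    intro U
    obtain ⟨n, e, x, h1, h2, h3, -⟩ := loc K hK hgen U.1 U.2
    refine ⟨∑ i, f (e i) • x i, ?_⟩
    intro Φ hΦ
    have h4 := h2 Φ hΦ
    rw [map_sum]
    conv_rhs => rw [h4]
    rw [map_sum]
    apply Finset.sum_congr rfl
    intro i _
    rw [map_zsmul, map_zsmul, smul_eq_mul, smul_eq_mul, mul_comm]
  haveI : Nonempty O := ⟨⟨⊤, isOpen_univ⟩⟩
  have hdir : Directed (· ≥ ·) S := by
    intro U U'
    refine ⟨⟨U.1 ⊓ U'.1, U.2.inter U'.2⟩, ?_, ?_⟩
    · intro g hg Φ hΦ
      exact hg Φ (fun u hu => hΦ u hu.1)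
    · intro g hg Φ hΦ
      exact hg Φ (fun u hu => hΦ u hu.2)
  have hNB : (⨅ U, Filter.principal (S U)).NeBot := by
    apply Filter.iInf_neBot_of_directed'
    · intro U U'
      obtain ⟨W, h1, h2⟩ := hdir U U'
      exact ⟨W, Filter.principal_mono.mpr h1, Filter.principal_mono.mpr h2⟩
    · intro U
      exact Filter.principal_neBot_iff.mpr (hne U)
  let 𝒰 : Ultrafilter G := Ultrafilter.of (⨅ U, Filter.principal (S U))
  have h𝒰 : ∀ U, S U ∈ 𝒰 := by
    intro U
    apply Ultrafilter.of_le (⨅ U, Filter.principal (S U))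
    exact Filter.mem_iInf_of_mem U (Filter.mem_principal_self _)
  have hC : Cauchy (𝒰 : Filter G) := by
    apply cauchy_of hlin
    intro U hU
    obtain ⟨n, e, x, h1, h2, h3, F, hF, hF'⟩ := loc K hK hgen U hU
    obtain ⟨g0, hg0⟩ := hne ⟨U, hU⟩
    refine ⟨(fun y => g0 + y) '' F, hF.image _, ?_⟩
    refine Filter.mem_of_superset (h𝒰 ⟨U, hU⟩) ?_
    intro g hg
    obtain ⟨y, hy, hyU⟩ := hF' (g - g0) (by
      intro i
      rw [map_sub, hg (e i) (h1 i), hg0 (e i) (h1 i), sub_self])
    refine ⟨g0 + y, ⟨y, hy, rfl⟩, ?_⟩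
    have : g - (g0 + y) = g - g0 - y := by abel
    rw [this]; exact hyU
  obtain ⟨g, hg⟩ := CompleteSpace.complete hC
  refine ⟨g, ?_⟩
  intro Φ
  have hcl : IsClosed (S ⟨(Φ : G →+ ℤ).ker, open_ker Φ⟩) := by
    have : S ⟨(Φ : G →+ ℤ).ker, open_ker Φ⟩ = ⋂ (Ψ : CH G) (_ : ∀ u ∈ (Φ : G →+ ℤ).ker, (Ψ : G →+ ℤ) u = 0),
        {g | (Ψ : G →+ ℤ) g = f Ψ} := by
      ext g; simp [S]
    rw [this]
    apply isClosed_iInter; intro Ψ
    apply isClosed_iInter; intro _
    exact isClosed_eq Ψ.2 continuous_const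
  have hmem : g ∈ S ⟨(Φ : G →+ ℤ).ker, open_ker Φ⟩ := by
    apply hcl.mem_of_tendsto (b := (𝒰 : Filter G)) (f := id) hg
    exact h𝒰 _
  exact hmem Φ (fun u hu => hu)

lemma bounded (K : Set G) (hK : IsCompact K) (Φ : CH G) : ∃ B : ℕ, ∀ k ∈ K, |(Φ : G →+ ℤ) k| ≤ B := by
  obtain ⟨t, ht⟩ := fin_cover K hK (Φ : G →+ ℤ).ker (open_ker Φ)
  refine ⟨t.sup (fun y => ((Φ : G →+ ℤ) y).natAbs), ?_⟩
  intro k hk
  obtain ⟨y, hy, h⟩ := ht k hk
  have h1 : (Φ : G →+ ℤ) k = (Φ : G →+ ℤ) y := by
    rw [AddMonoidHom.mem_ker, map_sub, sub_eq_zero] at h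
    exact h
  rw [h1, ← Int.natCast_natAbs]
  exact_mod_cast Finset.le_sup (f := fun y => ((Φ : G →+ ℤ) y).natAbs) hy

lemma word_bound (K : Set G) (hgen : AddSubgroup.closure K = ⊤) (B : CH G → ℕ)
    (hB : ∀ Φ : CH G, ∀ k ∈ K, |(Φ : G →+ ℤ) k| ≤ B Φ) (g : G) :
    ∃ N : ℕ, ∀ Φ : CH G, |(Φ : G →+ ℤ) g| ≤ N * B Φ := by
  have hg : g ∈ AddSubgroup.closure K := by rw [hgen]; trivial
  induction hg using AddSubgroup.closure_induction with
  | mem x hx => exact ⟨1, fun Φ => by simpa using hB Φ x hx⟩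
  | zero => exact ⟨0, fun Φ => by simp⟩
  | add x y _ _ hx hy =>
    obtain ⟨N, hN⟩ := hx
    obtain ⟨M, hM⟩ := hy
    refine ⟨N + M, fun Φ => ?_⟩
    rw [map_add]
    calc |(Φ : G →+ ℤ) x + (Φ : G →+ ℤ) y| ≤ |(Φ : G →+ ℤ) x| + |(Φ : G →+ ℤ) y| := abs_add_le _ _
      _ ≤ N * B Φ + M * B Φ := add_le_add (hN Φ) (hM Φ)
      _ = _ := by push_cast; ring
  | neg x _ hx =>
    obtain ⟨N, hN⟩ := hx
    exact ⟨N, fun Φ => by rw [map_neg, abs_neg]; exact hN Φ⟩

lemma CH_free (hlin : ∀ s ∈ nhds (0 : G), ∃ U : AddSubgroup G, IsOpen (U : Set G) ∧ (U : Set G) ⊆ s)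
    (K : Set G) (hK : IsCompact K) (hgen : AddSubgroup.closure K = ⊤) : Module.Free ℤ (CH G) := by
  haveI : CompactSpace K := isCompact_iff_compactSpace.mp hK
  haveI : TotallySeparatedSpace G := by
    constructor
    intro x _ y _ hxy
    obtain ⟨V, hV, hyV⟩ : ∃ V ∈ nhds (0:G), y - x ∉ V := by
      refine ⟨{y - x}ᶜ, isOpen_compl_singleton.mem_nhds ?_, by simp⟩
      simp only [Set.mem_compl_iff, Set.mem_singleton_iff]
      intro h
      exact hxy (sub_eq_zero.mp h.symm).symm
    obtain ⟨U, hU, hUV⟩ := hlin V hV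
    have hcl : IsClosed (U : Set G) := AddSubgroup.isClosed_of_isOpen U hU
    refine ⟨{g | g - x ∈ U}, {g | g - x ∉ U}, hU.preimage (continuous_id.sub continuous_const),
      (hcl.preimage (continuous_id.sub continuous_const)).isOpen_compl, by simp [U.zero_mem], ?_, ?_, ?_⟩
    · intro h
      exact hyV (hUV h)
    · intro g _
      by_cases h : g - x ∈ U
      · left; exact h
      · right; exact h
    · rw [Set.disjoint_left]
      intro g h1 h2
      exact h2 h1
  haveI : TotallyDisconnectedSpace K := inferInstance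
  let S : Profinite := Profinite.of K
  let r0 : CH G →+ LocallyConstant S ℤ :=
    { toFun := fun Φ => ⟨fun k : K => (Φ : G →+ ℤ) k, (IsLocallyConstant.iff_continuous _).mpr
        (Φ.2.comp continuous_subtype_val)⟩
      map_zero' := by ext; rfl
      map_add' := fun Φ Ψ => by ext; rfl }
  let r := r0.toIntLinearMap
  have hr : Function.Injective r := by
    rw [← LinearMap.ker_eq_bot, LinearMap.ker_eq_bot']
    intro Φ hΦ
    apply Subtype.ext
    ext g
    have hg : g ∈ AddSubgroup.closure K := by rw [hgen]; trivial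
    have hle : AddSubgroup.closure K ≤ (Φ : G →+ ℤ).ker := by
      rw [AddSubgroup.closure_le]
      intro k hk
      have := congrArg (fun F : LocallyConstant S ℤ => F ⟨k, hk⟩) hΦ
      exact this
    exact hle hg
  haveI : @Module.Free ℤ (LocallyConstant S ℤ) _ _ (AddCommGroup.toIntModule _) := by
    have h := LocallyConstant.freeOfProfinite S
    convert h using 1
  haveI : Module.Free ℤ (LinearMap.range r) := submodule_free _
  exact Module.Free.of_equiv (LinearEquiv.ofInjective r hr).symm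

lemma main (hlin : ∀ s ∈ nhds (0 : G), ∃ U : AddSubgroup G, IsOpen (U : Set G) ∧ (U : Set G) ⊆ s)
    (K : Set G) (hK : IsCompact K) (hgen : AddSubgroup.closure K = ⊤)
    (hcf : ∀ H : AddSubgroup G, IsCompact (H : Set G) → H = ⊥) : DiscreteTopology G := by
  haveI := CH_free hlin K hK hgen
  let ι := Module.Free.ChooseBasisIndex ℤ (CH G)
  let b : Module.Basis ι ℤ (CH G) := Module.Free.chooseBasis ℤ (CH G)
  choose B hB using bounded K hK
  have hfin : Finite ι := by
    by_contra hinf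
    haveI : Infinite ι := not_finite_iff_infinite.mp hinf
    let a : ℕ ↪ ι := Infinite.natEmbedding ι
    let w : ι → ℤ := Function.extend a (fun n => (n:ℤ) * (B (b (a n)) + 1)) 0
    let f : CH G →ₗ[ℤ] ℤ := b.constr ℤ w
    obtain ⟨g, hg⟩ := realize hlin K hK hgen f.toAddMonoidHom
    obtain ⟨N, hN⟩ := word_bound K hgen B hB g
    have h1 := hN (b (a (N+1)))
    have h2 : (b (a (N+1)) : G →+ ℤ) g = ((N+1 : ℕ):ℤ) * (B (b (a (N+1))) + 1) := by
      rw [hg]
      show f (b (a (N+1))) = _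
      simp only [f, Module.Basis.constr_basis, w]
      rw [a.injective.extend_apply]
    rw [h2] at h1
    have h3 : (0:ℤ) ≤ (B (b (a (N+1))) : ℤ) := Int.natCast_nonneg _
    have h4 := le_abs_self (((N+1 : ℕ):ℤ) * (B (b (a (N+1))) + 1))
    push_cast at h1 h4
    nlinarith [Int.natCast_nonneg N]
  let V : AddSubgroup G := ⨅ i : ι, (b i : G →+ ℤ).ker
  have hVmem : ∀ g, g ∈ V ↔ ∀ i, (b i : G →+ ℤ) g = 0 := by
    intro g
    simp [V, AddSubgroup.mem_iInf, AddMonoidHom.mem_ker]
  have hVopen : IsOpen (V : Set G) := by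
    have : (V : Set G) = ⋂ i : ι, ((b i : G →+ ℤ).ker : Set G) := by
      simp [V]
    rw [this]
    exact isOpen_iInter_of_finite (fun i => open_ker (b i))
  have hVall : ∀ g ∈ V, ∀ Φ : CH G, (Φ : G →+ ℤ) g = 0 := by
    intro g hg Φ
    rw [hVmem] at hg
    let ev : CH G →ₗ[ℤ] ℤ :=
      { toFun := fun Φ => (Φ : G →+ ℤ) g
        map_add' := fun _ _ => rfl
        map_smul' := fun _ _ => rfl }
    have : ev = 0 := by
      apply b.ext
      intro i
      exact hg i
    exact congrArg (fun L : CH G →ₗ[ℤ] ℤ => L Φ) this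
  have hVcomp : IsCompact (V : Set G) := by
    rw [isCompact_iff_ultrafilter_le_nhds]
    intro 𝒰 h𝒰
    have hC : Cauchy (𝒰 : Filter G) := by
      apply cauchy_of hlin
      intro U hU
      obtain ⟨n, e, x, h1, h2, h3, F, hF, hF'⟩ := loc K hK hgen U hU
      refine ⟨F, hF, ?_⟩
      refine Filter.mem_of_superset (Filter.le_principal_iff.mp h𝒰) ?_
      intro g hg
      exact hF' g (fun i => hVall g hg (e i))
    obtain ⟨g, hg⟩ := CompleteSpace.complete hC
    refine ⟨g, ?_, hg⟩
    have hcl : IsClosed (V : Set G) := AddSubgroup.isClosed_of_isOpen V hVopen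
    exact hcl.mem_of_tendsto (b := (𝒰 : Filter G)) (f := id) hg (Filter.le_principal_iff.mp h𝒰)
  have hVbot := hcf V hVcomp
  rw [hVbot] at hVopen
  apply discreteTopology_of_isOpen_singleton_zero
  simpa using hVopen

end top

/-- Every complete Hausdorff abelian group with a basis of open subgroups at 0, generated by a compact set, and with no nontrivial compact subgroups, is discrete and isomorphic to Z^n for some n. -/
theorem result :
    ∀ (G : Type) [AddCommGroup G] [UniformSpace G] [IsUniformAddGroup G]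
      [T2Space G] [CompleteSpace G],
      (∀ s ∈ nhds (0 : G), ∃ U : AddSubgroup G, IsOpen (U : Set G) ∧ (U : Set G) ⊆ s) →
      (∃ K : Set G, IsCompact K ∧ AddSubgroup.closure K = ⊤) →
      (∀ H : AddSubgroup G, IsCompact (H : Set G) → H = ⊥) →
      DiscreteTopology G ∧ ∃ n : ℕ, Nonempty (G ≃+ (Fin n → ℤ)) := by
  intro G _ _ _ _ _ hlin ⟨K, hK, hgen⟩ hcf
  have hdisc := main hlin K hK hgen hcf
  refine ⟨hdisc, ?_⟩
  have hKfin : K.Finite := isCompact_iff_finite.mp hK
  haveI hfg : Module.Finite ℤ G := by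
    rw [Module.Finite.iff_addGroup_fg, AddGroup.fg_iff]
    exact ⟨K, hgen, hKfin⟩
  haveI : Module.IsTorsionFree ℤ G := by
    rw [Submodule.isTorsionFree_iff_torsion_eq_bot]
    rw [Submodule.eq_bot_iff]
    intro x hx
    haveI : Module.Finite ℤ (Submodule.torsion ℤ G) := inferInstance
    haveI : Finite (Submodule.torsion ℤ G) := Module.finite_of_fg_torsion _ Submodule.torsion_isTorsion
    have hc : IsCompact ((Submodule.torsion ℤ G).toAddSubgroup : Set G) := (Set.toFinite _ : ((Submodule.torsion ℤ G : Set G)).Finite).isCompact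
    have := hcf _ hc
    have hx' : x ∈ (Submodule.torsion ℤ G).toAddSubgroup := hx
    rw [this] at hx'
    simpa using hx'
  exact ⟨_, ⟨(Module.finBasis ℤ G).equivFun.toAddEquiv⟩⟩

end Pool.Agent.S0531
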