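import Pool.Statements.S0554
-- import your own Pool.Agent.* helpers here

set_option autoImplicit false
open Pool Pool.MP_63a718_al

namespace Pool.Agent.S0554

/-! ### The Klein bottle group -/

@[ext] structure KB where
  a : ℤ
  b : ℤ

namespace KB

def sg (n : ℤ) : ℤ := if Even n then 1 else -1

lemma sg_add (m n : ℤ) : sg (m + n) = sg m * sg n := by
  unfold sg
  by_cases hm : Even m <;> by_cases hn : Even n <;> simp [Int.even_add, hm, hn]

lemma sg_neg (m : ℤ) : sg (-m) = sg m := by unfold sg; simp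

lemma sg_sq (m : ℤ) : sg m * sg m = 1 := by unfold sg; split_ifs <;> norm_num

lemma sg_zero : sg 0 = 1 := by unfold sg; simp

lemma sg_even {m : ℤ} (h : Even m) : sg m = 1 := by unfold sg; simp [h]

instance : Mul KB := ⟨fun g h => ⟨g.a + sg g.b * h.a, g.b + h.b⟩⟩
instance : One KB := ⟨⟨0, 0⟩⟩
instance : Inv KB := ⟨fun g => ⟨-(sg g.b * g.a), -g.b⟩⟩

lemma mul_a (g h : KB) : (g * h).a = g.a + sg g.b * h.a := rfl
lemma mul_b (g h : KB) : (g * h).b = g.b + h.b := rfl
lemma one_a : (1 : KB).a = 0 := rfl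
lemma one_b : (1 : KB).b = 0 := rfl
lemma inv_a (g : KB) : (g⁻¹).a = -(sg g.b * g.a) := rfl
lemma inv_b (g : KB) : (g⁻¹).b = -g.b := rfl

instance : Group KB := Group.ofLeftAxioms
  (by
    intro g h k
    apply KB.ext
    · simp only [mul_a, mul_b, sg_add]; ring
    · simp only [mul_b]; ring)
  (by
    intro g
    apply KB.ext
    · simp [mul_a, one_a, one_b, sg_zero]
    · simp [mul_b, one_b])
  (by
    intro g
    apply KB.ext
    · simp only [mul_a, inv_a, inv_b, sg_neg, one_a]; ring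
    · simp only [mul_b, inv_b, one_b]; ring)

def posR (g : KB) : Prop := 0 < g.b ∨ (g.b = 0 ∧ 0 < g.a)
def posB (g : KB) : Prop := 0 < g.a ∨ (g.a = 0 ∧ 0 < g.b)

def pos (m : ℤ) (g : KB) : Prop := if m = 0 then posB g else posR g

lemma posR_mul {g h : KB} (hg : posR g) (hh : posR h) : posR (g * h) := by
  unfold posR at *
  rw [mul_a, mul_b]
  rcases hg with hg | ⟨hg, hg'⟩ <;> rcases hh with hh | ⟨hh, hh'⟩
  · left; omega
  · left; omega
  · left; omega
  · right
    rw [hg, sg_zero]
    constructor <;> omega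

lemma posR_tot {g : KB} (hg : g ≠ 1) : posR g ∨ posR g⁻¹ := by
  unfold posR
  rw [inv_a, inv_b]
  rcases lt_trichotomy g.b 0 with h | h | h
  · right; left; omega
  · rcases lt_trichotomy g.a 0 with h' | h' | h'
    · right; right; rw [h, sg_zero]; constructor <;> omega
    · exact absurd (KB.ext h' h) hg
    · left; right; exact ⟨h, h'⟩
  · left; left; exact h

lemma posR_excl {g : KB} (hg : posR g) (hg' : posR g⁻¹) : False := by
  unfold posR at *
  rw [inv_a, inv_b] at hg'
  rcases hg with h | ⟨h, h1⟩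
  · rcases hg' with h' | ⟨h', -⟩ <;> omega
  · rw [h, sg_zero] at hg'
    rcases hg' with h' | ⟨-, h'⟩ <;> omega

lemma posB_mul {g h : KB} (eg : Even g.b) (hg : posB g) (hh : posB h) : posB (g * h) := by
  unfold posB at *
  rw [mul_a, mul_b, sg_even eg]
  omega

lemma posB_tot {g : KB} (eg : Even g.b) (hg : g ≠ 1) : posB g ∨ posB g⁻¹ := by
  unfold posB
  rw [inv_a, inv_b, sg_even eg]
  by_contra hcon
  apply hg
  apply KB.ext
  · rw [one_a]; omega
  · rw [one_b]; omega

lemma posB_excl {g : KB} (eg : Even g.b) (hg : posB g) (hg' : posB g⁻¹) : False := by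
  unfold posB at *
  rw [inv_a, inv_b, sg_even eg] at hg'
  omega

end KB

open KB

/-! ### lexicographic positivity on sequences -/

def InM (f : ℤ → KB) : Prop := (∀ n < 0, f n = 1) ∧ Even (f 0).b

def lex (f : ℤ → KB) : Prop := ∃ m : ℤ, (∀ n < m, f n = 1) ∧ pos m (f m)

lemma InM_mul {f g : ℤ → KB} (hf : InM f) (hg : InM g) : InM (f * g) := by
  refine ⟨?_, ?_⟩
  · intro n hn
    rw [Pi.mul_apply, hf.1 n hn, hg.1 n hn, one_mul]
  · rw [Pi.mul_apply, KB.mul_b]
    exact hf.2.add hg.2

lemma InM_inv {f : ℤ → KB} (hf : InM f) : InM f⁻¹ := by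
  refine ⟨?_, ?_⟩
  · intro n hn
    rw [Pi.inv_apply, hf.1 n hn, inv_one]
  · rw [Pi.inv_apply, KB.inv_b]
    exact hf.2.neg

lemma lex_mul {f g : ℤ → KB} (hf : InM f) (hlf : lex f) (hlg : lex g) : lex (f * g) := by
  obtain ⟨m, hm1, hm2⟩ := hlf
  obtain ⟨m', hm1', hm2'⟩ := hlg
  rcases lt_trichotomy m m' with h | h | h
  · refine ⟨m, ?_, ?_⟩
    · intro n hn
      rw [Pi.mul_apply, hm1 n hn, hm1' n (by omega), one_mul]
    · rw [Pi.mul_apply, hm1' m h, mul_one]; exact hm2
  · subst h
    refine ⟨m, ?_, ?_⟩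
    · intro n hn
      rw [Pi.mul_apply, hm1 n hn, hm1' n hn, one_mul]
    · rw [Pi.mul_apply]
      unfold pos at *
      split_ifs at * with h0
      · subst h0
        exact posB_mul hf.2 hm2 hm2'
      · exact posR_mul hm2 hm2'
  · refine ⟨m', ?_, ?_⟩
    · intro n hn
      rw [Pi.mul_apply, hm1 n (by omega), hm1' n hn, one_mul]
    · rw [Pi.mul_apply, hm1 m' h, one_mul]; exact hm2'

lemma lex_tot {f : ℤ → KB} (hf : InM f) (hne : f ≠ 1) : lex f ∨ lex f⁻¹ := by
  obtain ⟨n0, hn0⟩ := Function.ne_iff.mp hne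
  obtain ⟨m, hm1, hm2⟩ := Int.exists_least_of_bdd (P := fun n => f n ≠ 1) ⟨0, by
    intro n hn
    by_contra hcon
    exact hn (hf.1 n (by omega))⟩ ⟨n0, hn0⟩
  have hlow : ∀ n < m, f n = 1 := by
    intro n hn
    by_contra hcon
    have := hm2 n hcon
    omega
  by_cases h0 : m = 0
  · subst h0
    rcases posB_tot hf.2 hm1 with h | h
    · left; exact ⟨0, hlow, by unfold pos; simpa using h⟩
    · right; exact ⟨0, fun n hn => by rw [Pi.inv_apply, hlow n hn, inv_one], by unfold pos; simpa using h⟩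
  · rcases posR_tot hm1 with h | h
    · left; exact ⟨m, hlow, by unfold pos; rw [if_neg h0]; exact h⟩
    · right; exact ⟨m, fun n hn => by rw [Pi.inv_apply, hlow n hn, inv_one], by
        unfold pos; rw [if_neg h0]; exact h⟩

lemma pos_ne_one {m : ℤ} {g : KB} (h : pos m g) : g ≠ 1 := by
  rintro rfl
  unfold pos posB posR at h
  rw [one_a, one_b] at h
  split_ifs at h <;> omega

lemma lex_excl {f : ℤ → KB} (hf : InM f) (h1 : lex f) (h2 : lex f⁻¹) : False := by
  obtain ⟨m, hm1, hm2⟩ := h1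
  obtain ⟨m', hm1', hm2'⟩ := h2
  have hmm : m = m' := by
    rcases lt_trichotomy m m' with h | h | h
    · have := hm1' m h
      rw [Pi.inv_apply, inv_eq_one] at this
      exact absurd this (pos_ne_one hm2)
    · exact h
    · have := hm1 m' h
      apply absurd _ (pos_ne_one hm2')
      rw [Pi.inv_apply, this, inv_one]
  subst hmm
  rw [Pi.inv_apply] at hm2'
  unfold pos at hm2 hm2'
  split_ifs at hm2 hm2' with h0
  · subst h0
    exact posB_excl hf.2 hm2 hm2'
  · exact posR_excl hm2 hm2'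

/-! ### The group -/

@[ext] structure GG where
  f : ℤ → KB
  k : ℤ

namespace GG

instance : Mul GG := ⟨fun g h => ⟨fun n => g.f n * h.f (n - g.k), g.k + h.k⟩⟩
instance : One GG := ⟨⟨1, 0⟩⟩
instance : Inv GG := ⟨fun g => ⟨fun n => (g.f (n + g.k))⁻¹, -g.k⟩⟩

lemma mul_f (g h : GG) (n : ℤ) : (g * h).f n = g.f n * h.f (n - g.k) := rfl
lemma mul_k (g h : GG) : (g * h).k = g.k + h.k := rfl
lemma one_f (n : ℤ) : (1 : GG).f n = 1 := rfl
lemma one_k : (1 : GG).k = 0 := rfl
lemma inv_f (g : GG) (n : ℤ) : (g⁻¹).f n = (g.f (n + g.k))⁻¹ := rfl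
lemma inv_k (g : GG) : (g⁻¹).k = -g.k := rfl

instance : Group GG := Group.ofLeftAxioms
  (by
    intro g h k
    apply GG.ext
    · funext n
      simp only [mul_f, mul_k, mul_assoc, sub_sub]
    · simp only [mul_k]; ring)
  (by
    intro g
    apply GG.ext
    · funext n
      simp [mul_f, one_f, one_k]
    · simp [mul_k, one_k])
  (by
    intro g
    apply GG.ext
    · funext n
      simp [mul_f, inv_f, inv_k, one_f]
    · simp [mul_k, inv_k, one_k])

/-- positive cone -/
def P (g : GG) : Prop := InM g.f ∧ (0 < g.k ∨ (g.k = 0 ∧ (g = 1 ∨ lex g.f)))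

lemma P_one : P 1 := ⟨⟨fun n _ => rfl, by rw [one_f, one_b]; exact Even.zero⟩, Or.inr ⟨rfl, Or.inl rfl⟩⟩

lemma InM_of {g h : GG} (hg : InM g.f) (hk : 0 ≤ g.k) (hh : InM h.f) : InM (g * h).f := by
  refine ⟨?_, ?_⟩
  · intro n hn
    rw [mul_f, hg.1 n hn, hh.1 _ (by omega), one_mul]
  · rw [mul_f, KB.mul_b]
    apply hg.2.add
    rcases hk.lt_or_eq with h | h
    · rw [hh.1 _ (by omega), one_b]; exact Even.zero
    · rw [← h, sub_zero]; exact hh.2

lemma P_k {g : GG} (h : P g) : 0 ≤ g.k := by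
  rcases h.2 with h | ⟨h, -⟩ <;> omega

lemma P_mul {g h : GG} (hg : P g) (hh : P h) : P (g * h) := by
  refine ⟨InM_of hg.1 (P_k hg) hh.1, ?_⟩
  have h1 := P_k hg
  have h2 := P_k hh
  rw [mul_k]
  rcases hg.2 with h3 | ⟨h3, h4⟩
  · left; omega
  · rcases hh.2 with h5 | ⟨h5, h6⟩
    · left; omega
    · right
      refine ⟨by omega, ?_⟩
      rcases h4 with rfl | h4
      · rw [one_mul]; exact h6
      · rcases h6 with rfl | h6
        · rw [mul_one]; right; exact h4
        · right
          have : (g * h).f = g.f * h.f := by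
            funext n
            rw [mul_f, h3, sub_zero, Pi.mul_apply]
          rw [this]
          exact lex_mul hg.1 h4 h6

lemma P_antisymm {g : GG} (h1 : P g) (h2 : P g⁻¹) : g = 1 := by
  have k1 := P_k h1
  have k2 := P_k h2
  rw [inv_k] at k2
  have k0 : g.k = 0 := by omega
  rcases h1.2 with h | ⟨-, h | h⟩
  · omega
  · exact h
  · rcases h2.2 with h' | ⟨-, h' | h'⟩
    · rw [inv_k] at h'; omega
    · exact inv_eq_one.mp h'
    · exfalso
      have : (g⁻¹).f = (g.f)⁻¹ := by
        funext n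
        rw [inv_f, k0, add_zero, Pi.inv_apply]
      rw [this] at h'
      exact lex_excl h1.1 h h'

lemma P_chain_aux {a b : GG} (ha : P a) (hb : P b) (hk : a.k ≤ b.k) : P (b * a⁻¹) ∨ P (a * b⁻¹) := by
  have hM : InM (b * a⁻¹).f := by
    refine ⟨?_, ?_⟩
    · intro n hn
      rw [mul_f, inv_f, hb.1.1 n hn, ha.1.1 _ (by omega), inv_one, one_mul]
    · rw [mul_f, inv_f, KB.mul_b, KB.inv_b]
      apply hb.1.2.add
      apply Even.neg
      rcases hk.lt_or_eq with h | h
      · rw [ha.1.1 _ (by omega), one_b]; exact Even.zero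
      · have : 0 - b.k + a.k = 0 := by omega
        rw [this]; exact ha.1.2
  rcases hk.lt_or_eq with h | h
  · left
    refine ⟨hM, Or.inl ?_⟩
    rw [mul_k, inv_k]; omega
  · have hk0 : (b * a⁻¹).k = 0 := by rw [mul_k, inv_k]; omega
    by_cases h1 : b * a⁻¹ = 1
    · left; rw [h1]; exact P_one
    · have hne : (b * a⁻¹).f ≠ 1 := by
        intro hf
        apply h1
        exact GG.ext hf hk0
      rcases lex_tot hM hne with hl | hl
      · left; exact ⟨hM, Or.inr ⟨hk0, Or.inr hl⟩⟩
      · right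
        have hinv : a * b⁻¹ = (b * a⁻¹)⁻¹ := by group
        have hf : ((b * a⁻¹)⁻¹).f = ((b * a⁻¹).f)⁻¹ := by
          funext n
          rw [inv_f, hk0, add_zero, Pi.inv_apply]
        rw [hinv]
        refine ⟨?_, Or.inr ⟨?_, Or.inr ?_⟩⟩
        · rw [hf]; exact InM_inv hM
        · rw [inv_k, hk0, neg_zero]
        · rw [hf]; exact hl

lemma P_chain {a b : GG} (ha : P a) (hb : P b) : P (b * a⁻¹) ∨ P (a * b⁻¹) := by
  rcases le_total a.k b.k with h | h
  · exact P_chain_aux ha hb h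
  · exact (P_chain_aux hb ha h).symm

def bdd : Subgroup GG where
  carrier := {g | ∃ N : ℤ, ∀ n < N, g.f n = 1}
  one_mem' := ⟨0, fun n _ => rfl⟩
  mul_mem' := by
    rintro g h ⟨N, hN⟩ ⟨N', hN'⟩
    refine ⟨min N (N' + g.k), ?_⟩
    intro n hn
    rw [mul_f, hN n (by omega), hN' _ (by omega), one_mul]
  inv_mem' := by
    rintro g ⟨N, hN⟩
    refine ⟨N - g.k, ?_⟩
    intro n hn
    rw [inv_f, hN _ (by omega), inv_one]

def T (N : ℤ) : GG := ⟨1, N⟩

lemma T_P {N : ℤ} (hN : 0 < N) : P (T N) :=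
  ⟨⟨fun n _ => rfl, by show Even (1 : KB).b; rw [one_b]; exact Even.zero⟩, Or.inl hN⟩

lemma T_mem (N : ℤ) : T N ∈ bdd := ⟨0, fun n _ => rfl⟩

lemma absorb {g : GG} (hg : g ∈ bdd) : ∃ N, 0 < N ∧ P (T N * g) := by
  obtain ⟨N0, hN0⟩ := hg
  refine ⟨1 + |N0| + |g.k|, by positivity, ?_⟩
  have h1 := neg_abs_le N0
  have h2 := neg_abs_le g.k
  have h3 := abs_nonneg N0
  have h4 := abs_nonneg g.k
  have hf : ∀ n, (T (1 + |N0| + |g.k|) * g).f n = g.f (n - (1 + |N0| + |g.k|)) := by
    intro n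
    rw [mul_f]
    show (1:KB) * _ = _
    rw [one_mul]; rfl
  have hk : (T (1 + |N0| + |g.k|) * g).k = (1 + |N0| + |g.k|) + g.k := rfl
  refine ⟨⟨?_, ?_⟩, Or.inl ?_⟩
  · intro n hn
    rw [hf]
    apply hN0
    omega
  · rw [hf, hN0 _ (by omega), one_b]; exact Even.zero
  · rw [hk]; omega

def single (g : KB) : GG := ⟨fun n => if n = 0 then g else 1, 0⟩

lemma single_mul (g h : KB) : single g * single h = single (g * h) := by
  apply GG.ext
  · funext n
    rw [mul_f]
    show (if n = 0 then g else 1) * (if n - 0 = 0 then h else 1) = if n = 0 then g * h else 1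
    rw [sub_zero]
    split_ifs <;> simp
  · rfl

lemma single_mem (g : KB) : single g ∈ bdd := ⟨0, fun n hn => by
  show (if n = 0 then g else 1) = 1
  rw [if_neg (by omega)]⟩

lemma single_P {g : KB} (he : Even g.b) (hp : posB g) : P (single g) := by
  refine ⟨⟨?_, ?_⟩, Or.inr ⟨rfl, Or.inr ⟨0, ?_, ?_⟩⟩⟩
  · intro n hn
    show (if n = 0 then g else 1) = 1
    rw [if_neg (by omega)]
  · show Even (if (0:ℤ) = 0 then g else 1).b
    rw [if_pos rfl]; exact he
  · intro n hn
    show (if n = 0 then g else 1) = 1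
    rw [if_neg (by omega)]
  · unfold pos
    rw [if_pos rfl]
    show posB (if (0:ℤ) = 0 then g else 1)
    rw [if_pos rfl]; exact hp

lemma single_inj {g h : KB} (he : single g = single h) : g = h := by
  have := congrArg (fun x : GG => x.f 0) he
  simpa [single] using this

end GG

open GG

/-- The negation of the preceding statement: For every group G and every right-invariant, upward-directed partial order on G whose positive cone is a chain, there is a right-invariant total order on G that contains it. -/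
theorem result :
    ¬ (∀ (G : Type) [Group G] (r : G → G → Prop),
      (∀ a : G, r a a) →
      (∀ a b : G, r a b → r b a → a = b) →
      (∀ a b c : G, r a b → r b c → r a c) →
      (∀ a b c : G, r a b → r (a * c) (b * c)) →
      (∀ a b : G, ∃ c : G, r a c ∧ r b c) →
      (∀ a b : G, r 1 a → r 1 b → r a b ∨ r b a) →
      ∃ s : G → G → Prop,
        (∀ a : G, s a a) ∧
        (∀ a b : G, s a b → s b a → a = b) ∧
        (∀ a b c : G, s a b → s b c → s a c) ∧
        (∀ a b : G, s a b ∨ s b a) ∧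
        (∀ a b c : G, s a b → s (a * c) (b * c)) ∧
        (∀ a b : G, r a b → s a b)) := by
  intro H
  obtain ⟨s, srefl, santi, strans, stot, sinv, sext⟩ := H bdd (fun a b => P ((b : GG) * (a : GG)⁻¹))
    (by
      intro a
      rw [mul_inv_cancel]; exact P_one)
    (by
      intro a b h1 h2
      have h3 : ((b : GG) * (a : GG)⁻¹)⁻¹ = (a : GG) * (b : GG)⁻¹ := by group
      rw [← h3] at h2
      have h4 := P_antisymm h1 h2
      exact Subtype.ext (mul_inv_eq_one.mp h4).symm)
    (by
      intro a b c h1 h2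
      have := P_mul h2 h1
      have h3 : (c : GG) * (b : GG)⁻¹ * ((b : GG) * (a : GG)⁻¹) = c * (a : GG)⁻¹ := by group
      rw [h3] at this
      exact this)
    (by
      intro a b c h
      have h3 : ((b * c : bdd) : GG) * ((a * c : bdd) : GG)⁻¹ = (b : GG) * (a : GG)⁻¹ := by
        rw [Subgroup.coe_mul, Subgroup.coe_mul]; group
      simp only [h3]
      exact h)
    (by
      intro a b
      obtain ⟨N, hN, hP⟩ := absorb (g := (b : GG) * (a : GG)⁻¹) (bdd.mul_mem b.2 (bdd.inv_mem a.2))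
      refine ⟨⟨T N * b, bdd.mul_mem (T_mem N) b.2⟩, ?_, ?_⟩
      · show P (T N * (b : GG) * (a : GG)⁻¹)
        rw [mul_assoc]; exact hP
      · show P (T N * (b : GG) * (b : GG)⁻¹)
        rw [mul_assoc, mul_inv_cancel, mul_one]; exact T_P hN)
    (by
      intro a b ha hb
      simp only [Subgroup.coe_one, inv_one, mul_one] at ha hb
      exact P_chain ha hb)
  have hs1 : ∀ g : KB, Even g.b → posB g → s 1 ⟨single g, single_mem g⟩ := by
    intro g he hp
    apply sext
    show P (single g * ((1 : bdd) : GG)⁻¹)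
    rw [Subgroup.coe_one, inv_one, mul_one]
    exact single_P he hp
  have hmul : ∀ g h : KB, (⟨single g, single_mem g⟩ : bdd) * ⟨single h, single_mem h⟩ =
      ⟨single (g * h), single_mem (g * h)⟩ := by
    intro g h
    apply Subtype.ext
    exact single_mul g h
  have hone : (1 : bdd) = ⟨single 1, single_mem 1⟩ := by
    apply Subtype.ext
    apply GG.ext
    · funext n
      show (1 : KB) = if n = 0 then 1 else 1
      simp
    · rfl
  set X : bdd := ⟨single ⟨0, 1⟩, single_mem _⟩ with hX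
  set Z : bdd := ⟨single ⟨1, 0⟩, single_mem _⟩ with hZ
  set W : bdd := ⟨single ⟨1, -2⟩, single_mem _⟩ with hW
  have hXX : X * X = ⟨single ⟨0, 2⟩, single_mem _⟩ := by
    rw [hX, hmul]
    rfl
  have hZ1 : s 1 Z := hs1 _ ⟨0, rfl⟩ (Or.inl (by norm_num))
  have hXX1 : s 1 (X * X) := by
    rw [hXX]
    exact hs1 _ ⟨1, rfl⟩ (Or.inr ⟨rfl, by norm_num⟩)
  have hW1 : s 1 W := hs1 _ ⟨-1, rfl⟩ (Or.inl (by norm_num))
  have hX1 : s 1 X := by
    rcases stot 1 X with h | h
    · exact h
    · exfalso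
      have h1 := sinv X 1 X h
      rw [one_mul] at h1
      have h2 := strans _ _ _ h1 h
      have h3 := santi _ _ h2 hXX1
      rw [hXX, hone] at h3
      have h4 := single_inj (congrArg Subtype.val h3)
      have h5 := congrArg KB.b h4
      rw [one_b] at h5
      norm_num at h5
  have hXZX : s 1 (X * (Z * X)) := by
    have h1 := sinv 1 Z X hZ1
    rw [one_mul] at h1
    have h2 := sinv 1 X (Z * X) hX1
    rw [one_mul] at h2
    exact strans _ _ _ (strans _ _ _ hX1 h1) h2
  have hWX : W * (X * (Z * X)) = 1 := by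
    rw [hX, hZ, hW, hmul, hmul, hmul, hone]
    congr 2
  have h1 := sinv 1 W (X * (Z * X)) hW1
  rw [one_mul, hWX] at h1
  have h2 := santi _ _ h1 hXZX
  rw [h2, mul_one] at hWX
  rw [hW, hone] at hWX
  have h4 := single_inj (congrArg Subtype.val hWX)
  have h5 := congrArg KB.b h4
  rw [one_b] at h5
  norm_num at h5

end Pool.Agent.S0554
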