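import Pool.Statements.S0563

set_option autoImplicit false
open Pool Pool.MP_67f4ab_al

namespace Pool.Agent.S0563

section gen

open Classical

variable {G : Type} [Group G]

structure HQ (φ : G → ℝ) (D : ℝ) : Prop where
  q : ∀ g h, |φ (g * h) - φ g - φ h| ≤ D
  hom : ∀ g (n : ℕ), φ (g ^ n) = n * φ g

lemma arch (x C : ℝ) (h : ∀ n : ℕ, (n : ℝ) * |x| ≤ C) : x = 0 := by
  by_contra hx
  have hx' : 0 < |x| := abs_pos.mpr hx
  obtain ⟨n, hn⟩ := exists_nat_gt (C / |x|)
  have := h n
  rw [div_lt_iff₀ hx'] at hn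
  linarith

namespace HQ

variable {φ : G → ℝ} {D : ℝ} (H : HQ φ D)
include H

lemma one : φ 1 = 0 := by
  have := H.hom 1 0
  simpa using this

lemma Dnn : 0 ≤ D := (abs_nonneg _).trans (H.q 1 1)

lemma inv (g : G) : φ g⁻¹ = - φ g := by
  have : φ g + φ g⁻¹ = 0 := by
    apply arch _ D
    intro n
    have h := H.q (g ^ n) (g⁻¹ ^ n)
    rw [H.hom, H.hom] at h
    have h1 : g ^ n * g⁻¹ ^ n = 1 := by simp
    rw [h1, H.one] at h
    have h2 : (0 : ℝ) - n * φ g - n * φ g⁻¹ = - (n * (φ g + φ g⁻¹)) := by ring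
    rw [h2, abs_neg, abs_mul, Nat.abs_cast] at h
    exact h
  linarith

lemma conj (h g : G) : φ (h * g * h⁻¹) = φ g := by
  have : φ (h * g * h⁻¹) - φ g = 0 := by
    apply arch _ (2 * D)
    intro n
    have h0 : (h * g * h⁻¹) ^ n = h * g ^ n * h⁻¹ := conj_pow
    have h1 := H.hom (h * g * h⁻¹) n
    rw [h0] at h1
    have h2 := H.hom g n
    have h3 := H.q (h * g ^ n) h⁻¹
    have h4 := H.q h (g ^ n)
    have h5 := H.inv h
    have h6 : (n : ℝ) * |φ (h * g * h⁻¹) - φ g| = |φ (h * g ^ n * h⁻¹) - φ (g ^ n)| := by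
      rw [h1, h2, ← mul_sub, abs_mul, Nat.abs_cast]
    rw [h6]
    rw [abs_le] at *
    constructor <;> linarith [h3.1, h3.2, h4.1, h4.2]
  linarith

lemma comm (a b : G) : φ (a * b) = φ (b * a) := by
  have := H.conj a (b * a)
  rw [← this]
  congr 1
  group

end HQ

noncomputable def val (φ : G → ℝ) (D : ℝ) (w : List G) : ℝ :=
  if w = [] then 0 else φ w.prod - (if w.prod = 1 then D else 0)

def letters (R : Multiset (List G)) : Multiset G := R.bind (fun w => (w : Multiset G))

section

variable {φ : G → ℝ} {D : ℝ} (H : HQ φ D)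
include H

lemma val_le (w : List G) : val φ D w ≤ φ w.prod := by
  unfold val
  split_ifs with h1 h2
  · subst h1; simp [H.one]
  · linarith [H.Dnn]
  · linarith

lemma val_cons (g : G) (w : List G) :
    val φ D (g :: w) = φ (g * w.prod) - (if g * w.prod = 1 then D else 0) := by
  unfold val
  rw [if_neg (by simp), List.prod_cons]

lemma val_rot (p q : List G) (g : G) : val φ D (p ++ g :: q) = val φ D (g :: (q ++ p)) := by
  unfold val
  have h1 : (p ++ g :: q).prod = p.prod * (g * q.prod) := by simp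
  have h2 : (g :: (q ++ p)).prod = (g * q.prod) * p.prod := by simp [mul_assoc]
  rw [h1, h2, H.comm p.prod]
  have h3 : (p.prod * (g * q.prod) = 1) ↔ ((g * q.prod) * p.prod = 1) := by
    constructor
    · intro h; exact mul_eq_one_comm.mp h
    · intro h; exact mul_eq_one_comm.mp h
  simp [h3]

lemma case1 (g : G) (u v : List G) :
    val φ D u + val φ D v ≤ val φ D (g :: (u ++ g⁻¹ :: v)) + D := by
  rw [val_cons H]
  have hu := val_le H u
  have hv := val_le H v
  have h1 : g * (u ++ g⁻¹ :: v).prod = (g * u.prod * g⁻¹) * v.prod := by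
    simp [mul_assoc]
  rw [h1]
  split_ifs with h
  · rw [h, H.one]
    have h2 : v.prod = (g * u.prod * g⁻¹)⁻¹ := by
      exact (inv_eq_of_mul_eq_one_right h).symm
    have h3 : φ v.prod = - φ u.prod := by
      rw [h2, H.inv, H.conj]
    linarith
  · have h2 := H.q (g * u.prod * g⁻¹) v.prod
    rw [H.conj, abs_le] at h2
    linarith [h2.1, h2.2]

lemma case2 (g : G) (hg : g ≠ 1) (u v : List G) :
    val φ D (u ++ v) ≤ val φ D (g :: u) + val φ D (g⁻¹ :: v) + D := by
  rw [val_cons H, val_cons H]
  have huv := val_le H (u ++ v)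
  have hprod : (u ++ v).prod = u.prod * v.prod := by simp
  rw [hprod] at huv
  split_ifs with h1 h2 h2
  · have h3 : u.prod = g⁻¹ := (inv_eq_of_mul_eq_one_right h1).symm
    have h4 : v.prod = g := by
      have := (inv_eq_of_mul_eq_one_right h2).symm
      simpa using this
    have hne : u ++ v ≠ [] := by
      intro h
      have : u = [] := (List.append_eq_nil_iff.mp h).1
      subst this
      simp at h3
      exact hg h3
    have : val φ D (u ++ v) = - D := by
      unfold val
      rw [if_neg hne, hprod, h3, h4]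
      simp [H.one]
    rw [this, h1, h2, H.one]
    linarith
  · have h3 : u.prod = g⁻¹ := (inv_eq_of_mul_eq_one_right h1).symm
    rw [h3] at huv
    rw [h1, H.one]
    linarith
  · have h4 : v.prod = g := by
      have := (inv_eq_of_mul_eq_one_right h2).symm
      simpa using this
    rw [h4, H.comm] at huv
    rw [h2, H.one]
    linarith
  · have h3 := H.q (v.prod * g⁻¹) (g * u.prod)
    have h4 : v.prod * g⁻¹ * (g * u.prod) = v.prod * u.prod := by group
    rw [h4, H.comm v.prod g⁻¹, H.comm v.prod u.prod, abs_le] at h3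
    linarith [h3.1, h3.2]

lemma step (R : Multiset (List G)) (g : G) (hg : g ≠ 1) (M : Multiset G)
    (h : letters R = g ::ₘ g⁻¹ ::ₘ M) :
    ∃ R' : Multiset (List G), letters R' = M ∧
      (R'.map (val φ D)).sum ≤ (R.map (val φ D)).sum + D := by
  have hmem : g ∈ letters R := by rw [h]; simp
  obtain ⟨w, hwR, hgw⟩ := Multiset.mem_bind.mp hmem
  obtain ⟨R1, rfl⟩ := Multiset.exists_cons_of_mem hwR
  obtain ⟨p, q, rfl⟩ := List.append_of_mem (Multiset.mem_coe.mp hgw)
  have hL : letters ((p ++ g :: q) ::ₘ R1) = ((p ++ g :: q : List G) : Multiset G) + letters R1 := by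
    unfold letters; simp
  have hperm : ((p ++ g :: q : List G) : Multiset G) = g ::ₘ ((q ++ p : List G) : Multiset G) := by
    rw [Multiset.cons_coe, Multiset.coe_eq_coe]
    exact List.perm_middle.trans (List.Perm.cons _ List.perm_append_comm)
  rw [hL, hperm, Multiset.cons_add, Multiset.cons_inj_right] at h
  have hmem2 : g⁻¹ ∈ ((q ++ p : List G) : Multiset G) + letters R1 := by rw [h]; simp
  rw [Multiset.mem_add] at hmem2
  rcases hmem2 with h2 | h2
  · obtain ⟨u, v, huv⟩ := List.append_of_mem (Multiset.mem_coe.mp h2)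
    refine ⟨u ::ₘ v ::ₘ R1, ?_, ?_⟩
    · have hperm2 : ((q ++ p : List G) : Multiset G) = g⁻¹ ::ₘ ((u : Multiset G) + (v : Multiset G)) := by
        rw [huv, Multiset.coe_add, Multiset.cons_coe, Multiset.coe_eq_coe]
        exact List.perm_middle
      rw [hperm2, Multiset.cons_add, Multiset.cons_inj_right] at h
      rw [← h]
      unfold letters
      rw [Multiset.cons_bind, Multiset.cons_bind, add_assoc]
    · have := case1 H g u v
      rw [Multiset.map_cons, Multiset.map_cons, Multiset.map_cons, Multiset.sum_cons,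
        Multiset.sum_cons, Multiset.sum_cons, val_rot H, huv]
      linarith
  · obtain ⟨w2, hw2R, hgw2⟩ := Multiset.mem_bind.mp h2
    obtain ⟨R2, rfl⟩ := Multiset.exists_cons_of_mem hw2R
    obtain ⟨p2, q2, rfl⟩ := List.append_of_mem (Multiset.mem_coe.mp hgw2)
    refine ⟨((q ++ p) ++ (q2 ++ p2)) ::ₘ R2, ?_, ?_⟩
    · have hL2 : letters ((p2 ++ g⁻¹ :: q2) ::ₘ R2) =
          ((p2 ++ g⁻¹ :: q2 : List G) : Multiset G) + letters R2 := by
        unfold letters; simp
      have hperm2 : ((p2 ++ g⁻¹ :: q2 : List G) : Multiset G) =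
          g⁻¹ ::ₘ ((q2 ++ p2 : List G) : Multiset G) := by
        rw [Multiset.cons_coe, Multiset.coe_eq_coe]
        exact List.perm_middle.trans (List.Perm.cons _ List.perm_append_comm)
      rw [hL2, hperm2, Multiset.cons_add, Multiset.add_cons, Multiset.cons_inj_right] at h
      rw [← h, ← add_assoc]
      unfold letters
      rw [Multiset.cons_bind]
      congr 1
    · have := case2 H g hg (q ++ p) (q2 ++ p2)
      rw [Multiset.map_cons, Multiset.map_cons, Multiset.map_cons, Multiset.sum_cons,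
        Multiset.sum_cons, Multiset.sum_cons, val_rot H, val_rot H p2]
      linarith

lemma word_le (w : List G) : (w.map φ).sum ≤ val φ D w + D * w.length := by
  have key : ∀ (w : List G), w ≠ [] → (w.map φ).sum ≤ φ w.prod + D * (w.length - 1) := by
    intro w
    induction w with
    | nil => intro h; exact absurd rfl h
    | cons a t ih =>
      intro _
      by_cases ht : t = []
      · subst ht; simp
      · have h1 := ih ht
        have h2 := H.q a t.prod
        rw [abs_le] at h2
        simp only [List.map_cons, List.sum_cons, List.prod_cons, List.length_cons, Nat.cast_add,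
          Nat.cast_one]
        nlinarith [h2.1, h2.2]
  by_cases hw : w = []
  · subst hw; simp [val]
  · have h1 := key w hw
    have h2 : φ w.prod - D ≤ val φ D w := by
      unfold val
      rw [if_neg hw]
      split_ifs
      · exact le_rfl
      · linarith [H.Dnn]
    linarith

lemma base (R : Multiset (List G)) :
    ((letters R).map φ).sum ≤ (R.map (val φ D)).sum + D * (letters R).card := by
  induction R using Multiset.induction_on with
  | empty => simp [letters]
  | cons w R ih =>
    have hL : letters (w ::ₘ R) = (w : Multiset G) + letters R := by unfold letters; simp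
    rw [hL, Multiset.map_add, Multiset.sum_add, Multiset.map_cons, Multiset.sum_cons,
      Multiset.card_add]
    have := word_le H w
    have h2 : ((w : Multiset G).map φ).sum = (w.map φ).sum := by simp
    rw [h2]
    push_cast
    simp only [Multiset.coe_card]
    linarith

lemma core (A : Multiset G) : ∀ (Rest : Multiset G) (R : Multiset (List G)),
    (∀ a ∈ A, a ≠ 1) → letters R = A + A.map (·⁻¹) + Rest →
    (Rest.map φ).sum ≤ (R.map (val φ D)).sum + D * (A.card + Rest.card) := by
  induction A using Multiset.induction_on with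
  | empty =>
    intro Rest R _ h
    have h' : letters R = Rest := by simpa using h
    have := base H R
    rw [h'] at this
    simpa using this
  | cons g A ih =>
    intro Rest R hA h
    have hg : g ≠ 1 := hA g (Multiset.mem_cons_self _ _)
    have h1 : letters R = g ::ₘ g⁻¹ ::ₘ (A + A.map (·⁻¹) + Rest) := by
      rw [h, Multiset.map_cons, Multiset.cons_add, Multiset.add_cons, Multiset.cons_add,
        Multiset.cons_add]
    obtain ⟨R', h2, h3⟩ := step H R g hg _ h1
    have h4 := ih Rest R' (fun a ha => hA a (Multiset.mem_cons_of_mem ha)) h2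
    rw [Multiset.card_cons]
    push_cast
    linarith

end

/-! integer inequality -/

noncomputable def kp (g : G) : Multiset G := if g = 1 then 0 else {g}
noncomputable def kl (g : G) : List G := if g = 1 then [] else [g]

lemma kl_coe (g : G) : ((kl g : List G) : Multiset G) = kp g := by
  unfold kl kp; split_ifs <;> simp

lemma kp_inv (g : G) : (kp g).map (·⁻¹) = kp g⁻¹ := by
  unfold kp
  by_cases h : g = 1
  · simp [h]
  · simp [h]

lemma kl_prod (g : G) : (kl g).prod = g := by
  unfold kl; split_ifs with h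
  · simp [h]
  · simp

lemma kl_len (g : G) : (kl g).length ≤ 1 := by
  unfold kl; split_ifs <;> simp

lemma kp_ne (g a : G) (h : a ∈ kp g) : a ≠ 1 := by
  unfold kp at h; split_ifs at h with h1
  · simp at h
  · simp at h; rw [h]; exact h1

noncomputable def pl (p : G × G) : Multiset G := kp p.1 + kp p.2
noncomputable def mi (p : G × G) : Multiset G := kp (p.1 * p.2)
noncomputable def posw (p : G × G) : List G := kl p.1 ++ kl p.2 ++ kl (p.1 * p.2)⁻¹
noncomputable def negw (p : G × G) : List G := kl (p.1 * p.2) ++ kl p.2⁻¹ ++ kl p.1⁻¹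

def dphi (φ : G → ℝ) (p : G × G) : ℝ := φ p.1 + φ p.2 - φ (p.1 * p.2)

lemma posw_eq (p : G × G) : ((posw p : List G) : Multiset G) = pl p + (mi p).map (·⁻¹) := by
  unfold posw pl mi
  rw [← Multiset.coe_add, ← Multiset.coe_add, kl_coe, kl_coe, kl_coe, kp_inv]

lemma negw_eq (p : G × G) : ((negw p : List G) : Multiset G) = mi p + (pl p).map (·⁻¹) := by
  unfold negw pl mi
  rw [← Multiset.coe_add, ← Multiset.coe_add, kl_coe, kl_coe, kl_coe, Multiset.map_add, kp_inv,
    kp_inv, add_assoc, add_comm (kp p.2⁻¹)]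

lemma posw_prod (p : G × G) : (posw p).prod = 1 := by
  unfold posw
  rw [List.prod_append, List.prod_append, kl_prod, kl_prod, kl_prod]
  group

lemma negw_prod (p : G × G) : (negw p).prod = 1 := by
  unfold negw
  rw [List.prod_append, List.prod_append, kl_prod, kl_prod, kl_prod]
  group

lemma posw_len (p : G × G) : (posw p).length ≤ 3 := by
  unfold posw
  rw [List.length_append, List.length_append]
  have h1 := kl_len p.1
  have h2 := kl_len p.2
  have h3 := kl_len (p.1 * p.2)⁻¹
  omega

lemma negw_len (p : G × G) : (negw p).length ≤ 3 := by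
  unfold negw
  rw [List.length_append, List.length_append]
  have h1 := kl_len p.1⁻¹
  have h2 := kl_len p.2⁻¹
  have h3 := kl_len (p.1 * p.2)
  omega

section

variable {φ : G → ℝ} {D : ℝ} (H : HQ φ D)
include H

lemma cost_le (w : List G) (hp : w.prod = 1) (hl : w.length ≤ 3) :
    val φ D w + D / 2 * w.length ≤ D / 2 := by
  have hD := H.Dnn
  unfold val
  split_ifs with h
  · subst h; simp; linarith
  · rw [hp, H.one]
    have : (w.length : ℝ) ≤ 3 := by exact_mod_cast hl
    nlinarith

lemma kp_sum (g : G) : ((kp g).map φ).sum = φ g := by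
  unfold kp
  split_ifs with h
  · rw [h, H.one]; simp
  · simp

lemma sum_inv (M : Multiset G) : ((M.map (·⁻¹)).map φ).sum = - (M.map φ).sum := by
  induction M using Multiset.induction_on with
  | empty => simp
  | cons a M ih =>
    simp only [Multiset.map_cons, Multiset.sum_cons]
    rw [ih, H.inv]; ring

lemma sum_bind_pl (P : Multiset (G × G)) :
    ((P.bind pl).map φ).sum = (P.map (fun p => φ p.1 + φ p.2)).sum := by
  induction P using Multiset.induction_on with
  | empty => simp
  | cons a M ih =>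
    rw [Multiset.cons_bind, Multiset.map_add, Multiset.sum_add, ih, Multiset.map_cons,
      Multiset.sum_cons]
    unfold pl
    rw [Multiset.map_add, Multiset.sum_add, kp_sum H, kp_sum H]

lemma sum_bind_mi (P : Multiset (G × G)) :
    ((P.bind mi).map φ).sum = (P.map (fun p => φ (p.1 * p.2))).sum := by
  induction P using Multiset.induction_on with
  | empty => simp
  | cons a M ih =>
    rw [Multiset.cons_bind, Multiset.map_add, Multiset.sum_add, ih, Multiset.map_cons,
      Multiset.sum_cons]
    unfold mi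
    rw [kp_sum H]

end

noncomputable def Mp (P N : Multiset (G × G)) : Multiset G := P.bind pl + N.bind mi
noncomputable def Mm (P N : Multiset (G × G)) : Multiset G := P.bind mi + N.bind pl

lemma letters_posw (P : Multiset (G × G)) :
    letters (P.map posw) = P.bind pl + (P.bind mi).map (·⁻¹) := by
  induction P using Multiset.induction_on with
  | empty => simp [letters]
  | cons a M ih =>
    have : letters ((a ::ₘ M).map posw) = ((posw a : List G) : Multiset G) + letters (M.map posw) := by
      unfold letters; simp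
    rw [this, ih, posw_eq, Multiset.cons_bind, Multiset.cons_bind, Multiset.map_add]
    abel

lemma letters_negw (P : Multiset (G × G)) :
    letters (P.map negw) = P.bind mi + (P.bind pl).map (·⁻¹) := by
  induction P using Multiset.induction_on with
  | empty => simp [letters]
  | cons a M ih =>
    have : letters ((a ::ₘ M).map negw) = ((negw a : List G) : Multiset G) + letters (M.map negw) := by
      unfold letters; simp
    rw [this, ih, negw_eq, Multiset.cons_bind, Multiset.cons_bind, Multiset.map_add]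
    abel

lemma card_letters (R : Multiset (List G)) :
    ((letters R).card : ℝ) = (R.map (fun w => (w.length : ℝ))).sum := by
  induction R using Multiset.induction_on with
  | empty => simp [letters]
  | cons w R ih =>
    have hL : letters (w ::ₘ R) = (w : Multiset G) + letters R := by unfold letters; simp
    rw [hL, Multiset.card_add, Multiset.map_cons, Multiset.sum_cons]
    push_cast
    rw [ih]
    simp

lemma integer_ineq {φ : G → ℝ} {D : ℝ} (H : HQ φ D) (P N : Multiset (G × G)) :
    (P.map (dphi φ)).sum - (N.map (dphi φ)).sum ≤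
      D / 2 * (P.card + N.card) +
      D / 2 * (((Mp P N - Mm P N).card : ℝ) + ((Mm P N - Mp P N).card : ℝ)) := by
  set R : Multiset (List G) := P.map posw + N.map negw with hR
  set A := Mp P N ∩ Mm P N with hA
  obtain ⟨U, hU⟩ : ∃ U, U = Mp P N - Mm P N := ⟨_, rfl⟩
  obtain ⟨V, hV⟩ : ∃ V, V = Mm P N - Mp P N := ⟨_, rfl⟩
  have hMp : Mp P N = A + U := by
    ext a
    rw [Multiset.count_add, hA, hU, Multiset.count_inter, Multiset.count_sub]
    omega
  have hMm : Mm P N = A + V := by
    ext a
    rw [Multiset.count_add, hA, hV, Multiset.count_inter, Multiset.count_sub]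
    omega
  rw [← hU, ← hV]
  set Rest : Multiset G := U + V.map (·⁻¹) with hRest
  have hlet : letters R = Mp P N + (Mm P N).map (·⁻¹) := by
    have : letters R = letters (P.map posw) + letters (N.map negw) := by
      rw [hR]; unfold letters; exact Multiset.add_bind _ _ _
    rw [this, letters_posw, letters_negw]
    unfold Mp Mm
    rw [Multiset.map_add]
    abel
  have hlet2 : letters R = A + A.map (·⁻¹) + Rest := by
    rw [hlet, hMp, hMm]
    rw [hRest, Multiset.map_add]
    abel
  have hA1 : ∀ a ∈ A, a ≠ 1 := by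
    intro a ha
    have : a ∈ Mp P N := by
      rw [hMp]; exact Multiset.mem_add.mpr (Or.inl ha)
    unfold Mp pl mi at this
    rw [Multiset.mem_add, Multiset.mem_bind, Multiset.mem_bind] at this
    rcases this with ⟨p, _, hp⟩ | ⟨p, _, hp⟩
    · rw [Multiset.mem_add] at hp
      rcases hp with hp | hp <;> exact kp_ne _ _ hp
    · exact kp_ne _ _ hp
  have h1 := core H A Rest R hA1 hlet2
  have h2 : (Rest.map φ).sum = (P.map (dphi φ)).sum - (N.map (dphi φ)).sum := by
    have e1 : (Rest.map φ).sum = ((Mp P N).map φ).sum - ((Mm P N).map φ).sum := by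
      rw [hMp, hMm]
      rw [hRest, Multiset.map_add, Multiset.sum_add, sum_inv H, Multiset.map_add,
        Multiset.sum_add, Multiset.map_add, Multiset.sum_add]
      ring
    rw [e1]
    unfold Mp Mm
    rw [Multiset.map_add, Multiset.sum_add, Multiset.map_add, Multiset.sum_add,
      sum_bind_pl H, sum_bind_pl H, sum_bind_mi H, sum_bind_mi H]
    have e2 : ∀ Q : Multiset (G × G), (Q.map (dphi φ)).sum =
        (Q.map (fun p => φ p.1 + φ p.2)).sum - (Q.map (fun p => φ (p.1 * p.2))).sum := by
      intro Q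
      rw [← Multiset.sum_map_sub]
      rfl
    rw [e2, e2]
    ring
  have h3 : ((letters R).card : ℝ) = 2 * A.card + Rest.card := by
    rw [hlet2, Multiset.card_add, Multiset.card_add, Multiset.card_map]
    push_cast
    ring
  have h4 := card_letters R
  have h5 : (R.map (val φ D)).sum + D / 2 * (R.map (fun w => (w.length : ℝ))).sum ≤
      D / 2 * (P.card + N.card) := by
    have gen : ∀ (Q : Multiset (List G)), (∀ w ∈ Q, w.prod = 1 ∧ w.length ≤ 3) →
        (Q.map (val φ D)).sum + D / 2 * (Q.map (fun w => (w.length : ℝ))).sum ≤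
        D / 2 * Q.card := by
      intro Q
      induction Q using Multiset.induction_on with
      | empty => simp
      | cons w Q ih =>
        intro hQ
        have i1 := ih (fun w hw => hQ w (Multiset.mem_cons_of_mem hw))
        have i2 := hQ w (Multiset.mem_cons_self _ _)
        have i3 := cost_le H w i2.1 i2.2
        rw [Multiset.map_cons, Multiset.sum_cons, Multiset.map_cons, Multiset.sum_cons,
          Multiset.card_cons]
        push_cast
        linarith
    have := gen R (by
      intro w hw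
      rw [hR, Multiset.mem_add, Multiset.mem_map, Multiset.mem_map] at hw
      rcases hw with ⟨p, _, rfl⟩ | ⟨p, _, rfl⟩
      · exact ⟨posw_prod p, posw_len p⟩
      · exact ⟨negw_prod p, negw_len p⟩)
    have hc : (R.card : ℝ) = P.card + N.card := by
      rw [hR, Multiset.card_add, Multiset.card_map, Multiset.card_map]
      push_cast; ring
    rw [hc] at this
    exact this
  have h6 : (Rest.card : ℝ) = (U.card : ℝ) + (V.card : ℝ) := by
    rw [hRest, Multiset.card_add, Multiset.card_map]
    push_cast; ring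
  rw [h2] at h1
  rw [← h6]
  have h7 : (A.card : ℝ) = ((R.map (fun w => (w.length : ℝ))).sum - Rest.card) / 2 := by
    rw [← h4, h3]; ring
  rw [h7] at h1
  linarith

/-! real part -/

noncomputable def nrm {X : Type} (c : X →₀ ℝ) : ℝ := ∑ x ∈ c.support, |c x|

lemma nrm_eq {X : Type} (c : X →₀ ℝ) (T : Finset X) (h : c.support ⊆ T) :
    nrm c = ∑ x ∈ T, |c x| :=
  Finset.sum_subset h (by intro x _ hx; simp [Finsupp.notMem_support_iff.mp hx])

lemma nrm_ge {X : Type} (c : X →₀ ℝ) (T : Finset X) : ∑ x ∈ T, |c x| ≤ nrm c := by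
  rw [nrm_eq c (c.support ∪ T) Finset.subset_union_left]
  exact Finset.sum_le_sum_of_subset_of_nonneg Finset.subset_union_right
    (fun _ _ _ => abs_nonneg _)

lemma nrm_add {X : Type} (c d : X →₀ ℝ) : nrm (c + d) ≤ nrm c + nrm d := by
  rw [nrm_eq (c + d) (c.support ∪ d.support) Finsupp.support_add,
    nrm_eq c (c.support ∪ d.support) Finset.subset_union_left,
    nrm_eq d (c.support ∪ d.support) Finset.subset_union_right, ← Finset.sum_add_distrib]
  exact Finset.sum_le_sum (fun x _ => abs_add_le _ _)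

lemma nrm_smul {X : Type} (t : ℝ) (c : X →₀ ℝ) : nrm (t • c) = |t| * nrm c := by
  rw [nrm_eq (t • c) c.support Finsupp.support_smul, nrm, Finset.mul_sum]
  simp [abs_mul]

lemma nrm_zero {X : Type} : nrm (0 : X →₀ ℝ) = 0 := by simp [nrm]

lemma nrm_neg {X : Type} (c : X →₀ ℝ) : nrm (-c) = nrm c := by
  have := nrm_smul (-1) c
  simpa using this

lemma nrm_sub {X : Type} (c d : X →₀ ℝ) : nrm (c - d) ≤ nrm c + nrm d := by
  have := nrm_add c (-d)
  rw [nrm_neg] at this
  rwa [sub_eq_add_neg]

noncomputable def ee (g : G) : G →₀ ℝ := if g = 1 then 0 else Finsupp.single g 1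
noncomputable def dd (p : G × G) : G →₀ ℝ := ee p.1 + ee p.2 - ee (p.1 * p.2)

lemma nrm_ee (g : G) : nrm (ee g) ≤ 1 := by
  unfold ee
  split_ifs
  · rw [nrm_zero]; norm_num
  · rw [nrm_eq (Finsupp.single g (1 : ℝ)) {g} Finsupp.support_single_subset]
    simp

lemma nrm_dd (p : G × G) : nrm (dd p) ≤ 3 := by
  unfold dd
  have h1 := nrm_sub (ee p.1 + ee p.2) (ee (p.1 * p.2))
  have h2 := nrm_add (ee p.1) (ee p.2)
  have h3 := nrm_ee p.1
  have h4 := nrm_ee p.2
  have h5 := nrm_ee (p.1 * p.2)
  linarith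

noncomputable def ch (M : Multiset G) : G →₀ ℝ := (M.map ee).sum

lemma ch_add (M N : Multiset G) : ch (M + N) = ch M + ch N := by
  unfold ch; rw [Multiset.map_add, Multiset.sum_add]

lemma ch_kp (g : G) : ch (kp g) = ee g := by
  unfold ch kp
  split_ifs with h
  · simp [ee, h]
  · simp

lemma ch_apply (M : Multiset G) (hM : ∀ a ∈ M, a ≠ 1) (g : G) : ch M g = M.count g := by
  induction M using Multiset.induction_on with
  | empty => simp [ch]
  | cons a M ih =>
    have ha : a ≠ 1 := hM a (Multiset.mem_cons_self _ _)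
    have : ch (a ::ₘ M) = ee a + ch M := by unfold ch; simp
    rw [this, Finsupp.add_apply, ih (fun b hb => hM b (Multiset.mem_cons_of_mem hb)),
      Multiset.count_cons]
    unfold ee
    rw [if_neg ha, Finsupp.single_apply]
    by_cases h : g = a
    · subst h; simp; ring
    · have h' : a ≠ g := fun e => h e.symm
      simp [h, h']

lemma ch_bind_pl_mi (P : Multiset (G × G)) :
    ch (P.bind pl) - ch (P.bind mi) = (P.map dd).sum := by
  induction P using Multiset.induction_on with
  | empty => simp [ch]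
  | cons a M ih =>
    rw [Multiset.cons_bind, Multiset.cons_bind, ch_add, ch_add, Multiset.map_cons,
      Multiset.sum_cons, ← ih]
    unfold pl mi dd
    rw [ch_add, ch_kp, ch_kp, ch_kp]
    abel

lemma kp_mem_bind_ne (P N : Multiset (G × G)) (a : G) (ha : a ∈ Mp P N ∨ a ∈ Mm P N) : a ≠ 1 := by
  unfold Mp Mm pl mi at ha
  simp only [Multiset.mem_add, Multiset.mem_bind] at ha
  rcases ha with (⟨p, _, hp | hp⟩ | ⟨p, _, hp⟩) | (⟨p, _, hp⟩ | ⟨p, _, hp | hp⟩) <;>
    exact kp_ne _ _ hp

lemma card_le_nrm (P N : Multiset (G × G)) :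
    ((Mp P N - Mm P N).card : ℝ) + ((Mm P N - Mp P N).card : ℝ) ≤
      nrm ((P.map dd).sum - (N.map dd).sum) := by
  have h1 : (P.map dd).sum - (N.map dd).sum = ch (Mp P N) - ch (Mm P N) := by
    unfold Mp Mm
    rw [ch_add, ch_add, ← ch_bind_pl_mi, ← ch_bind_pl_mi]
    abel
  rw [h1]
  refine le_trans (le_of_eq ?_) (nrm_ge _ (Mp P N + Mm P N).toFinset)
  have h2 : ((Mp P N - Mm P N).card : ℝ) =
      ∑ a ∈ (Mp P N + Mm P N).toFinset, ((Mp P N - Mm P N).count a : ℝ) := by
    rw [← Nat.cast_sum, Multiset.sum_count_eq_card]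
    intro a ha
    rw [Multiset.mem_toFinset, Multiset.mem_add]
    exact Or.inl (Multiset.mem_of_le (Multiset.sub_le_self _ _) ha)
  have h3 : ((Mm P N - Mp P N).card : ℝ) =
      ∑ a ∈ (Mp P N + Mm P N).toFinset, ((Mm P N - Mp P N).count a : ℝ) := by
    rw [← Nat.cast_sum, Multiset.sum_count_eq_card]
    intro a ha
    rw [Multiset.mem_toFinset, Multiset.mem_add]
    exact Or.inr (Multiset.mem_of_le (Multiset.sub_le_self _ _) ha)
  rw [h2, h3, ← Finset.sum_add_distrib]
  apply Finset.sum_congr rfl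
  intro a _
  rw [Finsupp.sub_apply, ch_apply _ (fun a ha => kp_mem_bind_ne P N a (Or.inl ha)),
    ch_apply _ (fun a ha => kp_mem_bind_ne P N a (Or.inr ha)), Multiset.count_sub,
    Multiset.count_sub]
  rcases le_total (Multiset.count a (Mp P N)) (Multiset.count a (Mm P N)) with h | h
  · rw [Nat.sub_eq_zero_of_le h, Nat.cast_sub h, abs_of_nonpos (sub_nonpos.mpr (Nat.cast_le.mpr h))]
    simp
  · rw [Nat.sub_eq_zero_of_le h, Nat.cast_sub h, abs_of_nonneg (sub_nonneg.mpr (Nat.cast_le.mpr h))]
    simp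

lemma integer_ineq' {φ : G → ℝ} {D : ℝ} (H : HQ φ D) (P N : Multiset (G × G)) :
    (P.map (dphi φ)).sum - (N.map (dphi φ)).sum ≤
      D / 2 * (P.card + N.card) + D / 2 * nrm ((P.map dd).sum - (N.map dd).sum) := by
  have h1 := integer_ineq H P N
  have h2 := card_le_nrm P N
  have h3 := H.Dnn
  nlinarith

noncomputable def dL (L : List (ℝ × (G × G))) : G →₀ ℝ := (L.map (fun t => t.1 • dd t.2)).sum
noncomputable def vL (φ : G → ℝ) (L : List (ℝ × (G × G))) : ℝ :=
  (L.map (fun t => t.1 * dphi φ t.2)).sum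
noncomputable def cL (L : List (ℝ × (G × G))) : ℝ := (L.map (fun t => |t.1|)).sum

lemma approx {φ : G → ℝ} {D : ℝ} (H : HQ φ D) (L : List (ℝ × (G × G))) :
    ∃ C : ℝ, ∀ n : ℕ, ∃ P N : Multiset (G × G),
      nrm ((n : ℝ) • dL L - ((P.map dd).sum - (N.map dd).sum)) ≤ C ∧
      |n * vL φ L - ((P.map (dphi φ)).sum - (N.map (dphi φ)).sum)| ≤ C ∧
      (P.card + N.card : ℝ) ≤ n * cL L + C := by
  induction L with
  | nil =>
    refine ⟨0, fun n => ⟨0, 0, ?_, ?_, ?_⟩⟩
    · simp [dL, nrm_zero]
    · simp [vL]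
    · simp [cL]
  | cons t L ih =>
    obtain ⟨C, hC⟩ := ih
    obtain ⟨a, p⟩ := t
    have hD := H.Dnn
    have hdphi : |dphi φ p| ≤ D := by
      have := H.q p.1 p.2
      unfold dphi
      rw [abs_sub_comm] at this
      rw [abs_le] at *
      constructor <;> linarith [this.1, this.2]
    have hdd := nrm_dd p
    have e1 : dL ((a, p) :: L) = a • dd p + dL L := by simp [dL]
    have e2 : vL φ ((a, p) :: L) = a * dphi φ p + vL φ L := by simp [vL]
    have e3 : cL ((a, p) :: L) = |a| + cL L := by simp [cL]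
    refine ⟨C + 3 + D, fun n => ?_⟩
    obtain ⟨P, N, h1, h2, h3⟩ := hC n
    have hC0 : 0 ≤ C := le_trans (abs_nonneg _) h2
    have hn : (0 : ℝ) ≤ n := Nat.cast_nonneg n
    rcases le_total 0 a with ha | ha
    · have hna : 0 ≤ (n : ℝ) * a := mul_nonneg hn ha
      have hk1 := Nat.floor_le hna
      have hk2 := Nat.lt_floor_add_one ((n : ℝ) * a)
      set k := ⌊(n : ℝ) * a⌋₊ with hk
      have hk3 : |(n : ℝ) * a - k| ≤ 1 := by rw [abs_le]; constructor <;> linarith
      refine ⟨Multiset.replicate k p + P, N, ?_, ?_, ?_⟩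
      · rw [e1, Multiset.map_add, Multiset.sum_add, Multiset.map_replicate,
          Multiset.sum_replicate, ← Nat.cast_smul_eq_nsmul ℝ]
        have : (n : ℝ) • (a • dd p + dL L) - ((k : ℝ) • dd p + (P.map dd).sum - (N.map dd).sum) =
          ((n : ℝ) * a - k) • dd p + ((n : ℝ) • dL L - ((P.map dd).sum - (N.map dd).sum)) := by
          module
        rw [this]
        refine (nrm_add _ _).trans ?_
        rw [nrm_smul]
        have h0 : 0 ≤ |(n : ℝ) * a - k| := abs_nonneg _
        have hn0 : 0 ≤ nrm (dd p) := by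
          have := nrm_ge (dd p) ∅
          simpa using this
        nlinarith
      · rw [e2, Multiset.map_add, Multiset.sum_add, Multiset.map_replicate,
          Multiset.sum_replicate, nsmul_eq_mul]
        have : (n : ℝ) * (a * dphi φ p + vL φ L) -
            (k * dphi φ p + (P.map (dphi φ)).sum - (N.map (dphi φ)).sum) =
            ((n : ℝ) * a - k) * dphi φ p +
            (n * vL φ L - ((P.map (dphi φ)).sum - (N.map (dphi φ)).sum)) := by ring
        rw [this]
        refine (abs_add_le _ _).trans ?_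
        rw [abs_mul]
        have h0 : 0 ≤ |(n : ℝ) * a - k| := abs_nonneg _
        have hn0 : 0 ≤ |dphi φ p| := abs_nonneg _
        nlinarith
      · rw [e3, Multiset.card_add, Multiset.card_replicate, abs_of_nonneg ha]
        push_cast
        linarith
    · have hna : 0 ≤ (n : ℝ) * (-a) := mul_nonneg hn (by linarith)
      have hk1 := Nat.floor_le hna
      have hk2 := Nat.lt_floor_add_one ((n : ℝ) * (-a))
      set k := ⌊(n : ℝ) * (-a)⌋₊ with hk
      have hk3 : |(n : ℝ) * a + k| ≤ 1 := by rw [abs_le]; constructor <;> linarith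
      refine ⟨P, Multiset.replicate k p + N, ?_, ?_, ?_⟩
      · rw [e1, Multiset.map_add, Multiset.sum_add, Multiset.map_replicate,
          Multiset.sum_replicate, ← Nat.cast_smul_eq_nsmul ℝ]
        have : (n : ℝ) • (a • dd p + dL L) - ((P.map dd).sum - ((k : ℝ) • dd p + (N.map dd).sum)) =
          ((n : ℝ) * a + k) • dd p + ((n : ℝ) • dL L - ((P.map dd).sum - (N.map dd).sum)) := by
          module
        rw [this]
        refine (nrm_add _ _).trans ?_
        rw [nrm_smul]
        have h0 : 0 ≤ |(n : ℝ) * a + k| := abs_nonneg _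
        have hn0 : 0 ≤ nrm (dd p) := by
          have := nrm_ge (dd p) ∅
          simpa using this
        nlinarith
      · rw [e2, Multiset.map_add, Multiset.sum_add, Multiset.map_replicate,
          Multiset.sum_replicate, nsmul_eq_mul]
        have : (n : ℝ) * (a * dphi φ p + vL φ L) -
            ((P.map (dphi φ)).sum - (k * dphi φ p + (N.map (dphi φ)).sum)) =
            ((n : ℝ) * a + k) * dphi φ p +
            (n * vL φ L - ((P.map (dphi φ)).sum - (N.map (dphi φ)).sum)) := by ring
        rw [this]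
        refine (abs_add_le _ _).trans ?_
        rw [abs_mul]
        have h0 : 0 ≤ |(n : ℝ) * a + k| := abs_nonneg _
        have hn0 : 0 ≤ |dphi φ p| := abs_nonneg _
        nlinarith
      · rw [e3, Multiset.card_add, Multiset.card_replicate, abs_of_nonpos ha]
        push_cast
        linarith

lemma real_ineq {φ : G → ℝ} {D : ℝ} (H : HQ φ D) (L : List (ℝ × (G × G))) :
    vL φ L ≤ D / 2 * cL L + D / 2 * nrm (dL L) := by
  obtain ⟨C, hC⟩ := approx H L
  have hD := H.Dnn
  by_contra hcon
  push Not at hcon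
  set δ := vL φ L - (D / 2 * cL L + D / 2 * nrm (dL L)) with hδ
  have hδ0 : 0 < δ := by rw [hδ]; linarith
  obtain ⟨n, hn⟩ := exists_nat_gt ((C + D * C) / δ)
  rw [div_lt_iff₀ hδ0] at hn
  obtain ⟨P, N, h1, h2, h3⟩ := hC n
  have h4 := integer_ineq' H P N
  have h5 : nrm ((P.map dd).sum - (N.map dd).sum) ≤ n * nrm (dL L) + C := by
    have e : (P.map dd).sum - (N.map dd).sum =
      (n : ℝ) • dL L - ((n : ℝ) • dL L - ((P.map dd).sum - (N.map dd).sum)) := by abel
    rw [e]
    refine (nrm_sub _ _).trans ?_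
    rw [nrm_smul, Nat.abs_cast]
    linarith
  rw [abs_le] at h2
  have h6 : (n : ℝ) * δ = n * vL φ L - (D / 2 * (n * cL L) + D / 2 * (n * nrm (dL L))) := by
    rw [hδ]; ring
  have h7 : D / 2 * (P.card + N.card : ℝ) ≤ D / 2 * (n * cL L + C) :=
    mul_le_mul_of_nonneg_left h3 (by linarith)
  have h8 : D / 2 * nrm ((P.map dd).sum - (N.map dd).sum) ≤ D / 2 * (n * nrm (dL L) + C) :=
    mul_le_mul_of_nonneg_left h5 (by linarith)
  nlinarith [h2.1, h2.2]

lemma dL_append (L M : List (ℝ × (G × G))) : dL (L ++ M) = dL L + dL M := by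
  unfold dL; simp
lemma vL_append (φ : G → ℝ) (L M : List (ℝ × (G × G))) : vL φ (L ++ M) = vL φ L + vL φ M := by
  unfold vL; simp
lemma cL_append (L M : List (ℝ × (G × G))) : cL (L ++ M) = cL L + cL M := by
  unfold cL; simp

lemma scale (φ : G → ℝ) (c : ℝ) (hc : 0 ≤ c) (L : List (ℝ × (G × G))) :
    ∃ M, dL M = c • dL L ∧ vL φ M = c * vL φ L ∧ cL M = c * cL L := by
  induction L with
  | nil => exact ⟨[], by simp [dL], by simp [vL], by simp [cL]⟩
  | cons t L ih =>
    obtain ⟨M, h1, h2, h3⟩ := ih
    refine ⟨(c * t.1, t.2) :: M, ?_, ?_, ?_⟩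
    · have e1 : dL ((c * t.1, t.2) :: M) = (c * t.1) • dd t.2 + dL M := by simp [dL]
      have e2 : dL (t :: L) = t.1 • dd t.2 + dL L := by simp [dL]
      rw [e1, e2, h1, smul_add, smul_smul]
    · have e1 : vL φ ((c * t.1, t.2) :: M) = (c * t.1) * dphi φ t.2 + vL φ M := by simp [vL]
      have e2 : vL φ (t :: L) = t.1 * dphi φ t.2 + vL φ L := by simp [vL]
      rw [e1, e2, h2]; ring
    · have e1 : cL ((c * t.1, t.2) :: M) = |c * t.1| + cL M := by simp [cL]
      have e2 : cL (t :: L) = |t.1| + cL L := by simp [cL]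
      rw [e1, e2, h3, abs_mul, abs_of_nonneg hc]; ring

noncomputable def cone {φ : G → ℝ} {D : ℝ} (H : HQ φ D) : PointedCone ℝ ((G →₀ ℝ) × ℝ) where
  carrier := {z | ∃ L : List (ℝ × (G × G)),
    D / 2 * nrm (z.1 + dL L) + D / 2 * cL L - vL φ L ≤ z.2}
  add_mem' := by
    rintro x y ⟨L, hL⟩ ⟨M, hM⟩
    refine ⟨L ++ M, ?_⟩
    rw [dL_append, vL_append, cL_append, Prod.fst_add, Prod.snd_add]
    have e : x.1 + y.1 + (dL L + dL M) = (x.1 + dL L) + (y.1 + dL M) := by abel
    rw [e]
    have h1 := nrm_add (x.1 + dL L) (y.1 + dL M)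
    have h2 := H.Dnn
    have h3 : D / 2 * nrm (x.1 + dL L + (y.1 + dL M)) ≤
      D / 2 * (nrm (x.1 + dL L) + nrm (y.1 + dL M)) := mul_le_mul_of_nonneg_left h1 (by linarith)
    linarith
  zero_mem' := ⟨[], by simp [dL, vL, cL, nrm_zero]⟩
  smul_mem' := by
    rintro ⟨c, hc⟩ x ⟨L, hL⟩
    obtain ⟨M, h1, h2, h3⟩ := scale φ c hc L
    refine ⟨M, ?_⟩
    have e1 : ((⟨c, hc⟩ : {c : ℝ // 0 ≤ c}) • x).1 = c • x.1 := rfl
    have e2 : ((⟨c, hc⟩ : {c : ℝ // 0 ≤ c}) • x).2 = c * x.2 := rfl
    rw [e1, e2, h1, h2, h3, ← smul_add, nrm_smul, abs_of_nonneg hc]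
    have := mul_le_mul_of_nonneg_left hL hc
    linarith

theorem gen_main {φ : G → ℝ} {D : ℝ} (H : HQ φ D) :
    ∃ ψ : G → ℝ, (∀ g, |ψ g - φ g| ≤ D / 2) ∧ ∀ g h, |ψ (g * h) - ψ g - ψ h| ≤ D / 2 := by
  have hD := H.Dnn
  let f : ((G →₀ ℝ) × ℝ) →ₗ.[ℝ] ℝ :=
    { domain := Submodule.prod ⊥ ⊤
      toFun := (LinearMap.snd ℝ (G →₀ ℝ) ℝ).comp (Submodule.subtype _) }
  obtain ⟨g, hg1, hg2⟩ := riesz_extension (cone H) f (by
      rintro ⟨⟨c, r⟩, hx⟩ ⟨L, hL⟩
      have hc : c = 0 := by
        have := (Submodule.mem_prod.mp hx).1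
        simpa using this
      subst hc
      have h1 := real_ineq H L
      simp only [zero_add] at hL
      show 0 ≤ r
      linarith) (by
      rintro ⟨c, r⟩
      refine ⟨⟨(0, D / 2 * nrm c - r), ?_⟩, ⟨[], ?_⟩⟩
      · exact Submodule.mem_prod.mpr ⟨by simp, by simp⟩
      · simp [dL, cL, vL])
  have hr : ∀ r : ℝ, g (0, r) = r := by
    intro r
    exact hg1 ⟨(0, r), Submodule.mem_prod.mpr ⟨by simp, by simp⟩⟩
  have hsplit : ∀ (c : G →₀ ℝ) (r : ℝ), g (c, r) = g (c, 0) + r := by
    intro c r
    have : (c, r) = (c, (0 : ℝ)) + ((0 : G →₀ ℝ), r) := by simp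
    rw [this, map_add, hr]
  have hmem : ∀ (c : G →₀ ℝ) (L : List (ℝ × (G × G))),
      0 ≤ g (c, 0) + (D / 2 * nrm (c + dL L) + D / 2 * cL L - vL φ L) := by
    intro c L
    rw [← hsplit]
    exact hg2 _ ⟨L, le_rfl⟩
  let B : (G →₀ ℝ) →ₗ[ℝ] ℝ := g.comp (LinearMap.inl ℝ (G →₀ ℝ) ℝ)
  have hB : ∀ c, g (c, 0) = B c := fun c => rfl
  have hβ : ∀ x : G, |B (ee x)| ≤ D / 2 := by
    intro x
    have h1 := hmem (ee x) []
    have h2 := hmem (- ee x) []
    rw [hB] at h1 h2
    rw [map_neg] at h2
    have h3 := nrm_ee x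
    have e1 : dL ([] : List (ℝ × (G × G))) = 0 := by simp [dL]
    have e2 : vL φ ([] : List (ℝ × (G × G))) = 0 := by simp [vL]
    have e3 : cL ([] : List (ℝ × (G × G))) = 0 := by simp [cL]
    rw [e1, e2, e3, add_zero] at h1 h2
    rw [nrm_neg] at h2
    rw [abs_le]
    constructor <;> nlinarith
  refine ⟨fun x => φ x + B (ee x), ?_, ?_⟩
  · intro x
    have := hβ x
    simpa using this
  · intro x y
    have h1 := hmem (- dd (x, y)) [(1, (x, y))]
    have h2 := hmem (dd (x, y)) [(-1, (x, y))]
    have e1 : dL [((1 : ℝ), (x, y))] = dd (x, y) := by simp [dL]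
    have e2 : vL φ [((1 : ℝ), (x, y))] = dphi φ (x, y) := by simp [vL]
    have e3 : cL [((1 : ℝ), (x, y))] = 1 := by simp [cL]
    have e4 : dL [((-1 : ℝ), (x, y))] = - dd (x, y) := by simp [dL]
    have e5 : vL φ [((-1 : ℝ), (x, y))] = - dphi φ (x, y) := by simp [vL]
    have e6 : cL [((-1 : ℝ), (x, y))] = 1 := by simp [cL]
    rw [e1, e2, e3, neg_add_cancel, nrm_zero, hB, map_neg] at h1
    rw [e4, e5, e6, add_neg_cancel, nrm_zero, hB] at h2
    have h3 : B (dd (x, y)) = B (ee x) + B (ee y) - B (ee (x * y)) := by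
      unfold dd
      rw [map_sub, map_add]
    rw [h3] at h1 h2
    unfold dphi at h1 h2
    simp only at h1 h2
    show |φ (x * y) + B (ee (x * y)) - (φ x + B (ee x)) - (φ y + B (ee y))| ≤ D / 2
    rw [abs_le]
    constructor <;> linarith

end gen

/-- For every free group and every homogeneous quasimorphism φ on it with defect D, there is a function ψ within bounded distance of φ whose defect is at most D/2, hence exactly D/2. -/
theorem result :
    ∀ (α : Type) (φ : FreeGroup α → ℝ) (D : ℝ),
      (∀ g h : FreeGroup α, |φ (g * h) - φ g - φ h| ≤ D) →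
      (∀ D' : ℝ, (∀ g h : FreeGroup α, |φ (g * h) - φ g - φ h| ≤ D') → D ≤ D') →
      (∀ (g : FreeGroup α) (n : ℕ), φ (g ^ n) = (n : ℝ) * φ g) →
      ∃ ψ : FreeGroup α → ℝ,
        (∃ C : ℝ, ∀ g : FreeGroup α, |ψ g - φ g| ≤ C) ∧
        ∀ g h : FreeGroup α, |ψ (g * h) - ψ g - ψ h| ≤ D / 2 := by
  intro α φ D h1 _ h3
  obtain ⟨ψ, hψ1, hψ2⟩ := gen_main (G := FreeGroup α) (φ := φ) (D := D) ⟨h1, h3⟩
  exact ⟨ψ, ⟨D / 2, hψ1⟩, hψ2⟩

end Pool.Agent.S0563
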