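import Pool.Statements.S0654
import Pool.Agent.H7a18c0b
import Pool.Agent.H7a18c0c

set_option autoImplicit false
open Pool Pool.MP_7a18c0_al
open scoped commutatorElement

namespace Pool.Agent.S0654

/-- linear part of a group element -/
def Lin (g : G) (w : Fin 2 → ℤ) : Prop :=
  ∃ l : ℚ, v g - (1 + A (w 0) (w 1) + A2 (w 0) (w 1) l) ∈ I 3

lemma lin_exists (g : G) : ∃ w, Lin g w := by
  obtain ⟨p, q, l, h⟩ := v_pr g
  exact ⟨![p, q], l, by simpa using h⟩

lemma ring_id3 {T : Type} [Ring T] (a b x y e d : T) :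
    (1 + a + x + e) * (1 + b + y + d) - (1 + (a + b) + (x + y + a * b)) =
      a * y + x * b + x * y + (e * (1 + b + y + d) + (1 + a + x) * d) := by
  noncomm_ring

lemma lin_mul {g h : G} {w z : Fin 2 → ℤ} (hg : Lin g w) (hh : Lin h z) :
    Lin (g * h) (w + z) := by
  obtain ⟨l, hf⟩ := hg
  obtain ⟨m, hg⟩ := hh
  refine ⟨l + m + ((w 0 : ℚ) * z 1 - w 1 * z 0) / 2, ?_⟩
  simp only [Pi.add_apply]
  push_cast
  rw [A_add, ← A2_add, v_mul]
  obtain ⟨e, he⟩ : ∃ e, e = v g - (1 + A (w 0) (w 1) + A2 (w 0) (w 1) l) := ⟨_, rfl⟩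
  obtain ⟨d, hd⟩ : ∃ d, d = v h - (1 + A (z 0) (z 1) + A2 (z 0) (z 1) m) := ⟨_, rfl⟩
  rw [← he] at hf
  rw [← hd] at hg
  have hf' : v g = 1 + A (w 0) (w 1) + A2 (w 0) (w 1) l + e := by rw [he]; abel
  have hg' : v h = 1 + A (z 0) (z 1) + A2 (z 0) (z 1) m + d := by rw [hd]; abel
  rw [hf', hg', ring_id3]
  have m1 : (1 + A (z 0) (z 1) + A2 (z 0) (z 1) m + d) ∈ I 0 :=
    (I 0).add_mem ((I 0).add_mem ((I 0).add_mem one_mem (I_mono (by omega) (A_mem _ _)))
      (I_mono (by omega) (A2_mem _ _ _))) (I_mono (by omega) hg)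
  have m2 : (1 + A (w 0) (w 1) + A2 (w 0) (w 1) l) ∈ I 0 :=
    (I 0).add_mem ((I 0).add_mem one_mem (I_mono (by omega) (A_mem _ _)))
      (I_mono (by omega) (A2_mem _ _ _))
  exact (I 3).add_mem ((I 3).add_mem ((I 3).add_mem
    (I_mul (A_mem _ _) (A2_mem _ _ _) (by omega)) (I_mul (A2_mem _ _ _) (A_mem _ _) (by omega)))
    (I_mul (A2_mem _ _ _) (A2_mem _ _ _) (by omega)))
    ((I 3).add_mem (I_mul hf m1 (by omega)) (I_mul m2 hg (by omega)))

lemma A_zero : A 0 0 = 0 := by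
  have := A_add 0 0 0 0
  simpa using this

lemma S_zero : S 0 = 0 := by
  have := S_add 0 0
  simpa using this

lemma A2_zero : A2 0 0 0 = 0 := by
  unfold A2
  rw [A_zero, S_zero]
  simp

lemma lin_one : Lin 1 0 := by
  refine ⟨0, ?_⟩
  simp only [Pi.zero_apply, Int.cast_zero, A_zero, A2_zero, v_one]
  simp

/-- operator attached to a vector -/
def AW (w : Fin 2 → ℤ) : R := A (w 0) (w 1)

lemma AW_mem (w : Fin 2 → ℤ) : AW w ∈ I 1 := A_mem _ _

lemma lin_lead {g : G} {w : Fin 2 → ℤ} (h : Lin g w) : v g - 1 - AW w ∈ I 2 := by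
  obtain ⟨l, h⟩ := h
  have : v g - 1 - AW w = (v g - (1 + A (w 0) (w 1) + A2 (w 0) (w 1) l)) +
      A2 (w 0) (w 1) l := by unfold AW; abel
  rw [this]
  exact (I 2).add_mem (I_mono (by omega) h) (A2_mem _ _ _)

lemma AW_neg (w : Fin 2 → ℤ) : AW (-w) = - AW w := by
  unfold AW
  simp only [Pi.neg_apply, Int.cast_neg]
  exact A_neg _ _

/-- inverses -/
lemma lin_inv {g : G} {w : Fin 2 → ℤ} (h : Lin g w) : Lin g⁻¹ (-w) := by
  obtain ⟨z, hz⟩ := lin_exists g⁻¹
  have h1 := lin_mul h hz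
  rw [mul_inv_cancel] at h1
  have h2 := lin_lead h1
  rw [v_one, sub_self, zero_sub] at h2
  have h3 := (I 2).neg_mem h2
  rw [neg_neg] at h3
  -- AW (w+z) in I 2 forces w+z = 0
  have h4 : w + z = 0 := by
    have h5 := h3 0 (fun i => if i = 0 then 1 else 0) (by intro i hi; omega)
    have h6 := h5 1 (by simp [lev])
    have h7 := h5 2 (by simp [lev])
    unfold AW at h6 h7
    rw [A_apply] at h6 h7
    simp at h6 h7
    funext j
    fin_cases j
    · simp; exact_mod_cast h6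
    · simp; exact_mod_cast h7
  have h5 : z = -w := by rw [eq_neg_iff_add_eq_zero, add_comm]; exact h4
  rw [h5] at hz
  exact hz

variable (H : Subgroup G)

def LH : AddSubgroup (Fin 2 → ℤ) where
  carrier := {w | ∃ h ∈ H, Lin h w}
  add_mem' := by
    rintro a b ⟨g, hg, h1⟩ ⟨h, hh, h2⟩
    exact ⟨g * h, H.mul_mem hg hh, lin_mul h1 h2⟩
  zero_mem' := ⟨1, H.one_mem, lin_one⟩
  neg_mem' := by
    rintro a ⟨g, hg, h1⟩
    exact ⟨g⁻¹, H.inv_mem hg, lin_inv h1⟩

lemma E_sq : E * E = 0 := by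
  apply I7
  exact I_mul E_mem E_mem (by omega)

def JH : AddSubgroup ℤ where
  carrier := {t | ∃ h ∈ H, v h = 1 + (t : ℚ) • E}
  add_mem' := by
    rintro a b ⟨g, hg, h1⟩ ⟨h, hh, h2⟩
    refine ⟨g * h, H.mul_mem hg hh, ?_⟩
    rw [v_mul, h1, h2]
    simp only [mul_add, add_mul, mul_one, smul_mul_assoc, mul_smul_comm, E_sq, smul_zero, one_mul]
    push_cast
    module
  zero_mem' := ⟨1, H.one_mem, by simp [v_one]⟩
  neg_mem' := by
    rintro a ⟨g, hg, h1⟩
    refine ⟨g⁻¹, H.inv_mem hg, ?_⟩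
    have h2 : (1 + ((-a : ℤ) : ℚ) • E) * v g = 1 := by
      rw [h1]
      simp only [mul_add, add_mul, mul_one, smul_mul_assoc, mul_smul_comm, E_sq, smul_zero,
        one_mul]
      push_cast
      module
    calc v g⁻¹ = ((1 + ((-a : ℤ) : ℚ) • E) * v g) * v g⁻¹ := by rw [h2, one_mul]
      _ = _ := by rw [mul_assoc, v_mul_inv, mul_one]

lemma JH_rel : ∀ a ∈ (LH H).toIntSubmodule, ∀ b ∈ (LH H).toIntSubmodule,
    5 * om b a * cub a ∈ JH H := by
  rintro a ⟨g, hg, l, h1⟩ b ⟨h, hh, m, h2⟩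
  refine ⟨⁅⁅⁅⁅h, g⁆, g⁆, g⁆, g⁆, ?_, ?_⟩
  · have k1 : ∀ x ∈ H, ⁅x, g⁆ ∈ H := by
      intro x hx
      rw [commutatorElement_def]
      exact H.mul_mem (H.mul_mem (H.mul_mem hx hg) (H.inv_mem hx)) (H.inv_mem hg)
    exact k1 _ (k1 _ (k1 _ (k1 _ hh)))
  · rw [B_lemma g h (a 0) (a 1) (b 0) (b 1) l m h1 h2]
    rfl

/-- words of length `k+1` with at most one letter outside the lattice of `H` -/
def Word (k : ℕ) : Set R := {x | ∃ (l1 : List (Fin 2 → ℤ)) (g : Fin 2 → ℤ)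
  (l2 : List (Fin 2 → ℤ)), (∀ w ∈ l1, w ∈ LH H) ∧ (∀ w ∈ l2, w ∈ LH H) ∧
    l1.length + l2.length = k ∧ x = (l1.map AW).prod * AW g * (l2.map AW).prod}

def WW (k : ℕ) : AddSubgroup R := AddSubgroup.closure (Word H k)

lemma list_mem (l : List (Fin 2 → ℤ)) : (l.map AW).prod ∈ I l.length := by
  induction l with
  | nil => simpa using one_mem
  | cons a t ih =>
    rw [List.map_cons, List.prod_cons, List.length_cons]
    exact I_mul (AW_mem a) ih (by omega)

lemma WW_mem (k : ℕ) (x : R) (hx : x ∈ WW H k) : x ∈ I (k + 1) := by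
  have : WW H k ≤ (I (k+1)).toAddSubgroup := by
    unfold WW
    rw [AddSubgroup.closure_le]
    rintro x ⟨l1, g, l2, _, _, hlen, rfl⟩
    exact I_mul (I_mul (list_mem l1) (AW_mem g) le_rfl) (list_mem l2) (by omega)
  exact this hx

lemma WW_br (k : ℕ) (x : R) (hx : x ∈ WW H k) (z : Fin 2 → ℤ) (hz : z ∈ LH H) :
    br x (AW z) ∈ WW H (k + 1) := by
  unfold WW at hx
  induction hx using AddSubgroup.closure_induction with
  | mem x hx =>
    obtain ⟨l1, g, l2, h1, h2, hlen, rfl⟩ := hx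
    unfold br
    apply AddSubgroup.sub_mem
    · apply AddSubgroup.subset_closure
      refine ⟨l1, g, l2 ++ [z], h1, ?_, ?_, ?_⟩
      · intro w hw
        rw [List.mem_append, List.mem_singleton] at hw
        rcases hw with hw | hw
        · exact h2 w hw
        · rw [hw]; exact hz
      · rw [List.length_append, List.length_singleton]; omega
      · rw [List.map_append, List.prod_append, List.map_singleton, List.prod_singleton, mul_assoc]
    · apply AddSubgroup.subset_closure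
      refine ⟨z :: l1, g, l2, ?_, h2, ?_, ?_⟩
      · intro w hw
        rw [List.mem_cons] at hw
        rcases hw with hw | hw
        · rw [hw]; exact hz
        · exact h1 w hw
      · rw [List.length_cons]; omega
      · rw [List.map_cons, List.prod_cons]
        simp only [mul_assoc]
  | zero => unfold br; simp
  | add x y _ _ hx hy =>
    have : br (x + y) (AW z) = br x (AW z) + br y (AW z) := by
      unfold br; rw [add_mul, mul_add]; abel
    rw [this]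
    exact AddSubgroup.add_mem _ hx hy
  | neg x _ hx =>
    have : br (-x) (AW z) = - br x (AW z) := by
      unfold br
      have e1 : (-x) * AW z = - (x * AW z) := rfl
      have e2 : AW z * (-x) = - (AW z * x) := by
        apply LinearMap.ext; intro w
        simp only [Module.End.mul_apply, LinearMap.neg_apply, map_neg]
      rw [e1, e2]; abel
    rw [this]
    exact AddSubgroup.neg_mem _ hx

def D (k : ℕ) : Subgroup G where
  carrier := {c | ∃ w ∈ WW H k, v c - 1 - w ∈ I (k + 2)}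
  mul_mem' := by
    rintro c d ⟨w, hw, h1⟩ ⟨z, hz, h2⟩
    refine ⟨w + z, AddSubgroup.add_mem _ hw hz, ?_⟩
    have e : v (c * d) - 1 - (w + z) = (v c - 1 - w) * v d + (v d - 1 - z) + w * (v d - 1) := by
      rw [v_mul]
      simp only [sub_mul, mul_sub, one_mul, mul_one]
      abel
    rw [e]
    exact (I (k+2)).add_mem ((I (k+2)).add_mem (I_mul h1 (v_zero_mem d) (by omega)) h2)
      (I_mul (WW_mem H k w hw) (v_one_mem d) (by omega))
  one_mem' := ⟨0, AddSubgroup.zero_mem _, by simp [v_one]⟩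
  inv_mem' := by
    rintro c ⟨w, hw, h1⟩
    refine ⟨-w, AddSubgroup.neg_mem _ hw, ?_⟩
    have e : v c⁻¹ - 1 - -w = - ((v c - 1 - w) * v c⁻¹) - w * (v c⁻¹ - 1) := by
      simp only [sub_mul, mul_sub, one_mul, mul_one, v_mul_inv]
      abel
    rw [e]
    exact (I (k+2)).sub_mem ((I (k+2)).neg_mem (I_mul h1 (v_zero_mem _) (by omega)))
      (I_mul (WW_mem H k w hw) (v_one_mem _) (by omega))

lemma D_normal (k : ℕ) (c : G) (hc : c ∈ D H k) (g : G) : g * c * g⁻¹ ∈ D H k := by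
  obtain ⟨w, hw, h1⟩ := hc
  refine ⟨w, hw, ?_⟩
  have e : v (g * c * g⁻¹) - 1 - w = v g * (v c - 1 - w) * v g⁻¹ +
      ((v g - 1) * (w * v g⁻¹) + w * (v g⁻¹ - 1)) := by
    rw [v_mul, v_mul]
    simp only [sub_mul, mul_sub, one_mul, mul_one, v_mul_inv, mul_assoc]
    abel
  rw [e]
  have hw' := WW_mem H k w hw
  exact (I (k+2)).add_mem (I_mul (I_mul (v_zero_mem g) h1 (k := k+2) (by omega))
    (v_zero_mem _) (by omega)) ((I (k+2)).add_mem
    (I_mul (v_one_mem g) (I_mul hw' (v_zero_mem _) (k := k+1) (by omega)) (by omega))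
    (I_mul hw' (v_one_mem _) (by omega)))

lemma D_comm (k : ℕ) (c : G) (hc : c ∈ D H k) (h : G) (hh : h ∈ H) : ⁅c, h⁆ ∈ D H (k + 1) := by
  obtain ⟨w, hw, h1⟩ := hc
  obtain ⟨z, hz⟩ := lin_exists h
  refine ⟨br w (AW z), WW_br H k w hw z ⟨h, hh, hz⟩, ?_⟩
  exact step1 c h (k + 1) w (AW z) (WW_mem H k w hw) (AW_mem z) h1 (lin_lead hz)

lemma D_zero : D H 0 = ⊤ := by
  rw [eq_top_iff]
  intro c _
  obtain ⟨z, hz⟩ := lin_exists c
  refine ⟨AW z, AddSubgroup.subset_closure ⟨[], z, [], ?_, ?_, ?_, ?_⟩, lin_lead hz⟩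
  · intro w hw; simp at hw
  · intro w hw; simp at hw
  · simp
  · simp

lemma D_anti (k : ℕ) : D H (k + 1) ≤ D H k := by
  rintro c ⟨w, hw, h1⟩
  refine ⟨0, AddSubgroup.zero_mem _, ?_⟩
  have : v c - 1 - 0 = (v c - 1 - w) + w := by abel
  rw [this]
  exact (I (k+2)).add_mem (I_mono (by omega) h1) (WW_mem H (k+1) w hw)

lemma prod6 (a b c d e f : Fin 2 → ℤ) :
    AW a * (AW b * (AW c * (AW d * (AW e * AW f)))) =
      ((10 * om f e * om d c * om b a : ℤ) : ℚ) • E := by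
  apply LinearMap.ext
  intro w
  funext i
  unfold AW om
  simp only [Module.End.mul_apply, LinearMap.smul_apply, A_apply, E_apply, Pi.smul_apply,
    smul_eq_mul]
  push_cast
  fin_cases i <;> simp <;> ring

lemma om_swap (a b : Fin 2 → ℤ) : om a b = - om b a := by unfold om; ring

lemma word5 (x : R) (hx : x ∈ Word H 5) : ∃ t ∈ JH H, x = (t : ℚ) • E := by
  obtain ⟨l1, g, l2, h1, h2, hlen, rfl⟩ := hx
  have C := C_lemma (LH H).toIntSubmodule (JH H) (JH_rel H)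
  have hL : ∀ w, w ∈ (LH H).toIntSubmodule ↔ w ∈ LH H := fun w => Iff.rfl
  simp only [hL] at C
  have C' : ∀ g w u z a b : Fin 2 → ℤ, w ∈ LH H → u ∈ LH H → z ∈ LH H → a ∈ LH H → b ∈ LH H →
      10 * om w g * om u z * om a b ∈ JH H := by
    intro g w u z a b hw hu hz ha hb
    have := (JH H).neg_mem (C g w hw u hu z hz a ha b hb)
    convert this using 1
    rw [om_swap w g]; ring
  rcases l1 with _ | ⟨a1, _ | ⟨a2, _ | ⟨a3, _ | ⟨a4, _ | ⟨a5, _ | ⟨a6, l1⟩⟩⟩⟩⟩⟩ <;>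
  rcases l2 with _ | ⟨b1, _ | ⟨b2, _ | ⟨b3, _ | ⟨b4, _ | ⟨b5, _ | ⟨b6, l2⟩⟩⟩⟩⟩⟩ <;>
  simp only [List.length_nil, List.length_cons] at hlen <;> try omega
  all_goals simp only [List.map_nil, List.map_cons, List.prod_nil, List.prod_cons, mul_one,
    one_mul, mul_assoc, prod6]
  · -- g b1 b2 b3 b4 b5
    refine ⟨_, ?_, rfl⟩
    have := C' g b1 b5 b4 b3 b2 (h2 _ (by simp)) (h2 _ (by simp)) (h2 _ (by simp))
      (h2 _ (by simp)) (h2 _ (by simp))
    convert this using 1; ring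
  · refine ⟨_, ?_, rfl⟩
    have := C g a1 (h1 _ (by simp)) b4 (h2 _ (by simp)) b3 (h2 _ (by simp)) b2 (h2 _ (by simp))
      b1 (h2 _ (by simp))
    convert this using 1; ring
  · refine ⟨_, ?_, rfl⟩
    have := C' g b1 b3 b2 a2 a1 (h2 _ (by simp)) (h2 _ (by simp)) (h2 _ (by simp))
      (h1 _ (by simp)) (h1 _ (by simp))
    convert this using 1; ring
  · refine ⟨_, ?_, rfl⟩
    have := C g a3 (h1 _ (by simp)) b2 (h2 _ (by simp)) b1 (h2 _ (by simp)) a2 (h1 _ (by simp))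
      a1 (h1 _ (by simp))
    convert this using 1; ring
  · refine ⟨_, ?_, rfl⟩
    have := C' g b1 a4 a3 a2 a1 (h2 _ (by simp)) (h1 _ (by simp)) (h1 _ (by simp))
      (h1 _ (by simp)) (h1 _ (by simp))
    convert this using 1; ring
  · refine ⟨_, ?_, rfl⟩
    have := C g a5 (h1 _ (by simp)) a4 (h1 _ (by simp)) a3 (h1 _ (by simp)) a2 (h1 _ (by simp))
      a1 (h1 _ (by simp))
    convert this using 1; ring

lemma WW5 (x : R) (hx : x ∈ WW H 5) : ∃ t ∈ JH H, x = (t : ℚ) • E := by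
  unfold WW at hx
  induction hx using AddSubgroup.closure_induction with
  | mem x hx => exact word5 H x hx
  | zero => exact ⟨0, AddSubgroup.zero_mem _, by simp⟩
  | add x y _ _ hx hy =>
    obtain ⟨t, ht, rfl⟩ := hx
    obtain ⟨s, hs, rfl⟩ := hy
    exact ⟨t + s, AddSubgroup.add_mem _ ht hs, by push_cast; module⟩
  | neg x _ hx =>
    obtain ⟨t, ht, rfl⟩ := hx
    exact ⟨-t, AddSubgroup.neg_mem _ ht, by push_cast; module⟩

lemma D5_le : D H 5 ≤ H := by
  rintro c ⟨w, hw, h1⟩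
  have h2 := I7 h1
  obtain ⟨t, ⟨h, hh, hv⟩, rfl⟩ := WW5 H w hw
  have : v c = v h := by
    rw [hv]
    rw [sub_sub, sub_eq_zero] at h2
    exact h2
  rw [v_inj this]
  exact hh

lemma chain_normal (k : ℕ) : ((H ⊔ D H (k + 1)).subgroupOf (H ⊔ D H k)).Normal := by
  rw [Subgroup.normal_subgroupOf_iff (sup_le_sup_left (D_anti H k) H)]
  intro x y hx hy
  haveI : (D H k).Normal := ⟨fun c hc g => D_normal H k c hc g⟩
  have hy' : y ∈ ((H ⊔ D H k : Subgroup G) : Set G) := hy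
  rw [Subgroup.mul_normal] at hy'
  obtain ⟨h, hh, d, hd, rfl⟩ := hy'
  have hHN : H ≤ H ⊔ D H (k+1) := le_sup_left
  have key : H ⊔ D H (k + 1) ≤ (H ⊔ D H (k + 1)).comap (MulAut.conj d).toMonoidHom := by
    apply sup_le
    · intro z hz
      show d * z * d⁻¹ ∈ H ⊔ D H (k + 1)
      have e : d * z * d⁻¹ = ⁅d, z⁆ * z := by rw [commutatorElement_def]; group
      rw [e]
      exact Subgroup.mul_mem _ ((le_sup_right : D H (k+1) ≤ _) (D_comm H k d hd z hz)) (hHN hz)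
    · intro z hz
      show d * z * d⁻¹ ∈ H ⊔ D H (k + 1)
      exact (le_sup_right : D H (k+1) ≤ _) (D_normal H (k+1) z hz d)
  have h1 : d * x * d⁻¹ ∈ H ⊔ D H (k + 1) := key hx
  have e : h * d * x * (h * d)⁻¹ = h * (d * x * d⁻¹) * h⁻¹ := by group
  show h * d * x * (h * d)⁻¹ ∈ _
  rw [e]
  exact Subgroup.mul_mem _ (Subgroup.mul_mem _ (hHN hh) h1) (Subgroup.inv_mem _ (hHN hh))

/-! ### class -/

lemma exists_elt (p q : ℤ) : ∃ g : G, Lin g ![p, q] := by
  obtain ⟨α, hα⟩ : ∃ α, α = A (p : ℚ) q + A2 (p : ℚ) q 0 := ⟨_, rfl⟩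
  have mα : α ∈ I 1 := by
    rw [hα]; exact (I 1).add_mem (A_mem _ _) (I_mono (by omega) (A2_mem _ _ _))
  have hpow : ∀ n : ℕ, α ^ n ∈ I n := by
    intro n
    induction n with
    | zero => simpa using one_mem
    | succ n ih => rw [pow_succ]; exact I_mul ih mα le_rfl
  have h7 : α ^ 7 = 0 := I7 (hpow 7)
  obtain ⟨y, hy⟩ : ∃ y, y = ∑ i ∈ Finset.range 7, (-α) ^ i := ⟨_, rfl⟩
  have hneg : ∀ n, (-α) ^ n ∈ I n := by
    intro n
    induction n with
    | zero => simpa using one_mem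
    | succ n ih => rw [pow_succ]; exact I_mul ih ((I 1).neg_mem mα) le_rfl
  have h7' : (-α) ^ 7 = 0 := I7 (hneg 7)
  have y0 : y ∈ I 0 := by
    rw [hy]
    exact Submodule.sum_mem _ (fun i _ => I_mono (by omega) (hneg i))
  have hxy : (1 + α) * y = 1 := by
    have := mul_neg_geom_sum (-α) 7
    rw [sub_neg_eq_add, h7', sub_zero, ← hy] at this
    exact this
  have hyx : y * (1 + α) = 1 := by
    have := geom_sum_mul_neg (-α) 7
    rw [sub_neg_eq_add, h7', sub_zero, ← hy] at this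
    exact this
  let u : Rˣ := ⟨1 + α, y, hxy, hyx⟩
  have hu1 : Pr (1 + α) := ⟨p, q, 0, by
    have : 1 + α - (1 + A (p : ℚ) q + A2 (p : ℚ) q 0) = 0 := by rw [hα]; abel
    rw [this]; exact (I 3).zero_mem⟩
  have hu2 : Pr y := by
    refine ⟨-p, -q, -0, ?_⟩
    push_cast
    rw [← A2_neg, A_neg]
    have e1 : y = 1 - α * y := by
      have : (1 + α) * y = y + α * y := by rw [add_mul, one_mul]
      rw [this] at hxy
      rw [← hxy]; abel
    have e2 : y = 1 - α + α * α - α * α * α * y := by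
      have h1 : α * y = α - α * α * y := by
        conv_lhs => rw [e1]
        rw [mul_sub, mul_one, mul_assoc]
      have h2 : α * α * y = α * α - α * α * α * y := by
        conv_lhs => rw [e1]
        rw [mul_sub, mul_one]
        simp only [mul_assoc]
      conv_lhs => rw [e1, h1, h2]
      abel
    have e3 : y - (1 + -A (p : ℚ) q + (A (p : ℚ) q * A (p : ℚ) q - A2 (p : ℚ) q 0)) =
        A (p : ℚ) q * A2 (p : ℚ) q 0 + A2 (p : ℚ) q 0 * A (p : ℚ) q +
        A2 (p : ℚ) q 0 * A2 (p : ℚ) q 0 - α * α * α * y := by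
      conv_lhs => rw [e2]
      have : α * α = A (p : ℚ) q * A (p : ℚ) q + (A (p : ℚ) q * A2 (p : ℚ) q 0 +
        A2 (p : ℚ) q 0 * A (p : ℚ) q + A2 (p : ℚ) q 0 * A2 (p : ℚ) q 0) := by
        rw [hα, add_mul, mul_add, mul_add]; abel
      have h3 : 1 - α + α * α - α * α * α * y = 1 - α + (A (p : ℚ) q * A (p : ℚ) q +
        (A (p : ℚ) q * A2 (p : ℚ) q 0 +
        A2 (p : ℚ) q 0 * A (p : ℚ) q + A2 (p : ℚ) q 0 * A2 (p : ℚ) q 0)) - α * α * α * y := by
        rw [← this]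
      rw [h3]
      have h4 : (1 : R) - α = 1 - (A (p : ℚ) q + A2 (p : ℚ) q 0) := by rw [hα]
      rw [h4]
      abel
    rw [e3]
    refine (I 3).sub_mem ((I 3).add_mem ((I 3).add_mem
      (I_mul (A_mem _ _) (A2_mem _ _ _) (by omega)) (I_mul (A2_mem _ _ _) (A_mem _ _) (by omega)))
      (I_mul (A2_mem _ _ _) (A2_mem _ _ _) (by omega))) ?_
    exact I_mul (I_mul (I_mul mα mα (k := 2) (by omega)) mα (k := 3) (by omega)) y0 (by omega)
  refine ⟨⟨u, hu1, hu2⟩, 0, ?_⟩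
  show (1 + α) - (1 + A _ _ + A2 _ _ 0) ∈ I 3
  have : 1 + α - (1 + A ((![p, q] : Fin 2 → ℤ) 0 : ℚ) ((![p, q] : Fin 2 → ℤ) 1 : ℚ) +
    A2 ((![p, q] : Fin 2 → ℤ) 0 : ℚ) ((![p, q] : Fin 2 → ℤ) 1 : ℚ) 0) = 0 := by
    rw [hα]
    simp only [Matrix.cons_val_zero, Matrix.cons_val_one]
    abel
  rw [this]
  exact (I 3).zero_mem

lemma not_class5 : upperCentralSeries G 5 ≠ ⊤ := by
  intro htop
  obtain ⟨X, hX⟩ := exists_elt 1 0
  obtain ⟨Y, hY⟩ := exists_elt 0 1
  have k5 : Y ∈ upperCentralSeries G 5 := by rw [htop]; trivial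
  have st : ∀ n (x y : G), x ∈ upperCentralSeries G (n+1) → ⁅x, y⁆ ∈ upperCentralSeries G n := by
    intro n x y hx
    exact (Subgroup.mem_upperCentralSeries_succ_iff.mp hx) y
  have k0 := st 0 _ Y (st 1 _ Y (st 2 _ X (st 3 _ X (st 4 _ X k5))))
  have k0 : ⁅⁅⁅⁅⁅Y, X⁆, X⁆, X⁆, Y⁆, Y⁆ = 1 := by
    have : (⁅⁅⁅⁅⁅Y, X⁆, X⁆, X⁆, Y⁆, Y⁆ : G) ∈ (⊥ : Subgroup G) := by
      rw [← Subgroup.upperCentralSeries_zero]; exact k0
    exact Subgroup.mem_bot.mp this
  obtain ⟨x, hx⟩ : ∃ x, x = AW ![1, 0] := ⟨_, rfl⟩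
  obtain ⟨y, hy⟩ : ∃ y, y = AW ![0, 1] := ⟨_, rfl⟩
  have mx : x ∈ I 1 := by rw [hx]; exact AW_mem _
  have my : y ∈ I 1 := by rw [hy]; exact AW_mem _
  have lX : v X - 1 - x ∈ I 2 := by rw [hx]; exact lin_lead hX
  have lY : v Y - 1 - y ∈ I 2 := by rw [hy]; exact lin_lead hY
  have m2 : br y x ∈ I 2 := br_mem my mx (by omega)
  have m3 : br (br y x) x ∈ I 3 := br_mem m2 mx (by omega)
  have m4 : br (br (br y x) x) x ∈ I 4 := br_mem m3 mx (by omega)
  have m5 : br (br (br (br y x) x) x) y ∈ I 5 := br_mem m4 my (by omega)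
  have s1 := step1 Y X 1 y x my mx lY lX
  have s2 := step1 _ X 2 _ x m2 mx s1 lX
  have s3 := step1 _ X 3 _ x m3 mx s2 lX
  have s4 := step1 _ Y 4 _ y m4 my s3 lY
  have s5 := step1 _ Y 5 _ y m5 my s4 lY
  have h := I7 s5
  rw [k0, v_one, sub_self, zero_sub, neg_eq_zero] at h
  have h2 := congrFun (LinearMap.congr_fun h (fun _ => 1)) 9
  rw [hx, hy] at h2
  unfold AW at h2
  simp only [br_apply, A_apply, LinearMap.zero_apply, Pi.zero_apply, Pi.sub_apply] at h2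
  simp at h2
  norm_num at h2

/-- The negation of the preceding statement: For every n and every torsion-free group G in which each subgroup is joined to G by a chain of n subgroups, each normal in the next, the n-th term of the upper central series is G, so G is nilpotent of class at most n. -/
theorem result :
    ¬ (∀ (n : ℕ) (G : Type) [Group G],
    (∀ g : G, ∀ k : ℕ, 0 < k → g ^ k = 1 → g = 1) →
    (∀ H : Subgroup G, ∃ f : ℕ → Subgroup G, f 0 = H ∧ f n = ⊤ ∧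
        ∀ i, i < n → f i ≤ f (i + 1) ∧ ((f i).subgroupOf (f (i + 1))).Normal) →
    upperCentralSeries G n = ⊤) := by
  intro hall
  refine not_class5 (hall 5 G torsion_free ?_)
  intro H
  refine ⟨fun i => H ⊔ D H (5 - i), ?_, ?_, ?_⟩
  · exact sup_eq_left.mpr (D5_le H)
  · show H ⊔ D H (5 - 5) = ⊤
    rw [Nat.sub_self, D_zero, sup_top_eq]
  · intro i hi
    have e : 5 - i = (5 - (i + 1)) + 1 := by omega
    show H ⊔ D H (5 - i) ≤ H ⊔ D H (5 - (i + 1)) ∧
      ((H ⊔ D H (5 - i)).subgroupOf (H ⊔ D H (5 - (i + 1)))).Normal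
    rw [e]
    exact ⟨sup_le_sup_left (D_anti H _) H, chain_normal H _⟩

end Pool.Agent.S0654
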