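import Pool.Statements.S0710

set_option autoImplicit false
open Pool Pool.MP_8999af_al

namespace Pool.Agent.S0710

open Equiv

abbrev V := Multiplicative ℤ_[2]

abbrev X := Option (Option V)

def D : Type := Equiv.Perm X

noncomputable instance : Group D := inferInstanceAs (Group (Equiv.Perm X))

open Classical in
noncomputable instance : MetricSpace D where
  dist a b := if a = b then 0 else 1
  dist_self a := by simp
  dist_comm a b := by simp [eq_comm]
  dist_triangle a b c := by
    by_cases h1 : a = b <;> by_cases h2 : b = c <;> by_cases h3 : a = c <;> simp_all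
  eq_of_dist_eq_zero := by
    intro a b h
    by_contra hne
    simp [hne] at h

lemma dist_D (a b : D) (h : a ≠ b) : dist a b = 1 := by
  classical
  show (if a = b then (0:ℝ) else 1) = 1
  rw [if_neg h]

lemma D_eq (a b : D) (h : dist a b < 1) : a = b := by
  by_contra hne
  rw [dist_D a b hne] at h
  exact lt_irrefl _ h

instance : DiscreteTopology D := by
  rw [discreteTopology_iff_isOpen_singleton]
  intro a
  rw [Metric.isOpen_iff]
  intro b hb
  rw [Set.mem_singleton_iff] at hb
  subst hb
  refine ⟨1, one_pos, ?_⟩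
  intro c hc
  rw [Metric.mem_ball] at hc
  exact D_eq _ _ hc

instance : IsTopologicalGroup D where
  continuous_mul := continuous_of_discreteTopology
  continuous_inv := continuous_of_discreteTopology

instance : CompleteSpace D := by
  apply Metric.complete_of_cauchySeq_tendsto
  intro u hu
  rw [Metric.cauchySeq_iff'] at hu
  obtain ⟨N, hN⟩ := hu 1 one_pos
  refine ⟨u N, ?_⟩
  apply tendsto_const_nhds.congr'
  filter_upwards [Filter.eventually_ge_atTop N] with n hn
  exact (D_eq _ _ (hN n hn)).symm

instance : CompleteSpace V := inferInstanceAs (CompleteSpace ℤ_[2])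

abbrev G := V × D

noncomputable instance : MetricSpace G := inferInstance
instance : IsTopologicalGroup G := inferInstance
instance : CompleteSpace G := inferInstance

noncomputable section

open Classical

def inf : X := none
def e' : X := some none
def emb (v : V) : X := some (some v)

def tr (v : V) : Equiv.Perm X := Equiv.optionCongr (Equiv.optionCongr (Equiv.mulLeft v))

lemma tr_inf (v : V) : tr v inf = inf := rfl
lemma tr_e' (v : V) : tr v e' = e' := rfl
lemma tr_emb (v w : V) : tr v (emb w) = emb (v * w) := rfl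

def α : V →* Equiv.Perm X where
  toFun := tr
  map_one' := by
    apply Equiv.ext
    intro x
    rcases x with _ | _ | w
    · rfl
    · rfl
    · show emb (1 * w) = emb w
      rw [one_mul]
  map_mul' v w := by
    apply Equiv.ext
    intro x
    rcases x with _ | _ | u
    · rfl
    · rfl
    · show emb (v * w * u) = emb (v * (w * u))
      rw [mul_assoc]

def s : Equiv.Perm X := swap inf (emb 1)
def t : Equiv.Perm X := swap inf (emb 1) * swap inf e'
def κ : Equiv.Perm X := swap (emb 1) e'

def β : V →* Equiv.Perm X := (MulAut.conj κ).toMonoidHom.comp α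

lemma β_apply (v : V) : β v = κ * tr v * κ⁻¹ := rfl

lemma κ_inv : κ⁻¹ = κ := Equiv.swap_inv _ _

lemma inf_ne (v : V) : inf ≠ emb v := by intro h; cases h
lemma inf_ne' : inf ≠ e' := by intro h; cases h
lemma emb_ne (v : V) : emb v ≠ e' := by intro h; cases h
lemma emb_inj (v w : V) (h : emb v = emb w) : v = w := by
  unfold emb at h
  exact Option.some.inj (Option.some.inj h)

lemma β_inf (v : V) : β v inf = inf := by
  rw [β_apply, κ_inv]
  show κ (tr v (κ inf)) = inf
  have : κ inf = inf := Equiv.swap_apply_of_ne_of_ne (inf_ne 1) inf_ne'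
  rw [this, tr_inf, this]

lemma β_e (v : V) : β v (emb 1) = emb 1 := by
  rw [β_apply, κ_inv]
  show κ (tr v (κ (emb 1))) = emb 1
  have h1 : κ (emb 1) = e' := Equiv.swap_apply_left _ _
  have h2 : κ e' = emb 1 := Equiv.swap_apply_right _ _
  rw [h1, tr_e', h2]

lemma β_e' (v : V) (hv : v ≠ 1) : β v e' = emb v := by
  rw [β_apply, κ_inv]
  show κ (tr v (κ e')) = emb v
  have h2 : κ e' = emb 1 := Equiv.swap_apply_right _ _
  rw [h2, tr_emb, mul_one]
  exact Equiv.swap_apply_of_ne_of_ne (fun h => hv (emb_inj _ _ h)) (emb_ne v)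

lemma key (v : V) (hv : v ≠ 1) :
    α v * (s * (α v)⁻¹ * s⁻¹) * (β v * (t * (β v)⁻¹ * t⁻¹)) = t⁻¹ := by
  have h1 : α v * s * (α v)⁻¹ = swap inf (emb v) := by
    have := Equiv.swap_apply_apply (α v) inf (emb 1)
    unfold s
    rw [← this]
    show swap (tr v inf) (tr v (emb 1)) = _
    rw [tr_inf, tr_emb, mul_one]
  have h2 : β v * t * (β v)⁻¹ = swap inf (emb 1) * swap inf (emb v) := by
    have e1 := Equiv.swap_apply_apply (β v) inf (emb 1)
    have e2 := Equiv.swap_apply_apply (β v) inf e'
    have : β v * t * (β v)⁻¹ = (β v * swap inf (emb 1) * (β v)⁻¹) *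
      (β v * swap inf e' * (β v)⁻¹) := by unfold t; group
    rw [this, ← e1, ← e2, β_inf, β_e, β_e' v hv]
  calc α v * (s * (α v)⁻¹ * s⁻¹) * (β v * (t * (β v)⁻¹ * t⁻¹))
      = (α v * s * (α v)⁻¹) * s⁻¹ * (β v * t * (β v)⁻¹) * t⁻¹ := by group
    _ = t⁻¹ := by
      rw [h1, h2]
      unfold s
      rw [Equiv.swap_inv, mul_assoc (swap inf (emb v)), ← mul_assoc (swap inf (emb 1)),
        Equiv.swap_mul_self, one_mul, Equiv.swap_mul_self, one_mul]

lemma t_ne : t⁻¹ ≠ 1 := by
  intro h
  have h1 : t = 1 := inv_eq_one.mp h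
  have h2 : t inf = inf := by rw [h1]; rfl
  have h3 : t inf = e' := by
    show swap inf (emb 1) (swap inf e' inf) = e'
    rw [Equiv.swap_apply_left]
    exact Equiv.swap_apply_of_ne_of_ne (fun h => inf_ne' h.symm) (fun h => emb_ne 1 h.symm)
  rw [h3] at h2
  exact inf_ne' h2.symm

/-- homs V → D into D -/
def φ : Fin 4 → (V →* Equiv.Perm X) :=
  ![α, (MulAut.conj s).toMonoidHom.comp (α.comp invMonoidHom), β,
    (MulAut.conj t).toMonoidHom.comp (β.comp invMonoidHom)]

def UU (i : Fin 4) : G →* G :=
  ((MonoidHom.inr V D).comp (show V →* D from φ i)).comp (MonoidHom.fst V D)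

def cc (v : V) : D := if v = 1 then (1 : D) else (show D from t⁻¹)

lemma prod_UU (x : G) : (List.ofFn (fun i => UU i x)).prod = (1, cc x.1) := by
  have h1 : (List.ofFn (fun i => UU i x)).prod = UU 0 x * (UU 1 x * (UU 2 x * UU 3 x)) := by
    simp [List.ofFn_succ]
  rw [h1]
  have e0 : UU 0 x = (1, (show D from α x.1)) := rfl
  have e1 : UU 1 x = (1, (show D from s * (α x.1⁻¹) * s⁻¹)) := rfl
  have e2 : UU 2 x = (1, (show D from β x.1)) := rfl
  have e3 : UU 3 x = (1, (show D from t * (β x.1⁻¹) * t⁻¹)) := rfl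
  rw [e0, e1, e2, e3]
  refine Prod.ext ?_ ?_
  · simp
  · show (α x.1 * ((s * (α x.1⁻¹) * s⁻¹) * (β x.1 * (t * (β x.1⁻¹) * t⁻¹))) : Equiv.Perm X) = cc x.1
    by_cases hx : x.1 = 1
    · unfold cc
      rw [if_pos hx, hx]
      simp
      rfl
    · unfold cc
      rw [if_neg hx, map_inv, map_inv, ← mul_assoc]
      exact key x.1 hx

def nv (v : V) : ℝ := ‖(Multiplicative.toAdd v : ℤ_[2])‖

def app (k : ℕ) (x : G) : G := if nv x.1 < (1/2 : ℝ) ^ k then 1 else (1, (show D from t⁻¹))

lemma app_cont (k : ℕ) : Continuous (app k) := by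
  have hcl : IsClopen {x : G | nv x.1 < (1/2 : ℝ) ^ k} := by
    have h1 : IsClopen (Metric.ball (0 : ℤ_[2]) ((1/2 : ℝ)^k)) :=
      IsUltrametricDist.isClopen_ball 0 _
    have h2 : {x : G | nv x.1 < (1/2 : ℝ) ^ k} =
        (fun x : G => (Multiplicative.toAdd x.1 : ℤ_[2])) ⁻¹' Metric.ball (0 : ℤ_[2]) ((1/2 : ℝ)^k) := by
      ext x
      simp [nv]
    rw [h2]
    apply h1.preimage
    exact continuous_toAdd.comp continuous_fst
  unfold app
  apply Continuous.if
  · intro a ha
    rw [hcl.frontier_eq] at ha
    exact absurd ha (Set.notMem_empty _)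
  · exact continuous_const
  · exact continuous_const

lemma app_tendsto (x : G) :
    Filter.Tendsto (fun k => app k x) Filter.atTop (nhds ((1, cc x.1) : G)) := by
  by_cases hx : x.1 = 1
  · have h1 : ∀ k, app k x = (1, cc x.1) := by
      intro k
      unfold app cc nv
      rw [if_pos hx, hx]
      have : ‖(Multiplicative.toAdd (1 : V) : ℤ_[2])‖ < (1/2 : ℝ)^k := by
        rw [toAdd_one, norm_zero]; positivity
      rw [if_pos this]
      rfl
    simp only [h1]
    exact tendsto_const_nhds
  · have hpos : 0 < nv x.1 := by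
      unfold nv
      rw [norm_pos_iff]
      intro h
      apply hx
      exact toAdd_eq_zero.mp h
    obtain ⟨N, hN⟩ := exists_pow_lt_of_lt_one hpos (by norm_num : (1/2 : ℝ) < 1)
    apply tendsto_const_nhds.congr'
    filter_upwards [Filter.eventually_ge_atTop N] with k hk
    unfold app cc
    have h2 : ¬ nv x.1 < (1/2 : ℝ)^k := by
      have : (1/2 : ℝ)^k ≤ (1/2 : ℝ)^N := pow_le_pow_of_le_one (by norm_num) (by norm_num) hk
      linarith
    rw [if_neg h2, if_neg hx]

lemma not_cont : ¬ Continuous (fun x : G => ((1, cc x.1) : G)) := by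
  intro h
  have h1 : Continuous (fun v : V => cc v) := by
    have h2 : Continuous (fun v : V => ((v, 1) : G)) := Continuous.prodMk continuous_id continuous_const
    have := continuous_snd.comp (h.comp h2)
    exact this
  have h3 : Filter.Tendsto (fun n : ℕ => (Multiplicative.ofAdd ((2 : ℤ_[2]) ^ n) : V)) Filter.atTop
      (nhds (1 : V)) := by
    have h4 : Filter.Tendsto (fun n : ℕ => ((2 : ℤ_[2]) ^ n)) Filter.atTop (nhds 0) := by
      apply tendsto_pow_atTop_nhds_zero_of_norm_lt_one
      have := PadicInt.norm_p (p := 2)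
      have h5 : ‖(2 : ℤ_[2])‖ = (2 : ℝ)⁻¹ := by exact_mod_cast this
      rw [h5]; norm_num
    have h6 := (continuous_ofAdd.tendsto (0 : ℤ_[2])).comp h4
    exact h6
  have h7 := (h1.tendsto 1).comp h3
  have h8 : ∀ n : ℕ, cc (Multiplicative.ofAdd ((2 : ℤ_[2]) ^ n)) = (show D from t⁻¹) := by
    intro n
    unfold cc
    rw [if_neg]
    intro h9
    have h10 : (2 : ℤ_[2]) ^ n = 0 := by
      have := congrArg Multiplicative.toAdd h9
      simpa using this
    exact (pow_ne_zero n (by norm_num)) h10
  have h9 : cc 1 = 1 := by unfold cc; rw [if_pos rfl]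
  have h10 : Filter.Tendsto (fun _ : ℕ => (show D from t⁻¹)) Filter.atTop (nhds (1 : D)) := by
    rw [← h9]
    refine h7.congr ?_
    intro n
    exact h8 n
  have h11 := tendsto_nhds_unique h10 tendsto_const_nhds
  exact t_ne h11.symm

lemma noncomm : ∃ a b : G, a * b ≠ b * a := by
  refine ⟨(1, (show D from swap inf (emb 1))), (1, (show D from swap inf e')), ?_⟩
  intro h
  have h1 := congrArg Prod.snd h
  have h2 : (swap inf (emb 1) * swap inf e' : Equiv.Perm X) = swap inf e' * swap inf (emb 1) := h1
  have h3 := Equiv.congr_fun h2 inf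
  have h4 : (swap inf (emb 1) * swap inf e' : Equiv.Perm X) inf = e' := by
    show swap inf (emb 1) (swap inf e' inf) = e'
    rw [Equiv.swap_apply_left]
    exact Equiv.swap_apply_of_ne_of_ne (fun h => inf_ne' h.symm) (fun h => emb_ne 1 h.symm)
  have h5 : (swap inf e' * swap inf (emb 1) : Equiv.Perm X) inf = emb 1 := by
    show swap inf e' (swap inf (emb 1) inf) = emb 1
    rw [Equiv.swap_apply_left]
    exact Equiv.swap_apply_of_ne_of_ne (fun h => inf_ne 1 h.symm) (emb_ne 1)
  rw [h4, h5] at h3
  exact emb_ne 1 h3.symm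

end

/-- The negation of the preceding statement: In a complete metric non-commutative topological group G, if U1,...,Un are homomorphisms G→G and x ↦ U1(x)⋯Un(x) is of some Baire class (iterated pointwise sequential limits of continuous maps), then that map is continuous. -/
theorem result :
    ¬ (∀ (G : Type) [Group G] [MetricSpace G] [IsTopologicalGroup G] [CompleteSpace G],
      (∃ a b : G, a * b ≠ b * a) →
      ∀ (n : ℕ) (U : Fin n → G →* G),
        (∀ S : Set (G → G),
          (∀ f : G → G, Continuous f → f ∈ S) →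
          (∀ (f : ℕ → G → G) (g : G → G), (∀ k, f k ∈ S) →
            (∀ x, Filter.Tendsto (fun k => f k x) Filter.atTop (nhds (g x))) → g ∈ S) →
          (fun x => (List.ofFn (fun i => U i x)).prod) ∈ S) →
        Continuous (fun x => (List.ofFn (fun i => U i x)).prod)) := by
  intro hall
  have hprod : (fun x : G => (List.ofFn (fun i => UU i x)).prod) = fun x => ((1, cc x.1) : G) := by
    funext x
    exact prod_UU x
  have h := hall G ?_ 4 UU ?_
  · rw [hprod] at h
    exact not_cont h
  · exact noncomm
  · intro S hS1 hS2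
    rw [hprod]
    exact hS2 app _ (fun k => hS1 _ (app_cont k)) app_tendsto

end Pool.Agent.S0710
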