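import Pool.Statements.S0853

set_option autoImplicit false
open Pool Pool.MP_ace734_al

namespace Pool.Agent.S0853

open Complex

/-- monomial matrices of size 16 with entries fourth roots of unity -/
@[ext] structure Mono where
  p : Equiv.Perm (Fin 16)
  d : Fin 16 → ZMod 4

namespace Mono

instance : DecidableEq Mono := fun x y =>
  decidable_of_iff ((∀ i, x.p i = y.p i) ∧ (∀ i, x.d i = y.d i))
    ⟨fun h => Mono.ext (Equiv.ext h.1) (funext h.2), fun h => h ▸ ⟨fun _ => rfl, fun _ => rfl⟩⟩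

instance : Mul Mono := ⟨fun x y => ⟨x.p * y.p, fun j => x.d (y.p j) + y.d j⟩⟩
instance : One Mono := ⟨⟨1, fun _ => 0⟩⟩
instance : Inv Mono := ⟨fun x => ⟨x.p⁻¹, fun j => - x.d (x.p⁻¹ j)⟩⟩

@[simp] lemma mul_p (x y : Mono) : (x * y).p = x.p * y.p := rfl
@[simp] lemma mul_d (x y : Mono) (j : Fin 16) : (x * y).d j = x.d (y.p j) + y.d j := rfl
@[simp] lemma one_p : (1 : Mono).p = 1 := rfl
@[simp] lemma one_d (j : Fin 16) : (1 : Mono).d j = 0 := rfl
@[simp] lemma inv_p (x : Mono) : (x⁻¹).p = x.p⁻¹ := rfl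
@[simp] lemma inv_d (x : Mono) (j : Fin 16) : (x⁻¹).d j = - x.d (x.p⁻¹ j) := rfl

instance : Group Mono where
  mul_assoc x y z := by
    ext j
    · simp [mul_assoc]
    · simp [add_assoc]
  one_mul x := by ext j <;> simp
  mul_one x := by ext j <;> simp
  inv_mul_cancel x := by ext j <;> simp

instance : Finite Mono := by
  have : Function.Injective (fun x : Mono => (x.p, x.d)) := by
    intro x y h
    simp only [Prod.mk.injEq] at h
    exact Mono.ext h.1 h.2
  exact Finite.of_injective _ this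

end Mono

lemma I_pow_add (a b : ZMod 4) : (I : ℂ) ^ (a + b).val = I ^ a.val * I ^ b.val := by
  rw [← pow_add, ZMod.val_add, ← Complex.I_pow_eq_pow_mod]

/-- The matrix of a monomial element. -/
noncomputable def toMat : Mono →* Matrix (Fin 16) (Fin 16) ℂ where
  toFun x := Matrix.of fun i j => if i = x.p j then (I : ℂ) ^ (x.d j).val else 0
  map_one' := by
    ext i j
    simp [Matrix.one_apply]
  map_mul' x y := by
    ext i j
    simp only [Matrix.of_apply, Matrix.mul_apply, Mono.mul_p, Mono.mul_d, Equiv.Perm.mul_apply,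
      I_pow_add]
    rw [Finset.sum_eq_single (y.p j)]
    · by_cases h : i = x.p (y.p j) <;> simp [h]
    · intro k _ hk; simp [hk]
    · simp

lemma toMat_apply (x : Mono) (i j : Fin 16) :
    toMat x i j = if i = x.p j then (I : ℂ) ^ (x.d j).val else 0 := rfl

lemma toMat_mulVec (x : Mono) (v : Fin 16 → ℂ) (i : Fin 16) :
    (toMat x).mulVec v i = (I : ℂ) ^ (x.d (x.p⁻¹ i)).val * v (x.p⁻¹ i) := by
  simp only [Matrix.mulVec, dotProduct, toMat_apply]
  rw [Finset.sum_eq_single (x.p⁻¹ i)]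
  · simp
  · intro k _ hk
    rw [if_neg, zero_mul]
    intro h
    exact hk (by simp [h])
  · simp

def lk (l : List ℕ) (i : Fin 16) : ℕ := l.getD i.val 0

def f0 (i : Fin 16) : Fin 16 :=
  Fin.ofNat 16 (lk [2,3,0,1,6,7,4,5,10,11,8,9,12,13,14,15] i)
def f1 (i : Fin 16) : Fin 16 :=
  Fin.ofNat 16 (lk [6,7,8,9,12,13,0,1,2,3,15,14,4,5,11,10] i)
def f2 (i : Fin 16) : Fin 16 :=
  Fin.ofNat 16 (lk [4,5,6,7,0,1,2,3,8,9,10,11,14,15,12,13] i)
def d1 (i : Fin 16) : ZMod 4 :=
  (Fin.ofNat 4 (lk [1,3,0,0,0,0,3,1,0,0,2,0,0,0,0,2] i) : Fin 4)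

def g (k : Fin 3) : Mono :=
  match k with
  | 0 => ⟨Function.Involutive.toPerm f0 (by intro x; revert x; decide), fun _ => 0⟩
  | 1 => ⟨Function.Involutive.toPerm f1 (by intro x; revert x; decide), d1⟩
  | 2 => ⟨Function.Involutive.toPerm f2 (by intro x; revert x; decide), fun _ => 0⟩

def ev (w : List (Fin 3)) : Mono := (w.map g).prod

theorem g_sq (k : Fin 3) : g k * g k = 1 := by
  revert k; decide +kernel

theorem g_ne (k : Fin 3) : g k ≠ 1 := by
  revert k; decide +kernel

theorem g02 : (g 0 * g 2) ^ 2 = 1 := by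
  decide +kernel

theorem g01_8 : (g 0 * g 1) ^ 8 = 1 := by
  decide +kernel

theorem g12_8 : (g 1 * g 2) ^ 8 = 1 := by
  decide +kernel

/-- words -/
def w0 : List (Fin 3) := [1,2,0,1,2,0,1,0,1,2,0,1,2,0,1,0,1,2,0,1,2,0,1,0,1,2,0,1,2,0,1,0]
def w1 : List (Fin 3) := [1,2,1,2,1,0,1,2,0,1,2,1,0,1,2,0,1,2,1,2,0,1,0,1,2,1,2,0,1,0,1,2,1,2,1,0]
def w2 : List (Fin 3) := [1,0,1,2,1,2,0,1,0,1,2,0,1,2,1,0,1,2,0,1,2,1,0,1,0,1,2,1,0,1,0,1,2,1,2,0]
def w3 : List (Fin 3) := [2,1,2,1,0,1,0,1,0,1,2,0,1,2,1,0,1,0,1,0,1,2,0,1,2,1,0,1,0,1,0,1,0]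

def ws (k : Fin 4) : List (Fin 3) := match k with
  | 0 => w0
  | 1 => w1
  | 2 => w2
  | 3 => w3

theorem ws_p (k : Fin 4) : (ev (ws k)).p = 1 := by
  revert k; decide +kernel

theorem ws_sep : ∀ p q : Fin 16, p ≠ q → ∃ k, (ev (ws k)).d p ≠ (ev (ws k)).d q := by
  decide +kernel

theorem c1 : ∀ (n m : Fin 8) (e f : Fin 2),
    (g 0 * g 1) ^ n.val * g 0 ^ e.val = (g 1 * g 2) ^ m.val * g 1 ^ f.val →
      (g 0 * g 1) ^ n.val * g 0 ^ e.val = 1 ∨ (g 0 * g 1) ^ n.val * g 0 ^ e.val = g 1 := by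
  decide +kernel

theorem c2 : ∀ (n : Fin 8) (m : Fin 2) (e f : Fin 2),
    (g 0 * g 1) ^ n.val * g 0 ^ e.val = (g 0 * g 2) ^ m.val * g 0 ^ f.val →
      (g 0 * g 1) ^ n.val * g 0 ^ e.val = 1 ∨ (g 0 * g 1) ^ n.val * g 0 ^ e.val = g 0 := by
  decide +kernel

theorem c3 : ∀ (n : Fin 8) (m : Fin 2) (e f : Fin 2),
    (g 1 * g 2) ^ n.val * g 1 ^ e.val = (g 0 * g 2) ^ m.val * g 0 ^ f.val →
      (g 1 * g 2) ^ n.val * g 1 ^ e.val = 1 ∨ (g 1 * g 2) ^ n.val * g 1 ^ e.val = g 2 := by
  decide +kernel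

theorem mem_dihedral {G : Type} [Group G] (a b : G) (ha : a * a = 1) (hb : b * b = 1) (k : ℕ)
    (hk : 0 < k) (h : (a * b) ^ k = 1) (x : G) (hx : x ∈ Subgroup.closure {a, b}) :
    ∃ n : Fin k, ∃ e : Fin 2, x = (a * b) ^ n.val * a ^ e.val := by
  have hai : a⁻¹ = a := inv_eq_of_mul_eq_one_left ha
  have hbi : b⁻¹ = b := inv_eq_of_mul_eq_one_left hb
  have hconj : ∀ n : ℤ, a * (a * b) ^ n = (a * b) ^ (-n) * a := by
    intro n
    have h1 : (a * (a * b) * a⁻¹) ^ n = a * (a * b) ^ n * a⁻¹ := conj_zpow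
    have h2 : a * (a * b) * a⁻¹ = (a * b)⁻¹ := by
      rw [_root_.mul_inv_rev, hai, hbi, ← mul_assoc, ha, one_mul]
    rw [h2, _root_.inv_zpow'] at h1
    rw [h1, inv_mul_cancel_right]
  have key : ∃ n : ℤ, x = (a * b) ^ n ∨ x = (a * b) ^ n * a := by
    refine Subgroup.closure_induction_left (p := fun x _ => ∃ n : ℤ, x = (a * b) ^ n ∨ x = (a * b) ^ n * a)
      ⟨0, Or.inl (by simp)⟩ ?_ ?_ hx
    · have hA : ∀ y : G, (∃ n : ℤ, y = (a * b) ^ n ∨ y = (a * b) ^ n * a) →
          ∃ n : ℤ, a * y = (a * b) ^ n ∨ a * y = (a * b) ^ n * a := by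
        rintro y ⟨n, rfl | rfl⟩
        · exact ⟨-n, Or.inr (hconj n)⟩
        · refine ⟨-n, Or.inl ?_⟩
          rw [← mul_assoc, hconj, mul_assoc, ha, mul_one]
      have hAB : ∀ y : G, (∃ n : ℤ, y = (a * b) ^ n ∨ y = (a * b) ^ n * a) →
          ∃ n : ℤ, a * b * y = (a * b) ^ n ∨ a * b * y = (a * b) ^ n * a := by
        rintro y ⟨n, rfl | rfl⟩
        · exact ⟨1 + n, Or.inl (by rw [zpow_add, zpow_one])⟩
        · exact ⟨1 + n, Or.inr (by rw [zpow_add, zpow_one]; simp only [mul_assoc])⟩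
      rintro y hy z - hz
      rcases hy with rfl | rfl
      · exact hA z hz
      · have := hA _ (hAB z hz)
        rwa [← mul_assoc, ← mul_assoc, ha, one_mul] at this
    · have hA : ∀ y : G, (∃ n : ℤ, y = (a * b) ^ n ∨ y = (a * b) ^ n * a) →
          ∃ n : ℤ, a * y = (a * b) ^ n ∨ a * y = (a * b) ^ n * a := by
        rintro y ⟨n, rfl | rfl⟩
        · exact ⟨-n, Or.inr (hconj n)⟩
        · refine ⟨-n, Or.inl ?_⟩
          rw [← mul_assoc, hconj, mul_assoc, ha, mul_one]
      have hAB : ∀ y : G, (∃ n : ℤ, y = (a * b) ^ n ∨ y = (a * b) ^ n * a) →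
          ∃ n : ℤ, a * b * y = (a * b) ^ n ∨ a * b * y = (a * b) ^ n * a := by
        rintro y ⟨n, rfl | rfl⟩
        · exact ⟨1 + n, Or.inl (by rw [zpow_add, zpow_one])⟩
        · exact ⟨1 + n, Or.inr (by rw [zpow_add, zpow_one]; simp only [mul_assoc])⟩
      rintro y hy z - hz
      rcases hy with rfl | rfl
      · rw [hai]; exact hA z hz
      · rw [hbi]
        have := hA _ (hAB z hz)
        rwa [← mul_assoc, ← mul_assoc, ha, one_mul] at this
  obtain ⟨n, hn⟩ := key
  have hmod : (a * b) ^ n = (a * b) ^ ((n % (k : ℤ)).toNat) := by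
    have hk' : (0 : ℤ) < k := by exact_mod_cast hk
    have h3 : ((n % (k : ℤ)).toNat : ℤ) = n % (k : ℤ) := Int.toNat_of_nonneg (Int.emod_nonneg _ hk'.ne')
    rw [← zpow_natCast, h3]
    conv_lhs => rw [← Int.emod_add_mul_ediv n k]
    rw [zpow_add, zpow_mul, zpow_natCast, h, one_zpow, mul_one]
  have hlt : (n % (k : ℤ)).toNat < k := by
    have hk' : (0 : ℤ) < k := by exact_mod_cast hk
    have := Int.emod_lt_of_pos n hk'
    omega
  rcases hn with hn | hn
  · exact ⟨⟨_, hlt⟩, 0, by rw [hn, hmod]; simp⟩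
  · exact ⟨⟨_, hlt⟩, 1, by rw [hn, hmod]; simp⟩

theorem inter1 : Subgroup.closure {g 0, g 1} ⊓ Subgroup.closure {g 1, g 2} ≤
    Subgroup.closure {g 1} := by
  rintro x ⟨hx, hy⟩
  obtain ⟨n, e, h1⟩ := mem_dihedral _ _ (g_sq 0) (g_sq 1) 8 (by norm_num) g01_8 x hx
  obtain ⟨m, f, h2⟩ := mem_dihedral _ _ (g_sq 1) (g_sq 2) 8 (by norm_num) g12_8 x hy
  rcases c1 n m e f (h1 ▸ h2) with h | h
  · rw [h1, h]; exact one_mem _
  · rw [h1, h]; exact Subgroup.subset_closure rfl

theorem inter0 : Subgroup.closure {g 0, g 1} ⊓ Subgroup.closure {g 0, g 2} ≤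
    Subgroup.closure {g 0} := by
  rintro x ⟨hx, hy⟩
  obtain ⟨n, e, h1⟩ := mem_dihedral _ _ (g_sq 0) (g_sq 1) 8 (by norm_num) g01_8 x hx
  obtain ⟨m, f, h2⟩ := mem_dihedral _ _ (g_sq 0) (g_sq 2) 2 (by norm_num) g02 x hy
  rcases c2 n m e f (h1 ▸ h2) with h | h
  · rw [h1, h]; exact one_mem _
  · rw [h1, h]; exact Subgroup.subset_closure rfl

theorem inter2 : Subgroup.closure {g 1, g 2} ⊓ Subgroup.closure {g 0, g 2} ≤
    Subgroup.closure {g 2} := by
  rintro x ⟨hx, hy⟩
  obtain ⟨n, e, h1⟩ := mem_dihedral _ _ (g_sq 1) (g_sq 2) 8 (by norm_num) g12_8 x hx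
  obtain ⟨m, f, h2⟩ := mem_dihedral _ _ (g_sq 0) (g_sq 2) 2 (by norm_num) g02 x hy
  rcases c3 n m e f (h1 ▸ h2) with h | h
  · rw [h1, h]; exact one_mem _
  · rw [h1, h]; exact Subgroup.subset_closure rfl

theorem mem_single {G : Type} [Group G] (a x : G) (ha : a * a = 1)
    (hx : x ∈ Subgroup.closure {a}) : x = 1 ∨ x = a := by
  have hai : a⁻¹ = a := inv_eq_of_mul_eq_one_left ha
  refine Subgroup.closure_induction_left (p := fun x _ => x = 1 ∨ x = a) (Or.inl rfl) ?_ ?_ hx
  · rintro y hy z - hz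
    rw [Set.mem_singleton_iff] at hy
    subst hy
    rcases hz with rfl | rfl
    · right; simp
    · left; exact ha
  · rintro y hy z - hz
    rw [Set.mem_singleton_iff] at hy
    subst hy
    rcases hz with rfl | rfl
    · right; simp [hai]
    · left; simp

theorem g_inj : ∀ i j : Fin 3, g i = g j → i = j := by
  decide +kernel

theorem inter_single (i k : Fin 3) (h : i ≠ k) (x : Mono) (h1 : x ∈ Subgroup.closure {g i})
    (h2 : x ∈ Subgroup.closure {g k}) : x = 1 := by
  rcases mem_single _ _ (g_sq i) h1 with h1 | h1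
  · exact h1
  · rcases mem_single _ _ (g_sq k) h2 with h2 | h2
    · exact h2
    · exact absurd (g_inj i k (h1 ▸ h2)) h

theorem inter_pair : ∀ i j k : Fin 3, i ≠ j → i ≠ k → j ≠ k →
    Subgroup.closure {g i, g k} ⊓ Subgroup.closure {g j, g k} ≤ Subgroup.closure {g k} := by
  have h0 := inter0
  have h1 := inter1
  have h2 := inter2
  have e01 : ({g 1, g 0} : Set Mono) = {g 0, g 1} := Set.pair_comm _ _
  have e02 : ({g 2, g 0} : Set Mono) = {g 0, g 2} := Set.pair_comm _ _
  have e12 : ({g 2, g 1} : Set Mono) = {g 1, g 2} := Set.pair_comm _ _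
  have h0' := h0
  have h1' := h1
  have h2' := h2
  rw [inf_comm] at h0' h1' h2'
  intro i j k hij hik hjk
  fin_cases i <;> fin_cases j <;> fin_cases k <;> first
    | exact absurd rfl hij
    | exact absurd rfl hik
    | exact absurd rfl hjk
    | (simp only [Fin.zero_eta, Fin.mk_one, Fin.reduceFinMk, e01, e02, e12]; assumption)

theorem third : ∀ i j : Fin 3, i ≠ j → ∃ k, k ≠ i ∧ k ≠ j ∧ ∀ l, l = i ∨ l = j ∨ l = k := by
  decide

theorem inter_gen (I J : Set (Fin 3)) :
    Subgroup.closure (g '' I) ⊓ Subgroup.closure (g '' J) = Subgroup.closure (g '' (I ∩ J)) := by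
  apply le_antisymm
  · by_cases hIJ : I ⊆ J
    · rw [Set.inter_eq_left.mpr hIJ]; exact inf_le_left
    by_cases hJI : J ⊆ I
    · rw [Set.inter_eq_right.mpr hJI]; exact inf_le_right
    rw [Set.not_subset] at hIJ hJI
    obtain ⟨i, hi, hi'⟩ := hIJ
    obtain ⟨j, hj, hj'⟩ := hJI
    have hij : i ≠ j := fun h => hi' (h ▸ hj)
    obtain ⟨k, hki, hkj, hall⟩ := third i j hij
    rintro x ⟨hxI, hxJ⟩
    have hI : g '' I ⊆ {g i, g k} := by
      rintro _ ⟨l, hl, rfl⟩
      rcases hall l with rfl | rfl | rfl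
      · exact Or.inl rfl
      · exact absurd hl hj'
      · exact Or.inr rfl
    have hJ : g '' J ⊆ {g j, g k} := by
      rintro _ ⟨l, hl, rfl⟩
      rcases hall l with rfl | rfl | rfl
      · exact absurd hl hi'
      · exact Or.inl rfl
      · exact Or.inr rfl
    have hxk : x ∈ Subgroup.closure {g k} :=
      inter_pair i j k hij hki.symm hkj.symm
        ⟨Subgroup.closure_mono hI hxI, Subgroup.closure_mono hJ hxJ⟩
    by_cases hkI : k ∈ I
    · by_cases hkJ : k ∈ J
      · refine Subgroup.closure_mono ?_ hxk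
        rw [Set.singleton_subset_iff]
        exact ⟨k, ⟨hkI, hkJ⟩, rfl⟩
      · have hJ' : g '' J ⊆ {g j} := by
          rintro _ ⟨l, hl, rfl⟩
          rcases hall l with rfl | rfl | rfl
          · exact absurd hl hi'
          · rfl
          · exact absurd hl hkJ
        have := inter_single j k hkj.symm x (Subgroup.closure_mono hJ' hxJ) hxk
        rw [this]; exact one_mem _
    · have hI' : g '' I ⊆ {g i} := by
        rintro _ ⟨l, hl, rfl⟩
        rcases hall l with rfl | rfl | rfl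
        · rfl
        · exact absurd hl hj'
        · exact absurd hl hkI
      have := inter_single i k hki.symm x (Subgroup.closure_mono hI' hxI) hxk
      rw [this]; exact one_mem _
  · exact le_inf (Subgroup.closure_mono (Set.image_mono Set.inter_subset_left))
      (Subgroup.closure_mono (Set.image_mono Set.inter_subset_right))

lemma I_pow_inj (a b : ZMod 4) (h : (I : ℂ) ^ a.val = I ^ b.val) : a = b := by
  have key : ∀ n m : Fin 4, (I : ℂ) ^ n.val = I ^ m.val → n = m := by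
    intro n m
    fin_cases n <;> fin_cases m <;>
      simp [pow_succ, Complex.ext_iff] <;> norm_num
  exact key a b h

lemma ev_mem (W : Submodule ℂ (Fin 16 → ℂ))
    (hW : ∀ k : Fin 3, ∀ v ∈ W, (toMat (g k)).mulVec v ∈ W) (w : List (Fin 3)) :
    ∀ v ∈ W, (toMat (ev w)).mulVec v ∈ W := by
  induction w with
  | nil => intro v hv; simpa [ev] using hv
  | cons a l ih =>
    intro v hv
    have : ev (a :: l) = g a * ev l := by simp [ev]
    rw [this, map_mul, ← Matrix.mulVec_mulVec]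
    exact hW a _ (ih v hv)

lemma exists_single (W : Submodule ℂ (Fin 16 → ℂ))
    (hD : ∀ k : Fin 4, ∀ v ∈ W, (toMat (ev (ws k))).mulVec v ∈ W) :
    ∀ n : ℕ, ∀ v ∈ W, v ≠ 0 → (Finset.univ.filter (fun i => v i ≠ 0)).card = n →
      ∃ p, (Pi.single p 1 : Fin 16 → ℂ) ∈ W := by
  intro n
  induction n using Nat.strong_induction_on with
  | _ n ih =>
    intro v hv hv0 hn
    obtain ⟨p, hp⟩ : ∃ p, v p ≠ 0 := by
      by_contra h
      push Not at h
      exact hv0 (funext h)
    by_cases hq : ∃ q, q ≠ p ∧ v q ≠ 0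
    · obtain ⟨q, hqp, hq⟩ := hq
      obtain ⟨k, hk⟩ := ws_sep p q hqp.symm
      set D := ev (ws k) with hDdef
      have hDp : D.p = 1 := ws_p k
      let v' : Fin 16 → ℂ := (toMat D).mulVec v - (I : ℂ) ^ (D.d q).val • v
      have hv' : v' ∈ W := W.sub_mem (hD k v hv) (W.smul_mem _ hv)
      have hval : ∀ i, v' i = ((I : ℂ) ^ (D.d i).val - I ^ (D.d q).val) * v i := by
        intro i
        simp only [v', Pi.sub_apply, Pi.smul_apply, smul_eq_mul, toMat_mulVec, hDp]
        simp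
        ring
      have hv'p : v' p ≠ 0 := by
        rw [hval]
        refine mul_ne_zero (sub_ne_zero.mpr ?_) hp
        intro h
        exact hk (I_pow_inj _ _ h)
      refine ih (Finset.univ.filter (fun i => v' i ≠ 0)).card ?_ v' hv' ?_ rfl
      · rw [← hn]
        apply Finset.card_lt_card
        rw [Finset.ssubset_iff_of_subset]
        · refine ⟨q, by simpa using hq, ?_⟩
          simp [hval]
        · intro i
          simp only [Finset.mem_filter, Finset.mem_univ, true_and]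
          intro h h0
          exact h (by rw [hval, h0, mul_zero])
      · intro h
        exact hv'p (by rw [h]; rfl)
    · push Not at hq
      refine ⟨p, ?_⟩
      have : (Pi.single p 1 : Fin 16 → ℂ) = (v p)⁻¹ • v := by
        ext i
        by_cases hi : i = p
        · subst hi
          simp [hp]
        · simp [Pi.single_eq_of_ne hi, hq i hi]
      rw [this]
      exact W.smul_mem _ hv

/-- paths -/
def pth (q : Fin 16) : List (Fin 3) :=
  [[], [2, 1, 2, 1, 0, 1, 0], [0], [1, 0, 1, 2, 1, 2], [2], [1, 2, 1, 0, 1, 0], [1],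
    [0, 1, 2, 1, 0, 1, 0], [1, 0], [0, 1, 2, 1, 2], [0, 1, 0], [1, 2, 1, 2], [1, 2],
    [2, 1, 0, 1, 0], [2, 1, 2], [1, 0, 1, 0]].getD q.val []

theorem pth_spec : ∀ q : Fin 16, (ev (pth q)).p 0 = q := by
  decide +kernel

theorem pth_spec' : ∀ q : Fin 16, (ev (pth q).reverse).p q = 0 := by
  decide +kernel

lemma single_move (W : Submodule ℂ (Fin 16 → ℂ)) (x : Mono)
    (hW : ∀ v ∈ W, (toMat x).mulVec v ∈ W) (p : Fin 16)
    (hp : (Pi.single p 1 : Fin 16 → ℂ) ∈ W) : (Pi.single (x.p p) 1 : Fin 16 → ℂ) ∈ W := by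
  have h1 := hW _ hp
  have h2 : (toMat x).mulVec (Pi.single p 1) = ((I : ℂ) ^ (x.d p).val) • Pi.single (x.p p) 1 := by
    ext i
    rw [toMat_mulVec]
    by_cases hi : i = x.p p
    · subst hi; simp
    · have : x.p⁻¹ i ≠ p := by
        intro h
        apply hi
        rw [← h]; simp
      rw [Pi.single_eq_of_ne this]
      simp [Pi.single_eq_of_ne hi]
  rw [h2] at h1
  have h3 := W.smul_mem ((I : ℂ) ^ (x.d p).val)⁻¹ h1
  rwa [smul_smul, inv_mul_cancel₀ (pow_ne_zero _ I_ne_zero), one_smul] at h3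

theorem irred (W : Submodule ℂ (Fin 16 → ℂ))
    (hW : ∀ k : Fin 3, ∀ v ∈ W, (toMat (g k)).mulVec v ∈ W) : W = ⊥ ∨ W = ⊤ := by
  by_cases hbot : W = ⊥
  · exact Or.inl hbot
  right
  obtain ⟨v, hv, hv0⟩ := Submodule.exists_mem_ne_zero_of_ne_bot hbot
  obtain ⟨p, hp⟩ := exists_single W (fun k => ev_mem W hW (ws k)) _ v hv hv0 rfl
  have h0 : (Pi.single 0 1 : Fin 16 → ℂ) ∈ W := by
    have := single_move W _ (ev_mem W hW (pth p).reverse) p hp
    rwa [pth_spec'] at this
  have hall : ∀ q, (Pi.single q 1 : Fin 16 → ℂ) ∈ W := by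
    intro q
    have := single_move W _ (ev_mem W hW (pth q)) 0 h0
    rwa [pth_spec] at this
  rw [eq_top_iff]
  intro u _
  have : u = ∑ q, u q • (Pi.single q 1 : Fin 16 → ℂ) := by
    ext i
    simp [Finset.sum_apply, Pi.single_apply]
  rw [this]
  exact W.sum_mem fun q _ => W.smul_mem _ (hall q)

/-- complex conjugation on monomial elements -/
def bar (x : Mono) : Mono := ⟨x.p, fun j => - x.d j⟩

lemma bar_mul (x y : Mono) : bar (x * y) = bar x * bar y := by
  ext j
  · rfl
  · simp [bar]; ring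

lemma bar_one : bar 1 = 1 := by
  ext j <;> simp [bar]

def fJ (i : Fin 16) : Fin 16 :=
  Fin.ofNat 16 (lk [1,0,3,2,5,4,7,6,9,8,11,10,13,12,15,14] i)
def dJ (i : Fin 16) : ZMod 4 :=
  (Fin.ofNat 4 (lk [0,2,0,2,0,2,0,2,0,2,0,2,0,2,0,2] i) : Fin 4)

def J : Mono := ⟨Function.Involutive.toPerm fJ (by intro x; revert x; decide), dJ⟩

def minus : Mono := ⟨1, fun _ => 2⟩

theorem g_J : ∀ k : Fin 3, g k * J = J * bar (g k) := by
  decide +kernel

theorem J_J : J * bar J = minus := by
  decide +kernel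

/-- the subgroup of quaternionic elements -/
def QS : Subgroup Mono where
  carrier := {x | x * J = J * bar x}
  mul_mem' := by
    intro a b ha hb
    simp only [Set.mem_ofPred_eq] at *
    rw [bar_mul, mul_assoc, hb, ← mul_assoc, ha, mul_assoc]
  one_mem' := by simp [bar_one]
  inv_mem' := by
    intro a ha
    simp only [Set.mem_ofPred_eq] at *
    have h1 : bar a * bar a⁻¹ = 1 := by rw [← bar_mul, mul_inv_cancel, bar_one]
    calc a⁻¹ * J = a⁻¹ * (J * (bar a * bar a⁻¹)) := by rw [h1, mul_one]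
      _ = a⁻¹ * (J * bar a) * bar a⁻¹ := by simp only [mul_assoc]
      _ = a⁻¹ * (a * J) * bar a⁻¹ := by rw [ha]
      _ = J * bar a⁻¹ := by rw [inv_mul_cancel_left]

abbrev Gam : Subgroup Mono := Subgroup.closure (Set.range g)

theorem Gam_le : Gam ≤ QS := by
  rw [Subgroup.closure_le]
  rintro _ ⟨k, rfl⟩
  exact g_J k

lemma conj_I_pow (a : ZMod 4) : (starRingEnd ℂ) (I ^ a.val) = I ^ (-a).val := by
  have key : ∀ n : Fin 4, (starRingEnd ℂ) (I ^ n.val) = I ^ (-n).val := by
    intro n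
    fin_cases n
    · simp
    · change (starRingEnd ℂ) (I ^ 1) = I ^ 3
      simp [pow_succ]
    · change (starRingEnd ℂ) (I ^ 2) = I ^ 2
      simp
    · change (starRingEnd ℂ) (I ^ 3) = I ^ 1
      simp [pow_succ]
  exact key a

lemma toMat_bar (x : Mono) : toMat (bar x) = (toMat x).map (starRingEnd ℂ) := by
  ext i j
  simp only [toMat_apply, Matrix.map_apply, bar]
  split_ifs
  · rw [conj_I_pow]
  · simp

lemma toMat_minus : toMat minus = -1 := by
  ext i j
  have h2 : (2 : ZMod 4).val = 2 := rfl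
  by_cases h : i = j
  · simp [toMat_apply, minus, h, h2]
  · simp [toMat_apply, minus, h]

/-- Schur -/
theorem schur (B : Matrix (Fin 16) (Fin 16) ℂ)
    (hB : ∀ k : Fin 3, toMat (g k) * B = B * toMat (g k)) : ∃ c : ℂ, B = c • (1 : Matrix (Fin 16) (Fin 16) ℂ) := by
  obtain ⟨c, hc⟩ := Module.End.exists_eigenvalue (Matrix.toLin' B)
  refine ⟨c, ?_⟩
  have h1 : (Module.End.eigenspace (Matrix.toLin' B) c) ≠ ⊥ := hc
  have h2 := irred (Module.End.eigenspace (Matrix.toLin' B) c) (by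
    intro k v hv
    rw [Module.End.mem_eigenspace_iff, Matrix.toLin'_apply] at *
    rw [Matrix.mulVec_mulVec, ← hB k, ← Matrix.mulVec_mulVec, hv, Matrix.mulVec_smul])
  rcases h2 with h2 | h2
  · exact absurd h2 h1
  · have h3 : ∀ v, B.mulVec v = c • v := by
      intro v
      have : v ∈ Module.End.eigenspace (Matrix.toLin' B) c := by rw [h2]; trivial
      rwa [Module.End.mem_eigenspace_iff, Matrix.toLin'_apply] at this
    ext i j
    have := congrFun (h3 (Pi.single j 1)) i
    rw [Matrix.mulVec_single_one] at this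
    simp only [Matrix.col_apply, Pi.smul_apply, smul_eq_mul] at this
    rw [this]
    simp [Matrix.one_apply, Pi.single_apply]

/-- Some finite group generated by involutions with non-adjacent ones commuting and the intersection property has an irreducible complex matrix representation with real character that is not conjugate to a real representation. -/
theorem result :
    ∃ (Γ : Type) (_ : Group Γ), Finite Γ ∧
      ∃ (r : ℕ) (ρ : Fin r → Γ),
        (∀ i, ρ i ≠ 1 ∧ ρ i * ρ i = 1) ∧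
        Subgroup.closure (Set.range ρ) = ⊤ ∧
        (∀ i j : Fin r, (i : ℕ) + 2 ≤ (j : ℕ) → (ρ i * ρ j) ^ 2 = 1) ∧
        (∀ I J : Set (Fin r),
          Subgroup.closure (ρ '' I) ⊓ Subgroup.closure (ρ '' J) =
            Subgroup.closure (ρ '' (I ∩ J))) ∧
        ∃ (n : ℕ) (T : Γ →* GL (Fin n) ℂ),
          0 < n ∧
          (∀ W : Submodule ℂ (Fin n → ℂ),
            (∀ g : Γ, ∀ v ∈ W,
              Matrix.mulVec ((T g : GL (Fin n) ℂ) : Matrix (Fin n) (Fin n) ℂ) v ∈ W) →
            W = ⊥ ∨ W = ⊤) ∧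
          (∀ g : Γ,
            (Matrix.trace ((T g : GL (Fin n) ℂ) : Matrix (Fin n) (Fin n) ℂ)).im = 0) ∧
          ¬ ∃ P : GL (Fin n) ℂ, ∀ g : Γ, ∀ i j : Fin n,
            (((P * T g * P⁻¹ : GL (Fin n) ℂ) : Matrix (Fin n) (Fin n) ℂ) i j).im = 0 := by
  have hmem : ∀ k, g k ∈ Gam := fun k => Subgroup.subset_closure ⟨k, rfl⟩
  have hinj : Function.Injective (Subgroup.map Gam.subtype) :=
    Subgroup.map_injective (Subgroup.subtype_injective _)
  have himg : ∀ S : Set (Fin 3), Gam.subtype '' ((fun k => (⟨g k, hmem k⟩ : Gam)) '' S) = g '' S := by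
    intro S
    rw [← Set.image_comp]
    rfl
  refine ⟨↥Gam, inferInstance, inferInstance, 3, fun k => ⟨g k, hmem k⟩, ?_, ?_, ?_, ?_, 16,
    (MonoidHom.toHomUnits toMat).comp Gam.subtype, by norm_num, ?_, ?_, ?_⟩
  · intro k
    refine ⟨?_, ?_⟩
    · intro h
      exact g_ne k (congrArg Subtype.val h)
    · exact Subtype.ext (g_sq k)
  · apply hinj
    rw [MonoidHom.map_closure, ← Set.image_univ, himg, ← MonoidHom.range_eq_map, Subgroup.range_subtype,
      Set.image_univ]
  · intro i j hij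
    have hi : i = 0 := by
      apply Fin.ext
      have := j.isLt
      simp
      omega
    have hj : j = 2 := by
      apply Fin.ext
      have := j.isLt
      simp
      omega
    subst hi hj
    exact Subtype.ext g02
  · intro I J
    apply hinj
    rw [Subgroup.map_inf _ _ _ (Subgroup.subtype_injective _), MonoidHom.map_closure,
      MonoidHom.map_closure, MonoidHom.map_closure, himg, himg, himg]
    exact inter_gen I J
  · intro W hW
    apply irred W
    intro k v hv
    exact hW ⟨g k, hmem k⟩ v hv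
  · intro x
    have hx : (x : Mono) * J = J * bar x := Gam_le x.2
    have h1 : toMat x * toMat J = toMat J * (toMat x).map (starRingEnd ℂ) := by
      rw [← map_mul, hx, map_mul, toMat_bar]
    have h2 : (toMat x).map (starRingEnd ℂ) = toMat J⁻¹ * toMat x * toMat J := by
      rw [mul_assoc, h1, ← mul_assoc, ← map_mul, inv_mul_cancel, map_one, one_mul]
    have h3 : Matrix.trace ((toMat x).map (starRingEnd ℂ)) = Matrix.trace (toMat x) := by
      rw [h2, Matrix.trace_mul_comm, ← mul_assoc, ← map_mul, mul_inv_cancel, map_one, one_mul]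
    have h4 : Matrix.trace ((toMat x).map (starRingEnd ℂ)) = (starRingEnd ℂ) (Matrix.trace (toMat x)) := by
      simp [Matrix.trace]
    rw [h4] at h3
    exact Complex.conj_eq_iff_im.mp h3
  · rintro ⟨P, hP⟩
    let P' : Matrix (Fin 16) (Fin 16) ℂ := P
    let Q' : Matrix (Fin 16) (Fin 16) ℂ := (P⁻¹ : GL (Fin 16) ℂ)
    have hPQ : P' * Q' = 1 := by
      change ((P * P⁻¹ : GL (Fin 16) ℂ) : Matrix (Fin 16) (Fin 16) ℂ) = 1
      rw [mul_inv_cancel, Units.val_one]
    have hQP : Q' * P' = 1 := by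
      change ((P⁻¹ * P : GL (Fin 16) ℂ) : Matrix (Fin 16) (Fin 16) ℂ) = 1
      rw [inv_mul_cancel, Units.val_one]
    have hreal : ∀ k : Fin 3, (P' * toMat (g k) * Q').map (starRingEnd ℂ) = P' * toMat (g k) * Q' := by
      intro k
      ext i j
      rw [Matrix.map_apply]
      exact Complex.conj_eq_iff_im.mpr (hP ⟨g k, hmem k⟩ i j)
    let cP := P'.map (starRingEnd ℂ)
    let cQ := Q'.map (starRingEnd ℂ)
    have hcPQ : cP * cQ = 1 := by
      rw [← Matrix.map_mul, hPQ]; simp
    have hcQP : cQ * cP = 1 := by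
      rw [← Matrix.map_mul, hQP]; simp
    let B := Q' * cP
    have hB : ∀ k, toMat (g k) * B = B * (toMat (g k)).map (starRingEnd ℂ) := by
      intro k
      have h1 := hreal k
      rw [Matrix.map_mul, Matrix.map_mul] at h1
      have h2 : cP * (toMat (g k)).map (starRingEnd ℂ) = P' * toMat (g k) * Q' * cP := by
        rw [← h1, mul_assoc _ _ cP]
        change _ = _ * (cQ * cP)
        rw [hcQP, mul_one]
      calc toMat (g k) * B = (Q' * P') * toMat (g k) * (Q' * cP) := by rw [hQP, one_mul]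
        _ = Q' * (P' * toMat (g k) * Q' * cP) := by simp only [mul_assoc]
        _ = Q' * (cP * (toMat (g k)).map (starRingEnd ℂ)) := by rw [h2]
        _ = B * (toMat (g k)).map (starRingEnd ℂ) := by rw [← mul_assoc]
    have hBB : B * B.map (starRingEnd ℂ) = 1 := by
      have h0 : (Q' * cP).map (starRingEnd ℂ) = cQ * P' := by
        rw [Matrix.map_mul]
        congr 1
        ext i j
        simp [cP]
      change (Q' * cP) * (Q' * cP).map (starRingEnd ℂ) = 1
      rw [h0, mul_assoc, ← mul_assoc cP, hcPQ, one_mul, hQP]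
    have hJinv : toMat J * toMat J⁻¹ = 1 := by rw [← map_mul, mul_inv_cancel, map_one]
    have hJinv' : toMat J⁻¹ * toMat J = 1 := by rw [← map_mul, inv_mul_cancel, map_one]
    have hgJ : ∀ k, (toMat (g k)).map (starRingEnd ℂ) * toMat J⁻¹ = toMat J⁻¹ * toMat (g k) := by
      intro k
      rw [← toMat_bar, ← map_mul, ← map_mul]
      congr 1
      have := g_J k
      rw [eq_inv_mul_iff_mul_eq, ← mul_assoc, ← this, mul_inv_cancel_right]
    obtain ⟨c, hc⟩ := schur (B * toMat J⁻¹) (by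
      intro k
      rw [← mul_assoc, hB k, mul_assoc B, hgJ k, mul_assoc B])
    have hBc : B = c • toMat J := by
      calc B = (B * toMat J⁻¹) * toMat J := by rw [mul_assoc, hJinv', mul_one]
        _ = c • toMat J := by rw [hc]; simp
    rw [hBc] at hBB
    have hJc : (c • toMat J).map (starRingEnd ℂ) = (starRingEnd ℂ c) • toMat (bar J) := by
      rw [toMat_bar]
      ext i j
      simp
    rw [hJc, Matrix.smul_mul, Matrix.mul_smul, ← map_mul, J_J, toMat_minus, smul_smul] at hBB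
    have h5 := congrFun (congrFun hBB 0) 0
    simp [Complex.mul_conj] at h5
    have h6 : (Complex.normSq c : ℝ) = -1 := by
      have h7 : ((Complex.normSq c : ℝ) : ℂ) = ((-1 : ℝ) : ℂ) := by
        push_cast
        linear_combination -h5
      exact_mod_cast h7
    have := Complex.normSq_nonneg c
    linarith

end Pool.Agent.S0853
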