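import Pool.Statements.S0926
-- import your own Pool.Agent.* helpers here

set_option autoImplicit false
open Pool Pool.MP_bd517a_al

namespace Pool.Agent.S0926

namespace Aux

/-- Action of `x ↦ α^k x` on `F_8`, table. -/
def act (k : Fin 7) (v : Fin 8) : Fin 8 :=
  (![![0, 1, 2, 3, 4, 5, 6, 7], ![0, 2, 4, 6, 3, 1, 7, 5], ![0, 4, 3, 7, 6, 2, 5, 1],
    ![0, 3, 6, 5, 7, 4, 1, 2], ![0, 6, 7, 1, 5, 3, 2, 4], ![0, 7, 5, 2, 1, 6, 4, 3],
    ![0, 5, 1, 4, 2, 7, 3, 6]] : Fin 7 → Fin 8 → Fin 8) k v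

def xr (v w : Fin 8) : Fin 8 := v ^^^ w

set_option maxRecDepth 100000 in
lemma xr_assoc : ∀ a b c : Fin 8, xr (xr a b) c = xr a (xr b c) := by decide
set_option maxRecDepth 100000 in
lemma xr_self : ∀ a : Fin 8, xr a a = 0 := by decide
set_option maxRecDepth 100000 in
lemma xr_zero : ∀ a : Fin 8, xr 0 a = a := by decide
set_option maxRecDepth 100000 in
lemma act_xr : ∀ (k : Fin 7) (a b : Fin 8), act k (xr a b) = xr (act k a) (act k b) := by decide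
set_option maxRecDepth 100000 in
lemma act_add : ∀ (k l : Fin 7) (a : Fin 8), act (k + l) a = act k (act l a) := by decide
set_option maxRecDepth 100000 in
lemma act_zero : ∀ (a : Fin 8), act 0 a = a := by decide
set_option maxRecDepth 100000 in
lemma neg_add_self7 : ∀ (a : Fin 7), -a + a = 0 := by decide

/-- The affine group `AGL(1,8)`, of order 56. -/
@[ext] structure G : Type where
  v : Fin 8
  k : Fin 7

instance : DecidableEq G := fun x y =>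
  if h : x.v = y.v ∧ x.k = y.k then isTrue (G.ext h.1 h.2)
  else isFalse (fun e => h (by rw [e]; exact ⟨rfl, rfl⟩))

def equivProd : G ≃ Fin 8 × Fin 7 where
  toFun x := (x.v, x.k)
  invFun p := ⟨p.1, p.2⟩
  left_inv _ := rfl
  right_inv _ := rfl

instance : Finite G := Finite.of_equiv _ equivProd.symm

instance : Mul G := ⟨fun x y => ⟨xr x.v (act x.k y.v), x.k + y.k⟩⟩
instance : One G := ⟨⟨0, 0⟩⟩
instance : Inv G := ⟨fun x => ⟨act (-x.k) x.v, -x.k⟩⟩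

lemma mul_def (x y : G) : x * y = ⟨xr x.v (act x.k y.v), x.k + y.k⟩ := rfl
lemma one_def : (1 : G) = ⟨0, 0⟩ := rfl
lemma inv_def (x : G) : x⁻¹ = ⟨act (-x.k) x.v, -x.k⟩ := rfl

instance : Group G := Group.ofLeftAxioms
  (by
    intro a b c
    simp only [mul_def, act_xr, act_add, xr_assoc, add_assoc])
  (by
    intro a
    simp only [mul_def, one_def, act_zero, xr_zero, zero_add])
  (by
    intro a
    simp only [mul_def, one_def, inv_def, neg_add_self7, xr_self])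

def f (x : G) : G :=
  ⟨(![![0, 1, 5, 4, 2, 3, 7, 6], ![0, 4, 5, 1, 7, 3, 2, 6], ![0, 4, 2, 6, 7, 3, 5, 1],
    ![0, 4, 2, 6, 1, 5, 3, 7], ![0, 7, 2, 5, 1, 6, 3, 4], ![0, 3, 6, 5, 1, 2, 7, 4],
    ![0, 1, 4, 5, 3, 2, 7, 6]] : Fin 7 → Fin 8 → Fin 8) x.k x.v, -x.k⟩

def fi (x : G) : G :=
  ⟨(![![0, 1, 4, 5, 3, 2, 7, 6], ![0, 1, 5, 4, 2, 3, 7, 6], ![0, 4, 5, 1, 7, 3, 2, 6],
    ![0, 4, 2, 6, 7, 3, 5, 1], ![0, 4, 2, 6, 1, 5, 3, 7], ![0, 7, 2, 5, 1, 6, 3, 4],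
    ![0, 3, 6, 5, 1, 2, 7, 4]] : Fin 7 → Fin 8 → Fin 8) x.k x.v, -x.k⟩

set_option maxRecDepth 100000 in
lemma fi_f : ∀ (v : Fin 8) (k : Fin 7), fi (f ⟨v, k⟩) = ⟨v, k⟩ := by decide
set_option maxRecDepth 100000 in
lemma f_fi : ∀ (v : Fin 8) (k : Fin 7), f (fi ⟨v, k⟩) = ⟨v, k⟩ := by decide

def a : G := ⟨0, 1⟩
def a' : G := ⟨2, 1⟩
def b : G := ⟨0, 6⟩
def b' : G := ⟨5, 6⟩

def fe : G ≃ G where
  toFun := f
  invFun := fi
  left_inv x := fi_f x.v x.k
  right_inv x := f_fi x.v x.k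

set_option maxRecDepth 1000000 in
lemma key0 : ∀ (v : Fin 8) (k : Fin 7) (v' : Fin 8) (k' : Fin 7),
    (((⟨v, k⟩ : G)⁻¹ * ⟨v', k'⟩ = a ∨ (⟨v, k⟩ : G)⁻¹ * ⟨v', k'⟩ = a') ↔
    ((f ⟨v, k⟩)⁻¹ * f ⟨v', k'⟩ = b ∨ (f ⟨v, k⟩)⁻¹ * f ⟨v', k'⟩ = b')) := by
  decide

lemma key (x y : G) : x⁻¹ * y ∈ ({a, a'} : Set G) ↔ (fe x)⁻¹ * fe y ∈ ({b, b'} : Set G) :=
  key0 x.v x.k y.v y.k

set_option maxRecDepth 1000000 in
lemma gen0 : ∀ (v : Fin 8) (k : Fin 7), ∃ (e0 e1 e2 : Fin 2) (j : Fin 7),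
    (⟨v, k⟩ : G) = (a⁻¹ * a')^(e0 : ℕ) * (a * (a⁻¹ * a') * a⁻¹)^(e1 : ℕ) *
      (a * (a * (a⁻¹ * a') * a⁻¹) * a⁻¹)^(e2 : ℕ) * a^(j : ℕ) := by
  decide

lemma gen : Subgroup.closure ({a, a'} : Set G) = ⊤ := by
  rw [eq_top_iff]
  intro x _
  obtain ⟨e0, e1, e2, j, h⟩ := gen0 x.v x.k
  have hx : x = ⟨x.v, x.k⟩ := rfl
  rw [hx, h]
  have ha : a ∈ Subgroup.closure ({a, a'} : Set G) := Subgroup.subset_closure (by simp)
  have ha' : a' ∈ Subgroup.closure ({a, a'} : Set G) := Subgroup.subset_closure (by simp)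
  have hz := mul_mem (inv_mem ha) ha'
  have hz1 := mul_mem (mul_mem ha hz) (inv_mem ha)
  have hz2 := mul_mem (mul_mem ha hz1) (inv_mem ha)
  exact mul_mem (mul_mem (mul_mem (pow_mem hz _) (pow_mem hz1 _)) (pow_mem hz2 _)) (pow_mem ha _)

lemma noncomm : a * a' ≠ a' * a := by decide

lemma cyc (g : G) : Subgroup.closure ({g} : Set G) ≠ ⊤ := by
  intro h
  have h1 : a ∈ Subgroup.closure ({g} : Set G) := by rw [h]; trivial
  have h2 : a' ∈ Subgroup.closure ({g} : Set G) := by rw [h]; trivial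
  rw [Subgroup.mem_closure_singleton] at h1 h2
  obtain ⟨m, hm⟩ := h1
  obtain ⟨n, hn⟩ := h2
  apply noncomm
  rw [← hm, ← hn, ← zpow_add, ← zpow_add, add_comm]

lemma minimal (S' : Set G) (h : S' ⊂ ({a, a'} : Set G)) : Subgroup.closure S' ≠ ⊤ := by
  intro htop
  obtain ⟨h1, h2⟩ := h
  rw [Set.not_subset] at h2
  obtain ⟨s, hs, hs'⟩ := h2
  rcases hs with rfl | hs
  · have : S' ⊆ {a'} := by
      intro x hx
      rcases h1 hx with rfl | h
      · exact absurd hx hs'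
      · exact h
    apply cyc a'
    rw [eq_top_iff, ← htop]
    exact Subgroup.closure_mono this
  · have hs2 : s = a' := hs
    subst hs2
    have : S' ⊆ {a} := by
      intro x hx
      rcases h1 hx with h | h
      · exact h
      · have : x = a' := h
        subst this
        exact absurd hx hs'
    apply cyc a
    rw [eq_top_iff, ← htop]
    exact Subgroup.closure_mono this

def R (x y : G) : G := (x⁻¹ * y) * (x * (x⁻¹ * y) * x⁻¹) * (x * (x * (x * (x⁻¹ * y) * x⁻¹) * x⁻¹) * x⁻¹)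

lemma R_a : R a a' = 1 := by decide
lemma R_b : R b b' ≠ 1 := by decide
lemma R_b' : R b' b ≠ 1 := by decide

lemma R_map (σ : MulAut G) (x y : G) : R (σ x) (σ y) = σ (R x y) := by
  simp [R]

lemma no_aut (σ : MulAut G) : ⇑σ '' ({a, a'} : Set G) ≠ {b, b'} := by
  intro h
  have h1 : σ a ∈ ({b, b'} : Set G) := by rw [← h]; exact ⟨a, by simp, rfl⟩
  have h2 : σ a' ∈ ({b, b'} : Set G) := by rw [← h]; exact ⟨a', by simp, rfl⟩
  have h3 : σ a ≠ σ a' := by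
    intro h4
    have := σ.injective h4
    revert this; decide
  have hR : R (σ a) (σ a') = 1 := by rw [R_map, R_a, map_one]
  simp only [Set.mem_insert_iff, Set.mem_singleton_iff] at h1 h2
  rcases h1 with h1 | h1 <;> rcases h2 with h2 | h2
  · exact h3 (h1.trans h2.symm)
  · rw [h1, h2] at hR; exact R_b hR
  · rw [h1, h2] at hR; exact R_b' hR
  · exact h3 (h1.trans h2.symm)

end Aux

open Aux in
/-- The negation of the preceding statement: In every finite group, every inclusion-minimal generating set S is a CI-subset: if Cay(G,S) and Cay(G,T) are isomorphic digraphs, some group automorphism maps S onto T. -/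
theorem result :
    ¬ (∀ (G : Type) [Group G] [Finite G] (S : Set G),
      (Subgroup.closure S = ⊤ ∧ ∀ S' : Set G, S' ⊂ S → Subgroup.closure S' ≠ ⊤) →
      ∀ T : Set G,
        (∃ f : G ≃ G, ∀ x y : G, x⁻¹ * y ∈ S ↔ (f x)⁻¹ * f y ∈ T) →
        ∃ σ : MulAut G, ⇑σ '' S = T) := by
  intro H
  obtain ⟨σ, hσ⟩ := H Aux.G {a, a'} ⟨gen, minimal⟩ {b, b'} ⟨fe, key⟩
  exact no_aut σ hσ

end Pool.Agent.S0926
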