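import Pool.Statements.S0942
-- import your own Pool.Agent.* helpers here

set_option autoImplicit false
open Pool Pool.MP_c12e41_al

namespace Pool.Agent.S0942

namespace Aux

/-- sign functions -/
abbrev A := ℕ → ℤ → ℤˣ

@[ext] structure G where
  s : A
  n : ℤ

instance : Mul G := ⟨fun x y => ⟨fun m i => x.s m i * y.s m (i - x.n), x.n + y.n⟩⟩
instance : One G := ⟨⟨1, 0⟩⟩
instance : Inv G := ⟨fun x => ⟨fun m i => (x.s m (i + x.n))⁻¹, -x.n⟩⟩

lemma mul_def (x y : G) : x * y = ⟨fun m i => x.s m i * y.s m (i - x.n), x.n + y.n⟩ := rfl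
lemma one_def : (1 : G) = ⟨1, 0⟩ := rfl
lemma inv_def (x : G) : x⁻¹ = ⟨fun m i => (x.s m (i + x.n))⁻¹, -x.n⟩ := rfl

instance : Group G := Group.ofLeftAxioms
  (by
    intro a b c
    simp only [mul_def]
    ext m i
    · simp [mul_assoc, sub_sub]
    · simp [add_assoc])
  (by
    intro a
    simp [mul_def, one_def])
  (by
    intro a
    simp only [mul_def, one_def, inv_def]
    ext m i
    · simp
    · simp)

/-- representation on functions -/
def ρ (m : ℕ) : G →* Module.End ℚ (ℤ → ℚ) where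
  toFun g :=
    { toFun := fun v k => (((g.s m k : ℤˣ) : ℤ) : ℚ) * v (k - g.n)
      map_add' := by intro v w; funext k; simp [mul_add]
      map_smul' := by intro c v; funext k; simp [mul_left_comm] }
  map_one' := by
    ext v k
    simp [one_def]
  map_mul' x y := by
    apply LinearMap.ext
    intro v
    funext k
    simp [mul_def, mul_assoc, sub_sub]

lemma ρ_apply (m : ℕ) (g : G) (v : ℤ → ℚ) (k : ℤ) :
    ρ m g v k = (((g.s m k : ℤˣ) : ℤ) : ℚ) * v (k - g.n) := rfl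

noncomputable def R (m : ℕ) : MonoidAlgebra ℚ G →ₐ[ℚ] Module.End ℚ (ℤ → ℚ) :=
  MonoidAlgebra.lift ℚ _ G (ρ m)

lemma R_of (m : ℕ) (g : G) (v : ℤ → ℚ) (k : ℤ) :
    R m (MonoidAlgebra.of ℚ G g) v k = (((g.s m k : ℤˣ) : ℤ) : ℚ) * v (k - g.n) := by
  rw [R, MonoidAlgebra.lift_of]; rfl

def ιA : A →* G where
  toFun s := ⟨s, 0⟩
  map_one' := rfl
  map_mul' x y := by
    simp only [mul_def]
    ext m i
    · simp
    · simp

noncomputable def ι : MonoidAlgebra ℚ A →ₐ[ℚ] MonoidAlgebra ℚ G :=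
  MonoidAlgebra.lift ℚ _ A ((MonoidAlgebra.of ℚ G).comp ιA)

noncomputable def T (k : ℤ) : MonoidAlgebra ℚ G := MonoidAlgebra.of ℚ G ⟨1, k⟩

noncomputable def O (s : A) : MonoidAlgebra ℚ G := MonoidAlgebra.of ℚ G ⟨s, 0⟩

def sh (k : ℤ) (s : A) : A := fun m i => s m (i - k)

lemma ι_of (s : A) : ι (MonoidAlgebra.of ℚ A s) = O s := by
  rw [ι, MonoidAlgebra.lift_of]; rfl

lemma T_mul_O (k : ℤ) (s : A) : T k * O s = O (sh k s) * T k := by
  unfold T O
  rw [← map_mul, ← map_mul]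
  congr 1
  simp only [mul_def]
  ext m i
  · simp [sh]
  · simp

lemma T_mul_T (k l : ℤ) : T k * T l = T (k + l) := by
  unfold T
  rw [← map_mul]
  have : (⟨1, k⟩ : G) * ⟨1, l⟩ = ⟨1, k + l⟩ := by
    rw [mul_def]
    ext m i
    · simp
    · simp
  rw [this]

/-- the basic sign function: level `m` has `+1` exactly on `0 ≤ i ≤ m-2`. -/
def a0 : A := fun m i => if 0 ≤ i ∧ i + 1 < m then 1 else -1

noncomputable def α : MonoidAlgebra ℚ G := T 1 * (1 + O a0) + (1 + O a0) * T (-1)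

lemma R_α (m : ℕ) (v : ℤ → ℚ) (k : ℤ) :
    R m α v k = (1 + (((a0 m (k-1) : ℤˣ) : ℤ) : ℚ)) * v (k - 1) + (1 + (((a0 m k : ℤˣ) : ℤ) : ℚ)) * v (k + 1) := by
  unfold α
  rw [map_add, map_mul, map_mul, map_add, map_one]
  simp only [LinearMap.add_apply, Module.End.mul_apply, Pi.add_apply, T, O, R_of, Module.End.one_apply]
  simp
  ring

/-- bandwidth -/
lemma band (β : MonoidAlgebra ℚ G) : ∃ N : ℕ, ∀ (m : ℕ) (i k : ℤ), (N : ℤ) < |k - i| →
    R m β (Pi.single i 1) k = 0 := by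
  induction β using MonoidAlgebra.induction_on with
  | of g =>
    refine ⟨g.n.natAbs, fun m i k h => ?_⟩
    rw [R_of, Pi.single_apply, if_neg, mul_zero]
    intro h2
    have h3 : k - i = g.n := by omega
    rw [h3] at h
    simp at h
  | add x y hx hy =>
    obtain ⟨N, hN⟩ := hx
    obtain ⟨M, hM⟩ := hy
    refine ⟨max N M, fun m i k h => ?_⟩
    rw [map_add, LinearMap.add_apply, Pi.add_apply, hN, hM, add_zero]
    · push_cast at h; exact lt_of_le_of_lt (le_max_right _ _) h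
    · push_cast at h; exact lt_of_le_of_lt (le_max_left _ _) h
  | smul r x hx =>
    obtain ⟨N, hN⟩ := hx
    refine ⟨N, fun m i k h => ?_⟩
    rw [map_smul, LinearMap.smul_apply, Pi.smul_apply, hN m i k h, smul_zero]

lemma kill (β : MonoidAlgebra ℚ G) (hβ : β * α = 0) (N : ℕ)
    (hN : ∀ (m : ℕ) (i k : ℤ), (N : ℤ) < |k - i| → R m β (Pi.single i 1) k = 0) :
    R (2 * (N + 1) + 1) β (Pi.single 0 1) = 0 := by
  set m := 2 * (N + 1) + 1 with hm
  have hA : ∀ j : ℕ, j < N + 1 → R m α (Pi.single (2 * (j:ℤ) + 1) 1) =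
      (2 : ℚ) • (Pi.single (2 * (j:ℤ) + 2) 1 + Pi.single (2 * (j:ℤ)) 1 : ℤ → ℚ) := by
    intro j hj
    funext k
    rw [R_α]
    simp only [Pi.smul_apply, Pi.add_apply, smul_eq_mul, Pi.single_apply]
    by_cases h1 : k = 2 * (j:ℤ) + 2
    · subst h1
      have e1 : a0 m (2 * (j:ℤ) + 2 - 1) = 1 := by
        unfold a0; rw [if_pos]; constructor <;> (push_cast [hm]; omega)
      rw [e1]
      rw [if_pos (by ring), if_neg (by omega), if_pos rfl, if_neg (by omega)]
      norm_num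
    · by_cases h2 : k = 2 * (j:ℤ)
      · subst h2
        have e1 : a0 m (2 * (j:ℤ)) = 1 := by
          unfold a0; rw [if_pos]; constructor <;> (push_cast [hm]; omega)
        rw [e1]
        rw [if_neg (by omega), if_pos rfl, if_neg (by omega), if_pos rfl]
        norm_num
      · rw [if_neg (by omega), if_neg (by omega), if_neg h1, if_neg h2]
        norm_num
  have hu : ∀ j : ℕ, j < N + 1 → R m β (Pi.single (2 * (j:ℤ) + 2) 1) = - R m β (Pi.single (2 * (j:ℤ)) 1) := by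
    intro j hj
    have h1 : R m (β * α) (Pi.single (2 * (j:ℤ) + 1) 1) = 0 := by rw [hβ]; simp
    rw [map_mul, Module.End.mul_apply, hA j hj, map_smul, map_add] at h1
    have h2 := (smul_eq_zero.1 h1).resolve_left (by norm_num)
    exact eq_neg_of_add_eq_zero_left h2
  have hpow : ∀ j : ℕ, j ≤ N + 1 → R m β (Pi.single (2 * (j:ℤ)) 1) = (-1 : ℚ)^j • R m β (Pi.single 0 1) := by
    intro j
    induction j with
    | zero => intro _; simp
    | succ j ih =>
      intro hj
      have := hu j (by omega)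
      have e : (2 * ((j+1 : ℕ):ℤ)) = 2 * (j:ℤ) + 2 := by push_cast; ring
      rw [e, this, ih (by omega), pow_succ]
      simp
  funext k
  by_cases hk : (N:ℤ) < |k - 0|
  · exact hN m 0 k hk
  · have h1 := hpow (N+1) le_rfl
    have h2 := hN m (2 * ((N+1 : ℕ) : ℤ)) k (by
      rw [lt_abs]; right
      rw [not_lt, abs_le] at hk
      push_cast
      omega)
    rw [h1, Pi.smul_apply, smul_eq_zero] at h2
    rcases h2 with h2 | h2
    · exact absurd h2 (pow_ne_zero _ (by norm_num))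
    · rw [h2]; rfl

noncomputable def oA (s : A) : MonoidAlgebra ℚ A := MonoidAlgebra.of ℚ A s

lemma oA_sq (s : A) : oA s * oA s = 1 := by
  unfold oA
  rw [← map_mul]
  have : s * s = 1 := by
    funext m i
    simp
  rw [this, map_one]

noncomputable def PA (J : ℕ) : MonoidAlgebra ℚ A :=
  (1 - oA (sh 1 a0)) * (1 - oA (sh (-(2 * (J:ℤ))) a0)) *
    ∏ i ∈ Finset.range (2 * J), (1 + oA (sh (-(i:ℤ)) a0))

lemma PA1 (J : ℕ) : PA J * (1 + oA (sh 1 a0)) = 0 := by
  unfold PA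
  have h := oA_sq (sh 1 a0)
  set x := oA (sh 1 a0)
  set y := oA (sh (-(2 * (J:ℤ))) a0)
  set p := ∏ i ∈ Finset.range (2 * J), (1 + oA (sh (-(i:ℤ)) a0))
  linear_combination (-(1 - y) * p) * h

lemma PA2 (J : ℕ) : PA J * (1 + oA (sh (-(2 * (J:ℤ))) a0)) = 0 := by
  unfold PA
  have h := oA_sq (sh (-(2 * (J:ℤ))) a0)
  set x := oA (sh 1 a0)
  set y := oA (sh (-(2 * (J:ℤ))) a0)
  set p := ∏ i ∈ Finset.range (2 * J), (1 + oA (sh (-(i:ℤ)) a0))
  linear_combination (-(1 - x) * p) * h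

lemma PA3 (J i : ℕ) (hi : i < 2 * J) : PA J * (1 + oA (sh (-(i:ℤ)) a0)) = 2 * PA J := by
  unfold PA
  rw [← Finset.mul_prod_erase _ _ (Finset.mem_range.2 hi)]
  have h := oA_sq (sh (-(i:ℤ)) a0)
  set x := oA (sh 1 a0)
  set y := oA (sh (-(2 * (J:ℤ))) a0)
  set z := oA (sh (-(i:ℤ)) a0)
  set p := ∏ i ∈ (Finset.range (2 * J)).erase i, (1 + oA (sh (-(i:ℤ)) a0))
  linear_combination ((1 - x) * (1 - y) * p) * h

lemma ι_oA (s : A) : ι (oA s) = O s := ι_of s

lemma T_α (P : MonoidAlgebra ℚ A) (j : ℤ) : ι P * T (-(2 * j)) * α =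
    ι (P * (1 + oA (sh (1 - 2 * j) a0))) * T (1 - 2 * j) +
    ι (P * (1 + oA (sh (-(2 * j)) a0))) * T (-(2 * j) - 1) := by
  have e1 : T (-(2*j)) * α = (1 + O (sh (1 - 2 * j) a0)) * T (1 - 2 * j) +
      (1 + O (sh (-(2 * j)) a0)) * T (-(2 * j) - 1) := by
    unfold α
    rw [mul_add, ← mul_assoc, T_mul_T, mul_add, mul_one, T_mul_O, ← mul_assoc, mul_add (T (-(2*j))),
      mul_one, T_mul_O, add_mul, add_mul, one_mul, add_mul, one_mul, mul_assoc, T_mul_T]
    rw [show -(2 * j) + 1 = 1 - 2 * j by ring, show -(2 * j) + -1 = -(2 * j) - 1 by ring]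
  rw [mul_assoc, e1, mul_add, map_mul, map_mul, map_add, map_add, map_one, ι_oA, ι_oA, mul_assoc, mul_assoc]

noncomputable def β (J : ℕ) : MonoidAlgebra ℚ G :=
  ∑ j ∈ Finset.range (J + 1), (-1 : ℚ)^j • (ι (PA J) * T (-(2 * (j:ℤ))))

lemma partial_sum (J n : ℕ) (hn : n < J) :
    (∑ j ∈ Finset.range (n + 1), (-1 : ℚ)^j • (ι (PA J) * T (-(2 * (j:ℤ))))) * α =
      (-1 : ℚ)^n • (ι (2 * PA J) * T (-(2 * (n:ℤ)) - 1)) := by
  induction n with
  | zero =>
    rw [Finset.sum_range_one, smul_mul_assoc, T_α]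
    have h1 := PA1 J
    have h3 := PA3 J 0 (by omega)
    simp only [Nat.cast_zero, mul_zero, sub_zero, neg_zero] at h1 h3 ⊢
    rw [h1, h3, map_zero, zero_mul, zero_add]
  | succ n ih =>
    rw [Finset.sum_range_succ, add_mul, ih (by omega), smul_mul_assoc, T_α]
    have h1 := PA3 J (2 * n + 1) (by omega)
    have h2 := PA3 J (2 * (n + 1)) (by omega)
    have e1 : (1 - 2 * (((n+1 : ℕ)):ℤ)) = -((2 * n + 1 : ℕ) : ℤ) := by push_cast; ring
    have e2 : (-(2 * (((n+1 : ℕ)):ℤ))) = -((2 * (n + 1) : ℕ) : ℤ) := by push_cast; ring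
    rw [e1, e2, h1, h2]
    have e3 : (-(2 * (n:ℤ)) - 1) = -((2 * n + 1 : ℕ) : ℤ) := by push_cast; ring
    rw [e3, pow_succ]
    simp

lemma β_α (J : ℕ) (hJ : 0 < J) : β J * α = 0 := by
  obtain ⟨n, rfl⟩ : ∃ n, J = n + 1 := ⟨J - 1, by omega⟩
  unfold β
  rw [Finset.sum_range_succ, add_mul, partial_sum (n+1) n (by omega), smul_mul_assoc, T_α]
  have h1 := PA3 (n+1) (2 * n + 1) (by omega)
  have h2 := PA2 (n+1)
  have e1 : (1 - 2 * (((n+1 : ℕ)):ℤ)) = -((2 * n + 1 : ℕ) : ℤ) := by push_cast; ring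
  rw [e1, h1, h2]
  have e3 : (-(2 * (n:ℤ)) - 1) = -((2 * n + 1 : ℕ) : ℤ) := by push_cast; ring
  rw [e3, pow_succ]
  simp

/-- evaluation of an element of the group algebra of sign functions at a point. -/
noncomputable def ev (m : ℕ) (k : ℤ) : MonoidAlgebra ℚ A →ₐ[ℚ] ℚ :=
  MonoidAlgebra.lift ℚ ℚ A
    { toFun := fun s => (((s m k : ℤˣ) : ℤ) : ℚ)
      map_one' := by simp
      map_mul' := by intro x y; simp }

lemma ev_oA (m : ℕ) (k : ℤ) (s : A) : ev m k (oA s) = (((s m k : ℤˣ) : ℤ) : ℚ) := by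
  unfold ev oA
  rw [MonoidAlgebra.lift_of]; rfl

lemma R_ι (m : ℕ) (x : MonoidAlgebra ℚ A) (v : ℤ → ℚ) (k : ℤ) :
    R m (ι x) v k = ev m k x * v k := by
  induction x using MonoidAlgebra.induction_on with
  | of s =>
    change R m (ι (oA s)) v k = ev m k (oA s) * v k
    rw [ι_oA, ev_oA, O, R_of]
    simp
  | add x y hx hy =>
    rw [map_add, map_add, LinearMap.add_apply, Pi.add_apply, hx, hy, map_add, add_mul]
  | smul r x hx =>
    rw [map_smul, map_smul, LinearMap.smul_apply, Pi.smul_apply, hx, map_smul]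
    simp [mul_assoc]

lemma ev_PA (J : ℕ) : ev (2 * J + 1) 0 (PA J) ≠ 0 := by
  unfold PA
  rw [map_mul, map_mul, map_prod, map_sub, map_sub, map_one, ev_oA, ev_oA]
  have e1 : sh 1 a0 (2 * J + 1) 0 = -1 := by
    unfold sh a0; rw [if_neg]; omega
  have e2 : sh (-(2 * (J:ℤ))) a0 (2 * J + 1) 0 = -1 := by
    unfold sh a0; rw [if_neg]; push_cast; omega
  rw [e1, e2]
  refine mul_ne_zero (by norm_num) (Finset.prod_ne_zero_iff.2 ?_)
  intro i hi
  rw [map_add, map_one, ev_oA]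
  have e3 : sh (-(i:ℤ)) a0 (2 * J + 1) 0 = 1 := by
    unfold sh a0; rw [if_pos]; rw [Finset.mem_range] at hi; push_cast; omega
  rw [e3]
  norm_num

lemma R_β (J : ℕ) : R (2 * J + 1) (β J) (Pi.single 0 1) ≠ 0 := by
  intro h
  have h0 := congrFun h 0
  unfold β at h0
  rw [map_sum, LinearMap.sum_apply, Finset.sum_apply, Finset.sum_eq_single 0] at h0
  · rw [map_smul, map_mul, LinearMap.smul_apply, Module.End.mul_apply, Pi.smul_apply, R_ι, T, R_of] at h0
    simp at h0
    exact ev_PA J h0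
  · intro j _ hj
    rw [map_smul, map_mul, LinearMap.smul_apply, Module.End.mul_apply, Pi.smul_apply, R_ι, T, R_of]
    rw [Pi.single_apply, if_neg]
    · simp
    · simp only [ne_eq]; omega
  · intro h; simp at h

end Aux

open Aux in
/-- The negation of the preceding statement: For every field K, every group G and every element a of the group algebra K[G], the set of x with x·a = 0 equals the left ideal generated by some finite set of elements of K[G]. -/
theorem result :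
    ¬ (∀ (K : Type) [Field K] (G : Type) [Group G] (a : MonoidAlgebra K G),
      ∃ s : Finset (MonoidAlgebra K G),
        ((Submodule.span (MonoidAlgebra K G) (s : Set (MonoidAlgebra K G)) :
            Set (MonoidAlgebra K G)) = {x : MonoidAlgebra K G | x * a = 0})) := by
  intro H
  obtain ⟨s, hs⟩ := H ℚ Aux.G α
  choose Nf hNf using band
  let N := s.sup Nf
  have hN : ∀ x ∈ s, ∀ (m : ℕ) (i k : ℤ), (N : ℤ) < |k - i| → R m x (Pi.single i 1) k = 0 := by
    intro x hx m i k h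
    apply hNf
    refine lt_of_le_of_lt ?_ h
    exact_mod_cast Finset.le_sup (f := Nf) hx
  have hall : ∀ x ∈ Submodule.span (MonoidAlgebra ℚ Aux.G) (s : Set (MonoidAlgebra ℚ Aux.G)),
      R (2 * (N + 1) + 1) x (Pi.single 0 1) = 0 := by
    intro x hx
    induction hx using Submodule.span_induction with
    | mem x hx =>
      refine kill x ?_ N (hN x hx)
      have : x ∈ (Submodule.span (MonoidAlgebra ℚ Aux.G) (s : Set (MonoidAlgebra ℚ Aux.G)) :
        Set (MonoidAlgebra ℚ Aux.G)) := Submodule.subset_span hx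
      rw [hs] at this
      exact this
    | zero => simp
    | add x y _ _ hx hy => rw [map_add, LinearMap.add_apply, hx, hy, add_zero]
    | smul r x _ hx => rw [smul_eq_mul, map_mul, Module.End.mul_apply, hx, map_zero]
  apply R_β (N + 1)
  apply hall
  have : β (N + 1) ∈ (Submodule.span (MonoidAlgebra ℚ Aux.G) (s : Set (MonoidAlgebra ℚ Aux.G)) :
        Set (MonoidAlgebra ℚ Aux.G)) := by
    rw [hs]
    exact β_α (N + 1) (by omega)
  exact this

end Pool.Agent.S0942
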