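import Pool.Statements.S1058
-- import your own Pool.Agent.* helpers here

set_option autoImplicit false
open Pool Pool.MP_df592a_al

namespace Pool.Agent.S1058

namespace Aux

open MulOpposite Polynomial

/-- the shift operator `divX` on `ℚ[X]` -/
noncomputable def N : Module.End ℚ ℚ[X] where
  toFun := divX
  map_add' := fun _ _ => divX_add
  map_smul' := by
    intro c p
    ext n
    simp [coeff_divX]

lemma N_coeff (p : ℚ[X]) (n : ℕ) : (N p).coeff n = p.coeff (n + 1) := coeff_divX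

noncomputable def Φ : ℚ[X] →ₐ[ℚ] Module.End ℚ ℚ[X] := aeval N

lemma Φ_X (p : ℚ[X]) : Φ X p = N p := by simp [Φ]

lemma Φ_C (c : ℚ) (p : ℚ[X]) : Φ (C c) p = C c * p := by
  simp [Φ, Module.algebraMap_end_apply, smul_eq_C_mul]

lemma Φ_comm (f g : ℚ[X]) (p : ℚ[X]) : Φ f (Φ g p) = Φ g (Φ f p) := by
  rw [← Module.End.mul_apply, ← map_mul, mul_comm, map_mul, Module.End.mul_apply]

/-- vanishing of coefficients from `n` on -/
def LT (n : ℕ) (p : ℚ[X]) : Prop := ∀ m, n ≤ m → p.coeff m = 0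

lemma LT_N {n : ℕ} {p : ℚ[X]} (h : LT (n + 1) p) : LT n (N p) := by
  intro m hm; rw [N_coeff]; exact h _ (by omega)

lemma LT_N' {n : ℕ} {p : ℚ[X]} (h : LT n p) : LT n (N p) := by
  intro m hm; rw [N_coeff]; exact h _ (by omega)

lemma LT_zero {p : ℚ[X]} (h : LT 0 p) : p = 0 := by
  ext m; rw [h m (Nat.zero_le _), coeff_zero]

lemma LT_natDegree (p : ℚ[X]) : LT (p.natDegree + 1) p := by
  intro m hm
  exact coeff_eq_zero_of_natDegree_lt (by omega)

lemma LT_Φ {n : ℕ} (f : ℚ[X]) {p : ℚ[X]} (h : LT n p) : LT n (Φ f p) := by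
  induction f using Polynomial.induction_on' with
  | add f g hf hg =>
    intro m hm
    rw [map_add, LinearMap.add_apply, coeff_add, hf m hm, hg m hm, add_zero]
  | monomial k a =>
    have h1 : ∀ k, LT n (Φ (X ^ k) p) := by
      intro k
      induction k with
      | zero => simpa using h
      | succ k ih =>
        rw [pow_succ', map_mul, Module.End.mul_apply, Φ_X]
        exact LT_N' ih
    rw [← C_mul_X_pow_eq_monomial, map_mul, Module.End.mul_apply, Φ_C]
    intro m hm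
    rw [coeff_C_mul, h1 k m hm, mul_zero]

lemma N_surj (p : ℚ[X]) : N (X * p) = p := by
  ext n
  rw [N_coeff, coeff_X_mul]

lemma Φ_surj_aux (g : ℚ[X]) (hg : g.coeff 0 ≠ 0) : ∀ (n : ℕ) (p : ℚ[X]), LT n p → ∃ q, Φ g q = p := by
  intro n
  induction n with
  | zero => intro p hp; exact ⟨0, by rw [map_zero, LT_zero hp]⟩
  | succ n ih =>
    intro p hp
    set c := g.coeff 0 with hc
    have hgg : g = X * divX g + C c := (X_mul_divX_add g).symm
    obtain ⟨q, hq⟩ := ih (- N (Φ (divX g) (C c⁻¹ * p))) (by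
      intro m hm
      rw [coeff_neg, neg_eq_zero]
      apply LT_N _ m hm
      apply LT_Φ
      intro m hm
      rw [coeff_C_mul, hp m hm, mul_zero])
    have key : Φ g (C c⁻¹ * p) = N (Φ (divX g) (C c⁻¹ * p)) + p := by
      have e1 : Φ (C c) (C c⁻¹ * p) = p := by
        rw [Φ_C, ← mul_assoc, ← C_mul, mul_inv_cancel₀ hg, C_1, one_mul]
      calc Φ g (C c⁻¹ * p) = Φ (X * divX g + C c) (C c⁻¹ * p) := by rw [← hgg]
        _ = N (Φ (divX g) (C c⁻¹ * p)) + Φ (C c) (C c⁻¹ * p) := by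
          rw [map_add Φ, LinearMap.add_apply, map_mul Φ, Module.End.mul_apply, Φ_X]
        _ = _ := by rw [e1]
    refine ⟨C c⁻¹ * p + q, ?_⟩
    rw [map_add, hq, key]
    ring

lemma Φ_surj : ∀ (n : ℕ) (g : ℚ[X]), g.natDegree ≤ n → g ≠ 0 → Function.Surjective (Φ g) := by
  intro n
  induction n with
  | zero =>
    intro g hg hg0 p
    have h1 : g = C (g.coeff 0) := eq_C_of_natDegree_le_zero hg
    have h2 : g.coeff 0 ≠ 0 := by
      intro h; apply hg0; rw [h1, h, C_0]
    exact Φ_surj_aux g h2 _ p (LT_natDegree p)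
  | succ n ih =>
    intro g hg hg0 p
    by_cases h2 : g.coeff 0 = 0
    · have hgg : g = X * divX g := by
        conv_lhs => rw [← X_mul_divX_add g, h2, C_0, add_zero]
      have h3 : divX g ≠ 0 := by
        intro h; apply hg0; rw [hgg, h, mul_zero]
      have h4 : (divX g).natDegree ≤ n := by
        rw [natDegree_divX_eq_natDegree_tsub_one]; omega
      obtain ⟨q, hq⟩ := ih _ h4 h3 (X * p)
      refine ⟨q, ?_⟩
      rw [hgg, map_mul, Module.End.mul_apply, hq, Φ_X, N_surj]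
    · exact Φ_surj_aux g h2 _ p (LT_natDegree p)

/-- substitution `X ↦ X + 1`. -/
noncomputable def τ : ℚ[X] →+* ℚ[X] := compRingHom (X + 1)

lemma τ_ne {f : ℚ[X]} (hf : f ≠ 0) : τ f ≠ 0 := by
  unfold τ
  rw [coe_compRingHom_apply]
  intro h
  have h2 := congrArg (fun g => g.comp (X - 1)) h
  simp only [comp_assoc] at h2
  simp at h2
  exact hf h2

/-- The ring `ℚ[X] ⊕ M`. -/
structure A : Type where
  s : ℚ[X]
  m : ℚ[X]

@[ext] lemma A.ext' {x y : A} (h1 : x.s = y.s) (h2 : x.m = y.m) : x = y := by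
  cases x; cases y; simp_all

noncomputable instance : Zero A := ⟨⟨0, 0⟩⟩
noncomputable instance : One A := ⟨⟨1, 0⟩⟩
noncomputable instance : Add A := ⟨fun x y => ⟨x.s + y.s, x.m + y.m⟩⟩
noncomputable instance : Neg A := ⟨fun x => ⟨-x.s, -x.m⟩⟩
noncomputable instance : Mul A := ⟨fun x y => ⟨x.s * y.s, Φ (τ x.s) y.m + Φ y.s x.m⟩⟩

@[simp] lemma zero_s : (0 : A).s = 0 := rfl
@[simp] lemma zero_m : (0 : A).m = 0 := rfl
@[simp] lemma one_s : (1 : A).s = 1 := rfl
@[simp] lemma one_m : (1 : A).m = 0 := rfl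
@[simp] lemma add_s (x y : A) : (x + y).s = x.s + y.s := rfl
@[simp] lemma add_m (x y : A) : (x + y).m = x.m + y.m := rfl
@[simp] lemma neg_s (x : A) : (-x).s = -x.s := rfl
@[simp] lemma neg_m (x : A) : (-x).m = -x.m := rfl
@[simp] lemma mul_s (x y : A) : (x * y).s = x.s * y.s := rfl
@[simp] lemma mul_m (x y : A) : (x * y).m = Φ (τ x.s) y.m + Φ y.s x.m := rfl

noncomputable instance : Ring A where
  add_assoc a b c := by ext1 <;> simp [add_assoc]
  zero_add a := by ext1 <;> simp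
  add_zero a := by ext1 <;> simp
  add_comm a b := by ext1 <;> simp [add_comm]
  left_distrib a b c := by
    ext1
    · simp only [mul_s, add_s]; ring
    · simp only [mul_m, add_m, add_s, map_add, LinearMap.add_apply]; ring
  right_distrib a b c := by
    ext1
    · simp only [mul_s, add_s]; ring
    · simp only [mul_m, add_m, add_s, map_add, LinearMap.add_apply]; ring
  zero_mul a := by ext1 <;> simp
  mul_zero a := by ext1 <;> simp
  mul_assoc a b c := by
    ext1
    · simp only [mul_s]; ring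
    · simp only [mul_m, mul_s, map_mul, map_add, Module.End.mul_apply]
      rw [Φ_comm c.s (τ a.s), Φ_comm c.s b.s a.m]
      ring
  one_mul a := by ext1 <;> simp
  mul_one a := by ext1 <;> simp
  neg_add_cancel a := by ext1 <;> simp
  nsmul := nsmulRec
  zsmul := zsmulRec

lemma smul_mem' (I : Submodule Aᵐᵒᵖ A) {x : A} (hx : x ∈ I) (r : A) : x * r ∈ I :=
  I.smul_mem (op r) hx

/-- the ideal `0 ⊕ M` is contained in `I` -/
def big (I : Submodule Aᵐᵒᵖ A) : Prop := ∀ m : ℚ[X], (⟨0, m⟩ : A) ∈ I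

lemma dich (I : Submodule Aᵐᵒᵖ A) : big I ∨ ∀ x ∈ I, x.s = 0 := by
  by_cases h : ∀ x ∈ I, x.s = 0
  · right; exact h
  left
  push Not at h
  obtain ⟨x, hx, hs⟩ := h
  intro m
  obtain ⟨q, hq⟩ := Φ_surj _ (τ x.s) le_rfl (τ_ne hs) m
  have := smul_mem' I hx ⟨0, q⟩
  have e : x * ⟨0, q⟩ = ⟨0, m⟩ := by
    ext1
    · simp
    · simp [hq]
  rwa [e] at this

/-- elements of a small submodule generate everything of smaller degree -/
lemma gen (I : Submodule Aᵐᵒᵖ A) : ∀ (n : ℕ) (p : ℚ[X]), (⟨0, p⟩ : A) ∈ I → LT (n + 1) p →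
    p.coeff n ≠ 0 → ∀ q : ℚ[X], LT (n + 1) q → (⟨0, q⟩ : A) ∈ I := by
  intro n
  have step : ∀ (n : ℕ) (p : ℚ[X]), (⟨0, p⟩ : A) ∈ I → LT (n + 1) p → p.coeff n ≠ 0 →
      (∀ q : ℚ[X], LT n q → (⟨0, q⟩ : A) ∈ I) → ∀ q : ℚ[X], LT (n + 1) q → (⟨0, q⟩ : A) ∈ I := by
    intro n p hp hpn hpc hall q hq
    set c := q.coeff n / p.coeff n with hc
    have h1 : (⟨0, C c * p⟩ : A) ∈ I := by
      have := smul_mem' I hp ⟨C c, 0⟩
      have e : (⟨0, p⟩ : A) * ⟨C c, 0⟩ = ⟨0, C c * p⟩ := by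
        ext1
        · simp
        · simp only [mul_m, map_zero, zero_add, Φ_C]
      rwa [e] at this
    have h2 : (⟨0, q - C c * p⟩ : A) ∈ I := by
      apply hall
      intro m hm
      rw [coeff_sub, coeff_C_mul]
      rcases Nat.eq_or_lt_of_le hm with h | h
      · rw [← h, hc]; field_simp; ring
      · rw [hq m h, hpn m h]; ring
    have := I.add_mem h1 h2
    have e : (⟨0, C c * p⟩ : A) + ⟨0, q - C c * p⟩ = ⟨0, q⟩ := by
      ext1
      · simp
      · simp
    rwa [e] at this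
  induction n with
  | zero =>
    intro p hp hpn hpc q hq
    refine step 0 p hp hpn hpc ?_ q hq
    intro q hq
    rw [LT_zero hq]
    exact I.zero_mem
  | succ n ih =>
    intro p hp hpn hpc q hq
    refine step (n+1) p hp hpn hpc ?_ q hq
    have hN : (⟨0, N p⟩ : A) ∈ I := by
      have := smul_mem' I hp ⟨X, 0⟩
      have e : (⟨0, p⟩ : A) * ⟨X, 0⟩ = ⟨0, N p⟩ := by
        ext1
        · simp
        · simp only [mul_m, map_zero, zero_add, Φ_X]
      rwa [e] at this
    exact ih (N p) hN (LT_N hpn) (by rw [N_coeff]; exact hpc)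

lemma small_total (I J : Submodule Aᵐᵒᵖ A) (hI : ∀ x ∈ I, x.s = 0) (hJ : ∀ x ∈ J, x.s = 0) :
    I ≤ J ∨ J ≤ I := by
  by_contra hcon
  push Not at hcon
  obtain ⟨h1, h2⟩ := hcon
  rw [SetLike.not_le_iff_exists] at h1 h2
  obtain ⟨x, hx, hxJ⟩ := h1
  obtain ⟨y, hy, hyI⟩ := h2
  have ex : x = ⟨0, x.m⟩ := by ext1 <;> simp [hI x hx]
  have ey : y = ⟨0, y.m⟩ := by ext1 <;> simp [hJ y hy]
  have hx0 : x.m ≠ 0 := by
    intro h; apply hxJ; rw [ex, h]; exact J.zero_mem
  have hy0 : y.m ≠ 0 := by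
    intro h; apply hyI; rw [ey, h]; exact I.zero_mem
  rw [ex] at hx hxJ
  rw [ey] at hy hyI
  rcases le_total x.m.natDegree y.m.natDegree with h | h
  · apply hxJ
    refine gen J _ y.m hy (LT_natDegree _) (leadingCoeff_ne_zero.2 hy0) _ ?_
    intro m hm
    exact LT_natDegree x.m m (by omega)
  · apply hyI
    refine gen I _ x.m hx (LT_natDegree _) (leadingCoeff_ne_zero.2 hx0) _ ?_
    intro m hm
    exact LT_natDegree y.m m (by omega)

lemma small_big (I J : Submodule Aᵐᵒᵖ A) (hI : ∀ x ∈ I, x.s = 0) (hJ : big J) : I ≤ J := by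
  intro x hx
  have ex : x = ⟨0, x.m⟩ := by ext1 <;> simp [hI x hx]
  rw [ex]; exact hJ _

lemma big_mem {I : Submodule Aᵐᵒᵖ A} (hI : big I) {s m : ℚ[X]} (m' : ℚ[X]) (h : (⟨s, m⟩ : A) ∈ I) :
    (⟨s, m'⟩ : A) ∈ I := by
  have := I.add_mem h (hI (m' - m))
  have e : (⟨s, m⟩ : A) + ⟨0, m' - m⟩ = ⟨s, m'⟩ := by
    ext1
    · simp
    · simp
  rwa [e] at this

lemma bez (a b : ℚ[X]) : ∃ e f w1 w2 : ℚ[X], e + f = 1 ∧ (a + b) * e = a * w1 ∧
    (a + b) * f = b * w2 := by
  by_cases h0 : a = 0 ∧ b = 0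
  · exact ⟨1, 0, 0, 0, by ring, by simp [h0.1, h0.2], by simp⟩
  · have hd : EuclideanDomain.gcd a b ≠ 0 := by
      intro h; exact h0 (EuclideanDomain.gcd_eq_zero_iff.1 h)
    obtain ⟨a', ha⟩ := EuclideanDomain.gcd_dvd_left a b
    obtain ⟨b', hb⟩ := EuclideanDomain.gcd_dvd_right a b
    have h1 := EuclideanDomain.gcd_eq_gcd_ab a b
    set d := EuclideanDomain.gcd a b
    set A' := EuclideanDomain.gcdA a b
    set B' := EuclideanDomain.gcdB a b
    have h2 : a' * A' + b' * B' = 1 := by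
      apply mul_left_cancel₀ hd
      linear_combination -h1 - A' * ha - B' * hb
    refine ⟨a' * A', b' * B', (a' + b') * A', (a' + b') * B', h2, ?_, ?_⟩
    · linear_combination (-b' * A') * ha + a' * A' * hb
    · linear_combination (b' * B') * ha - (a' * B') * hb

lemma distrib_le (I J K : Submodule Aᵐᵒᵖ A) : I ⊓ (J ⊔ K) ≤ (I ⊓ J) ⊔ (I ⊓ K) := by
  have hcomp : ∀ J K : Submodule Aᵐᵒᵖ A, (J ≤ K ∨ K ≤ J) → I ⊓ (J ⊔ K) ≤ (I ⊓ J) ⊔ (I ⊓ K) := by
    intro J K h
    rcases h with h | h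
    · rw [sup_eq_right.2 h]; exact le_sup_right
    · rw [sup_eq_left.2 h]; exact le_sup_left
  rcases dich J with hJ | hJ
  · rcases dich K with hK | hK
    · rcases dich I with hI | hI
      · rintro x ⟨hxI, hx⟩
        obtain ⟨y, hy, z, hz, rfl⟩ := Submodule.mem_sup.1 hx
        have hxI' : y + z ∈ I := hxI
        obtain ⟨e, f, w1, w2, hef, h1, h2⟩ := bez y.s z.s
        have a1 : (y + z) * ⟨e, 0⟩ ∈ J := by
          have h3 := smul_mem' J hy ⟨w1, 0⟩
          have h4 := big_mem (I := J) hJ ((y + z) * ⟨e, 0⟩ : A).m (s := (y * ⟨w1, 0⟩ : A).s)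
            (m := (y * ⟨w1, 0⟩ : A).m) h3
          have e5 : (⟨(y * ⟨w1, 0⟩ : A).s, ((y + z) * ⟨e, 0⟩ : A).m⟩ : A) = (y + z) * ⟨e, 0⟩ := by
            ext1
            · simp only [mul_s, add_s]; exact h1.symm
            · rfl
          rwa [e5] at h4
        have a2 : (y + z) * ⟨f, 0⟩ ∈ K := by
          have h3 := smul_mem' K hz ⟨w2, 0⟩
          have h4 := big_mem (I := K) hK ((y + z) * ⟨f, 0⟩ : A).m (s := (z * ⟨w2, 0⟩ : A).s)
            (m := (z * ⟨w2, 0⟩ : A).m) h3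
          have e5 : (⟨(z * ⟨w2, 0⟩ : A).s, ((y + z) * ⟨f, 0⟩ : A).m⟩ : A) = (y + z) * ⟨f, 0⟩ := by
            ext1
            · simp only [mul_s, add_s]; exact h2.symm
            · rfl
          rwa [e5] at h4
        have b1 := smul_mem' I hxI' ⟨e, 0⟩
        have b2 := smul_mem' I hxI' ⟨f, 0⟩
        have hsum : y + z = (y + z) * ⟨e, 0⟩ + (y + z) * ⟨f, 0⟩ := by
          rw [← mul_add]
          have : (⟨e, 0⟩ : A) + ⟨f, 0⟩ = 1 := by
            ext1
            · simp [hef]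
            · simp
          rw [this, mul_one]
        rw [hsum]
        exact Submodule.add_mem_sup ⟨b1, a1⟩ ⟨b2, a2⟩
      · rw [inf_eq_left.2 ((small_big I J hI hJ).trans le_sup_left), inf_eq_left.2 (small_big I J hI hJ)]
        exact le_sup_left
    · exact hcomp J K (Or.inr (small_big K J hK hJ))
  · rcases dich K with hK | hK
    · exact hcomp J K (Or.inl (small_big J K hJ hK))
    · exact hcomp J K (small_total J K hJ hK)

lemma distrib (I J K : Submodule Aᵐᵒᵖ A) : I ⊓ (J ⊔ K) = I ⊓ J ⊔ I ⊓ K :=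
  le_antisymm (distrib_le I J K) (sup_le (inf_le_inf_left I le_sup_left) (inf_le_inf_left I le_sup_right))

/-- the maximal right ideal -/
def M1 : Submodule Aᵐᵒᵖ A where
  carrier := {x | x.s.coeff 0 = 0}
  zero_mem' := by simp
  add_mem' := by
    intro x y hx hy
    simp only [Set.mem_ofPred_eq] at *
    rw [add_s, coeff_add, hx, hy, add_zero]
  smul_mem' := by
    intro r x hx
    change (x * unop r).s.coeff 0 = 0
    change x.s.coeff 0 = 0 at hx
    rw [mul_s, mul_coeff_zero, hx, zero_mul]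

lemma mem_M1 (x : A) : x ∈ M1 ↔ x.s.coeff 0 = 0 := Iff.rfl

lemma M1_max : IsCoatom M1 := by
  constructor
  · intro h
    have : (1 : A) ∈ M1 := by rw [h]; trivial
    rw [mem_M1] at this
    simp at this
  · intro J hJ
    obtain ⟨x, hx, hx1⟩ := SetLike.exists_of_lt hJ
    rw [mem_M1] at hx1
    have h1 := smul_mem' J hx ⟨C (x.s.coeff 0)⁻¹, 0⟩
    have h2 : 1 - x * ⟨C (x.s.coeff 0)⁻¹, 0⟩ ∈ M1 := by
      rw [mem_M1, sub_eq_add_neg, add_s, neg_s, mul_s, one_s, coeff_add, coeff_neg, mul_coeff_zero,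
        coeff_one_zero, coeff_C_zero, mul_inv_cancel₀ hx1]
      ring
    have h3 := J.add_mem (hJ.le h2) h1
    rw [sub_add_cancel] at h3
    rw [eq_top_iff]
    intro y _
    have := smul_mem' J h3 y
    rwa [one_mul] at this

lemma Φ_one (g : ℚ[X]) : Φ g 1 = C (g.coeff 0) := by
  conv_lhs => rw [← divX_mul_X_add g]
  rw [map_add, LinearMap.add_apply, Φ_C, mul_one, map_mul, Module.End.mul_apply, Φ_X]
  have : N (1 : ℚ[X]) = 0 := by
    ext n; rw [N_coeff]; simp [coeff_one]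
  rw [this, map_zero, zero_add]

end Aux

open Aux in
/-- The negation of the preceding statement: Take any ring A whose right ideals form a distributive lattice and any maximal right ideal M. Then some ring hom f : A → Q sends every t outside M to a unit, gives every q in Q as f(a)f(t)⁻¹ with t outside M, and has kernel the a with a·t = 0 for some t outside M. -/
theorem result :
    ¬ (∀ (A : Type) [Ring A],
      (∀ I J K : Submodule Aᵐᵒᵖ A, I ⊓ (J ⊔ K) = I ⊓ J ⊔ I ⊓ K) →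
      ∀ M : Submodule Aᵐᵒᵖ A, IsCoatom M →
        ∃ (Q : Type) (_ : Ring Q) (f : A →+* Q),
          (∀ t : A, t ∉ M → IsUnit (f t)) ∧
          (∀ q : Q, ∃ a t : A, t ∉ M ∧ q * f t = f a) ∧
          (∀ a : A, f a = 0 ↔ ∃ t : A, t ∉ M ∧ a * t = 0)) := by
  intro H
  obtain ⟨Q, _, f, h1, _, h3⟩ := H Aux.A distrib M1 M1_max
  let t : Aux.A := ⟨1 - Polynomial.X, 0⟩
  let a : Aux.A := ⟨0, 1⟩
  have ht : t ∉ M1 := by
    rw [mem_M1]; simp [t]
  have hta : t * a = 0 := by
    ext1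
    · simp [a]
    · simp only [t, a, mul_m, map_zero, add_zero, zero_m]
      have : τ (1 - Polynomial.X) = -Polynomial.X := by
        simp [τ]
      rw [this, Φ_one]
      simp
  have hfa : f a = 0 := by
    have h4 : f t * f a = 0 := by rw [← map_mul, hta, map_zero]
    exact (h1 t ht).mul_right_eq_zero.1 h4
  obtain ⟨t', ht', hat⟩ := (h3 a).1 hfa
  apply ht'
  rw [mem_M1]
  have h5 := congrArg A.m hat
  simp only [a, mul_m, map_zero, LinearMap.zero_apply, zero_add, zero_m, Φ_one] at h5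
  simpa using h5

end Pool.Agent.S1058
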