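import Pool.Statements.S1127
-- import your own Pool.Agent.* helpers here

set_option autoImplicit false
open Pool Pool.MP_ef54ea_al

namespace Pool.Agent.S1127

namespace Aux

open Polynomial

abbrev P := Polynomial (Polynomial ℂ)
abbrev F := FractionRing P

/-! ### the polynomial lemma -/

lemma one_var (c : ℂ) (hc : c ≠ 0) (a b : ℂ[X]) (h : C c * a ^ 2 - X * b ^ 2 = 0) : a = 0 ∧ b = 0 := by
  have h' : C c * a ^ 2 = X * b ^ 2 := sub_eq_zero.1 h
  by_cases hb : b = 0
  · refine ⟨?_, hb⟩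
    rw [hb] at h'
    simpa [hc] using h'
  · exfalso
    by_cases ha : a = 0
    · rw [ha] at h'
      have : X * b ^ 2 = 0 := by rw [← h']; ring
      rcases mul_eq_zero.1 this with h1 | h1
      · exact X_ne_zero h1
      · exact hb (pow_eq_zero_iff (two_ne_zero) |>.1 h1)
    · have h1 := congrArg natDegree h'
      rw [natDegree_C_mul hc, natDegree_pow, natDegree_mul X_ne_zero (pow_ne_zero 2 hb), natDegree_X,
        natDegree_pow] at h1
      omega

noncomputable def EE (c : ℂ) (α β : P) : P := C (C c) * α ^ 2 - C X * β ^ 2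

lemma coeff_sq (p : P) (n : ℕ) (h : p.natDegree ≤ n) : (p ^ 2).coeff (2 * n) = (p.coeff n) ^ 2 := by
  rw [sq, sq, two_mul, coeff_mul_add_eq_of_natDegree_le h h]

lemma EE_spec (c : ℂ) (α β : P) : (EE c α β = 0 → β = 0 ∧ (c ≠ 0 → α = 0)) ∧
    (EE c α β ≠ 0 → ∃ n, (EE c α β).natDegree = 2 * n) := by
  by_cases hc : c = 0
  · subst hc
    have e : EE 0 α β = -(C X * β ^ 2) := by simp [EE]
    constructor
    · intro h
      rw [e, neg_eq_zero] at h
      rcases mul_eq_zero.1 h with h1 | h1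
      · exact absurd (C_eq_zero.1 h1) X_ne_zero
      · exact ⟨pow_eq_zero_iff (two_ne_zero) |>.1 h1, fun h => absurd rfl h⟩
    · intro h
      refine ⟨β.natDegree, ?_⟩
      rw [e, natDegree_neg, natDegree_C_mul X_ne_zero, natDegree_pow]
  · by_cases h0 : α = 0 ∧ β = 0
    · obtain ⟨rfl, rfl⟩ := h0
      exact ⟨fun _ => ⟨rfl, fun _ => rfl⟩, fun h => absurd (by simp [EE]) h⟩
    · set n := max α.natDegree β.natDegree with hn
      have hco : (EE c α β).coeff (2 * n) = C c * (α.coeff n) ^ 2 - X * (β.coeff n) ^ 2 := by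
        unfold EE
        rw [coeff_sub, coeff_C_mul, coeff_C_mul, coeff_sq _ _ (le_max_left _ _),
          coeff_sq _ _ (le_max_right _ _)]
      have hne : (EE c α β).coeff (2 * n) ≠ 0 := by
        rw [hco]
        intro h
        obtain ⟨h1, h2⟩ := one_var c hc _ _ h
        apply h0
        rcases le_total α.natDegree β.natDegree with h3 | h3
        · have h4 : n = β.natDegree := max_eq_right h3
          rw [h4] at h1 h2
          have h5 : β = 0 := leadingCoeff_eq_zero.1 h2
          refine ⟨?_, h5⟩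
          rw [h5, natDegree_zero] at h1 h3
          have h6 : α.natDegree = 0 := by omega
          apply leadingCoeff_eq_zero.1
          rw [leadingCoeff, h6]; exact h1
        · have h4 : n = α.natDegree := max_eq_left h3
          rw [h4] at h1 h2
          have h5 : α = 0 := leadingCoeff_eq_zero.1 h1
          refine ⟨h5, ?_⟩
          rw [h5, natDegree_zero] at h2 h3
          have h6 : β.natDegree = 0 := by omega
          apply leadingCoeff_eq_zero.1
          rw [leadingCoeff, h6]; exact h2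
      have hle : (EE c α β).natDegree ≤ 2 * n := by
        unfold EE
        refine (natDegree_sub_le _ _).trans (max_le ?_ ?_)
        · refine natDegree_mul_le.trans ?_
          rw [natDegree_C, zero_add, natDegree_pow]
          exact Nat.mul_le_mul_left 2 (le_max_left _ _)
        · refine natDegree_mul_le.trans ?_
          rw [natDegree_C, zero_add, natDegree_pow]
          exact Nat.mul_le_mul_left 2 (le_max_right _ _)
      constructor
      · intro h; rw [h, coeff_zero] at hne; exact absurd rfl hne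
      · intro _
        exact ⟨n, le_antisymm hle (le_natDegree_of_ne_zero hne)⟩

lemma poly_aniso (c : ℂ) (d x y z : P)
    (h : C X * x ^ 2 + X * y ^ 2 - C X * X * z ^ 2 = C (C c) * d ^ 2) : x = 0 ∧ y = 0 ∧ z = 0 := by
  have h1 : EE c d x = X * EE 1 y z := by
    unfold EE
    simp only [C_1, one_mul]
    linear_combination -h
  obtain ⟨a1, a2⟩ := EE_spec c d x
  obtain ⟨b1, b2⟩ := EE_spec 1 y z
  by_cases h2 : EE 1 y z = 0
  · rw [h2, mul_zero] at h1
    exact ⟨(a1 h1).1, (b1 h2).2 one_ne_zero, (b1 h2).1⟩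
  · exfalso
    obtain ⟨n, hn⟩ := b2 h2
    have h3 : EE c d x ≠ 0 := by rw [h1]; exact mul_ne_zero X_ne_zero h2
    obtain ⟨m, hm⟩ := a2 h3
    rw [h1, natDegree_mul X_ne_zero h2, natDegree_X, hn] at hm
    omega

noncomputable def s : F := algebraMap P F (C X)
noncomputable def t : F := algebraMap P F X

lemma s_ne : s ≠ 0 := by
  unfold s
  rw [Ne, FaithfulSMul.algebraMap_eq_zero_iff, C_eq_zero]; exact X_ne_zero

lemma t_ne : t ≠ 0 := by
  unfold t
  rw [Ne, FaithfulSMul.algebraMap_eq_zero_iff]; exact X_ne_zero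

lemma aniso (c : ℂ) (a b e : F)
    (h : s * a ^ 2 + t * b ^ 2 - s * t * e ^ 2 = algebraMap P F (C (C c))) : a = 0 ∧ b = 0 ∧ e = 0 := by
  obtain ⟨x1, d1, hd1, rfl⟩ := IsFractionRing.div_surjective (A := P) a
  obtain ⟨x2, d2, hd2, rfl⟩ := IsFractionRing.div_surjective (A := P) b
  obtain ⟨x3, d3, hd3, rfl⟩ := IsFractionRing.div_surjective (A := P) e
  have n1 : algebraMap P F d1 ≠ 0 := IsFractionRing.to_map_ne_zero_of_mem_nonZeroDivisors hd1
  have n2 : algebraMap P F d2 ≠ 0 := IsFractionRing.to_map_ne_zero_of_mem_nonZeroDivisors hd2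
  have n3 : algebraMap P F d3 ≠ 0 := IsFractionRing.to_map_ne_zero_of_mem_nonZeroDivisors hd3
  have m1 : d1 ≠ 0 := by rintro rfl; simp at n1
  have m2 : d2 ≠ 0 := by rintro rfl; simp at n2
  have m3 : d3 ≠ 0 := by rintro rfl; simp at n3
  have key := poly_aniso c (d1 * d2 * d3) (x1 * d2 * d3) (x2 * d1 * d3) (x3 * d1 * d2) (by
    apply IsFractionRing.injective P F
    simp only [map_add, map_sub, map_mul, map_pow]
    change s * _ + t * _ - s * t * _ = _
    field_simp at h
    linear_combination h)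
  obtain ⟨k1, k2, k3⟩ := key
  have l1 : x1 = 0 := by
    rcases mul_eq_zero.1 k1 with h | h
    · rcases mul_eq_zero.1 h with h | h
      · exact h
      · exact absurd h m2
    · exact absurd h m3
  have l2 : x2 = 0 := by
    rcases mul_eq_zero.1 k2 with h | h
    · rcases mul_eq_zero.1 h with h | h
      · exact h
      · exact absurd h m1
    · exact absurd h m3
  have l3 : x3 = 0 := by
    rcases mul_eq_zero.1 k3 with h | h
    · rcases mul_eq_zero.1 h with h | h
      · exact h
      · exact absurd h m1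
    · exact absurd h m2
  subst l1 l2 l3
  simp

/-! ### the Lie algebra -/

def L : Type := F × F × F

noncomputable instance : AddCommGroup L := inferInstanceAs (AddCommGroup (F × F × F))
noncomputable instance : Module F L := inferInstanceAs (Module F (F × F × F))
noncomputable instance : Module ℂ L := inferInstanceAs (Module ℂ (F × F × F))

lemma add_1 (x y : L) : (x + y).1 = x.1 + y.1 := rfl
lemma add_2 (x y : L) : (x + y).2.1 = x.2.1 + y.2.1 := rfl
lemma add_3 (x y : L) : (x + y).2.2 = x.2.2 + y.2.2 := rfl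
lemma zero_1 : (0 : L).1 = 0 := rfl
lemma zero_2 : (0 : L).2.1 = 0 := rfl
lemma zero_3 : (0 : L).2.2 = 0 := rfl
lemma smul_1 (c : ℂ) (x : L) : (c • x).1 = c • x.1 := rfl
lemma smul_2 (c : ℂ) (x : L) : (c • x).2.1 = c • x.2.1 := rfl
lemma smul_3 (c : ℂ) (x : L) : (c • x).2.2 = c • x.2.2 := rfl

lemma L_ext {x y : L} (h1 : x.1 = y.1) (h2 : x.2.1 = y.2.1) (h3 : x.2.2 = y.2.2) : x = y :=
  Prod.ext h1 (Prod.ext h2 h3)

def mk (x y z : F) : L := (x, y, z)
@[simp] lemma mk_1 (x y z : F) : (mk x y z).1 = x := rfl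
@[simp] lemma mk_2 (x y z : F) : (mk x y z).2.1 = y := rfl
@[simp] lemma mk_3 (x y z : F) : (mk x y z).2.2 = z := rfl

/-- `[i,j] = k`, `[j,k] = -t i`, `[k,i] = -s j`. -/
noncomputable instance : Bracket L L :=
  ⟨fun x y => mk (-t * (x.2.1 * y.2.2 - x.2.2 * y.2.1)) (-s * (x.2.2 * y.1 - x.1 * y.2.2))
    (x.1 * y.2.1 - x.2.1 * y.1)⟩

lemma br_1 (x y : L) : ⁅x, y⁆.1 = -t * (x.2.1 * y.2.2 - x.2.2 * y.2.1) := rfl
lemma br_2 (x y : L) : ⁅x, y⁆.2.1 = -s * (x.2.2 * y.1 - x.1 * y.2.2) := rfl
lemma br_3 (x y : L) : ⁅x, y⁆.2.2 = x.1 * y.2.1 - x.2.1 * y.1 := rfl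

noncomputable instance : LieRing L where
  add_lie x y z := by
    apply L_ext <;> simp only [br_1, br_2, br_3, add_1, add_2, add_3] <;> ring
  lie_add x y z := by
    apply L_ext <;> simp only [br_1, br_2, br_3, add_1, add_2, add_3] <;> ring
  lie_self x := by
    apply L_ext <;> simp only [br_1, br_2, br_3, zero_1, zero_2, zero_3] <;> ring
  leibniz_lie x y z := by
    apply L_ext <;> simp only [br_1, br_2, br_3, add_1, add_2, add_3] <;> ring

noncomputable instance : LieAlgebra ℂ L where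
  lie_smul c x y := by
    apply L_ext <;> simp only [br_1, br_2, br_3, smul_1, smul_2, smul_3, Algebra.smul_def] <;> ring

/-- the quadratic form -/
noncomputable def κ (a : L) : F := s * a.1 ^ 2 + t * a.2.1 ^ 2 - s * t * a.2.2 ^ 2

lemma ad3 (a v : L) : ⁅a, ⁅a, ⁅a, v⁆⁆⁆ = mk (κ a * ⁅a, v⁆.1) (κ a * ⁅a, v⁆.2.1) (κ a * ⁅a, v⁆.2.2) := by
  apply L_ext <;> simp only [br_1, br_2, br_3, κ, mk_1, mk_2, mk_3] <;> ring

lemma mem_bracket (I : LieIdeal ℂ L) (x y : L) (hy : y ∈ I) : ⁅x, y⁆ ∈ I := lie_mem_right ℂ L I x y hy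

lemma top_of (I : LieIdeal ℂ L) (h1 : ∀ f : F, (mk (f) (0) (0)) ∈ I) : I = ⊤ := by
  have h3 : ∀ f : F, (mk (0) (0) (f)) ∈ I := by
    intro f
    have := mem_bracket I (mk (0) (-1) (0)) _ (h1 f)
    have e : ⁅(mk (0) (-1) (0)), (mk (f) (0) (0))⁆ = (mk (0) (0) (f)) := by
      apply L_ext <;> simp only [br_1, br_2, br_3, mk_1, mk_2, mk_3] <;> ring
    rwa [e] at this
  have h2 : ∀ f : F, (mk (0) (f) (0)) ∈ I := by
    intro f
    have := mem_bracket I (mk (0) (0) (-1)) _ (h1 (f / s))
    have e : ⁅(mk (0) (0) (-1)), (mk (f / s) (0) (0))⁆ = (mk (0) (f) (0)) := by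
      have hs := s_ne
      apply L_ext
      · simp only [br_1, br_2, br_3, mk_1, mk_2, mk_3]; ring
      · simp only [br_1, br_2, br_3, mk_1, mk_2, mk_3]; field_simp; ring
      · simp only [br_1, br_2, br_3, mk_1, mk_2, mk_3]; ring
    rwa [e] at this
  rw [eq_top_iff]
  intro x _
  have := I.add_mem (I.add_mem (h1 x.1) (h2 x.2.1)) (h3 x.2.2)
  have e : (mk (x.1) (0) (0)) + (mk (0) (x.2.1) (0)) + (mk (0) (0) (x.2.2)) = x := by
    apply L_ext
    · rw [add_1, add_1]; simp
    · rw [add_2, add_2]; simp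
    · rw [add_3, add_3]; simp
  rwa [e] at this

lemma top_of2 (I : LieIdeal ℂ L) (h2 : ∀ f : F, (mk (0) (f) (0)) ∈ I) : I = ⊤ := by
  apply top_of
  intro f
  have := mem_bracket I (mk (0) (0) (1)) _ (h2 (f / t))
  have e : ⁅(mk (0) (0) (1)), (mk (0) (f / t) (0))⁆ = (mk (f) (0) (0)) := by
    have ht := t_ne
    apply L_ext
    · simp only [br_1, br_2, br_3, mk_1, mk_2, mk_3]; field_simp; ring
    · simp only [br_1, br_2, br_3, mk_1, mk_2, mk_3]; ring
    · simp only [br_1, br_2, br_3, mk_1, mk_2, mk_3]; ring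
  rwa [e] at this

lemma top_of3 (I : LieIdeal ℂ L) (h3 : ∀ f : F, (mk (0) (0) (f)) ∈ I) : I = ⊤ := by
  apply top_of
  intro f
  have := mem_bracket I (mk (0) (-1) (0)) _ (h3 (f / t))
  have e : ⁅(mk (0) (-1) (0)), (mk (0) (0) (f / t))⁆ = (mk (f) (0) (0)) := by
    have ht := t_ne
    apply L_ext
    · simp only [br_1, br_2, br_3, mk_1, mk_2, mk_3]; field_simp; ring
    · simp only [br_1, br_2, br_3, mk_1, mk_2, mk_3]; ring
    · simp only [br_1, br_2, br_3, mk_1, mk_2, mk_3]; ring
  rwa [e] at this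

lemma simple_aux (I : LieIdeal ℂ L) (a : L) (ha : a ∈ I) (h0 : a ≠ 0) : I = ⊤ := by
  have hs := s_ne
  have ht := t_ne
  by_cases h1 : a.1 = 0
  · by_cases h2 : a.2.1 = 0
    · have h3 : a.2.2 ≠ 0 := by
        intro h3; apply h0; exact L_ext h1 h2 h3
      apply top_of
      intro f
      have m1 := mem_bracket I (mk (1) (0) (0)) _ ha
      have m2 := mem_bracket I (mk (0) (0) (f / (s * t * a.2.2))) _ m1
      have e : ⁅(mk (0) (0) (f / (s * t * a.2.2))), ⁅(mk (1) (0) (0)), a⁆⁆ = (mk (f) (0) (0)) := by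
        apply L_ext
        · simp only [br_1, br_2, br_3, mk_1, mk_2, mk_3]; field_simp; ring
        · simp only [br_1, br_2, br_3, mk_1, mk_2, mk_3]; ring
        · simp only [br_1, br_2, br_3, mk_1, mk_2, mk_3]; ring
      rwa [e] at m2
    · apply top_of3
      intro f
      have m1 := mem_bracket I (mk (0) (0) (1)) _ ha
      have m2 := mem_bracket I (mk (0) (f / (-t * a.2.1)) (0)) _ m1
      have e : ⁅(mk (0) (f / (-t * a.2.1)) (0)), ⁅(mk (0) (0) (1)), a⁆⁆ = (mk (0) (0) (f)) := by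
        apply L_ext
        · simp only [br_1, br_2, br_3, mk_1, mk_2, mk_3]; ring
        · simp only [br_1, br_2, br_3, mk_1, mk_2, mk_3]; ring
        · simp only [br_1, br_2, br_3, mk_1, mk_2, mk_3]; field_simp; ring
      rwa [e] at m2
  · apply top_of2
    intro f
    have m1 := mem_bracket I (mk (0) (1) (0)) _ ha
    have m2 := mem_bracket I (mk (f / (-s * a.1)) (0) (0)) _ m1
    have e : ⁅(mk (f / (-s * a.1)) (0) (0)), ⁅(mk (0) (1) (0)), a⁆⁆ = (mk (0) (f) (0)) := by
      apply L_ext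
      · simp only [br_1, br_2, br_3, mk_1, mk_2, mk_3]; ring
      · simp only [br_1, br_2, br_3, mk_1, mk_2, mk_3]; field_simp; ring
      · simp only [br_1, br_2, br_3, mk_1, mk_2, mk_3]; ring
    rwa [e] at m2

lemma L_simple : LieAlgebra.IsSimple ℂ L where
  eq_bot_or_eq_top := by
    intro I
    by_cases h : I = ⊥
    · left; exact h
    · right
      obtain ⟨a, ha, h0⟩ := (Submodule.ne_bot_iff I.toSubmodule).1 (by
        intro h2; apply h
        exact (LieSubmodule.toSubmodule_eq_bot I).1 h2)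
      exact simple_aux I a ha h0
  non_abelian := by
    intro h
    have h1 : ⁅(mk (1) (0) (0)), (mk (0) (1) (0))⁆ = 0 := h.trivial _ _
    have h2 := congrArg (fun x : L => x.2.2) h1
    simp [br_3, zero_3] at h2

end Aux

open Aux in
/-- There is a field K and a simple Lie algebra L over K such that for every a in L, every finite-dimensional subspace of L invariant under ad a is killed by ad a. -/
theorem result :
    ∃ (K : Type) (_ : Field K) (L : Type) (_ : LieRing L) (_ : LieAlgebra K L),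
      LieAlgebra.IsSimple K L ∧
      ∀ a : L, ∀ V : Submodule K L, FiniteDimensional K V →
        (∀ v ∈ V, ⁅a, v⁆ ∈ V) → ∀ v ∈ V, ⁅a, v⁆ = 0 := by
  refine ⟨ℂ, inferInstance, Aux.L, inferInstance, inferInstance, L_simple, ?_⟩
  intro a V hV hinv v hv
  by_contra hne
  -- the subspace `W = [a, V]`, stable under `ad a`
  let T : V →ₗ[ℂ] V :=
    { toFun := fun w => ⟨⁅a, (w : Aux.L)⁆, hinv _ w.2⟩
      map_add' := by intro x y; apply Subtype.ext; simp
      map_smul' := by intro c x; apply Subtype.ext; simp }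
  let W := LinearMap.range T
  have hW : ∀ w ∈ W, (T ∘ₗ T) w ∈ W := fun w _ => ⟨T w, rfl⟩
  have hWn : Nontrivial W := by
    refine ⟨⟨⟨T ⟨v, hv⟩, ⟨_, rfl⟩⟩, 0, ?_⟩⟩
    intro h
    apply hne
    have := congrArg (fun x : W => ((x : V) : Aux.L)) h
    simpa [T] using this
  obtain ⟨μ, hμ⟩ := Module.End.exists_eigenvalue ((T ∘ₗ T).restrict hW)
  obtain ⟨w, hw, hw0⟩ := hμ.exists_hasEigenvector
  rw [Module.End.mem_eigenspace_iff] at hw
  have h1 : ⁅a, ⁅a, ((w : V) : Aux.L)⁆⁆ = μ • ((w : V) : Aux.L) := by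
    have := congrArg (fun x : W => ((x : V) : Aux.L)) hw
    simpa [T] using this
  obtain ⟨u, hu⟩ := w.2
  have h2 : ((w : V) : Aux.L) = ⁅a, (u : Aux.L)⁆ := by rw [← hu]; rfl
  have h3 := ad3 a u
  rw [← h2, h1] at h3
  have hw1 : ((w : V) : Aux.L) ≠ 0 := by
    intro h; apply hw0; apply Subtype.ext; apply Subtype.ext; exact h
  have hmap : ∀ c : ℂ, algebraMap ℂ F c = algebraMap P F (Polynomial.C (Polynomial.C c)) := by
    intro c
    rw [IsScalarTower.algebraMap_apply ℂ P F]
    rfl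
  have hk : κ a = algebraMap P F (Polynomial.C (Polynomial.C μ)) := by
    rw [← hmap]
    have e1 := congrArg (fun x : Aux.L => x.1) h3
    have e2 := congrArg (fun x : Aux.L => x.2.1) h3
    have e3 := congrArg (fun x : Aux.L => x.2.2) h3
    simp only [smul_1, smul_2, smul_3, Algebra.smul_def, mk_1, mk_2, mk_3] at e1 e2 e3
    by_contra hcon
    apply hw1
    have hsub : algebraMap ℂ F μ - κ a ≠ 0 := sub_ne_zero.2 (Ne.symm hcon)
    apply L_ext
    · have : (algebraMap ℂ F μ - κ a) * ((w : V) : Aux.L).1 = 0 := by linear_combination e1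
      exact (mul_eq_zero.1 this).resolve_left hsub
    · have : (algebraMap ℂ F μ - κ a) * ((w : V) : Aux.L).2.1 = 0 := by linear_combination e2
      exact (mul_eq_zero.1 this).resolve_left hsub
    · have : (algebraMap ℂ F μ - κ a) * ((w : V) : Aux.L).2.2 = 0 := by linear_combination e3
      exact (mul_eq_zero.1 this).resolve_left hsub
  obtain ⟨z1, z2, z3⟩ := aniso μ a.1 a.2.1 a.2.2 hk
  have ha : a = 0 := L_ext z1 z2 z3
  apply hne
  rw [ha, zero_lie]

end Pool.Agent.S1127
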