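import Pool.Statements.S1244

set_option autoImplicit false

namespace Pool.Agent.S1244
open Pool Pool.MP_196b75_an
open Complex Topology

/-- polynomial with prescribed coefficients -/
def pol (c1 c2 c3 c4 : ℂ) (z : ℂ) : ℂ := c1 * z^1 + (c2 * z^2 + (c3 * z^3 + c4 * z^4))

lemma cdiff {f : ℂ → ℂ} {n : ℕ} (h : AnalyticAt ℂ f 0) : ContDiffAt ℂ n f 0 := h.contDiffAt

lemma iter_mono (c : ℂ) (m n : ℕ) :
    iteratedDeriv n (fun z : ℂ => c * z^m) 0 = c * (((if n = m then m.factorial else 0 : ℕ)) : ℂ) := by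
  rw [iteratedDeriv_const_mul_field, iteratedDeriv_fun_pow_zero]

lemma iter_pol (c1 c2 c3 c4 : ℂ) (n : ℕ) :
    iteratedDeriv n (pol c1 c2 c3 c4) 0 = c1 * (((if n = 1 then (1:ℕ).factorial else 0 : ℕ)) : ℂ) +
      (c2 * (((if n = 2 then (2:ℕ).factorial else 0 : ℕ)) : ℂ) +
      (c3 * (((if n = 3 then (3:ℕ).factorial else 0 : ℕ)) : ℂ) +
       c4 * (((if n = 4 then (4:ℕ).factorial else 0 : ℕ)) : ℂ))) := by
  have hm : ∀ (c : ℂ) (m : ℕ), ContDiffAt ℂ n (fun z : ℂ => c * z^m) 0 := by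
    intro c m
    exact (contDiff_const.mul (contDiff_id.pow m)).contDiffAt
  show iteratedDeriv n (fun z : ℂ => c1 * z^1 + (c2 * z^2 + (c3 * z^3 + c4 * z^4))) 0 = _
  rw [iteratedDeriv_fun_add (hm _ _) ((hm _ _).add ((hm _ _).add (hm _ _))),
    iteratedDeriv_fun_add (hm _ _) ((hm _ _).add (hm _ _)),
    iteratedDeriv_fun_add (hm _ _) (hm _ _), iter_mono, iter_mono, iter_mono, iter_mono]

lemma iter_rem (R : ℂ → ℂ) (hR : AnalyticAt ℂ R 0) (n : ℕ) (hn : n < 5) :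
    iteratedDeriv n (fun z : ℂ => z^5 * R z) 0 = 0 := by
  have h5 : ContDiffAt ℂ n (fun z : ℂ => z^5) 0 := (contDiff_id.pow 5).contDiffAt
  rw [iteratedDeriv_fun_mul h5 hR.contDiffAt]
  apply Finset.sum_eq_zero
  intro i hi
  rw [Finset.mem_range] at hi
  rw [iteratedDeriv_fun_pow_zero, if_neg (by omega)]
  simp

lemma iter_h (f R : ℂ → ℂ) (c1 c2 c3 c4 : ℂ) (hR : AnalyticAt ℂ R 0)
    (h : f =ᶠ[𝓝 0] fun z => pol c1 c2 c3 c4 z + z^5 * R z) (n : ℕ) (hn : n < 5) :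
    iteratedDeriv n f 0 = iteratedDeriv n (pol c1 c2 c3 c4) 0 := by
  rw [h.iteratedDeriv_eq n, iteratedDeriv_fun_add, iter_rem R hR n hn, add_zero]
  · unfold pol
    fun_prop
  · exact ((analyticAt_id.pow 5).mul hR).contDiffAt

/-! ### the univalent function -/

noncomputable def ep : ℂ := (1023 - 64 * I) / 1025

lemma norm_ep : ‖ep‖ = 1 := by
  have h : normSq ep = 1 := by
    unfold ep
    rw [normSq_div]
    have h1 : normSq (1023 - 64 * I) = 1023^2 + 64^2 := by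
      rw [normSq_apply]; simp; norm_num
    have h2 : normSq (1025:ℂ) = 1025^2 := by
      rw [normSq_apply]; simp; norm_num
    rw [h1, h2]; norm_num
  rw [← sq_eq_sq₀ (norm_nonneg _) (by norm_num), Complex.sq_norm, h]; norm_num

noncomputable def Q (z : ℂ) : ℂ := 1 + z / (1 - z)^2

noncomputable def T (z : ℂ) : ℂ := exp (log (Q z) / 2)

lemma one_sub_ne {z : ℂ} (hz : ‖z‖ < 1) : 1 - z ≠ 0 := by
  intro h
  have : z = 1 := (sub_eq_zero.mp h).symm
  rw [this] at hz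
  simp at hz

lemma Q_slit {z : ℂ} (hz : ‖z‖ < 1) : Q z ∈ slitPlane := by
  have h1 := one_sub_ne hz
  have hv : 0 < ((1 + z) / (1 - z)).re := by
    rw [Complex.div_re]
    have hn : 0 < normSq (1 - z) := normSq_pos.mpr h1
    have : (1 + z).re * (1 - z).re / normSq (1 - z) + (1 + z).im * (1 - z).im / normSq (1 - z) =
        (1 - normSq z) / normSq (1 - z) := by
      rw [← add_div]
      congr 1
      rw [normSq_apply]
      simp
      ring
    rw [this]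
    apply div_pos _ hn
    rw [← Complex.sq_norm]
    nlinarith [norm_nonneg z]
  have hQ : Q z = (3 + ((1 + z) / (1 - z))^2) / 4 := by
    unfold Q
    field_simp
    ring
  set v := (1 + z) / (1 - z) with hvdef
  rw [mem_slitPlane_iff]
  by_contra hcon
  push Not at hcon
  obtain ⟨hre, him⟩ := hcon
  rw [hQ] at hre him
  have e1 : ((3 + v^2) / 4).im = v.re * v.im / 2 := by
    have : ((3 + v^2) / 4).im = (3 + v^2).im / 4 := by
      rw [show (4:ℂ) = ((4:ℝ):ℂ) by norm_num, Complex.div_ofReal_im]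
    rw [this, sq]
    simp
    ring
  have e2 : ((3 + v^2) / 4).re = (3 + v.re^2 - v.im^2) / 4 := by
    have : ((3 + v^2) / 4).re = (3 + v^2).re / 4 := by
      rw [show (4:ℂ) = ((4:ℝ):ℂ) by norm_num, Complex.div_ofReal_re]
    rw [this, sq]
    simp
    ring
  rw [e1] at him
  rw [e2] at hre
  have him0 : v.im = 0 := by
    have : v.re * v.im = 0 := by linarith
    rcases mul_eq_zero.mp this with h | h
    · exact absurd h hv.ne'
    · exact h
  rw [him0] at hre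
  nlinarith

lemma T_sq {z : ℂ} (hz : ‖z‖ < 1) : T z ^ 2 = Q z := by
  unfold T
  rw [← Complex.exp_nat_mul]
  have : ((2:ℕ):ℂ) * (log (Q z) / 2) = log (Q z) := by push_cast; ring
  rw [this, Complex.exp_log (slitPlane_ne_zero (Q_slit hz))]

lemma T_re {z : ℂ} (hz : ‖z‖ < 1) : 0 < (T z).re := by
  unfold T
  rw [Complex.exp_re]
  apply mul_pos (Real.exp_pos _)
  have h1 : (log (Q z) / 2).im = arg (Q z) / 2 := by
    rw [show (2:ℂ) = ((2:ℝ):ℂ) by norm_num, Complex.div_ofReal_im, Complex.log_im]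
  rw [h1]
  have h2 := Complex.neg_pi_lt_arg (Q z)
  have h3 := Complex.arg_le_pi (Q z)
  have h4 : arg (Q z) ≠ Real.pi := by
    have := Q_slit hz
    rw [mem_slitPlane_iff_arg] at this
    exact this.1
  have h5 : arg (Q z) < Real.pi := lt_of_le_of_ne h3 h4
  apply Real.cos_pos_of_mem_Ioo
  constructor <;> linarith

lemma T_zero : T 0 = 1 := by
  unfold T Q
  simp

lemma Q_an {z : ℂ} (hz : ‖z‖ < 1) : AnalyticAt ℂ Q z := by
  unfold Q
  have h1 := one_sub_ne hz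
  exact analyticAt_const.add (analyticAt_id.div ((analyticAt_const.sub analyticAt_id).pow 2) (pow_ne_zero 2 h1))

lemma T_an {z : ℂ} (hz : ‖z‖ < 1) : AnalyticAt ℂ T z := by
  unfold T
  have h1 : AnalyticAt ℂ (fun z => log (Q z)) z := (Q_an hz).clog (Q_slit hz)
  exact (h1.div analyticAt_const (by norm_num)).cexp

noncomputable def h (z : ℂ) : ℂ := 4 * (z / (1 - z)^2) / ((1 + ep) + (1 - ep) * T z)^2

lemma D_ne {t : ℂ} (ht : 0 < t.re) : (1 + ep) + (1 - ep) * t ≠ 0 := by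
  intro h0
  have h1 : (1 + t) = ep * (t - 1) := by linear_combination h0
  have h2 : ‖1 + t‖ = ‖t - 1‖ := by rw [h1, norm_mul, norm_ep, one_mul]
  have h3 : normSq (1 + t) = normSq (t - 1) := by rw [← Complex.sq_norm, ← Complex.sq_norm, h2]
  rw [normSq_apply, normSq_apply] at h3
  simp at h3
  nlinarith

lemma T_inj_aux {t1 t2 : ℂ} (h1 : 0 < t1.re) (h2 : 0 < t2.re)
    (h : (t1^2 - 1) * ((1 + ep) + (1 - ep) * t2)^2 = (t2^2 - 1) * ((1 + ep) + (1 - ep) * t1)^2) : t1 = t2 := by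
  have hf : (t1 - t2) * ((1 + t1) * (1 + t2) - ep^2 * ((1 - t1) * (1 - t2))) = 0 := by
    linear_combination (1/2) * h
  rcases mul_eq_zero.mp hf with h3 | h3
  · exact sub_eq_zero.mp h3
  · exfalso
    have h4 : (1 + t1) * (1 + t2) = ep^2 * ((1 - t1) * (1 - t2)) := sub_eq_zero.mp h3
    have h5 : ‖1 + t1‖ * ‖1 + t2‖ = ‖1 - t1‖ * ‖1 - t2‖ := by
      rw [← norm_mul, h4, norm_mul, norm_pow, norm_ep, norm_mul]; ring
    have key : ∀ t : ℂ, 0 < t.re → ‖1 - t‖ < ‖1 + t‖ := by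
      intro t ht
      rw [← sq_lt_sq₀ (norm_nonneg _) (norm_nonneg _), Complex.sq_norm, Complex.sq_norm, normSq_apply, normSq_apply]
      simp
      nlinarith
    have k1 := key t1 h1
    have k2 := key t2 h2
    have := mul_lt_mul'' k1 k2 (norm_nonneg _) (norm_nonneg _)
    linarith

lemma h_inj : Set.InjOn h (Metric.ball (0:ℂ) 1) := by
  intro z1 hz1 z2 hz2 heq
  rw [mem_ball_zero_iff] at hz1 hz2
  have n1 := one_sub_ne hz1
  have n2 := one_sub_ne hz2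
  have d1 := D_ne (T_re hz1)
  have d2 := D_ne (T_re hz2)
  have q1 : z1 / (1 - z1)^2 = T z1 ^2 - 1 := by rw [T_sq hz1]; unfold Q; ring
  have q2 : z2 / (1 - z2)^2 = T z2 ^2 - 1 := by rw [T_sq hz2]; unfold Q; ring
  have hT : T z1 = T z2 := by
    apply T_inj_aux (T_re hz1) (T_re hz2)
    unfold h at heq
    rw [q1, q2, div_eq_div_iff (pow_ne_zero 2 d1) (pow_ne_zero 2 d2)] at heq
    linear_combination (1/4) * heq
  have hk : z1 / (1 - z1)^2 = z2 / (1 - z2)^2 := by rw [q1, q2, hT]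
  rw [div_eq_div_iff (pow_ne_zero 2 n1) (pow_ne_zero 2 n2)] at hk
  have hf : (z1 - z2) * (1 - z1 * z2) = 0 := by linear_combination hk
  rcases mul_eq_zero.mp hf with h3 | h3
  · exact sub_eq_zero.mp h3
  · exfalso
    have h4 : z1 * z2 = 1 := (sub_eq_zero.mp h3).symm
    have h5 : ‖z1‖ * ‖z2‖ = 1 := by rw [← norm_mul, h4, norm_one]
    nlinarith [norm_nonneg z1, norm_nonneg z2]

lemma h_an {z : ℂ} (hz : ‖z‖ < 1) : AnalyticAt ℂ h z := by
  have n1 := one_sub_ne hz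
  have hk : AnalyticAt ℂ (fun z : ℂ => 4 * (z / (1 - z)^2)) z :=
    analyticAt_const.mul (analyticAt_id.div ((analyticAt_const.sub analyticAt_id).pow 2) (pow_ne_zero 2 n1))
  have hD : AnalyticAt ℂ (fun z : ℂ => ((1 + ep) + (1 - ep) * T z)^2) z :=
    (analyticAt_const.add (analyticAt_const.mul (T_an hz))).pow 2
  exact hk.div hD (pow_ne_zero 2 (D_ne (T_re hz)))

lemma h_diff : DifferentiableOn ℂ h (Metric.ball (0:ℂ) 1) := by
  intro z hz
  rw [mem_ball_zero_iff] at hz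
  exact (h_an hz).differentiableAt.differentiableWithinAt


noncomputable def Th (z : ℂ) : ℂ := 1 + z/2 + (7/8)*z^2 + (17/16)*z^3

noncomputable def Nn (z : ℂ) : ℂ := (139/64) + (-77/64)*z^1 + (195/256)*z^2 + (51/128)*z^3 + (-289/256)*z^4

noncomputable def Ss (z : ℂ) : ℂ := Nn z / ((1-z)^2 * (T z + Th z))

noncomputable def Mm (d z : ℂ) : ℂ := (5) + (-27/4)*d^1 + (831/256)*d^2 + (-29/64)*d^3 + (5/256)*d^4 + (-4)*z^1 + (109/16)*z^1*d^1 + (-771/256)*z^1*d^2 + (365/512)*z^1*d^3 + (-23/256)*z^1*d^4 + (1/256)*z^1*d^5 + (19/8)*z^2*d^1 + (-2653/1024)*z^2*d^2 + (1783/2048)*z^2*d^3 + (-507/4096)*z^2*d^4 + (3/512)*z^2*d^5 + (29/16)*z^3*d^1 + (-327/128)*z^3*d^2 + (3753/4096)*z^3*d^3 + (-979/8192)*z^3*d^4 + (21/4096)*z^3*d^5 + (-17/4)*z^4*d^1 + (767/128)*z^4*d^2 + (-20451/8192)*z^4*d^3 + (5567/16384)*z^4*d^4 + (-59/4096)*z^4*d^5 + (127/256)*z^5*d^2 + (-14203/16384)*z^5*d^3 + (7047/32768)*z^5*d^4 + (-195/16384)*z^5*d^5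 + (-459/1024)*z^6*d^2 + (51/512)*z^6*d^3 + (51/1024)*z^6*d^4 + (-51/8192)*z^6*d^5 + (-289/256)*z^7*d^2 + (19941/16384)*z^7*d^3 + (-9537/32768)*z^7*d^4 + (289/16384)*z^7*d^5

noncomputable def al2 (d : ℂ) : ℂ := 2 - (1/2)*d
noncomputable def al3 (d : ℂ) : ℂ := 3 - (15/8)*d + (3/16)*d^2
noncomputable def al4 (d : ℂ) : ℂ := 4 - (69/16)*d + (33/32)*d^2 - (1/16)*d^3

noncomputable def P1 (d z : ℂ) : ℂ := 1 + al2 d * z + al3 d * z^2 + al4 d * z^3

lemma Mid (d z : ℂ) : 1 - P1 d z * (1 - z)^2 * (1 + (d/2) * (Th z - 1))^2 = z^4 * Mm d z := by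
  unfold P1 al2 al3 al4 Th Mm
  ring

lemma Nid (z : ℂ) : (1 - z + z^2) - (1-z)^2 * Th z ^2 = z^4 * Nn z := by
  unfold Th Nn
  ring

noncomputable def Ee (z : ℂ) : ℂ := 1 + ((1 - ep)/2) * (T z - 1)

noncomputable def Rr (z : ℂ) : ℂ :=
  (Mm (1 - ep) z - P1 (1 - ep) z * (1 - z)^2 * ((1 - ep) * Ss z * (1 + ((1 - ep)/2) * (Th z - 1)) +
    ((1 - ep)^2/4) * z^4 * (Ss z)^2)) / ((1 - z)^2 * (Ee z)^2)

lemma an_T0 : AnalyticAt ℂ T 0 := T_an (by simp)

lemma Th_zero : Th 0 = 1 := by simp [Th]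

lemma an_pol : AnalyticAt ℂ Th 0 := by unfold Th; fun_prop

lemma an_S : AnalyticAt ℂ Ss 0 := by
  unfold Ss
  have h1 : AnalyticAt ℂ Nn 0 := by unfold Nn; fun_prop
  have h2 : AnalyticAt ℂ (fun z => (1-z)^2 * (T z + Th z)) 0 :=
    ((analyticAt_const.sub analyticAt_id).pow 2).mul (an_T0.add an_pol)
  apply h1.div h2
  simp [T_zero, Th_zero]

lemma an_E : AnalyticAt ℂ Ee 0 := by
  unfold Ee
  exact analyticAt_const.add (analyticAt_const.mul (an_T0.sub analyticAt_const))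

lemma E_zero : Ee 0 = 1 := by simp [Ee, T_zero]

lemma an_R : AnalyticAt ℂ Rr 0 := by
  unfold Rr
  have hM : AnalyticAt ℂ (Mm (1 - ep)) 0 := by unfold Mm; fun_prop
  have hP : AnalyticAt ℂ (P1 (1 - ep)) 0 := by unfold P1; fun_prop
  have hT : AnalyticAt ℂ Th 0 := an_pol
  have hS := an_S
  have hE := an_E
  have hnum : AnalyticAt ℂ (fun z => (Mm (1 - ep) z - P1 (1 - ep) z * (1 - z)^2 *
    ((1 - ep) * Ss z * (1 + ((1 - ep)/2) * (Th z - 1)) +
    ((1 - ep)^2/4) * z^4 * (Ss z)^2))) 0 := by fun_prop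
  have hden : AnalyticAt ℂ (fun z => (1 - z)^2 * (Ee z)^2) 0 := by fun_prop
  apply hnum.div hden
  simp [E_zero]

lemma h_taylor : h =ᶠ[𝓝 0] fun z => pol 1 (al2 (1 - ep)) (al3 (1 - ep)) (al4 (1 - ep)) z + z^5 * Rr z := by
  have e1 : ∀ᶠ z in 𝓝 (0:ℂ), T z + Th z ≠ 0 := by
    apply (an_T0.add an_pol).continuousAt.eventually_ne
    simp [T_zero, Th_zero]
  have e2 : ∀ᶠ z in 𝓝 (0:ℂ), Ee z ≠ 0 := by
    apply an_E.continuousAt.eventually_ne
    simp [E_zero]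
  have e3 : ∀ᶠ z in 𝓝 (0:ℂ), ‖z‖ < 1 := by
    have := Metric.ball_mem_nhds (0:ℂ) one_pos
    filter_upwards [this] with z hz
    rwa [mem_ball_zero_iff] at hz
  filter_upwards [e1, e2, e3] with z h1 h2 h3
  have n1 := one_sub_ne h3
  have hTS : T z = Th z + z^4 * Ss z := by
    have hsq : (1 - z)^2 * T z^2 = 1 - z + z^2 := by
      rw [T_sq h3]
      unfold Q
      field_simp
      ring
    have : (T z - Th z) * ((1-z)^2 * (T z + Th z)) = z^4 * Nn z := by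
      rw [← Nid]
      linear_combination hsq
    have h5 : T z - Th z = z^4 * Ss z := by
      unfold Ss
      rw [← mul_div_assoc, eq_div_iff (mul_ne_zero (pow_ne_zero 2 n1) h1)]
      exact this
    linear_combination h5
  have hE : Ee z = (1 + ((1 - ep)/2) * (Th z - 1)) + ((1 - ep)/2) * z^4 * Ss z := by
    unfold Ee
    rw [hTS]
    ring
  have hh : h z = z / ((1 - z)^2 * (Ee z)^2) := by
    unfold h
    have : (1 + ep) + (1 - ep) * T z = 2 * Ee z := by unfold Ee; ring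
    rw [this]
    field_simp
    ring
  rw [hh]
  have hMid := Mid (1 - ep) z
  have hp : pol 1 (al2 (1 - ep)) (al3 (1 - ep)) (al4 (1 - ep)) z = z * P1 (1 - ep) z := by
    unfold pol P1; ring
  rw [hp]
  unfold Rr
  rw [div_eq_iff (mul_ne_zero (pow_ne_zero 2 n1) (pow_ne_zero 2 h2)), add_mul, mul_assoc (z^5) , div_mul_cancel₀ _ (mul_ne_zero (pow_ne_zero 2 n1) (pow_ne_zero 2 h2))]
  generalize Mm (1 - ep) z = M at *
  generalize P1 (1 - ep) z = P at *
  generalize Ss z = S at *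
  generalize Th z = H at *
  rw [hE]
  linear_combination z * hMid

/-! ### the polynomial `g` -/

noncomputable def b2 : ℂ := 8 + 6 * I
noncomputable def b3 : ℂ := 8 - 7 * I
noncomputable def b4 : ℂ := 2 + 3 * I
noncomputable def rr : ℝ := 99999/100000
noncomputable def sg : ℂ := b2 * al2 (1 - ep) * (rr:ℂ) + b3 * al3 (1 - ep) * (rr:ℂ)^2 + b4 * al4 (1 - ep) * (rr:ℂ)^3

lemma d_eq : (1 - ep) = ⟨2/1025, 64/1025⟩ := by
  unfold ep
  apply Complex.ext
  · have : ((1023 - 64 * I) / 1025 : ℂ).re = 1023/1025 := by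
      rw [show (1025:ℂ) = ((1025:ℝ):ℂ) by norm_num, Complex.div_ofReal_re]
      simp
    rw [Complex.sub_re, this]; norm_num
  · have : ((1023 - 64 * I) / 1025 : ℂ).im = -64/1025 := by
      rw [show (1025:ℂ) = ((1025:ℝ):ℂ) by norm_num, Complex.div_ofReal_im]
      simp
    rw [Complex.sub_im, this]; norm_num

lemma d2_eq : (1 - ep)^2 = ⟨-4092/1050625, 256/1050625⟩ := by
  rw [d_eq, sq]
  apply Complex.ext
  · rw [Complex.mul_re]; norm_num
  · rw [Complex.mul_im]; norm_num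

lemma d3_eq : (1 - ep)^3 = ⟨-24568/1076890625, -261376/1076890625⟩ := by
  rw [pow_succ, d2_eq, d_eq]
  apply Complex.ext
  · rw [Complex.mul_re]; norm_num
  · rw [Complex.mul_im]; norm_num

lemma real_mul_re (a : ℝ) (z : ℂ) : ((a:ℂ) * z).re = a * z.re := by simp
lemma real_mul_im (a : ℝ) (z : ℂ) : ((a:ℂ) * z).im = a * z.im := by simp

lemma al2_eq : al2 (1 - ep) = ⟨2049/1025, -32/1025⟩ := by
  unfold al2
  rw [d_eq]
  apply Complex.ext
  · rw [Complex.sub_re, show (1/2:ℂ) = ((1/2:ℝ):ℂ) by norm_num, real_mul_re]; norm_num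
  · rw [Complex.sub_im, show (1/2:ℂ) = ((1/2:ℝ):ℂ) by norm_num, real_mul_im]; norm_num

lemma al3_eq : al3 (1 - ep) = ⟨3147264/1050625, -122952/1050625⟩ := by
  unfold al3
  rw [d2_eq, d_eq]
  apply Complex.ext
  · rw [Complex.add_re, Complex.sub_re, show (15/8:ℂ) = ((15/8:ℝ):ℂ) by norm_num, real_mul_re,
      show (3/16:ℂ) = ((3/16:ℝ):ℂ) by norm_num, real_mul_re]; norm_num
  · rw [Complex.add_im, Complex.sub_im, show (15/8:ℂ) = ((15/8:ℝ):ℂ) by norm_num, real_mul_im,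
      show (3/16:ℂ) = ((3/16:ℝ):ℂ) by norm_num, real_mul_im]; norm_num

lemma al4_eq : al4 (1 - ep) = ⟨4294177023/1076890625, -289685564/1076890625⟩ := by
  unfold al4
  rw [d3_eq, d2_eq, d_eq]
  apply Complex.ext
  · rw [Complex.sub_re, Complex.add_re, Complex.sub_re, show (69/16:ℂ) = ((69/16:ℝ):ℂ) by norm_num, real_mul_re,
      show (33/32:ℂ) = ((33/32:ℝ):ℂ) by norm_num, real_mul_re,
      show (1/16:ℂ) = ((1/16:ℝ):ℂ) by norm_num, real_mul_re]; norm_num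
  · rw [Complex.sub_im, Complex.add_im, Complex.sub_im, show (69/16:ℂ) = ((69/16:ℝ):ℂ) by norm_num, real_mul_im,
      show (33/32:ℂ) = ((33/32:ℝ):ℂ) by norm_num, real_mul_im,
      show (1/16:ℂ) = ((1/16:ℝ):ℂ) by norm_num, real_mul_im]; norm_num

lemma b2_eq : b2 = ⟨8, 6⟩ := by apply Complex.ext <;> simp [b2]
lemma b3_eq : b3 = ⟨8, -7⟩ := by apply Complex.ext <;> simp [b3]
lemma b4_eq : b4 = ⟨2, 3⟩ := by apply Complex.ext <;> simp [b4]

lemma sg_eq : sg = ⟨375831774623653256511/7812500000000000000, 19743391996753139379/15625000000000000000⟩ := by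
  unfold sg rr
  rw [al2_eq, al3_eq, al4_eq, b2_eq, b3_eq, b4_eq]
  rw [← Complex.ofReal_pow, ← Complex.ofReal_pow]
  apply Complex.ext
  · simp only [Complex.add_re, Complex.mul_re, Complex.mul_im, Complex.ofReal_re, Complex.ofReal_im]
    norm_num
  · simp only [Complex.add_im, Complex.mul_re, Complex.mul_im, Complex.ofReal_re, Complex.ofReal_im]
    norm_num

lemma sg_norm : 4 * (31840 * 4 / 55 : ℝ) < 4 * ‖sg‖^2 := by
  rw [Complex.sq_norm, sg_eq, normSq_apply]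
  norm_num

lemma sg_ne : sg ≠ 0 := by
  intro h
  have := sg_norm
  rw [h] at this
  norm_num at this

noncomputable def Aa (z : ℂ) : ℂ := b2 + 2 * b3 * z + 3 * b4 * z^2
noncomputable def Bb (z : ℂ) : ℂ := 3 * b2 + 4 * b3 * z + 5 * b4 * z^2

lemma circle_bound (z : ℂ) (hz : ‖z‖ = 1) : 11 * ‖Aa z‖^2 + 5 * ‖Bb z‖^2 ≤ 31840 := by
  have hN : z.re^2 + z.im^2 = 1 := by
    have : normSq z = 1 := by rw [← Complex.sq_norm, hz]; norm_num
    rw [normSq_apply] at this; linarith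
  obtain ⟨c, s⟩ := z
  simp only at hN
  have hA : Aa ⟨c, s⟩ = ⟨8 + 16*c + 14*s + 6*(c^2 - s^2) - 18*c*s, 6 + 16*s - 14*c + 9*(c^2-s^2) + 12*c*s⟩ := by
    unfold Aa
    rw [b2_eq, b3_eq, b4_eq]
    apply Complex.ext
    · simp [pow_two]; ring
    · simp [pow_two]; ring
  have hB : Bb ⟨c, s⟩ = ⟨24 + 32*c + 28*s + 10*(c^2 - s^2) - 30*c*s, 18 + 32*s - 28*c + 15*(c^2-s^2) + 20*c*s⟩ := by
    unfold Bb
    rw [b2_eq, b3_eq, b4_eq]
    apply Complex.ext
    · simp [pow_two]; ring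
    · simp [pow_two]; ring
  rw [Complex.sq_norm, Complex.sq_norm, hA, hB, normSq_apply, normSq_apply]
  simp only
  have hQ : 0 ≤ 15724 * (936 - 1948*c - 4440*s + 1036*c^2 + 5184*c*s + 15724*s^2) := by
    nlinarith [sq_nonneg (15724*s + 2592*c - 2220), sq_nonneg (c * 9571600 - 9560936)]
  have e : 11 * ((8 + 16*c + 14*s + 6*(c^2 - s^2) - 18*c*s) * (8 + 16*c + 14*s + 6*(c^2 - s^2) - 18*c*s) +
      (6 + 16*s - 14*c + 9*(c^2-s^2) + 12*c*s) * (6 + 16*s - 14*c + 9*(c^2-s^2) + 12*c*s)) +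
      5 * ((24 + 32*c + 28*s + 10*(c^2 - s^2) - 30*c*s) * (24 + 32*c + 28*s + 10*(c^2 - s^2) - 30*c*s) +
      (18 + 32*s - 28*c + 15*(c^2-s^2) + 20*c*s) * (18 + 32*s - 28*c + 15*(c^2-s^2) + 20*c*s)) =
      31840 - (936 - 1948*c - 4440*s + 1036*c^2 + 5184*c*s + 15724*s^2) := by
    linear_combination (2912*c^2 - 1660*c + 2912*s^2 - 12616*s + 25304) * hN
  rw [e]
  linarith

lemma circle_sum (z : ℂ) (hz : ‖z‖ = 1) : (‖Aa z‖ + ‖Bb z‖)^2 ≤ 31840 * 16 / 55 := by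
  have h1 := circle_bound z hz
  have h2 : 55 * (‖Aa z‖ + ‖Bb z‖)^2 ≤ 16 * (11 * ‖Aa z‖^2 + 5 * ‖Bb z‖^2) := by
    nlinarith [sq_nonneg (11 * ‖Aa z‖ - 5 * ‖Bb z‖)]
  linarith

noncomputable def KK : ℝ := Real.sqrt (31840 * 16 / 55)

lemma circle_sum' (z : ℂ) (hz : ‖z‖ = 1) : ‖Aa z‖ + ‖Bb z‖ ≤ KK := by
  unfold KK
  apply Real.le_sqrt_of_sq_le
  exact circle_sum z hz

lemma exists_unit (w : ℂ) : ∃ u : ℂ, ‖u‖ = 1 ∧ u * w = (‖w‖ : ℂ) := by
  by_cases hw : w = 0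
  · exact ⟨1, by simp, by simp [hw]⟩
  · refine ⟨(‖w‖:ℂ) / w, ?_, ?_⟩
    · rw [norm_div, Complex.norm_real, norm_norm, div_self (norm_ne_zero_iff.mpr hw)]
    · field_simp

lemma disc_sum (z : ℂ) (hz : ‖z‖ < 1) : ‖Aa z‖ + ‖Bb z‖ ≤ KK := by
  obtain ⟨u1, hu1, e1⟩ := exists_unit (Aa z)
  obtain ⟨u2, hu2, e2⟩ := exists_unit (Bb z)
  have hd : Differentiable ℂ (fun w => u1 * Aa w + u2 * Bb w) := by
    unfold Aa Bb
    fun_prop
  have hmax := Complex.norm_le_of_forall_mem_frontier_norm_le (f := fun w => u1 * Aa w + u2 * Bb w)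
    (U := Metric.ball (0:ℂ) 1) Metric.isBounded_ball hd.diffContOnCl (C := KK) (by
      intro w hw
      rw [frontier_ball (0:ℂ) one_ne_zero] at hw
      have hw1 : ‖w‖ = 1 := by simpa using hw
      calc ‖u1 * Aa w + u2 * Bb w‖ ≤ ‖u1 * Aa w‖ + ‖u2 * Bb w‖ := norm_add_le _ _
        _ = ‖Aa w‖ + ‖Bb w‖ := by rw [norm_mul, norm_mul, hu1, hu2, one_mul, one_mul]
        _ ≤ KK := circle_sum' w hw1) (z := z) (by
      apply subset_closure
      rwa [mem_ball_zero_iff])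
  rw [e1, e2, ← Complex.ofReal_add, Complex.norm_real, Real.norm_eq_abs,
    abs_of_nonneg (add_nonneg (norm_nonneg _) (norm_nonneg _))] at hmax
  exact hmax

lemma KK_lt : KK < 2 * ‖sg‖ := by
  unfold KK
  rw [Real.sqrt_lt' (by have := norm_pos_iff.mpr sg_ne; linarith)]
  have := sg_norm
  nlinarith

noncomputable def cc : ℂ := -1 / sg

noncomputable def gg : ℂ → ℂ := pol 1 (cc * b2) (cc * b3) (cc * b4)

lemma gg_diff : Differentiable ℂ gg := by
  unfold gg pol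
  fun_prop

lemma gg_deriv (z : ℂ) : deriv gg z = 1 + cc * b2 * (2 * z) + cc * b3 * (3 * z^2) + cc * b4 * (4 * z^3) := by
  have : HasDerivAt gg (1 * (((1:ℕ):ℂ) * z^0 ) + ((cc * b2) * (((2:ℕ):ℂ) * z^1) + ((cc * b3) * (((3:ℕ):ℂ) * z^2) + (cc * b4) * (((4:ℕ):ℂ) * z^3)))) z := by
    unfold gg pol
    exact ((hasDerivAt_pow 1 z).const_mul _).add (((hasDerivAt_pow 2 z).const_mul _).add
      (((hasDerivAt_pow 3 z).const_mul _).add ((hasDerivAt_pow 4 z).const_mul _)))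
  rw [this.deriv]
  push_cast
  ring

lemma gg_cond (z : ℂ) (hz : z ∈ Metric.ball (0:ℂ) 1) (hz0 : z ≠ 0) :
    ‖(deriv gg z - 1) - (gg z - z) / z‖ + ‖(deriv gg z - 1) + (gg z - z) / z‖ < 2 := by
  rw [mem_ball_zero_iff] at hz
  have e1 : (deriv gg z - 1) - (gg z - z) / z = cc * z * Aa z := by
    rw [gg_deriv]
    unfold gg pol Aa
    field_simp
    ring
  have e2 : (deriv gg z - 1) + (gg z - z) / z = cc * z * Bb z := by
    rw [gg_deriv]
    unfold gg pol Bb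
    field_simp
    ring
  rw [e1, e2, norm_mul, norm_mul _ (Bb z), norm_mul, ← mul_add]
  have hsp := norm_pos_iff.mpr sg_ne
  have hc : ‖cc‖ = 1 / ‖sg‖ := by
    unfold cc
    rw [norm_div, norm_neg, norm_one]
  rw [hc]
  have h1 := disc_sum z hz
  have h2 := KK_lt
  have h3 : 0 ≤ ‖Aa z‖ + ‖Bb z‖ := add_nonneg (norm_nonneg _) (norm_nonneg _)
  have h4 : ‖z‖ * (‖Aa z‖ + ‖Bb z‖) < 2 * ‖sg‖ := by
    calc ‖z‖ * (‖Aa z‖ + ‖Bb z‖) ≤ 1 * (‖Aa z‖ + ‖Bb z‖) := by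
          apply mul_le_mul_of_nonneg_right hz.le h3
      _ < 2 * ‖sg‖ := by linarith
  rw [mul_assoc, div_mul_eq_mul_div, one_mul, div_lt_iff₀ hsp]
  exact h4

lemma rr_norm : ‖(rr:ℂ)‖ = rr := by
  rw [Complex.norm_real, Real.norm_eq_abs, abs_of_pos]
  norm_num [rr]

end Pool.Agent.S1244

open Pool Pool.MP_196b75_an

namespace Pool.Agent.S1244

/-- The negation of the preceding statement: Every normalized analytic g on the unit disk with ∣(g'−1)−(g−z)/z∣+∣(g'−1)+(g−z)/z∣<2 throughout the disk has Hadamard product with every normalized univalent h nonvanishing for 0<∣z∣<1. -/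
theorem result :
    ¬ (∀ g : ℂ → ℂ, DifferentiableOn ℂ g (Metric.ball (0 : ℂ) 1) → g 0 = 0 → deriv g 0 = 1 →
      (∀ z : ℂ, z ∈ Metric.ball (0 : ℂ) 1 → z ≠ 0 →
        ‖(deriv g z - 1) - (g z - z) / z‖ + ‖(deriv g z - 1) + (g z - z) / z‖ < 2) →
      ∀ h : ℂ → ℂ, DifferentiableOn ℂ h (Metric.ball (0 : ℂ) 1) → h 0 = 0 → deriv h 0 = 1 →
        Set.InjOn h (Metric.ball (0 : ℂ) 1) →
        ∀ z : ℂ, 0 < ‖z‖ → ‖z‖ < 1 →
          (∑' n : ℕ, (iteratedDeriv n g 0 / (n.factorial : ℂ)) *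
              (iteratedDeriv n h 0 / (n.factorial : ℂ)) * z ^ n) ≠ 0) := by
  intro H
  have hh0 : h 0 = 0 := by simp [h]
  have hh1 : deriv h 0 = 1 := by
    rw [← iteratedDeriv_one, iter_h h Rr _ _ _ _ an_R h_taylor 1 (by norm_num), iter_pol]
    norm_num
  have hg0 : gg 0 = 0 := by simp [gg, pol]
  have hg1 : deriv gg 0 = 1 := by rw [gg_deriv]; simp
  have := H gg gg_diff.differentiableOn hg0 hg1 gg_cond h h_diff hh0 hh1 h_inj (rr:ℂ)
    (by rw [rr_norm]; norm_num [rr]) (by rw [rr_norm]; norm_num [rr])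
  apply this
  have hvan : ∀ n ∉ Finset.range 5, (iteratedDeriv n gg 0 / (n.factorial : ℂ)) *
              (iteratedDeriv n h 0 / (n.factorial : ℂ)) * (rr:ℂ) ^ n = 0 := by
    intro n hn
    rw [Finset.mem_range] at hn
    have : iteratedDeriv n gg 0 = 0 := by
      unfold gg
      rw [iter_pol, if_neg (by omega), if_neg (by omega), if_neg (by omega), if_neg (by omega)]
      simp
    rw [this]
    simp
  rw [tsum_eq_sum hvan]
  have hcoef : ∀ n, n < 5 → iteratedDeriv n h 0 = iteratedDeriv n (pol 1 (al2 (1 - ep)) (al3 (1 - ep)) (al4 (1 - ep))) 0 :=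
    fun n hn => iter_h h Rr _ _ _ _ an_R h_taylor n hn
  rw [Finset.sum_range_succ, Finset.sum_range_succ, Finset.sum_range_succ, Finset.sum_range_succ, Finset.sum_range_succ, Finset.sum_range_zero]
  rw [hcoef 0 (by norm_num), hcoef 1 (by norm_num), hcoef 2 (by norm_num), hcoef 3 (by norm_num), hcoef 4 (by norm_num)]
  unfold gg
  rw [iter_pol, iter_pol, iter_pol, iter_pol, iter_pol, iter_pol, iter_pol, iter_pol, iter_pol, iter_pol]
  simp only [Nat.factorial]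
  norm_num
  have hsg : sg = b2 * al2 (1 - ep) * (rr:ℂ) + b3 * al3 (1 - ep) * (rr:ℂ)^2 + b4 * al4 (1 - ep) * (rr:ℂ)^3 := rfl
  have hc : cc * sg = -1 := by
    unfold cc
    rw [div_mul_cancel₀ _ sg_ne]
  rw [hsg] at hc
  linear_combination (rr:ℂ) * hc

end Pool.Agent.S1244
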