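import Pool.Statements.S1292

set_option autoImplicit false
open Pool Pool.MP_275f89_an

namespace Pool.Agent.S1292

/-- distance distribution functions -/
def DD : Set (ℝ → ℝ) := {F : ℝ → ℝ | Monotone F ∧ (∀ x, 0 ≤ F x ∧ F x ≤ 1) ∧ (∀ x : ℝ, x ≤ 0 → F x = 0) ∧
            ∀ x : ℝ, ContinuousWithinAt F (Set.Iio x) x}

noncomputable def e0 : ℝ → ℝ := fun x : ℝ => if 0 < x then (1 : ℝ) else 0

noncomputable def E : ℝ → ℝ := fun x : ℝ => if 0 < x then (1/2 : ℝ) else 0

noncomputable def F1 : ℝ → ℝ := fun x : ℝ => if 5 < x then (1:ℝ) else if 0 < x then (1/2 : ℝ) else 0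

def U : Set (ℝ → ℝ) := {F | E ≤ F ∧ F 10 = 1}

open Classical in
noncomputable def tau (F G : ℝ → ℝ) : ℝ → ℝ :=
  if F = e0 then G else if G = e0 then F else if F ∈ U ∧ G ∈ U then E else 0

lemma cont_step (c x : ℝ) (b : ℝ) : ContinuousWithinAt (fun y : ℝ => if c < y then b else 0) (Set.Iio x) x := by
  by_cases h : c < x
  · have : (fun y : ℝ => if c < y then b else 0) =ᶠ[nhdsWithin x (Set.Iio x)] fun _ => b := by
      have h1 : Set.Ioi c ∈ nhdsWithin x (Set.Iio x) := mem_nhdsWithin_of_mem_nhds (Ioi_mem_nhds h)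
      filter_upwards [h1] with y hy
      simp only [Set.mem_Ioi] at hy
      simp [hy]
    exact (continuousWithinAt_const (b := b)).congr_of_eventuallyEq this (by simp [h])
  · refine (continuousWithinAt_const (b := (0:ℝ))).congr ?_ ?_
    · intro y hy
      have : ¬ c < y := by
        simp only [Set.mem_Iio] at hy
        linarith
      simp [this]
    · simp [h]

lemma E_mem : E ∈ DD := by
  refine ⟨?_, ?_, ?_, ?_⟩
  · intro x y hxy
    unfold E
    split_ifs <;> first | linarith | norm_num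
  · intro x
    unfold E
    split_ifs <;> constructor <;> norm_num
  · intro x hx
    unfold E
    rw [if_neg (not_lt.mpr hx)]
  · intro x; exact cont_step 0 x (1/2)

lemma F1_mem : F1 ∈ DD := by
  refine ⟨?_, ?_, ?_, ?_⟩
  · intro x y hxy
    unfold F1
    split_ifs <;> first | linarith | norm_num
  · intro x
    unfold F1
    split_ifs <;> constructor <;> norm_num
  · intro x hx
    unfold F1
    rw [if_neg (by linarith), if_neg (not_lt.mpr hx)]
  · intro x
    have h := (cont_step 0 x (1/2)).add (cont_step 5 x (1/2))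
    refine h.congr_of_eventuallyEq ?_ ?_
    · refine Filter.Eventually.of_forall ?_
      intro y
      unfold F1
      simp only [Pi.add_apply]
      split_ifs <;> first | (exfalso; linarith) | norm_num
    · unfold F1
      simp only [Pi.add_apply]
      split_ifs <;> first | (exfalso; linarith) | norm_num

lemma zero_mem : (0 : ℝ → ℝ) ∈ DD := by
  refine ⟨?_, ?_, ?_, ?_⟩
  · intro x y hxy; simp
  · intro x; simp
  · intro x hx; simp
  · intro x; exact continuousWithinAt_const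

lemma E_ne : E ≠ e0 := by
  intro h
  have := congrFun h 1
  simp [E, e0] at this

lemma zero_ne : (0 : ℝ → ℝ) ≠ e0 := by
  intro h
  have := congrFun h 1
  simp [e0] at this

lemma E_not : E ∉ U := by
  intro h
  have := h.2
  simp [E] at this

lemma zero_not : (0 : ℝ → ℝ) ∉ U := by
  intro h
  have := h.2
  simp at this

lemma F1_ne : F1 ≠ e0 := by
  intro h
  have := congrFun h 1
  norm_num [F1, e0] at this

lemma F1_U : F1 ∈ U := by
  constructor
  · intro x
    unfold E F1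
    split_ifs <;> norm_num
  · unfold F1
    norm_num

lemma le_e0 {F : ℝ → ℝ} (hF : F ∈ DD) : F ≤ e0 := by
  intro x
  unfold e0
  split_ifs with h
  · exact (hF.2.1 x).2
  · exact (hF.2.2.1 x (not_lt.mp h)).le

lemma tau_e0_left (G : ℝ → ℝ) : tau e0 G = G := by simp [tau]

lemma tau_e0_right (F : ℝ → ℝ) : tau F e0 = F := by
  unfold tau
  by_cases h : F = e0
  · rw [if_pos h]; exact h.symm
  · rw [if_neg h, if_pos rfl]

lemma tau_comm (F G : ℝ → ℝ) : tau F G = tau G F := by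
  by_cases h1 : F = e0
  · subst h1; rw [tau_e0_left, tau_e0_right]
  · by_cases h2 : G = e0
    · subst h2; rw [tau_e0_left, tau_e0_right]
    · unfold tau
      rw [if_neg h1, if_neg h2, if_neg h2, if_neg h1]
      by_cases h3 : F ∈ U ∧ G ∈ U
      · rw [if_pos h3, if_pos h3.symm]
      · rw [if_neg h3, if_neg (fun h => h3 h.symm)]

lemma tau_val (F G : ℝ → ℝ) (h1 : F ≠ e0) (h2 : G ≠ e0) : tau F G = E ∨ tau F G = 0 := by
  unfold tau
  rw [if_neg h1, if_neg h2]
  split_ifs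
  · left; rfl
  · right; rfl

lemma tau_small (F G : ℝ → ℝ) (h1 : F = E ∨ F = 0) (h2 : G ≠ e0) : tau F G = 0 := by
  unfold tau
  have h3 : F ≠ e0 := by
    rcases h1 with h | h
    · rw [h]; exact E_ne
    · rw [h]; exact zero_ne
  have h4 : F ∉ U := by
    rcases h1 with h | h
    · rw [h]; exact E_not
    · rw [h]; exact zero_not
  rw [if_neg h3, if_neg h2, if_neg (fun h => h4 h.1)]

lemma tau_assoc (F G H : ℝ → ℝ) : tau (tau F G) H = tau F (tau G H) := by
  by_cases h1 : F = e0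
  · subst h1; rw [tau_e0_left, tau_e0_left]
  by_cases h2 : G = e0
  · subst h2; rw [tau_e0_left, tau_e0_right]
  by_cases h3 : H = e0
  · subst h3; rw [tau_e0_right, tau_e0_right]
  rw [tau_small _ _ (tau_val F G h1 h2) h3, tau_comm F, tau_small _ _ (tau_val G H h2 h3) h1]

lemma tau_mem (F G : ℝ → ℝ) (hF : F ∈ DD) (hG : G ∈ DD) : tau F G ∈ DD := by
  unfold tau
  split_ifs
  · exact hG
  · exact hF
  · exact E_mem
  · exact zero_mem

lemma tau_mono (F₁ F₂ G : ℝ → ℝ) (h1 : F₁ ∈ DD) (h2 : F₂ ∈ DD) (hG : G ∈ DD) (h : F₁ ≤ F₂) :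
    tau F₁ G ≤ tau F₂ G := by
  by_cases a3 : G = e0
  · subst a3; rw [tau_e0_right, tau_e0_right]; exact h
  by_cases a1 : F₁ = e0
  · have : F₂ = e0 := le_antisymm (le_e0 h2) (a1 ▸ h)
    rw [a1, this]
  by_cases a2 : F₂ = e0
  · subst a2
    rw [tau_e0_left]
    unfold tau
    rw [if_neg a1, if_neg a3]
    split_ifs with h5
    · exact h5.2.1
    · intro x; exact (hG.2.1 x).1
  · unfold tau
    rw [if_neg a1, if_neg a3, if_neg a2, if_neg a3]
    by_cases h5 : F₁ ∈ U ∧ G ∈ U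
    · have h6 : F₂ ∈ U := by
        refine ⟨le_trans h5.1.1 h, ?_⟩
        apply le_antisymm (h2.2.1 10).2
        have := h 10
        rw [h5.1.2] at this
        exact this
      rw [if_pos h5, if_pos ⟨h6, h5.2⟩]
    · rw [if_neg h5]
      split_ifs
      · intro x; exact (E_mem.2.1 x).1
      · exact le_refl _

/-- The negation of the preceding statement: Every commutative, associative, monotone operation on distance distribution functions with identity ε₀ is causal: if F₁≤F₂ and G₁≤G₂ on (−∞,a] with a>0, then τ(F₁,G₁)≤τ(F₂,G₂) on (−∞,a]. -/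
theorem result :
    ¬ (∀ D : Set (ℝ → ℝ),
      D = {F : ℝ → ℝ | Monotone F ∧ (∀ x, 0 ≤ F x ∧ F x ≤ 1) ∧ (∀ x : ℝ, x ≤ 0 → F x = 0) ∧
            ∀ x : ℝ, ContinuousWithinAt F (Set.Iio x) x} →
      ∀ τ : (ℝ → ℝ) → (ℝ → ℝ) → (ℝ → ℝ),
        (∀ F ∈ D, ∀ G ∈ D, τ F G ∈ D) →
        (∀ F ∈ D, ∀ G ∈ D, τ F G = τ G F) →
        (∀ F ∈ D, ∀ G ∈ D, ∀ H ∈ D, τ (τ F G) H = τ F (τ G H)) →
        (∀ F ∈ D, τ F (fun x : ℝ => if 0 < x then (1 : ℝ) else 0) = F) →
        (∀ F₁ ∈ D, ∀ F₂ ∈ D, ∀ G ∈ D, F₁ ≤ F₂ → τ F₁ G ≤ τ F₂ G) →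
        ∀ a : ℝ, 0 < a →
          ∀ F₁ ∈ D, ∀ F₂ ∈ D, ∀ G₁ ∈ D, ∀ G₂ ∈ D,
            (∀ x : ℝ, x ≤ a → F₁ x ≤ F₂ x) →
            (∀ x : ℝ, x ≤ a → G₁ x ≤ G₂ x) →
            ∀ x : ℝ, x ≤ a → τ F₁ G₁ x ≤ τ F₂ G₂ x) := by
  intro H
  have h := H DD rfl tau (fun F hF G hG => tau_mem F G hF hG) (fun F _ G _ => tau_comm F G)
    (fun F _ G _ H _ => tau_assoc F G H) (fun F _ => tau_e0_right F)
    (fun F₁ h1 F₂ h2 G hG h => tau_mono F₁ F₂ G h1 h2 hG h) 1 one_pos F1 F1_mem E E_mem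
    F1 F1_mem F1 F1_mem ?_ (fun x _ => le_refl _) 1 (le_refl _)
  · rw [tau_small E F1 (Or.inl rfl) F1_ne] at h
    unfold tau at h
    rw [if_neg F1_ne, if_neg F1_ne, if_pos ⟨F1_U, F1_U⟩] at h
    simp [E] at h
    norm_num at h
  · intro x hx
    unfold F1 E
    rw [if_neg (by linarith)]

end Pool.Agent.S1292
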