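import Pool.Statements.S1378

set_option autoImplicit false
open Filter Topology
open Pool Pool.MP_413ec1_an

namespace Pool.Agent.S1378
open MeasureTheory intervalIntegral

/-- weights: C¹ functions bounded with derivative by one on [0,1] -/
structure Wt where
  w : ℝ → ℂ
  w' : ℝ → ℂ
  hd : ∀ x, HasDerivAt w (w' x) x
  hc : Continuous w'
  b : ∀ x ∈ Set.Icc (0:ℝ) 1, ‖w x‖ ≤ 1
  b' : ∀ x ∈ Set.Icc (0:ℝ) 1, ‖w' x‖ ≤ 1

lemma Wt.cont (W : Wt) : Continuous W.w := continuous_iff_continuousAt.mpr fun x => (W.hd x).continuousAt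

/-- the constant weight one -/
def Wone : Wt where
  w := fun _ => 1
  w' := fun _ => 0
  hd := fun x => hasDerivAt_const x (1:ℂ)
  hc := continuous_const
  b := fun x _ => by simp
  b' := fun x _ => by simp

noncomputable def E1 (s t : ℝ) (x : ℝ) : ℂ :=
  Complex.exp (((s * Real.exp x - t * Real.exp (-x) : ℝ) : ℂ) * Complex.I)

lemma E1_norm (s t x : ℝ) : ‖E1 s t x‖ = 1 := by
  unfold E1
  rw [Complex.norm_exp_ofReal_mul_I]

lemma E1_cont (s t : ℝ) : Continuous (E1 s t) := by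
  unfold E1
  fun_prop

lemma E1_mul (s t s' t' x : ℝ) : E1 s t x * E1 s' t' x = E1 (s + s') (t + t') x := by
  unfold E1
  rw [← Complex.exp_add]
  congr 1
  push_cast
  ring

noncomputable def pairing (s t : ℝ) (W : Wt) (g : ℝ → ℂ) : ℂ := ∫ x in (0:ℝ)..1, E1 s t x * W.w x * g x

lemma pair_cont (s t : ℝ) (W : Wt) (g : C(ℝ, ℂ)) : Continuous (fun x => E1 s t x * W.w x * g x) :=
  ((E1_cont s t).mul W.cont).mul g.continuous

lemma pair_le (s t : ℝ) (W : Wt) (g : C(ℝ, ℂ)) : ‖pairing s t W g‖ ≤ ∫ x in (0:ℝ)..1, ‖g x‖ := by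
  unfold pairing
  refine le_trans (intervalIntegral.norm_integral_le_integral_norm (by norm_num)) ?_
  apply intervalIntegral.integral_mono_on (by norm_num)
  · exact ((pair_cont s t W g).norm).intervalIntegrable _ _
  · exact (g.continuous.norm).intervalIntegrable _ _
  · intro x hx
    rw [norm_mul, norm_mul, E1_norm, one_mul]
    calc ‖W.w x‖ * ‖g x‖ ≤ 1 * ‖g x‖ := mul_le_mul_of_nonneg_right (W.b x hx) (norm_nonneg _)
      _ = ‖g x‖ := one_mul _

noncomputable def Nn (g : C(ℝ, ℂ)) : ℝ := ⨆ p : ℝ × ℝ × Wt, ‖pairing p.1 p.2.1 p.2.2 g‖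

lemma Nn_bdd (g : C(ℝ, ℂ)) : BddAbove (Set.range fun p : ℝ × ℝ × Wt => ‖pairing p.1 p.2.1 p.2.2 g‖) := by
  refine ⟨∫ x in (0:ℝ)..1, ‖g x‖, ?_⟩
  rintro _ ⟨p, rfl⟩
  exact pair_le _ _ _ _

instance : Nonempty Wt := ⟨Wone⟩

lemma le_Nn (g : C(ℝ, ℂ)) (s t : ℝ) (W : Wt) : ‖pairing s t W g‖ ≤ Nn g :=
  le_ciSup (Nn_bdd g) (s, t, W)

lemma Nn_le (g : C(ℝ, ℂ)) (C : ℝ) (h : ∀ s t W, ‖pairing s t W g‖ ≤ C) : Nn g ≤ C :=
  ciSup_le fun p => h p.1 p.2.1 p.2.2

lemma Nn_nonneg (g : C(ℝ, ℂ)) : 0 ≤ Nn g := le_trans (norm_nonneg _) (le_Nn g 0 0 Wone)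

noncomputable def semi : Seminorm ℂ C(ℝ, ℂ) := Seminorm.ofSMulLE Nn
  (by
    apply le_antisymm _ (Nn_nonneg _)
    apply Nn_le
    intro s t W
    simp [pairing])
  (by
    intro f g
    apply Nn_le
    intro s t W
    have : pairing s t W (f + g : C(ℝ,ℂ)) = pairing s t W f + pairing s t W g := by
      unfold pairing
      rw [← intervalIntegral.integral_add ((pair_cont s t W f).intervalIntegrable _ _)
        ((pair_cont s t W g).intervalIntegrable _ _)]
      congr 1
      ext x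
      rw [ContinuousMap.add_apply]
      ring
    rw [this]
    exact le_trans (norm_add_le _ _) (add_le_add (le_Nn _ _ _ _) (le_Nn _ _ _ _)))
  (by
    intro c g
    apply Nn_le
    intro s t W
    have : pairing s t W (c • g : C(ℝ,ℂ)) = c * pairing s t W g := by
      unfold pairing
      rw [← intervalIntegral.integral_const_mul]
      congr 1
      ext x
      rw [ContinuousMap.smul_apply, smul_eq_mul]
      ring
    rw [this, norm_mul]
    exact mul_le_mul_of_nonneg_left (le_Nn _ _ _ _) (norm_nonneg _))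

/-- the seminormed space -/
def F : Type := C(ℝ, ℂ)

noncomputable instance : AddCommGroup F := inferInstanceAs (AddCommGroup C(ℝ, ℂ))
noncomputable instance : Module ℂ F := inferInstanceAs (Module ℂ C(ℝ, ℂ))
noncomputable def semiF : Seminorm ℂ F := semi
noncomputable instance : SeminormedAddCommGroup F := semiF.toAddGroupSeminorm.toSeminormedAddCommGroup
noncomputable instance : NormedSpace ℂ F where
  norm_smul_le := fun c g => (semiF.smul' c g).le

lemma norm_F (g : F) : ‖g‖ = Nn g := rfl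

/-- the Banach space -/
abbrev E : Type := F →L[ℂ] ℂ

noncomputable instance instE : NormedAddCommGroup E :=
  NormedAddCommGroup.ofSeparation fun f hf => by
    apply ContinuousLinearMap.ext
    intro x
    have h1 := f.le_opNorm x
    rw [hf, zero_mul] at h1
    exact norm_le_zero_iff.mp h1

noncomputable instance : NormedSpace ℂ E := inferInstance
instance : CompleteSpace E := inferInstance

noncomputable def mulL (ψ : C(ℝ, ℂ)) : F →ₗ[ℂ] F := LinearMap.mulLeft ℂ ψ

noncomputable def mulC (ψ : C(ℝ, ℂ)) (C : ℝ) (h : ∀ g : C(ℝ,ℂ), Nn (ψ * g) ≤ C * Nn g) : F →L[ℂ] F :=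
  (mulL ψ).mkContinuous C h

noncomputable def Ad (ψ : C(ℝ, ℂ)) (C : ℝ) (h : ∀ g : C(ℝ,ℂ), Nn (ψ * g) ≤ C * Nn g) : E →L[ℂ] E :=
  (ContinuousLinearMap.compL ℂ F F ℂ).flip (mulC ψ C h)

noncomputable def ev (l : E) (g : C(ℝ, ℂ)) : ℂ := l g

lemma Ad_apply (ψ : C(ℝ, ℂ)) (C : ℝ) (h : ∀ g : C(ℝ,ℂ), Nn (ψ * g) ≤ C * Nn g) (l : E) (g : C(ℝ,ℂ)) :
    ev (Ad ψ C h l) g = ev l (ψ * g : C(ℝ,ℂ)) := rfl

lemma ev_sub_left (l l' : E) (g : C(ℝ, ℂ)) : ev (l - l') g = ev l g - ev l' g := rfl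
lemma ev_add_left (l l' : E) (g : C(ℝ, ℂ)) : ev (l + l') g = ev l g + ev l' g := rfl
lemma ev_rsmul_left (c : ℝ) (l : E) (g : C(ℝ, ℂ)) : ev (c • l) g = (c : ℂ) * ev l g := rfl
lemma ev_sub_right (l : E) (g g' : C(ℝ, ℂ)) : ev l (g - g') = ev l g - ev l g' :=
  map_sub l (show F from g) (show F from g')
lemma ev_smul_right (l : E) (c : ℂ) (g : C(ℝ, ℂ)) : ev l (c • g) = c * ev l g :=
  map_smul l c (show F from g)

lemma ev_ext {l l' : E} (h : ∀ g, ev l g = ev l' g) : l = l' := ContinuousLinearMap.ext h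

lemma ev_le (l : E) (g : C(ℝ, ℂ)) : ‖ev l g‖ ≤ ‖l‖ * Nn g := l.le_opNorm g

lemma norm_le_ev (l : E) (C : ℝ) (hC : 0 ≤ C) (h : ∀ g, ‖ev l g‖ ≤ C * Nn g) : ‖l‖ ≤ C :=
  l.opNorm_le_bound hC h

/-! ### multipliers -/

noncomputable def E1c (s t : ℝ) : C(ℝ, ℂ) := ⟨E1 s t, E1_cont s t⟩

lemma bd_E1 (r q : ℝ) : ∀ g : C(ℝ,ℂ), Nn (E1c r q * g) ≤ 1 * Nn g := by
  intro g
  rw [one_mul]
  apply Nn_le
  intro s t W
  have : pairing s t W (E1c r q * g : C(ℝ,ℂ)) = pairing (s + r) (t + q) W g := by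
    unfold pairing
    congr 1
    ext x
    rw [ContinuousMap.mul_apply, ← E1_mul]
    show E1 s t x * W.w x * (E1 r q x * g x) = _
    ring
  rw [this]
  exact le_Nn _ _ _ _

lemma bd_smooth (ψ : C(ℝ, ℂ)) (ψ' : ℝ → ℂ) (hd : ∀ x, HasDerivAt ψ (ψ' x) x) (hc : Continuous ψ')
    (c : ℝ) (hc0 : 0 < c) (b : ∀ x ∈ Set.Icc (0:ℝ) 1, ‖ψ x‖ ≤ c) (b' : ∀ x ∈ Set.Icc (0:ℝ) 1, ‖ψ' x‖ ≤ c) :
    ∀ g : C(ℝ,ℂ), Nn (ψ * g) ≤ (2 * c) * Nn g := by
  intro g
  apply Nn_le
  intro s t W
  have h2c : (2 * c : ℂ) ≠ 0 := by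
    have : (2 * c) ≠ 0 := by positivity
    exact_mod_cast this
  have hn2c : ‖(2 * c : ℂ)‖ = 2 * c := by
    rw [show (2 * c : ℂ) = ((2 * c : ℝ) : ℂ) by push_cast; ring, Complex.norm_real, Real.norm_eq_abs,
      abs_of_pos (by positivity)]
  let W2 : Wt :=
    { w := fun x => ψ x * W.w x / (2 * c)
      w' := fun x => (ψ' x * W.w x + ψ x * W.w' x) / (2 * c)
      hd := fun x => ((hd x).mul (W.hd x)).div_const _
      hc := ((hc.mul W.cont).add (ψ.continuous.mul W.hc)).div_const _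
      b := by
        intro x hx
        rw [norm_div, norm_mul, hn2c, div_le_one (by positivity)]
        have h1 := b x hx
        have h2 := W.b x hx
        nlinarith [norm_nonneg (ψ x), norm_nonneg (W.w x)]
      b' := by
        intro x hx
        rw [norm_div, hn2c, div_le_one (by positivity)]
        refine le_trans (norm_add_le _ _) ?_
        rw [norm_mul, norm_mul]
        have h1 := b x hx
        have h2 := W.b x hx
        have h3 := b' x hx
        have h4 := W.b' x hx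
        nlinarith [norm_nonneg (ψ x), norm_nonneg (W.w x), norm_nonneg (ψ' x), norm_nonneg (W.w' x)] }
  have : pairing s t W (ψ * g : C(ℝ,ℂ)) = (2 * c) * pairing s t W2 g := by
    unfold pairing
    rw [← intervalIntegral.integral_const_mul]
    congr 1
    ext x
    rw [ContinuousMap.mul_apply]
    show E1 s t x * W.w x * (ψ x * g x) = 2 * c * (E1 s t x * (ψ x * W.w x / (2 * c)) * g x)
    have hc' : (c : ℂ) ≠ 0 := by exact_mod_cast hc0.ne'
    field_simp
  rw [this, norm_mul, hn2c]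
  exact mul_le_mul_of_nonneg_left (le_Nn _ _ _ _) (by positivity)

lemma bd_exists (ψ : C(ℝ, ℂ)) (ψ' : ℝ → ℂ) (hd : ∀ x, HasDerivAt ψ (ψ' x) x) (hc : Continuous ψ') :
    ∃ C : ℝ, ∀ g : C(ℝ,ℂ), Nn (ψ * g) ≤ C * Nn g := by
  obtain ⟨c1, h1⟩ := (isCompact_Icc (a := (0:ℝ)) (b := 1)).exists_bound_of_continuousOn ψ.continuous.continuousOn
  obtain ⟨c2, h2⟩ := (isCompact_Icc (a := (0:ℝ)) (b := 1)).exists_bound_of_continuousOn hc.continuousOn
  refine ⟨2 * (max (max c1 c2) 1), bd_smooth ψ ψ' hd hc _ (by positivity) ?_ ?_⟩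
  · intro x hx
    exact le_trans (h1 x hx) (le_trans (le_max_left _ _) (le_max_left _ _))
  · intro x hx
    exact le_trans (h2 x hx) (le_trans (le_max_right _ _) (le_max_left _ _))

/-! ### generators -/

lemma gen_bound (p p' : ℝ → ℝ) (hp : ∀ x, HasDerivAt p (p' x) x) (hpc : Continuous p')
    (b : ∀ x ∈ Set.Icc (0:ℝ) 1, |p x| ≤ 3) (b' : ∀ x ∈ Set.Icc (0:ℝ) 1, |p' x| ≤ 3)
    (t : ℝ) (ht : 0 < t) (ht3 : t ≤ 1/3) (ψ : C(ℝ, ℂ))
    (hψ : ∀ x, ψ x = (t⁻¹ : ℝ) * (Complex.exp (((t * p x : ℝ) : ℂ) * Complex.I) - 1) - (p x : ℂ) * Complex.I) :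
    ∀ g : C(ℝ,ℂ), Nn (ψ * g) ≤ (2 * (9 * t)) * Nn g := by
  have hpcont : Continuous p := continuous_iff_continuousAt.mpr fun x => (hp x).continuousAt
  have e1 : ∀ x ∈ Set.Icc (0:ℝ) 1, |t * p x| ≤ 3 * t := by
    intro x hx
    rw [abs_mul, abs_of_pos ht]
    nlinarith [b x hx]
  apply bd_smooth ψ (fun x => (p' x : ℂ) * Complex.I * (Complex.exp (((t * p x : ℝ) : ℂ) * Complex.I) - 1))
  · intro x
    have h1 : HasDerivAt (fun x => (t⁻¹ : ℝ) * (Complex.exp (((t * p x : ℝ) : ℂ) * Complex.I) - 1) - (p x : ℂ) * Complex.I)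
        ((t⁻¹ : ℝ) * (Complex.exp (((t * p x : ℝ) : ℂ) * Complex.I) * (((t * p' x : ℝ) : ℂ) * Complex.I)) - (p' x : ℂ) * Complex.I) x := by
      have h2 : HasDerivAt (fun x => ((t * p x : ℝ) : ℂ) * Complex.I) (((t * p' x : ℝ) : ℂ) * Complex.I) x :=
        (((hp x).const_mul t).ofReal_comp).mul_const _
      exact ((h2.cexp.sub_const 1).const_mul _).sub (((hp x).ofReal_comp).mul_const _)
    have h3 : (ψ : ℝ → ℂ) = fun x => (t⁻¹ : ℝ) * (Complex.exp (((t * p x : ℝ) : ℂ) * Complex.I) - 1) - (p x : ℂ) * Complex.I := by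
      ext x; exact hψ x
    rw [h3]
    convert h1 using 1
    have ht' : (t : ℂ) ≠ 0 := by exact_mod_cast ht.ne'
    push_cast
    field_simp
  · fun_prop
  · positivity
  · intro x hx
    rw [hψ x]
    have h1 : ((t⁻¹ : ℝ) : ℂ) * (Complex.exp (((t * p x : ℝ) : ℂ) * Complex.I) - 1) - (p x : ℂ) * Complex.I =
        ((t⁻¹ : ℝ) : ℂ) * (Complex.exp (((t * p x : ℝ) : ℂ) * Complex.I) - 1 - ((t * p x : ℝ) : ℂ) * Complex.I) := by
      have ht' : (t : ℂ) ≠ 0 := by exact_mod_cast ht.ne'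
      push_cast
      field_simp
    rw [h1, norm_mul, Complex.norm_real, Real.norm_eq_abs, abs_of_pos (inv_pos.mpr ht)]
    have h2 : ‖((t * p x : ℝ) : ℂ) * Complex.I‖ = |t * p x| := by
      rw [norm_mul, Complex.norm_I, mul_one, Complex.norm_real, Real.norm_eq_abs]
    have h3 : ‖((t * p x : ℝ) : ℂ) * Complex.I‖ ≤ 1 := by
      rw [h2]
      have := e1 x hx
      linarith
    have h4 := Complex.norm_exp_sub_one_sub_id_le h3
    rw [h2] at h4
    have h5 : |t * p x|^2 ≤ (3*t)^2 := by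
      have := e1 x hx
      apply pow_le_pow_left₀ (abs_nonneg _) this
    calc t⁻¹ * ‖_‖ ≤ t⁻¹ * (3*t)^2 := mul_le_mul_of_nonneg_left (le_trans h4 h5) (inv_pos.mpr ht).le
      _ = 9 * t := by field_simp; ring
  · intro x hx
    rw [norm_mul, norm_mul, Complex.norm_I, mul_one, Complex.norm_real, Real.norm_eq_abs]
    have h1 : ‖Complex.exp (((t * p x : ℝ) : ℂ) * Complex.I) - 1‖ ≤ |t * p x| := by
      rw [mul_comm]
      have := @Real.norm_exp_I_mul_ofReal_sub_one_le (t * p x)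
      rwa [Real.norm_eq_abs] at this
    have h2 := e1 x hx
    have h3 := b' x hx
    nlinarith [abs_nonneg (p' x), abs_nonneg (t * p x), norm_nonneg (Complex.exp (((t * p x : ℝ) : ℂ) * Complex.I) - 1)]

noncomputable def aP (p : ℝ → ℝ) (hp : Continuous p) : C(ℝ, ℂ) := ⟨fun x => (p x : ℂ) * Complex.I, by fun_prop⟩

lemma gen_tendsto (p p' : ℝ → ℝ) (hp : ∀ x, HasDerivAt p (p' x) x) (hpc : Continuous p') (hpcont : Continuous p)
    (b : ∀ x ∈ Set.Icc (0:ℝ) 1, |p x| ≤ 3) (b' : ∀ x ∈ Set.Icc (0:ℝ) 1, |p' x| ≤ 3)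
    (U : ℝ → E →L[ℂ] E) (u : ℝ → C(ℝ, ℂ)) (hu : ∀ t x, u t x = Complex.exp (((t * p x : ℝ) : ℂ) * Complex.I))
    (hU : ∀ t l g, ev (U t l) g = ev l (u t * g)) (A : E →L[ℂ] E) (hA : ∀ l g, ev (A l) g = ev l (aP p hpcont * g))
    (l : E) : Tendsto (fun t : ℝ => t⁻¹ • (U t l - l)) (𝓝[>] 0) (𝓝 (A l)) := by
  rw [tendsto_iff_norm_sub_tendsto_zero]
  have hlim : Tendsto (fun t : ℝ => 2 * (9 * t) * ‖l‖) (𝓝[>] 0) (𝓝 0) := by
    have : Tendsto (fun t : ℝ => 2 * (9 * t) * ‖l‖) (𝓝 0) (𝓝 (2 * (9 * 0) * ‖l‖)) := by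
      apply Continuous.tendsto
      fun_prop
    rw [show 2 * (9 * 0) * ‖l‖ = 0 by ring] at this
    exact this.mono_left nhdsWithin_le_nhds
  refine squeeze_zero' (Eventually.of_forall fun t => norm_nonneg _) ?_ hlim
  have hev : ∀ᶠ t : ℝ in 𝓝[>] 0, t ∈ Set.Ioo (0:ℝ) (1/3) := Ioo_mem_nhdsGT (by norm_num)
  filter_upwards [hev] with t ht
  apply norm_le_ev _ _ (by have := ht.1; positivity)
  intro g
  let ψ : C(ℝ, ℂ) := ((t⁻¹ : ℝ) : ℂ) • (u t - 1) - aP p hpcont
  have h1 : ev (t⁻¹ • (U t l - l) - A l) g = ev l (ψ * g) := by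
    have e1 : ev (t⁻¹ • (U t l - l) - A l) g = ((t⁻¹ : ℝ) : ℂ) * (ev (U t l) g - ev l g) - ev (A l) g := by
      rw [ev_sub_left, ev_rsmul_left, ev_sub_left]
    have e2 : ev l (ψ * g) = ((t⁻¹ : ℝ) : ℂ) * (ev l (u t * g) - ev l g) - ev l (aP p hpcont * g) := by
      have : (ψ * g : C(ℝ,ℂ)) = ((t⁻¹ : ℝ) : ℂ) • (u t * g - g) - aP p hpcont * g := by
        show (((t⁻¹ : ℝ) : ℂ) • (u t - 1) - aP p hpcont) * g = _
        rw [sub_mul, smul_mul_assoc, sub_mul, one_mul]
      rw [this, ev_sub_right, ev_smul_right, ev_sub_right]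
    rw [e1, e2, hU, hA]
  rw [h1]
  refine le_trans (ev_le l _) ?_
  have h2 := gen_bound p p' hp hpc b b' t ht.1 ht.2.le ψ (by
    intro x
    show (((t⁻¹ : ℝ) : ℂ) • (u t - 1) - aP p hpcont) x = _
    rw [ContinuousMap.sub_apply, ContinuousMap.smul_apply, ContinuousMap.sub_apply, hu]
    rfl) g
  calc ‖l‖ * Nn (ψ * g) ≤ ‖l‖ * (2 * (9 * t) * Nn g) := mul_le_mul_of_nonneg_left h2 (norm_nonneg _)
    _ = 2 * (9 * t) * ‖l‖ * Nn g := by ring

lemma key (φ φ' : ℝ → ℝ) (u w w' : ℝ → ℂ) (K C : ℝ) (hK : 0 < K) (hφ : ∀ x, HasDerivAt φ (φ' x) x)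
    (hφc : Continuous φ') (hu : ∀ x, HasDerivAt u (Complex.I * φ x * u x) x) (hun : ∀ x, ‖u x‖ = 1)
    (hw : ∀ x, HasDerivAt w (w' x) x) (hwc : Continuous w') (bw : ∀ x ∈ Set.Icc (0:ℝ) 1, ‖w x‖ ≤ 1)
    (bw' : ∀ x ∈ Set.Icc (0:ℝ) 1, ‖w' x‖ ≤ 1) (bφ : ∀ x ∈ Set.Icc (0:ℝ) 1, |φ' x| ≤ C) :
    ‖∫ x in (0:ℝ)..1, u x * w x‖ ≤ 1 / K + (C / K^2 + 1 / (2 * K)) + ∫ x in (0:ℝ)..1, K^2 / ((φ x)^2 + K^2) := by
  have hφcont : Continuous φ := continuous_iff_continuousAt.mpr fun x => (hφ x).continuousAt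
  have hucont : Continuous u := continuous_iff_continuousAt.mpr fun x => (hu x).continuousAt
  have hwcont : Continuous w := continuous_iff_continuousAt.mpr fun x => (hw x).continuousAt
  have hD : ∀ x, 0 < (φ x)^2 + K^2 := fun x => by positivity
  have hDne : ∀ x, (φ x)^2 + K^2 ≠ 0 := fun x => (hD x).ne'
  set q : ℝ → ℝ := fun x => φ x / ((φ x)^2 + K^2) with hq
  set q' : ℝ → ℝ := fun x => φ' x * (K^2 - (φ x)^2) / ((φ x)^2 + K^2)^2 with hq'
  have hqd : ∀ x, HasDerivAt q (q' x) x := by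
    intro x
    have h0 : HasDerivAt (fun x => (φ x)^2 + K^2) (2 * φ x * φ' x) x := by
      have := ((hφ x).pow 2).add_const (K^2)
      refine HasDerivAt.congr_deriv this ?_
      push_cast
      ring
    have h1 := (hφ x).div h0 (hDne x)
    refine HasDerivAt.congr_deriv h1 ?_
    rw [hq']
    simp only
    congr 1
    ring
  have hq'c : Continuous q' := by
    rw [hq']
    exact (hφc.mul (continuous_const.sub (hφcont.pow 2))).div ((hφcont.pow 2).add continuous_const |>.pow 2)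
      (fun x => pow_ne_zero 2 (hDne x))
  have hqc : Continuous q := hφcont.div ((hφcont.pow 2).add continuous_const) hDne
  have hqb : ∀ x, |q x| ≤ 1 / (2 * K) := by
    intro x
    rw [hq]
    simp only
    rw [abs_div, abs_of_pos (hD x), div_le_div_iff₀ (hD x) (by positivity)]
    nlinarith [sq_nonneg (|φ x| - K), sq_abs (φ x)]
  have hq'b : ∀ x ∈ Set.Icc (0:ℝ) 1, |q' x| ≤ C / K^2 := by
    intro x hx
    rw [hq']
    simp only
    rw [abs_div, abs_mul, abs_of_pos (pow_pos (hD x) 2), div_le_div_iff₀ (pow_pos (hD x) 2) (by positivity)]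
    have h1 : |K^2 - (φ x)^2| ≤ (φ x)^2 + K^2 := by
      rw [abs_le]; constructor <;> nlinarith [sq_nonneg (φ x), sq_nonneg K]
    have h2 : K^2 ≤ (φ x)^2 + K^2 := by nlinarith [sq_nonneg (φ x)]
    have h3 := bφ x hx
    have h4 : 0 ≤ C := le_trans (abs_nonneg _) h3
    calc |φ' x| * |K^2 - (φ x)^2| * K^2 ≤ C * ((φ x)^2 + K^2) * ((φ x)^2 + K^2) := by
          apply mul_le_mul (mul_le_mul h3 h1 (abs_nonneg _) h4) h2 (by positivity)
          exact mul_nonneg h4 (hD x).le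
      _ = C * ((φ x)^2 + K^2)^2 := by ring
  set Z : ℝ → ℂ := fun x => -Complex.I * ((q x : ℂ) * w x * u x) with hZ
  set Z' : ℝ → ℂ := fun x => -Complex.I * (((q' x : ℂ) * w x + (q x : ℂ) * w' x) * u x + (q x : ℂ) * w x * (Complex.I * φ x * u x)) with hZ'
  have hZd : ∀ x, HasDerivAt Z (Z' x) x := by
    intro x
    exact ((((hqd x).ofReal_comp).mul (hw x)).mul (hu x)).const_mul _
  have hZ'c : Continuous Z' := by
    rw [hZ']
    fun_prop
  have hsplit : ∀ x, u x * w x = Z' x + (Complex.I * ((q' x : ℂ) * w x + (q x : ℂ) * w' x) * u x +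
      ((K^2 / ((φ x)^2 + K^2) : ℝ) : ℂ) * (u x * w x)) := by
    intro x
    have h1 : ((q x : ℝ) : ℂ) * (φ x : ℂ) + ((K^2 / ((φ x)^2 + K^2) : ℝ) : ℂ) = 1 := by
      rw [← Complex.ofReal_mul, ← Complex.ofReal_add]
      have : q x * φ x + K^2 / ((φ x)^2 + K^2) = 1 := by
        rw [hq]
        simp only
        rw [div_mul_eq_mul_div, ← add_div, div_eq_one_iff_eq (hDne x)]
        ring
      rw [this]
      simp
    rw [hZ']
    simp only
    have hI : Complex.I * Complex.I = -1 := Complex.I_mul_I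
    linear_combination (-(u x * w x)) * h1 + ((q x : ℂ) * w x * (φ x * u x)) * hI
  have hR1 : Continuous (fun x => Complex.I * ((q' x : ℂ) * w x + (q x : ℂ) * w' x) * u x) := by fun_prop
  have hKc : Continuous (fun x => K^2 / ((φ x)^2 + K^2)) := continuous_const.div ((hφcont.pow 2).add continuous_const) hDne
  have hR2 : Continuous (fun x => ((K^2 / ((φ x)^2 + K^2) : ℝ) : ℂ) * (u x * w x)) :=
    (Complex.continuous_ofReal.comp hKc).mul (hucont.mul hwcont)
  have hint : ∫ x in (0:ℝ)..1, u x * w x = (Z 1 - Z 0) + ((∫ x in (0:ℝ)..1, Complex.I * ((q' x : ℂ) * w x + (q x : ℂ) * w' x) * u x) +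
      ∫ x in (0:ℝ)..1, ((K^2 / ((φ x)^2 + K^2) : ℝ) : ℂ) * (u x * w x)) := by
    have e0 : ∫ x in (0:ℝ)..1, u x * w x = ∫ x in (0:ℝ)..1, (Z' x + (Complex.I * ((q' x : ℂ) * w x + (q x : ℂ) * w' x) * u x +
      ((K^2 / ((φ x)^2 + K^2) : ℝ) : ℂ) * (u x * w x))) := by
      congr 1
      ext x
      exact hsplit x
    have hR12 : Continuous (fun x => Complex.I * ((q' x : ℂ) * w x + (q x : ℂ) * w' x) * u x +
      ((K^2 / ((φ x)^2 + K^2) : ℝ) : ℂ) * (u x * w x)) := hR1.add hR2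
    rw [e0, intervalIntegral.integral_add (hZ'c.intervalIntegrable _ _) (hR12.intervalIntegrable _ _),
      intervalIntegral.integral_add (hR1.intervalIntegrable _ _) (hR2.intervalIntegrable _ _),
      intervalIntegral.integral_eq_sub_of_hasDerivAt (fun x _ => hZd x) (hZ'c.intervalIntegrable _ _)]
  have hZb : ∀ x ∈ Set.Icc (0:ℝ) 1, ‖Z x‖ ≤ 1 / (2 * K) := by
    intro x hx
    rw [hZ]
    simp only
    rw [norm_mul, norm_neg, Complex.norm_I, one_mul, norm_mul, norm_mul, hun, mul_one, Complex.norm_real, Real.norm_eq_abs]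
    calc |q x| * ‖w x‖ ≤ (1 / (2 * K)) * 1 := mul_le_mul (hqb x) (bw x hx) (norm_nonneg _) (by positivity)
      _ = 1 / (2 * K) := mul_one _
  rw [hint]
  refine le_trans (norm_add_le _ _) ?_
  rw [add_assoc]
  apply add_le_add
  · refine le_trans (norm_sub_le _ _) ?_
    have h1 := hZb 1 (by simp)
    have h0 := hZb 0 (by simp)
    calc ‖Z 1‖ + ‖Z 0‖ ≤ 1 / (2 * K) + 1 / (2 * K) := add_le_add h1 h0
      _ = 1 / K := by field_simp; norm_num
  refine le_trans (norm_add_le _ _) ?_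
  apply add_le_add
  · have h1 : ∀ x ∈ Set.uIoc (0:ℝ) 1, ‖Complex.I * ((q' x : ℂ) * w x + (q x : ℂ) * w' x) * u x‖ ≤ C / K^2 + 1 / (2 * K) := by
      intro x hx
      rw [Set.uIoc_of_le (by norm_num)] at hx
      have hx' : x ∈ Set.Icc (0:ℝ) 1 := ⟨hx.1.le, hx.2⟩
      rw [norm_mul, norm_mul, Complex.norm_I, one_mul, hun, mul_one]
      refine le_trans (norm_add_le _ _) ?_
      rw [norm_mul, norm_mul, Complex.norm_real, Complex.norm_real, Real.norm_eq_abs, Real.norm_eq_abs]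
      have a1 := hq'b x hx'
      have a2 := hqb x
      have a3 := bw x hx'
      have a4 := bw' x hx'
      apply add_le_add
      · calc |q' x| * ‖w x‖ ≤ (C / K^2) * 1 := mul_le_mul a1 a3 (norm_nonneg _) (le_trans (abs_nonneg _) a1)
          _ = C / K^2 := mul_one _
      · calc |q x| * ‖w' x‖ ≤ (1 / (2 * K)) * 1 := mul_le_mul a2 a4 (norm_nonneg _) (by positivity)
          _ = 1 / (2 * K) := mul_one _
    have := intervalIntegral.norm_integral_le_of_norm_le_const h1
    simpa using this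
  · refine le_trans (intervalIntegral.norm_integral_le_integral_norm (by norm_num)) ?_
    apply intervalIntegral.integral_mono_on (by norm_num) (hR2.norm.intervalIntegrable _ _) (hKc.intervalIntegrable _ _)
    intro x hx
    rw [norm_mul, norm_mul, hun, one_mul, Complex.norm_real, Real.norm_eq_abs, abs_of_nonneg (by positivity)]
    calc K^2 / ((φ x)^2 + K^2) * ‖w x‖ ≤ K^2 / ((φ x)^2 + K^2) * 1 := mul_le_mul_of_nonneg_left (bw x hx) (by positivity)
      _ = _ := mul_one _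


noncomputable def dphi (s t n x : ℝ) : ℝ :=
  s * Real.exp x + t * Real.exp (-x) - 2 * n / (Real.exp x + Real.exp (-x))
noncomputable def ddphi (s t n x : ℝ) : ℝ :=
  s * Real.exp x - t * Real.exp (-x) + 2 * n * (Real.exp x - Real.exp (-x)) / (Real.exp x + Real.exp (-x))^2

lemma epos (x : ℝ) : 0 < Real.exp x + Real.exp (-x) := add_pos (Real.exp_pos _) (Real.exp_pos _)

lemma dexp_neg (x : ℝ) : HasDerivAt (fun x : ℝ => Real.exp (-x)) (-Real.exp (-x)) x := by
  have := (hasDerivAt_neg x).exp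
  refine this.congr_deriv (by ring)

lemma dphi_deriv (s t n x : ℝ) : HasDerivAt (dphi s t n) (ddphi s t n x) x := by
  have h1 := Real.hasDerivAt_exp x
  have h2 := dexp_neg x
  have h3 := (hasDerivAt_const x (2 * n)).div (h1.add h2) (epos x).ne'
  have h4 := ((h1.const_mul s).add (h2.const_mul t)).sub h3
  refine h4.congr_deriv ?_
  unfold ddphi
  simp only [Pi.add_apply]
  ring

lemma ddphi_cont (s t n : ℝ) : Continuous (ddphi s t n) := by
  unfold ddphi
  have : ∀ x : ℝ, (Real.exp x + Real.exp (-x))^2 ≠ 0 := fun x => pow_ne_zero 2 (epos x).ne'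
  fun_prop (disch := exact this)

lemma ddphi_bd (s t n : ℝ) (hn : 0 ≤ n) (x : ℝ) (hx : x ∈ Set.Icc (0:ℝ) 1) :
    |ddphi s t n x| ≤ 3 * (|s| + |t| + n) := by
  have h1 : Real.exp x ≤ 3 := by
    have := Real.exp_le_exp.mpr hx.2
    have h2 := Real.exp_one_lt_d9
    linarith
  have h2 : Real.exp (-x) ≤ 1 := Real.exp_le_one_iff.mpr (by linarith [hx.1])
  have h3 : 1 ≤ Real.exp x := Real.one_le_exp hx.1
  have p1 := Real.exp_pos x
  have p2 := Real.exp_pos (-x)
  unfold ddphi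
  have a1 : |s * Real.exp x| ≤ 3 * |s| := by
    rw [abs_mul, abs_of_pos p1]; nlinarith [abs_nonneg s]
  have a2 : |t * Real.exp (-x)| ≤ |t| := by
    rw [abs_mul, abs_of_pos p2]; nlinarith [abs_nonneg t]
  have a3 : |2 * n * (Real.exp x - Real.exp (-x)) / (Real.exp x + Real.exp (-x))^2| ≤ 2 * n := by
    rw [abs_div, abs_mul, abs_of_pos (pow_pos (epos x) 2), div_le_iff₀ (pow_pos (epos x) 2), abs_of_nonneg (by linarith : 0 ≤ 2 * n)]
    have b1 : |Real.exp x - Real.exp (-x)| ≤ Real.exp x + Real.exp (-x) := by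
      rw [abs_le]; constructor <;> linarith
    have b2 : 1 ≤ Real.exp x + Real.exp (-x) := by linarith
    have b3 : |Real.exp x - Real.exp (-x)| ≤ (Real.exp x + Real.exp (-x))^2 := by nlinarith
    exact mul_le_mul_of_nonneg_left b3 (by linarith)
  have h4 := abs_add_le (s * Real.exp x - t * Real.exp (-x)) (2 * n * (Real.exp x - Real.exp (-x)) / (Real.exp x + Real.exp (-x))^2)
  have h5 := abs_sub (s * Real.exp x) (t * Real.exp (-x))
  nlinarith [abs_nonneg t]

noncomputable def minv (x : ℝ) : ℂ := (Complex.I * (Real.exp x : ℂ) - 1) / (Complex.I * (Real.exp x : ℂ) + 1)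

lemma den_ne (x : ℝ) : Complex.I * (Real.exp x : ℂ) + 1 ≠ 0 := by
  intro h
  have := congrArg Complex.re h
  simp [-Complex.ofReal_exp] at this

lemma num_ne (x : ℝ) : Complex.I * (Real.exp x : ℂ) - 1 ≠ 0 := by
  intro h
  have := congrArg Complex.re h
  simp [-Complex.ofReal_exp] at this

lemma dexpC (x : ℝ) : HasDerivAt (fun x : ℝ => Complex.I * (Real.exp x : ℂ)) (Complex.I * (Real.exp x : ℂ)) x :=
  ((Real.hasDerivAt_exp x).ofReal_comp).const_mul _

lemma minv_deriv (x : ℝ) : HasDerivAt minv (Complex.I * ((-2 / (Real.exp x + Real.exp (-x)) : ℝ) : ℂ) * minv x) x := by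
  have h := ((dexpC x).sub_const 1).div ((dexpC x).add_const 1) (den_ne x)
  refine h.congr_deriv ?_
  unfold minv
  have h1 := den_ne x
  have h2 := num_ne x
  have h3 : Real.exp (-x) = (Real.exp x)⁻¹ := Real.exp_neg x
  have h4 : ((Real.exp x + Real.exp (-x) : ℝ) : ℂ) ≠ 0 := by exact_mod_cast (epos x).ne'
  have h5 : (Real.exp x : ℂ) ≠ 0 := by exact_mod_cast (Real.exp_pos x).ne'
  rw [h3] at h4 ⊢
  push_cast [-Complex.ofReal_exp] at h4 ⊢
  generalize (Real.exp x : ℂ) = y at *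
  have h6 : y^2 + 1 ≠ 0 := by
    intro h
    apply h4
    field_simp
    simpa using h
  have h7 : Complex.I^2 = -1 := Complex.I_sq
  field_simp
  linear_combination (2 * y^2) * h7

lemma minv_norm (x : ℝ) : ‖minv x‖ = 1 := by
  unfold minv
  rw [norm_div, div_eq_one_iff_eq (norm_ne_zero_iff.mpr (den_ne x))]
  rw [← sq_eq_sq₀ (norm_nonneg _) (norm_nonneg _), Complex.sq_norm, Complex.sq_norm, Complex.normSq_apply, Complex.normSq_apply]
  simp [-Complex.ofReal_exp]

lemma minv_cont : Continuous minv := continuous_iff_continuousAt.mpr fun x => (minv_deriv x).continuousAt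

lemma E1_deriv (s t x : ℝ) : HasDerivAt (E1 s t) (Complex.I * ((s * Real.exp x + t * Real.exp (-x) : ℝ) : ℂ) * E1 s t x) x := by
  unfold E1
  have h1 : HasDerivAt (fun x : ℝ => s * Real.exp x - t * Real.exp (-x)) (s * Real.exp x - t * (-Real.exp (-x))) x :=
    ((Real.hasDerivAt_exp x).const_mul s).sub ((dexp_neg x).const_mul t)
  have h2 := ((h1.ofReal_comp).mul_const Complex.I).cexp
  refine h2.congr_deriv ?_
  push_cast
  ring

noncomputable def uu (s t : ℝ) (n : ℕ) (x : ℝ) : ℂ := E1 s t x * minv x ^ n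

lemma uu_deriv (s t : ℝ) (n : ℕ) (x : ℝ) : HasDerivAt (uu s t n) (Complex.I * (dphi s t n x : ℂ) * uu s t n x) x := by
  have h := (E1_deriv s t x).mul ((minv_deriv x).pow n)
  refine h.congr_deriv ?_
  unfold uu dphi
  simp only [Pi.pow_apply]
  rcases n with _ | n
  · simp
  · simp only [Nat.add_sub_cancel]
    have h4 : ((Real.exp x + Real.exp (-x) : ℝ) : ℂ) ≠ 0 := by exact_mod_cast (epos x).ne'
    push_cast
    push_cast at h4
    rw [pow_succ]
    field_simp
    ring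

lemma uu_norm (s t : ℝ) (n : ℕ) (x : ℝ) : ‖uu s t n x‖ = 1 := by
  unfold uu
  rw [norm_mul, norm_pow, E1_norm, minv_norm, one_pow, mul_one]

lemma zero_set (a1 a2 a3 : ℝ) (h : |a1| + |a2| + |a3| = 1) :
    {x : ℝ | dphi a1 a2 a3 x = 0}.Finite := by
  classical
  obtain ⟨b, hb⟩ : ∃ b, b = a1 + a2 - 2 * a3 := ⟨_, rfl⟩
  set P : Polynomial ℝ := Polynomial.C a1 * Polynomial.X^4 + Polynomial.C b * Polynomial.X^2 + Polynomial.C a2 with hP
  have hP0 : P ≠ 0 := by
    intro h0
    have c4 : P.coeff 4 = a1 := by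
      rw [hP]
      simp [Polynomial.coeff_X_pow, Polynomial.coeff_C]
    have c2 : P.coeff 2 = b := by
      rw [hP]
      simp [Polynomial.coeff_X_pow, Polynomial.coeff_C]
    have c0 : P.coeff 0 = a2 := by
      rw [hP]
      simp [Polynomial.coeff_X_pow, Polynomial.coeff_C]
    rw [h0] at c4 c2 c0
    simp only [Polynomial.coeff_zero] at c4 c2 c0
    have h3 : a3 = 0 := by linarith
    rw [← c4, ← c0, h3] at h
    simp at h
  have hfin : ((P.roots.toFinset : Set ℝ)).Finite := Finset.finite_toSet _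
  have hpre := hfin.preimage (f := Real.exp) (Real.exp_injective.injOn)
  apply hpre.subset
  intro x hx
  simp only [Set.mem_ofPred_eq] at hx
  simp only [Set.mem_preimage, Finset.mem_coe, Multiset.mem_toFinset]
  rw [Polynomial.mem_roots hP0, Polynomial.IsRoot.def, hP]
  simp only [Polynomial.eval_add, Polynomial.eval_mul, Polynomial.eval_C, Polynomial.eval_pow, Polynomial.eval_X]
  unfold dphi at hx
  rw [Real.exp_neg] at hx
  have h1 := (Real.exp_pos x)
  have h2 : Real.exp x + (Real.exp x)⁻¹ ≠ 0 := by positivity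
  generalize Real.exp x = y at *
  have h3 : y^2 + 1 ≠ 0 := by positivity
  rw [hb]
  field_simp at hx
  linear_combination hx

lemma fint (s t n K : ℝ) (hK : 0 < K) : Continuous (fun x => K^2 / ((dphi s t n x)^2 + K^2)) := by
  have hc : Continuous (dphi s t n) := continuous_iff_continuousAt.mpr fun x => (dphi_deriv s t n x).continuousAt
  exact continuous_const.div ((hc.pow 2).add continuous_const) (fun x => by positivity)

lemma main_bound (s t : ℝ) (n : ℕ) (W : Wt) (R : ℝ) (hR : 0 < R) (hM : R^3 = |s| + |t| + n) :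
    ‖∫ x in (0:ℝ)..1, uu s t n x * W.w x‖ ≤ 1 / R^2 + (3 / R + 1 / (2 * R^2)) +
      ∫ x in (0:ℝ)..1, (R^2)^2 / ((dphi s t n x)^2 + (R^2)^2) := by
  have h := key (dphi s t n) (ddphi s t n) (uu s t n) W.w W.w' (R^2) (3 * R^3) (by positivity)
    (dphi_deriv s t n) (ddphi_cont s t n) (uu_deriv s t n) (uu_norm s t n) W.hd W.hc W.b W.b' (by
      intro x hx
      rw [hM]
      exact ddphi_bd s t n (by positivity) x hx)
  have e : 3 * R^3 / (R^2)^2 = 3 / R := by field_simp
  rw [e] at h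
  exact h

lemma decay (ε : ℝ) (hε : 0 < ε) : ∃ n : ℕ, ∀ (s t : ℝ) (W : Wt), ‖∫ x in (0:ℝ)..1, uu s t n x * W.w x‖ ≤ ε := by
  by_contra hcon
  push Not at hcon
  choose s t W h using hcon
  set M : ℕ → ℝ := fun n => |s (n+1)| + |t (n+1)| + ((n+1:ℕ):ℝ) with hMdef
  have hMpos : ∀ n, 0 < M n := by
    intro n
    rw [hMdef]
    positivity
  have hMge : ∀ n : ℕ, (n:ℝ) ≤ M n := by
    intro n
    rw [hMdef]
    simp only
    push_cast
    have := abs_nonneg (s (n+1))
    have := abs_nonneg (t (n+1))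
    linarith
  set v : ℕ → ℝ × ℝ × ℝ := fun n => (s (n+1) / M n, t (n+1) / M n, ((n+1:ℕ):ℝ) / M n) with hv
  have hvsum : ∀ n, |(v n).1| + |(v n).2.1| + |(v n).2.2| = 1 := by
    intro n
    rw [hv]
    simp only
    rw [abs_div, abs_div, abs_div, abs_of_pos (hMpos n), ← add_div, ← add_div, div_eq_one_iff_eq (hMpos n).ne']
    rw [hMdef]
    simp only
    rw [abs_of_nonneg (a := ((n+1:ℕ):ℝ)) (by positivity)]
  have hvmem : ∀ n, v n ∈ Metric.closedBall (0 : ℝ × ℝ × ℝ) 1 := by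
    intro n
    rw [mem_closedBall_zero_iff]
    have := hvsum n
    rw [Prod.norm_def, Prod.norm_def]
    simp only [Real.norm_eq_abs, sup_le_iff]
    refine ⟨?_, ?_, ?_⟩ <;>
    linarith [abs_nonneg (v n).1, abs_nonneg (v n).2.1, abs_nonneg (v n).2.2]
  obtain ⟨a, -, φ, hφ, hlim⟩ := (isCompact_closedBall (0 : ℝ × ℝ × ℝ) 1).tendsto_subseq hvmem
  have l1 : Tendsto (fun n => (v (φ n)).1) atTop (𝓝 a.1) := (continuous_fst.tendsto _).comp hlim
  have l2 : Tendsto (fun n => (v (φ n)).2.1) atTop (𝓝 a.2.1) := ((continuous_fst.comp continuous_snd).tendsto _).comp hlim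
  have l3 : Tendsto (fun n => (v (φ n)).2.2) atTop (𝓝 a.2.2) := ((continuous_snd.comp continuous_snd).tendsto _).comp hlim
  have hasum : |a.1| + |a.2.1| + |a.2.2| = 1 := by
    have h1 : Tendsto (fun n => |(v (φ n)).1| + |(v (φ n)).2.1| + |(v (φ n)).2.2|) atTop (𝓝 (|a.1| + |a.2.1| + |a.2.2|)) :=
      (l1.abs.add l2.abs).add l3.abs
    have h2 : Tendsto (fun n => |(v (φ n)).1| + |(v (φ n)).2.1| + |(v (φ n)).2.2|) atTop (𝓝 1) := by
      simp only [hvsum]
      exact tendsto_const_nhds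
    exact tendsto_nhds_unique h1 h2
  set R : ℕ → ℝ := fun n => (M (φ n)) ^ ((1:ℝ)/3) with hRdef
  have hRpos : ∀ n, 0 < R n := fun n => Real.rpow_pos_of_pos (hMpos _) _
  have hR3 : ∀ n, (R n)^3 = M (φ n) := by
    intro n
    rw [hRdef]
    simp only
    rw [← Real.rpow_natCast, ← Real.rpow_mul (hMpos _).le]
    norm_num
  have hMtop : Tendsto (fun n => M (φ n)) atTop atTop := by
    have h1 : Tendsto M atTop atTop := tendsto_atTop_mono hMge tendsto_natCast_atTop_atTop
    exact h1.comp hφ.tendsto_atTop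
  have hRtop : Tendsto R atTop atTop := (tendsto_rpow_atTop (by norm_num)).comp hMtop
  have hlt : ∀ n, ε < 1 / (R n)^2 + (3 / R n + 1 / (2 * (R n)^2)) +
      ∫ x in (0:ℝ)..1, ((R n)^2)^2 / ((dphi (s (φ n + 1)) (t (φ n + 1)) ((φ n + 1 : ℕ):ℝ) x)^2 + ((R n)^2)^2) := by
    intro n
    exact lt_of_lt_of_le (h (φ n + 1)) (main_bound _ _ _ _ (R n) (hRpos n) (hR3 n))
  have hint : Tendsto (fun n => ∫ x in (0:ℝ)..1, ((R n)^2)^2 / ((dphi (s (φ n + 1)) (t (φ n + 1)) ((φ n + 1 : ℕ):ℝ) x)^2 + ((R n)^2)^2))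
      atTop (𝓝 (∫ x in (0:ℝ)..1, (0:ℝ))) := by
    apply intervalIntegral.tendsto_integral_filter_of_dominated_convergence (fun _ => (1:ℝ))
    · exact Eventually.of_forall fun n => (fint _ _ _ _ (by have := hRpos n; positivity)).aestronglyMeasurable
    · refine Eventually.of_forall fun n => Eventually.of_forall fun x _ => ?_
      have := hRpos n
      rw [Real.norm_eq_abs, abs_of_nonneg (by positivity), div_le_one (by positivity)]
      nlinarith [sq_nonneg (dphi (s (φ n + 1)) (t (φ n + 1)) ((φ n + 1 : ℕ):ℝ) x)]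
    · exact intervalIntegrable_const
    · have hz := (zero_set a.1 a.2.1 a.2.2 hasum).measure_zero (volume : Measure ℝ)
      have hae : ∀ᵐ x : ℝ, dphi a.1 a.2.1 a.2.2 x ≠ 0 := by
        rw [ae_iff]
        simpa using hz
      filter_upwards [hae] with x hx _
      have e1 : ∀ n, ((R n)^2)^2 / ((dphi (s (φ n + 1)) (t (φ n + 1)) ((φ n + 1 : ℕ):ℝ) x)^2 + ((R n)^2)^2) =
          1 / ((R n)^2 * (dphi (v (φ n)).1 (v (φ n)).2.1 (v (φ n)).2.2 x)^2 + 1) := by
        intro n
        have e2 : dphi (s (φ n + 1)) (t (φ n + 1)) ((φ n + 1 : ℕ):ℝ) x = (R n)^3 * dphi (v (φ n)).1 (v (φ n)).2.1 (v (φ n)).2.2 x := by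
          rw [hR3, hv]
          unfold dphi
          simp only
          have := (hMpos (φ n)).ne'
          have := (epos x).ne'
          field_simp
        rw [e2]
        have := (hRpos n).ne'
        rw [div_eq_div_iff (by have := hRpos n; positivity) (by positivity)]
        ring
      simp only [e1]
      have hdl : Tendsto (fun n => dphi (v (φ n)).1 (v (φ n)).2.1 (v (φ n)).2.2 x) atTop (𝓝 (dphi a.1 a.2.1 a.2.2 x)) := by
        unfold dphi
        exact ((l1.mul_const _).add (l2.mul_const _)).sub ((l3.const_mul 2).div_const _)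
      have hpos : 0 < (dphi a.1 a.2.1 a.2.2 x)^2 := by positivity
      have h1 : Tendsto (fun n => (R n)^2 * (dphi (v (φ n)).1 (v (φ n)).2.1 (v (φ n)).2.2 x)^2) atTop atTop :=
        Tendsto.atTop_mul_pos hpos ((tendsto_pow_atTop (by norm_num)).comp hRtop) (hdl.pow 2)
      exact Tendsto.div_atTop tendsto_const_nhds (tendsto_atTop_add_const_right _ _ h1)
  have htot : Tendsto (fun n => 1 / (R n)^2 + (3 / R n + 1 / (2 * (R n)^2)) +
      ∫ x in (0:ℝ)..1, ((R n)^2)^2 / ((dphi (s (φ n + 1)) (t (φ n + 1)) ((φ n + 1 : ℕ):ℝ) x)^2 + ((R n)^2)^2)) atTop (𝓝 (0 + (0 + 0) + 0)) := by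
    have hR2 : Tendsto (fun n => (R n)^2) atTop atTop := (tendsto_pow_atTop (by norm_num)).comp hRtop
    refine ((Tendsto.div_atTop tendsto_const_nhds hR2).add ((Tendsto.div_atTop tendsto_const_nhds hRtop).add
      (Tendsto.div_atTop tendsto_const_nhds (hR2.const_mul_atTop (by norm_num))))).add ?_
    simpa using hint
  have := ge_of_tendsto htot (Eventually.of_forall fun n => (hlt n).le)
  linarith

lemma lip (p p' : ℝ → ℝ) (hp : ∀ x, HasDerivAt p (p' x) x) (hpc : Continuous p') (hpcont : Continuous p)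
    (b : ∀ x ∈ Set.Icc (0:ℝ) 1, |p x| ≤ 3) (b' : ∀ x ∈ Set.Icc (0:ℝ) 1, |p' x| ≤ 3)
    (U : ℝ → E →L[ℂ] E) (u : ℝ → C(ℝ, ℂ)) (hu : ∀ t x, u t x = Complex.exp (((t * p x : ℝ) : ℂ) * Complex.I))
    (hub : ∀ t, ∀ g : C(ℝ, ℂ), Nn (u t * g) ≤ 1 * Nn g)
    (hU : ∀ t l g, ev (U t l) g = ev l (u t * g)) (l : E) (r r' : ℝ) :
    ‖U r l - U r' l‖ ≤ 2 * (3 * |r - r'|) * ‖l‖ := by
  rcases eq_or_ne r r' with h | h
  · rw [h]; simp
  have hr : 0 < |r - r'| := abs_pos.mpr (sub_ne_zero.mpr h)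
  apply norm_le_ev _ _ (by positivity)
  intro g
  have e1 : ev (U r l - U r' l) g = ev l ((u (r - r') - 1) * (u r' * g)) := by
    rw [ev_sub_left, hU, hU, ← ev_sub_right]
    congr 1
    ext x
    simp only [ContinuousMap.sub_apply, ContinuousMap.mul_apply, hu, ContinuousMap.one_apply]
    have : Complex.exp (((r * p x : ℝ) : ℂ) * Complex.I) = Complex.exp ((((r - r') * p x : ℝ) : ℂ) * Complex.I) * Complex.exp (((r' * p x : ℝ) : ℂ) * Complex.I) := by
      rw [← Complex.exp_add]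
      congr 1
      push_cast
      ring
    rw [this]
    ring
  rw [e1]
  refine le_trans (ev_le l _) ?_
  have h1 : ∀ g : C(ℝ, ℂ), Nn ((u (r - r') - 1) * g) ≤ (2 * (3 * |r - r'|)) * Nn g := by
    apply bd_smooth _ (fun x => Complex.exp ((((r - r') * p x : ℝ) : ℂ) * Complex.I) * ((((r - r') * p' x : ℝ) : ℂ) * Complex.I))
    · intro x
      have h2 : HasDerivAt (fun x => (((r - r') * p x : ℝ) : ℂ) * Complex.I) ((((r - r') * p' x : ℝ) : ℂ) * Complex.I) x :=
        (((hp x).const_mul (r - r')).ofReal_comp).mul_const _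
      have h3 : ((u (r - r') - 1 : C(ℝ, ℂ)) : ℝ → ℂ) = fun x => Complex.exp ((((r - r') * p x : ℝ) : ℂ) * Complex.I) - 1 := by
        ext x
        simp only [ContinuousMap.sub_apply, hu, ContinuousMap.one_apply]
      rw [h3]
      exact h2.cexp.sub_const 1
    · fun_prop
    · positivity
    · intro x hx
      simp only [ContinuousMap.sub_apply, hu, ContinuousMap.one_apply]
      rw [mul_comm]
      refine le_trans (@Real.norm_exp_I_mul_ofReal_sub_one_le ((r - r') * p x)) ?_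
      rw [Real.norm_eq_abs, abs_mul]
      nlinarith [b x hx]
    · intro x hx
      rw [norm_mul, Complex.norm_exp_ofReal_mul_I, one_mul, norm_mul, Complex.norm_I, mul_one, Complex.norm_real, Real.norm_eq_abs, abs_mul]
      nlinarith [b' x hx]
  have h2 := h1 (u r' * g)
  have h3 := hub r' g
  calc ‖l‖ * Nn ((u (r - r') - 1) * (u r' * g)) ≤ ‖l‖ * ((2 * (3 * |r - r'|)) * (1 * Nn g)) := by
        apply mul_le_mul_of_nonneg_left _ (norm_nonneg _)
        refine le_trans h2 ?_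
        exact mul_le_mul_of_nonneg_left h3 (by positivity)
    _ = 2 * (3 * |r - r'|) * ‖l‖ * Nn g := by ring

lemma op_ext {A B : E →L[ℂ] E} (h : ∀ l g, ev (A l) g = ev (B l) g) : A = B := by
  apply ContinuousLinearMap.ext
  intro l
  exact ev_ext (h l)

noncomputable def mFc : C(ℝ, ℂ) := ⟨fun x => (minv x)⁻¹, minv_cont.inv₀ (fun x => by
  intro h
  have := minv_norm x
  rw [h] at this
  simp at this)⟩

lemma minv_ne (x : ℝ) : minv x ≠ 0 := by
  intro h
  have := minv_norm x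
  rw [h] at this
  simp at this

lemma mF_bd : ∃ C : ℝ, ∀ g : C(ℝ,ℂ), Nn (mFc * g) ≤ C * Nn g := by
  apply bd_exists mFc (fun x => -(Complex.I * ((-2 / (Real.exp x + Real.exp (-x)) : ℝ) : ℂ) * minv x) / (minv x)^2)
  · intro x
    exact (minv_deriv x).inv (minv_ne x)
  · have h1 : Continuous (fun x : ℝ => -2 / (Real.exp x + Real.exp (-x))) :=
      continuous_const.div (by fun_prop) (fun x => (epos x).ne')
    exact (((continuous_const.mul (Complex.continuous_ofReal.comp h1)).mul minv_cont).neg).div (minv_cont.pow 2)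
      (fun x => pow_ne_zero 2 (minv_ne x))

/-- The negation of the preceding statement: On a complex Banach space, suppose A generates a bounded C0-semigroup and its inverse A⁻¹ also generates a bounded C0-semigroup. Then the bounded operator V with V(Ax−x)=Ax+x for all x in the domain of A has uniformly bounded powers. -/
theorem result :
    ¬ (∀ (E : Type) [NormedAddCommGroup E] [NormedSpace ℂ E] [CompleteSpace E]
      (T S : ℝ → E →L[ℂ] E),
      T 0 = 1 → S 0 = 1 →
      (∀ s t : ℝ, 0 ≤ s → 0 ≤ t → T (s + t) = T s * T t) →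
      (∀ s t : ℝ, 0 ≤ s → 0 ≤ t → S (s + t) = S s * S t) →
      (∀ x : E, ContinuousOn (fun t : ℝ => T t x) (Set.Ici 0)) →
      (∀ x : E, ContinuousOn (fun t : ℝ => S t x) (Set.Ici 0)) →
      (∃ M : ℝ, ∀ t : ℝ, 0 ≤ t → ‖T t‖ ≤ M) →
      (∃ M : ℝ, ∀ t : ℝ, 0 ≤ t → ‖S t‖ ≤ M) →
      (∀ x y : E,
        Tendsto (fun t : ℝ => t⁻¹ • (T t x - x)) (𝓝[>] 0) (𝓝 y) ↔
          Tendsto (fun t : ℝ => t⁻¹ • (S t y - y)) (𝓝[>] 0) (𝓝 x)) →
      ∀ V : E →L[ℂ] E,
        (∀ x y : E, Tendsto (fun t : ℝ => t⁻¹ • (T t x - x)) (𝓝[>] 0) (𝓝 y) →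
          V (y - x) = y + x) →
        ∃ C : ℝ, ∀ n : ℕ, ‖V ^ n‖ ≤ C) := by
  intro H
  have hexp : ∀ x : ℝ, HasDerivAt Real.exp (Real.exp x) x := Real.hasDerivAt_exp
  have hexpn : ∀ x : ℝ, HasDerivAt (fun x : ℝ => -Real.exp (-x)) (Real.exp (-x)) x := fun x => by
    refine (dexp_neg x).neg.congr_deriv (by ring)
  have b1 : ∀ x ∈ Set.Icc (0:ℝ) 1, |Real.exp x| ≤ 3 := by
    intro x hx
    rw [abs_of_pos (Real.exp_pos x)]
    have := Real.exp_le_exp.mpr hx.2
    have h2 := Real.exp_one_lt_d9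
    linarith
  have b2 : ∀ x ∈ Set.Icc (0:ℝ) 1, |Real.exp (-x)| ≤ 3 := by
    intro x hx
    rw [abs_of_pos (Real.exp_pos (-x))]
    have : Real.exp (-x) ≤ 1 := Real.exp_le_one_iff.mpr (by linarith [hx.1])
    linarith
  have b3 : ∀ x ∈ Set.Icc (0:ℝ) 1, |-Real.exp (-x)| ≤ 3 := by
    intro x hx
    rw [abs_neg]
    exact b2 x hx
  have hcn : Continuous (fun x : ℝ => -Real.exp (-x)) := by fun_prop
  have hcn' : Continuous (fun x : ℝ => Real.exp (-x)) := by fun_prop
  set T : ℝ → E →L[ℂ] E := fun r => Ad (E1c r 0) 1 (bd_E1 r 0) with hT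
  set S : ℝ → E →L[ℂ] E := fun r => Ad (E1c 0 r) 1 (bd_E1 0 r) with hS
  have hTe : ∀ t l g, ev (T t l) g = ev l (E1c t 0 * g) := fun t l g => rfl
  have hSe : ∀ t l g, ev (S t l) g = ev l (E1c 0 t * g) := fun t l g => rfl
  have hu1 : ∀ t x, (E1c t 0) x = Complex.exp (((t * Real.exp x : ℝ) : ℂ) * Complex.I) := by
    intro t x
    show E1 t 0 x = _
    unfold E1
    rw [zero_mul, sub_zero]
  have hu2 : ∀ t x, (E1c 0 t) x = Complex.exp (((t * (-Real.exp (-x)) : ℝ) : ℂ) * Complex.I) := by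
    intro t x
    show E1 0 t x = _
    unfold E1
    congr 3
    ring
  -- generators
  obtain ⟨Ca, hCa⟩ := bd_exists (aP Real.exp Real.continuous_exp) (fun x => (Real.exp x : ℂ) * Complex.I)
    (fun x => ((hexp x).ofReal_comp).mul_const _) (by fun_prop)
  obtain ⟨Cb, hCb⟩ := bd_exists (aP (fun x : ℝ => -Real.exp (-x)) hcn) (fun x => ((Real.exp (-x) : ℝ) : ℂ) * Complex.I)
    (fun x => ((hexpn x).ofReal_comp).mul_const _) (by fun_prop)
  obtain ⟨Cm, hCm⟩ := mF_bd
  set A : E →L[ℂ] E := Ad (aP Real.exp Real.continuous_exp) Ca hCa with hA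
  set B : E →L[ℂ] E := Ad (aP (fun x : ℝ => -Real.exp (-x)) hcn) Cb hCb with hB
  set V : E →L[ℂ] E := Ad mFc Cm hCm with hV
  have hAe : ∀ l g, ev (A l) g = ev l (aP Real.exp Real.continuous_exp * g) := fun l g => rfl
  have hBe : ∀ l g, ev (B l) g = ev l (aP (fun x : ℝ => -Real.exp (-x)) hcn * g) := fun l g => rfl
  have hVe : ∀ l g, ev (V l) g = ev l (mFc * g) := fun l g => rfl
  have gA : ∀ l, Tendsto (fun t : ℝ => t⁻¹ • (T t l - l)) (𝓝[>] 0) (𝓝 (A l)) := fun l =>
    gen_tendsto Real.exp Real.exp hexp Real.continuous_exp Real.continuous_exp b1 b1 T (fun t => E1c t 0) hu1 hTe A hAe l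
  have gB : ∀ l, Tendsto (fun t : ℝ => t⁻¹ • (S t l - l)) (𝓝[>] 0) (𝓝 (B l)) := fun l =>
    gen_tendsto (fun x : ℝ => -Real.exp (-x)) (fun x : ℝ => Real.exp (-x)) hexpn hcn' hcn b3 b2 S (fun t => E1c 0 t) hu2 hSe B hBe l
  have hAB : ∀ l, A (B l) = l := by
    intro l
    apply ev_ext
    intro g
    rw [hAe, hBe]
    congr 1
    ext x
    simp only [ContinuousMap.mul_apply, aP, ContinuousMap.coe_mk]
    rw [Real.exp_neg]
    push_cast [-Complex.ofReal_exp]
    have h5 : (Real.exp x : ℂ) ≠ 0 := by exact_mod_cast (Real.exp_pos x).ne'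
    field_simp
    have := Complex.I_sq
    linear_combination (-g x) * this
  have hBA : ∀ l, B (A l) = l := by
    intro l
    apply ev_ext
    intro g
    rw [hBe, hAe]
    congr 1
    ext x
    simp only [ContinuousMap.mul_apply, aP, ContinuousMap.coe_mk]
    rw [Real.exp_neg]
    push_cast [-Complex.ofReal_exp]
    have h5 : (Real.exp x : ℂ) ≠ 0 := by exact_mod_cast (Real.exp_pos x).ne'
    field_simp
    have := Complex.I_sq
    linear_combination (-g x) * this
  have hc00 : E1c 0 0 = 1 := by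
    ext x
    show E1 0 0 x = 1
    simp [E1]
  have res := H E T S
    (by
      apply op_ext
      intro l g
      rw [hTe, hc00, one_mul]
      rfl)
    (by
      apply op_ext
      intro l g
      rw [hSe, hc00, one_mul]
      rfl)
    (by
      intro s t _ _
      apply op_ext
      intro l g
      rw [hTe]
      show _ = ev (T s (T t l)) g
      rw [hTe, hTe]
      congr 1
      ext x
      simp only [ContinuousMap.mul_apply]
      show E1 (s + t) 0 x * g x = E1 t 0 x * (E1 s 0 x * g x)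
      rw [← mul_assoc, E1_mul, add_comm, zero_add])
    (by
      intro s t _ _
      apply op_ext
      intro l g
      rw [hSe]
      show _ = ev (S s (S t l)) g
      rw [hSe, hSe]
      congr 1
      ext x
      simp only [ContinuousMap.mul_apply]
      show E1 0 (s + t) x * g x = E1 0 t x * (E1 0 s x * g x)
      rw [← mul_assoc, E1_mul, add_comm, zero_add])
    (by
      intro l
      apply Continuous.continuousOn
      have : LipschitzWith (Real.toNNReal (6 * ‖l‖)) (fun t : ℝ => T t l) := by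
        apply LipschitzWith.of_dist_le_mul
        intro r r'
        rw [dist_eq_norm, Real.dist_eq, Real.coe_toNNReal _ (by positivity)]
        have := lip Real.exp Real.exp hexp Real.continuous_exp Real.continuous_exp b1 b1 T (fun t => E1c t 0) hu1 (fun t => bd_E1 t 0) hTe l r r'
        linarith
      exact this.continuous)
    (by
      intro l
      apply Continuous.continuousOn
      have : LipschitzWith (Real.toNNReal (6 * ‖l‖)) (fun t : ℝ => S t l) := by
        apply LipschitzWith.of_dist_le_mul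
        intro r r'
        rw [dist_eq_norm, Real.dist_eq, Real.coe_toNNReal _ (by positivity)]
        have := lip (fun x : ℝ => -Real.exp (-x)) (fun x : ℝ => Real.exp (-x)) hexpn hcn' hcn b3 b2 S (fun t => E1c 0 t) hu2 (fun t => bd_E1 0 t) hSe l r r'
        linarith
      exact this.continuous)
    (by
      refine ⟨1, fun t _ => ?_⟩
      apply ContinuousLinearMap.opNorm_le_bound _ (by norm_num)
      intro l
      apply norm_le_ev _ _ (by positivity)
      intro g
      rw [hTe]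
      refine le_trans (ev_le l _) ?_
      have := bd_E1 t 0 g
      nlinarith [norm_nonneg l])
    (by
      refine ⟨1, fun t _ => ?_⟩
      apply ContinuousLinearMap.opNorm_le_bound _ (by norm_num)
      intro l
      apply norm_le_ev _ _ (by positivity)
      intro g
      rw [hSe]
      refine le_trans (ev_le l _) ?_
      have := bd_E1 0 t g
      nlinarith [norm_nonneg l])
    (by
      intro x y
      constructor
      · intro h
        have hy := tendsto_nhds_unique h (gA x)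
        have := gB y
        rw [hy, hBA] at this
        rw [hy]
        exact this
      · intro h
        have hx := tendsto_nhds_unique h (gB y)
        have := gA x
        rw [hx, hAB] at this
        rw [hx]
        exact this)
    V
    (by
      intro x y h
      have hy := tendsto_nhds_unique h (gA x)
      rw [hy]
      apply ev_ext
      intro g
      rw [hVe, ev_sub_left, ev_add_left, hAe, hAe, ← ev_sub_right]
      have hadd : ∀ g g' : C(ℝ, ℂ), ev x g + ev x g' = ev x (g + g') := by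
        intro g g'
        exact (map_add x (show F from g) (show F from g')).symm
      rw [hadd]
      congr 1
      ext z
      simp only [ContinuousMap.mul_apply, ContinuousMap.sub_apply, ContinuousMap.add_apply, aP, ContinuousMap.coe_mk, mFc]
      unfold minv
      have h1 := den_ne z
      have h2 := num_ne z
      rw [inv_div]
      have hq : (Complex.I * (Real.exp z : ℂ) + 1) / (Complex.I * (Real.exp z : ℂ) - 1) * (Complex.I * (Real.exp z : ℂ) - 1) =
        Complex.I * (Real.exp z : ℂ) + 1 := div_mul_cancel₀ _ h2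
      linear_combination (g z) * hq)
  obtain ⟨C, hC⟩ := res
  set C1 := max C 1 with hC1
  have hC1pos : 0 < C1 := lt_of_lt_of_le one_pos (le_max_right _ _)
  obtain ⟨n, hn⟩ := decay (1 / (2 * C1)) (by positivity)
  -- the functional
  have hpow : ∀ (k : ℕ) (l : E) (g : C(ℝ, ℂ)), ev ((V^k) l) g = ev l (mFc^k * g) := by
    intro k
    induction k with
    | zero => intro l g; rw [pow_zero, pow_zero, one_mul]; rfl
    | succ k ih =>
      intro l g
      rw [pow_succ]
      show ev ((V^k) (V l)) g = _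
      rw [ih, hVe, pow_succ]
      congr 1
      ring
  let l0L : F →ₗ[ℂ] ℂ :=
    { toFun := fun g => pairing 0 0 Wone (show C(ℝ, ℂ) from g)
      map_add' := by
        intro f g
        show pairing 0 0 Wone ((show C(ℝ, ℂ) from f) + (show C(ℝ, ℂ) from g) : C(ℝ, ℂ)) = _
        unfold pairing
        rw [← intervalIntegral.integral_add ((pair_cont 0 0 Wone (show C(ℝ, ℂ) from f)).intervalIntegrable _ _)
          ((pair_cont 0 0 Wone (show C(ℝ, ℂ) from g)).intervalIntegrable _ _)]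
        congr 1
        ext x
        rw [ContinuousMap.add_apply]
        ring
      map_smul' := by
        intro c g
        show pairing 0 0 Wone (c • (show C(ℝ, ℂ) from g) : C(ℝ, ℂ)) = c * pairing 0 0 Wone (show C(ℝ, ℂ) from g)
        unfold pairing
        rw [← intervalIntegral.integral_const_mul]
        congr 1
        ext x
        rw [ContinuousMap.smul_apply, smul_eq_mul]
        ring }
  let l0 : E := l0L.mkContinuous 1 (by
    intro g
    rw [one_mul]
    exact le_Nn _ 0 0 Wone)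
  have hl0 : ‖l0‖ ≤ 1 := LinearMap.mkContinuous_norm_le _ (by norm_num) _
  let gn : C(ℝ, ℂ) := ⟨fun x => minv x ^ n, minv_cont.pow n⟩
  have hgn : Nn gn ≤ 1 / (2 * C1) := by
    apply Nn_le
    intro s t W
    have := hn s t W
    have e : pairing s t W gn = ∫ x in (0:ℝ)..1, uu s t n x * W.w x := by
      unfold pairing
      congr 1
      ext x
      show E1 s t x * W.w x * (minv x ^ n) = E1 s t x * minv x ^ n * W.w x
      ring
    rw [e]
    exact this
  have h1 : ev ((V^n) l0) gn = 1 := by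
    rw [hpow]
    show pairing 0 0 Wone (mFc^n * gn : C(ℝ, ℂ)) = 1
    unfold pairing
    have : ∀ x : ℝ, E1 0 0 x * Wone.w x * (mFc^n * gn : C(ℝ, ℂ)) x = 1 := by
      intro x
      rw [ContinuousMap.mul_apply, ContinuousMap.pow_apply]
      show E1 0 0 x * 1 * (((minv x)⁻¹)^n * (minv x ^ n)) = 1
      rw [← mul_pow, inv_mul_cancel₀ (minv_ne x), one_pow]
      simp [E1]
    simp only [this]
    simp
  have h2 := ev_le ((V^n) l0) gn
  rw [h1, norm_one] at h2
  have h3 : ‖(V^n) l0‖ ≤ C1 := by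
    refine le_trans ((V^n).le_opNorm l0) ?_
    have h4 := hC n
    have h5 : ‖V^n‖ ≤ C1 := le_trans h4 (le_max_left _ _)
    nlinarith [norm_nonneg (V^n), norm_nonneg l0]
  have h6 : ‖(V^n) l0‖ * Nn gn ≤ C1 * (1 / (2 * C1)) := mul_le_mul h3 hgn (Nn_nonneg _) hC1pos.le
  have h7 : C1 * (1 / (2 * C1)) = 1/2 := by field_simp
  linarith

end Pool.Agent.S1378
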