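import Pool.Statements.S1396

set_option autoImplicit false
open Pool Pool.MP_462cdc_an

namespace Pool.Agent.S1396

abbrev H := lp (fun _ : ℕ => ℝ) 2
abbrev X := WithLp 2 (ℝ × H)
abbrev Y := WithLp 1 (X × X)

/-- difference of the second components -/
noncomputable def D : Y →L[ℝ] H :=
  (WithLp.sndL 2 ℝ ℝ H).comp (WithLp.fstL 1 ℝ X X) - (WithLp.sndL 2 ℝ ℝ H).comp (WithLp.sndL 1 ℝ X X)

lemma D_apply (z : Y) : D z = z.fst.snd - z.snd.snd := rfl

noncomputable def S : Submodule ℝ Y := LinearMap.ker D.toLinearMap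

abbrev E := ↥S

lemma S_closed : IsClosed (S : Set Y) := ContinuousLinearMap.isClosed_ker D

instance : CompleteSpace E := S_closed.completeSpace_coe

noncomputable def T : E →L[ℝ] H :=
  ((WithLp.sndL 2 ℝ ℝ H).comp (WithLp.fstL 1 ℝ X X)).comp S.subtypeL

lemma T_apply (z : E) : T z = z.1.fst.snd := rfl

lemma T_apply2 (z : E) : T z = z.1.snd.snd := by
  have h : D z.1 = 0 := z.2
  rw [D_apply, sub_eq_zero] at h
  rw [T_apply, h]

/-- the section -/
noncomputable def s (y : H) : E := ⟨WithLp.toLp 1 (WithLp.toLp 2 ((0:ℝ), y), WithLp.toLp 2 ((0:ℝ), y)), by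
  show D _ = 0
  rw [D_apply]
  simp⟩

lemma T_s (y : H) : T (s y) = y := rfl

lemma norm_s (y : H) : ‖s y‖ = 2 * ‖y‖ := by
  show ‖(s y).1‖ = _
  rw [WithLp.prod_norm_eq_of_L1]
  have h1 : ‖(s y).1.fst‖ = ‖y‖ := by
    rw [WithLp.prod_norm_eq_of_L2]
    simp [s]
  have h2 : ‖(s y).1.snd‖ = ‖y‖ := by
    rw [WithLp.prod_norm_eq_of_L2]
    simp [s]
  rw [h1, h2]; ring

lemma eqcase {a b : E} (h : ‖a + b‖ = ‖a‖ + ‖b‖) (ha : T a ≠ 0) : ∃ r : ℝ, 0 ≤ r ∧ b = r • a := by
  have h' : ‖a.1 + b.1‖ = ‖a.1‖ + ‖b.1‖ := h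
  rw [WithLp.prod_norm_eq_of_L1, WithLp.prod_norm_eq_of_L1, WithLp.prod_norm_eq_of_L1] at h'
  have e1 : (a.1 + b.1).fst = a.1.fst + b.1.fst := rfl
  have e2 : (a.1 + b.1).snd = a.1.snd + b.1.snd := rfl
  rw [e1, e2] at h'
  have n1 := norm_add_le a.1.fst b.1.fst
  have n2 := norm_add_le a.1.snd b.1.snd
  have s1 : SameRay ℝ a.1.fst b.1.fst := sameRay_iff_norm_add.mpr (by linarith)
  have s2 : SameRay ℝ a.1.snd b.1.snd := sameRay_iff_norm_add.mpr (by linarith)
  have z1 : a.1.fst ≠ 0 := by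
    intro hz
    apply ha
    rw [T_apply, hz]
    rfl
  have z2 : a.1.snd ≠ 0 := by
    intro hz
    apply ha
    rw [T_apply2, hz]
    rfl
  obtain ⟨r, hr, er⟩ := s1.exists_nonneg_left z1
  obtain ⟨r', hr', er'⟩ := s2.exists_nonneg_left z2
  have t1 : T b = r • T a := by
    rw [T_apply, T_apply, ← er]; rfl
  have t2 : T b = r' • T a := by
    rw [T_apply2, T_apply2, ← er']; rfl
  have hrr : r = r' := by
    rw [t1] at t2
    exact smul_left_injective ℝ ha t2
  refine ⟨r, hr, ?_⟩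
  apply Subtype.ext
  show b.1 = r • a.1
  subst hrr
  apply WithLp.ofLp_injective
  exact Prod.ext er.symm er'.symm

lemma H_inf : ¬ FiniteDimensional ℝ H := by
  intro h
  let b : HilbertBasis ℕ ℝ H := ⟨LinearIsometryEquiv.refl ℝ H⟩
  have h1 := b.orthonormal.linearIndependent
  have := h1.finite
  exact not_finite ℕ

lemma not_strict : ¬ StrictConvexSpace ℝ E := by
  intro hs
  let u : E := ⟨WithLp.toLp 1 (WithLp.toLp 2 ((1:ℝ), (0:H)), WithLp.toLp 2 ((0:ℝ), (0:H))), by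
    show D _ = 0
    rw [D_apply]
    simp⟩
  let v : E := ⟨WithLp.toLp 1 (WithLp.toLp 2 ((0:ℝ), (0:H)), WithLp.toLp 2 ((1:ℝ), (0:H))), by
    show D _ = 0
    rw [D_apply]
    simp⟩
  have hu : ‖u‖ = 1 := by
    show ‖u.1‖ = 1
    rw [WithLp.prod_norm_eq_of_L1, WithLp.prod_norm_eq_of_L2, WithLp.prod_norm_eq_of_L2]
    simp [u]
  have hv : ‖v‖ = 1 := by
    show ‖v.1‖ = 1
    rw [WithLp.prod_norm_eq_of_L1, WithLp.prod_norm_eq_of_L2, WithLp.prod_norm_eq_of_L2]
    simp [v]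
  have huv : ‖u + v‖ = 2 := by
    show ‖u.1 + v.1‖ = 2
    rw [WithLp.prod_norm_eq_of_L1, WithLp.prod_norm_eq_of_L2, WithLp.prod_norm_eq_of_L2]
    simp [u, v]
    norm_num
  have hsr : SameRay ℝ u v := sameRay_iff_norm_add.mpr (by rw [huv, hu, hv]; norm_num)
  have hu0 : u ≠ 0 := by
    intro h; rw [h, norm_zero] at hu; norm_num at hu
  obtain ⟨r, hr, er⟩ := hsr.exists_nonneg_left hu0
  have h1 : (r • u).1.fst.fst = v.1.fst.fst := by rw [er]
  have h2 : (r • u).1.snd.fst = v.1.snd.fst := by rw [er]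
  have h3 : (r • u).1.snd.fst = r * 0 := rfl
  have h4 : v.1.snd.fst = 1 := rfl
  rw [h3, h4] at h2
  norm_num at h2

/-- The negation of the preceding statement: For every real Banach space E: if for each compact G the set of points with at most one nearest point in G is dense or non-meagre, then E is strictly convex. -/
theorem result :
    ¬ (∀ (E : Type) [NormedAddCommGroup E] [NormedSpace ℝ E] [CompleteSpace E],
      (∀ G : Set E, IsCompact G →
        (Dense {x : E | ∀ g₁ ∈ G, ∀ g₂ ∈ G,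
            (∀ y ∈ G, ‖x - g₁‖ ≤ ‖x - y‖) →
            (∀ y ∈ G, ‖x - g₂‖ ≤ ‖x - y‖) → g₁ = g₂} ∨
         ¬ IsMeagre {x : E | ∀ g₁ ∈ G, ∀ g₂ ∈ G,
            (∀ y ∈ G, ‖x - g₁‖ ≤ ‖x - y‖) →
            (∀ y ∈ G, ‖x - g₂‖ ≤ ‖x - y‖) → g₁ = g₂})) →
      StrictConvexSpace ℝ E) := by
  intro Hyp
  apply not_strict
  apply Hyp E
  intro G hG
  left
  by_contra hd
  rw [Metric.dense_iff] at hd
  push Not at hd
  obtain ⟨x0, r, hr, hball⟩ := hd
  -- every point of the ball has ≥ 2 nearest points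
  have hbad : ∀ x ∈ Metric.ball x0 r, ∃ g₁ ∈ G, ∃ g₂ ∈ G, (∀ y ∈ G, ‖x - g₁‖ ≤ ‖x - y‖) ∧
      (∀ y ∈ G, ‖x - g₂‖ ≤ ‖x - y‖) ∧ g₁ ≠ g₂ := by
    intro x hx
    by_contra hcon
    have hx2 : x ∈ Metric.ball x0 r ∩ {x : E | ∀ g₁ ∈ G, ∀ g₂ ∈ G,
            (∀ y ∈ G, ‖x - g₁‖ ≤ ‖x - y‖) →
            (∀ y ∈ G, ‖x - g₂‖ ≤ ‖x - y‖) → g₁ = g₂} := by
      refine ⟨hx, ?_⟩
      intro g₁ h1 g₂ h2 h3 h4
      by_contra hne
      exact hcon ⟨g₁, h1, g₂, h2, h3, h4, hne⟩
    rw [hball] at hx2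
    exact hx2
  -- every point of the ball has T x ∈ T '' G
  have hT : ∀ x ∈ Metric.ball x0 r, T x ∈ T '' G := by
    intro x hx
    obtain ⟨g, hg, g', hg', hn, hn', hne⟩ := hbad x hx
    set d := ‖x - g‖ with hd
    have hd0 : 0 < d := by
      rcases (norm_nonneg (x - g)).lt_or_eq with h | h
      · exact h
      · exfalso
        have h1 : ‖x - g'‖ ≤ 0 := by
          have := hn' g hg
          linarith
        have e1 : x - g = 0 := norm_eq_zero.mp h.symm
        have e2 : x - g' = 0 := norm_le_zero_iff.mp h1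
        apply hne
        rw [← sub_eq_zero.mp e1, ← sub_eq_zero.mp e2]
    have hdist : dist x x0 < r := hx
    obtain ⟨t, ht0, ht1, htr⟩ : ∃ t : ℝ, 0 < t ∧ t < 1 ∧ t * d < r - dist x x0 := by
      refine ⟨min (1/2) ((r - dist x x0) / (2 * d)), ?_, ?_, ?_⟩
      · apply lt_min (by norm_num)
        apply div_pos (by linarith) (by linarith)
      · exact (min_le_left _ _).trans_lt (by norm_num)
      · have h1 : min (1/2) ((r - dist x x0) / (2 * d)) * d ≤ ((r - dist x x0) / (2 * d)) * d :=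
          mul_le_mul_of_nonneg_right (min_le_right _ _) hd0.le
        have h2 : ((r - dist x x0) / (2 * d)) * d = (r - dist x x0) / 2 := by
          field_simp
        linarith
    set xt := x + t • (g - x) with hxt
    have e1 : x - xt = t • (x - g) := by
      rw [hxt, smul_sub, smul_sub]; abel
    have e2 : xt - g = (1 - t) • (x - g) := by
      rw [hxt]; module
    have hnx : ‖x - xt‖ = t * d := by
      rw [e1, norm_smul, Real.norm_of_nonneg ht0.le]
    have hxtball : xt ∈ Metric.ball x0 r := by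
      rw [Metric.mem_ball]
      have h1 : dist xt x0 ≤ dist xt x + dist x x0 := dist_triangle _ _ _
      have h2 : dist xt x = t * d := by rw [dist_comm, dist_eq_norm, hnx]
      linarith
    obtain ⟨a, ha, b, hb, hna, hnb, hab⟩ := hbad xt hxtball
    obtain ⟨h, hh, hnh, hhg⟩ : ∃ h ∈ G, (∀ y ∈ G, ‖xt - h‖ ≤ ‖xt - y‖) ∧ h ≠ g := by
      by_cases hag : a = g
      · refine ⟨b, hb, hnb, ?_⟩
        intro hbg
        exact hab (hag.trans hbg.symm)
      · exact ⟨a, ha, hna, hag⟩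
    have k1 : ‖xt - h‖ ≤ (1 - t) * d := by
      have := hnh g hg
      rw [e2, norm_smul, Real.norm_of_nonneg (by linarith)] at this
      exact this
    have k2 : d ≤ ‖x - h‖ := hn h hh
    have k3 : x - h = (x - xt) + (xt - h) := by abel
    have k4 : ‖x - h‖ ≤ ‖x - xt‖ + ‖xt - h‖ := by rw [k3]; exact norm_add_le _ _
    have k5 : ‖(x - xt) + (xt - h)‖ = ‖x - xt‖ + ‖xt - h‖ := by
      rw [← k3]
      linarith
    have k6 : ‖xt - h‖ = (1 - t) * d := by linarith
    by_cases hTa : T (x - xt) = 0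
    · rw [e1, map_smul, smul_eq_zero] at hTa
      rcases hTa with h0 | h0
      · linarith
      · rw [map_sub, sub_eq_zero] at h0
        exact ⟨g, hg, h0.symm⟩
    · exfalso
      obtain ⟨ρ, hρ, eρ⟩ := eqcase k5 hTa
      have n1 : (1 - t) * d = ρ * (t * d) := by
        rw [← k6, eρ, norm_smul, Real.norm_of_nonneg hρ, hnx]
      have n2 : 1 - t = ρ * t := by
        have : (1 - t) * d = (ρ * t) * d := by linarith
        exact mul_right_cancel₀ hd0.ne' this
      have n3 : xt - h = xt - g := by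
        rw [eρ, e1, e2, smul_smul, ← n2]
      apply hhg
      exact sub_right_injective n3
  -- conclusion
  have hcomp : IsCompact (T '' G) := hG.image T.continuous
  have hcb : Metric.closedBall (T x0) (r / 4) ⊆ T '' G := by
    intro y hy
    have h1 : x0 + s (y - T x0) ∈ Metric.ball x0 r := by
      rw [Metric.mem_ball, dist_eq_norm, add_sub_cancel_left, norm_s, ← dist_eq_norm]
      have : dist y (T x0) ≤ r / 4 := hy
      linarith
    have h2 := hT _ h1
    rw [map_add, T_s, add_sub_cancel] at h2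
    exact h2
  have hcc : IsCompact (Metric.closedBall (T x0) (r / 4)) :=
    hcomp.of_isClosed_subset Metric.isClosed_closedBall hcb
  exact H_inf (FiniteDimensional.of_isCompact_closedBall ℝ (by linarith) hcc)

end Pool.Agent.S1396
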