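import Pool.Statements.S1422

set_option autoImplicit false
open Pool Pool.MP_529e31_an

namespace Pool.Agent.S1422

lemma exR (N : ℕ) (r0 : ℝ) : ∃ r : ℝ, r0 + 1 ≤ r ∧ 1 ≤ r ∧ ∀ x ≥ r, (1 + x)^N ≤ Real.exp (x/2) := by
  have h := isLittleO_pow_exp_pos_mul_atTop (k := N) (b := 1/2) (by norm_num)
  have h2 := h.bound (Real.exp_pos (-1/2))
  rw [Filter.eventually_atTop] at h2
  obtain ⟨a, ha⟩ := h2
  refine ⟨max (max (r0+1) 1) a, le_trans (le_max_left _ _) (le_max_left _ _), le_trans (le_max_right _ _) (le_max_left _ _), ?_⟩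
  intro x hx
  have hx1 : 1 ≤ x := le_trans (le_trans (le_max_right _ _) (le_max_left _ _)) hx
  have hxa : a ≤ x := le_trans (le_max_right _ _) hx
  have h3 := ha (1 + x) (by linarith)
  rw [Real.norm_eq_abs, Real.norm_eq_abs, abs_of_nonneg (by positivity), abs_of_pos (Real.exp_pos _), ← Real.exp_add] at h3
  refine le_trans h3 (le_of_eq ?_)
  congr 1
  ring

noncomputable def Rf (N : ℕ) (r0 : ℝ) : ℝ := Classical.choose (exR N r0)
lemma Rf_spec (N : ℕ) (r0 : ℝ) : r0 + 1 ≤ Rf N r0 ∧ 1 ≤ Rf N r0 ∧ ∀ x ≥ Rf N r0, (1 + x)^N ≤ Real.exp (x/2) :=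
  Classical.choose_spec (exR N r0)

noncomputable def nf (r : ℝ) (m : ℕ) : ℕ := ⌈2 * Real.pi * r * Real.exp (m * (r + 1))⌉₊ + 1

noncomputable def st : ℕ → ℕ × ℝ
  | 0 => (0, 0)
  | (m+1) => ((st m).1 + nf (Rf (st m).1 (st m).2) m, Rf (st m).1 (st m).2)

noncomputable def rs (m : ℕ) : ℝ := Rf (st m).1 (st m).2
noncomputable def ns (m : ℕ) : ℕ := nf (rs m) m

lemma st_succ (m : ℕ) : st (m+1) = ((st m).1 + ns m, rs m) := rfl

lemma rs_one (m : ℕ) : 1 ≤ rs m := (Rf_spec _ _).2.1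
lemma rs_pos (m : ℕ) : 0 < rs m := lt_of_lt_of_le one_pos (rs_one m)
lemma rs_growth (m : ℕ) (x : ℝ) (hx : rs m ≤ x) : (1 + x)^((st m).1) ≤ Real.exp (x/2) := (Rf_spec _ _).2.2 x hx
lemma rs_succ (m : ℕ) : rs m + 1 ≤ rs (m+1) := by
  have := (Rf_spec (st (m+1)).1 (st (m+1)).2).1
  rw [st_succ] at this
  exact this

lemma rs_mono : Monotone rs := monotone_nat_of_le_succ (fun m => by have := rs_succ m; linarith)

lemma rs_ge (m : ℕ) : (m : ℝ) ≤ rs m := by
  induction m with
  | zero => simpa using (rs_pos 0).le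
  | succ m ih => have := rs_succ m; push_cast; linarith

lemma ns_pos (m : ℕ) : 0 < ns m := Nat.succ_pos _

lemma ns_ge (m : ℕ) : 2 * Real.pi * rs m * Real.exp (m * (rs m + 1)) ≤ ns m := by
  unfold ns nf
  push_cast
  have := Nat.le_ceil (2 * Real.pi * rs m * Real.exp (m * (rs m + 1)))
  linarith

def S : Set ℂ := {z | ∃ m, z ^ (ns m) = (rs m : ℂ) ^ (ns m)}

noncomputable def P (m : ℕ) (z : ℂ) : ℂ := ∏ i ∈ Finset.range m, (1 - (z / rs i) ^ (ns i))

lemma P_bound (m : ℕ) (z : ℂ) : ‖P m z‖ ≤ (1 + ‖z‖)^((st m).1) := by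
  induction m with
  | zero => simp [P, st]
  | succ m ih =>
    have : P (m+1) z = P m z * (1 - (z / rs m) ^ (ns m)) := by
      unfold P
      rw [Finset.prod_range_succ]
    rw [this, norm_mul, st_succ]
    simp only
    rw [pow_add]
    apply mul_le_mul ih _ (norm_nonneg _) (by positivity)
    refine le_trans (norm_sub_le _ _) ?_
    rw [norm_one, norm_pow, norm_div, Complex.norm_real, Real.norm_eq_abs, abs_of_pos (rs_pos m)]
    have h1 : ‖z‖ / rs m ≤ ‖z‖ := div_le_self (norm_nonneg _) (rs_one m)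
    have h2 : (‖z‖ / rs m)^(ns m) ≤ ‖z‖^(ns m) := pow_le_pow_left₀ (div_nonneg (norm_nonneg _) (rs_pos m).le) h1 _
    have h3 : 1 + ‖z‖^(ns m) ≤ (1 + ‖z‖)^(ns m) := by
      have := pow_add_pow_le (zero_le_one' ℝ) (norm_nonneg z) (ns_pos m).ne'
      simpa using this
    linarith

lemma P_zero (m : ℕ) : P m 0 = 1 := by
  unfold P
  apply Finset.prod_eq_one
  intro i _
  rw [zero_div, zero_pow (ns_pos i).ne', sub_zero]

lemma P_vanish (m i : ℕ) (hi : i < m) (z : ℂ) (hz : z ^ (ns i) = (rs i : ℂ) ^ (ns i)) : P m z = 0 := by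
  unfold P
  apply Finset.prod_eq_zero (Finset.mem_range.mpr hi)
  have : (rs i : ℂ) ≠ 0 := by exact_mod_cast (rs_pos i).ne'
  rw [div_pow, hz, div_self (pow_ne_zero _ this), sub_self]

lemma norm_of_mem (i : ℕ) (z : ℂ) (hz : z ^ (ns i) = (rs i : ℂ) ^ (ns i)) : ‖z‖ = rs i := by
  have h1 : ‖z‖ ^ (ns i) = (rs i) ^ (ns i) := by
    rw [← norm_pow, hz, norm_pow, Complex.norm_real, Real.norm_eq_abs, abs_of_pos (rs_pos i)]
  exact (pow_left_inj₀ (norm_nonneg _) (rs_pos i).le (ns_pos i).ne').mp h1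

lemma P_diff (m : ℕ) : Differentiable ℂ (P m) := by
  unfold P
  fun_prop

lemma net (r : ℝ) (hr : 0 < r) (n : ℕ) (hn : 0 < n) (z : ℂ) (hz : ‖z‖ = r) :
    ∃ s : ℂ, s ^ n = (r : ℂ)^n ∧ ‖s‖ = r ∧ ‖z - s‖ ≤ 2 * Real.pi * r / n := by
  have hpi := Real.pi_pos
  have hn' : (0:ℝ) < n := by exact_mod_cast hn
  set θ := Complex.arg z with hθ
  have hzθ : z = r * Complex.exp (Complex.I * θ) := by
    rw [← hz, mul_comm Complex.I]
    exact (Complex.norm_mul_exp_arg_mul_I z).symm
  set j : ℤ := ⌊θ * n / (2 * Real.pi)⌋ with hj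
  set φ : ℝ := 2 * Real.pi * j / n with hφ
  refine ⟨r * Complex.exp (Complex.I * φ), ?_, ?_, ?_⟩
  · rw [mul_pow, ← Complex.exp_nat_mul]
    have : (n : ℂ) * (Complex.I * φ) = j * (2 * Real.pi * Complex.I) := by
      rw [hφ]
      push_cast
      have : (n : ℂ) ≠ 0 := by exact_mod_cast hn.ne'
      field_simp
    rw [this, Complex.exp_int_mul_two_pi_mul_I, mul_one]
  · rw [norm_mul, mul_comm Complex.I, Complex.norm_exp_ofReal_mul_I, mul_one, Complex.norm_real, Real.norm_eq_abs, abs_of_pos hr]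
  · have e : z - r * Complex.exp (Complex.I * φ) = r * (Complex.exp (Complex.I * φ) * (Complex.exp (Complex.I * (θ - φ : ℝ)) - 1)) := by
      rw [hzθ, mul_sub, ← Complex.exp_add]
      push_cast
      have : Complex.I * φ + Complex.I * (θ - φ) = Complex.I * θ := by ring
      rw [this]
      ring
    rw [e, norm_mul, norm_mul, mul_comm Complex.I (φ : ℂ), Complex.norm_exp_ofReal_mul_I, one_mul, Complex.norm_real, Real.norm_eq_abs, abs_of_pos hr]
    have h1 := @Real.norm_exp_I_mul_ofReal_sub_one_le (θ - φ)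
    have h2 : ‖θ - φ‖ ≤ 2 * Real.pi / n := by
      rw [Real.norm_eq_abs, abs_le]
      have f1 := Int.floor_le (θ * n / (2 * Real.pi))
      have f2 := Int.lt_floor_add_one (θ * n / (2 * Real.pi))
      rw [← hj] at f1 f2
      have g1 : φ ≤ θ := by
        rw [hφ, div_le_iff₀ hn']
        rw [le_div_iff₀ (by positivity)] at f1
        linarith
      have g2 : θ ≤ φ + 2 * Real.pi / n := by
        rw [hφ, ← add_div, le_div_iff₀ hn']
        rw [div_lt_iff₀ (by positivity)] at f2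
        linarith
      have g3 : 0 < 2 * Real.pi / n := by positivity
      constructor <;> linarith
    calc r * ‖Complex.exp (Complex.I * (θ - φ : ℝ)) - 1‖ ≤ r * (2 * Real.pi / n) := by
          apply mul_le_mul_of_nonneg_left (le_trans h1 h2) hr.le
      _ = 2 * Real.pi * r / n := by ring

lemma detect (f : ℂ → ℂ) (hf : Differentiable ℂ f) (A B : ℝ) (hA : 0 < A) (hB : 0 < B)
    (hg : ∀ z : ℂ, ‖f z‖ ≤ B * Real.exp (A * ‖z‖)) (M : ℝ) (hM : ∀ z ∈ S, ‖f z‖ ≤ M) : ∀ z, ‖f z‖ ≤ M + B := by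
  intro z
  obtain ⟨m, hm⟩ := exists_nat_ge (max A (‖z‖ + 1))
  have hmA : A ≤ m := le_trans (le_max_left _ _) hm
  have hmz : ‖z‖ < rs m := by
    have h1 := le_trans (le_max_right A (‖z‖+1)) hm
    have h2 := rs_ge m
    linarith
  have hr := rs_pos m
  have hd : ∀ w : ℂ, ‖w‖ ≤ rs m → ‖deriv f w‖ ≤ B * Real.exp (A * (rs m + 1)) := by
    intro w hw
    have := Complex.norm_deriv_le_of_forall_mem_sphere_norm_le (c := w) (R := 1) (C := B * Real.exp (A * (rs m + 1))) one_pos
      hf.diffContOnCl (by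
        intro v hv
        refine le_trans (hg v) ?_
        have hv1 : ‖v‖ ≤ rs m + 1 := by
          rw [mem_sphere_iff_norm] at hv
          calc ‖v‖ = ‖(v - w) + w‖ := by rw [sub_add_cancel]
            _ ≤ ‖v - w‖ + ‖w‖ := norm_add_le _ _
            _ ≤ rs m + 1 := by rw [hv]; linarith
        apply mul_le_mul_of_nonneg_left _ hB.le
        apply Real.exp_le_exp.mpr
        exact mul_le_mul_of_nonneg_left hv1 hA.le)
    simpa using this
  have hcirc : ∀ w : ℂ, ‖w‖ = rs m → ‖f w‖ ≤ M + B := by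
    intro w hw
    obtain ⟨s, hs1, hs2, hs3⟩ := net (rs m) hr (ns m) (ns_pos m) w hw
    have hsS : s ∈ S := ⟨m, hs1⟩
    have h1 : ‖f w - f s‖ ≤ B * Real.exp (A * (rs m + 1)) * ‖w - s‖ := by
      apply Convex.norm_image_sub_le_of_norm_deriv_le (s := Metric.closedBall (0:ℂ) (rs m)) (fun x _ => hf.differentiableAt)
        (fun x hx => hd x (by simpa using hx)) (convex_closedBall _ _) (by simp [hs2]) (by simp [hw])
    have h2 : B * Real.exp (A * (rs m + 1)) * ‖w - s‖ ≤ B := by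
      have h3 : ‖w - s‖ ≤ Real.exp (-(m * (rs m + 1))) := by
        refine le_trans hs3 ?_
        rw [div_le_iff₀ (by exact_mod_cast ns_pos m)]
        have h4 := ns_ge m
        calc 2 * Real.pi * rs m = Real.exp (-(m * (rs m + 1))) * (2 * Real.pi * rs m * Real.exp (m * (rs m + 1))) := by
              rw [Real.exp_neg]
              have := (Real.exp_pos (m * (rs m + 1))).ne'
              field_simp
          _ ≤ Real.exp (-(m * (rs m + 1))) * (ns m : ℝ) := mul_le_mul_of_nonneg_left h4 (Real.exp_pos _).le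
      calc B * Real.exp (A * (rs m + 1)) * ‖w - s‖ ≤ B * Real.exp (A * (rs m + 1)) * Real.exp (-(m * (rs m + 1))) := by
            apply mul_le_mul_of_nonneg_left h3 (by positivity)
        _ = B * Real.exp (A * (rs m + 1) + -(m * (rs m + 1))) := by rw [Real.exp_add]; ring
        _ ≤ B * 1 := by
            apply mul_le_mul_of_nonneg_left _ hB.le
            apply Real.exp_le_one_iff.mpr
            nlinarith
        _ = B := mul_one B
    calc ‖f w‖ = ‖f s + (f w - f s)‖ := by rw [add_sub_cancel]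
      _ ≤ ‖f s‖ + ‖f w - f s‖ := norm_add_le _ _
      _ ≤ M + B := add_le_add (hM s hsS) (le_trans h1 h2)
  apply Complex.norm_le_of_forall_mem_frontier_norm_le (U := Metric.ball (0:ℂ) (rs m)) Metric.isBounded_ball hf.diffContOnCl
  · intro w hw
    rw [frontier_ball (0:ℂ) hr.ne'] at hw
    exact hcirc w (by simpa using hw)
  · apply subset_closure
    rwa [mem_ball_zero_iff]

/-- The negation of the preceding statement: For every ρ>0 and S in ℂ: if each entire f of order ρ finite type is bounded on S iff bounded on ℂ, then for each weight k in K_ρ there are k' in K_ρ and C>0 with ∣f∣≤k' on S implying ∣f∣≤Ck on ℂ (S sufficient). -/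
theorem result :
    ¬ (∀ ρ : ℝ, 0 < ρ → ∀ S : Set ℂ,
      (∀ f : ℂ → ℂ, Differentiable ℂ f →
        (∃ A B : ℝ, 0 < A ∧ 0 < B ∧ ∀ z : ℂ, ‖f z‖ ≤ B * Real.exp (A * ‖z‖ ^ ρ)) →
        (Bornology.IsBounded (f '' S) ↔ Bornology.IsBounded (Set.range f))) →
      ∀ k : ℂ → ℝ, Continuous k → (∀ z : ℂ, 0 < k z) →
        (∀ A : ℝ, 0 < A →
          Asymptotics.IsLittleO (Filter.cocompact ℂ) (fun z : ℂ => Real.exp (A * ‖z‖ ^ ρ)) k) →
        ∃ k' : ℂ → ℝ, Continuous k' ∧ (∀ z : ℂ, 0 < k' z) ∧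
          (∀ A : ℝ, 0 < A →
            Asymptotics.IsLittleO (Filter.cocompact ℂ) (fun z : ℂ => Real.exp (A * ‖z‖ ^ ρ)) k') ∧
          ∃ C : ℝ, 0 < C ∧
            ∀ f : ℂ → ℂ, Differentiable ℂ f →
              (∃ A B : ℝ, 0 < A ∧ 0 < B ∧ ∀ z : ℂ, ‖f z‖ ≤ B * Real.exp (A * ‖z‖ ^ ρ)) →
              (∀ z ∈ S, ‖f z‖ ≤ k' z) → ∀ z : ℂ, ‖f z‖ ≤ C * k z) := by
  intro H
  have h := H 1 one_pos S (by
    intro f hf hg
    constructor
    · intro hb
      obtain ⟨A, B, hA, hB, hg⟩ := hg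
      simp only [Real.rpow_one] at hg
      obtain ⟨M, hM⟩ := hb.exists_norm_le
      have h1 := detect f hf A B hA hB hg M (fun z hz => hM _ (Set.mem_image_of_mem f hz))
      rw [isBounded_iff_forall_norm_le]
      exact ⟨M + B, by rintro _ ⟨z, rfl⟩; exact h1 z⟩
    · intro hb
      exact hb.subset (Set.image_subset_range f S))
    (fun z => Real.exp (‖z‖^2)) (by fun_prop) (fun z => Real.exp_pos _) (by
      intro A hA
      simp only [Real.rpow_one]
      rw [Asymptotics.isLittleO_iff]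
      intro c hc
      have h1 : Filter.Tendsto (fun z : ℂ => ‖z‖) (Filter.cocompact ℂ) Filter.atTop := tendsto_norm_cocompact_atTop
      have h2 : ∀ᶠ x : ℝ in Filter.atTop, Real.exp (A * x) ≤ c * Real.exp (x^2) := by
        filter_upwards [Filter.eventually_ge_atTop (max 1 (A + |Real.log c|))] with x hx
        have hx1 : 1 ≤ x := le_trans (le_max_left _ _) hx
        have hx2 : A + |Real.log c| ≤ x := le_trans (le_max_right _ _) hx
        have hc' : c = Real.exp (Real.log c) := (Real.exp_log hc).symm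
        have e : c * Real.exp (x^2) = Real.exp (Real.log c + x^2) := by
          rw [Real.exp_add, Real.exp_log hc]
        rw [e]
        apply Real.exp_le_exp.mpr
        have h3 := neg_abs_le (Real.log c)
        have h4 := abs_nonneg (Real.log c)
        nlinarith
      filter_upwards [h1.eventually h2] with z hz
      rw [Real.norm_eq_abs, Real.norm_eq_abs, abs_of_pos (Real.exp_pos _), abs_of_pos (Real.exp_pos _)]
      exact hz)
  obtain ⟨k', hk'c, hk'pos, hk'o, C, hC, hfin⟩ := h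
  have h1 := (hk'o 1 one_pos).bound one_pos
  simp only [Real.rpow_one, one_mul] at h1
  -- radius
  have h2 : ∃ R : ℝ, ∀ z : ℂ, R ≤ ‖z‖ → Real.exp ‖z‖ ≤ k' z := by
    rw [Filter.Eventually, Filter.mem_cocompact] at h1
    obtain ⟨t, ht, hsub⟩ := h1
    obtain ⟨R, hR⟩ := ht.isBounded.exists_norm_le
    refine ⟨R + 1, fun z hz => ?_⟩
    have hzt : z ∈ tᶜ := by
      intro hzt
      have := hR z hzt
      linarith
    have h3 := hsub hzt
    simp only [Set.mem_ofPred_eq, Real.norm_eq_abs] at h3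
    rwa [abs_of_pos (Real.exp_pos _), abs_of_pos (hk'pos z)] at h3
  obtain ⟨R, hR⟩ := h2
  obtain ⟨m, hm⟩ := exists_nat_ge (max R (2 * (C * Real.exp 0 + 1)))
  have hmR : R ≤ rs m := le_trans (le_trans (le_max_left _ _) hm) (rs_ge m)
  have hmC : 2 * (C * Real.exp 0 + 1) ≤ rs m := le_trans (le_trans (le_max_right _ _) hm) (rs_ge m)
  have hfm := hfin (fun z => (Real.exp (rs m / 2) : ℂ) * P m z) ((differentiable_const _).mul (P_diff m)) (by
    -- growth
    obtain ⟨r, -, hr1, hr⟩ := exR (st m).1 0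
    refine ⟨1, Real.exp (rs m / 2) * (1 + r)^((st m).1), one_pos, by positivity, ?_⟩
    intro z
    simp only [Real.rpow_one, one_mul]
    rw [norm_mul, Complex.norm_real, Real.norm_eq_abs, abs_of_pos (Real.exp_pos _), mul_assoc]
    apply mul_le_mul_of_nonneg_left _ (Real.exp_pos _).le
    refine le_trans (P_bound m z) ?_
    by_cases hz : r ≤ ‖z‖
    · have h3 := hr ‖z‖ hz
      have h4 : 1 ≤ (1 + r)^((st m).1) := one_le_pow₀ (by linarith)
      have h5 : Real.exp (‖z‖/2) ≤ Real.exp ‖z‖ := Real.exp_le_exp.mpr (by linarith [norm_nonneg z])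
      calc (1 + ‖z‖)^((st m).1) ≤ 1 * Real.exp ‖z‖ := by rw [one_mul]; linarith
        _ ≤ _ := mul_le_mul_of_nonneg_right h4 (Real.exp_pos _).le
    · push Not at hz
      have h3 : (1 + ‖z‖)^((st m).1) ≤ (1 + r)^((st m).1) := pow_le_pow_left₀ (by positivity) (by linarith) _
      have h4 : 1 ≤ Real.exp ‖z‖ := Real.one_le_exp (norm_nonneg z)
      calc (1 + ‖z‖)^((st m).1) ≤ (1 + r)^((st m).1) * 1 := by rw [mul_one]; exact h3
        _ ≤ _ := mul_le_mul_of_nonneg_left h4 (by positivity)) (by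
    intro z hz
    obtain ⟨i, hi⟩ := hz
    by_cases him : i < m
    · simp only [P_vanish m i him z hi, mul_zero, norm_zero]
      exact (hk'pos z).le
    · push Not at him
      have hn := norm_of_mem i z hi
      have h3 : rs m ≤ ‖z‖ := by rw [hn]; exact rs_mono him
      have h4 := rs_growth m ‖z‖ h3
      have h5 := P_bound m z
      rw [norm_mul, Complex.norm_real, Real.norm_eq_abs, abs_of_pos (Real.exp_pos _)]
      calc Real.exp (rs m / 2) * ‖P m z‖ ≤ Real.exp (‖z‖ / 2) * Real.exp (‖z‖ / 2) := by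
            apply mul_le_mul (Real.exp_le_exp.mpr (by linarith)) (le_trans h5 h4) (norm_nonneg _) (Real.exp_pos _).le
        _ = Real.exp ‖z‖ := by rw [← Real.exp_add]; congr 1; ring
        _ ≤ k' z := hR z (le_trans hmR h3)) 0
  simp only [P_zero, mul_one, norm_zero] at hfm
  rw [Complex.norm_real, Real.norm_eq_abs, abs_of_pos (Real.exp_pos _)] at hfm
  have h6 := Real.add_one_le_exp (rs m / 2)
  have h7 : (0:ℝ)^2 = 0 := by norm_num
  rw [h7] at hfm
  linarith

end Pool.Agent.S1422
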