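import Pool.Statements.S1438

set_option autoImplicit false
open Pool Pool.MP_5bcbac_an

namespace Pool.Agent.S1438

abbrev H := EuclideanSpace ℂ (Fin 2)

noncomputable def emb (A : Matrix (Fin 2) (Fin 2) ℂ) : H →L[ℂ] H := Matrix.toEuclideanCLM (n := Fin 2) (𝕜 := ℂ) A

lemma emb_mul (A B : Matrix (Fin 2) (Fin 2) ℂ) : emb (A * B) = emb A * emb B := map_mul _ A B
lemma emb_sub (A B : Matrix (Fin 2) (Fin 2) ℂ) : emb (A - B) = emb A - emb B := map_sub _ A B
lemma emb_add (A B : Matrix (Fin 2) (Fin 2) ℂ) : emb (A + B) = emb A + emb B := map_add _ A B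
lemma emb_pow (A : Matrix (Fin 2) (Fin 2) ℂ) (k : ℕ) : emb (A ^ k) = emb A ^ k := map_pow _ A k
lemma emb_one : emb 1 = 1 := map_one _
lemma emb_star (A : Matrix (Fin 2) (Fin 2) ℂ) : emb (star A) = star (emb A) := map_star _ A
lemma emb_smul (c : ℂ) (A : Matrix (Fin 2) (Fin 2) ℂ) : emb (c • A) = c • emb A := map_smul _ c A

lemma emb_trace (A : Matrix (Fin 2) (Fin 2) ℂ) :
    LinearMap.trace ℂ H ((emb A : H →L[ℂ] H) : H →ₗ[ℂ] H) = A.trace := by
  unfold emb
  rw [Matrix.coe_toEuclideanCLM_eq_toEuclideanLin, Matrix.toEuclideanLin_eq_toLin_orthonormal,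
    LinearMap.trace_eq_matrix_trace ℂ (EuclideanSpace.basisFun (Fin 2) ℂ).toBasis, LinearMap.toMatrix_toLin]

/-- projection-type matrices are fixed by powers -/
lemma proj_cfc (X : H →L[ℂ] H) (hX : IsIdempotentElem X) (hs : IsSelfAdjoint X) (p : ℝ) (hp : 0 < p) :
    cfc (fun x : ℝ => x ^ p) X = X := by
  have h1 : cfc (fun x : ℝ => x ^ p) X = cfc (fun x : ℝ => x) X := by
    apply cfc_congr
    intro x hx
    have := IsIdempotentElem.spectrum_subset ℝ hX hx
    rcases this with h | h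
    · simp only [h]
      rw [Real.zero_rpow hp.ne']
    · rw [Set.mem_singleton_iff] at h
      simp only [h]
      rw [Real.one_rpow]
  rw [h1, cfc_id' ℝ X]

noncomputable def Xm : Matrix (Fin 2) (Fin 2) ℂ := !![576/625, -168/625; -168/625, 49/625]
noncomputable def Ym : Matrix (Fin 2) (Fin 2) ℂ := !![576/625, 168/625; 168/625, 49/625]
noncomputable def Mm : Matrix (Fin 2) (Fin 2) ℂ := !![576/625, 0; 0, 49/625]

lemma Xm_idem : Xm * Xm = Xm := by
  unfold Xm
  ext i j
  fin_cases i <;> fin_cases j <;> simp [Matrix.mul_apply, Fin.sum_univ_two] <;> norm_num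

lemma Ym_idem : Ym * Ym = Ym := by
  unfold Ym
  ext i j
  fin_cases i <;> fin_cases j <;> simp [Matrix.mul_apply, Fin.sum_univ_two] <;> norm_num

lemma Xm_star : star Xm = Xm := by
  unfold Xm
  ext i j
  fin_cases i <;> fin_cases j <;> simp [Matrix.star_apply]

lemma Ym_star : star Ym = Ym := by
  unfold Ym
  ext i j
  fin_cases i <;> fin_cases j <;> simp [Matrix.star_apply]

lemma Mm_star : star Mm = Mm := by
  unfold Mm
  ext i j
  fin_cases i <;> fin_cases j <;> simp [Matrix.star_apply]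

lemma Mm_poly : (Mm - (576/625 : ℂ) • 1) * (Mm - (49/625 : ℂ) • 1) = 0 := by
  unfold Mm
  ext i j
  fin_cases i <;> fin_cases j <;> simp [Matrix.mul_apply, Fin.sum_univ_two, Matrix.one_apply]

lemma spec_M : spectrum ℝ (emb Mm) ⊆ {(576/625 : ℝ), 49/625} := by
  intro x hx
  by_contra hne
  rw [Set.mem_insert_iff, Set.mem_singleton_iff] at hne
  push Not at hne
  apply hx
  -- show that x - M is a unit
  have hx1 : (x - 576/625 : ℂ) ≠ 0 := by
    intro h
    apply hne.1
    have : (x : ℂ) = ((576/625 : ℝ) : ℂ) := by push_cast; linear_combination h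
    exact_mod_cast this
  have hx2 : (x - 49/625 : ℂ) ≠ 0 := by
    intro h
    apply hne.2
    have : (x : ℂ) = ((49/625 : ℝ) : ℂ) := by push_cast; linear_combination h
    exact_mod_cast this
  have e : (algebraMap ℝ (H →L[ℂ] H)) x - emb Mm = emb !![x - 576/625, 0; 0, x - 49/625] := by
    have h1 : (algebraMap ℝ (H →L[ℂ] H)) x = emb ((x : ℂ) • 1) := by
      rw [emb_smul, emb_one]
      ext v
      simp [Algebra.algebraMap_eq_smul_one]
    rw [h1, ← emb_sub]
    congr 1
    unfold Mm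
    ext i j
    fin_cases i <;> fin_cases j <;> simp
  show IsUnit ((algebraMap ℝ (H →L[ℂ] H)) x - emb Mm)
  rw [e]
  refine ⟨⟨emb !![x - 576/625, 0; 0, x - 49/625], emb !![(x - 576/625)⁻¹, 0; 0, (x - 49/625)⁻¹], ?_, ?_⟩, rfl⟩
  · rw [← emb_mul, ← emb_one]
    congr 1
    ext i j
    fin_cases i <;> fin_cases j <;> simp [Matrix.mul_apply, Fin.sum_univ_two, hx1, hx2]
  · rw [← emb_mul, ← emb_one]
    congr 1
    ext i j
    fin_cases i <;> fin_cases j <;> simp [Matrix.mul_apply, Fin.sum_univ_two, hx1, hx2]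

lemma M_cfc (g : ℝ → ℝ) : cfc g (emb Mm) = emb !![((g (576/625) : ℝ) : ℂ), 0; 0, ((g (49/625) : ℝ) : ℂ)] := by
  set a : ℝ := (g (576/625) - g (49/625)) / (527/625) with ha
  set b : ℝ := g (576/625) - a * (576/625) with hb
  have hs : IsSelfAdjoint (emb Mm) := by
    rw [isSelfAdjoint_iff, ← emb_star, Mm_star]
  have h1 : cfc g (emb Mm) = cfc (fun x : ℝ => a * x + b) (emb Mm) := by
    apply cfc_congr
    intro x hx
    have := spec_M hx
    rcases this with h | h
    · simp only [h]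
      rw [hb]; ring
    · rw [Set.mem_singleton_iff] at h
      simp only [h]
      rw [hb, ha]; ring
  rw [h1, cfc_add_const (R := ℝ) b (fun x => a * x) (emb Mm), cfc_const_mul_id a (emb Mm)]
  have h2 : (algebraMap ℝ (H →L[ℂ] H)) b = emb ((b : ℂ) • 1) := by
    rw [emb_smul, emb_one]
    ext v
    simp [Algebra.algebraMap_eq_smul_one]
  have h3 : a • emb Mm = emb ((a : ℂ) • Mm) := by
    rw [emb_smul]
    ext v
    simp
  rw [h2, h3, ← emb_add]
  congr 1
  unfold Mm
  ext i j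
  fin_cases i <;> fin_cases j
  · simp
    rw [hb]; push_cast; ring
  · simp
  · simp
  · simp
    rw [hb, ha]; push_cast; ring

/-- The negation of the preceding statement: For all positive semidefinite operators X, Y on C^n and all p ≥ 2, the map t ↦ Tr[(Y − (tX^p + (1−t)Y^p)^(1/p))^2] is non-decreasing on [0,1]. -/
theorem result :
    ¬ (∀ (n : ℕ) (X Y : EuclideanSpace ℂ (Fin n) →L[ℂ] EuclideanSpace ℂ (Fin n)) (p : ℝ),
      0 ≤ X → 0 ≤ Y → 2 ≤ p →
      MonotoneOn
        (fun t : ℝ =>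
          (LinearMap.trace ℂ (EuclideanSpace ℂ (Fin n))
            (((Y - cfc (fun x : ℝ => x ^ (1 / p))
                ((t : ℂ) • cfc (fun x : ℝ => x ^ p) X
                  + ((1 - t : ℝ) : ℂ) • cfc (fun x : ℝ => x ^ p) Y)) ^ 2 :
                EuclideanSpace ℂ (Fin n) →L[ℂ] EuclideanSpace ℂ (Fin n)) :
              EuclideanSpace ℂ (Fin n) →ₗ[ℂ] EuclideanSpace ℂ (Fin n))).re)
        (Set.Icc (0 : ℝ) 1)) := by
  intro Hyp
  have hXs : IsSelfAdjoint (emb Xm) := by rw [isSelfAdjoint_iff, ← emb_star, Xm_star]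
  have hYs : IsSelfAdjoint (emb Ym) := by rw [isSelfAdjoint_iff, ← emb_star, Ym_star]
  have hXi : IsIdempotentElem (emb Xm) := by
    show emb Xm * emb Xm = emb Xm
    rw [← emb_mul, Xm_idem]
  have hYi : IsIdempotentElem (emb Ym) := by
    show emb Ym * emb Ym = emb Ym
    rw [← emb_mul, Ym_idem]
  have hX0 : 0 ≤ emb Xm := by
    have : emb Xm = star (emb Xm) * emb Xm := by rw [hXs.star_eq]; exact hXi.symm
    rw [this]
    exact star_mul_self_nonneg _
  have hY0 : 0 ≤ emb Ym := by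
    have : emb Ym = star (emb Ym) * emb Ym := by rw [hYs.star_eq]; exact hYi.symm
    rw [this]
    exact star_mul_self_nonneg _
  have hm := Hyp 2 (emb Xm) (emb Ym) 32 hX0 hY0 (by norm_num)
  have h12 := hm (a := 1/2) (b := 1) (by constructor <;> norm_num) (by constructor <;> norm_num) (by norm_num)
  simp only at h12
  rw [proj_cfc (emb Xm) hXi hXs 32 (by norm_num), proj_cfc (emb Ym) hYi hYs 32 (by norm_num)] at h12
  have e1 : (((1/2 : ℝ) : ℂ) • emb Xm + ((1 - 1/2 : ℝ) : ℂ) • emb Ym) = emb Mm := by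
    rw [← emb_smul, ← emb_smul, ← emb_add]
    congr 1
    unfold Xm Ym Mm
    ext i j
    fin_cases i <;> fin_cases j <;> simp <;> norm_num
  have e2 : (((1 : ℝ) : ℂ) • emb Xm + ((1 - 1 : ℝ) : ℂ) • emb Ym) = emb Xm := by
    rw [← emb_smul, ← emb_smul, ← emb_add]
    congr 1
    unfold Xm Ym
    ext i j
    fin_cases i <;> fin_cases j <;> simp
  rw [e1, e2, M_cfc, proj_cfc (emb Xm) hXi hXs (1/32) (by norm_num), ← emb_sub, ← emb_sub, ← emb_pow, ← emb_pow,
    emb_trace, emb_trace] at h12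
  set α : ℝ := (576/625 : ℝ) ^ (1/32 : ℝ) with hα
  set β : ℝ := (49/625 : ℝ) ^ (1/32 : ℝ) with hβ
  have t1 : ((Ym - !![(α : ℂ), 0; 0, (β : ℂ)]) ^ 2).trace = (((576/625 - α)^2 + (49/625 - β)^2 + 2 * (168/625)^2 : ℝ) : ℂ) := by
    rw [pow_two, Matrix.trace_fin_two]
    unfold Ym
    simp [Matrix.mul_apply, Fin.sum_univ_two]
    ring
  have t2 : ((Ym - Xm) ^ 2).trace = ((8 * (168/625)^2 : ℝ) : ℂ) := by
    rw [pow_two, Matrix.trace_fin_two]
    unfold Ym Xm
    simp [Matrix.mul_apply, Fin.sum_univ_two]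
    norm_num
  rw [t1, t2, Complex.ofReal_re, Complex.ofReal_re] at h12
  have hβ' : (92/100 : ℝ) ≤ β := by
    rw [hβ]
    have : (92/100 : ℝ) = ((92/100 : ℝ)^(32:ℕ)) ^ (1/32 : ℝ) := by
      rw [← Real.rpow_natCast, ← Real.rpow_mul (by norm_num)]
      norm_num
    rw [this]
    apply Real.rpow_le_rpow (by norm_num) (by norm_num) (by norm_num)
  nlinarith [sq_nonneg (576/625 - α), sq_nonneg (β - 92/100)]

end Pool.Agent.S1438
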