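import Pool.Statements.S1495

set_option autoImplicit false
open Pool Pool.MP_6f6574_an

namespace Pool.Agent.S1495
open Complex Topology Filter Metric

/-- inverse of an injective holomorphic function on the disc -/
lemma exists_inverse (f : ℂ → ℂ) (hf : DifferentiableOn ℂ f (ball 0 1)) (hinj : Set.InjOn f (ball 0 1)) :
    IsOpen (f '' ball 0 1) ∧ ∃ g : ℂ → ℂ, (∀ z ∈ ball (0:ℂ) 1, g (f z) = z) ∧
      (∀ w ∈ f '' ball (0:ℂ) 1, AnalyticAt ℂ g w) ∧ (∀ z ∈ ball (0:ℂ) 1, deriv f z ≠ 0) := by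
  have han : AnalyticOnNhd ℂ f (ball 0 1) := hf.analyticOnNhd isOpen_ball
  have hpre : IsPreconnected (ball (0:ℂ) 1) := (convex_ball (0:ℂ) 1).isPreconnected
  have hopen : ∀ s ⊆ ball (0:ℂ) 1, IsOpen s → IsOpen (f '' s) := by
    rcases han.is_constant_or_isOpen hpre with h | h
    · exfalso
      obtain ⟨w, hw⟩ := h
      have h0 : (0:ℂ) ∈ ball (0:ℂ) 1 := by simp
      have h1 : (1/2:ℂ) ∈ ball (0:ℂ) 1 := by rw [mem_ball_zero_iff]; norm_num
      have := hinj h0 h1 (by rw [hw _ h0, hw _ h1])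
      norm_num at this
    · exact h
  have hO := hopen _ subset_rfl isOpen_ball
  refine ⟨hO, Function.invFunOn f (ball 0 1), ?_, ?_⟩
  · intro z hz
    exact hinj.leftInvOn_invFunOn hz
  set g := Function.invFunOn f (ball 0 1) with hg
  have hgf : ∀ z ∈ ball (0:ℂ) 1, g (f z) = z := fun z hz => hinj.leftInvOn_invFunOn hz
  have hfg : ∀ w ∈ f '' ball (0:ℂ) 1, f (g w) = w := fun w hw => Function.invFunOn_eq hw
  have hgm : ∀ w ∈ f '' ball (0:ℂ) 1, g w ∈ ball (0:ℂ) 1 := fun w hw => Function.invFunOn_mem hw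
  have hcont : ∀ w ∈ f '' ball (0:ℂ) 1, ContinuousAt g w := by
    rintro _ ⟨z, hz, rfl⟩
    rw [ContinuousAt, hgf z hz, _root_.tendsto_nhds]
    intro s hs hzs
    have h1 : IsOpen (f '' (s ∩ ball 0 1)) := hopen _ Set.inter_subset_right (hs.inter isOpen_ball)
    have h2 : f z ∈ f '' (s ∩ ball 0 1) := ⟨z, ⟨hzs, hz⟩, rfl⟩
    filter_upwards [h1.mem_nhds h2] with w hw
    obtain ⟨u, hu, rfl⟩ := hw
    show g (f u) ∈ s
    rw [hgf u hu.2]
    exact hu.1
  have hdiff : ∀ w ∈ f '' ball (0:ℂ) 1, deriv f (g w) ≠ 0 → DifferentiableAt ℂ g w := by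
    intro w hw hne
    have hfa : HasDerivAt f (deriv f (g w)) (g w) := ((hf.differentiableAt (isOpen_ball.mem_nhds (hgm w hw)))).hasDerivAt
    have : ∀ᶠ y in 𝓝 w, f (g y) = y := by
      filter_upwards [hO.mem_nhds hw] with y hy
      exact hfg y hy
    exact (HasDerivAt.of_local_left_inverse (hcont w hw) hfa hne this).differentiableAt
  have hgan : ∀ w ∈ f '' ball (0:ℂ) 1, AnalyticAt ℂ g w := by
    intro w hw
    apply analyticAt_of_differentiable_on_punctured_nhds_of_continuousAt _ (hcont w hw)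
    obtain ⟨z, hz, rfl⟩ := hw
    have hd : AnalyticAt ℂ (deriv f) z := (han z hz).deriv
    have hne : ∀ᶠ u in 𝓝[≠] z, deriv f u ≠ 0 := by
      rcases hd.eventually_eq_zero_or_eventually_ne_zero with h | h
      · exfalso
        -- f locally constant near z
        obtain ⟨ε, hε, hball⟩ := Metric.eventually_nhds_iff_ball.mp (h.and (isOpen_ball.mem_nhds hz : ∀ᶠ u in 𝓝 z, u ∈ ball (0:ℂ) 1))
        have hc : ∀ u ∈ ball z ε, f u = f z := by
          intro u hu
          have := (convex_ball z ε).is_const_of_fderivWithin_eq_zero (f := f) (𝕜 := ℂ)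
            (fun v hv => (hf.differentiableAt (isOpen_ball.mem_nhds (hball v hv).2)).differentiableWithinAt)
            (fun v hv => by
              rw [fderivWithin_of_isOpen isOpen_ball hv]
              ext
              simp [(hball v hv).1])
            hu (mem_ball_self hε)
          exact this
        have hu : z + (ε/2 : ℝ) ∈ ball z ε := by
          rw [mem_ball, dist_eq_norm]
          simp only [add_sub_cancel_left, Complex.norm_real, Real.norm_eq_abs]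
          rw [abs_of_pos (by positivity)]
          linarith
        have := hinj (hball _ hu).2 hz (hc _ hu)
        have h3 : ((ε/2 : ℝ) : ℂ) = 0 := by linear_combination this
        have h4 : ε/2 = 0 := by exact_mod_cast h3
        linarith
      · exact h
    -- transport to w
    have hT : Tendsto g (𝓝[≠] (f z)) (𝓝[≠] z) := by
      apply tendsto_nhdsWithin_of_tendsto_nhds_of_eventually_within
      · have := hcont (f z) ⟨z, hz, rfl⟩
        rw [ContinuousAt, hgf z hz] at this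
        exact this.mono_left nhdsWithin_le_nhds
      · have h1 : ∀ᶠ w in 𝓝[≠] (f z), w ∈ f '' ball (0:ℂ) 1 := nhdsWithin_le_nhds (hO.mem_nhds ⟨z, hz, rfl⟩)
        filter_upwards [h1, self_mem_nhdsWithin] with w hw hne
        intro h
        apply hne
        rw [Set.mem_singleton_iff] at h ⊢
        rw [← hfg w hw, h]
    have h1 : ∀ᶠ w in 𝓝[≠] (f z), w ∈ f '' ball (0:ℂ) 1 := nhdsWithin_le_nhds (hO.mem_nhds ⟨z, hz, rfl⟩)
    filter_upwards [hT.eventually hne, h1] with w hw1 hw2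
    exact hdiff w hw2 hw1
  refine ⟨hgan, ?_⟩
  intro z hz h0
  have h1 : HasDerivAt f (deriv f z) z := (hf.differentiableAt (isOpen_ball.mem_nhds hz)).hasDerivAt
  have h2 : HasDerivAt g (deriv g (f z)) (f z) := (hgan (f z) ⟨z, hz, rfl⟩).differentiableAt.hasDerivAt
  have h3 : HasDerivAt (g ∘ f) (deriv g (f z) * deriv f z) z := h2.comp z h1
  have h4 : HasDerivAt (g ∘ f) 1 z := by
    apply (hasDerivAt_id z).congr_of_eventuallyEq
    filter_upwards [isOpen_ball.mem_nhds hz] with u hu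
    exact hgf u hu
  have := h3.unique h4
  rw [h0, mul_zero] at this
  exact zero_ne_one this

lemma real_mul_re_aux (a : ℝ) (w : ℂ) : ((a:ℂ) * w).re = a * w.re := by simp

lemma study (f : ℂ → ℂ) (hf : DifferentiableOn ℂ f (ball 0 1)) (f0 : f 0 = 0)
    (hconv : Convex ℝ (f '' ball 0 1)) (g : ℂ → ℂ) (hgf : ∀ z ∈ ball (0:ℂ) 1, g (f z) = z)
    (hg : ∀ w ∈ f '' ball (0:ℂ) 1, AnalyticAt ℂ g w) (z c : ℂ) (hz : z ∈ ball (0:ℂ) 1) (hc : ‖c‖ ≤ 1)
    (t : ℝ) (ht0 : 0 ≤ t) (ht1 : t ≤ 1) : ‖g (f z + (t:ℂ) * (f (c * z) - f z))‖ ≤ ‖z‖ := by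
  have hcz : ∀ u ∈ ball (0:ℂ) 1, c * u ∈ ball (0:ℂ) 1 := by
    intro u hu
    rw [mem_ball_zero_iff] at hu ⊢
    rw [norm_mul]
    nlinarith [norm_nonneg u, norm_nonneg c]
  have hmem : ∀ u ∈ ball (0:ℂ) 1, f u + (t:ℂ) * (f (c * u) - f u) ∈ f '' ball (0:ℂ) 1 := by
    intro u hu
    have := hconv ⟨u, hu, rfl⟩ ⟨c * u, hcz u hu, rfl⟩ (show 0 ≤ 1 - t by linarith) ht0 (by ring)
    convert this using 1
    simp only [Complex.real_smul]
    push_cast
    ring
  have hk := norm_le_norm_of_mapsTo_ball (f := fun u => g (f u + (t:ℂ) * (f (c * u) - f u))) (R := 1) (z := z)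
    (by
      intro u hu
      have h1 : DifferentiableAt ℂ f u := hf.differentiableAt (isOpen_ball.mem_nhds hu)
      have h2 : DifferentiableAt ℂ f (c * u) := hf.differentiableAt (isOpen_ball.mem_nhds (hcz u hu))
      have h3 : DifferentiableAt ℂ (fun u => f (c * u)) u := h2.comp u (by fun_prop)
      have h4 : DifferentiableAt ℂ (fun u => f u + (t:ℂ) * (f (c * u) - f u)) u := by fun_prop
      exact ((hg _ (hmem u hu)).differentiableAt.comp u h4).differentiableWithinAt)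
    (by
      intro u hu
      obtain ⟨v, hv, hvw⟩ := hmem u hu
      simp only
      rw [← hvw, hgf v hv]
      exact ball_subset_closedBall hv)
    (by
      simp only [mul_zero, f0, sub_zero, add_zero]
      have := hgf 0 (by simp)
      rwa [f0] at this)
    (by rwa [mem_ball_zero_iff] at hz)
  exact hk

lemma study_deriv (f : ℂ → ℂ) (hf : DifferentiableOn ℂ f (ball 0 1)) (f0 : f 0 = 0)
    (hconv : Convex ℝ (f '' ball 0 1)) (g : ℂ → ℂ) (hgf : ∀ z ∈ ball (0:ℂ) 1, g (f z) = z)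
    (hg : ∀ w ∈ f '' ball (0:ℂ) 1, AnalyticAt ℂ g w) (hd : ∀ z ∈ ball (0:ℂ) 1, deriv f z ≠ 0)
    (z ζ : ℂ) (hz : z ∈ ball (0:ℂ) 1) (hζ : ‖ζ‖ ≤ ‖z‖) (hz0 : z ≠ 0) :
    ((starRingEnd ℂ z) * ((f ζ - f z) / deriv f z)).re ≤ 0 := by
  have hzn : 0 < ‖z‖ := norm_pos_iff.mpr hz0
  obtain ⟨c, hc, hcz⟩ : ∃ c : ℂ, ‖c‖ ≤ 1 ∧ c * z = ζ := by
    refine ⟨ζ / z, ?_, div_mul_cancel₀ _ hz0⟩
    rw [norm_div, div_le_one hzn]
    exact hζ
  have hfd : HasDerivAt f (deriv f z) z := (hf.differentiableAt (isOpen_ball.mem_nhds hz)).hasDerivAt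
  have hgd : HasDerivAt g (deriv g (f z)) (f z) := (hg (f z) ⟨z, hz, rfl⟩).differentiableAt.hasDerivAt
  have hgd' : deriv g (f z) = (deriv f z)⁻¹ := by
    have h3 : HasDerivAt (g ∘ f) (deriv g (f z) * deriv f z) z := hgd.comp z hfd
    have h4 : HasDerivAt (g ∘ f) 1 z := by
      apply (hasDerivAt_id z).congr_of_eventuallyEq
      filter_upwards [isOpen_ball.mem_nhds hz] with u hu
      exact hgf u hu
    exact eq_inv_of_mul_eq_one_left (h3.unique h4)
  rw [hgd'] at hgd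
  set φ : ℝ → ℂ := fun t => g (f z + (t:ℂ) * (f ζ - f z)) with hφ
  have hlin : HasDerivAt (fun x : ℂ => f z + x * (f ζ - f z)) (1 * (f ζ - f z)) 0 :=
    ((hasDerivAt_id (0:ℂ)).mul_const _).const_add _
  have hφd : HasDerivAt φ ((deriv f z)⁻¹ * (1 * (f ζ - f z))) 0 := by
    have hgd2 : HasDerivAt g ((deriv f z)⁻¹) ((fun x : ℂ => f z + x * (f ζ - f z)) 0) := by
      simpa using hgd
    have h5 : HasDerivAt (fun x : ℂ => g (f z + x * (f ζ - f z))) ((deriv f z)⁻¹ * (1 * (f ζ - f z))) (((0:ℝ):ℂ)) := by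
      rw [Complex.ofReal_zero]
      exact HasDerivAt.comp (0:ℂ) hgd2 hlin
    exact h5.comp_ofReal
  have hψ := hφd.norm_sq
  have hφ0 : φ 0 = z := by
    rw [hφ]
    simp [hgf z hz]
  have hlim := hψ.tendsto_slope_zero_right
  have hle : 2 * inner ℝ (φ 0) ((deriv f z)⁻¹ * (1 * (f ζ - f z))) ≤ 0 := by
    apply le_of_tendsto hlim
    have hev : ∀ᶠ t : ℝ in 𝓝[>] 0, t ∈ Set.Ioo (0:ℝ) 1 := Ioo_mem_nhdsGT one_pos
    filter_upwards [hev] with t ht
    have h6 := study f hf f0 hconv g hgf hg z c hz hc t ht.1.le ht.2.le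
    rw [hcz] at h6
    simp only [zero_add, smul_eq_mul, Pi.pow_apply]
    rw [hφ0]
    have h7 : ‖φ t‖ ≤ ‖z‖ := h6
    have h8 : ‖φ t‖^2 ≤ ‖z‖^2 := pow_le_pow_left₀ (norm_nonneg _) h7 2
    have h9 : 0 < t⁻¹ := inv_pos.mpr ht.1
    nlinarith
  rw [hφ0, Complex.inner] at hle
  have e : (deriv f z)⁻¹ * (1 * (f ζ - f z)) = (f ζ - f z) / deriv f z := by
    rw [one_mul, div_eq_inv_mul]
  rw [e] at hle
  rw [mul_comm]
  linarith

lemma surj (f : ℂ → ℂ) (hf : DifferentiableOn ℂ f (ball 0 1)) (f0 : f 0 = 0)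
    (hO : IsOpen (f '' ball 0 1)) (M : ℝ) (hM : ∀ z ∈ ball (0:ℂ) 1, ‖z‖ ≤ M * ‖f z‖) (w : ℂ) (hw : M * ‖w‖ < 1)
    (hM0 : 0 < M) : w ∈ f '' ball (0:ℂ) 1 := by
  by_contra hcon
  have hK : IsCompact (f '' closedBall 0 (M * ‖w‖)) := by
    apply (isCompact_closedBall _ _).image_of_continuousOn
    apply hf.continuousOn.mono
    exact closedBall_subset_ball hw
  have hpre : IsPreconnected (segment ℝ (0:ℂ) w) := (convex_segment (0:ℂ) w).isPreconnected
  have h := hpre (f '' ball 0 1) (f '' closedBall 0 (M * ‖w‖))ᶜ hO hK.isClosed.isOpen_compl (by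
    intro p hp
    by_cases hpu : p ∈ f '' ball (0:ℂ) 1
    · exact Or.inl hpu
    · right
      intro hpk
      apply hpu
      exact Set.image_mono (closedBall_subset_ball hw) hpk)
    ⟨0, left_mem_segment _ _ _, 0, by simp, f0⟩
    ⟨w, right_mem_segment _ _ _, fun hk => hcon (Set.image_mono (closedBall_subset_ball hw) hk)⟩
  obtain ⟨p, hp, ⟨ζ, hζ, hζp⟩, hpk⟩ := h
  apply hpk
  refine ⟨ζ, ?_, hζp⟩
  rw [mem_closedBall_zero_iff]
  have h1 := hM ζ hζ
  rw [hζp] at h1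
  have h2 : ‖p‖ ≤ ‖w‖ := by
    obtain ⟨a, b, ha, hb, hab, rfl⟩ := hp
    rw [smul_zero, zero_add, norm_smul, Real.norm_eq_abs, abs_of_nonneg hb]
    nlinarith [norm_nonneg w]
  nlinarith

lemma pointwise (f : ℂ → ℂ) (hf : DifferentiableOn ℂ f (ball 0 1)) (hinj : Set.InjOn f (ball 0 1)) (f0 : f 0 = 0)
    (hconv : Convex ℝ (f '' ball 0 1)) (M : ℝ) (hM : ∀ z ∈ ball (0:ℂ) 1, z ≠ 0 → ‖z / f z‖ ≤ M)
    (z : ℂ) (hz : z ∈ ball (0:ℂ) 1) (hz0 : z ≠ 0) : ‖(deriv f z)⁻¹‖ ≤ M * (f z / z / deriv f z).re := by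
  obtain ⟨hO, g, hgf, hg, hd⟩ := exists_inverse f hf hinj
  have hfne : ∀ z ∈ ball (0:ℂ) 1, z ≠ 0 → f z ≠ 0 := by
    intro z hz hz0 h
    exact hz0 (hinj hz (by simp) (by rw [h, f0]))
  have hM0 : 0 < M := by
    have h1 : (1/2:ℂ) ∈ ball (0:ℂ) 1 := by rw [mem_ball_zero_iff]; norm_num
    have h2 := hM _ h1 (by norm_num)
    have h3 : 0 < ‖(1/2:ℂ) / f (1/2)‖ := norm_pos_iff.mpr (div_ne_zero (by norm_num) (hfne _ h1 (by norm_num)))
    linarith
  have hM' : ∀ z ∈ ball (0:ℂ) 1, ‖z‖ ≤ M * ‖f z‖ := by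
    intro z hz
    by_cases h : z = 0
    · rw [h, norm_zero]; positivity
    · have h1 := hM z hz h
      rw [norm_div, div_le_iff₀ (norm_pos_iff.mpr (hfne z hz h))] at h1
      exact h1
  have hzn : 0 < ‖z‖ := norm_pos_iff.mpr hz0
  have hdz := hd z hz
  have hdn : 0 < ‖deriv f z‖ := norm_pos_iff.mpr hdz
  have hz1 : ‖z‖ < 1 := by rwa [mem_ball_zero_iff] at hz
  have key : ∀ s : ℝ, 0 ≤ s → M * s < ‖z‖ → s / (‖z‖ * ‖deriv f z‖) ≤ (f z / z / deriv f z).re := by
    intro s hs hMs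
    set D := z * deriv f z with hD
    have hDne : D ≠ 0 := mul_ne_zero hz0 hdz
    have hDn : 0 < ‖D‖ := norm_pos_iff.mpr hDne
    set w : ℂ := (s:ℂ) * (D / (‖D‖:ℂ)) with hw
    have hwn : ‖w‖ = s := by
      rw [hw, norm_mul, norm_div, Complex.norm_real, Complex.norm_real, norm_norm, div_self hDn.ne', mul_one,
        Real.norm_eq_abs, abs_of_nonneg hs]
    obtain ⟨ζ, hζ, hζw⟩ := surj f hf f0 hO M hM' w (by rw [hwn]; linarith) hM0
    have hζz : ‖ζ‖ ≤ ‖z‖ := by
      have := hM' ζ hζ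
      rw [hζw, hwn] at this
      linarith
    have h1 := study_deriv f hf f0 hconv g hgf hg hd z ζ hz hζz hz0
    rw [hζw] at h1
    have e1 : (starRingEnd ℂ z) * ((w - f z) / deriv f z) = ((‖z‖^2 : ℝ) : ℂ) * (w / D - f z / z / deriv f z) := by
      have h2 : (starRingEnd ℂ z) * z = ((‖z‖^2 : ℝ) : ℂ) := by
        rw [← Complex.normSq_eq_conj_mul_self, Complex.sq_norm]
      rw [← h2, hD]
      field_simp
    rw [e1, real_mul_re_aux] at h1
    have h3 : (w / D - f z / z / deriv f z).re ≤ 0 := by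
      have : 0 < ‖z‖^2 := by positivity
      by_contra hcon
      push Not at hcon
      have := mul_pos this hcon
      linarith
    have e2 : w / D = ((s / ‖D‖ : ℝ) : ℂ) := by
      rw [hw]
      push_cast
      have : (‖D‖ : ℂ) ≠ 0 := by exact_mod_cast hDn.ne'
      field_simp
    rw [e2, Complex.sub_re, Complex.ofReal_re] at h3
    have e3 : ‖D‖ = ‖z‖ * ‖deriv f z‖ := by rw [hD, norm_mul]
    rw [e3] at h3
    linarith
  rw [norm_inv]
  have hlim : (‖z‖ / M) / (‖z‖ * ‖deriv f z‖) ≤ (f z / z / deriv f z).re := by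
    by_contra hcon
    push Not at hcon
    rw [lt_div_iff₀ (by positivity)] at hcon
    set X := (f z / z / deriv f z).re with hX
    obtain ⟨s, hs1, hs2⟩ := exists_between (max_lt hcon (by positivity : 0 < ‖z‖ / M))
    have hs0 : 0 ≤ s := le_trans (le_max_right _ _) hs1.le
    have hsX : X * (‖z‖ * ‖deriv f z‖) < s := lt_of_le_of_lt (le_max_left _ _) hs1
    have h1 := key s hs0 (by rw [lt_div_iff₀ hM0] at hs2; linarith)
    rw [div_le_iff₀ (by positivity)] at h1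
    linarith
  have e4 : (‖z‖ / M) / (‖z‖ * ‖deriv f z‖) = ‖deriv f z‖⁻¹ / M := by
    field_simp
  rw [e4, div_le_iff₀ hM0] at hlim
  linarith

/-- For every normalized univalent map f of the unit disc onto a convex domain, and every 0<r<1, the mean over the circle of radius r of ∣1/f'∣ is at most any upper bound M of ∣z/f(z)∣ on the punctured disc. -/
theorem result :
    ∀ f : ℂ → ℂ, DifferentiableOn ℂ f (Metric.ball 0 1) →
      Set.InjOn f (Metric.ball 0 1) → f 0 = 0 → deriv f 0 = 1 →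
      Convex ℝ (f '' Metric.ball 0 1) →
      ∀ M : ℝ, (∀ z ∈ Metric.ball (0:ℂ) 1, z ≠ 0 → ‖z / f z‖ ≤ M) →
      ∀ r : ℝ, 0 < r → r < 1 →
        (1 / (2 * Real.pi)) * ∫ θ in (0:ℝ)..(2 * Real.pi), ‖(deriv f (circleMap 0 r θ))⁻¹‖ ≤ M := by
  intro f hf hinj f0 f1 hconv M hM r hr0 hr1
  obtain ⟨hO, g, hgf, hg, hd⟩ := exists_inverse f hf hinj
  set H : ℂ → ℂ := fun z => dslope f 0 z / deriv f z with hH
  have hds : DifferentiableOn ℂ (dslope f 0) (ball 0 1) :=
    (differentiableOn_dslope (isOpen_ball.mem_nhds (by simp))).mpr hf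
  have hdd : DifferentiableOn ℂ (deriv f) (ball 0 1) := hf.deriv isOpen_ball
  have hHd : DifferentiableOn ℂ H (ball 0 1) := hds.div hdd hd
  have hcl : closure (ball (0:ℂ) |r|) ⊆ ball 0 1 := by
    rw [abs_of_pos hr0, closure_ball _ hr0.ne']
    exact closedBall_subset_ball hr1
  have hmean := DiffContOnCl.circleAverage (f := H) (c := 0) (R := r) ((hHd.mono hcl).diffContOnCl)
  have hH0 : H 0 = 1 := by
    rw [hH]
    simp only [dslope_same]
    rw [f1]; norm_num
  rw [hH0, Real.circleAverage_def] at hmean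
  have hcm : ∀ θ : ℝ, circleMap 0 r θ ∈ ball (0:ℂ) 1 ∧ circleMap 0 r θ ≠ 0 := by
    intro θ
    constructor
    · rw [mem_ball_zero_iff, norm_circleMap_zero, abs_of_pos hr0]; exact hr1
    · exact circleMap_ne_center hr0.ne'
  have hpt : ∀ θ : ℝ, ‖(deriv f (circleMap 0 r θ))⁻¹‖ ≤ M * (H (circleMap 0 r θ)).re := by
    intro θ
    obtain ⟨h1, h2⟩ := hcm θ
    have := pointwise f hf hinj f0 hconv M hM _ h1 h2
    have e : H (circleMap 0 r θ) = f (circleMap 0 r θ) / circleMap 0 r θ / deriv f (circleMap 0 r θ) := by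
      rw [hH]
      simp only
      rw [dslope_of_ne _ h2, slope_def_field, f0, sub_zero, sub_zero]
    rw [e]
    exact this
  have hcontH : Continuous (fun θ : ℝ => H (circleMap 0 r θ)) := by
    have := hHd.continuousOn.comp_continuous (continuous_circleMap 0 r) (fun θ => (hcm θ).1)
    exact this
  have hcontd : Continuous (fun θ : ℝ => ‖(deriv f (circleMap 0 r θ))⁻¹‖) := by
    have h1 : Continuous (fun θ : ℝ => deriv f (circleMap 0 r θ)) :=
      hdd.continuousOn.comp_continuous (continuous_circleMap 0 r) (fun θ => (hcm θ).1)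
    exact (h1.inv₀ (fun θ => hd _ (hcm θ).1)).norm
  have hcontre : Continuous (fun θ : ℝ => M * (H (circleMap 0 r θ)).re) :=
    continuous_const.mul (Complex.continuous_re.comp hcontH)
  have hint : ∫ θ in (0:ℝ)..(2 * Real.pi), ‖(deriv f (circleMap 0 r θ))⁻¹‖ ≤
      ∫ θ in (0:ℝ)..(2 * Real.pi), M * (H (circleMap 0 r θ)).re := by
    apply intervalIntegral.integral_mono_on (by positivity) (hcontd.intervalIntegrable _ _)
      (hcontre.intervalIntegrable _ _)
    intro θ _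
    exact hpt θ
  have hre : ∫ θ in (0:ℝ)..(2 * Real.pi), (H (circleMap 0 r θ)).re = 2 * Real.pi := by
    have h1 : (∫ θ in (0:ℝ)..(2 * Real.pi), H (circleMap 0 r θ)).re = ∫ θ in (0:ℝ)..(2 * Real.pi), (H (circleMap 0 r θ)).re := by
      have hi : IntervalIntegrable (fun θ : ℝ => H (circleMap 0 r θ)) MeasureTheory.volume 0 (2 * Real.pi) :=
        hcontH.intervalIntegrable _ _
      have := Complex.reCLM.intervalIntegral_comp_comm hi
      exact this.symm
    rw [← h1]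
    have h2 : ∫ θ in (0:ℝ)..(2 * Real.pi), H (circleMap 0 r θ) = ((2 * Real.pi : ℝ) : ℂ) := by
      have h3 : ((2 * Real.pi)⁻¹ : ℝ) • ∫ θ in (0:ℝ)..(2 * Real.pi), H (circleMap 0 r θ) = (1:ℂ) := hmean
      have hpi : (2 * Real.pi : ℝ) ≠ 0 := by positivity
      calc ∫ θ in (0:ℝ)..(2 * Real.pi), H (circleMap 0 r θ)
          = (2 * Real.pi : ℝ) • ((2 * Real.pi)⁻¹ : ℝ) • ∫ θ in (0:ℝ)..(2 * Real.pi), H (circleMap 0 r θ) := by
            rw [smul_inv_smul₀ hpi]
        _ = ((2 * Real.pi : ℝ) : ℂ) := by rw [h3, Complex.real_smul, mul_one]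
    rw [h2, Complex.ofReal_re]
  rw [intervalIntegral.integral_const_mul, hre] at hint
  have hpi : 0 < 2 * Real.pi := by positivity
  rw [one_div, inv_mul_le_iff₀ hpi]
  linarith

end Pool.Agent.S1495
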