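import Pool.Statements.S1524

set_option autoImplicit false
open Matrix
open Pool Pool.MP_79babf_an

namespace Pool.Agent.S1524

/-- Kahan-type rows -/
noncomputable def Lm (c s κ : ℝ) (r m : ℕ) : ℝ := κ * (s^m * (if m < r then -c else if m = r then 1 else 0))

noncomputable def vv (c s κ : ℝ) (j m : ℕ) : ℝ := if m < j then -(κ * c * s^m) else 0

lemma sum1 (c s κ : ℝ) (hcs : s^2 = 1 - c^2) (j r : ℕ) (hjr : j ≤ r) (K : ℕ) :
    ∑ m ∈ Finset.range K, (Lm c s κ r m - vv c s κ j m)^2 =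
      κ^2 * (if K ≤ j then 0 else if K ≤ r then s^(2*j) - s^(2*K) else s^(2*j)) := by
  induction K with
  | zero => simp
  | succ K ih =>
    rw [Finset.sum_range_succ, ih]
    unfold Lm vv
    have hc2 : c^2 = 1 - s^2 := by linarith
    by_cases h1 : K + 1 ≤ j
    · rw [if_pos (by omega), if_pos (by omega), if_pos (by omega), if_pos (by omega)]
      ring
    · rw [if_neg (by omega : ¬ K < j), if_neg (by omega : ¬ K + 1 ≤ j)]
      by_cases h2 : K + 1 ≤ r
      · rw [if_pos (by omega : K < r), if_pos h2]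
        by_cases h3 : K ≤ j
        · have : K = j := by omega
          subst this
          rw [if_pos (le_refl _)]
          have : (κ * (s ^ K * -c) - 0)^2 = κ^2 * (s^(2*K) * c^2) := by ring
          rw [this, hc2]
          ring
        · rw [if_neg h3, if_pos (by omega : K ≤ r)]
          have : (κ * (s ^ K * -c) - 0)^2 = κ^2 * (s^(2*K) * c^2) := by ring
          rw [this, hc2]
          ring
      · rw [if_neg (by omega : ¬ K < r), if_neg h2]
        by_cases h3 : K = r
        · rw [if_pos h3]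
          by_cases h4 : K ≤ j
          · have : K = j := by omega
            rw [if_pos h4, this]
            ring
          · rw [if_neg h4, if_pos (by omega)]
            ring
        · rw [if_neg h3, if_neg (by omega), if_neg (by omega)]
          ring

lemma sum2 (c s κ : ℝ) (hs : s ≠ 0) (i K : ℕ) :
    ∑ m ∈ Finset.range K, Lm c s κ i m * ((1+c)^m / s^m) =
      κ * (if K ≤ i then 1 - (1+c)^K else 1) := by
  induction K with
  | zero => simp
  | succ K ih =>
    rw [Finset.sum_range_succ, ih]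
    unfold Lm
    have hsK : s^K ≠ 0 := pow_ne_zero _ hs
    by_cases h2 : K + 1 ≤ i
    · rw [if_pos (by omega : K ≤ i), if_pos (by omega : K < i), if_pos h2]
      field_simp
      ring
    · rw [if_neg h2, if_neg (by omega : ¬ K < i)]
      by_cases h3 : K = i
      · rw [if_pos h3, if_pos (by omega : K ≤ i)]
        field_simp
        ring
      · rw [if_neg h3, if_neg (by omega : ¬ K ≤ i)]
        ring

lemma vv_succ (c s κ : ℝ) (j m : ℕ) :
    vv c s κ (j+1) m = (1 + c) * vv c s κ j m - c * Lm c s κ j m := by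
  unfold vv Lm
  by_cases h1 : m < j
  · rw [if_pos (by omega), if_pos h1, if_pos h1]; ring
  · rw [if_neg h1, if_neg h1]
    by_cases h2 : m = j
    · rw [if_pos (by omega), if_pos h2]; ring
    · rw [if_neg (by omega), if_neg h2]; ring

section
variable {k : ℕ}

noncomputable def LE (c s κ : ℝ) (r : ℕ) : EuclideanSpace ℝ (Fin k) := WithLp.toLp 2 (fun m => Lm c s κ r m)
noncomputable def vE (c s κ : ℝ) (r : ℕ) : EuclideanSpace ℝ (Fin k) := WithLp.toLp 2 (fun m => vv c s κ r m)

lemma vE_mem (c s κ : ℝ) (P : Fin k → EuclideanSpace ℝ (Fin k)) (hP : ∀ i : Fin k, P i = LE c s κ i)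
    (j : ℕ) (hj : j ≤ k) :
    (vE c s κ j : EuclideanSpace ℝ (Fin k)) ∈ Submodule.span ℝ (P '' {i | (i:ℕ) < j}) := by
  induction j with
  | zero =>
    have : (vE c s κ 0 : EuclideanSpace ℝ (Fin k)) = 0 := by
      ext m
      simp [vE, vv]
    rw [this]
    exact zero_mem _
  | succ j ih =>
    have h1 := ih (by omega)
    have h2 : (vE c s κ (j+1) : EuclideanSpace ℝ (Fin k)) = (1 + c) • vE c s κ j - c • LE c s κ j := by
      ext m
      simp only [vE, LE, PiLp.sub_apply, PiLp.smul_apply, smul_eq_mul]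
      exact vv_succ c s κ j m
    rw [h2]
    apply Submodule.sub_mem
    · apply Submodule.smul_mem
      refine Submodule.span_mono ?_ h1
      apply Set.image_mono
      intro i (hi : (i:ℕ) < j)
      show (i:ℕ) < j + 1
      omega
    · apply Submodule.smul_mem
      apply Submodule.subset_span
      refine ⟨⟨j, by omega⟩, ?_, ?_⟩
      · show j < j + 1
        omega
      · rw [hP]

lemma norm_LE_sub (c s κ : ℝ) (hκ : 0 ≤ κ) (hs : 0 ≤ s) (hcs : s^2 = 1 - c^2) (j r : ℕ) (hjr : j ≤ r) (hr : r < k) :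
    ‖(LE c s κ r - vE c s κ j : EuclideanSpace ℝ (Fin k))‖ = κ * s^j := by
  rw [EuclideanSpace.norm_eq]
  have h : ∑ m : Fin k, ‖(LE c s κ r - vE c s κ j : EuclideanSpace ℝ (Fin k)) m‖^2 =
      ∑ m ∈ Finset.range k, (Lm c s κ r m - vv c s κ j m)^2 := by
    rw [← Fin.sum_univ_eq_sum_range (fun m => (Lm c s κ r m - vv c s κ j m)^2)]
    apply Finset.sum_congr rfl
    intro m _
    rw [Real.norm_eq_abs, sq_abs]
    rfl
  rw [h, sum1 c s κ hcs j r hjr k, if_neg (by omega), if_neg (by omega)]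
  have : κ^2 * s^(2*j) = (κ * s^j)^2 := by ring
  rw [this, Real.sqrt_sq (by positivity)]

/-- lower bound on the distance -/
lemma lower (c s κ : ℝ) (hκ : 0 ≤ κ) (hs : 0 ≤ s) (j : Fin k) (P : Fin k → EuclideanSpace ℝ (Fin k))
    (hP : ∀ i, P i = LE c s κ i) :
    κ * s^(j:ℕ) ≤ Metric.infDist (P j) (Submodule.span ℝ (P '' {i | i < j}) : Set (EuclideanSpace ℝ (Fin k))) := by
  have hne : (Submodule.span ℝ (P '' {i | i < j}) : Set (EuclideanSpace ℝ (Fin k))).Nonempty := ⟨0, zero_mem _⟩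
  rw [Metric.le_infDist hne]
  intro y hy
  have hy0 : y j = 0 := by
    have : y ∈ LinearMap.ker (EuclideanSpace.proj j : EuclideanSpace ℝ (Fin k) →L[ℝ] ℝ).toLinearMap := by
      refine Submodule.span_le.mpr ?_ hy
      rintro _ ⟨i, hi, rfl⟩
      have hi' : i < j := hi
      show (P i) j = 0
      rw [hP]
      show Lm c s κ i j = 0
      unfold Lm
      have h1 : ¬ (j:ℕ) < (i:ℕ) := by
        have := Fin.lt_def.mp hi'
        omega
      have h2 : ¬ (j:ℕ) = (i:ℕ) := by
        have := Fin.lt_def.mp hi'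
        omega
      rw [if_neg h1, if_neg h2]
      ring
    exact this
  rw [dist_eq_norm]
  have h1 := PiLp.norm_apply_le (P j - y) j
  have h2 : (P j - y) j = κ * s^(j:ℕ) := by
    show (P j) j - y j = _
    rw [hy0, hP]
    show Lm c s κ j j - 0 = _
    unfold Lm
    rw [if_neg (lt_irrefl _), if_pos rfl]
    ring
  rw [h2, Real.norm_of_nonneg (by positivity)] at h1
  exact h1

end

lemma exists_B {k : ℕ} (hk : 0 < k) (L : Matrix (Fin k) (Fin k) ℝ) (hL : ∀ i, ∑ j, L i j ^ 2 = 1 / k) :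
    ∃ B : Matrix (Fin k) (Fin k) ℝ, Lᵀ * L + Bᵀ * B = 1 ∧ ∀ a j, B a j ^ 2 ≤ 1 := by
  have hk' : (0:ℝ) < k := by exact_mod_cast hk
  have hpsd : (1 - Lᵀ * L).PosSemidef := by
    apply Matrix.PosSemidef.of_dotProduct_mulVec_nonneg
    · show (1 - Lᵀ * L)ᴴ = _
      rw [conjTranspose_eq_transpose_of_trivial, transpose_sub, transpose_mul, transpose_transpose, transpose_one]
    · intro x
      have h1 : star x ⬝ᵥ (1 - Lᵀ * L) *ᵥ x = x ⬝ᵥ x - (L *ᵥ x) ⬝ᵥ (L *ᵥ x) := by
        rw [sub_mulVec, one_mulVec, dotProduct_sub, star_trivial, ← mulVec_mulVec]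
        congr 1
        rw [dotProduct_mulVec, vecMul_transpose]
      rw [h1, sub_nonneg]
      have h2 : (L *ᵥ x) ⬝ᵥ (L *ᵥ x) = ∑ i, (∑ j, L i j * x j)^2 := by
        simp only [dotProduct, mulVec]
        apply Finset.sum_congr rfl
        intro i _
        rw [sq]
      rw [h2]
      have h3 : ∀ i, (∑ j, L i j * x j)^2 ≤ (1/k) * (x ⬝ᵥ x) := by
        intro i
        have h4 := Finset.sum_mul_sq_le_sq_mul_sq Finset.univ (fun j => L i j) x
        rw [hL i] at h4
        refine h4.trans_eq ?_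
        congr 1
        simp only [dotProduct]
        apply Finset.sum_congr rfl
        intro i _
        rw [sq]
      calc ∑ i, (∑ j, L i j * x j)^2 ≤ ∑ i : Fin k, (1/k) * (x ⬝ᵥ x) := Finset.sum_le_sum (fun i _ => h3 i)
        _ = x ⬝ᵥ x := by
          rw [Finset.sum_const, Finset.card_univ, Fintype.card_fin, nsmul_eq_mul]
          field_simp
  open scoped MatrixOrder in
  obtain ⟨B, hB⟩ := CStarAlgebra.nonneg_iff_eq_star_mul_self.mp hpsd.nonneg
  rw [star_eq_conjTranspose, conjTranspose_eq_transpose_of_trivial] at hB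
  refine ⟨B, by rw [← hB]; abel, ?_⟩
  intro a j
  have h5 := congrFun (congrFun hB j) j
  simp only [Matrix.sub_apply, one_apply_eq, mul_apply, transpose_apply] at h5
  have h6 : 0 ≤ ∑ x, L x j * L x j := Finset.sum_nonneg (fun x _ => mul_self_nonneg _)
  have h7 : B a j * B a j ≤ ∑ x, B x j * B x j :=
    Finset.single_le_sum (f := fun x => B x j * B x j) (fun x _ => mul_self_nonneg _) (Finset.mem_univ a)
  rw [sq]
  linarith


/-- for each `N ≥ 1` an example with exponential growth -/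
lemma example_N (N : ℕ) (hN : 1 ≤ N) : ∃ n k : ℕ, k < n ∧ (n:ℝ) ≤ 81 * (N:ℝ)^6 ∧
    ∃ Q : Matrix (Fin n) (Fin k) ℝ, Qᵀ * Q = 1 ∧ ∃ σ : Fin k → Fin n,
        (∀ j : Fin k, ∀ r : Fin n,
          Metric.infDist (WithLp.toLp 2 (Q r) : EuclideanSpace ℝ (Fin k))
              (Submodule.span ℝ
                ((fun i : Fin k => (WithLp.toLp 2 (Q (σ i)) : EuclideanSpace ℝ (Fin k))) ''
                  {i | i < j}) : Set (EuclideanSpace ℝ (Fin k)))
            ≤ Metric.infDist (WithLp.toLp 2 (Q (σ j)) : EuclideanSpace ℝ (Fin k))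
              (Submodule.span ℝ
                ((fun i : Fin k => (WithLp.toLp 2 (Q (σ i)) : EuclideanSpace ℝ (Fin k))) ''
                  {i | i < j}) : Set (EuclideanSpace ℝ (Fin k)))) ∧
        (∀ j : Fin k, ∀ r : Fin n, r < σ j →
          Metric.infDist (WithLp.toLp 2 (Q r) : EuclideanSpace ℝ (Fin k))
              (Submodule.span ℝ
                ((fun i : Fin k => (WithLp.toLp 2 (Q (σ i)) : EuclideanSpace ℝ (Fin k))) ''
                  {i | i < j}) : Set (EuclideanSpace ℝ (Fin k)))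
            < Metric.infDist (WithLp.toLp 2 (Q (σ j)) : EuclideanSpace ℝ (Fin k))
              (Submodule.span ℝ
                ((fun i : Fin k => (WithLp.toLp 2 (Q (σ i)) : EuclideanSpace ℝ (Fin k))) ''
                  {i | i < j}) : Set (EuclideanSpace ℝ (Fin k)))) ∧
        ∃ x : Fin k → ℝ,
          ‖(WithLp.toLp 2 ((Q.submatrix σ id) *ᵥ x) : EuclideanSpace ℝ (Fin k))‖ = 1 ∧
          (2:ℝ)^N ≤ ‖(WithLp.toLp 2 x : EuclideanSpace ℝ (Fin k))‖ := by
  obtain ⟨k, hk⟩ : ∃ k, k = 2 * N^2 + 1 := ⟨_, rfl⟩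
  obtain ⟨m, hm⟩ : ∃ m, m = 2 * k^2 := ⟨_, rfl⟩
  have hN0 : (0:ℝ) < N := by exact_mod_cast hN
  have hN1 : (1:ℝ) ≤ N := by exact_mod_cast hN
  have hk0 : 0 < k := by omega
  have hkR : (0:ℝ) < k := by exact_mod_cast hk0
  have hkR1 : (1:ℝ) ≤ k := by exact_mod_cast hk0
  have hm0 : 0 < m := by rw [hm]; positivity
  have hmR : (m:ℝ) = 2 * (k:ℝ)^2 := by rw [hm]; push_cast; ring
  have hmR0 : (0:ℝ) < m := by exact_mod_cast hm0
  obtain ⟨c, hc⟩ : ∃ c : ℝ, c = 1 / (2 * N) := ⟨_, rfl⟩
  have hc0 : 0 < c := by rw [hc]; positivity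
  have hc2 : c^2 = 1 / (4 * N^2) := by rw [hc]; ring
  have hc2' : c^2 ≤ 1/4 := by
    rw [hc2]
    apply one_div_le_one_div_of_le (by norm_num)
    nlinarith
  obtain ⟨s, hs⟩ : ∃ s : ℝ, s = √(1 - c^2) := ⟨_, rfl⟩
  have hcs : s^2 = 1 - c^2 := by rw [hs]; exact Real.sq_sqrt (by linarith)
  have hs0 : 0 < s := by rw [hs]; exact Real.sqrt_pos.mpr (by linarith)
  have hs1 : s ≤ 1 := by
    nlinarith [sq_nonneg c]
  obtain ⟨κ, hκ⟩ : ∃ κ : ℝ, κ = 1 / √k := ⟨_, rfl⟩
  have hκ0 : 0 < κ := by rw [hκ]; positivity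
  have hκ2 : κ^2 = 1 / k := by rw [hκ, div_pow, Real.sq_sqrt hkR.le]; ring
  -- power bound
  have hspow : ∀ j, j < k → 1/2 ≤ s^(2*j) := by
    intro j hj
    have h1 : s^(2*(k-1)) ≤ s^(2*j) := pow_le_pow_of_le_one hs0.le hs1 (by omega)
    have h2 : (1:ℝ) + ((k-1 : ℕ):ℝ) * (-c^2) ≤ (1 + (-c^2))^(k-1) :=
      one_add_mul_le_pow (by linarith) (k-1)
    have h3 : ((k-1 : ℕ):ℝ) = 2 * N^2 := by rw [hk]; push_cast [Nat.add_sub_cancel]; ring
    rw [h3] at h2
    have h4 : (2 * (N:ℝ)^2) * (-c^2) = -(1/2) := by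
      rw [hc2]; field_simp; norm_num
    rw [h4] at h2
    have h5 : (1 + (-c^2))^(k-1) = s^(2*(k-1)) := by rw [pow_mul, hcs]; ring
    rw [h5] at h2
    linarith
  let L : Matrix (Fin k) (Fin k) ℝ := fun i j => Lm c s κ i j
  have hL : ∀ i, ∑ j, L i j ^ 2 = 1 / k := by
    intro i
    have h1 := sum1 c s κ hcs 0 i (Nat.zero_le _) k
    rw [if_neg (by omega), if_neg (by omega)] at h1
    rw [← Fin.sum_univ_eq_sum_range (fun m => (Lm c s κ i m - vv c s κ 0 m)^2)] at h1
    simp only [vv, Nat.not_lt_zero, if_false, sub_zero, mul_zero, pow_zero, mul_one] at h1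
    rw [← hκ2, ← h1]
  obtain ⟨B, hB, hB1⟩ := exists_B hk0 L hL
  let e : Fin (k + k * m) ≃ Fin k ⊕ (Fin k × Fin m) :=
    finSumFinEquiv.symm.trans (Equiv.sumCongr (Equiv.refl _) finProdFinEquiv.symm)
  let Q : Matrix (Fin (k + k * m)) (Fin k) ℝ := fun r j =>
    Sum.elim (fun i => L i j) (fun p => B p.1 j / √m) (e r)
  let σ : Fin k → Fin (k + k * m) := fun j => Fin.castAdd (k * m) j
  have heσ : ∀ j, e (σ j) = Sum.inl j := by
    intro j
    simp [e, σ]
  have hQσ : ∀ j, Q (σ j) = L j := by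
    intro j
    funext l
    show Sum.elim (fun i => L i l) (fun p => B p.1 l / √m) (e (σ j)) = _
    rw [heσ]
    rfl
  let P : Fin k → EuclideanSpace ℝ (Fin k) := fun i => (WithLp.toLp 2 (Q (σ i)) : EuclideanSpace ℝ (Fin k))
  have hP : ∀ i : Fin k, P i = LE c s κ i := by
    intro i
    show WithLp.toLp 2 (Q (σ i)) = _
    rw [hQσ]
    rfl
  have hlow : ∀ j : Fin k, κ * s^(j:ℕ) ≤ Metric.infDist (P j)
      (Submodule.span ℝ (P '' {i | i < j}) : Set (EuclideanSpace ℝ (Fin k))) :=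
    fun j => lower c s κ hκ0.le hs0.le j P hP
  have hzero : ∀ (j : Fin k) (r : Fin (k + k * m)) (i : Fin k), e r = Sum.inl i → i < j →
      Metric.infDist (WithLp.toLp 2 (Q r) : EuclideanSpace ℝ (Fin k))
      (Submodule.span ℝ (P '' {i | i < j}) : Set (EuclideanSpace ℝ (Fin k))) = 0 := by
    intro j r i hi hij
    have hr : r = σ i := by
      apply e.injective
      rw [hi, heσ]
    apply Metric.infDist_zero_of_mem
    apply Submodule.subset_span
    exact ⟨i, hij, by rw [hr]⟩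
  have hup : ∀ (j : Fin k) (r : Fin (k + k * m)), 
      Metric.infDist (WithLp.toLp 2 (Q r) : EuclideanSpace ℝ (Fin k))
      (Submodule.span ℝ (P '' {i | i < j}) : Set (EuclideanSpace ℝ (Fin k))) ≤ κ * s^(j:ℕ) := by
    intro j r
    rcases her : e r with i | p
    · by_cases hij : i < j
      · rw [hzero j r i her hij]; positivity
      · have hr : r = σ i := by
          apply e.injective
          rw [her, heσ]
        have hmem := vE_mem c s κ P hP j j.2.le
        have hset : {i : Fin k | (i:ℕ) < (j:ℕ)} = {i | i < j} := rfl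
        rw [hset] at hmem
        have h1 := Metric.infDist_le_dist_of_mem (x := (WithLp.toLp 2 (Q r) : EuclideanSpace ℝ (Fin k))) hmem
        refine h1.trans ?_
        rw [dist_eq_norm, hr]
        have h2 : (WithLp.toLp 2 (Q (σ i)) : EuclideanSpace ℝ (Fin k)) = LE c s κ i := hP i
        rw [h2, norm_LE_sub c s κ hκ0.le hs0.le hcs j i (by
          have := not_lt.mp hij
          exact this) i.2]
    · have h0 : (0 : EuclideanSpace ℝ (Fin k)) ∈
          (Submodule.span ℝ (P '' {i | i < j}) : Set (EuclideanSpace ℝ (Fin k))) := zero_mem _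
      refine (Metric.infDist_le_dist_of_mem h0).trans ?_
      rw [dist_zero_right]
      apply le_of_sq_le_sq _ (by positivity)
      rw [EuclideanSpace.norm_sq_eq]
      have h1 : ∀ l : Fin k, ‖(WithLp.toLp 2 (Q r) : EuclideanSpace ℝ (Fin k)) l‖^2 ≤ 1 / m := by
        intro l
        have h2 : (WithLp.toLp 2 (Q r) : EuclideanSpace ℝ (Fin k)) l = B p.1 l / √m := by
          show Sum.elim (fun i => L i l) (fun p => B p.1 l / √m) (e r) = _
          rw [her]
          rfl
        rw [h2, Real.norm_eq_abs, sq_abs, div_pow, Real.sq_sqrt hmR0.le]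
        exact div_le_div_of_nonneg_right (hB1 _ _) hmR0.le
      calc ∑ l, ‖(WithLp.toLp 2 (Q r) : EuclideanSpace ℝ (Fin k)) l‖^2 ≤ ∑ l : Fin k, (1:ℝ) / m :=
            Finset.sum_le_sum (fun l _ => h1 l)
        _ = (1/k) * (1/2) := by
            rw [Finset.sum_const, Finset.card_univ, Fintype.card_fin, nsmul_eq_mul, hmR]
            field_simp
        _ ≤ (1/k) * s^(2*(j:ℕ)) := by
            apply mul_le_mul_of_nonneg_left (hspow _ j.2) (by positivity)
        _ = (κ * s^(j:ℕ))^2 := by rw [mul_pow, hκ2]; ring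
  refine ⟨k + k * m, k, by have := Nat.mul_pos hk0 hm0; omega, ?_, Q, ?_, σ, ?_, ?_, ?_⟩
  · -- size
    have h1 : (k:ℝ) ≤ 3 * N^2 := by
      rw [hk]; push_cast; nlinarith
    push_cast
    rw [hmR]
    have h3 : (k:ℝ)^3 ≤ (3 * N^2)^3 := pow_le_pow_left₀ hkR.le h1 3
    have h4 : (k:ℝ) ≤ (k:ℝ)^3 := by
      nlinarith [mul_self_nonneg ((k:ℝ) - 1), mul_self_nonneg ((k:ℝ)), mul_nonneg hkR.le (sub_nonneg.mpr hkR1)]
    nlinarith
  · ext i j
    rw [Matrix.mul_apply]
    have h1 : ∑ r, Qᵀ i r * Q r j = ∑ x : Fin k ⊕ (Fin k × Fin m),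
        Sum.elim (fun a => L a i * L a j) (fun p => (B p.1 i / √m) * (B p.1 j / √m)) x := by
      rw [← Equiv.sum_comp e]
      apply Finset.sum_congr rfl
      intro r _
      show Sum.elim (fun a => L a i) (fun p => B p.1 i / √m) (e r) *
        Sum.elim (fun a => L a j) (fun p => B p.1 j / √m) (e r) = _
      cases e r <;> rfl
    rw [h1, Fintype.sum_sum_type, Fintype.sum_prod_type]
    simp only [Sum.elim_inl, Sum.elim_inr, Finset.sum_const, Finset.card_univ, Fintype.card_fin, nsmul_eq_mul]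
    have h2 : ∀ a, (m:ℝ) * (B a i / √m * (B a j / √m)) = B a i * B a j := by
      intro a
      have h3 : √(m:ℝ) * √(m:ℝ) = m := Real.mul_self_sqrt hmR0.le
      rw [div_mul_div_comm, h3]
      field_simp
    simp only [h2]
    have h5 := congrFun (congrFun hB i) j
    rw [← h5]
    simp only [Matrix.add_apply, Matrix.mul_apply, Matrix.transpose_apply]
  · intro j r
    exact (hup j r).trans (hlow j)
  · intro j r hr
    have hrj : (r:ℕ) < (j:ℕ) := by
      have := Fin.lt_def.mp hr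
      simpa [σ] using this
    have hrk : (r:ℕ) < k := hrj.trans j.2
    have her : e r = Sum.inl ⟨r, hrk⟩ := by
      have h1 : r = σ ⟨r, hrk⟩ := by
        apply Fin.ext
        simp [σ]
      exact (congrArg e h1).trans (heσ _)
    have h0 := hzero j r ⟨r, hrk⟩ her (by exact hrj)
    have h1 : 0 < κ * s^(j:ℕ) := by positivity
    exact (h0.le.trans_lt h1).trans_le (hlow j)
  · refine ⟨fun i => (1+c)^(i:ℕ) / s^(i:ℕ), ?_, ?_⟩
    · have h1 : (Q.submatrix σ id) *ᵥ (fun i : Fin k => (1+c)^(i:ℕ) / s^(i:ℕ)) = fun _ => κ := by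
        funext i
        show ∑ l : Fin k, Q (σ i) l * ((1+c)^(l:ℕ) / s^(l:ℕ)) = κ
        rw [hQσ]
        have h2 := sum2 c s κ hs0.ne' i k
        rw [if_neg (by omega), mul_one, ← Fin.sum_univ_eq_sum_range (fun m => Lm c s κ i m * ((1+c)^m / s^m))] at h2
        exact h2
      rw [h1, EuclideanSpace.norm_eq]
      simp only [Finset.sum_const, Finset.card_univ, Fintype.card_fin, nsmul_eq_mul]
      rw [Real.norm_of_nonneg hκ0.le, hκ2]
      rw [mul_one_div_cancel hkR.ne', Real.sqrt_one]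
    · have h1 := PiLp.norm_apply_le (WithLp.toLp 2 (fun i : Fin k => (1+c)^(i:ℕ) / s^(i:ℕ)) : EuclideanSpace ℝ (Fin k))
        ⟨k-1, by omega⟩
      refine le_trans ?_ h1
      show (2:ℝ)^N ≤ ‖(1+c)^(k-1) / s^(k-1)‖
      rw [Real.norm_of_nonneg (by positivity)]
      have h2 : s^(k-1) ≤ 1 := pow_le_one₀ hs0.le hs1
      have h3 : (1+c)^(k-1) ≤ (1+c)^(k-1) / s^(k-1) := by
        rw [le_div_iff₀ (by positivity)]
        exact mul_le_of_le_one_right (by positivity) h2
      refine le_trans ?_ h3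
      have h4 : k - 1 = (2 * N) * N := by rw [hk]; simp; ring
      rw [h4, pow_mul]
      apply pow_le_pow_left₀ (by norm_num)
      have h5 : (1:ℝ) + ((2 * N : ℕ):ℝ) * c ≤ (1 + c)^(2*N) :=
        one_add_mul_le_pow (by linarith) (2*N)
      have h6 : (1:ℝ) + ((2 * N : ℕ):ℝ) * c = 2 := by
        rw [hc]; push_cast; field_simp; norm_num
      linarith

/-- The negation of the preceding statement: There are constants C, d such that for every n×k real Q with orthonormal columns (k<n), the k rows picked by greedy column-pivoted QR on Qᵀ (first index on ties) give a k×k block whose inverse has 2-norm at most C·n^d. -/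
theorem result :
    ¬ (∃ C : ℝ, ∃ d : ℕ, ∀ n k : ℕ, k < n →
      ∀ Q : Matrix (Fin n) (Fin k) ℝ, Qᵀ * Q = 1 →
      ∀ σ : Fin k → Fin n,
        (∀ j : Fin k, ∀ r : Fin n,
          Metric.infDist (WithLp.toLp 2 (Q r) : EuclideanSpace ℝ (Fin k))
              (Submodule.span ℝ
                ((fun i : Fin k => (WithLp.toLp 2 (Q (σ i)) : EuclideanSpace ℝ (Fin k))) ''
                  {i | i < j}) : Set (EuclideanSpace ℝ (Fin k)))
            ≤ Metric.infDist (WithLp.toLp 2 (Q (σ j)) : EuclideanSpace ℝ (Fin k))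
              (Submodule.span ℝ
                ((fun i : Fin k => (WithLp.toLp 2 (Q (σ i)) : EuclideanSpace ℝ (Fin k))) ''
                  {i | i < j}) : Set (EuclideanSpace ℝ (Fin k)))) →
        (∀ j : Fin k, ∀ r : Fin n, r < σ j →
          Metric.infDist (WithLp.toLp 2 (Q r) : EuclideanSpace ℝ (Fin k))
              (Submodule.span ℝ
                ((fun i : Fin k => (WithLp.toLp 2 (Q (σ i)) : EuclideanSpace ℝ (Fin k))) ''
                  {i | i < j}) : Set (EuclideanSpace ℝ (Fin k)))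
            < Metric.infDist (WithLp.toLp 2 (Q (σ j)) : EuclideanSpace ℝ (Fin k))
              (Submodule.span ℝ
                ((fun i : Fin k => (WithLp.toLp 2 (Q (σ i)) : EuclideanSpace ℝ (Fin k))) ''
                  {i | i < j}) : Set (EuclideanSpace ℝ (Fin k)))) →
        ∀ x : Fin k → ℝ,
          ‖(WithLp.toLp 2 x : EuclideanSpace ℝ (Fin k))‖ ≤
            C * (n : ℝ) ^ d *
              ‖(WithLp.toLp 2 ((Q.submatrix σ id) *ᵥ x) : EuclideanSpace ℝ (Fin k))‖) := by
  rintro ⟨C, d, h⟩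
  have hlim := (tendsto_pow_const_div_const_pow_of_one_lt (6*d) (by norm_num : (1:ℝ) < 2)).const_mul (|C| * 81^d)
  rw [mul_zero] at hlim
  obtain ⟨N, hN1, hN⟩ := ((hlim.eventually_lt_const one_pos).and (Filter.eventually_ge_atTop 1)).exists
  obtain ⟨n, k, hkn, hn, Q, hQ, σ, h1, h2, x, hx1, hx2⟩ := example_N N hN
  have h3 := h n k hkn Q hQ σ h1 h2 x
  rw [hx1, mul_one] at h3
  have h4 : C * (n:ℝ)^d ≤ |C| * (81 * (N:ℝ)^6)^d := by
    apply mul_le_mul (le_abs_self C) _ (by positivity) (abs_nonneg C)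
    exact pow_le_pow_left₀ (by positivity) hn d
  have h5 : |C| * (81 * (N:ℝ)^6)^d = |C| * 81^d * (N:ℝ)^(6*d) := by
    rw [mul_pow, ← pow_mul]; ring
  rw [← mul_div_assoc, div_lt_one (by positivity)] at hN1
  linarith

end Pool.Agent.S1524
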