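import Pool.Statements.S1584

set_option autoImplicit false
open Filter Topology
open Pool Pool.MP_8ba4a6_an

namespace Pool.Agent.S1584

noncomputable def F (x y : ℝ) : ℝ :=
  Real.exp (-(Real.log x + 1.1 * (Real.log x)^3) - 0.1 * Real.log y)

lemma F_log (x y : ℝ) : Real.log (F x y) = -(Real.log x + 1.1 * (Real.log x)^3) - 0.1 * Real.log y := by
  simp [F]

lemma cube_mono {a b : ℝ} (h : a ≤ b) : a^3 ≤ b^3 := by
  have : Odd 3 := by decide
  exact this.pow_le_pow.mpr h

lemma step_bound {a b m : ℝ} (hm : m ≤ 1/2) (ha : |a| ≤ m) (hb : |b| ≤ m) :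
    |(-1.1 * a^3 - 0.1 * b)| ≤ 0.375 * m := by
  have h0 : 0 ≤ m := le_trans (abs_nonneg _) ha
  have h1 : |a^3| ≤ m * (1/4) := by
    rw [abs_pow]
    have h2 : |a|^2 ≤ 1/4 := by
      have := abs_nonneg a
      nlinarith
    calc |a|^3 = |a| * |a|^2 := by ring
      _ ≤ m * (1/4) := mul_le_mul ha h2 (by positivity) h0
  rw [abs_le] at *
  constructor <;> linarith [h1.1, h1.2, hb.1, hb.2]

/-- The negation of the preceding statement: If f>0 is continuous on the positive quadrant, nonincreasing in x, strictly decreasing in y, x·f(x,x) strictly decreasing, and the unique positive equilibrium of x_{n+1}=x_n f(x_n,x_{n-1}) is locally asymptotically stable, then every positive solution converges to it. -/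
theorem result :
    ¬ (∀ (f : ℝ → ℝ → ℝ) (xbar : ℝ),
      ContinuousOn (fun p : ℝ × ℝ => f p.1 p.2) (Set.Ioi (0:ℝ) ×ˢ Set.Ioi (0:ℝ)) →
      (∀ x y : ℝ, 0 < x → 0 < y → 0 < f x y) →
      (∀ x₁ x₂ y : ℝ, 0 < x₁ → x₁ ≤ x₂ → 0 < y → f x₂ y ≤ f x₁ y) →
      (∀ x y₁ y₂ : ℝ, 0 < x → 0 < y₁ → y₁ < y₂ → f x y₂ < f x y₁) →
      (∀ x₁ x₂ : ℝ, 0 < x₁ → x₁ < x₂ → x₂ * f x₂ x₂ < x₁ * f x₁ x₁) →
      0 < xbar →
      f xbar xbar = 1 →
      (∀ y : ℝ, 0 < y → f y y = 1 → y = xbar) →
      (∀ ε : ℝ, 0 < ε → ∃ δ : ℝ, 0 < δ ∧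
        ∀ x : ℕ → ℝ, 0 < x 0 → 0 < x 1 →
          (∀ n : ℕ, x (n + 2) = x (n + 1) * f (x (n + 1)) (x n)) →
          |x 0 - xbar| + |x 1 - xbar| < δ →
          ∀ n : ℕ, |x n - xbar| < ε) →
      (∃ γ : ℝ, 0 < γ ∧
        ∀ x : ℕ → ℝ, 0 < x 0 → 0 < x 1 →
          (∀ n : ℕ, x (n + 2) = x (n + 1) * f (x (n + 1)) (x n)) →
          |x 0 - xbar| + |x 1 - xbar| < γ →
          Tendsto x atTop (𝓝 xbar)) →
      ∀ x : ℕ → ℝ, 0 < x 0 → 0 < x 1 →
        (∀ n : ℕ, x (n + 2) = x (n + 1) * f (x (n + 1)) (x n)) →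
        Tendsto x atTop (𝓝 xbar)) := by
  intro H
  -- general facts on orbits
  have pos : ∀ x : ℕ → ℝ, 0 < x 0 → 0 < x 1 →
      (∀ n : ℕ, x (n + 2) = x (n + 1) * F (x (n + 1)) (x n)) → ∀ n, 0 < x n ∧ 0 < x (n+1) := by
    intro x h0 h1 hr n
    induction n with
    | zero => exact ⟨h0, h1⟩
    | succ n ih =>
      refine ⟨ih.2, ?_⟩
      rw [hr n]
      exact mul_pos ih.2 (Real.exp_pos _)
  have rec' : ∀ x : ℕ → ℝ, 0 < x 0 → 0 < x 1 →
      (∀ n : ℕ, x (n + 2) = x (n + 1) * F (x (n + 1)) (x n)) → ∀ n,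
      Real.log (x (n+2)) = -1.1 * (Real.log (x (n+1)))^3 - 0.1 * Real.log (x n) := by
    intro x h0 h1 hr n
    have hp := pos x h0 h1 hr n
    rw [hr n, Real.log_mul (ne_of_gt hp.2) (by exact (Real.exp_pos _).ne'), F_log]
    ring
  -- local log bound
  have loglim : ∀ η : ℝ, 0 < η → ∃ δ : ℝ, 0 < δ ∧ ∀ y : ℝ, |y - 1| < δ → |Real.log y| < η := by
    intro η hη
    have hc : ContinuousAt Real.log 1 := Real.continuousAt_log (by norm_num)
    rw [Metric.continuousAt_iff] at hc
    obtain ⟨δ, hδ, h⟩ := hc η hη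
    refine ⟨δ, hδ, fun y hy => ?_⟩
    have := h (x := y) (by rw [Real.dist_eq]; exact hy)
    rw [Real.dist_eq, Real.log_one, sub_zero] at this
    exact this
  have inv : ∀ m : ℝ, m ≤ 1/2 → ∀ x : ℕ → ℝ, 0 < x 0 → 0 < x 1 →
      (∀ n : ℕ, x (n + 2) = x (n + 1) * F (x (n + 1)) (x n)) →
      |Real.log (x 0)| ≤ m → |Real.log (x 1)| ≤ m → ∀ n, |Real.log (x n)| ≤ m ∧ |Real.log (x (n+1))| ≤ m := by
    intro m hm x h0 h1 hr hb0 hb1 n
    have hm0 : 0 ≤ m := le_trans (abs_nonneg _) hb0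
    induction n with
    | zero => exact ⟨hb0, hb1⟩
    | succ n ih =>
      refine ⟨ih.2, ?_⟩
      rw [rec' x h0 h1 hr n]
      have := step_bound hm ih.2 ih.1
      linarith
  have hconv := H F 1 ?_ ?_ ?_ ?_ ?_ ?_ ?_ ?_ ?_ ?_ (fun n => Real.exp ((-1)^n)) (Real.exp_pos _)
    (Real.exp_pos _) ?_
  · -- contradiction
    have h2 : Tendsto (fun n : ℕ => Real.exp ((-1:ℝ)^(2*n))) atTop (𝓝 1) :=
      hconv.comp (tendsto_id.const_mul_atTop' (by norm_num : 0 < 2))
    have h3 : (fun n : ℕ => Real.exp ((-1:ℝ)^(2*n))) = fun n => Real.exp 1 := by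
      ext n; simp [pow_mul]
    rw [h3] at h2
    have h4 := tendsto_nhds_unique h2 tendsto_const_nhds
    have := Real.add_one_lt_exp (x := 1) (by norm_num)
    linarith
  · -- continuity
    have hl1 : ContinuousOn (fun p : ℝ × ℝ => Real.log p.1) (Set.Ioi (0:ℝ) ×ˢ Set.Ioi (0:ℝ)) := by
      apply ContinuousOn.log continuousOn_fst
      intro p hp
      exact ne_of_gt hp.1
    have hl2 : ContinuousOn (fun p : ℝ × ℝ => Real.log p.2) (Set.Ioi (0:ℝ) ×ˢ Set.Ioi (0:ℝ)) := by
      apply ContinuousOn.log continuousOn_snd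
      intro p hp
      exact ne_of_gt hp.2
    unfold F
    apply Real.continuous_exp.comp_continuousOn
    exact ((hl1.add (continuousOn_const.mul (hl1.pow 3))).neg).sub (continuousOn_const.mul hl2)
  · intro x y _ _; exact Real.exp_pos _
  · intro x₁ x₂ y h1 h12 hy
    unfold F
    apply Real.exp_le_exp.mpr
    have hl := Real.log_le_log h1 h12
    have hc := cube_mono hl
    linarith
  · intro x y₁ y₂ hx h1 h12
    unfold F
    apply Real.exp_lt_exp.mpr
    have hl := Real.log_lt_log h1 h12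
    linarith
  · intro x₁ x₂ h1 h12
    have h2 : 0 < x₂ := h1.trans h12
    have e : ∀ x : ℝ, 0 < x → x * F x x = Real.exp (-1.1 * (Real.log x)^3 - 0.1 * Real.log x) := by
      intro x hx
      unfold F
      conv_lhs => rw [← Real.exp_log hx]
      rw [← Real.exp_add, Real.exp_log hx]
      congr 1
      ring
    rw [e _ h1, e _ h2]
    apply Real.exp_lt_exp.mpr
    have hl := Real.log_lt_log h1 h12
    have hc := cube_mono hl.le
    linarith
  · norm_num
  · simp [F]
  · intro y hy h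
    have h1 : Real.log (F y y) = 0 := by rw [h, Real.log_one]
    rw [F_log] at h1
    have h2 : Real.log y * (1.1 + 1.1 * (Real.log y)^2) = 0 := by linarith
    have h3 : Real.log y = 0 := by
      rcases mul_eq_zero.mp h2 with h | h
      · exact h
      · exfalso
        nlinarith [sq_nonneg (Real.log y)]
    rw [← Real.exp_log hy, h3, Real.exp_zero]
  · intro ε hε
    have hc : ContinuousAt Real.exp 0 := Real.continuous_exp.continuousAt
    rw [Metric.continuousAt_iff] at hc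
    obtain ⟨η, hη, h⟩ := hc ε hε
    obtain ⟨δ, hδ, hlog⟩ := loglim (min (η/2) (1/2)) (by positivity)
    refine ⟨δ, hδ, ?_⟩
    intro x h0 h1 hr hx n
    have hx0 : |x 0 - 1| < δ := by linarith [abs_nonneg (x 1 - 1)]
    have hx1 : |x 1 - 1| < δ := by linarith [abs_nonneg (x 0 - 1)]
    have hb := (inv (min (η/2) (1/2)) (min_le_right _ _) x h0 h1 hr (hlog _ hx0).le (hlog _ hx1).le n).1
    have hb2 : |Real.log (x n)| < η := by
      have := min_le_left (η/2) (1/2:ℝ)
      linarith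
    have h4 := h (x := Real.log (x n)) (by rw [Real.dist_eq, sub_zero]; exact hb2)
    rw [Real.dist_eq, Real.exp_log (pos x h0 h1 hr n).1, Real.exp_zero] at h4
    exact h4
  · obtain ⟨δ, hδ, hlog⟩ := loglim (1/2) (by norm_num)
    refine ⟨δ, hδ, ?_⟩
    intro x h0 h1 hr hx
    have hx0 : |x 0 - 1| < δ := by linarith [abs_nonneg (x 1 - 1)]
    have hx1 : |x 1 - 1| < δ := by linarith [abs_nonneg (x 0 - 1)]
    have key : ∀ n, (|Real.log (x n)| ≤ 1/2 ∧ |Real.log (x n)| ≤ (1/2)^n) ∧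
        (|Real.log (x (n+1))| ≤ 1/2 ∧ |Real.log (x (n+1))| ≤ (1/2)^(n+1)) := by
      intro n
      induction n with
      | zero =>
        have a0 := (hlog _ hx0).le
        have a1 := (hlog _ hx1).le
        refine ⟨⟨a0, ?_⟩, ⟨a1, ?_⟩⟩
        · simp only [pow_zero]; linarith
        · simp only [zero_add, pow_one]; linarith
      | succ n ih =>
        refine ⟨ih.2, ?_⟩
        rw [show n + 1 + 1 = n + 2 from rfl, rec' x h0 h1 hr n]
        obtain ⟨⟨a1, a2⟩, ⟨b1, b2⟩⟩ := ih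
        constructor
        · have := step_bound (le_refl (1/2:ℝ)) b1 a1
          linarith
        · have c1 : |(Real.log (x (n+1)))^3| ≤ (1/4) * (1/2)^(n+1) := by
            rw [abs_pow]
            have h2 : |Real.log (x (n+1))|^2 ≤ 1/4 := by
              have := abs_nonneg (Real.log (x (n+1)))
              nlinarith
            calc |Real.log (x (n+1))|^3 = |Real.log (x (n+1))|^2 * |Real.log (x (n+1))| := by ring
              _ ≤ (1/4) * (1/2)^(n+1) := mul_le_mul h2 b2 (abs_nonneg _) (by norm_num)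
          have hpow : (0:ℝ) < (1/2)^n := by positivity
          have e1 : ((1:ℝ)/2)^(n+1) = (1/2)^n / 2 := by rw [pow_succ]; ring
          have e2 : ((1:ℝ)/2)^(n+2) = (1/2)^n / 4 := by rw [pow_succ, pow_succ]; ring
          rw [e2]
          rw [e1] at c1
          rw [abs_le] at *
          constructor <;> linarith [c1.1, c1.2, a2.1, a2.2]
    have hlim : Tendsto (fun n => Real.log (x n)) atTop (𝓝 0) := by
      apply squeeze_zero_norm (a := fun n => (1/2:ℝ)^n)
      · intro n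
        rw [Real.norm_eq_abs]
        exact (key n).1.2
      · exact tendsto_pow_atTop_nhds_zero_of_lt_one (by norm_num) (by norm_num)
    have h5 := (Real.continuous_exp.tendsto 0).comp hlim
    rw [Real.exp_zero] at h5
    refine h5.congr ?_
    intro n
    simp only [Function.comp]
    exact Real.exp_log (pos x h0 h1 hr n).1
  · intro n
    unfold F
    simp only [Real.log_exp]
    rw [← Real.exp_add]
    congr 1
    have h1 : ((-1:ℝ)^(n+1))^3 = (-1)^(n+1) := by
      rw [← pow_mul, mul_comm, pow_mul]; norm_num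
    rw [h1, pow_succ, pow_succ]
    ring

end Pool.Agent.S1584
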