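import Pool.Statements.S1656

set_option autoImplicit false
open Pool Pool.MP_a1ab50_an

namespace Pool.Agent.S1656

open Filter Topology Complex

noncomputable section

/-! ### The one-variable polynomial -/

def phi (z : ℂ) : ℂ := z^4 - (1/16)*(z^2+1)^4 + (1/16)*z*(z^2+1)^2*(z^2-1)

def EE (z : ℂ) : ℂ := (3 + 4*z^2 + z^4)/8

/-- value on the unit circle -/
lemma phi_circle (a b : ℝ) (h : a^2 + b^2 = 1) :
    phi ⟨a, b⟩ = (⟨a, b⟩ : ℂ)^4 * ⟨1 - a^4, (1/2)*a^2*b⟩ := by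
  set z : ℂ := ⟨a, b⟩ with hz
  have hz1 : z = (a:ℂ) + b * I := by rw [hz]; exact Complex.mk_eq_add_mul_I a b
  have hb : ((a:ℂ)^2 + (b:ℂ)^2) = 1 := by exact_mod_cast congrArg (fun x : ℝ => (x:ℂ)) h
  have hzz : z * ((a:ℂ) - b * I) = 1 := by
    rw [hz1]; linear_combination hb - (b:ℂ)^2 * I_sq
  have h1 : z^2 + 1 = 2 * a * z := by
    calc z^2 + 1 = z^2 + z * ((a:ℂ) - b * I) := by rw [hzz]
      _ = z * (z + ((a:ℂ) - b * I)) := by ring
      _ = z * (2 * a) := by rw [hz1]; ring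
      _ = _ := by ring
  have h2 : z^2 - 1 = 2 * b * I * z := by
    calc z^2 - 1 = z^2 - z * ((a:ℂ) - b * I) := by rw [hzz]
      _ = z * (z - ((a:ℂ) - b * I)) := by ring
      _ = z * (2 * b * I) := by rw [hz1]; ring
      _ = _ := by ring
  have h3 : (⟨1 - a^4, (1/2)*a^2*b⟩ : ℂ) = (1 - (a:ℂ)^4) + (1/2)*a^2*b*I := by
    rw [Complex.mk_eq_add_mul_I]; push_cast; ring
  rw [h3]
  unfold phi
  rw [h1, h2]
  ring

lemma EE_re_circle (a b : ℝ) (h : a^2 + b^2 = 1) : (EE ⟨a, b⟩).re = a^4 := by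
  unfold EE
  have hb : b^2 = 1 - a^2 := by linarith
  have : ((3 + 4*(⟨a,b⟩:ℂ)^2 + (⟨a,b⟩:ℂ)^4)/8).re = (3 + 4*(a^2-b^2) + (a^4 - 6*a^2*b^2+b^4))/8 := by
    rw [show (8:ℂ) = ((8:ℝ):ℂ) by norm_num, Complex.div_ofReal_re]
    congr 1
    simp [pow_succ, Complex.mul_re, Complex.mul_im]
    ring
  rw [this]
  have h4 : b^4 = (1-a^2)^2 := by rw [← hb]; ring
  rw [h4, hb]
  ring

lemma norm_circle {z : ℂ} (hz : ‖z‖ = 1) : z.re^2 + z.im^2 = 1 := by
  have := Complex.sq_norm z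
  rw [hz, Complex.normSq_apply] at this
  linarith

lemma phi_circle_norm (a b : ℝ) (h : a^2 + b^2 = 1) :
    ‖phi ⟨a, b⟩‖ ≤ Real.exp (-(3/8) * a^4) := by
  rw [phi_circle a b h, norm_mul, norm_pow]
  have h1 : ‖(⟨a, b⟩ : ℂ)‖ = 1 := by
    have : ‖(⟨a, b⟩ : ℂ)‖^2 = 1 := by
      rw [Complex.sq_norm, Complex.normSq_apply]; simp; nlinarith
    nlinarith [norm_nonneg (⟨a, b⟩ : ℂ)]
  rw [h1, one_pow, one_mul]
  have h2 : ‖(⟨1 - a^4, (1/2)*a^2*b⟩ : ℂ)‖^2 ≤ (Real.exp (-(3/8) * a^4))^2 := by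
    rw [Complex.sq_norm, Complex.normSq_apply, ← Real.exp_nat_mul]
    have h3 : 1 - (3/4) * a^4 ≤ Real.exp (((2:ℕ):ℝ) * (-(3/8) * a^4)) := by
      have := Real.add_one_le_exp (((2:ℕ):ℝ) * (-(3/8) * a^4))
      push_cast at this ⊢
      linarith
    refine le_trans ?_ h3
    simp only
    have hX0 : 0 ≤ a^2 := sq_nonneg a
    have hX1 : a^2 ≤ 1 := by nlinarith [sq_nonneg b]
    have hb : b * b = 1 - a^2 := by nlinarith
    have e1 : (1 - a^4) * (1 - a^4) + 1/2 * a^2 * b * (1/2 * a^2 * b) =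
        (1 - (a^2)^2)^2 + 1/4 * (a^2)^2 * (b * b) := by ring
    rw [e1, hb, show a^4 = (a^2)^2 by ring]
    set X := a^2
    have : X^4 ≤ X^2 := by nlinarith [mul_nonneg hX0 hX0, mul_nonneg (mul_nonneg hX0 hX0) (sub_nonneg.mpr hX1)]
    nlinarith [mul_nonneg (mul_nonneg hX0 hX0) hX0]
  exact le_of_sq_le_sq h2 (Real.exp_pos _).le |>.trans le_rfl

lemma phi_mul_exp_le (z : ℂ) (hz : ‖z‖ ≤ 1) : ‖phi z * Complex.exp ((3/8) * EE z)‖ ≤ 1 := by
  have hd : Differentiable ℂ (fun z => phi z * Complex.exp ((3/8) * EE z)) := by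
    unfold phi EE; fun_prop
  refine Complex.norm_le_of_forall_mem_frontier_norm_le (U := Metric.ball 0 1)
    Metric.isBounded_ball hd.diffContOnCl ?_ ?_
  · intro w hw
    rw [frontier_ball _ one_ne_zero, mem_sphere_iff_norm, sub_zero] at hw
    have hc := norm_circle hw
    have h1 := phi_circle_norm w.re w.im hc
    have h2 := EE_re_circle w.re w.im hc
    rw [Complex.eta] at h1 h2
    rw [norm_mul, Complex.norm_exp]
    have h3 : ((3/8) * EE w).re = (3/8) * w.re^4 := by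
      rw [show (3/8:ℂ) = ((3/8:ℝ):ℂ) by push_cast; rfl, Complex.re_ofReal_mul, h2]
    rw [h3]
    calc ‖phi w‖ * Real.exp (3/8 * w.re^4) ≤ Real.exp (-(3/8) * w.re^4) * Real.exp (3/8 * w.re^4) :=
          mul_le_mul_of_nonneg_right h1 (Real.exp_pos _).le
      _ = 1 := by rw [← Real.exp_add]; simp
  · rw [closure_ball _ one_ne_zero, mem_closedBall_iff_norm, sub_zero]
    exact hz

lemma EE_re_ge (z : ℂ) (hz : ‖z‖ ≤ 1) : ‖z^2 + 1‖^4 / 16 ≤ (EE z).re := by
  set u := z^2 with hu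
  have hu1 : ‖u‖ ≤ 1 := by rw [hu, norm_pow]; exact pow_le_one₀ (norm_nonneg _) hz
  have hus : u.re^2 + u.im^2 ≤ 1 := by
    have := Complex.sq_norm u
    rw [Complex.normSq_apply] at this
    nlinarith [norm_nonneg u]
  have h1 : (EE z).re = (3 + 4 * u.re + (u.re^2 - u.im^2))/8 := by
    unfold EE
    have : 3 + 4*z^2 + z^4 = 3 + 4*u + u^2 := by rw [hu]; ring
    rw [this, show (8:ℂ) = ((8:ℝ):ℂ) by norm_num, Complex.div_ofReal_re]
    congr 1
    simp [pow_succ, Complex.mul_re, Complex.mul_im]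
  have h2 : ‖u + 1‖^2 = (u.re + 1)^2 + u.im^2 := by
    rw [Complex.sq_norm, Complex.normSq_apply]; simp; ring
  have h3 : ‖u + 1‖^4 = ((u.re + 1)^2 + u.im^2)^2 := by rw [← h2]; ring
  rw [h3, h1]
  have h4 : (u.re + 1)^2 + u.im^2 ≤ 2 * (1 + u.re) := by nlinarith
  have h5 : 0 ≤ (u.re + 1)^2 + u.im^2 := by positivity
  have h6 : ((u.re + 1)^2 + u.im^2)^2 ≤ (2 * (1 + u.re))^2 := pow_le_pow_left₀ h5 h4 2
  nlinarith

lemma phi_le_exp (z : ℂ) (hz : ‖z‖ ≤ 1) : ‖phi z‖ ≤ Real.exp (-(3/128) * ‖z^2+1‖^4) := by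
  have h1 := phi_mul_exp_le z hz
  rw [norm_mul, Complex.norm_exp] at h1
  have h3 : ((3/8) * EE z).re = (3/8) * (EE z).re := by
    rw [show (3/8:ℂ) = ((3/8:ℝ):ℂ) by push_cast; rfl, Complex.re_ofReal_mul]
  rw [h3] at h1
  have h2 := EE_re_ge z hz
  have h4 : ‖phi z‖ ≤ Real.exp (-(3/8 * (EE z).re)) := by
    rw [Real.exp_neg, ← one_div, le_div_iff₀ (Real.exp_pos _)]
    exact h1
  refine h4.trans (Real.exp_le_exp.mpr ?_)
  linarith

lemma one_sub_phi (z : ℂ) (hz : ‖z‖ ≤ 1) : (3/256) * ‖z^2+1‖^4 ≤ 1 - ‖phi z‖ := by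
  have h1 := phi_le_exp z hz
  have hv : ‖z^2+1‖ ≤ 2 := by
    calc ‖z^2+1‖ ≤ ‖z^2‖ + ‖(1:ℂ)‖ := norm_add_le _ _
      _ ≤ 1 + 1 := by
        rw [norm_pow, norm_one]
        have := pow_le_one₀ (norm_nonneg z) hz (n := 2)
        linarith
      _ = 2 := by norm_num
  set v := ‖z^2+1‖ with hvd
  have hv0 : 0 ≤ v := norm_nonneg _
  have hv4 : v^4 ≤ 16 := by
    calc v^4 ≤ 2^4 := pow_le_pow_left₀ hv0 hv 4
      _ = 16 := by norm_num
  set t := (3/128) * v^4 with ht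
  have ht0 : 0 ≤ t := by positivity
  have ht1 : t ≤ 1 := by rw [ht]; linarith
  have h2 : Real.exp (-t) ≤ 1 - t/2 := by
    rw [Real.exp_neg, inv_le_comm₀ (Real.exp_pos _) (by linarith)]
    have h3 := Real.add_one_le_exp t
    refine le_trans ?_ h3
    rw [inv_le_comm₀ (by linarith) (by linarith), ← one_div, div_le_iff₀ (by linarith)]
    nlinarith
  have h4 : -(3/128) * v^4 = -t := by rw [ht]; ring
  rw [h4] at h1
  have : (3/256) * v^4 = t/2 := by rw [ht]; ring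
  rw [this]
  linarith

lemma phi_le_one (z : ℂ) (hz : ‖z‖ ≤ 1) : ‖phi z‖ ≤ 1 := by
  have := one_sub_phi z hz
  have h2 : (0:ℝ) ≤ (3/256) * ‖z^2+1‖^4 := by positivity
  linarith

/-! ### Part B: local behaviour at `I` -/

def psi (s : ℝ) : ℂ := ⟨1 - (Real.sin s)^4, (1/2) * (Real.sin s)^2 * Real.cos s⟩

def pt (s : ℝ) : ℂ := I * Complex.exp (s * I)

lemma pt_eq (s : ℝ) : pt s = ⟨-Real.sin s, Real.cos s⟩ := by
  unfold pt
  rw [Complex.exp_mul_I, Complex.mk_eq_add_mul_I]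
  push_cast
  ring_nf
  rw [I_sq]; ring

lemma norm_pt (s : ℝ) : ‖pt s‖ = 1 := by
  unfold pt; rw [norm_mul, norm_I, Complex.norm_exp_ofReal_mul_I, one_mul]

lemma phi_pt (s : ℝ) : phi (pt s) = Complex.exp (4 * s * I) * psi s := by
  rw [pt_eq, phi_circle _ _ (by nlinarith [Real.sin_sq_add_cos_sq s]), ← pt_eq]
  unfold pt psi
  have hI4 : (Complex.I)^4 = 1 := by
    rw [show (4:ℕ) = 2*2 by norm_num, pow_mul, I_sq]; norm_num
  rw [mul_pow, ← Complex.exp_nat_mul, hI4, one_mul]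
  congr 1
  · congr 1; push_cast; ring
  · congr 1 <;> ring

lemma norm_psi_le (s : ℝ) : ‖psi s‖ ≤ 1 := by
  have h := phi_le_one (pt s) (norm_pt s).le
  rw [phi_pt, norm_mul] at h
  have : ‖Complex.exp (4 * s * I)‖ = 1 := by
    rw [show (4 * (s:ℂ) * I) = ((4 * s : ℝ) : ℂ) * I by push_cast; ring,
      Complex.norm_exp_ofReal_mul_I]
  rwa [this, one_mul] at h

lemma norm_psi_ge (s : ℝ) (hs0 : 0 ≤ s) (hs1 : s ≤ 1) : 1 - s^4 ≤ ‖psi s‖ := by
  have h1 : |(psi s).re| ≤ ‖psi s‖ := Complex.abs_re_le_norm _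
  have h2 : (psi s).re = 1 - (Real.sin s)^4 := rfl
  rw [h2] at h1
  have h3 := Real.sin_le hs0
  have h4 : 0 ≤ Real.sin s := Real.sin_nonneg_of_nonneg_of_le_pi hs0 (by linarith [Real.pi_gt_three])
  have h5 : (Real.sin s)^4 ≤ s^4 := pow_le_pow_left₀ h4 h3 4
  have h6 := le_abs_self (1 - (Real.sin s)^4)
  linarith

lemma psi_approx (s : ℝ) (hs0 : 0 ≤ s) (hs1 : s ≤ 1) :
    ‖psi s - Complex.exp ((s^2/2 : ℝ) * I)‖ ≤ 2 * s^4 := by
  have hsin0 : 0 ≤ Real.sin s :=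
    Real.sin_nonneg_of_nonneg_of_le_pi hs0 (by linarith [Real.pi_gt_three])
  have hsin1 := Real.sin_le hs0
  have hsin2 : s - s^3/4 ≤ Real.sin s := by
    rcases eq_or_lt_of_le hs0 with h | h
    · rw [← h]; simp
    · have := Real.sin_gt_sub_cube h
      have h3 : 0 < s^3 := by positivity
      linarith
  have hcos1 := Real.one_sub_sq_div_two_le_cos (x := s)
  have hcos2 := Real.cos_le_one s
  have h1 : ‖psi s - (1 + (s^2/2 : ℝ) * I)‖ ≤ s^4 + (1/2) * s^4 := by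
    have : psi s - (1 + (s^2/2 : ℝ) * I) = ((-(Real.sin s)^4 : ℝ) : ℂ) +
        (((1/2) * ((Real.sin s)^2 * Real.cos s - s^2) : ℝ) : ℂ) * I := by
      unfold psi
      rw [Complex.mk_eq_add_mul_I]; push_cast; ring
    rw [this]
    refine (norm_add_le _ _).trans ?_
    rw [norm_mul, norm_I, mul_one, Complex.norm_real, Complex.norm_real, norm_neg,
      Real.norm_eq_abs, Real.norm_eq_abs, abs_of_nonneg (by positivity : 0 ≤ (Real.sin s)^4),
      abs_mul, abs_of_pos (by norm_num : (0:ℝ) < 1/2)]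
    have h5 : (Real.sin s)^4 ≤ s^4 := pow_le_pow_left₀ hsin0 hsin1 4
    have h6 : |(Real.sin s)^2 * Real.cos s - s^2| ≤ s^4 := by
      rw [abs_le]
      have e1 : (s - s^3/4)^2 ≤ (Real.sin s)^2 := by
        apply pow_le_pow_left₀ _ hsin2
        nlinarith [mul_nonneg hs0 (mul_nonneg hs0 hs0), mul_nonneg hs0 (sub_nonneg.mpr hs1), mul_nonneg (mul_nonneg hs0 hs0) (sub_nonneg.mpr hs1)]
      have e2 : (Real.sin s)^2 ≤ s^2 := pow_le_pow_left₀ hsin0 hsin1 2
      have e3 : 0 ≤ (Real.sin s)^2 := sq_nonneg _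
      have e4 : s^2 - s^4/2 ≤ (Real.sin s)^2 := by nlinarith [pow_nonneg hs0 6]
      have e5 : (Real.sin s)^2 * (1 - s^2/2) ≤ (Real.sin s)^2 * Real.cos s :=
        mul_le_mul_of_nonneg_left hcos1 e3
      have e6 : (Real.sin s)^2 * Real.cos s ≤ (Real.sin s)^2 * 1 :=
        mul_le_mul_of_nonneg_left hcos2 e3
      constructor
      · nlinarith [mul_le_mul_of_nonneg_right e2 (sq_nonneg s)]
      · nlinarith [pow_nonneg hs0 4]
    linarith
  have h2 : ‖Complex.exp ((s^2/2 : ℝ) * I) - 1 - (s^2/2 : ℝ) * I‖ ≤ (1/4) * s^4 := by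
    have hn : ‖((s^2/2 : ℝ) : ℂ) * I‖ = s^2/2 := by
      rw [norm_mul, norm_I, mul_one, Complex.norm_real, Real.norm_eq_abs,
        abs_of_nonneg (by positivity)]
    have := Complex.norm_exp_sub_one_sub_id_le (x := ((s^2/2 : ℝ) : ℂ) * I) (by
      rw [hn]; nlinarith)
    rw [hn] at this
    calc _ ≤ (s^2/2)^2 := this
      _ = _ := by ring
  have h3 : psi s - Complex.exp ((s^2/2 : ℝ) * I) = (psi s - (1 + (s^2/2 : ℝ) * I)) -
      (Complex.exp ((s^2/2 : ℝ) * I) - 1 - (s^2/2 : ℝ) * I) := by ring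
  rw [h3]
  refine (norm_sub_le _ _).trans ?_
  nlinarith [pow_nonneg hs0 4]

lemma norm_pow_sub_le (a b : ℂ) (ha : ‖a‖ ≤ 1) (hb : ‖b‖ ≤ 1) (m : ℕ) :
    ‖a^m - b^m‖ ≤ m * ‖a - b‖ := by
  induction m with
  | zero => simp
  | succ m ih =>
    have : a^(m+1) - b^(m+1) = a * (a^m - b^m) + (a - b) * b^m := by ring
    rw [this]
    calc _ ≤ ‖a * (a^m - b^m)‖ + ‖(a - b) * b^m‖ := norm_add_le _ _
      _ = ‖a‖ * ‖a^m - b^m‖ + ‖a - b‖ * ‖b^m‖ := by rw [norm_mul, norm_mul]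
      _ ≤ 1 * (m * ‖a - b‖) + ‖a - b‖ * 1 := by
          gcongr
          rw [norm_pow]; exact pow_le_one₀ (norm_nonneg _) hb
      _ = _ := by push_cast; ring

lemma psi_pow_approx (s : ℝ) (hs0 : 0 ≤ s) (hs1 : s ≤ 1) (m : ℕ) :
    ‖(psi s)^m - Complex.exp ((m * s^2/2 : ℝ) * I)‖ ≤ m * (2 * s^4) := by
  have h1 : Complex.exp ((m * s^2/2 : ℝ) * I) = (Complex.exp ((s^2/2 : ℝ) * I))^m := by
    rw [← Complex.exp_nat_mul]; congr 1; push_cast; ring
  rw [h1]
  refine (norm_pow_sub_le _ _ (norm_psi_le s) ?_ m).trans ?_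
  · rw [Complex.norm_exp_ofReal_mul_I]
  · exact mul_le_mul_of_nonneg_left (psi_approx s hs0 hs1) (Nat.cast_nonneg _)

/-! ### orthogonality and the bilinear bound -/

lemma orth (R : ℕ) (hR : 0 < R) (j k : ℕ) (hj : j < R) (hk : k < R) (ω : ℂ)
    (hω : IsPrimitiveRoot ω R) :
    ∑ r ∈ Finset.range R, ((ω⁻¹)^j * ω^k)^r = if j = k then (R:ℂ) else 0 := by
  have hω0 : ω ≠ 0 := hω.ne_zero hR.ne'
  split_ifs with h
  · subst h
    have : (ω⁻¹)^j * ω^j = 1 := by rw [← mul_pow, inv_mul_cancel₀ hω0, one_pow]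
    rw [this]; simp
  · have hne : (ω⁻¹)^j * ω^k ≠ 1 := by
      intro he
      apply h
      have : ω^j = ω^k := by
        calc ω^j = ω^j * ((ω⁻¹)^j * ω^k) := by rw [he, mul_one]
          _ = (ω * ω⁻¹)^j * ω^k := by rw [mul_pow]; ring
          _ = ω^k := by rw [mul_inv_cancel₀ hω0, one_pow, one_mul]
      exact hω.pow_inj hj hk this
    have h1 : ((ω⁻¹)^j * ω^k)^R = 1 := by
      rw [mul_pow, ← pow_mul, ← pow_mul, mul_comm j, mul_comm k, pow_mul, pow_mul, hω.pow_eq_one,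
        one_pow, inv_pow, hω.pow_eq_one]; simp
    have h2 := geom_sum_eq hne R
    rw [h2, h1, sub_self, zero_div]

lemma bilinear (N : ℕ) (hN : 0 < N) (ω : ℂ) (hω : IsPrimitiveRoot ω N) (hn : ‖ω‖ = 1)
    (α β : ℕ → ℂ) (hα : ∀ j, ‖α j‖ ≤ 1) (hβ : ∀ j, ‖β j‖ ≤ 1) :
    ‖∑ j ∈ Finset.range N, ∑ l ∈ Finset.range N, (ω⁻¹)^(j*l) * (α j * β l)‖^2 ≤ (N:ℝ)^3 := by
  set A : ℕ → ℂ := fun l => ∑ j ∈ Finset.range N, (ω⁻¹)^(j*l) * α j with hA
  have h1 : ∑ j ∈ Finset.range N, ∑ l ∈ Finset.range N, (ω⁻¹)^(j*l) * (α j * β l) =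
      ∑ l ∈ Finset.range N, A l * β l := by
    rw [Finset.sum_comm]
    apply Finset.sum_congr rfl
    intro l _
    rw [hA, Finset.sum_mul]
    apply Finset.sum_congr rfl
    intro j _
    ring
  have hconj : (starRingEnd ℂ) ω⁻¹ = ω := by
    rw [map_inv₀, ← Complex.inv_eq_conj hn, inv_inv]
  have h2 : ∑ l ∈ Finset.range N, (‖A l‖^2 : ℝ) ≤ (N:ℝ)^2 := by
    have h3 : ((∑ l ∈ Finset.range N, (‖A l‖^2 : ℝ) : ℝ) : ℂ) =
        ∑ j ∈ Finset.range N, (N:ℂ) * (α j * (starRingEnd ℂ) (α j)) := by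
      have e1 : ∀ l, ((‖A l‖^2 : ℝ) : ℂ) = ∑ j ∈ Finset.range N, ∑ k ∈ Finset.range N,
          ((ω⁻¹)^j * ω^k)^l * (α j * (starRingEnd ℂ) (α k)) := by
        intro l
        rw [Complex.ofReal_pow, ← Complex.mul_conj', hA, map_sum, Finset.sum_mul_sum]
        apply Finset.sum_congr rfl
        intro j _
        apply Finset.sum_congr rfl
        intro k _
        rw [map_mul, map_pow, hconj, mul_pow, ← pow_mul, ← pow_mul]
        ring
      rw [Complex.ofReal_sum]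
      simp_rw [e1]
      rw [Finset.sum_comm]
      apply Finset.sum_congr rfl
      intro j hj
      rw [Finset.sum_comm]
      calc ∑ k ∈ Finset.range N, ∑ l ∈ Finset.range N,
            ((ω⁻¹)^j * ω^k)^l * (α j * (starRingEnd ℂ) (α k))
          = ∑ k ∈ Finset.range N, (if j = k then (N:ℂ) else 0) * (α j * (starRingEnd ℂ) (α k)) := by
            apply Finset.sum_congr rfl
            intro k hk
            rw [← Finset.sum_mul, orth N hN j k (Finset.mem_range.mp hj) (Finset.mem_range.mp hk) ω hω]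
        _ = _ := by
            rw [Finset.sum_eq_single j]
            · rw [if_pos rfl]
            · intro k _ hkj
              rw [if_neg (Ne.symm hkj), zero_mul]
            · intro h; exact absurd hj h
    have h4 : (∑ l ∈ Finset.range N, (‖A l‖^2 : ℝ) : ℝ) = ∑ j ∈ Finset.range N, (N:ℝ) * ‖α j‖^2 := by
      apply Complex.ofReal_injective
      rw [h3]
      push_cast
      apply Finset.sum_congr rfl
      intro j _
      rw [Complex.mul_conj']
    rw [h4]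
    calc ∑ j ∈ Finset.range N, (N:ℝ) * ‖α j‖^2 ≤ ∑ j ∈ Finset.range N, (N:ℝ) * 1 := by
          apply Finset.sum_le_sum
          intro j _
          apply mul_le_mul_of_nonneg_left _ (Nat.cast_nonneg _)
          exact pow_le_one₀ (norm_nonneg _) (hα j)
      _ = (N:ℝ)^2 := by simp [sq]
  rw [h1]
  have h5 : ‖∑ l ∈ Finset.range N, A l * β l‖ ≤ ∑ l ∈ Finset.range N, ‖A l‖ * 1 := by
    refine (norm_sum_le _ _).trans (Finset.sum_le_sum ?_)
    intro l _
    rw [norm_mul]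
    exact mul_le_mul_of_nonneg_left (hβ l) (norm_nonneg _)
  have h6 : (∑ l ∈ Finset.range N, ‖A l‖ * 1)^2 ≤
      (∑ l ∈ Finset.range N, ‖A l‖^2) * (∑ l ∈ Finset.range N, (1:ℝ)^2) :=
    Finset.sum_mul_sq_le_sq_mul_sq _ _ _
  have h7 : (∑ l ∈ Finset.range N, (1:ℝ)^2) = N := by simp
  rw [h7] at h6
  calc _ ≤ (∑ l ∈ Finset.range N, ‖A l‖ * 1)^2 := pow_le_pow_left₀ (norm_nonneg _) h5 2
    _ ≤ (∑ l ∈ Finset.range N, ‖A l‖^2) * N := h6
    _ ≤ (N:ℝ)^2 * N := mul_le_mul_of_nonneg_right h2 (Nat.cast_nonneg _)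
    _ = _ := by ring

/-! ### Part C: the one-variable test functionals -/

def MM (T : ℕ) : ℕ := 4000 * T^4

def SN (T : ℕ) : Finset (ℕ × ℕ) := Finset.range (T^2) ×ˢ Finset.range (T^2)

lemma one_var (T : ℕ) (hT : 0 < T) : ∃ (c p : ℕ × ℕ → ℂ), (∀ t, ‖p t‖ = 1) ∧
    (∀ k : ℕ, ‖∑ t ∈ SN T, c t * (p t)^k‖ ≤ (T:ℝ)^3) ∧
    (T:ℝ)^4 / 2 ≤ ‖∑ t ∈ SN T, c t * (phi (p t))^(MM T)‖ := by
  set N : ℕ := T^2 with hNdef
  have hN : 0 < N := by positivity
  set m : ℕ := MM T with hm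
  have hmN : (m:ℝ) = 4000 * (N:ℝ)^2 := by
    rw [hm, MM, hNdef]; push_cast; ring
  have hNpos : (0:ℝ) < N := by exact_mod_cast hN
  have hmpos : (0:ℝ) < m := by rw [hmN]; positivity
  set ε : ℝ := Real.sqrt (2 * Real.pi / (m * N)) with hε
  have hε0 : 0 ≤ ε := Real.sqrt_nonneg _
  have hε2 : ε^2 = 2 * Real.pi / (m * N) := Real.sq_sqrt (by positivity)
  set ω : ℂ := Complex.exp (2 * Real.pi * Complex.I / N) with hω
  have hprim : IsPrimitiveRoot ω N := Complex.isPrimitiveRoot_exp N hN.ne'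
  have hωn : ‖ω‖ = 1 := by
    rw [hω, show (2 * Real.pi * Complex.I / N : ℂ) = ((2 * Real.pi / N : ℝ) : ℂ) * Complex.I by
      push_cast; ring, Complex.norm_exp_ofReal_mul_I]
  set a : ℕ → ℂ := fun j => Complex.exp ((-(4 * m * ε * j) - m * ε^2 * j^2 / 2 : ℝ) * Complex.I) with ha
  have han : ∀ j, ‖a j‖ = 1 := fun j => Complex.norm_exp_ofReal_mul_I _
  refine ⟨fun t => (ω⁻¹)^(t.1 * t.2) * (a t.1 * a t.2), fun t => pt (ε * (t.1 + t.2)),
    fun t => norm_pt _, ?_, ?_⟩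
  · intro k
    have h1 : ∑ t ∈ SN T, (ω⁻¹)^(t.1 * t.2) * (a t.1 * a t.2) * (pt (ε * (t.1 + t.2)))^k =
        ∑ j ∈ Finset.range N, ∑ l ∈ Finset.range N, (ω⁻¹)^(j*l) *
          ((a j * Complex.I^k * Complex.exp ((k * ε * j : ℝ) * Complex.I)) *
            (a l * Complex.exp ((k * ε * l : ℝ) * Complex.I))) := by
      rw [SN, Finset.sum_product]
      apply Finset.sum_congr rfl
      intro j _
      apply Finset.sum_congr rfl
      intro l _
      have : (pt (ε * (j + l)))^k = Complex.I^k * (Complex.exp ((k * ε * j : ℝ) * Complex.I) *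
          Complex.exp ((k * ε * l : ℝ) * Complex.I)) := by
        unfold pt
        rw [mul_pow, ← Complex.exp_nat_mul, ← Complex.exp_add]
        congr 2
        push_cast; ring
      simp only
      rw [this]; ring
    rw [h1]
    have h2 := bilinear N hN ω hprim hωn
      (fun j => a j * Complex.I^k * Complex.exp ((k * ε * j : ℝ) * Complex.I))
      (fun l => a l * Complex.exp ((k * ε * l : ℝ) * Complex.I))
      (fun j => by
        rw [norm_mul, norm_mul, han, norm_pow, Complex.norm_I, one_pow,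
          Complex.norm_exp_ofReal_mul_I]; simp)
      (fun l => by rw [norm_mul, han, Complex.norm_exp_ofReal_mul_I]; simp)
    have h3 : ((N:ℝ))^3 = ((T:ℝ)^3)^2 := by rw [hNdef]; push_cast; ring
    rw [h3] at h2
    exact le_of_sq_le_sq h2 (by positivity) |>.trans le_rfl
  · have hterm : ∀ t ∈ SN T, ‖(ω⁻¹)^(t.1 * t.2) * (a t.1 * a t.2) *
        (phi (pt (ε * (t.1 + t.2))))^m - 1‖ ≤ 1/2 := by
      intro t ht
      obtain ⟨j, l⟩ := t
      simp only
      rw [SN, Finset.mem_product, Finset.mem_range, Finset.mem_range] at ht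
      obtain ⟨hj, hl⟩ := ht
      simp only at hj hl
      set s : ℝ := ε * (j + l) with hs
      have hs0 : 0 ≤ s := by positivity
      have hjl : (j:ℝ) + l ≤ 2 * N := by
        have h1 : (j:ℝ) ≤ N := by exact_mod_cast hj.le
        have h2 : (l:ℝ) ≤ N := by exact_mod_cast hl.le
        linarith
      have hs2 : s^2 ≤ 8 * Real.pi / (4000 * N) := by
        rw [hs, mul_pow, hε2]
        have : ((j:ℝ) + l)^2 ≤ (2*N)^2 := pow_le_pow_left₀ (by positivity) hjl 2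
        calc 2 * Real.pi / (m * N) * ((j:ℝ) + l)^2 ≤ 2 * Real.pi / (m * N) * (2*N)^2 :=
              mul_le_mul_of_nonneg_left this (by positivity)
          _ = 8 * Real.pi / (4000 * N) := by rw [hmN]; field_simp; ring
      have hN1 : (1:ℝ) ≤ N := by exact_mod_cast hN
      have hpi := Real.pi_lt_d2
      have hpi0 := Real.pi_pos
      have hs1 : s ≤ 1 := by
        have : s^2 ≤ 1 := by
          refine hs2.trans ?_
          rw [div_le_one (by positivity)]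
          nlinarith
        nlinarith
      have hms4 : (m:ℝ) * (2 * s^4) ≤ 1/2 := by
        have h1 : s^4 ≤ (8 * Real.pi / (4000 * N))^2 := by
          calc s^4 = (s^2)^2 := by ring
            _ ≤ _ := pow_le_pow_left₀ (by positivity) hs2 2
        calc (m:ℝ) * (2 * s^4) ≤ m * (2 * (8 * Real.pi / (4000 * N))^2) := by
              apply mul_le_mul_of_nonneg_left _ hmpos.le
              linarith
          _ = 128 * Real.pi^2 / 4000 := by rw [hmN]; field_simp; ring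
          _ ≤ 1/2 := by nlinarith
      have happ := psi_pow_approx s hs0 hs1 m
      have hfac : (ω⁻¹)^(j * l) * (a j * a l) * (phi (pt s))^m =
          Complex.exp ((-(m * s^2 / 2) : ℝ) * Complex.I) * (psi s)^m := by
        rw [phi_pt, mul_pow, ← mul_assoc]
        congr 1
        rw [ha, hω]
        simp only
        rw [← Complex.exp_neg, ← Complex.exp_nat_mul, ← Complex.exp_nat_mul, ← Complex.exp_add,
          ← Complex.exp_add, ← Complex.exp_add]
        congr 1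
        have e1 : (m:ℂ) * (ε:ℂ)^2 = 2 * Real.pi / N := by
          have : (m:ℝ) * ε^2 = 2 * Real.pi / N := by rw [hε2]; field_simp
          exact_mod_cast congrArg (fun x : ℝ => (x:ℂ)) this
        rw [hs]
        push_cast
        have e2 : (-((m:ℂ) * ((ε:ℂ) * ((j:ℂ) + (l:ℂ)))^2 / 2)) =
          -((m:ℂ) * (ε:ℂ)^2) * (j:ℂ)^2/2 - ((m:ℂ) * (ε:ℂ)^2) * (l:ℂ)^2/2 - ((m:ℂ) * (ε:ℂ)^2) * j * l := by
          ring
        rw [e2, e1]
        ring
      have hone : (1:ℂ) = Complex.exp ((-(m * s^2 / 2) : ℝ) * Complex.I) *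
          Complex.exp ((m * s^2/2 : ℝ) * Complex.I) := by
        rw [← Complex.exp_add, ← add_mul, ← Complex.ofReal_add, neg_add_cancel]; simp
      rw [show ((ε:ℝ) * ((j:ℝ) + (l:ℝ))) = s from rfl] at *
      rw [hfac]
      conv_lhs => rw [hone]
      rw [← mul_sub, norm_mul, Complex.norm_exp_ofReal_mul_I, one_mul]
      exact happ.trans hms4
    have hcard : ((SN T).card : ℝ) = (T:ℝ)^4 := by
      rw [SN, Finset.card_product, Finset.card_range]; push_cast; ring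
    have h1 : ‖∑ t ∈ SN T, ((ω⁻¹)^(t.1 * t.2) * (a t.1 * a t.2) *
        (phi (pt (ε * (t.1 + t.2))))^m - 1)‖ ≤ (T:ℝ)^4 * (1/2) := by
      refine (norm_sum_le_of_le _ hterm).trans ?_
      rw [Finset.sum_const, nsmul_eq_mul, hcard]
    rw [Finset.sum_sub_distrib] at h1
    have h2 : ‖∑ t ∈ SN T, (1:ℂ)‖ = (T:ℝ)^4 := by
      rw [Finset.sum_const, nsmul_eq_mul, mul_one, Complex.norm_natCast, hcard]
    have h3 := norm_sub_norm_le (∑ t ∈ SN T, (1:ℂ)) (∑ t ∈ SN T, (ω⁻¹)^(t.1 * t.2) * (a t.1 * a t.2) *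
        (phi (pt (ε * (t.1 + t.2))))^m)
    rw [norm_sub_rev] at h3
    rw [h2] at h3
    linarith

/-! ### Part D: the abstract test -/

def Phi (z : Fin 7 → ℂ) : ℂ := ∏ i, phi (z i)

def Pv (z : Fin 7 → ℂ) : ℂ := ((z 0)^2 + 1)^5

def GG (a : (Fin 8 →₀ ℕ) → ℝ) (z : Fin 8 → ℂ) : ℂ := ∑' k, (a k : ℂ) * ∏ i, z i ^ (k i)

lemma GG_summable (a : (Fin 8 →₀ ℕ) → ℝ) (ha : Summable fun k => |a k|) (z : Fin 8 → ℂ)
    (hz : ∀ i, ‖z i‖ ≤ 1) : Summable (fun k => (a k : ℂ) * ∏ i, z i ^ (k i)) := by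
  refine Summable.of_norm_bounded ha ?_
  intro k
  rw [norm_mul, Complex.norm_real, Real.norm_eq_abs, norm_prod]
  have : ∏ i, ‖z i ^ (k i)‖ ≤ 1 := by
    apply Finset.prod_le_one
    · intro i _; exact norm_nonneg _
    · intro i _; rw [norm_pow]; exact pow_le_one₀ (norm_nonneg _) (hz i)
  calc |a k| * ∏ i, ‖z i ^ (k i)‖ ≤ |a k| * 1 := mul_le_mul_of_nonneg_left this (abs_nonneg _)
    _ = |a k| := mul_one _

lemma avg_formula (R m : ℕ) (hmR : m < R) (ω : ℂ) (hω : IsPrimitiveRoot ω R) (hωn : ‖ω‖ = 1)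
    (φ : ℂ) (hφ : ‖φ‖ < 1) :
    ∑ r ∈ Finset.range R, ((ω⁻¹)^m)^r * (1 / (1 - ω^r * φ)) = R * (φ^m / (1 - φ^R)) := by
  have hR : 0 < R := by omega
  have hφR : 1 - φ^R ≠ 0 := by
    intro h
    have : φ^R = 1 := (sub_eq_zero.mp h).symm
    have h2 := congrArg norm this
    rw [norm_pow, norm_one] at h2
    have h3 := pow_lt_one₀ (norm_nonneg φ) hφ hR.ne'
    linarith
  have h1 : ∀ r, 1 / (1 - ω^r * φ) = (∑ q ∈ Finset.range R, (ω^r * φ)^q) / (1 - φ^R) := by
    intro r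
    have hne : 1 - ω^r * φ ≠ 0 := by
      intro h
      have : ω^r * φ = 1 := (sub_eq_zero.mp h).symm
      have h2 := congrArg norm this
      rw [norm_mul, norm_pow, hωn, one_pow, one_mul, norm_one] at h2
      linarith
    rw [div_eq_div_iff hne hφR, one_mul]
    have h3 := mul_neg_geom_sum (ω^r * φ) R
    rw [mul_comm (∑ q ∈ Finset.range R, (ω^r * φ)^q), h3, mul_pow, ← pow_mul, mul_comm r R,
      pow_mul, hω.pow_eq_one, one_pow, one_mul]
  simp_rw [h1]
  have h2 : ∑ r ∈ Finset.range R, ((ω⁻¹)^m)^r * ((∑ q ∈ Finset.range R, (ω^r * φ)^q) / (1 - φ^R)) =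
      (∑ q ∈ Finset.range R, φ^q * ∑ r ∈ Finset.range R, ((ω⁻¹)^m * ω^q)^r) / (1 - φ^R) := by
    have e : ∀ r, ((ω⁻¹)^m)^r * ((∑ q ∈ Finset.range R, (ω^r * φ)^q) / (1 - φ^R)) =
        (∑ q ∈ Finset.range R, ((ω⁻¹)^m)^r * (ω^r * φ)^q) / (1 - φ^R) := by
      intro r
      rw [← mul_div_assoc, Finset.mul_sum]
    rw [Finset.sum_congr rfl (fun r _ => e r), ← Finset.sum_div]
    congr 1
    rw [Finset.sum_comm]
    apply Finset.sum_congr rfl
    intro q _
    rw [Finset.mul_sum]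
    apply Finset.sum_congr rfl
    intro r _
    rw [mul_pow, mul_pow, ← pow_mul ω r q, ← pow_mul ω q r, mul_comm r q]
    ring
  rw [h2]
  have h3 : ∑ q ∈ Finset.range R, φ^q * ∑ r ∈ Finset.range R, ((ω⁻¹)^m * ω^q)^r = R * φ^m := by
    rw [Finset.sum_eq_single m]
    · rw [orth R hR m m hmR hmR ω hω, if_pos rfl]; ring
    · intro q hq hqm
      rw [orth R hR m q hmR (Finset.mem_range.mp hq) ω hω, if_neg (Ne.symm hqm), mul_zero]
    · intro h; exact absurd (Finset.mem_range.mpr hmR) h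
  rw [h3, mul_div_assoc]

lemma test {ι : Type} (a : (Fin 8 →₀ ℕ) → ℝ) (ha : Summable fun k => |a k|)
    (hG : ∀ (w : ℂ) (z' : Fin 7 → ℂ), ‖w‖ = 1 → (∀ i, ‖z' i‖ = 1) → ‖Phi z'‖ < 1 →
      GG a (Fin.cons w z') = Pv z' / (1 - w * Phi z'))
    (m : ℕ) (J : Finset ι) (c : ι → ℂ) (zz : ι → Fin 7 → ℂ)
    (hz : ∀ t ∈ J, ∀ i, ‖zz t i‖ = 1) (hPhi : ∀ t ∈ J, ‖Phi (zz t)‖ < 1) (B : ℝ)
    (hB : ∀ k' : Fin 7 → ℕ, ‖∑ t ∈ J, c t * ∏ i, (zz t i)^(k' i)‖ ≤ B) :
    ‖∑ t ∈ J, c t * (Pv (zz t) * Phi (zz t)^m)‖ ≤ (∑' k, |a k|) * B := by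
  have hlim : Tendsto (fun R : ℕ => ∑ t ∈ J, c t * (Pv (zz t) * (Phi (zz t)^m / (1 - Phi (zz t)^R))))
      atTop (𝓝 (∑ t ∈ J, c t * (Pv (zz t) * (Phi (zz t)^m / (1 - 0))))) := by
    apply tendsto_finsetSum
    intro t ht
    apply Tendsto.const_mul
    apply Tendsto.const_mul
    apply Tendsto.div tendsto_const_nhds _ (by simp)
    apply Tendsto.sub tendsto_const_nhds
    exact tendsto_pow_atTop_nhds_zero_of_norm_lt_one (hPhi t ht)
  simp only [sub_zero, div_one] at hlim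
  refine le_of_tendsto hlim.norm ?_
  filter_upwards [eventually_gt_atTop m] with R hR
  have hR0 : 0 < R := by omega
  have hRne : (R:ℂ) ≠ 0 := by exact_mod_cast hR0.ne'
  set ω : ℂ := Complex.exp (2 * Real.pi * Complex.I / R) with hω
  have hprim : IsPrimitiveRoot ω R := Complex.isPrimitiveRoot_exp R hR0.ne'
  have hωn : ‖ω‖ = 1 := by
    rw [hω, show (2 * Real.pi * Complex.I / R : ℂ) = ((2 * Real.pi / R : ℝ) : ℂ) * Complex.I by
      push_cast; ring, Complex.norm_exp_ofReal_mul_I]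
  have hval : ∑ t ∈ J, c t * (Pv (zz t) * (Phi (zz t)^m / (1 - Phi (zz t)^R))) =
      (R:ℂ)⁻¹ * ∑ r ∈ Finset.range R, ((ω⁻¹)^m)^r * ∑ t ∈ J, c t * GG a (Fin.cons (ω^r) (zz t)) := by
    have h1 : ∑ r ∈ Finset.range R, ((ω⁻¹)^m)^r * ∑ t ∈ J, c t * GG a (Fin.cons (ω^r) (zz t)) =
        ∑ t ∈ J, c t * (Pv (zz t) * ∑ r ∈ Finset.range R,
          ((ω⁻¹)^m)^r * (1 / (1 - ω^r * Phi (zz t)))) := by
      simp_rw [Finset.mul_sum]
      rw [Finset.sum_comm]
      apply Finset.sum_congr rfl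
      intro t ht
      apply Finset.sum_congr rfl
      intro r _
      rw [hG (ω^r) (zz t) (by rw [norm_pow, hωn, one_pow]) (hz t ht) (hPhi t ht)]
      ring
    rw [h1, Finset.mul_sum]
    apply Finset.sum_congr rfl
    intro t ht
    rw [avg_formula R m hR ω hprim hωn _ (hPhi t ht)]
    field_simp
  rw [hval]
  have hcons : ∀ t ∈ J, ∀ r : ℕ, ∀ i, ‖(Fin.cons (ω^r) (zz t) : Fin 8 → ℂ) i‖ ≤ 1 := by
    intro t ht r i
    refine Fin.cases ?_ (fun i => ?_) i
    · rw [Fin.cons_zero, norm_pow, hωn, one_pow]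
    · rw [Fin.cons_succ]; exact (hz t ht i).le
  have hsum : HasSum (fun k : Fin 8 →₀ ℕ => (R:ℂ)⁻¹ * ∑ r ∈ Finset.range R, ((ω⁻¹)^m)^r *
      ∑ t ∈ J, c t * ((a k : ℂ) * ∏ i, (Fin.cons (ω^r) (zz t) : Fin 8 → ℂ) i ^ (k i)))
      ((R:ℂ)⁻¹ * ∑ r ∈ Finset.range R, ((ω⁻¹)^m)^r * ∑ t ∈ J, c t * GG a (Fin.cons (ω^r) (zz t))) := by
    apply HasSum.mul_left
    apply hasSum_sum
    intro r _
    apply HasSum.mul_left
    apply hasSum_sum
    intro t ht
    apply HasSum.mul_left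
    exact (GG_summable a ha _ (hcons t ht r)).hasSum
  refine HasSum.norm_le_of_bounded hsum (ha.hasSum.mul_right B) ?_
  intro k
  have hfac : (R:ℂ)⁻¹ * ∑ r ∈ Finset.range R, ((ω⁻¹)^m)^r *
      ∑ t ∈ J, c t * ((a k : ℂ) * ∏ i, (Fin.cons (ω^r) (zz t) : Fin 8 → ℂ) i ^ (k i)) =
      (a k : ℂ) * (((R:ℂ)⁻¹ * ∑ r ∈ Finset.range R, ((ω⁻¹)^m)^r * (ω^r)^(k 0)) *
        ∑ t ∈ J, c t * ∏ i : Fin 7, (zz t i)^(k i.succ)) := by
    have e : ∀ r ∈ Finset.range R, ((ω⁻¹)^m)^r *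
        ∑ t ∈ J, c t * ((a k : ℂ) * ∏ i, (Fin.cons (ω^r) (zz t) : Fin 8 → ℂ) i ^ (k i)) =
        (((ω⁻¹)^m)^r * (ω^r)^(k 0)) * ((a k : ℂ) * ∑ t ∈ J, c t * ∏ i : Fin 7, (zz t i)^(k i.succ)) := by
      intro r _
      rw [Finset.mul_sum, Finset.mul_sum, Finset.mul_sum]
      apply Finset.sum_congr rfl
      intro t _
      rw [Fin.prod_univ_succ]
      simp only [Fin.cons_zero, Fin.cons_succ]
      ring
    rw [Finset.sum_congr rfl e, ← Finset.sum_mul]
    ring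
  rw [hfac, norm_mul, norm_mul, Complex.norm_real, Real.norm_eq_abs]
  apply mul_le_mul_of_nonneg_left _ (abs_nonneg _)
  have h1 : ‖(R:ℂ)⁻¹ * ∑ r ∈ Finset.range R, ((ω⁻¹)^m)^r * (ω^r)^(k 0)‖ ≤ 1 := by
    rw [norm_mul, norm_inv, Complex.norm_natCast]
    have : ‖∑ r ∈ Finset.range R, ((ω⁻¹)^m)^r * (ω^r)^(k 0)‖ ≤ R := by
      refine (norm_sum_le_of_le (n := fun _ => (1:ℝ)) _ ?_).trans ?_
      · intro r _
        rw [norm_mul, norm_pow, norm_pow, norm_pow, norm_pow, norm_inv, hωn]; simp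
      · simp
    rw [inv_mul_le_iff₀ (by exact_mod_cast hR0)]
    simpa using this
  have h2 := hB (fun i => k i.succ)
  calc _ ≤ 1 * B := mul_le_mul h1 h2 (norm_nonneg _) zero_le_one
    _ = B := one_mul _

/-! ### Part E: no summability -/

lemma pt_sq_add_one (s : ℝ) : (pt s)^2 + 1 = ((-(2 * Real.sin s) : ℝ) : ℂ) * pt s := by
  rw [pt_eq]
  have h := Real.sin_sq_add_cos_sq s
  apply Complex.ext
  · rw [Complex.re_ofReal_mul]
    simp [pow_two]
    nlinarith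
  · rw [Complex.im_ofReal_mul]
    simp [pow_two]
    ring

lemma norm_pt_sq (s : ℝ) (hs0 : 0 < s) (hs1 : s ≤ 1) : s ≤ ‖(pt s)^2 + 1‖ := by
  rw [pt_sq_add_one, norm_mul, norm_pt, mul_one, Complex.norm_real, norm_neg, Real.norm_eq_abs]
  have h1 := Real.sin_gt_sub_cube hs0
  have h2 : s^3 ≤ s := by nlinarith [mul_nonneg hs0.le (sub_nonneg.mpr hs1), mul_nonneg (mul_nonneg hs0.le hs0.le) (sub_nonneg.mpr hs1)]
  have h3 := le_abs_self (2 * Real.sin s)
  linarith

lemma no_summable (a : (Fin 8 →₀ ℕ) → ℝ) (ha : Summable fun k => |a k|)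
    (hG : ∀ (w : ℂ) (z' : Fin 7 → ℂ), ‖w‖ = 1 → (∀ i, ‖z' i‖ = 1) → ‖Phi z'‖ < 1 →
      GG a (Fin.cons w z') = Pv z' / (1 - w * Phi z')) : False := by
  classical
  set S := ∑' k, |a k| with hS
  have main : ∀ T : ℕ, 0 < T → (6/10) * (1/(10 * (T:ℝ)))^5 * ((T:ℝ)^4/2)^6 ≤ S * (T:ℝ)^18 := by
    intro T hT
    obtain ⟨c, p, hp1, hp2, hp3⟩ := one_var T hT
    set m := MM T with hm
    have hTr : (1:ℝ) ≤ T := by exact_mod_cast hT
    set s1 : ℝ := 1/(10 * T) with hs1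
    have hs1pos : 0 < s1 := by positivity
    have hs1le : s1 ≤ 1/10 := by
      rw [hs1]; apply one_div_le_one_div_of_le (by norm_num); linarith
    set C : Fin 7 → ℕ × ℕ → ℂ := fun i t => if i = 0 then (if t = (0,0) then 1 else 0) else c t
      with hC
    set Q : Fin 7 → ℕ × ℕ → ℂ := fun i t => if i = 0 then pt s1 else p t with hQ
    have hQ1 : ∀ i t, ‖Q i t‖ = 1 := by
      intro i t; simp only [hQ]; split_ifs
      · exact norm_pt _
      · exact hp1 t
    have hzero_mem : ((0,0) : ℕ × ℕ) ∈ SN T := by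
      exact Finset.mem_product.mpr ⟨Finset.mem_range.mpr (by positivity),
        Finset.mem_range.mpr (by positivity)⟩
    have hphi1 : ‖phi (pt s1)‖ < 1 := by
      have h1 := one_sub_phi (pt s1) (norm_pt s1).le
      have h2 := norm_pt_sq s1 hs1pos (by linarith)
      have h3 : 0 < (3/256) * ‖(pt s1)^2+1‖^4 := by
        have : 0 < ‖(pt s1)^2+1‖ := lt_of_lt_of_le hs1pos h2
        positivity
      linarith
    have hPhi : ∀ x : Fin 7 → ℕ × ℕ, ‖Phi (fun i => Q i (x i))‖ < 1 := by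
      intro x
      unfold Phi
      rw [norm_prod, Fin.prod_univ_succ]
      have h1 : ∏ i : Fin 6, ‖phi (Q i.succ (x i.succ))‖ ≤ 1 := by
        apply Finset.prod_le_one
        · intro i _; exact norm_nonneg _
        · intro i _; exact phi_le_one _ (hQ1 _ _).le
      have h2 : Q 0 (x 0) = pt s1 := by simp [hQ]
      change ‖phi (Q 0 (x 0))‖ * ∏ i : Fin 6, ‖phi (Q i.succ (x i.succ))‖ < 1
      rw [h2]
      calc _ ≤ ‖phi (pt s1)‖ * 1 := mul_le_mul_of_nonneg_left h1 (norm_nonneg _)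
        _ < 1 := by rw [mul_one]; exact hphi1
    have key := test a ha hG m (Fintype.piFinset (fun _ : Fin 7 => SN T))
      (fun x => ∏ i, C i (x i)) (fun x i => Q i (x i)) (fun x _ i => hQ1 i (x i))
      (fun x _ => hPhi x) ((T:ℝ)^18) ?_
    · -- lower bound
      have hprod : ∑ x ∈ Fintype.piFinset (fun _ : Fin 7 => SN T), (∏ i, C i (x i)) *
          (Pv (fun i => Q i (x i)) * Phi (fun i => Q i (x i))^m) =
          ∏ i : Fin 7, ∑ t ∈ SN T, C i t * ((if i = 0 then ((Q i t)^2+1)^5 else 1) * phi (Q i t)^m) := by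
        rw [Finset.prod_univ_sum]
        apply Finset.sum_congr rfl
        intro x _
        rw [Finset.prod_mul_distrib, Finset.prod_mul_distrib]
        congr 2
        · rw [Fin.prod_univ_succ]
          simp [Pv, Fin.succ_ne_zero]
        · rw [Phi, Finset.prod_pow]
      rw [hprod, norm_prod, Fin.prod_univ_succ] at key
      have h0 : (6/10) * s1^5 ≤ ‖∑ t ∈ SN T, C 0 t * ((if (0:Fin 7) = 0 then ((Q 0 t)^2+1)^5 else 1) *
          phi (Q 0 t)^m)‖ := by
        rw [Finset.sum_eq_single (0,0)]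
        · simp only [hC, hQ, if_true, one_mul]
          rw [norm_mul, norm_pow, norm_pow]
          have h1 : s1^5 ≤ ‖(pt s1)^2+1‖^5 :=
            pow_le_pow_left₀ hs1pos.le (norm_pt_sq s1 hs1pos (by linarith)) 5
          have h2 : (6/10 : ℝ) ≤ ‖phi (pt s1)‖^m := by
            have h3 : ‖phi (pt s1)‖ = ‖psi s1‖ := by
              rw [phi_pt, norm_mul, show (4 * (s1:ℂ) * Complex.I) = ((4 * s1 : ℝ) : ℂ) * Complex.I by
                push_cast; ring, Complex.norm_exp_ofReal_mul_I, one_mul]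
            rw [h3]
            have h4 := norm_psi_ge s1 hs1pos.le (by linarith)
            have h5 : s1^4 ≤ 1 := pow_le_one₀ hs1pos.le (by linarith)
            have h6 : (1 - s1^4)^m ≤ ‖psi s1‖^m := pow_le_pow_left₀ (by linarith) h4 m
            have h7 := one_add_mul_le_pow (a := -s1^4) (by linarith) m
            have h8 : (m:ℝ) * s1^4 = 4/10 := by
              rw [hm, MM, hs1]; push_cast; field_simp; norm_num
            have h9 : (1 + -s1^4)^m = (1 - s1^4)^m := by rw [← sub_eq_add_neg]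
            rw [h9] at h7
            have h10 : (m:ℝ) * -s1^4 = -((m:ℝ) * s1^4) := by ring
            rw [h10, h8] at h7
            linarith
          calc (6/10) * s1^5 = s1^5 * (6/10) := by ring
            _ ≤ _ := mul_le_mul h1 h2 (by norm_num) (by positivity)
        · intro t _ ht
          simp [hC, ht]
        · intro h; exact absurd hzero_mem h
      have h1 : ∀ i : Fin 6, (T:ℝ)^4/2 ≤ ‖∑ t ∈ SN T, C i.succ t *
          ((if i.succ = 0 then ((Q i.succ t)^2+1)^5 else 1) * phi (Q i.succ t)^m)‖ := by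
        intro i
        simp only [hC, hQ, Fin.succ_ne_zero, if_false, one_mul]
        exact hp3
      have h2 : ((T:ℝ)^4/2)^6 ≤ ∏ i : Fin 6, ‖∑ t ∈ SN T, C i.succ t *
          ((if i.succ = 0 then ((Q i.succ t)^2+1)^5 else 1) * phi (Q i.succ t)^m)‖ := by
        calc ((T:ℝ)^4/2)^6 = ∏ i : Fin 6, ((T:ℝ)^4/2) := by
              rw [Finset.prod_const, Finset.card_univ, Fintype.card_fin]
          _ ≤ _ := Finset.prod_le_prod (fun i _ => by positivity) (fun i _ => h1 i)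
      calc _ ≤ _ := mul_le_mul h0 h2 (by positivity) (norm_nonneg _)
        _ ≤ _ := key
    · intro k'
      have hprod : ∑ x ∈ Fintype.piFinset (fun _ : Fin 7 => SN T), (∏ i, C i (x i)) *
          ∏ i, (Q i (x i))^(k' i) = ∏ i : Fin 7, ∑ t ∈ SN T, C i t * (Q i t)^(k' i) := by
        rw [Finset.prod_univ_sum]
        apply Finset.sum_congr rfl
        intro x _
        rw [Finset.prod_mul_distrib]
      rw [hprod, norm_prod, Fin.prod_univ_succ]
      have h0 : ‖∑ t ∈ SN T, C 0 t * (Q 0 t)^(k' 0)‖ ≤ 1 := by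
        rw [Finset.sum_eq_single (0,0)]
        · simp [hC, hQ, norm_pt]
        · intro t _ ht
          simp [hC, ht]
        · intro h; exact absurd hzero_mem h
      have h1 : ∏ i : Fin 6, ‖∑ t ∈ SN T, C i.succ t * (Q i.succ t)^(k' i.succ)‖ ≤
          ∏ i : Fin 6, (T:ℝ)^3 := by
        apply Finset.prod_le_prod (fun i _ => norm_nonneg _)
        intro i _
        simp only [hC, hQ, Fin.succ_ne_zero, if_false]
        exact hp2 _
      calc _ ≤ 1 * ∏ i : Fin 6, (T:ℝ)^3 := mul_le_mul h0 h1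
            (Finset.prod_nonneg fun i _ => norm_nonneg _) zero_le_one
        _ = (T:ℝ)^18 := by simp; ring
  obtain ⟨T, hT⟩ := exists_nat_gt (S * 64 * 10^6)
  have hT2 := main (T + 1) (Nat.succ_pos _)
  have hTp : (0:ℝ) < ((T+1 : ℕ) : ℝ) := by positivity
  have h1 : (6/10) * (1/(10 * ((T+1:ℕ):ℝ)))^5 * (((T+1:ℕ):ℝ)^4/2)^6 =
      ((6/10) / (10^5 * 64) * ((T+1:ℕ):ℝ)) * ((T+1:ℕ):ℝ)^18 := by
    field_simp; norm_num
  rw [h1] at hT2
  have h2 := le_of_mul_le_mul_right hT2 (by positivity)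
  push_cast at h2
  linarith

/-! ### Part F: the rational function -/

open MvPolynomial in
def PX (j : Fin 8) : MvPolynomial (Fin 8) ℝ :=
  X j ^ 4 - C (1/16) * (X j ^ 2 + 1)^4 + C (1/16) * X j * (X j ^ 2 + 1)^2 * (X j ^ 2 - 1)

open MvPolynomial in
def PP : MvPolynomial (Fin 8) ℝ := (X 1 ^ 2 + 1)^5

open MvPolynomial in
def QQ : MvPolynomial (Fin 8) ℝ := 1 - X 0 * ∏ i : Fin 7, PX i.succ

lemma aeval_PX (z : Fin 8 → ℂ) (j : Fin 8) : MvPolynomial.aeval z (PX j) = phi (z j) := by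
  unfold PX phi
  simp

lemma aeval_PP (z : Fin 8 → ℂ) : MvPolynomial.aeval z PP = ((z 1)^2 + 1)^5 := by
  unfold PP; simp

lemma aeval_QQ (z : Fin 8 → ℂ) :
    MvPolynomial.aeval z QQ = 1 - z 0 * Phi (fun i => z i.succ) := by
  unfold QQ Phi
  rw [map_sub, map_one, map_mul, map_prod, MvPolynomial.aeval_X]
  simp_rw [aeval_PX]

lemma constCoeff_QQ : MvPolynomial.constantCoeff QQ = 1 := by
  unfold QQ
  rw [map_sub, map_mul, MvPolynomial.constantCoeff_X, zero_mul, sub_zero, map_one]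

lemma aeval_eq_tsum (p : MvPolynomial (Fin 8) ℝ) (z : Fin 8 → ℂ) :
    HasSum (fun k : Fin 8 →₀ ℕ => ((MvPolynomial.coeff k p : ℝ) : ℂ) * ∏ i, z i ^ (k i))
      (MvPolynomial.aeval z p) := by
  rw [MvPolynomial.aeval_def, MvPolynomial.eval₂_eq']
  apply hasSum_sum_of_ne_finset_zero
  intro k hk
  rw [MvPolynomial.notMem_support_iff.mp hk]
  simp

lemma prod_identity (h : MvPowerSeries (Fin 8) ℝ) (P Q : MvPolynomial (Fin 8) ℝ)
    (hPQ : h * (Q : MvPowerSeries (Fin 8) ℝ) = (P : MvPowerSeries (Fin 8) ℝ))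
    (hs : Summable fun k => |MvPowerSeries.coeff k h|) (z : Fin 8 → ℂ) (hz : ∀ i, ‖z i‖ ≤ 1) :
    GG (fun k => MvPowerSeries.coeff k h) z * MvPolynomial.aeval z Q = MvPolynomial.aeval z P := by
  classical
  have h1 := GG_summable _ hs z hz
  have h2 := aeval_eq_tsum Q z
  have h1n : Summable (fun k => ‖((MvPowerSeries.coeff k h : ℝ) : ℂ) * ∏ i, z i ^ (k i)‖) := by
    refine Summable.of_nonneg_of_le (fun k => norm_nonneg _) ?_ hs
    intro k
    rw [norm_mul, Complex.norm_real, Real.norm_eq_abs, norm_prod]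
    have : ∏ i, ‖z i ^ (k i)‖ ≤ 1 := by
      apply Finset.prod_le_one
      · intro i _; exact norm_nonneg _
      · intro i _; rw [norm_pow]; exact pow_le_one₀ (norm_nonneg _) (hz i)
    calc _ ≤ |MvPowerSeries.coeff k h| * 1 := mul_le_mul_of_nonneg_left this (abs_nonneg _)
      _ = _ := mul_one _
  have h2n : Summable (fun k : Fin 8 →₀ ℕ => ‖((MvPolynomial.coeff k Q : ℝ) : ℂ) * ∏ i, z i ^ (k i)‖) := by
    apply summable_of_ne_finset_zero (s := Q.support)
    intro k hk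
    rw [MvPolynomial.notMem_support_iff.mp hk]
    simp
  have h3 := summable_mul_of_summable_norm h1n h2n
  have h4 := h1.tsum_mul_tsum_eq_tsum_sum_antidiagonal h2.summable h3
  rw [h2.tsum_eq] at h4
  unfold GG
  rw [h4, ← (aeval_eq_tsum P z).tsum_eq]
  apply tsum_congr
  intro k
  have h5 : MvPolynomial.coeff k P = MvPowerSeries.coeff k (h * (Q : MvPowerSeries (Fin 8) ℝ)) := by
    rw [hPQ]; rfl
  rw [h5, MvPowerSeries.coeff_mul, Complex.ofReal_sum, Finset.sum_mul]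
  apply Finset.sum_congr rfl
  intro kl hkl
  rw [Finset.HasAntidiagonal.mem_antidiagonal] at hkl
  have h6 : ∏ i, z i ^ (k i) = (∏ i, z i ^ (kl.1 i)) * ∏ i, z i ^ (kl.2 i) := by
    rw [← Finset.prod_mul_distrib]
    apply Finset.prod_congr rfl
    intro i _
    rw [← hkl, Finsupp.add_apply, pow_add]
  rw [h6]
  change _ = (((MvPowerSeries.coeff kl.1 h * MvPolynomial.coeff kl.2 Q : ℝ)) : ℂ) * _
  push_cast
  ring

lemma not_summable : ¬ Summable (fun k : Fin 8 →₀ ℕ =>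
    |MvPowerSeries.coeff k ((PP : MvPowerSeries (Fin 8) ℝ) * (QQ : MvPowerSeries (Fin 8) ℝ)⁻¹)|) := by
  intro hs
  set h : MvPowerSeries (Fin 8) ℝ := (PP : MvPowerSeries (Fin 8) ℝ) * (QQ : MvPowerSeries (Fin 8) ℝ)⁻¹
    with hh
  have hc : MvPowerSeries.constantCoeff (QQ : MvPowerSeries (Fin 8) ℝ) ≠ 0 := by
    have : MvPowerSeries.constantCoeff (QQ : MvPowerSeries (Fin 8) ℝ) = MvPolynomial.constantCoeff QQ := rfl
    rw [this, constCoeff_QQ]; exact one_ne_zero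
  have hPQ : h * (QQ : MvPowerSeries (Fin 8) ℝ) = (PP : MvPowerSeries (Fin 8) ℝ) := by
    rw [hh, mul_assoc, MvPowerSeries.inv_mul_cancel _ hc, mul_one]
  refine no_summable (fun k => MvPowerSeries.coeff k h) hs ?_
  intro w z' hw hz' hPhi
  have h1 := prod_identity h PP QQ hPQ hs (Fin.cons w z') (by
    intro i
    refine Fin.cases ?_ (fun i => ?_) i
    · rw [Fin.cons_zero]; exact hw.le
    · rw [Fin.cons_succ]; exact (hz' i).le)
  rw [aeval_PP, aeval_QQ] at h1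
  have h2 : (fun i : Fin 7 => (Fin.cons w z' : Fin 8 → ℂ) i.succ) = z' := by
    ext i; rw [Fin.cons_succ]
  have h3 : (Fin.cons w z' : Fin 8 → ℂ) 1 = z' 0 := by
    rw [← Fin.succ_zero_eq_one, Fin.cons_succ]
  rw [h2, h3, Fin.cons_zero] at h1
  have hne : 1 - w * Phi z' ≠ 0 := by
    intro h
    have : w * Phi z' = 1 := (sub_eq_zero.mp h).symm
    have h2 := congrArg norm this
    rw [norm_mul, hw, one_mul, norm_one] at h2
    linarith
  rw [eq_div_iff hne]
  exact h1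

/-! ### Part G: coprimality -/

lemma QQ_ne_zero : QQ ≠ 0 := by
  intro h
  have := constCoeff_QQ
  rw [h, map_zero] at this
  exact zero_ne_one this

lemma PP_ne_zero : PP ≠ 0 := by
  intro h
  have h1 := aeval_PP (fun _ => 0)
  rw [h, map_zero] at h1
  norm_num at h1

open MvPolynomial in
lemma degreeOf_PP : degreeOf 0 PP = 0 := by
  have h1 : degreeOf (0 : Fin 8) ((X 1 ^ 2 + 1 : MvPolynomial (Fin 8) ℝ)) = 0 := by
    have h2 := degreeOf_add_le (0 : Fin 8) (X 1 ^ 2 : MvPolynomial (Fin 8) ℝ) 1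
    have h3 : degreeOf (0 : Fin 8) (X 1 ^ 2 : MvPolynomial (Fin 8) ℝ) = 0 := by
      have h4 := degreeOf_pow_le (0 : Fin 8) (X 1 : MvPolynomial (Fin 8) ℝ) 2
      rw [degreeOf_X_of_ne (by decide)] at h4
      omega
    rw [h3, degreeOf_one] at h2
    simpa using h2
  have h5 := degreeOf_pow_le (0 : Fin 8) (X 1 ^ 2 + 1 : MvPolynomial (Fin 8) ℝ) 5
  rw [h1] at h5
  unfold PP
  omega

open MvPolynomial in
lemma relprime : IsRelPrime PP QQ := by
  intro r hrP hrQ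
  obtain ⟨s, hs⟩ := hrP
  obtain ⟨t, ht⟩ := hrQ
  have hr0 : r ≠ 0 := by rintro rfl; rw [zero_mul] at hs; exact PP_ne_zero hs
  have hs0 : s ≠ 0 := by rintro rfl; rw [mul_zero] at hs; exact PP_ne_zero hs
  have hdeg : degreeOf 0 r = 0 := by
    have h1 := degreeOf_mul_eq (n := (0 : Fin 8)) hr0 hs0
    rw [← hs, degreeOf_PP] at h1
    omega
  -- substitution X 0 ↦ 0
  set σ : MvPolynomial (Fin 8) ℝ →ₐ[ℝ] MvPolynomial (Fin 8) ℝ :=
    aeval (fun i => if i = 0 then 0 else X i) with hσ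
  have hσr : σ r = r := by
    have h1 : σ.toRingHom r = (RingHom.id _) r := by
      apply hom_congr_vars (f₁ := σ.toRingHom) (f₂ := RingHom.id _)
      · ext x; simp [hσ]
      · intro i hi _
        have hi0 : i ≠ 0 := by
          rintro rfl
          rw [mem_vars_iff_mem_support] at hi
          obtain ⟨d, hd, hd2⟩ := hi
          have h3 := monomial_le_degreeOf (0 : Fin 8) hd
          rw [hdeg] at h3
          have : d 0 = 0 := by omega
          exact (Finsupp.mem_support_iff.mp hd2) this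
        simp [hσ, hi0]
      · rfl
    exact h1
  have hσQ : σ QQ = 1 := by
    unfold QQ
    rw [map_sub, map_one, map_mul]
    have : σ (X 0) = 0 := by rw [hσ, aeval_X]; simp
    rw [this, zero_mul, sub_zero]
  have h1 : r * σ t = 1 := by
    rw [← hσQ, ht, map_mul, hσr]
  exact IsUnit.of_mul_eq_one _ h1

/-! ### Part H: zeros and continuity -/

lemma zero_of_QQ (z : Fin 8 → ℂ) (hz : ∀ i, ‖z i‖ ≤ 1) (hQ : 1 - z 0 * Phi (fun i => z i.succ) = 0) :
    ∀ i : Fin 7, (z i.succ)^2 + 1 = 0 := by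
  intro i
  have h1 : ‖z 0‖ * ∏ j : Fin 7, ‖phi (z j.succ)‖ = 1 := by
    have : z 0 * Phi (fun i => z i.succ) = 1 := (sub_eq_zero.mp hQ).symm
    have h2 := congrArg norm this
    rw [norm_mul, norm_one, Phi, norm_prod] at h2
    exact h2
  have h2 : ∏ j : Fin 7, ‖phi (z j.succ)‖ ≤ ‖phi (z i.succ)‖ := by
    rw [← Finset.mul_prod_erase _ _ (Finset.mem_univ i)]
    have : ∏ j ∈ Finset.univ.erase i, ‖phi (z (Fin.succ j))‖ ≤ 1 := by
      apply Finset.prod_le_one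
      · intro j _; exact norm_nonneg _
      · intro j _; exact phi_le_one _ (hz _)
    calc _ ≤ ‖phi (z i.succ)‖ * 1 := mul_le_mul_of_nonneg_left this (norm_nonneg _)
      _ = _ := mul_one _
  have h3 : (0:ℝ) ≤ ∏ j : Fin 7, ‖phi (z j.succ)‖ := Finset.prod_nonneg fun _ _ => norm_nonneg _
  have h4 : 1 ≤ ‖phi (z i.succ)‖ := by
    calc 1 = ‖z 0‖ * ∏ j : Fin 7, ‖phi (z j.succ)‖ := h1.symm
      _ ≤ 1 * ∏ j : Fin 7, ‖phi (z j.succ)‖ := mul_le_mul_of_nonneg_right (hz 0) h3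
      _ ≤ _ := by rw [one_mul]; exact h2
  have h5 := one_sub_phi (z i.succ) (hz _)
  have h6 : ‖(z i.succ)^2 + 1‖^4 ≤ 0 := by linarith
  have h7 : ‖(z i.succ)^2 + 1‖ = 0 := by
    by_contra hne
    have : 0 < ‖(z i.succ)^2 + 1‖ := lt_of_le_of_ne (norm_nonneg _) (Ne.symm hne)
    have : 0 < ‖(z i.succ)^2 + 1‖^4 := by positivity
    linarith
  exact norm_eq_zero.mp h7

lemma finite_zeros : {z : Fin 8 → ℂ | (∀ i, ‖z i‖ = 1) ∧ MvPolynomial.aeval z PP = 0 ∧
          MvPolynomial.aeval z QQ = 0}.Finite := by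
  have hfin : (Set.pi Set.univ (fun _ : Fin 8 => ({Complex.I, -Complex.I, 1} : Set ℂ))).Finite :=
    Set.Finite.pi' (fun _ => Set.toFinite _) |>.subset (by
      intro z hz i
      exact hz i (Set.mem_univ _))
  refine hfin.subset ?_
  rintro z ⟨hz, -, hQ⟩
  rw [aeval_QQ] at hQ
  have h1 := zero_of_QQ z (fun i => (hz i).le) hQ
  intro i _
  refine Fin.cases ?_ (fun i => ?_) i
  · -- z 0 = 1
    have h2 : ∀ j : Fin 7, phi (z j.succ) = 1 := by
      intro j
      have h3 := h1 j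
      unfold phi
      have h4 : (z j.succ)^2 = -1 := by linear_combination h3
      have h5 : (z j.succ)^4 = 1 := by
        calc (z j.succ)^4 = ((z j.succ)^2)^2 := by ring
          _ = 1 := by rw [h4]; norm_num
      rw [h3, h5]; ring
    have h6 : Phi (fun i => z i.succ) = 1 := by
      unfold Phi
      exact Finset.prod_eq_one (fun j _ => h2 j)
    rw [h6, mul_one] at hQ
    have : z 0 = 1 := (sub_eq_zero.mp hQ).symm
    rw [this]; simp
  · have h3 := h1 i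
    have h4 : (z i.succ - Complex.I) * (z i.succ + Complex.I) = 0 := by
      linear_combination h3 - Complex.I_sq
    rcases mul_eq_zero.mp h4 with h | h
    · left; exact sub_eq_zero.mp h
    · right; left; exact eq_neg_of_add_eq_zero_left h

def FF (z : Fin 8 → ℂ) : ℂ :=
  if MvPolynomial.aeval z QQ = 0 then 0 else MvPolynomial.aeval z PP / MvPolynomial.aeval z QQ

lemma FF_bound (z : Fin 8 → ℂ) (hz : ∀ i, ‖z i‖ ≤ 1) : ‖FF z‖ ≤ (256/3) * ‖(z 1)^2 + 1‖ := by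
  unfold FF
  split_ifs with h
  · rw [norm_zero]; positivity
  · rw [norm_div, aeval_PP, norm_pow]
    set v := ‖(z 1)^2 + 1‖ with hv
    have hv0 : 0 ≤ v := norm_nonneg _
    have hq : (3/256) * v^4 ≤ ‖MvPolynomial.aeval z QQ‖ := by
      rw [aeval_QQ]
      have h1 : ‖z 0 * Phi (fun i => z i.succ)‖ ≤ ‖phi (z 1)‖ := by
        rw [norm_mul, Phi, norm_prod, Fin.prod_univ_succ]
        have h2 : ∏ i : Fin 6, ‖phi (z (Fin.succ i.succ))‖ ≤ 1 := by
          apply Finset.prod_le_one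
          · intro j _; exact norm_nonneg _
          · intro j _; exact phi_le_one _ (hz _)
        have h3 : (0:ℝ) ≤ ∏ i : Fin 6, ‖phi (z (Fin.succ i.succ))‖ :=
          Finset.prod_nonneg fun _ _ => norm_nonneg _
        calc ‖z 0‖ * (‖phi (z 1)‖ * ∏ i : Fin 6, ‖phi (z (Fin.succ i.succ))‖) 
            ≤ 1 * (‖phi (z 1)‖ * 1) := by
              apply mul_le_mul (hz 0) _ (by positivity) zero_le_one
              exact mul_le_mul_of_nonneg_left h2 (norm_nonneg _)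
          _ = _ := by ring
      have h4 := one_sub_phi (z 1) (hz 1)
      have h5 := norm_sub_norm_le (1:ℂ) (z 0 * Phi (fun i => z i.succ))
      rw [norm_one] at h5
      linarith
    have hq0 : 0 < ‖MvPolynomial.aeval z QQ‖ := norm_pos_iff.mpr h
    rw [div_le_iff₀ hq0]
    calc v^5 = (256/3) * v * ((3/256) * v^4) := by ring
      _ ≤ (256/3) * v * ‖MvPolynomial.aeval z QQ‖ :=
          mul_le_mul_of_nonneg_left hq (by positivity)

lemma aeval_continuous (p : MvPolynomial (Fin 8) ℝ) :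
    Continuous (fun z : Fin 8 → ℂ => MvPolynomial.aeval z p) := by
  have : (fun z : Fin 8 → ℂ => MvPolynomial.aeval z p) =
      fun z => ∑ d ∈ p.support, algebraMap ℝ ℂ (p.coeff d) * ∏ i, z i ^ d i := by
    ext z
    rw [MvPolynomial.aeval_def, MvPolynomial.eval₂_eq']
  rw [this]
  fun_prop

lemma FF_continuousOn : ContinuousOn FF {z : Fin 8 → ℂ | ∀ i, ‖z i‖ ≤ 1} := by
  intro z hz
  by_cases h : MvPolynomial.aeval z QQ = 0
  · have hv : (z 1)^2 + 1 = 0 := by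
      have h1 := zero_of_QQ z hz (by rw [← aeval_QQ]; exact h) 0
      exact h1
    have hFz : FF z = 0 := by unfold FF; rw [if_pos h]
    unfold ContinuousWithinAt
    rw [hFz]
    apply squeeze_zero_norm' (a := fun z : Fin 8 → ℂ => (256/3) * ‖(z 1)^2 + 1‖)
    · filter_upwards [self_mem_nhdsWithin] with w hw
      exact FF_bound w hw
    · have hc : Continuous (fun z : Fin 8 → ℂ => (256/3) * ‖(z 1)^2 + 1‖) := by fun_prop
      have := (hc.tendsto z).mono_left (nhdsWithin_le_nhds (s := {z : Fin 8 → ℂ | ∀ i, ‖z i‖ ≤ 1}))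
      simp only [hv, norm_zero, mul_zero] at this
      exact this
  · apply ContinuousAt.continuousWithinAt
    have h1 : ContinuousAt (fun z : Fin 8 → ℂ =>
        MvPolynomial.aeval z PP / MvPolynomial.aeval z QQ) z :=
      (aeval_continuous PP).continuousAt.div (aeval_continuous QQ).continuousAt h
    refine h1.congr ?_
    have h2 : ∀ᶠ w in 𝓝 z, MvPolynomial.aeval w QQ ≠ 0 :=
      (aeval_continuous QQ).continuousAt.eventually_ne h
    filter_upwards [h2] with w hw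
    unfold FF
    rw [if_neg hw]

end

/-- The negation of the preceding statement: For real coprime polynomials P, Q in n variables with Q(0)≠0 and finitely many common zeros on the unit torus, the Taylor coefficients of P/Q at 0 are absolutely summable iff P/Q on the open unit polydisk extends continuously to the closed polydisk. -/
theorem result :
    ¬ (∀ (n : ℕ) (P Q : MvPolynomial (Fin n) ℝ),
      IsRelPrime P Q →
      MvPolynomial.constantCoeff Q ≠ 0 →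
      {z : Fin n → ℂ | (∀ i, ‖z i‖ = 1) ∧ MvPolynomial.aeval z P = 0 ∧
          MvPolynomial.aeval z Q = 0}.Finite →
      (Summable (fun k : Fin n →₀ ℕ =>
          |MvPowerSeries.coeff k
            ((P : MvPowerSeries (Fin n) ℝ) * (Q : MvPowerSeries (Fin n) ℝ)⁻¹)|) ↔
        ∃ F : (Fin n → ℂ) → ℂ,
          ContinuousOn F {z : Fin n → ℂ | ∀ i, ‖z i‖ ≤ 1} ∧
          ∀ z : Fin n → ℂ, (∀ i, ‖z i‖ < 1) → MvPolynomial.aeval z Q ≠ 0 →
            F z = MvPolynomial.aeval z P / MvPolynomial.aeval z Q)) := by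
  intro hall
  have h := hall 8 PP QQ relprime (by rw [constCoeff_QQ]; exact one_ne_zero) finite_zeros
  refine not_summable (h.mpr ⟨FF, FF_continuousOn, ?_⟩)
  intro z _ hQ
  unfold FF
  rw [if_neg hQ]

end Pool.Agent.S1656
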