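import Pool.Statements.S1664
-- import your own Pool.Agent.* helpers here

set_option autoImplicit false
open Pool Pool.MP_a56edf_an

namespace Pool.Agent.S1664

open Filter Topology

noncomputable section

/-! ### The signed square root -/

/-- signed square root, written as the derivative of `(2/3)|t|^(3/2)` -/
def s (u : ℝ) : ℝ := |u| ^ ((3/2 : ℝ) - 2) * u

lemma s_mul_abs (u : ℝ) : s u * |s u| = u := by
  unfold s
  rcases eq_or_ne u 0 with rfl | hu
  · simp
  · have h : 0 < |u| := abs_pos.mpr hu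
    rw [abs_mul, abs_of_pos (Real.rpow_pos_of_pos h _)]
    have e : |u| ^ ((3/2 : ℝ) - 2) * |u| ^ ((3/2 : ℝ) - 2) * |u| = 1 := by
      rw [← Real.rpow_add h, show ((3/2 : ℝ) - 2 + (3/2 - 2)) = -1 by norm_num, Real.rpow_neg_one]
      field_simp
    calc |u| ^ ((3/2 : ℝ) - 2) * u * (|u| ^ ((3/2 : ℝ) - 2) * |u|)
        = (|u| ^ ((3/2 : ℝ) - 2) * |u| ^ ((3/2 : ℝ) - 2) * |u|) * u := by ring
      _ = u := by rw [e, one_mul]

lemma s_zero : s 0 = 0 := by simp [s]

lemma s_ne_zero {u : ℝ} (hu : u ≠ 0) : s u ≠ 0 := by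
  intro h
  have := s_mul_abs u
  rw [h] at this
  simp at this
  exact hu this.symm

lemma s_sq_mul (t : ℝ) (ht : 0 < t) (w : ℝ) : s (t^2 * w) = t * s w := by
  unfold s
  rcases eq_or_ne w 0 with rfl | hw
  · simp
  · rw [abs_mul, abs_of_pos (by positivity : 0 < t^2), Real.mul_rpow (by positivity) (abs_nonneg _)]
    have : (t^2 : ℝ) ^ ((3/2 : ℝ) - 2) = t⁻¹ := by
      rw [← Real.rpow_natCast t 2, ← Real.rpow_mul ht.le]
      rw [show (((2:ℕ):ℝ) * ((3/2 : ℝ) - 2)) = -1 by norm_num, Real.rpow_neg_one]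
    rw [this]
    field_simp

lemma s_neg (u : ℝ) : s (-u) = - s u := by simp [s]

lemma s_diff_sq (u v : ℝ) : (s u - s v)^2 ≤ 2 * |u - v| := by
  have hu := s_mul_abs u
  have hv := s_mul_abs v
  set a := s u
  set b := s v
  rw [← hu, ← hv]
  rcases le_total 0 a with ha | ha <;> rcases le_total 0 b with hb | hb
  · rw [abs_of_nonneg ha, abs_of_nonneg hb]
    rcases le_total a b with h | h
    · rw [abs_sub_comm, abs_of_nonneg (by nlinarith)]; nlinarith [mul_nonneg ha (sub_nonneg.mpr h)]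
    · rw [abs_of_nonneg (by nlinarith)]; nlinarith [mul_nonneg hb (sub_nonneg.mpr h)]
  · rw [abs_of_nonneg ha, abs_of_nonpos hb, abs_of_nonneg (by nlinarith)]
    nlinarith [sq_nonneg (a + b)]
  · rw [abs_of_nonpos ha, abs_of_nonneg hb, abs_sub_comm, abs_of_nonneg (by nlinarith)]
    nlinarith [sq_nonneg (a + b)]
  · rw [abs_of_nonpos ha, abs_of_nonpos hb]
    rcases le_total a b with h | h
    · rw [abs_sub_comm, abs_of_nonneg (by nlinarith)]
      nlinarith [mul_nonneg (neg_nonneg.mpr hb) (sub_nonneg.mpr h)]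
    · rw [abs_of_nonneg (by nlinarith)]
      nlinarith [mul_nonneg (neg_nonneg.mpr ha) (sub_nonneg.mpr h)]

lemma abs_s_le (u : ℝ) : |s u| ≤ 1 + |u| := by
  have hu := s_mul_abs u
  have : |s u| * |s u| = |u| := by
    have := congrArg abs hu
    rwa [abs_mul, abs_abs] at this
  nlinarith [abs_nonneg (s u), abs_nonneg u]

lemma s_differentiableAt {u : ℝ} (hu : u ≠ 0) : DifferentiableAt ℝ s u := by
  unfold s
  have h1 : DifferentiableAt ℝ (fun x : ℝ => |x|) u := by
    simpa using (differentiableAt_id (𝕜 := ℝ) (x := u)).abs hu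
  exact (h1.rpow_const (Or.inl (abs_ne_zero.mpr hu))).mul differentiableAt_id

/-- if `q` is differentiable at `0` then `(q(t^2) - q(-t^2))/t → 0`. -/
lemma sym_diff_tendsto (q : ℝ → ℝ) (hq : DifferentiableAt ℝ q 0) :
    Tendsto (fun t : ℝ => (q (t^2) - q (-t^2)) / t) (𝓝[>] 0) (𝓝 0) := by
  have hd := hq.hasDerivAt
  have h1 : HasDerivAt (fun t : ℝ => q (t^2)) (deriv q 0 * (2 * 0)) 0 := by
    have hsq : HasDerivAt (fun t : ℝ => t^2) (2 * 0) 0 := by
      simpa using hasDerivAt_pow 2 (0:ℝ)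
    have : HasDerivAt q (deriv q 0) ((0:ℝ)^2) := by simpa using hd
    exact HasDerivAt.comp (0:ℝ) this hsq
  have h2 : HasDerivAt (fun t : ℝ => q (-t^2)) (deriv q 0 * (-(2 * 0))) 0 := by
    have hsq : HasDerivAt (fun t : ℝ => -t^2) (-(2 * 0)) 0 := by
      have := (hasDerivAt_pow 2 (0:ℝ)).fun_neg
      simpa using this
    have : HasDerivAt q (deriv q 0) (-(0:ℝ)^2) := by simpa using hd
    exact HasDerivAt.comp (0:ℝ) this hsq
  have h3 := (h1.sub h2)
  rw [hasDerivAt_iff_tendsto_slope_zero] at h3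
  have h4 := h3.mono_left (nhdsWithin_mono (0:ℝ) (t := {0}ᶜ) (s := Set.Ioi 0) (by
    intro x hx; simp at hx ⊢; exact hx.ne'))
  simp only [mul_zero, neg_zero, sub_zero] at h4
  refine h4.congr' ?_
  filter_upwards with t
  simp
  ring

/-! ### The Hilbert space and the functionals -/

abbrev H := ↥(lp (fun _ : ℕ => ℝ) 2)

def lam (k : ℕ) : ℝ := (1/2)^(k+1)

lemma lam_pos (k : ℕ) : 0 < lam k := by unfold lam; positivity

lemma lam_le (k : ℕ) : lam k ≤ 1/2 := by
  unfold lam
  rw [pow_succ]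
  have : (1/2:ℝ)^k ≤ 1 := pow_le_one₀ (by norm_num) (by norm_num)
  linarith

lemma coord_le (y : H) (j : ℕ) : |y j| ≤ ‖y‖ := by
  simpa using lp.norm_apply_le_norm (by norm_num) y j

lemma term_le (k : ℕ) (y : H) (j : ℕ) : ‖lam k ^ j * y j‖ ≤ (1/2:ℝ)^j * ‖y‖ := by
  rw [norm_mul, Real.norm_eq_abs, Real.norm_eq_abs, abs_of_pos (pow_pos (lam_pos k) j)]
  exact mul_le_mul (pow_le_pow_left₀ (lam_pos k).le (lam_le k) j) (coord_le y j) (abs_nonneg _)
    (by positivity)

lemma summ (k : ℕ) (y : H) : Summable (fun j => lam k ^ j * y j) :=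
  Summable.of_norm_bounded (g := fun j => (1/2:ℝ)^j * ‖y‖) (summable_geometric_two.mul_right _)
    (term_le k y)

lemma f_bound (k : ℕ) (y : H) : ‖∑' j, lam k ^ j * y j‖ ≤ 2 * ‖y‖ := by
  have := tsum_of_norm_bounded (f := fun j => lam k ^ j * y j)
      ((summable_geometric_two.mul_right ‖y‖).hasSum) (term_le k y)
  rw [tsum_mul_right, tsum_geometric_two] at this
  exact this

def f (k : ℕ) : H →L[ℝ] ℝ := LinearMap.mkContinuous
  { toFun := fun y => ∑' j, lam k ^ j * y j
    map_add' := by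
      intro y z
      rw [← (summ k y).tsum_add (summ k z)]
      congr 1; ext j
      rw [lp.coeFn_add, Pi.add_apply]; ring
    map_smul' := by
      intro a y
      rw [RingHom.id_apply, smul_eq_mul, ← tsum_mul_left]
      congr 1; ext j
      rw [lp.coeFn_smul, Pi.smul_apply, smul_eq_mul]; ring } 2 (fun y => f_bound k y)

lemma f_apply (k : ℕ) (y : H) : f k y = ∑' j, lam k ^ j * y j := rfl

lemma f_le (k : ℕ) (y : H) : |f k y| ≤ 2 * ‖y‖ := by
  rw [f_apply]; exact f_bound k y

lemma lam_tendsto : Tendsto lam atTop (𝓝 0) := by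
  have := (tendsto_pow_atTop_nhds_zero_of_lt_one (by norm_num : (0:ℝ) ≤ 1/2) (by norm_num))
  exact this.comp (tendsto_add_atTop_nat 1)

/-- asymptotics of `f k y` -/
lemma f_asymp (y : H) (n : ℕ) (hy : ∀ j < n, y j = 0) :
    Tendsto (fun k => f k y / lam k ^ n) atTop (𝓝 (y n)) := by
  have h1 : ∀ k, f k y / lam k ^ n = ∑' j, (lam k ^ j * y j) / lam k ^ n := by
    intro k; rw [f_apply, tsum_div_const]
  have h2 : y n = ∑' j, (if j = n then y n else 0) := by
    rw [tsum_ite_eq]
  rw [funext h1, h2]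
  refine tendsto_tsum_of_dominated_convergence (bound := fun j => (1/2:ℝ)^(j-n) * ‖y‖) ?_ ?_ ?_
  · apply Summable.mul_right
    rw [← summable_nat_add_iff n]
    simpa using summable_geometric_two
  · intro j
    rcases lt_trichotomy j n with h | h | h
    · simp [hy j h, h.ne]
    · subst h
      simp only [if_true]
      refine tendsto_const_nhds.congr ?_
      intro k
      have := (pow_pos (lam_pos k) j).ne'
      field_simp
    · rw [if_neg h.ne']
      obtain ⟨m, rfl⟩ := Nat.exists_eq_add_of_lt h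
      have h3 : ∀ k, lam k ^ (n + m + 1) * y (n + m + 1) / lam k ^ n =
          lam k ^ (m+1) * y (n+m+1) := by
        intro k
        have := (pow_pos (lam_pos k) n).ne'
        rw [show n + m + 1 = n + (m+1) by ring, pow_add]
        field_simp
      rw [funext h3]
      have := (lam_tendsto.pow (m+1)).mul_const (y (n+m+1))
      simpa using this
  · filter_upwards with k j
    rcases lt_or_ge j n with h | h
    · simp [hy j h]
    · obtain ⟨m, rfl⟩ := Nat.exists_eq_add_of_le h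
      have : lam k ^ (n + m) * y (n + m) / lam k ^ n = lam k ^ m * y (n+m) := by
        have := (pow_pos (lam_pos k) n).ne'
        rw [pow_add]
        field_simp
      rw [this, Nat.add_sub_cancel_left, norm_mul, Real.norm_eq_abs, Real.norm_eq_abs,
        abs_of_pos (pow_pos (lam_pos k) m)]
      exact mul_le_mul (pow_le_pow_left₀ (lam_pos k).le (lam_le k) m) (coord_le y _) (abs_nonneg _)
        (by positivity)

/-! ### the modular -/

def eps (k : ℕ) : ℝ := (1/2)^k

lemma eps_pos (k : ℕ) : 0 < eps k := by unfold eps; positivity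

lemma eps_summable : Summable eps := summable_geometric_two

def M (y : H) : ℝ := ‖y‖ ^ (3/2 : ℝ) + ∑' k, eps k * |f k y| ^ (3/2 : ℝ)

lemma M_summable (y : H) : Summable (fun k => eps k * |f k y| ^ (3/2 : ℝ)) := by
  refine Summable.of_nonneg_of_le (fun k => ?_) (fun k => ?_)
    (eps_summable.mul_right ((2 * ‖y‖) ^ (3/2:ℝ)))
  · have := eps_pos k; positivity
  · exact mul_le_mul_of_nonneg_left
      (Real.rpow_le_rpow (abs_nonneg _) (f_le k y) (by norm_num)) (eps_pos k).le

open scoped InnerProductSpace in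
lemma M_deriv (g x : H) : HasDerivAt (fun a : ℝ => M (g + a • x))
    (3/2 * (‖g‖ ^ ((3/2:ℝ) - 2) * ⟪g, x⟫_ℝ) + ∑' k, 3/2 * (eps k * (s (f k g) * f k x))) 0 := by
  unfold M
  refine HasDerivAt.add ?_ ?_
  · have h1 := hasFDerivAt_norm_rpow g (p := 3/2) (by norm_num)
    have h2 : HasDerivAt (fun a : ℝ => g + a • x) x 0 := by
      simpa using ((hasDerivAt_id (0:ℝ)).smul_const x).const_add g
    have h1' : HasFDerivAt (fun x : H => ‖x‖ ^ (3/2:ℝ))
      ((3/2 * ‖g‖ ^ ((3/2:ℝ) - 2)) • innerSL ℝ g) (g + (0:ℝ) • x) := by simpa using h1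
    have h3 := h1'.comp_hasDerivAt (0:ℝ) h2
    refine h3.congr_deriv ?_
    simp [mul_assoc]
  · have hf : ∀ k (a : ℝ), f k (g + a • x) = f k g + a * f k x := by
      intro k a; simp
    simp only [hf]
    have key := hasDerivAt_tsum_of_isPreconnected
      (g := fun (k : ℕ) (a : ℝ) => eps k * |f k g + a * f k x| ^ (3/2:ℝ))
      (g' := fun (k : ℕ) (a : ℝ) => 3/2 * (eps k * (s (f k g + a * f k x) * f k x)))
      (u := fun k => eps k * (3/2 * ((1 + (2 * ‖g‖ + 2 * ‖x‖)) * (2 * ‖x‖))))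
      (t := Metric.ball 0 1) (y₀ := 0) (y := 0)
      (eps_summable.mul_right _) Metric.isOpen_ball (convex_ball _ _).isPreconnected
      ?_ ?_ (by simp) (by simpa using M_summable g) (by simp)
    · simpa using key
    · intro k a ha
      have h4 : HasDerivAt (fun a : ℝ => f k g + a * f k x) (f k x) a := by
        simpa using ((hasDerivAt_id a).mul_const (f k x)).const_add (f k g)
      have h5 := (hasDerivAt_abs_rpow (f k g + a * f k x) (p := 3/2) (by norm_num))
      have h6 := (HasDerivAt.comp a h5 h4).const_mul (eps k)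
      refine h6.congr_deriv ?_
      unfold s
      ring
    · intro k a ha
      have ha' : |a| ≤ 1 := by
        have := Metric.mem_ball.mp ha
        rw [Real.dist_eq, sub_zero] at this
        exact this.le
      have h7 : |f k g + a * f k x| ≤ 2 * ‖g‖ + 2 * ‖x‖ := by
        calc |f k g + a * f k x| ≤ |f k g| + |a * f k x| := abs_add_le _ _
          _ = |f k g| + |a| * |f k x| := by rw [abs_mul]
          _ ≤ 2 * ‖g‖ + 1 * (2 * ‖x‖) := by
              gcongr
              · exact f_le k g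
              · exact f_le k x
          _ = _ := by ring
      have h8 := abs_s_le (f k g + a * f k x)
      rw [Real.norm_eq_abs, abs_mul, abs_mul, abs_mul, abs_of_pos (eps_pos k),
        abs_of_pos (by norm_num : (0:ℝ) < 3/2)]
      have h9 : |s (f k g + a * f k x)| * |f k x| ≤ (1 + (2 * ‖g‖ + 2 * ‖x‖)) * (2 * ‖x‖) := by
        apply mul_le_mul (h8.trans (by linarith)) (f_le k x) (abs_nonneg _) (by positivity)
      calc 3/2 * (eps k * (|s (f k g + a * f k x)| * |f k x|))
          = eps k * (3/2 * (|s (f k g + a * f k x)| * |f k x|)) := by ring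
        _ ≤ _ := by
          apply mul_le_mul_of_nonneg_left _ (eps_pos k).le
          apply mul_le_mul_of_nonneg_left h9 (by norm_num)

open scoped InnerProductSpace in
lemma M_crit (g x : H) (h : ∀ a : ℝ, M g ≤ M (g + a • x)) :
    ‖g‖ ^ ((3/2:ℝ) - 2) * ⟪g, x⟫_ℝ + ∑' k, eps k * (s (f k g) * f k x) = 0 := by
  have h1 := M_deriv g x
  have h2 : IsLocalMin (fun a : ℝ => M (g + a • x)) 0 := by
    filter_upwards with a
    simpa using h a
  have h3 := h2.hasDerivAt_eq_zero h1
  rw [tsum_mul_left] at h3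
  linarith

lemma S_summable (y x : H) : Summable (fun j => eps j * (s (f j y) * f j x)) := by
  refine Summable.of_norm_bounded (g := fun j => eps j * ((1 + 2 * ‖y‖) * (2 * ‖x‖)))
    (eps_summable.mul_right _) ?_
  intro j
  rw [Real.norm_eq_abs, abs_mul, abs_mul, abs_of_pos (eps_pos j)]
  apply mul_le_mul_of_nonneg_left _ (eps_pos j).le
  apply mul_le_mul _ (f_le j x) (abs_nonneg _) (by positivity)
  have := abs_s_le (f j y)
  have := f_le j y
  linarith

open scoped InnerProductSpace in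
lemma key_vanish (g0 g1 x : H) (hg0 : g0 ≠ 0) (k : ℕ) (hk0 : f k g0 = 0) (hk1 : f k g1 ≠ 0)
    (hj : ∀ j, j ≠ k → f j g0 ≠ 0 ∨ f j g1 = 0)
    (hcrit : ∀ t : ℝ, ‖g0 + t • g1‖ ^ ((3/2:ℝ) - 2) * ⟪g0 + t • g1, x⟫_ℝ
      + ∑' j, eps j * (s (f j (g0 + t • g1)) * f j x) = 0) : f k x = 0 := by
  set P : ℝ → ℝ := fun t => ‖g0 + t • g1‖ ^ ((3/2:ℝ) - 2) * ⟪g0 + t • g1, x⟫_ℝ with hP
  have hPd : DifferentiableAt ℝ P 0 := by
    have h0 : DifferentiableAt ℝ (fun t : ℝ => g0 + t • g1) 0 := by fun_prop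
    have h1 : DifferentiableAt ℝ (fun t : ℝ => ‖g0 + t • g1‖) 0 :=
      DifferentiableAt.norm ℝ h0 (by simpa using hg0)
    refine (h1.rpow_const (Or.inl (by simpa using hg0))).mul ?_
    exact DifferentiableAt.inner ℝ h0 (differentiableAt_const x)
  have hlim1 := sym_diff_tendsto P hPd
  set T : ℝ → ℕ → ℝ := fun t j => eps j * f j x *
    ((s (f j g0 + t^2 * f j g1) - s (f j g0 + (-t^2) * f j g1)) / t) with hT
  have hlim2 : Tendsto (fun t => ∑' j, T t j) (𝓝[>] 0)
      (𝓝 (∑' j, if j = k then eps k * f k x * (2 * s (f k g1)) else 0)) := by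
    refine tendsto_tsum_of_dominated_convergence
      (bound := fun j => eps j * (2 * ‖x‖ * (2 + 4 * (2 * ‖g1‖)))) (eps_summable.mul_right _) ?_ ?_
    · intro j
      by_cases hjk : j = k
      · subst hjk
        rw [if_pos rfl]
        refine tendsto_const_nhds.congr' ?_
        filter_upwards [self_mem_nhdsWithin] with t ht
        have ht' : 0 < t := ht
        simp only [hT, hk0, zero_add]
        rw [show (-t^2) * f j g1 = -(t^2 * f j g1) by ring, s_neg, s_sq_mul t ht']
        field_simp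
        ring
      · rw [if_neg hjk]
        rcases hj j hjk with h | h
        · have hq : DifferentiableAt ℝ (fun r : ℝ => s (f j g0 + r * f j g1)) 0 := by
            have h2 : DifferentiableAt ℝ s (f j g0 + 0 * f j g1) := by
              simpa using s_differentiableAt h
            have h3 : DifferentiableAt ℝ (fun r : ℝ => f j g0 + r * f j g1) 0 := by fun_prop
            exact DifferentiableAt.comp (0:ℝ) h2 h3
          have := (sym_diff_tendsto _ hq).const_mul (eps j * f j x)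
          rw [mul_zero] at this
          exact this
        · simp only [hT, h]
          simp
    · filter_upwards [self_mem_nhdsWithin] with t ht j
      have ht' : 0 < t := ht
      have h1 := s_diff_sq (f j g0 + t^2 * f j g1) (f j g0 + (-t^2) * f j g1)
      have h2 : (f j g0 + t^2 * f j g1) - (f j g0 + (-t^2) * f j g1) = t^2 * (2 * f j g1) := by ring
      rw [h2, abs_mul, abs_of_pos (by positivity : 0 < t^2), abs_mul, abs_two] at h1
      set d := s (f j g0 + t^2 * f j g1) - s (f j g0 + (-t^2) * f j g1)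
      have h3 : (d / t)^2 ≤ 4 * |f j g1| := by
        rw [div_pow, div_le_iff₀ (by positivity)]
        nlinarith
      have h4 : |d / t| ≤ 2 + 4 * (2 * ‖g1‖) := by
        have h5 := f_le j g1
        have h6 : |d / t|^2 ≤ 4 * |f j g1| := by rw [sq_abs]; exact h3
        nlinarith [abs_nonneg (d / t), sq_nonneg (|d/t| - 1), norm_nonneg g1]
      rw [hT]
      simp only
      rw [Real.norm_eq_abs, abs_mul, abs_mul, abs_of_pos (eps_pos j), mul_assoc]
      apply mul_le_mul_of_nonneg_left _ (eps_pos j).le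
      exact mul_le_mul (f_le j x) h4 (abs_nonneg _) (by positivity)
  rw [tsum_ite_eq] at hlim2
  have hsum : ∀ t : ℝ, 0 < t → (P (t^2) - P (-t^2)) / t + ∑' j, T t j = 0 := by
    intro t ht
    have h1 := hcrit (t^2)
    have h2 := hcrit (-t^2)
    have h3 : ∑' j, T t j = (∑' j, eps j * (s (f j (g0 + t^2 • g1)) * f j x) -
        ∑' j, eps j * (s (f j (g0 + (-t^2) • g1)) * f j x)) / t := by
      rw [← (S_summable _ x).tsum_sub (S_summable _ x), ← tsum_div_const]
      congr 1; ext j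
      simp only [hT, map_add, map_smul, smul_eq_mul]
      ring
    rw [h3]
    simp only [hP]
    rw [← add_div, div_eq_zero_iff]
    left
    linarith
  have hlim3 := hlim1.add hlim2
  have hlim4 : Tendsto (fun t => (P (t^2) - P (-t^2)) / t + ∑' j, T t j) (𝓝[>] (0:ℝ)) (𝓝 0) := by
    refine tendsto_const_nhds.congr' ?_
    filter_upwards [self_mem_nhdsWithin] with t ht
    exact (hsum t ht).symm
  have hE := tendsto_nhds_unique hlim3 hlim4
  rw [zero_add] at hE
  have h1 := s_ne_zero hk1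
  have h2 := (eps_pos k).ne'
  by_contra hne
  exact absurd hE (by positivity)

lemma exists_coord_ne {x : H} (hx : x ≠ 0) : ∃ n, x n ≠ 0 := by
  by_contra h
  push Not at h
  exact hx (lp.ext (funext h))

theorem core (G : Submodule ℝ H) (a b : H) (ha : a ∈ G) (hb : b ∈ G)
    (hab : LinearIndependent ℝ ![a, b]) (x : H) (hx : x ≠ 0)
    (hmin : ∀ g ∈ G, ∀ α : ℝ, M g ≤ M (g + α • x)) : False := by
  classical
  rw [LinearIndependent.pair_iff] at hab
  have ha0 : a ≠ 0 := by
    rintro rfl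
    have := (hab 1 0 (by simp)).1
    exact one_ne_zero this
  have hex : ∃ n, ∃ g ∈ G, g n ≠ 0 := by
    obtain ⟨n, hn⟩ := exists_coord_ne ha0
    exact ⟨n, a, ha, hn⟩
  obtain ⟨h1, h1G, h1n⟩ := Nat.find_spec hex
  have hn1min : ∀ m < Nat.find hex, ∀ g ∈ G, g m = 0 := by
    intro m hm g hg
    by_contra hne
    exact Nat.find_min hex hm ⟨g, hg, hne⟩
  set n1 := Nat.find hex
  have hc : ∃ c ∈ G, c - (c n1 / h1 n1) • h1 ≠ 0 := by
    by_contra hcon
    push Not at hcon
    have e1 := sub_eq_zero.mp (hcon a ha)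
    have e2 := sub_eq_zero.mp (hcon b hb)
    set ra := a n1 / h1 n1
    set rb := b n1 / h1 n1
    have h3 := hab rb (-ra) (by
      rw [e1, e2, smul_smul, smul_smul, ← add_smul]
      have : rb * ra + -ra * rb = 0 := by ring
      rw [this, zero_smul])
    have : ra = 0 := by linarith [h3.2]
    rw [this, zero_smul] at e1
    exact ha0 e1
  obtain ⟨c, hcG, hc0⟩ := hc
  set h2 := c - (c n1 / h1 n1) • h1 with hh2
  have h2G : h2 ∈ G := G.sub_mem hcG (G.smul_mem _ h1G)
  have h2n1 : h2 n1 = 0 := by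
    rw [hh2]
    simp only [lp.coeFn_sub, lp.coeFn_smul, Pi.sub_apply, Pi.smul_apply, smul_eq_mul]
    field_simp
    ring
  have hex2 := exists_coord_ne hc0
  have h2n := Nat.find_spec hex2
  have hn2min : ∀ m < Nat.find hex2, h2 m = 0 := by
    intro m hm
    by_contra hne
    exact Nat.find_min hex2 hm hne
  set n2 := Nat.find hex2
  have hn12 : n1 < n2 := by
    by_contra hle
    rcases lt_or_eq_of_le (not_lt.mp hle) with h | h
    · exact h2n (hn1min n2 h h2 h2G)
    · rw [h] at h2n; exact h2n h2n1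
  have hA := f_asymp h1 n1 (fun j hj => hn1min j hj h1 h1G)
  have hB := f_asymp h2 n2 hn2min
  obtain ⟨m, hm⟩ := Nat.exists_eq_add_of_lt hn12
  set Q : ℕ → ℝ := fun k => (f k h2 / lam k ^ n2) / (f k h1 / lam k ^ n1) with hQ
  have hQlim : Tendsto Q atTop (𝓝 (h2 n2 / h1 n1)) := hB.div hA h1n
  have hQ0 : h2 n2 / h1 n1 ≠ 0 := div_ne_zero h2n h1n
  set ρ : ℕ → ℝ := fun k => f k h2 / f k h1 with hρ
  have hρQ : ∀ k, ρ k = Q k * lam k ^ (m+1) := by
    intro k
    simp only [hρ, hQ]
    have h1' := (pow_pos (lam_pos k) n1).ne'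
    have h2' := (pow_pos (lam_pos k) n2).ne'
    have h3' : lam k ^ n2 = lam k ^ n1 * lam k ^ (m+1) := by rw [hm, ← pow_add]; ring_nf
    rw [h3'] at h2' ⊢
    have h4' := (pow_pos (lam_pos k) (m+1)).ne'
    by_cases h5 : f k h1 = 0
    · simp [h5]
    · field_simp
  have hρlim : Tendsto ρ atTop (𝓝 0) := by
    have h3 := hQlim.mul (lam_tendsto.pow (m+1))
    rw [zero_pow (Nat.succ_ne_zero m), mul_zero] at h3
    exact h3.congr (fun k => (hρQ k).symm)
  have hQne : ∀ᶠ k in atTop, Q k ≠ 0 := hQlim.eventually_ne hQ0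
  have hρne : ∀ᶠ k in atTop, ρ k ≠ 0 := by
    filter_upwards [hQne] with k hk
    rw [hρQ]
    exact mul_ne_zero hk (pow_pos (lam_pos k) _).ne'
  have hQdec : ∀ᶠ k in atTop, |Q (k+1)| < 2 * |Q k| := by
    have e1 : Tendsto (fun k => 2 * |Q k| - |Q (k+1)|) atTop
        (𝓝 (2 * |h2 n2 / h1 n1| - |h2 n2 / h1 n1|)) :=
      (hQlim.abs.const_mul 2).sub (hQlim.abs.comp (tendsto_add_atTop_nat 1))
    have e2 : 0 < 2 * |h2 n2 / h1 n1| - |h2 n2 / h1 n1| := by
      have := abs_pos.mpr hQ0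
      linarith
    filter_upwards [Filter.Tendsto.eventually_const_lt e2 e1] with k hk
    linarith
  have hρdec : ∀ᶠ k in atTop, |ρ (k+1)| < |ρ k| := by
    filter_upwards [hQdec] with k hk
    rw [hρQ, hρQ, abs_mul, abs_mul, abs_of_pos (pow_pos (lam_pos k) _),
      abs_of_pos (pow_pos (lam_pos (k+1)) _)]
    have e3 : lam (k+1) = lam k * (1/2) := by unfold lam; ring
    have e4 : lam (k+1) ^ (m+1) ≤ lam k ^ (m+1) * (1/2) := by
      rw [e3, mul_pow]
      apply mul_le_mul_of_nonneg_left _ (pow_pos (lam_pos k) _).le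
      rw [pow_succ]
      have : ((1/2:ℝ))^m ≤ 1 := pow_le_one₀ (by norm_num) (by norm_num)
      linarith
    have e5 := pow_pos (lam_pos k) (m+1)
    calc |Q (k+1)| * lam (k+1) ^ (m+1) ≤ |Q (k+1)| * (lam k ^ (m+1) * (1/2)) :=
          mul_le_mul_of_nonneg_left e4 (abs_nonneg _)
      _ < (2 * |Q k|) * (lam k ^ (m+1) * (1/2)) := by
          apply mul_lt_mul_of_pos_right hk (by positivity)
      _ = |Q k| * lam k ^ (m+1) := by ring
  obtain ⟨K, hK⟩ := eventually_atTop.mp (hρdec.and hρne)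
  have hmono : ∀ i j, K ≤ i → i < j → |ρ j| < |ρ i| := by
    intro i j hi hij
    obtain ⟨d, rfl⟩ := Nat.exists_eq_add_of_lt hij
    induction d with
    | zero => exact (hK i hi).1
    | succ d ih =>
      exact lt_trans ((hK (i + d + 1) (by omega)).1) (ih (by omega))
  have hsmall : ∀ᶠ k in atTop, ∀ j ∈ Finset.range K, ρ j ≠ 0 → |ρ k| < |ρ j| := by
    rw [Filter.eventually_all_finset]
    intro j hj
    by_cases h : ρ j = 0
    · filter_upwards with k h'
      exact absurd h h'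
    · have := hρlim.abs
      rw [abs_zero] at this
      filter_upwards [this.eventually_lt_const (abs_pos.mpr h)] with k hk _
      exact hk
  have hdist : ∀ᶠ k in atTop, ρ k ≠ 0 ∧ ∀ j, j ≠ k → ρ j ≠ ρ k := by
    filter_upwards [hsmall, eventually_ge_atTop K] with k hk hKk
    refine ⟨(hK k hKk).2, ?_⟩
    intro j hjk heq
    rcases lt_or_ge j K with h | h
    · by_cases h0 : ρ j = 0
      · rw [h0] at heq; exact (hK k hKk).2 heq.symm
      · have := hk j (Finset.mem_range.mpr h) h0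
        rw [heq] at this
        exact lt_irrefl _ this
    · rcases lt_or_gt_of_ne hjk with h' | h'
      · have := hmono j k h h'
        rw [heq] at this; exact lt_irrefl _ this
      · have := hmono k j hKk h'
        rw [heq] at this; exact lt_irrefl _ this
  have hvan : ∀ᶠ k in atTop, f k x = 0 := by
    filter_upwards [hdist] with k hk
    obtain ⟨hk0, hkj⟩ := hk
    have hfk1 : f k h1 ≠ 0 := by
      intro h; apply hk0; simp only [hρ]; rw [h, div_zero]
    apply key_vanish (h2 - ρ k • h1) h1 x ?_ k ?_ hfk1 ?_ ?_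
    · intro h
      have h3 : (h2 - ρ k • h1) n1 = 0 := by rw [h]; rfl
      simp only [lp.coeFn_sub, lp.coeFn_smul, Pi.sub_apply, Pi.smul_apply, smul_eq_mul] at h3
      rw [h2n1, zero_sub, neg_eq_zero] at h3
      exact mul_ne_zero hk0 h1n h3
    · rw [map_sub, map_smul, smul_eq_mul]
      simp only [hρ]
      rw [div_mul_cancel₀ _ hfk1, sub_self]
    · intro j hj
      by_cases hfj : f j h1 = 0
      · right; exact hfj
      · left
        rw [map_sub, map_smul, smul_eq_mul]
        intro h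
        apply hkj j hj
        have : f j h2 = ρ k * f j h1 := by linarith
        calc ρ j = f j h2 / f j h1 := rfl
          _ = ρ k := by rw [this, mul_div_assoc, div_self hfj, mul_one]
    · intro t
      apply M_crit
      intro α
      exact hmin _ (G.add_mem (G.sub_mem h2G (G.smul_mem _ h1G)) (G.smul_mem _ h1G)) α
  have hexx := exists_coord_ne hx
  have hxn := Nat.find_spec hexx
  have hxmin : ∀ m < Nat.find hexx, x m = 0 := by
    intro m hm
    by_contra hne
    exact Nat.find_min hexx hm hne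
  have hX := f_asymp x _ hxmin
  have hXne := hX.eventually_ne hxn
  obtain ⟨k, hk1, hk2⟩ := (hvan.and hXne).exists
  rw [hk1, zero_div] at hk2
  exact hk2 rfl

/-! ### The Banach space -/

open scoped ENNReal

def p : ℝ≥0∞ := ENNReal.ofReal (3/2)

lemma p_toReal : p.toReal = 3/2 := by unfold p; rw [ENNReal.toReal_ofReal (by norm_num)]

instance : Fact (1 ≤ p) := ⟨by
  unfold p
  rw [show (1:ℝ≥0∞) = ENNReal.ofReal 1 by simp]
  exact ENNReal.ofReal_le_ofReal (by norm_num)⟩

lemma p_ne_zero : p ≠ 0 := (zero_lt_one.trans_le (Fact.out : 1 ≤ p)).ne'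

lemma p_ne_top : p ≠ ⊤ := by unfold p; exact ENNReal.ofReal_ne_top

abbrev W := ↥(lp (fun _ : ℕ => H) p)

def e : H := lp.single 2 0 1

lemma norm_e : ‖e‖ = 1 := by
  unfold e
  rw [lp.norm_single (by norm_num)]
  simp

def cc (k : ℕ) : ℝ := (eps k) ^ (2/3 : ℝ)

def ev (i : ℕ) : W →L[ℝ] H := lp.evalCLM ℝ (fun _ : ℕ => H) p i

lemma ev_apply (i : ℕ) (z : W) : ev i z = z i := rfl

def ES : Submodule ℝ W where
  carrier := {z | ∀ k, z (k+1) = (cc k * f k (z 0)) • e}
  add_mem' := by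
    intro y z hy hz k
    rw [lp.coeFn_add, Pi.add_apply, Pi.add_apply, hy k, hz k, map_add, mul_add, add_smul]
  zero_mem' := by
    intro k
    simp
  smul_mem' := by
    intro a z hz k
    rw [lp.coeFn_smul, Pi.smul_apply, Pi.smul_apply, hz k, map_smul, smul_eq_mul, smul_smul]
    congr 1; ring

lemma ES_closed : IsClosed (ES : Set W) := by
  have : (ES : Set W) = ⋂ k, {z : W | ev (k+1) z = (cc k * f k (ev 0 z)) • e} := by
    ext z
    rw [Set.mem_iInter]
    rfl
  rw [this]
  apply isClosed_iInter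
  intro k
  apply isClosed_eq
  · fun_prop
  · fun_prop

instance : CompleteSpace ES := ES_closed.completeSpace_coe

lemma norm_pow (z : W) (hz : z ∈ ES) : ‖z‖ ^ (3/2 : ℝ) = M (z 0) := by
  have h1 := lp.norm_rpow_eq_tsum (p := p) (by rw [p_toReal]; norm_num) z
  have h2 := (lp.memℓp z).summable (by rw [p_toReal]; norm_num)
  rw [h2.tsum_eq_zero_add] at h1
  rw [p_toReal] at h1
  rw [h1]
  unfold M
  congr 1
  apply tsum_congr
  intro k
  rw [hz k, norm_smul, norm_e, mul_one, Real.norm_eq_abs, abs_mul,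
    Real.mul_rpow (abs_nonneg _) (abs_nonneg _)]
  congr 1
  unfold cc
  rw [abs_of_nonneg (Real.rpow_nonneg (eps_pos k).le _), ← Real.rpow_mul (eps_pos k).le]
  norm_num

/-- the embedding of `H` -/
def emb (y : H) : W := ⟨fun i => Nat.casesOn i y (fun k => (cc k * f k y) • e), by
  apply memℓp_gen
  rw [p_toReal, ← summable_nat_add_iff 1]
  refine (M_summable y).congr ?_
  intro k
  change _ = ‖(cc k * f k y) • e‖ ^ (3/2:ℝ)
  rw [norm_smul, norm_e, mul_one, Real.norm_eq_abs, abs_mul,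
    Real.mul_rpow (abs_nonneg _) (abs_nonneg _)]
  congr 1
  unfold cc
  rw [abs_of_nonneg (Real.rpow_nonneg (eps_pos k).le _), ← Real.rpow_mul (eps_pos k).le]
  norm_num⟩

lemma emb_mem (y : H) : emb y ∈ ES := by
  intro k
  rfl

def π0 : ES →ₗ[ℝ] H := (ev 0 : W →ₗ[ℝ] H) ∘ₗ ES.subtype

lemma π0_apply (z : ES) : π0 z = (z : W) 0 := rfl

lemma π0_inj : Function.Injective π0 := by
  intro y z h
  rw [π0_apply, π0_apply] at h
  apply Subtype.ext
  apply lp.ext
  funext i
  cases i with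
  | zero => exact h
  | succ k =>
    have h1 := y.2 k
    have h2 := z.2 k
    rw [h1, h2, h]

lemma not_fd : ¬ FiniteDimensional ℝ ES := by
  intro hfd
  have b : HilbertBasis ℕ ℝ H := HilbertBasis.ofRepr (LinearIsometryEquiv.refl ℝ _)
  have hli := b.orthonormal.linearIndependent
  have hli2 : LinearIndependent ℝ (fun i => (⟨emb (b i), emb_mem _⟩ : ES)) := by
    apply LinearIndependent.of_comp π0
    exact hli
  have := hli2.finite
  exact not_finite ℕ


/-! ### No norm-one projections of rank at least two -/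

theorem no_strong (G : Submodule ℝ ES) (a b : G) (hb : LinearIndependent ℝ ![a, b])
    (x : ES) (hx : x ≠ 0) (hG : ∀ g ∈ G, ∀ α : ℝ, ‖g‖ ≤ ‖g + α • x‖) : False := by
  have hli : LinearIndependent ℝ ![π0 (a : ES), π0 (b : ES)] := by
    rw [LinearIndependent.pair_iff] at hb ⊢
    intro s t hst
    apply hb s t
    apply Subtype.ext
    apply π0_inj
    simpa using hst
  refine core (G.map π0) (π0 a) (π0 b) (Submodule.mem_map_of_mem a.2)
    (Submodule.mem_map_of_mem b.2) hli (π0 x) ?_ ?_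
  · intro h
    apply hx
    apply π0_inj
    rw [h, map_zero]
  · rintro g ⟨g', hg', rfl⟩ α
    have h1 := hG g' hg' α
    have h2 : ‖(g' : W)‖ ^ (3/2:ℝ) ≤ ‖((g' + α • x : ES) : W)‖ ^ (3/2:ℝ) :=
      Real.rpow_le_rpow (norm_nonneg _) h1 (by norm_num)
    rw [norm_pow _ g'.2, norm_pow _ (g' + α • x).2] at h2
    exact h2

/-! ### Truncations -/

def trunc (n : ℕ) : H →ₗ[ℝ] H where
  toFun y := ∑ j ∈ Finset.range n, lp.single 2 j (y j)
  map_add' := by
    intro y z
    rw [← Finset.sum_add_distrib]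
    apply Finset.sum_congr rfl
    intro j _
    rw [lp.coeFn_add, Pi.add_apply, lp.single_add]
  map_smul' := by
    intro a y
    rw [RingHom.id_apply, Finset.smul_sum]
    apply Finset.sum_congr rfl
    intro j _
    rw [lp.coeFn_smul, Pi.smul_apply, lp.single_smul]

lemma trunc_def (n : ℕ) (y : H) : trunc n y = ∑ j ∈ Finset.range n, lp.single 2 j (y j) := rfl

lemma trunc_apply (n : ℕ) (y : H) (j : ℕ) : trunc n y j = if j < n then y j else 0 := by
  rw [trunc_def, lp.coeFn_sum, Finset.sum_apply]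
  simp only [lp.coeFn_single, Finset.sum_pi_single, Finset.mem_range]

lemma trunc_tendsto (y : H) : Tendsto (fun n => trunc n y) atTop (𝓝 y) := by
  have := (lp.hasSum_single (p := 2) (by norm_num) y).tendsto_sum_nat
  exact this

lemma trunc_norm_le (n : ℕ) (y : H) : ‖trunc n y‖ ≤ ‖y‖ := by
  apply lp.norm_mono (by norm_num)
  intro i
  rw [trunc_apply]
  split_ifs
  · exact le_refl _
  · simp

lemma trunc_sub_norm_le (n : ℕ) (y : H) : ‖trunc n y - y‖ ≤ ‖y‖ := by
  apply lp.norm_mono (by norm_num)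
  intro i
  rw [lp.coeFn_sub, Pi.sub_apply, trunc_apply]
  split_ifs
  · simp
  · simp

lemma f_trunc_sub (k n : ℕ) (y : H) : |f k (trunc n y - y)| ≤ 2 * (1/2)^n * ‖y‖ := by
  rw [f_apply, ← Real.norm_eq_abs]
  have hb : ∀ j, ‖lam k ^ j * (trunc n y - y : H) j‖ ≤ (1/2)^n * ‖y‖ *
      (if j < n then 0 else (1/2:ℝ)^(j - n)) := by
    intro j
    rw [lp.coeFn_sub, Pi.sub_apply, trunc_apply]
    split_ifs with h
    · simp
    · rw [zero_sub, norm_mul, norm_neg, Real.norm_eq_abs, Real.norm_eq_abs,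
        abs_of_pos (pow_pos (lam_pos k) j)]
      have e1 : (1/2:ℝ)^n * ‖y‖ * (1/2)^(j-n) = (1/2)^j * ‖y‖ := by
        have : (1/2:ℝ)^j = (1/2)^n * (1/2)^(j-n) := by rw [← pow_add]; congr 1; omega
        rw [this]; ring
      rw [e1]
      exact mul_le_mul (pow_le_pow_left₀ (lam_pos k).le (lam_le k) j) (coord_le y j)
        (abs_nonneg _) (by positivity)
  have hs : HasSum (fun j => if j < n then 0 else (1/2:ℝ)^(j - n)) 2 := by
    rw [← hasSum_nat_add_iff' n]
    have e2 : ∑ i ∈ Finset.range n, (if i < n then (0:ℝ) else (1/2:ℝ)^(i - n)) = 0 := by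
      apply Finset.sum_eq_zero
      intro i hi
      rw [if_pos (Finset.mem_range.mp hi)]
    rw [e2, sub_zero]
    have e3 : (fun j => if j + n < n then (0:ℝ) else (1/2:ℝ)^(j + n - n)) = fun j => (1/2)^j := by
      ext j
      rw [if_neg (by omega), Nat.add_sub_cancel]
    rw [e3]
    exact hasSum_geometric_two
  have := tsum_of_norm_bounded (hs.mul_left ((1/2)^n * ‖y‖)) hb
  linarith

lemma norm_tail_le (y : H) (a : ℝ) (ha : 0 ≤ a) (hy : ∀ k, |f k y| ≤ a) (c : ℝ) (hc : 0 ≤ c)
    (v : H) (hv : ‖v‖ ≤ c) (z : W) (hz0 : z 0 = v) (hz : ∀ k, z (k+1) = (cc k * f k y) • e) :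
    ‖z‖ ≤ c + 2 * a := by
  -- compare with `single 0 v` plus the tail
  have hsplit : z = lp.single p 0 v + (z - lp.single p 0 v) := by abel
  have h1 : ‖z‖ ≤ ‖(lp.single p 0 v : W)‖ + ‖z - lp.single p 0 v‖ := by
    conv_lhs => rw [hsplit]
    exact norm_add_le _ _
  have h2 : ‖(lp.single p 0 v : W)‖ ≤ c := by
    rw [lp.norm_single (pos_iff_ne_zero.mpr p_ne_zero)]
    exact hv
  have h3 : ‖z - lp.single p 0 v‖ ≤ 2 * a := by
    apply lp.norm_le_of_tsum_le (p := p) (by rw [p_toReal]; norm_num) (by positivity)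
    have hsm := (lp.memℓp (z - lp.single p 0 v)).summable (by rw [p_toReal]; norm_num)
    rw [hsm.tsum_eq_zero_add, p_toReal]
    have h4 : ‖(z - lp.single p 0 v : W) 0‖ = 0 := by
      rw [lp.coeFn_sub, Pi.sub_apply, hz0, lp.single_apply_self, sub_self, norm_zero]
    rw [h4, Real.zero_rpow (by norm_num), zero_add]
    have h5 : ∀ k, ‖(z - lp.single p 0 v : W) (k+1)‖ ^ (3/2:ℝ) = eps k * |f k y| ^ (3/2:ℝ) := by
      intro k
      rw [lp.coeFn_sub, Pi.sub_apply, hz k, lp.single_apply_ne _ _ _ (by omega), sub_zero,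
        norm_smul, norm_e, mul_one, Real.norm_eq_abs, abs_mul,
        Real.mul_rpow (abs_nonneg _) (abs_nonneg _)]
      congr 1
      unfold cc
      rw [abs_of_nonneg (Real.rpow_nonneg (eps_pos k).le _), ← Real.rpow_mul (eps_pos k).le]
      norm_num
    rw [tsum_congr h5]
    have h6 : ∑' k, eps k * |f k y| ^ (3/2:ℝ) ≤ ∑' k, eps k * a ^ (3/2:ℝ) := by
      apply Summable.tsum_le_tsum _ (M_summable y) (eps_summable.mul_right _)
      intro k
      exact mul_le_mul_of_nonneg_left (Real.rpow_le_rpow (abs_nonneg _) (hy k) (by norm_num))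
        (eps_pos k).le
    refine h6.trans ?_
    rw [tsum_mul_right, Real.mul_rpow (by norm_num) ha]
    apply mul_le_mul_of_nonneg_right _ (Real.rpow_nonneg ha _)
    have h7 : ∑' k, eps k = 2 := tsum_geometric_two
    rw [h7]
    calc (2:ℝ) = 2 ^ (1:ℝ) := by norm_num
      _ ≤ 2 ^ (3/2:ℝ) := Real.rpow_le_rpow_of_exponent_le (by norm_num) (by norm_num)
  linarith


def embL : H →ₗ[ℝ] ES where
  toFun y := ⟨emb y, emb_mem y⟩
  map_add' := by
    intro y z
    apply π0_inj
    rfl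
  map_smul' := by
    intro a y
    apply π0_inj
    rfl

lemma π0_embL (y : H) : π0 (embL y) = y := rfl

lemma embL_π0 (z : ES) : embL (π0 z) = z := π0_inj rfl

lemma norm_π0_le (z : ES) : ‖π0 z‖ ≤ ‖z‖ := lp.norm_apply_le_norm p_ne_zero (z : W) 0

lemma embL_norm_le (y : H) : ‖embL y‖ ≤ 5 * ‖y‖ := by
  have := norm_tail_le y (2 * ‖y‖) (by positivity) (fun k => f_le k y) ‖y‖ (norm_nonneg _) y
    le_rfl (emb y) rfl (fun k => rfl)
  change ‖emb y‖ ≤ 5 * ‖y‖
  linarith

def Pn (n : ℕ) : ES →ₗ[ℝ] ES := embL ∘ₗ trunc n ∘ₗ π0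

lemma Pn_apply (n : ℕ) (z : ES) : Pn n z = embL (trunc n (π0 z)) := rfl

lemma Pn_norm_le (n : ℕ) (z : ES) : ‖Pn n z‖ ≤ (1 + 4 * (1/2)^n) * ‖z‖ := by
  set y := π0 z with hy
  set w := trunc n y - y with hw
  have hz : z = embL y := (embL_π0 z).symm
  have hsplit : ((Pn n z : ES) : W) = ((z : W) + lp.single p 0 w) + (emb w - lp.single p 0 w) := by
    have h1 : Pn n z = z + embL w := by
      rw [Pn_apply, ← hy, hw, map_sub, ← hz]
      abel
    rw [h1]
    change (z : W) + emb w = _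
    abel
  have h1 : ‖((z : W) + lp.single p 0 w)‖ ≤ ‖(z : W)‖ := by
    apply lp.norm_mono p_ne_zero
    intro i
    rw [lp.coeFn_add, Pi.add_apply]
    cases i with
    | zero =>
      rw [lp.single_apply_self]
      change ‖y + w‖ ≤ ‖y‖
      rw [hw]
      have : y + (trunc n y - y) = trunc n y := by abel
      rw [this]
      exact trunc_norm_le n y
    | succ k =>
      rw [lp.single_apply_ne _ _ _ (by omega), add_zero]
  have h2 : ‖(emb w - lp.single p 0 w : W)‖ ≤ 0 + 2 * (2 * (1/2)^n * ‖y‖) := by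
    apply norm_tail_le w (2 * (1/2)^n * ‖y‖) (by positivity) (fun k => f_trunc_sub k n y) 0 le_rfl 0
      (by simp)
    · rw [lp.coeFn_sub, Pi.sub_apply, lp.single_apply_self]
      exact sub_self w
    · intro k
      rw [lp.coeFn_sub, Pi.sub_apply, lp.single_apply_ne _ _ _ (by omega), sub_zero]
      rfl
  have h3 : ‖y‖ ≤ ‖z‖ := norm_π0_le z
  calc ‖Pn n z‖ = ‖((Pn n z : ES) : W)‖ := rfl
    _ ≤ ‖((z : W) + lp.single p 0 w)‖ + ‖(emb w - lp.single p 0 w : W)‖ := by
        rw [hsplit]; exact norm_add_le _ _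
    _ ≤ ‖(z : W)‖ + (0 + 2 * (2 * (1/2)^n * ‖y‖)) := add_le_add h1 h2
    _ = ‖z‖ + 4 * (1/2)^n * ‖y‖ := by rw [zero_add]; change ‖z‖ + _ = _; ring
    _ ≤ ‖z‖ + 4 * (1/2)^n * ‖z‖ := by
        have : (0:ℝ) ≤ 4 * (1/2)^n := by positivity
        linarith [mul_le_mul_of_nonneg_left h3 this]
    _ = (1 + 4 * (1/2)^n) * ‖z‖ := by ring

lemma Pn_tendsto (z : ES) : Tendsto (fun n => Pn n z) atTop (𝓝 z) := by
  rw [tendsto_iff_norm_sub_tendsto_zero]
  have h1 : ∀ n, ‖Pn n z - z‖ ≤ 5 * ‖trunc n (π0 z) - π0 z‖ := by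
    intro n
    have : Pn n z - z = embL (trunc n (π0 z) - π0 z) := by
      rw [map_sub, embL_π0, Pn_apply]
    rw [this]
    exact embL_norm_le _
  have h2 := (tendsto_iff_norm_sub_tendsto_zero.mp (trunc_tendsto (π0 z))).const_mul 5
  rw [mul_zero] at h2
  exact squeeze_zero (fun n => norm_nonneg _) h1 h2

def PnC (n : ℕ) : ES →L[ℝ] ES := (Pn n).mkContinuous (1 + 4 * (1/2)^n) (Pn_norm_le n)

lemma PnC_apply (n : ℕ) (z : ES) : PnC n z = Pn n z := rfl

lemma PnC_norm (n : ℕ) : ‖PnC n‖ ≤ 1 + 4 * (1/2)^n :=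
  LinearMap.mkContinuous_norm_le _ (by positivity) _

lemma trunc_trunc (n : ℕ) (y : H) : trunc n (trunc n y) = trunc n y := by
  apply lp.ext
  funext j
  rw [trunc_apply, trunc_apply]
  split_ifs <;> rfl

lemma PnC_idem (n : ℕ) : (PnC n).comp (PnC n) = PnC n := by
  ext1 z
  rw [ContinuousLinearMap.comp_apply, PnC_apply, PnC_apply, Pn_apply, Pn_apply, π0_embL,
    trunc_trunc]

lemma trunc_mem_span (n : ℕ) (y : H) :
    trunc n y ∈ Submodule.span ℝ (Set.range (fun j : Fin n => (lp.single 2 (j:ℕ) (1:ℝ) : H))) := by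
  rw [trunc_def]
  apply Submodule.sum_mem
  intro j hj
  have : (lp.single 2 j (y j) : H) = (y j) • (lp.single 2 j (1:ℝ) : H) := by
    rw [← lp.single_smul, smul_eq_mul, mul_one]
  rw [this]
  apply Submodule.smul_mem
  apply Submodule.subset_span
  exact ⟨⟨j, Finset.mem_range.mp hj⟩, rfl⟩

lemma PnC_fin (n : ℕ) : FiniteDimensional ℝ (LinearMap.range (PnC n : ES →ₗ[ℝ] ES)) := by
  have h1 : LinearMap.range (PnC n : ES →ₗ[ℝ] ES) ≤
      (Submodule.span ℝ (Set.range (fun j : Fin n => (lp.single 2 (j:ℕ) (1:ℝ) : H)))).map embL := by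
    rintro _ ⟨z, rfl⟩
    exact Submodule.mem_map_of_mem (trunc_mem_span n (π0 z))
  have h2 : FiniteDimensional ℝ (Submodule.span ℝ
      (Set.range (fun j : Fin n => (lp.single 2 (j:ℕ) (1:ℝ) : H)))) :=
    FiniteDimensional.span_of_finite ℝ (Set.finite_range _)
  exact Submodule.finiteDimensional_of_le h1

instance : TopologicalSpace.SeparableSpace ES := by
  rw [← TopologicalSpace.isSeparable_univ_iff]
  have h1 : TopologicalSpace.IsSeparable
      ((Submodule.span ℝ (Set.range (fun j : ℕ => embL (lp.single 2 j (1:ℝ)))) : Submodule ℝ ES)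
        : Set ES) :=
    (Set.countable_range _).isSeparable.span
  refine h1.closure.mono ?_
  intro z _
  refine mem_closure_of_tendsto (Pn_tendsto z) ?_
  filter_upwards with n
  rw [Pn_apply, trunc_def, map_sum]
  apply Submodule.sum_mem
  intro j hj
  have : (lp.single 2 j ((π0 z) j) : H) = ((π0 z) j) • (lp.single 2 j (1:ℝ) : H) := by
    rw [← lp.single_smul, smul_eq_mul, mul_one]
  rw [this, map_smul]
  apply Submodule.smul_mem
  apply Submodule.subset_span
  exact ⟨j, rfl⟩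

/-- uniform approximation on compact sets -/
lemma approx (δ : ℝ) (hδ : 0 < δ) (Q : Set ES) (hQ : IsCompact Q) (ε : ℝ) (hε : 0 < ε) :
    ∃ u : ES →L[ℝ] ES, FiniteDimensional ℝ (LinearMap.range (u : ES →ₗ[ℝ] ES)) ∧
          u.comp u = u ∧ ‖u‖ ≤ 1 + δ ∧ ∀ x ∈ Q, ‖u x - x‖ ≤ ε := by
  obtain ⟨F, hFfin, hF⟩ := Metric.totallyBounded_iff.mp hQ.totallyBounded (ε/12) (by positivity)
  have h1 : ∀ᶠ n in atTop, ∀ y ∈ F, ‖Pn n y - y‖ < ε/4 := by
    rw [Filter.eventually_all_finite hFfin]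
    intro y _
    have := tendsto_iff_norm_sub_tendsto_zero.mp (Pn_tendsto y)
    exact this.eventually_lt_const (by positivity)
  have h2 : ∀ᶠ n : ℕ in atTop, 4 * (1/2:ℝ)^n < min δ 1 := by
    have := (tendsto_pow_atTop_nhds_zero_of_lt_one (by norm_num : (0:ℝ) ≤ 1/2)
      (by norm_num)).const_mul 4
    rw [mul_zero] at this
    exact this.eventually_lt_const (lt_min hδ one_pos)
  obtain ⟨n, hn1, hn2⟩ := (h1.and h2).exists
  refine ⟨PnC n, PnC_fin n, PnC_idem n, ?_, ?_⟩
  · have := PnC_norm n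
    have := min_le_left δ 1
    linarith
  · intro x hx
    obtain ⟨y, hy, hxy⟩ := Set.mem_iUnion₂.mp (hF hx)
    rw [Metric.mem_ball, dist_eq_norm] at hxy
    have h3 := Pn_norm_le n (x - y)
    have h4 : (1 + 4 * (1/2:ℝ)^n) ≤ 2 := by have := min_le_right δ 1; linarith
    have h5 : ‖Pn n (x - y)‖ ≤ 2 * (ε/12) :=
      h3.trans (mul_le_mul h4 hxy.le (norm_nonneg _) (by norm_num))
    have h6 : PnC n x - x = Pn n (x - y) + (Pn n y - y) + (y - x) := by
      rw [PnC_apply, map_sub]; abel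
    have h7 := hn1 y hy
    have h8 : ‖y - x‖ < ε/12 := by rw [norm_sub_rev]; exact hxy
    rw [h6]
    calc _ ≤ ‖Pn n (x - y)‖ + ‖Pn n y - y‖ + ‖y - x‖ := norm_add₃_le
      _ ≤ ε := by linarith

/-- finite-rank norm-one projections have rank at most one -/
lemma rank_le_one (u : ES →L[ℝ] ES) (hfin : FiniteDimensional ℝ (LinearMap.range (u : ES →ₗ[ℝ] ES)))
    (hu : u.comp u = u) (hn : ‖u‖ ≤ 1) (a b : ES) (hab : LinearIndependent ℝ ![u a, u b]) :
    False := by
  have hker : ∃ x : ES, x ≠ 0 ∧ u x = 0 := by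
    by_contra hcon
    push Not at hcon
    have hinj : Function.Injective (u : ES →ₗ[ℝ] ES) := by
      rw [← LinearMap.ker_eq_bot, LinearMap.ker_eq_bot']
      intro x hx
      by_contra hx0
      exact hcon x hx0 hx
    have : FiniteDimensional ℝ ES :=
      LinearEquiv.finiteDimensional (LinearEquiv.ofInjective (u : ES →ₗ[ℝ] ES) hinj).symm
    exact not_fd this
  obtain ⟨x, hx0, hx⟩ := hker
  refine no_strong (LinearMap.range (u : ES →ₗ[ℝ] ES)) ⟨u a, ⟨a, rfl⟩⟩ ⟨u b, ⟨b, rfl⟩⟩ ?_ x hx0 ?_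
  · rw [LinearIndependent.pair_iff] at hab ⊢
    intro s t hst
    apply hab s t
    have := congrArg Subtype.val hst
    simpa using this
  · rintro g ⟨g', rfl⟩ α
    have h1 : u ((u g' : ES) + α • x) = u g' := by
      rw [map_add, map_smul, hx, smul_zero, add_zero]
      exact congrArg (fun v : ES →L[ℝ] ES => v g') hu
    have h2 := u.le_opNorm ((u g' : ES) + α • x)
    rw [h1] at h2
    calc ‖u g'‖ ≤ ‖u‖ * ‖(u g' : ES) + α • x‖ := h2
      _ ≤ 1 * ‖(u g' : ES) + α • x‖ := mul_le_mul_of_nonneg_right hn (norm_nonneg _)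
      _ = _ := one_mul _

end

/-- The negation of the preceding statement: Let E be a separable real or complex Banach space and λ ≥ 1. Suppose for every δ > 0, compact Q and ε > 0, some finite-rank projection of norm ≤ λ+δ is within ε of the identity on Q. Then the same holds with norm ≤ λ. -/
theorem result :
    ¬ (∀ (𝕜 : Type) [RCLike 𝕜] (E : Type) [NormedAddCommGroup E] [NormedSpace 𝕜 E]
      [CompleteSpace E] [TopologicalSpace.SeparableSpace E] (lam : ℝ), 1 ≤ lam →
      (∀ δ : ℝ, 0 < δ → ∀ Q : Set E, IsCompact Q → ∀ ε : ℝ, 0 < ε →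
        ∃ u : E →L[𝕜] E, FiniteDimensional 𝕜 (LinearMap.range (u : E →ₗ[𝕜] E)) ∧
          u.comp u = u ∧ ‖u‖ ≤ lam + δ ∧ ∀ x ∈ Q, ‖u x - x‖ ≤ ε) →
      (∀ Q : Set E, IsCompact Q → ∀ ε : ℝ, 0 < ε →
        ∃ u : E →L[𝕜] E, FiniteDimensional 𝕜 (LinearMap.range (u : E →ₗ[𝕜] E)) ∧
          u.comp u = u ∧ ‖u‖ ≤ lam ∧ ∀ x ∈ Q, ‖u x - x‖ ≤ ε)) := by
  intro hall
  set a : ES := embL (lp.single 2 0 1) with ha
  set b : ES := embL (lp.single 2 1 1) with hb
  obtain ⟨u, hufin, huu, hun, huQ⟩ := hall ℝ ES 1 le_rfl approx {a, b}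
    (Set.toFinite {a, b}).isCompact (1/4) (by norm_num)
  have h1 := huQ a (by simp)
  have h2 := huQ b (by simp)
  apply rank_le_one u hufin huu hun a b
  rw [LinearIndependent.pair_iff]
  intro s t hst
  -- coordinates
  have h3 : ‖s • (u a - a) + t • (u b - b)‖ ≤ |s| * (1/4) + |t| * (1/4) := by
    calc _ ≤ ‖s • (u a - a)‖ + ‖t • (u b - b)‖ := norm_add_le _ _
      _ = |s| * ‖u a - a‖ + |t| * ‖u b - b‖ := by rw [norm_smul, norm_smul]; rfl
      _ ≤ _ := by gcongr
  have h4 : s • (u a - a) + t • (u b - b) = - (s • a + t • b) := by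
    have : s • (u a - a) + t • (u b - b) = (s • u a + t • u b) - (s • a + t • b) := by
      rw [smul_sub, smul_sub]; abel
    rw [this, hst, zero_sub]
  rw [h4, norm_neg] at h3
  have h5 : π0 (s • a + t • b) = s • (lp.single 2 0 1 : H) + t • (lp.single 2 1 1 : H) := by
    rw [map_add, map_smul, map_smul, ha, hb, π0_embL, π0_embL]
  have h6 := norm_π0_le (s • a + t • b)
  have h7 := coord_le (π0 (s • a + t • b)) 0
  have h8 := coord_le (π0 (s • a + t • b)) 1
  rw [h5] at h7 h8 h6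
  have e0 : (s • (lp.single 2 0 1 : H) + t • (lp.single 2 1 1 : H) : H) 0 = s := by
    rw [lp.coeFn_add, Pi.add_apply, lp.coeFn_smul, lp.coeFn_smul, Pi.smul_apply, Pi.smul_apply,
      lp.single_apply_self, lp.single_apply_ne _ _ _ (by omega)]
    simp
  have e1 : (s • (lp.single 2 0 1 : H) + t • (lp.single 2 1 1 : H) : H) 1 = t := by
    rw [lp.coeFn_add, Pi.add_apply, lp.coeFn_smul, lp.coeFn_smul, Pi.smul_apply, Pi.smul_apply,
      lp.single_apply_self, lp.single_apply_ne _ _ _ (by omega)]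
    simp
  rw [e0] at h7
  rw [e1] at h8
  have h9 : |s| + |t| ≤ 0 := by linarith
  have hs : |s| = 0 := le_antisymm (by linarith [abs_nonneg t]) (abs_nonneg s)
  have ht : |t| = 0 := le_antisymm (by linarith [abs_nonneg s]) (abs_nonneg t)
  exact ⟨abs_eq_zero.mp hs, abs_eq_zero.mp ht⟩

end Pool.Agent.S1664
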