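import Pool.Statements.S1678

set_option autoImplicit false
open scoped ComplexOrder
open Pool Pool.MP_a946bc_an

namespace Pool.Agent.S1678

lemma sum_eigs {n : ℕ} (d : Fin n → ℝ) (A : Matrix (Fin n) (Fin n) ℂ)
    (hA : A.IsHermitian) (h : A = Matrix.diagonal (fun i => (d i : ℂ))) (p : ℝ) :
    ∑ i, (hA.eigenvalues i) ^ p = ∑ i, (d i) ^ p := by
  have h1 := hA.roots_charpoly_eq_eigenvalues
  have h2 : A.charpoly.roots = Multiset.map (fun i => (d i : ℂ)) Finset.univ.val := by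
    rw [h, Matrix.charpoly_diagonal]
    have := Polynomial.roots_multiset_prod_X_sub_C (Multiset.map (fun i => (d i : ℂ)) Finset.univ.val)
    rw [← this, Multiset.map_map]
    rfl
  rw [h1] at h2
  have h3 := congrArg (fun s => (Multiset.map (fun z : ℂ => z.re ^ p) s).sum) h2
  simp only [Multiset.map_map] at h3
  exact h3

/-- word traces for diagonal matrices -/
lemma prod_diag {n : ℕ} (d0 d1 : Fin n → ℂ) (s : List Bool) :
    (s.map (fun b => cond b (Matrix.diagonal d1) (Matrix.diagonal d0))).prod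
      = Matrix.diagonal (fun i => (s.map (fun b => cond b (d1 i) (d0 i))).prod) := by
  induction s with
  | nil => simp
  | cons b s ih =>
    simp only [List.map_cons, List.prod_cons, ih]
    cases b <;> simp [Matrix.diagonal_mul_diagonal]

lemma prod_count (x y : ℝ) (s : List Bool) :
    (s.map (fun b => cond b (x:ℂ) (y:ℂ))).prod = ((x ^ (s.count true) * y ^ (s.count false) : ℝ) : ℂ) := by
  induction s with
  | nil => simp
  | cons b s ih =>
    simp only [List.map_cons, List.prod_cons, ih]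
    cases b
    · simp; ring
    · simp; ring

lemma trace_word {n : ℕ} (d0 d1 : Fin n → ℝ) (s : List Bool) :
    ((s.map (fun b => cond b (Matrix.diagonal (fun i => (d1 i : ℂ)))
      (Matrix.diagonal (fun i => (d0 i : ℂ))))).prod).trace =
      ((∑ i, (d1 i) ^ (s.count true) * (d0 i) ^ (s.count false) : ℝ) : ℂ) := by
  rw [prod_diag]
  simp only [Matrix.trace_diagonal, prod_count]
  push_cast
  rfl

noncomputable def a0 : Fin 9 → ℝ := ![1, 1/2, 1/2, 1/2, 1/2, 0, 0, 0, 0]
noncomputable def a1 : Fin 9 → ℝ := ![1, 0, 0, 0, 0, 1/2, 1/2, 1/2, 1/2]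
noncomputable def b0 : Fin 9 → ℝ := ![1, 0, 1/2, 1/2, 1/2, 1/2, 0, 0, 0]
noncomputable def b1 : Fin 9 → ℝ := ![0, 1, 1/2, 1/2, 1/2, 1/2, 0, 0, 0]

lemma sum9 (f : Fin 9 → ℝ) : ∑ i, f i = f 0 + f 1 + f 2 + f 3 + f 4 + f 5 + f 6 + f 7 + f 8 := by
  simp only [Fin.sum_univ_succ, Fin.sum_univ_zero]
  simp only [Fin.succ_zero_eq_one, Fin.isValue, add_zero]
  ring_nf
  rfl

lemma prod9 {R : Type*} [CommRing R] (f : Fin 9 → R) :
    ∏ i, f i = f 0 * f 1 * f 2 * f 3 * f 4 * f 5 * f 6 * f 7 * f 8 := by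
  rw [Fin.prod_univ_castSucc, Fin.prod_univ_eight]
  rfl

lemma psd {n : ℕ} (d : Fin n → ℝ) (h : ∀ i, 0 ≤ d i) :
    (Matrix.diagonal (fun i => (d i : ℂ))).PosSemidef := by
  apply Matrix.PosSemidef.diagonal
  intro i
  have := h i
  show (0:ℂ) ≤ (d i : ℂ)
  exact_mod_cast this

lemma key (k l : ℕ) :
    ∑ i, (b1 i) ^ l * (b0 i) ^ k ≤ ∑ i, (a1 i) ^ l * (a0 i) ^ k := by
  simp only [sum9]
  simp only [b1, b0, a1, a0, Matrix.cons_val]
  rcases Nat.eq_zero_or_pos k with hk | hk <;> rcases Nat.eq_zero_or_pos l with hl | hl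
  · subst hk; subst hl; simp
  · subst hk
    have : l ≠ 0 := by omega
    simp [this]
  · subst hl
    have : k ≠ 0 := by omega
    simp [this]
  · have h1 : k ≠ 0 := by omega
    have h2 : l ≠ 0 := by omega
    simp [h1, h2]
    have e1 : ((2:ℝ)^l)⁻¹ ≤ 1/2 := by
      rw [inv_le_comm₀ (by positivity) (by norm_num)]
      norm_num
      calc (2:ℝ) = 2^1 := by norm_num
        _ ≤ 2^l := pow_le_pow_right₀ (by norm_num) hl
    have e2 : ((2:ℝ)^k)⁻¹ ≤ 1/2 := by
      rw [inv_le_comm₀ (by positivity) (by norm_num)]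
      norm_num
      calc (2:ℝ) = 2^1 := by norm_num
        _ ≤ 2^k := pow_le_pow_right₀ (by norm_num) hk
    have e3 : (0:ℝ) ≤ ((2:ℝ)^l)⁻¹ := by positivity
    have e4 : (0:ℝ) ≤ ((2:ℝ)^k)⁻¹ := by positivity
    nlinarith [mul_le_mul e1 e2 e4 (by norm_num)]

/-- The negation of the preceding statement: For PSD complex n×n matrices with A₀,B₀ isospectral and A₁,B₁ isospectral, if every word trace in A is real and at least the modulus of the matching word trace in B, then for all p≥1 the sum of p-th powers of eigenvalues of A₀+A₁ is at least that of B₀+B₁. -/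
theorem result :
    ¬ (∀ (n : ℕ) (A₀ A₁ B₀ B₁ : Matrix (Fin n) (Fin n) ℂ)
      (hA₀ : A₀.PosSemidef) (hA₁ : A₁.PosSemidef)
      (hB₀ : B₀.PosSemidef) (hB₁ : B₁.PosSemidef),
      A₀.charpoly = B₀.charpoly →
      A₁.charpoly = B₁.charpoly →
      (∀ s : List Bool,
        ((‖((s.map (fun b => cond b B₁ B₀)).prod).trace‖ : ℝ) : ℂ) ≤
          ((s.map (fun b => cond b A₁ A₀)).prod).trace) →
      ∀ p : ℝ, 1 ≤ p →
        ∑ i, ((hB₀.add hB₁).isHermitian.eigenvalues i) ^ p ≤
          ∑ i, ((hA₀.add hA₁).isHermitian.eigenvalues i) ^ p) := by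
  intro H
  have pa0 : ∀ i, 0 ≤ a0 i := by intro i; fin_cases i <;> simp [a0]
  have pa1 : ∀ i, 0 ≤ a1 i := by intro i; fin_cases i <;> simp [a1]
  have pb0 : ∀ i, 0 ≤ b0 i := by intro i; fin_cases i <;> simp [b0]
  have pb1 : ∀ i, 0 ≤ b1 i := by intro i; fin_cases i <;> simp [b1]
  have h := H 9 _ _ _ _ (psd a0 pa0) (psd a1 pa1) (psd b0 pb0) (psd b1 pb1) ?_ ?_ ?_ (3/2) (by norm_num)
  · rw [sum_eigs (fun i => b0 i + b1 i) _ _ (by ext i j; simp [Matrix.diagonal_apply]; split_ifs <;> simp)] at h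
    rw [sum_eigs (fun i => a0 i + a1 i) _ _ (by ext i j; simp [Matrix.diagonal_apply]; split_ifs <;> simp)] at h
    simp only [sum9] at h
    simp only [b1, b0, a1, a0, Matrix.cons_val] at h
    have z : (0:ℝ) ^ (3/2:ℝ) = 0 := by rw [Real.zero_rpow]; norm_num
    norm_num at h
    have s2 : (2:ℝ) ^ (3/2:ℝ) = 2 * √2 := by
      rw [show (3/2:ℝ) = 1 + 1/2 by norm_num, Real.rpow_add (by norm_num), Real.rpow_one, Real.sqrt_eq_rpow]
    have s3 : (1/2:ℝ) ^ (3/2:ℝ) = √2 / 4 := by
      rw [show (1/2:ℝ) = 2⁻¹ by norm_num, Real.inv_rpow (by norm_num), s2]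
      have : √2 * √2 = 2 := by norm_num
      field_simp
      nlinarith
    rw [s2, s3] at h
    have : √2 < 3/2 := by
      rw [Real.sqrt_lt' (by norm_num)]; norm_num
    linarith
  · rw [Matrix.charpoly_diagonal, Matrix.charpoly_diagonal]
    simp only [prod9]
    simp only [b1, b0, a1, a0, Matrix.cons_val]
    ring
  · rw [Matrix.charpoly_diagonal, Matrix.charpoly_diagonal]
    simp only [prod9]
    simp only [b1, b0, a1, a0, Matrix.cons_val]
    ring
  · intro s
    rw [trace_word, trace_word]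
    rw [Complex.real_le_real, Complex.norm_real, Real.norm_of_nonneg]
    · exact key _ _
    · exact Finset.sum_nonneg (fun i _ => mul_nonneg (pow_nonneg (pb1 i) _) (pow_nonneg (pb0 i) _))

end Pool.Agent.S1678
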