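import Pool.Statements.S1726
-- import your own Pool.Agent.* helpers here

set_option autoImplicit false
open MeasureTheory
open Pool Pool.MP_c09e54_an

namespace Pool.Agent.S1726

open Set Filter Topology

/-- an open dense set of small measure -/
lemma exists_dense_open : ∃ U : Set ℝ, IsOpen U ∧ Dense U ∧ volume U ≤ 1/2 := by
  obtain ⟨q, hq⟩ := TopologicalSpace.exists_dense_seq ℝ
  have hq' : Dense (Set.range q) := hq
  refine ⟨⋃ n, Metric.ball (q n) ((1/8) * (1/2)^n), isOpen_iUnion fun n => Metric.isOpen_ball, ?_, ?_⟩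
  · refine hq'.mono ?_
    rintro _ ⟨n, rfl⟩
    exact mem_iUnion.mpr ⟨n, Metric.mem_ball_self (by positivity)⟩
  · refine (measure_iUnion_le _).trans ?_
    have h1 : ∀ n, volume (Metric.ball (q n) ((1/8) * (1/2)^n)) = ENNReal.ofReal ((1/4) * (1/2)^n) := by
      intro n
      rw [Real.volume_ball]
      congr 1; ring
    simp_rw [h1]
    rw [← ENNReal.ofReal_tsum_of_nonneg (fun n => by positivity)
      (summable_geometric_two.mul_left _), tsum_mul_left, tsum_geometric_two]
    rw [show (1/2 : ENNReal) = ENNReal.ofReal (1/2) by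
      rw [ENNReal.ofReal_div_of_pos (by norm_num)]; simp]
    exact ENNReal.ofReal_le_ofReal (by norm_num)

/-- The negation of the preceding statement: Any two bounded Lebesgue measurable subsets of the reals of equal measure become, after deleting null sets, equidecomposable: finitely many disjoint measurable pieces of one, moved by isometries of the line, exactly tile the other. -/
theorem result :
    ¬ (∀ A B : Set ℝ, NullMeasurableSet A volume → NullMeasurableSet B volume →
      Bornology.IsBounded A → Bornology.IsBounded B → volume A = volume B →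
      ∃ E₁ E₂ : Set ℝ, volume E₁ = 0 ∧ volume E₂ = 0 ∧
        ∃ (n : ℕ) (P : Fin n → Set ℝ) (f : Fin n → ℝ → ℝ),
          (∀ i, NullMeasurableSet (P i) volume) ∧
          (∀ i, Isometry (f i)) ∧
          Pairwise (fun i j => Disjoint (P i) (P j)) ∧
          Pairwise (fun i j => Disjoint (f i '' P i) (f j '' P j)) ∧
          (⋃ i, P i) = A \ E₁ ∧
          (⋃ i, f i '' P i) = B \ E₂) := by
  intro hall
  obtain ⟨U, hUo, hUd, hUm⟩ := exists_dense_open
  set A : Set ℝ := Icc 0 1 \ U with hA
  have hAclosed : IsClosed A := isClosed_Icc.sdiff hUo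
  have hAint : interior A = ∅ := by
    rw [Set.eq_empty_iff_forall_notMem]
    intro x hx
    obtain ⟨y, hy1, hy2⟩ := hUd.inter_open_nonempty _ isOpen_interior ⟨x, hx⟩
    exact (interior_subset hy1).2 hy2
  have hAtop : volume A ≠ ⊤ := by
    apply ne_top_of_le_ne_top _ (measure_mono (sdiff_subset : A ⊆ Icc 0 1))
    rw [Real.volume_Icc]; exact ENNReal.ofReal_ne_top
  have hApos : volume A ≠ 0 := by
    intro h0
    have h1 : volume (Icc (0:ℝ) 1) ≤ volume A + volume U := by
      refine (measure_mono ?_).trans (measure_union_le _ _)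
      intro x hx
      by_cases h : x ∈ U
      · exact Or.inr h
      · exact Or.inl ⟨hx, h⟩
    rw [h0, zero_add, Real.volume_Icc] at h1
    have h2 := h1.trans hUm
    rw [sub_zero, ENNReal.ofReal_one] at h2
    have : (1/2 : ENNReal) < 1 := by
      rw [one_div]; exact ENNReal.inv_lt_one.mpr (by norm_num)
    exact absurd h2 (not_le.mpr this)
  set a : ℝ := (volume A).toReal with ha
  have hapos : 0 < a := ENNReal.toReal_pos hApos hAtop
  obtain ⟨E₁, E₂, hE₁, hE₂, n, P, f, hP, hf, -, -, hPA, hPB⟩ := hall A (Icc 0 a)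
    hAclosed.measurableSet.nullMeasurableSet measurableSet_Icc.nullMeasurableSet
    ((Metric.isBounded_Icc 0 1).subset sdiff_subset) (Metric.isBounded_Icc 0 a) (by
      rw [Real.volume_Icc, sub_zero, ha, ENNReal.ofReal_toReal hAtop])
  -- the complement of the moved copies of `A`
  set D : Set ℝ := ⋂ i, (f i '' A)ᶜ with hD
  have hcl : ∀ i, IsClosed (f i '' A) := fun i => (hf i).isClosedEmbedding.isClosedMap _ hAclosed
  have hDo : IsOpen D := isOpen_iInter_of_finite fun i => (hcl i).isOpen_compl
  have hDd : Dense D := by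
    apply dense_iInter_of_isOpen (fun i => (hcl i).isOpen_compl)
    intro i
    rw [← interior_eq_empty_iff_dense_compl, Set.eq_empty_iff_forall_notMem]
    intro x hx
    have h1 : f i ⁻¹' (interior (f i '' A)) ⊆ A := by
      intro y hy
      obtain ⟨z, hz, hzy⟩ := interior_subset hy
      rwa [← (hf i).injective hzy]
    have h2 : f i ⁻¹' (interior (f i '' A)) ⊆ interior A :=
      interior_maximal h1 (isOpen_interior.preimage (hf i).continuous)
    obtain ⟨z, hz, hzx⟩ := interior_subset hx
    have h3 : z ∈ f i ⁻¹' (interior (f i '' A)) := by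
      change f i z ∈ interior (f i '' A); rw [hzx]; exact hx
    have := h2 h3
    rw [hAint] at this
    exact this
  have hsub : D ∩ Ioo 0 a ⊆ E₂ := by
    rintro x ⟨hxD, hx⟩
    by_contra hxE
    have hxB : x ∈ Icc 0 a \ E₂ := ⟨⟨hx.1.le, hx.2.le⟩, hxE⟩
    rw [← hPB] at hxB
    obtain ⟨i, hi⟩ := mem_iUnion.mp hxB
    obtain ⟨y, hy, hyx⟩ := hi
    have hyA : y ∈ A := by
      have : y ∈ ⋃ i, P i := mem_iUnion.mpr ⟨i, hy⟩
      rw [hPA] at this
      exact this.1
    exact (mem_iInter.mp hxD i) ⟨y, hyA, hyx⟩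
  have hne : (D ∩ Ioo 0 a).Nonempty := by
    obtain ⟨y, hy1, hy2⟩ := hDd.inter_open_nonempty _ isOpen_Ioo (nonempty_Ioo.mpr hapos)
    exact ⟨y, hy2, hy1⟩
  have hpos := (hDo.inter isOpen_Ioo).measure_pos volume hne
  exact absurd (measure_mono_null hsub hE₂) hpos.ne'

end Pool.Agent.S1726
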