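import Pool.Statements.S1796
-- import your own Pool.Agent.* helpers here

set_option autoImplicit false
open Filter Topology
open Pool Pool.MP_d512aa_an

namespace Pool.Agent.S1796

open Filter Topology

noncomputable section

/-! ### The signed square root -/

/-- signed square root, written as the derivative of `(2/3)|t|^(3/2)` -/
def s (u : ℝ) : ℝ := |u| ^ ((3/2 : ℝ) - 2) * u

lemma s_mul_abs (u : ℝ) : s u * |s u| = u := by
  unfold s
  rcases eq_or_ne u 0 with rfl | hu
  · simp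
  · have h : 0 < |u| := abs_pos.mpr hu
    rw [abs_mul, abs_of_pos (Real.rpow_pos_of_pos h _)]
    have e : |u| ^ ((3/2 : ℝ) - 2) * |u| ^ ((3/2 : ℝ) - 2) * |u| = 1 := by
      rw [← Real.rpow_add h, show ((3/2 : ℝ) - 2 + (3/2 - 2)) = -1 by norm_num, Real.rpow_neg_one]
      field_simp
    calc |u| ^ ((3/2 : ℝ) - 2) * u * (|u| ^ ((3/2 : ℝ) - 2) * |u|)
        = (|u| ^ ((3/2 : ℝ) - 2) * |u| ^ ((3/2 : ℝ) - 2) * |u|) * u := by ring
      _ = u := by rw [e, one_mul]

lemma s_zero : s 0 = 0 := by simp [s]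

lemma s_ne_zero {u : ℝ} (hu : u ≠ 0) : s u ≠ 0 := by
  intro h
  have := s_mul_abs u
  rw [h] at this
  simp at this
  exact hu this.symm

lemma s_sq_mul (t : ℝ) (ht : 0 < t) (w : ℝ) : s (t^2 * w) = t * s w := by
  unfold s
  rcases eq_or_ne w 0 with rfl | hw
  · simp
  · rw [abs_mul, abs_of_pos (by positivity : 0 < t^2), Real.mul_rpow (by positivity) (abs_nonneg _)]
    have : (t^2 : ℝ) ^ ((3/2 : ℝ) - 2) = t⁻¹ := by
      rw [← Real.rpow_natCast t 2, ← Real.rpow_mul ht.le]
      rw [show (((2:ℕ):ℝ) * ((3/2 : ℝ) - 2)) = -1 by norm_num, Real.rpow_neg_one]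
    rw [this]
    field_simp

lemma s_neg (u : ℝ) : s (-u) = - s u := by simp [s]

lemma s_diff_sq (u v : ℝ) : (s u - s v)^2 ≤ 2 * |u - v| := by
  have hu := s_mul_abs u
  have hv := s_mul_abs v
  set a := s u
  set b := s v
  rw [← hu, ← hv]
  rcases le_total 0 a with ha | ha <;> rcases le_total 0 b with hb | hb
  · rw [abs_of_nonneg ha, abs_of_nonneg hb]
    rcases le_total a b with h | h
    · rw [abs_sub_comm, abs_of_nonneg (by nlinarith)]; nlinarith [mul_nonneg ha (sub_nonneg.mpr h)]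
    · rw [abs_of_nonneg (by nlinarith)]; nlinarith [mul_nonneg hb (sub_nonneg.mpr h)]
  · rw [abs_of_nonneg ha, abs_of_nonpos hb, abs_of_nonneg (by nlinarith)]
    nlinarith [sq_nonneg (a + b)]
  · rw [abs_of_nonpos ha, abs_of_nonneg hb, abs_sub_comm, abs_of_nonneg (by nlinarith)]
    nlinarith [sq_nonneg (a + b)]
  · rw [abs_of_nonpos ha, abs_of_nonpos hb]
    rcases le_total a b with h | h
    · rw [abs_sub_comm, abs_of_nonneg (by nlinarith)]
      nlinarith [mul_nonneg (neg_nonneg.mpr hb) (sub_nonneg.mpr h)]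
    · rw [abs_of_nonneg (by nlinarith)]
      nlinarith [mul_nonneg (neg_nonneg.mpr ha) (sub_nonneg.mpr h)]

lemma abs_s_le (u : ℝ) : |s u| ≤ 1 + |u| := by
  have hu := s_mul_abs u
  have : |s u| * |s u| = |u| := by
    have := congrArg abs hu
    rwa [abs_mul, abs_abs] at this
  nlinarith [abs_nonneg (s u), abs_nonneg u]

lemma s_differentiableAt {u : ℝ} (hu : u ≠ 0) : DifferentiableAt ℝ s u := by
  unfold s
  have h1 : DifferentiableAt ℝ (fun x : ℝ => |x|) u := by
    simpa using (differentiableAt_id (𝕜 := ℝ) (x := u)).abs hu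
  exact (h1.rpow_const (Or.inl (abs_ne_zero.mpr hu))).mul differentiableAt_id

/-- if `q` is differentiable at `0` then `(q(t^2) - q(-t^2))/t → 0`. -/
lemma sym_diff_tendsto (q : ℝ → ℝ) (hq : DifferentiableAt ℝ q 0) :
    Tendsto (fun t : ℝ => (q (t^2) - q (-t^2)) / t) (𝓝[>] 0) (𝓝 0) := by
  have hd := hq.hasDerivAt
  have h1 : HasDerivAt (fun t : ℝ => q (t^2)) (deriv q 0 * (2 * 0)) 0 := by
    have hsq : HasDerivAt (fun t : ℝ => t^2) (2 * 0) 0 := by
      simpa using hasDerivAt_pow 2 (0:ℝ)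
    have : HasDerivAt q (deriv q 0) ((0:ℝ)^2) := by simpa using hd
    exact HasDerivAt.comp (0:ℝ) this hsq
  have h2 : HasDerivAt (fun t : ℝ => q (-t^2)) (deriv q 0 * (-(2 * 0))) 0 := by
    have hsq : HasDerivAt (fun t : ℝ => -t^2) (-(2 * 0)) 0 := by
      have := (hasDerivAt_pow 2 (0:ℝ)).fun_neg
      simpa using this
    have : HasDerivAt q (deriv q 0) (-(0:ℝ)^2) := by simpa using hd
    exact HasDerivAt.comp (0:ℝ) this hsq
  have h3 := (h1.sub h2)
  rw [hasDerivAt_iff_tendsto_slope_zero] at h3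
  have h4 := h3.mono_left (nhdsWithin_mono (0:ℝ) (t := {0}ᶜ) (s := Set.Ioi 0) (by
    intro x hx; simp at hx ⊢; exact hx.ne'))
  simp only [mul_zero, neg_zero, sub_zero] at h4
  refine h4.congr' ?_
  filter_upwards with t
  simp
  ring

/-! ### The Hilbert space and the functionals -/

abbrev H := ↥(lp (fun _ : ℕ => ℝ) 2)

def lam (k : ℕ) : ℝ := (1/2)^(k+1)

lemma lam_pos (k : ℕ) : 0 < lam k := by unfold lam; positivity

lemma lam_le (k : ℕ) : lam k ≤ 1/2 := by
  unfold lam
  rw [pow_succ]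
  have : (1/2:ℝ)^k ≤ 1 := pow_le_one₀ (by norm_num) (by norm_num)
  linarith

lemma coord_le (y : H) (j : ℕ) : |y j| ≤ ‖y‖ := by
  simpa using lp.norm_apply_le_norm (by norm_num) y j

lemma term_le (k : ℕ) (y : H) (j : ℕ) : ‖lam k ^ j * y j‖ ≤ (1/2:ℝ)^j * ‖y‖ := by
  rw [norm_mul, Real.norm_eq_abs, Real.norm_eq_abs, abs_of_pos (pow_pos (lam_pos k) j)]
  exact mul_le_mul (pow_le_pow_left₀ (lam_pos k).le (lam_le k) j) (coord_le y j) (abs_nonneg _)
    (by positivity)

lemma summ (k : ℕ) (y : H) : Summable (fun j => lam k ^ j * y j) :=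
  Summable.of_norm_bounded (g := fun j => (1/2:ℝ)^j * ‖y‖) (summable_geometric_two.mul_right _)
    (term_le k y)

lemma f_bound (k : ℕ) (y : H) : ‖∑' j, lam k ^ j * y j‖ ≤ 2 * ‖y‖ := by
  have := tsum_of_norm_bounded (f := fun j => lam k ^ j * y j)
      ((summable_geometric_two.mul_right ‖y‖).hasSum) (term_le k y)
  rw [tsum_mul_right, tsum_geometric_two] at this
  exact this

def f (k : ℕ) : H →L[ℝ] ℝ := LinearMap.mkContinuous
  { toFun := fun y => ∑' j, lam k ^ j * y j
    map_add' := by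
      intro y z
      rw [← (summ k y).tsum_add (summ k z)]
      congr 1; ext j
      rw [lp.coeFn_add, Pi.add_apply]; ring
    map_smul' := by
      intro a y
      rw [RingHom.id_apply, smul_eq_mul, ← tsum_mul_left]
      congr 1; ext j
      rw [lp.coeFn_smul, Pi.smul_apply, smul_eq_mul]; ring } 2 (fun y => f_bound k y)

lemma f_apply (k : ℕ) (y : H) : f k y = ∑' j, lam k ^ j * y j := rfl

lemma f_le (k : ℕ) (y : H) : |f k y| ≤ 2 * ‖y‖ := by
  rw [f_apply]; exact f_bound k y

lemma lam_tendsto : Tendsto lam atTop (𝓝 0) := by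
  have := (tendsto_pow_atTop_nhds_zero_of_lt_one (by norm_num : (0:ℝ) ≤ 1/2) (by norm_num))
  exact this.comp (tendsto_add_atTop_nat 1)

/-- asymptotics of `f k y` -/
lemma f_asymp (y : H) (n : ℕ) (hy : ∀ j < n, y j = 0) :
    Tendsto (fun k => f k y / lam k ^ n) atTop (𝓝 (y n)) := by
  have h1 : ∀ k, f k y / lam k ^ n = ∑' j, (lam k ^ j * y j) / lam k ^ n := by
    intro k; rw [f_apply, tsum_div_const]
  have h2 : y n = ∑' j, (if j = n then y n else 0) := by
    rw [tsum_ite_eq]
  rw [funext h1, h2]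
  refine tendsto_tsum_of_dominated_convergence (bound := fun j => (1/2:ℝ)^(j-n) * ‖y‖) ?_ ?_ ?_
  · apply Summable.mul_right
    rw [← summable_nat_add_iff n]
    simpa using summable_geometric_two
  · intro j
    rcases lt_trichotomy j n with h | h | h
    · simp [hy j h, h.ne]
    · subst h
      simp only [if_true]
      refine tendsto_const_nhds.congr ?_
      intro k
      have := (pow_pos (lam_pos k) j).ne'
      field_simp
    · rw [if_neg h.ne']
      obtain ⟨m, rfl⟩ := Nat.exists_eq_add_of_lt h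
      have h3 : ∀ k, lam k ^ (n + m + 1) * y (n + m + 1) / lam k ^ n =
          lam k ^ (m+1) * y (n+m+1) := by
        intro k
        have := (pow_pos (lam_pos k) n).ne'
        rw [show n + m + 1 = n + (m+1) by ring, pow_add]
        field_simp
      rw [funext h3]
      have := (lam_tendsto.pow (m+1)).mul_const (y (n+m+1))
      simpa using this
  · filter_upwards with k j
    rcases lt_or_ge j n with h | h
    · simp [hy j h]
    · obtain ⟨m, rfl⟩ := Nat.exists_eq_add_of_le h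
      have : lam k ^ (n + m) * y (n + m) / lam k ^ n = lam k ^ m * y (n+m) := by
        have := (pow_pos (lam_pos k) n).ne'
        rw [pow_add]
        field_simp
      rw [this, Nat.add_sub_cancel_left, norm_mul, Real.norm_eq_abs, Real.norm_eq_abs,
        abs_of_pos (pow_pos (lam_pos k) m)]
      exact mul_le_mul (pow_le_pow_left₀ (lam_pos k).le (lam_le k) m) (coord_le y _) (abs_nonneg _)
        (by positivity)

/-! ### the modular -/

def eps (k : ℕ) : ℝ := (1/2)^k

lemma eps_pos (k : ℕ) : 0 < eps k := by unfold eps; positivity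

lemma eps_summable : Summable eps := summable_geometric_two

def M (y : H) : ℝ := ‖y‖ ^ (3/2 : ℝ) + ∑' k, eps k * |f k y| ^ (3/2 : ℝ)

lemma M_summable (y : H) : Summable (fun k => eps k * |f k y| ^ (3/2 : ℝ)) := by
  refine Summable.of_nonneg_of_le (fun k => ?_) (fun k => ?_)
    (eps_summable.mul_right ((2 * ‖y‖) ^ (3/2:ℝ)))
  · have := eps_pos k; positivity
  · exact mul_le_mul_of_nonneg_left
      (Real.rpow_le_rpow (abs_nonneg _) (f_le k y) (by norm_num)) (eps_pos k).le

open scoped InnerProductSpace in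
lemma M_deriv (g x : H) : HasDerivAt (fun a : ℝ => M (g + a • x))
    (3/2 * (‖g‖ ^ ((3/2:ℝ) - 2) * ⟪g, x⟫_ℝ) + ∑' k, 3/2 * (eps k * (s (f k g) * f k x))) 0 := by
  unfold M
  refine HasDerivAt.add ?_ ?_
  · have h1 := hasFDerivAt_norm_rpow g (p := 3/2) (by norm_num)
    have h2 : HasDerivAt (fun a : ℝ => g + a • x) x 0 := by
      simpa using ((hasDerivAt_id (0:ℝ)).smul_const x).const_add g
    have h1' : HasFDerivAt (fun x : H => ‖x‖ ^ (3/2:ℝ))
      ((3/2 * ‖g‖ ^ ((3/2:ℝ) - 2)) • innerSL ℝ g) (g + (0:ℝ) • x) := by simpa using h1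
    have h3 := h1'.comp_hasDerivAt (0:ℝ) h2
    refine h3.congr_deriv ?_
    simp [mul_assoc]
  · have hf : ∀ k (a : ℝ), f k (g + a • x) = f k g + a * f k x := by
      intro k a; simp
    simp only [hf]
    have key := hasDerivAt_tsum_of_isPreconnected
      (g := fun (k : ℕ) (a : ℝ) => eps k * |f k g + a * f k x| ^ (3/2:ℝ))
      (g' := fun (k : ℕ) (a : ℝ) => 3/2 * (eps k * (s (f k g + a * f k x) * f k x)))
      (u := fun k => eps k * (3/2 * ((1 + (2 * ‖g‖ + 2 * ‖x‖)) * (2 * ‖x‖))))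
      (t := Metric.ball 0 1) (y₀ := 0) (y := 0)
      (eps_summable.mul_right _) Metric.isOpen_ball (convex_ball _ _).isPreconnected
      ?_ ?_ (by simp) (by simpa using M_summable g) (by simp)
    · simpa using key
    · intro k a ha
      have h4 : HasDerivAt (fun a : ℝ => f k g + a * f k x) (f k x) a := by
        simpa using ((hasDerivAt_id a).mul_const (f k x)).const_add (f k g)
      have h5 := (hasDerivAt_abs_rpow (f k g + a * f k x) (p := 3/2) (by norm_num))
      have h6 := (HasDerivAt.comp a h5 h4).const_mul (eps k)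
      refine h6.congr_deriv ?_
      unfold s
      ring
    · intro k a ha
      have ha' : |a| ≤ 1 := by
        have := Metric.mem_ball.mp ha
        rw [Real.dist_eq, sub_zero] at this
        exact this.le
      have h7 : |f k g + a * f k x| ≤ 2 * ‖g‖ + 2 * ‖x‖ := by
        calc |f k g + a * f k x| ≤ |f k g| + |a * f k x| := abs_add_le _ _
          _ = |f k g| + |a| * |f k x| := by rw [abs_mul]
          _ ≤ 2 * ‖g‖ + 1 * (2 * ‖x‖) := by
              gcongr
              · exact f_le k g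
              · exact f_le k x
          _ = _ := by ring
      have h8 := abs_s_le (f k g + a * f k x)
      rw [Real.norm_eq_abs, abs_mul, abs_mul, abs_mul, abs_of_pos (eps_pos k),
        abs_of_pos (by norm_num : (0:ℝ) < 3/2)]
      have h9 : |s (f k g + a * f k x)| * |f k x| ≤ (1 + (2 * ‖g‖ + 2 * ‖x‖)) * (2 * ‖x‖) := by
        apply mul_le_mul (h8.trans (by linarith)) (f_le k x) (abs_nonneg _) (by positivity)
      calc 3/2 * (eps k * (|s (f k g + a * f k x)| * |f k x|))
          = eps k * (3/2 * (|s (f k g + a * f k x)| * |f k x|)) := by ring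
        _ ≤ _ := by
          apply mul_le_mul_of_nonneg_left _ (eps_pos k).le
          apply mul_le_mul_of_nonneg_left h9 (by norm_num)

open scoped InnerProductSpace in
lemma M_crit (g x : H) (h : ∀ a : ℝ, M g ≤ M (g + a • x)) :
    ‖g‖ ^ ((3/2:ℝ) - 2) * ⟪g, x⟫_ℝ + ∑' k, eps k * (s (f k g) * f k x) = 0 := by
  have h1 := M_deriv g x
  have h2 : IsLocalMin (fun a : ℝ => M (g + a • x)) 0 := by
    filter_upwards with a
    simpa using h a
  have h3 := h2.hasDerivAt_eq_zero h1
  rw [tsum_mul_left] at h3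
  linarith

lemma S_summable (y x : H) : Summable (fun j => eps j * (s (f j y) * f j x)) := by
  refine Summable.of_norm_bounded (g := fun j => eps j * ((1 + 2 * ‖y‖) * (2 * ‖x‖)))
    (eps_summable.mul_right _) ?_
  intro j
  rw [Real.norm_eq_abs, abs_mul, abs_mul, abs_of_pos (eps_pos j)]
  apply mul_le_mul_of_nonneg_left _ (eps_pos j).le
  apply mul_le_mul _ (f_le j x) (abs_nonneg _) (by positivity)
  have := abs_s_le (f j y)
  have := f_le j y
  linarith

open scoped InnerProductSpace in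
lemma key_vanish (g0 g1 x : H) (hg0 : g0 ≠ 0) (k : ℕ) (hk0 : f k g0 = 0) (hk1 : f k g1 ≠ 0)
    (hj : ∀ j, j ≠ k → f j g0 ≠ 0 ∨ f j g1 = 0)
    (hcrit : ∀ t : ℝ, ‖g0 + t • g1‖ ^ ((3/2:ℝ) - 2) * ⟪g0 + t • g1, x⟫_ℝ
      + ∑' j, eps j * (s (f j (g0 + t • g1)) * f j x) = 0) : f k x = 0 := by
  set P : ℝ → ℝ := fun t => ‖g0 + t • g1‖ ^ ((3/2:ℝ) - 2) * ⟪g0 + t • g1, x⟫_ℝ with hP
  have hPd : DifferentiableAt ℝ P 0 := by
    have h0 : DifferentiableAt ℝ (fun t : ℝ => g0 + t • g1) 0 := by fun_prop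
    have h1 : DifferentiableAt ℝ (fun t : ℝ => ‖g0 + t • g1‖) 0 :=
      DifferentiableAt.norm ℝ h0 (by simpa using hg0)
    refine (h1.rpow_const (Or.inl (by simpa using hg0))).mul ?_
    exact DifferentiableAt.inner ℝ h0 (differentiableAt_const x)
  have hlim1 := sym_diff_tendsto P hPd
  set T : ℝ → ℕ → ℝ := fun t j => eps j * f j x *
    ((s (f j g0 + t^2 * f j g1) - s (f j g0 + (-t^2) * f j g1)) / t) with hT
  have hlim2 : Tendsto (fun t => ∑' j, T t j) (𝓝[>] 0)
      (𝓝 (∑' j, if j = k then eps k * f k x * (2 * s (f k g1)) else 0)) := by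
    refine tendsto_tsum_of_dominated_convergence
      (bound := fun j => eps j * (2 * ‖x‖ * (2 + 4 * (2 * ‖g1‖)))) (eps_summable.mul_right _) ?_ ?_
    · intro j
      by_cases hjk : j = k
      · subst hjk
        rw [if_pos rfl]
        refine tendsto_const_nhds.congr' ?_
        filter_upwards [self_mem_nhdsWithin] with t ht
        have ht' : 0 < t := ht
        simp only [hT, hk0, zero_add]
        rw [show (-t^2) * f j g1 = -(t^2 * f j g1) by ring, s_neg, s_sq_mul t ht']
        field_simp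
        ring
      · rw [if_neg hjk]
        rcases hj j hjk with h | h
        · have hq : DifferentiableAt ℝ (fun r : ℝ => s (f j g0 + r * f j g1)) 0 := by
            have h2 : DifferentiableAt ℝ s (f j g0 + 0 * f j g1) := by
              simpa using s_differentiableAt h
            have h3 : DifferentiableAt ℝ (fun r : ℝ => f j g0 + r * f j g1) 0 := by fun_prop
            exact DifferentiableAt.comp (0:ℝ) h2 h3
          have := (sym_diff_tendsto _ hq).const_mul (eps j * f j x)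
          rw [mul_zero] at this
          exact this
        · simp only [hT, h]
          simp
    · filter_upwards [self_mem_nhdsWithin] with t ht j
      have ht' : 0 < t := ht
      have h1 := s_diff_sq (f j g0 + t^2 * f j g1) (f j g0 + (-t^2) * f j g1)
      have h2 : (f j g0 + t^2 * f j g1) - (f j g0 + (-t^2) * f j g1) = t^2 * (2 * f j g1) := by ring
      rw [h2, abs_mul, abs_of_pos (by positivity : 0 < t^2), abs_mul, abs_two] at h1
      set d := s (f j g0 + t^2 * f j g1) - s (f j g0 + (-t^2) * f j g1)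
      have h3 : (d / t)^2 ≤ 4 * |f j g1| := by
        rw [div_pow, div_le_iff₀ (by positivity)]
        nlinarith
      have h4 : |d / t| ≤ 2 + 4 * (2 * ‖g1‖) := by
        have h5 := f_le j g1
        have h6 : |d / t|^2 ≤ 4 * |f j g1| := by rw [sq_abs]; exact h3
        nlinarith [abs_nonneg (d / t), sq_nonneg (|d/t| - 1), norm_nonneg g1]
      rw [hT]
      simp only
      rw [Real.norm_eq_abs, abs_mul, abs_mul, abs_of_pos (eps_pos j), mul_assoc]
      apply mul_le_mul_of_nonneg_left _ (eps_pos j).le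
      exact mul_le_mul (f_le j x) h4 (abs_nonneg _) (by positivity)
  rw [tsum_ite_eq] at hlim2
  have hsum : ∀ t : ℝ, 0 < t → (P (t^2) - P (-t^2)) / t + ∑' j, T t j = 0 := by
    intro t ht
    have h1 := hcrit (t^2)
    have h2 := hcrit (-t^2)
    have h3 : ∑' j, T t j = (∑' j, eps j * (s (f j (g0 + t^2 • g1)) * f j x) -
        ∑' j, eps j * (s (f j (g0 + (-t^2) • g1)) * f j x)) / t := by
      rw [← (S_summable _ x).tsum_sub (S_summable _ x), ← tsum_div_const]
      congr 1; ext j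
      simp only [hT, map_add, map_smul, smul_eq_mul]
      ring
    rw [h3]
    simp only [hP]
    rw [← add_div, div_eq_zero_iff]
    left
    linarith
  have hlim3 := hlim1.add hlim2
  have hlim4 : Tendsto (fun t => (P (t^2) - P (-t^2)) / t + ∑' j, T t j) (𝓝[>] (0:ℝ)) (𝓝 0) := by
    refine tendsto_const_nhds.congr' ?_
    filter_upwards [self_mem_nhdsWithin] with t ht
    exact (hsum t ht).symm
  have hE := tendsto_nhds_unique hlim3 hlim4
  rw [zero_add] at hE
  have h1 := s_ne_zero hk1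
  have h2 := (eps_pos k).ne'
  by_contra hne
  exact absurd hE (by positivity)

lemma exists_coord_ne {x : H} (hx : x ≠ 0) : ∃ n, x n ≠ 0 := by
  by_contra h
  push Not at h
  exact hx (lp.ext (funext h))

theorem core (G : Submodule ℝ H) (a b : H) (ha : a ∈ G) (hb : b ∈ G)
    (hab : LinearIndependent ℝ ![a, b]) (x : H) (hx : x ≠ 0)
    (hmin : ∀ g ∈ G, ∀ α : ℝ, M g ≤ M (g + α • x)) : False := by
  classical
  rw [LinearIndependent.pair_iff] at hab
  have ha0 : a ≠ 0 := by
    rintro rfl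
    have := (hab 1 0 (by simp)).1
    exact one_ne_zero this
  have hex : ∃ n, ∃ g ∈ G, g n ≠ 0 := by
    obtain ⟨n, hn⟩ := exists_coord_ne ha0
    exact ⟨n, a, ha, hn⟩
  obtain ⟨h1, h1G, h1n⟩ := Nat.find_spec hex
  have hn1min : ∀ m < Nat.find hex, ∀ g ∈ G, g m = 0 := by
    intro m hm g hg
    by_contra hne
    exact Nat.find_min hex hm ⟨g, hg, hne⟩
  set n1 := Nat.find hex
  have hc : ∃ c ∈ G, c - (c n1 / h1 n1) • h1 ≠ 0 := by
    by_contra hcon
    push Not at hcon
    have e1 := sub_eq_zero.mp (hcon a ha)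
    have e2 := sub_eq_zero.mp (hcon b hb)
    set ra := a n1 / h1 n1
    set rb := b n1 / h1 n1
    have h3 := hab rb (-ra) (by
      rw [e1, e2, smul_smul, smul_smul, ← add_smul]
      have : rb * ra + -ra * rb = 0 := by ring
      rw [this, zero_smul])
    have : ra = 0 := by linarith [h3.2]
    rw [this, zero_smul] at e1
    exact ha0 e1
  obtain ⟨c, hcG, hc0⟩ := hc
  set h2 := c - (c n1 / h1 n1) • h1 with hh2
  have h2G : h2 ∈ G := G.sub_mem hcG (G.smul_mem _ h1G)
  have h2n1 : h2 n1 = 0 := by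
    rw [hh2]
    simp only [lp.coeFn_sub, lp.coeFn_smul, Pi.sub_apply, Pi.smul_apply, smul_eq_mul]
    field_simp
    ring
  have hex2 := exists_coord_ne hc0
  have h2n := Nat.find_spec hex2
  have hn2min : ∀ m < Nat.find hex2, h2 m = 0 := by
    intro m hm
    by_contra hne
    exact Nat.find_min hex2 hm hne
  set n2 := Nat.find hex2
  have hn12 : n1 < n2 := by
    by_contra hle
    rcases lt_or_eq_of_le (not_lt.mp hle) with h | h
    · exact h2n (hn1min n2 h h2 h2G)
    · rw [h] at h2n; exact h2n h2n1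
  have hA := f_asymp h1 n1 (fun j hj => hn1min j hj h1 h1G)
  have hB := f_asymp h2 n2 hn2min
  obtain ⟨m, hm⟩ := Nat.exists_eq_add_of_lt hn12
  set Q : ℕ → ℝ := fun k => (f k h2 / lam k ^ n2) / (f k h1 / lam k ^ n1) with hQ
  have hQlim : Tendsto Q atTop (𝓝 (h2 n2 / h1 n1)) := hB.div hA h1n
  have hQ0 : h2 n2 / h1 n1 ≠ 0 := div_ne_zero h2n h1n
  set ρ : ℕ → ℝ := fun k => f k h2 / f k h1 with hρ
  have hρQ : ∀ k, ρ k = Q k * lam k ^ (m+1) := by
    intro k
    simp only [hρ, hQ]
    have h1' := (pow_pos (lam_pos k) n1).ne'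
    have h2' := (pow_pos (lam_pos k) n2).ne'
    have h3' : lam k ^ n2 = lam k ^ n1 * lam k ^ (m+1) := by rw [hm, ← pow_add]; ring_nf
    rw [h3'] at h2' ⊢
    have h4' := (pow_pos (lam_pos k) (m+1)).ne'
    by_cases h5 : f k h1 = 0
    · simp [h5]
    · field_simp
  have hρlim : Tendsto ρ atTop (𝓝 0) := by
    have h3 := hQlim.mul (lam_tendsto.pow (m+1))
    rw [zero_pow (Nat.succ_ne_zero m), mul_zero] at h3
    exact h3.congr (fun k => (hρQ k).symm)
  have hQne : ∀ᶠ k in atTop, Q k ≠ 0 := hQlim.eventually_ne hQ0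
  have hρne : ∀ᶠ k in atTop, ρ k ≠ 0 := by
    filter_upwards [hQne] with k hk
    rw [hρQ]
    exact mul_ne_zero hk (pow_pos (lam_pos k) _).ne'
  have hQdec : ∀ᶠ k in atTop, |Q (k+1)| < 2 * |Q k| := by
    have e1 : Tendsto (fun k => 2 * |Q k| - |Q (k+1)|) atTop
        (𝓝 (2 * |h2 n2 / h1 n1| - |h2 n2 / h1 n1|)) :=
      (hQlim.abs.const_mul 2).sub (hQlim.abs.comp (tendsto_add_atTop_nat 1))
    have e2 : 0 < 2 * |h2 n2 / h1 n1| - |h2 n2 / h1 n1| := by
      have := abs_pos.mpr hQ0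
      linarith
    filter_upwards [Filter.Tendsto.eventually_const_lt e2 e1] with k hk
    linarith
  have hρdec : ∀ᶠ k in atTop, |ρ (k+1)| < |ρ k| := by
    filter_upwards [hQdec] with k hk
    rw [hρQ, hρQ, abs_mul, abs_mul, abs_of_pos (pow_pos (lam_pos k) _),
      abs_of_pos (pow_pos (lam_pos (k+1)) _)]
    have e3 : lam (k+1) = lam k * (1/2) := by unfold lam; ring
    have e4 : lam (k+1) ^ (m+1) ≤ lam k ^ (m+1) * (1/2) := by
      rw [e3, mul_pow]
      apply mul_le_mul_of_nonneg_left _ (pow_pos (lam_pos k) _).le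
      rw [pow_succ]
      have : ((1/2:ℝ))^m ≤ 1 := pow_le_one₀ (by norm_num) (by norm_num)
      linarith
    have e5 := pow_pos (lam_pos k) (m+1)
    calc |Q (k+1)| * lam (k+1) ^ (m+1) ≤ |Q (k+1)| * (lam k ^ (m+1) * (1/2)) :=
          mul_le_mul_of_nonneg_left e4 (abs_nonneg _)
      _ < (2 * |Q k|) * (lam k ^ (m+1) * (1/2)) := by
          apply mul_lt_mul_of_pos_right hk (by positivity)
      _ = |Q k| * lam k ^ (m+1) := by ring
  obtain ⟨K, hK⟩ := eventually_atTop.mp (hρdec.and hρne)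
  have hmono : ∀ i j, K ≤ i → i < j → |ρ j| < |ρ i| := by
    intro i j hi hij
    obtain ⟨d, rfl⟩ := Nat.exists_eq_add_of_lt hij
    induction d with
    | zero => exact (hK i hi).1
    | succ d ih =>
      exact lt_trans ((hK (i + d + 1) (by omega)).1) (ih (by omega))
  have hsmall : ∀ᶠ k in atTop, ∀ j ∈ Finset.range K, ρ j ≠ 0 → |ρ k| < |ρ j| := by
    rw [Filter.eventually_all_finset]
    intro j hj
    by_cases h : ρ j = 0
    · filter_upwards with k h'
      exact absurd h h'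
    · have := hρlim.abs
      rw [abs_zero] at this
      filter_upwards [this.eventually_lt_const (abs_pos.mpr h)] with k hk _
      exact hk
  have hdist : ∀ᶠ k in atTop, ρ k ≠ 0 ∧ ∀ j, j ≠ k → ρ j ≠ ρ k := by
    filter_upwards [hsmall, eventually_ge_atTop K] with k hk hKk
    refine ⟨(hK k hKk).2, ?_⟩
    intro j hjk heq
    rcases lt_or_ge j K with h | h
    · by_cases h0 : ρ j = 0
      · rw [h0] at heq; exact (hK k hKk).2 heq.symm
      · have := hk j (Finset.mem_range.mpr h) h0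
        rw [heq] at this
        exact lt_irrefl _ this
    · rcases lt_or_gt_of_ne hjk with h' | h'
      · have := hmono j k h h'
        rw [heq] at this; exact lt_irrefl _ this
      · have := hmono k j hKk h'
        rw [heq] at this; exact lt_irrefl _ this
  have hvan : ∀ᶠ k in atTop, f k x = 0 := by
    filter_upwards [hdist] with k hk
    obtain ⟨hk0, hkj⟩ := hk
    have hfk1 : f k h1 ≠ 0 := by
      intro h; apply hk0; simp only [hρ]; rw [h, div_zero]
    apply key_vanish (h2 - ρ k • h1) h1 x ?_ k ?_ hfk1 ?_ ?_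
    · intro h
      have h3 : (h2 - ρ k • h1) n1 = 0 := by rw [h]; rfl
      simp only [lp.coeFn_sub, lp.coeFn_smul, Pi.sub_apply, Pi.smul_apply, smul_eq_mul] at h3
      rw [h2n1, zero_sub, neg_eq_zero] at h3
      exact mul_ne_zero hk0 h1n h3
    · rw [map_sub, map_smul, smul_eq_mul]
      simp only [hρ]
      rw [div_mul_cancel₀ _ hfk1, sub_self]
    · intro j hj
      by_cases hfj : f j h1 = 0
      · right; exact hfj
      · left
        rw [map_sub, map_smul, smul_eq_mul]
        intro h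
        apply hkj j hj
        have : f j h2 = ρ k * f j h1 := by linarith
        calc ρ j = f j h2 / f j h1 := rfl
          _ = ρ k := by rw [this, mul_div_assoc, div_self hfj, mul_one]
    · intro t
      apply M_crit
      intro α
      exact hmin _ (G.add_mem (G.sub_mem h2G (G.smul_mem _ h1G)) (G.smul_mem _ h1G)) α
  have hexx := exists_coord_ne hx
  have hxn := Nat.find_spec hexx
  have hxmin : ∀ m < Nat.find hexx, x m = 0 := by
    intro m hm
    by_contra hne
    exact Nat.find_min hexx hm hne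
  have hX := f_asymp x _ hxmin
  have hXne := hX.eventually_ne hxn
  obtain ⟨k, hk1, hk2⟩ := (hvan.and hXne).exists
  rw [hk1, zero_div] at hk2
  exact hk2 rfl

/-! ### The Banach space -/

open scoped ENNReal

def p : ℝ≥0∞ := ENNReal.ofReal (3/2)

lemma p_toReal : p.toReal = 3/2 := by unfold p; rw [ENNReal.toReal_ofReal (by norm_num)]

instance : Fact (1 ≤ p) := ⟨by
  unfold p
  rw [show (1:ℝ≥0∞) = ENNReal.ofReal 1 by simp]
  exact ENNReal.ofReal_le_ofReal (by norm_num)⟩

lemma p_ne_zero : p ≠ 0 := (zero_lt_one.trans_le (Fact.out : 1 ≤ p)).ne'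

lemma p_ne_top : p ≠ ⊤ := by unfold p; exact ENNReal.ofReal_ne_top

abbrev W := ↥(lp (fun _ : ℕ => H) p)

def e : H := lp.single 2 0 1

lemma norm_e : ‖e‖ = 1 := by
  unfold e
  rw [lp.norm_single (by norm_num)]
  simp

def cc (k : ℕ) : ℝ := (eps k) ^ (2/3 : ℝ)

def ev (i : ℕ) : W →L[ℝ] H := lp.evalCLM ℝ (fun _ : ℕ => H) p i

lemma ev_apply (i : ℕ) (z : W) : ev i z = z i := rfl

def ES : Submodule ℝ W where
  carrier := {z | ∀ k, z (k+1) = (cc k * f k (z 0)) • e}
  add_mem' := by
    intro y z hy hz k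
    rw [lp.coeFn_add, Pi.add_apply, Pi.add_apply, hy k, hz k, map_add, mul_add, add_smul]
  zero_mem' := by
    intro k
    simp
  smul_mem' := by
    intro a z hz k
    rw [lp.coeFn_smul, Pi.smul_apply, Pi.smul_apply, hz k, map_smul, smul_eq_mul, smul_smul]
    congr 1; ring

lemma ES_closed : IsClosed (ES : Set W) := by
  have : (ES : Set W) = ⋂ k, {z : W | ev (k+1) z = (cc k * f k (ev 0 z)) • e} := by
    ext z
    rw [Set.mem_iInter]
    rfl
  rw [this]
  apply isClosed_iInter
  intro k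
  apply isClosed_eq
  · fun_prop
  · fun_prop

instance : CompleteSpace ES := ES_closed.completeSpace_coe

lemma norm_pow (z : W) (hz : z ∈ ES) : ‖z‖ ^ (3/2 : ℝ) = M (z 0) := by
  have h1 := lp.norm_rpow_eq_tsum (p := p) (by rw [p_toReal]; norm_num) z
  have h2 := (lp.memℓp z).summable (by rw [p_toReal]; norm_num)
  rw [h2.tsum_eq_zero_add] at h1
  rw [p_toReal] at h1
  rw [h1]
  unfold M
  congr 1
  apply tsum_congr
  intro k
  rw [hz k, norm_smul, norm_e, mul_one, Real.norm_eq_abs, abs_mul,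
    Real.mul_rpow (abs_nonneg _) (abs_nonneg _)]
  congr 1
  unfold cc
  rw [abs_of_nonneg (Real.rpow_nonneg (eps_pos k).le _), ← Real.rpow_mul (eps_pos k).le]
  norm_num

/-- the embedding of `H` -/
def emb (y : H) : W := ⟨fun i => Nat.casesOn i y (fun k => (cc k * f k y) • e), by
  apply memℓp_gen
  rw [p_toReal, ← summable_nat_add_iff 1]
  refine (M_summable y).congr ?_
  intro k
  change _ = ‖(cc k * f k y) • e‖ ^ (3/2:ℝ)
  rw [norm_smul, norm_e, mul_one, Real.norm_eq_abs, abs_mul,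
    Real.mul_rpow (abs_nonneg _) (abs_nonneg _)]
  congr 1
  unfold cc
  rw [abs_of_nonneg (Real.rpow_nonneg (eps_pos k).le _), ← Real.rpow_mul (eps_pos k).le]
  norm_num⟩

lemma emb_mem (y : H) : emb y ∈ ES := by
  intro k
  rfl

def π0 : ES →ₗ[ℝ] H := (ev 0 : W →ₗ[ℝ] H) ∘ₗ ES.subtype

lemma π0_apply (z : ES) : π0 z = (z : W) 0 := rfl

lemma π0_inj : Function.Injective π0 := by
  intro y z h
  rw [π0_apply, π0_apply] at h
  apply Subtype.ext
  apply lp.ext
  funext i
  cases i with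
  | zero => exact h
  | succ k =>
    have h1 := y.2 k
    have h2 := z.2 k
    rw [h1, h2, h]

lemma not_fd : ¬ FiniteDimensional ℝ ES := by
  intro hfd
  have b : HilbertBasis ℕ ℝ H := HilbertBasis.ofRepr (LinearIsometryEquiv.refl ℝ _)
  have hli := b.orthonormal.linearIndependent
  have hli2 : LinearIndependent ℝ (fun i => (⟨emb (b i), emb_mem _⟩ : ES)) := by
    apply LinearIndependent.of_comp π0
    exact hli
  have := hli2.finite
  exact not_finite ℕ


/-! ### No norm-one projections of rank at least two -/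

theorem no_strong (G : Submodule ℝ ES) (a b : G) (hb : LinearIndependent ℝ ![a, b])
    (x : ES) (hx : x ≠ 0) (hG : ∀ g ∈ G, ∀ α : ℝ, ‖g‖ ≤ ‖g + α • x‖) : False := by
  have hli : LinearIndependent ℝ ![π0 (a : ES), π0 (b : ES)] := by
    rw [LinearIndependent.pair_iff] at hb ⊢
    intro s t hst
    apply hb s t
    apply Subtype.ext
    apply π0_inj
    simpa using hst
  refine core (G.map π0) (π0 a) (π0 b) (Submodule.mem_map_of_mem a.2)
    (Submodule.mem_map_of_mem b.2) hli (π0 x) ?_ ?_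
  · intro h
    apply hx
    apply π0_inj
    rw [h, map_zero]
  · rintro g ⟨g', hg', rfl⟩ α
    have h1 := hG g' hg' α
    have h2 : ‖(g' : W)‖ ^ (3/2:ℝ) ≤ ‖((g' + α • x : ES) : W)‖ ^ (3/2:ℝ) :=
      Real.rpow_le_rpow (norm_nonneg _) h1 (by norm_num)
    rw [norm_pow _ g'.2, norm_pow _ (g' + α • x).2] at h2
    exact h2

/-! ### Truncations -/

def trunc (n : ℕ) : H →ₗ[ℝ] H where
  toFun y := ∑ j ∈ Finset.range n, lp.single 2 j (y j)
  map_add' := by
    intro y z
    rw [← Finset.sum_add_distrib]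
    apply Finset.sum_congr rfl
    intro j _
    rw [lp.coeFn_add, Pi.add_apply, lp.single_add]
  map_smul' := by
    intro a y
    rw [RingHom.id_apply, Finset.smul_sum]
    apply Finset.sum_congr rfl
    intro j _
    rw [lp.coeFn_smul, Pi.smul_apply, lp.single_smul]

lemma trunc_def (n : ℕ) (y : H) : trunc n y = ∑ j ∈ Finset.range n, lp.single 2 j (y j) := rfl

lemma trunc_apply (n : ℕ) (y : H) (j : ℕ) : trunc n y j = if j < n then y j else 0 := by
  rw [trunc_def, lp.coeFn_sum, Finset.sum_apply]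
  simp only [lp.coeFn_single, Finset.sum_pi_single, Finset.mem_range]

lemma trunc_tendsto (y : H) : Tendsto (fun n => trunc n y) atTop (𝓝 y) := by
  have := (lp.hasSum_single (p := 2) (by norm_num) y).tendsto_sum_nat
  exact this

lemma trunc_norm_le (n : ℕ) (y : H) : ‖trunc n y‖ ≤ ‖y‖ := by
  apply lp.norm_mono (by norm_num)
  intro i
  rw [trunc_apply]
  split_ifs
  · exact le_refl _
  · simp

lemma trunc_sub_norm_le (n : ℕ) (y : H) : ‖trunc n y - y‖ ≤ ‖y‖ := by
  apply lp.norm_mono (by norm_num)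
  intro i
  rw [lp.coeFn_sub, Pi.sub_apply, trunc_apply]
  split_ifs
  · simp
  · simp

lemma f_trunc_sub (k n : ℕ) (y : H) : |f k (trunc n y - y)| ≤ 2 * (1/2)^n * ‖y‖ := by
  rw [f_apply, ← Real.norm_eq_abs]
  have hb : ∀ j, ‖lam k ^ j * (trunc n y - y : H) j‖ ≤ (1/2)^n * ‖y‖ *
      (if j < n then 0 else (1/2:ℝ)^(j - n)) := by
    intro j
    rw [lp.coeFn_sub, Pi.sub_apply, trunc_apply]
    split_ifs with h
    · simp
    · rw [zero_sub, norm_mul, norm_neg, Real.norm_eq_abs, Real.norm_eq_abs,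
        abs_of_pos (pow_pos (lam_pos k) j)]
      have e1 : (1/2:ℝ)^n * ‖y‖ * (1/2)^(j-n) = (1/2)^j * ‖y‖ := by
        have : (1/2:ℝ)^j = (1/2)^n * (1/2)^(j-n) := by rw [← pow_add]; congr 1; omega
        rw [this]; ring
      rw [e1]
      exact mul_le_mul (pow_le_pow_left₀ (lam_pos k).le (lam_le k) j) (coord_le y j)
        (abs_nonneg _) (by positivity)
  have hs : HasSum (fun j => if j < n then 0 else (1/2:ℝ)^(j - n)) 2 := by
    rw [← hasSum_nat_add_iff' n]
    have e2 : ∑ i ∈ Finset.range n, (if i < n then (0:ℝ) else (1/2:ℝ)^(i - n)) = 0 := by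
      apply Finset.sum_eq_zero
      intro i hi
      rw [if_pos (Finset.mem_range.mp hi)]
    rw [e2, sub_zero]
    have e3 : (fun j => if j + n < n then (0:ℝ) else (1/2:ℝ)^(j + n - n)) = fun j => (1/2)^j := by
      ext j
      rw [if_neg (by omega), Nat.add_sub_cancel]
    rw [e3]
    exact hasSum_geometric_two
  have := tsum_of_norm_bounded (hs.mul_left ((1/2)^n * ‖y‖)) hb
  linarith

lemma norm_tail_le (y : H) (a : ℝ) (ha : 0 ≤ a) (hy : ∀ k, |f k y| ≤ a) (c : ℝ) (hc : 0 ≤ c)
    (v : H) (hv : ‖v‖ ≤ c) (z : W) (hz0 : z 0 = v) (hz : ∀ k, z (k+1) = (cc k * f k y) • e) :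
    ‖z‖ ≤ c + 2 * a := by
  -- compare with `single 0 v` plus the tail
  have hsplit : z = lp.single p 0 v + (z - lp.single p 0 v) := by abel
  have h1 : ‖z‖ ≤ ‖(lp.single p 0 v : W)‖ + ‖z - lp.single p 0 v‖ := by
    conv_lhs => rw [hsplit]
    exact norm_add_le _ _
  have h2 : ‖(lp.single p 0 v : W)‖ ≤ c := by
    rw [lp.norm_single (pos_iff_ne_zero.mpr p_ne_zero)]
    exact hv
  have h3 : ‖z - lp.single p 0 v‖ ≤ 2 * a := by
    apply lp.norm_le_of_tsum_le (p := p) (by rw [p_toReal]; norm_num) (by positivity)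
    have hsm := (lp.memℓp (z - lp.single p 0 v)).summable (by rw [p_toReal]; norm_num)
    rw [hsm.tsum_eq_zero_add, p_toReal]
    have h4 : ‖(z - lp.single p 0 v : W) 0‖ = 0 := by
      rw [lp.coeFn_sub, Pi.sub_apply, hz0, lp.single_apply_self, sub_self, norm_zero]
    rw [h4, Real.zero_rpow (by norm_num), zero_add]
    have h5 : ∀ k, ‖(z - lp.single p 0 v : W) (k+1)‖ ^ (3/2:ℝ) = eps k * |f k y| ^ (3/2:ℝ) := by
      intro k
      rw [lp.coeFn_sub, Pi.sub_apply, hz k, lp.single_apply_ne _ _ _ (by omega), sub_zero,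
        norm_smul, norm_e, mul_one, Real.norm_eq_abs, abs_mul,
        Real.mul_rpow (abs_nonneg _) (abs_nonneg _)]
      congr 1
      unfold cc
      rw [abs_of_nonneg (Real.rpow_nonneg (eps_pos k).le _), ← Real.rpow_mul (eps_pos k).le]
      norm_num
    rw [tsum_congr h5]
    have h6 : ∑' k, eps k * |f k y| ^ (3/2:ℝ) ≤ ∑' k, eps k * a ^ (3/2:ℝ) := by
      apply Summable.tsum_le_tsum _ (M_summable y) (eps_summable.mul_right _)
      intro k
      exact mul_le_mul_of_nonneg_left (Real.rpow_le_rpow (abs_nonneg _) (hy k) (by norm_num))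
        (eps_pos k).le
    refine h6.trans ?_
    rw [tsum_mul_right, Real.mul_rpow (by norm_num) ha]
    apply mul_le_mul_of_nonneg_right _ (Real.rpow_nonneg ha _)
    have h7 : ∑' k, eps k = 2 := tsum_geometric_two
    rw [h7]
    calc (2:ℝ) = 2 ^ (1:ℝ) := by norm_num
      _ ≤ 2 ^ (3/2:ℝ) := Real.rpow_le_rpow_of_exponent_le (by norm_num) (by norm_num)
  linarith


def embL : H →ₗ[ℝ] ES where
  toFun y := ⟨emb y, emb_mem y⟩
  map_add' := by
    intro y z
    apply π0_inj
    rfl
  map_smul' := by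
    intro a y
    apply π0_inj
    rfl

lemma π0_embL (y : H) : π0 (embL y) = y := rfl

lemma embL_π0 (z : ES) : embL (π0 z) = z := π0_inj rfl

lemma norm_π0_le (z : ES) : ‖π0 z‖ ≤ ‖z‖ := lp.norm_apply_le_norm p_ne_zero (z : W) 0

lemma embL_norm_le (y : H) : ‖embL y‖ ≤ 5 * ‖y‖ := by
  have := norm_tail_le y (2 * ‖y‖) (by positivity) (fun k => f_le k y) ‖y‖ (norm_nonneg _) y
    le_rfl (emb y) rfl (fun k => rfl)
  change ‖emb y‖ ≤ 5 * ‖y‖
  linarith

def Pn (n : ℕ) : ES →ₗ[ℝ] ES := embL ∘ₗ trunc n ∘ₗ π0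

lemma Pn_apply (n : ℕ) (z : ES) : Pn n z = embL (trunc n (π0 z)) := rfl

lemma Pn_norm_le (n : ℕ) (z : ES) : ‖Pn n z‖ ≤ (1 + 4 * (1/2)^n) * ‖z‖ := by
  set y := π0 z with hy
  set w := trunc n y - y with hw
  have hz : z = embL y := (embL_π0 z).symm
  have hsplit : ((Pn n z : ES) : W) = ((z : W) + lp.single p 0 w) + (emb w - lp.single p 0 w) := by
    have h1 : Pn n z = z + embL w := by
      rw [Pn_apply, ← hy, hw, map_sub, ← hz]
      abel
    rw [h1]
    change (z : W) + emb w = _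
    abel
  have h1 : ‖((z : W) + lp.single p 0 w)‖ ≤ ‖(z : W)‖ := by
    apply lp.norm_mono p_ne_zero
    intro i
    rw [lp.coeFn_add, Pi.add_apply]
    cases i with
    | zero =>
      rw [lp.single_apply_self]
      change ‖y + w‖ ≤ ‖y‖
      rw [hw]
      have : y + (trunc n y - y) = trunc n y := by abel
      rw [this]
      exact trunc_norm_le n y
    | succ k =>
      rw [lp.single_apply_ne _ _ _ (by omega), add_zero]
  have h2 : ‖(emb w - lp.single p 0 w : W)‖ ≤ 0 + 2 * (2 * (1/2)^n * ‖y‖) := by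
    apply norm_tail_le w (2 * (1/2)^n * ‖y‖) (by positivity) (fun k => f_trunc_sub k n y) 0 le_rfl 0
      (by simp)
    · rw [lp.coeFn_sub, Pi.sub_apply, lp.single_apply_self]
      exact sub_self w
    · intro k
      rw [lp.coeFn_sub, Pi.sub_apply, lp.single_apply_ne _ _ _ (by omega), sub_zero]
      rfl
  have h3 : ‖y‖ ≤ ‖z‖ := norm_π0_le z
  calc ‖Pn n z‖ = ‖((Pn n z : ES) : W)‖ := rfl
    _ ≤ ‖((z : W) + lp.single p 0 w)‖ + ‖(emb w - lp.single p 0 w : W)‖ := by
        rw [hsplit]; exact norm_add_le _ _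
    _ ≤ ‖(z : W)‖ + (0 + 2 * (2 * (1/2)^n * ‖y‖)) := add_le_add h1 h2
    _ = ‖z‖ + 4 * (1/2)^n * ‖y‖ := by rw [zero_add]; change ‖z‖ + _ = _; ring
    _ ≤ ‖z‖ + 4 * (1/2)^n * ‖z‖ := by
        have : (0:ℝ) ≤ 4 * (1/2)^n := by positivity
        linarith [mul_le_mul_of_nonneg_left h3 this]
    _ = (1 + 4 * (1/2)^n) * ‖z‖ := by ring

lemma Pn_tendsto (z : ES) : Tendsto (fun n => Pn n z) atTop (𝓝 z) := by
  rw [tendsto_iff_norm_sub_tendsto_zero]
  have h1 : ∀ n, ‖Pn n z - z‖ ≤ 5 * ‖trunc n (π0 z) - π0 z‖ := by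
    intro n
    have : Pn n z - z = embL (trunc n (π0 z) - π0 z) := by
      rw [map_sub, embL_π0, Pn_apply]
    rw [this]
    exact embL_norm_le _
  have h2 := (tendsto_iff_norm_sub_tendsto_zero.mp (trunc_tendsto (π0 z))).const_mul 5
  rw [mul_zero] at h2
  exact squeeze_zero (fun n => norm_nonneg _) h1 h2

def PnC (n : ℕ) : ES →L[ℝ] ES := (Pn n).mkContinuous (1 + 4 * (1/2)^n) (Pn_norm_le n)

lemma PnC_apply (n : ℕ) (z : ES) : PnC n z = Pn n z := rfl

lemma PnC_norm (n : ℕ) : ‖PnC n‖ ≤ 1 + 4 * (1/2)^n :=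
  LinearMap.mkContinuous_norm_le _ (by positivity) _

lemma trunc_trunc (n : ℕ) (y : H) : trunc n (trunc n y) = trunc n y := by
  apply lp.ext
  funext j
  rw [trunc_apply, trunc_apply]
  split_ifs <;> rfl

lemma PnC_idem (n : ℕ) : (PnC n).comp (PnC n) = PnC n := by
  ext1 z
  rw [ContinuousLinearMap.comp_apply, PnC_apply, PnC_apply, Pn_apply, Pn_apply, π0_embL,
    trunc_trunc]

lemma trunc_mem_span (n : ℕ) (y : H) :
    trunc n y ∈ Submodule.span ℝ (Set.range (fun j : Fin n => (lp.single 2 (j:ℕ) (1:ℝ) : H))) := by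
  rw [trunc_def]
  apply Submodule.sum_mem
  intro j hj
  have : (lp.single 2 j (y j) : H) = (y j) • (lp.single 2 j (1:ℝ) : H) := by
    rw [← lp.single_smul, smul_eq_mul, mul_one]
  rw [this]
  apply Submodule.smul_mem
  apply Submodule.subset_span
  exact ⟨⟨j, Finset.mem_range.mp hj⟩, rfl⟩

lemma PnC_fin (n : ℕ) : FiniteDimensional ℝ (LinearMap.range (PnC n : ES →ₗ[ℝ] ES)) := by
  have h1 : LinearMap.range (PnC n : ES →ₗ[ℝ] ES) ≤
      (Submodule.span ℝ (Set.range (fun j : Fin n => (lp.single 2 (j:ℕ) (1:ℝ) : H)))).map embL := by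
    rintro _ ⟨z, rfl⟩
    exact Submodule.mem_map_of_mem (trunc_mem_span n (π0 z))
  have h2 : FiniteDimensional ℝ (Submodule.span ℝ
      (Set.range (fun j : Fin n => (lp.single 2 (j:ℕ) (1:ℝ) : H)))) :=
    FiniteDimensional.span_of_finite ℝ (Set.finite_range _)
  exact Submodule.finiteDimensional_of_le h1

instance : TopologicalSpace.SeparableSpace ES := by
  rw [← TopologicalSpace.isSeparable_univ_iff]
  have h1 : TopologicalSpace.IsSeparable
      ((Submodule.span ℝ (Set.range (fun j : ℕ => embL (lp.single 2 j (1:ℝ)))) : Submodule ℝ ES)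
        : Set ES) :=
    (Set.countable_range _).isSeparable.span
  refine h1.closure.mono ?_
  intro z _
  refine mem_closure_of_tendsto (Pn_tendsto z) ?_
  filter_upwards with n
  rw [Pn_apply, trunc_def, map_sum]
  apply Submodule.sum_mem
  intro j hj
  have : (lp.single 2 j ((π0 z) j) : H) = ((π0 z) j) • (lp.single 2 j (1:ℝ) : H) := by
    rw [← lp.single_smul, smul_eq_mul, mul_one]
  rw [this, map_smul]
  apply Submodule.smul_mem
  apply Submodule.subset_span
  exact ⟨j, rfl⟩


/-! ### The ambient space with a monotone basis -/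

def ww (n : ℕ) : ES := embL (lp.single 2 n 1)

lemma ww_ne_zero (n : ℕ) : ww n ≠ 0 := by
  intro h
  have h1 := congrArg π0 h
  rw [ww, π0_embL, map_zero] at h1
  have h2 : (lp.single 2 n (1:ℝ) : H) n = 0 := by rw [h1]; rfl
  rw [lp.single_apply_self] at h2
  exact one_ne_zero h2

lemma Pn_succ_sub (n : ℕ) (z : ES) : Pn (n+1) z - Pn n z = ((π0 z) n) • ww n := by
  rw [Pn_apply, Pn_apply, ← map_sub, trunc_def, trunc_def, Finset.sum_range_succ, add_sub_cancel_left,
    ww, ← map_smul, ← lp.single_smul, smul_eq_mul, mul_one]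

lemma Pn_zero (z : ES) : Pn 0 z = 0 := by
  rw [Pn_apply, trunc_def, Finset.range_zero, Finset.sum_empty, map_zero]

lemma Pn_norm5 (n : ℕ) (z : ES) : ‖Pn n z‖ ≤ 5 * ‖z‖ := by
  refine (Pn_norm_le n z).trans ?_
  apply mul_le_mul_of_nonneg_right _ (norm_nonneg _)
  have : (1/2:ℝ)^n ≤ 1 := pow_le_one₀ (by norm_num) (by norm_num)
  linarith

def cn (n : ℕ) : ℝ := 1 / (1 + 8 * (9/10)^n)

lemma cn_pos (n : ℕ) : 0 < cn n := by unfold cn; positivity

lemma cn_mono (n : ℕ) : cn n ≤ cn (n+1) := by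
  unfold cn
  apply one_div_le_one_div_of_le (by positivity)
  have : (9/10:ℝ)^(n+1) ≤ (9/10)^n := pow_le_pow_of_le_one (by norm_num) (by norm_num) (Nat.le_succ n)
  linarith

lemma cn_tendsto : Tendsto cn atTop (𝓝 1) := by
  have h1 := (tendsto_pow_atTop_nhds_zero_of_lt_one (by norm_num : (0:ℝ) ≤ 9/10)
      (by norm_num)).const_mul 8
  have h2 := h1.const_add 1
  rw [mul_zero, add_zero] at h2
  have h3 := h2.inv₀ one_ne_zero
  rw [inv_one] at h3
  refine h3.congr ?_
  intro n
  rw [cn, one_div]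

lemma cn_ineq (n : ℕ) : cn n * (1 + 4 * (1/2)^n) + (cn (n+1) - cn n) * 5 ≤ 1 := by
  unfold cn
  set η : ℝ := 8 * (9/10)^n with hη
  have hη1 : 8 * (9/10:ℝ)^(n+1) = (9/10) * η := by rw [hη, pow_succ]; ring
  rw [hη1]
  have hη0 : 0 < η := by positivity
  have hδ : 4 * (1/2:ℝ)^n ≤ η / 2 := by
    have : (1/2:ℝ)^n ≤ (9/10)^n := pow_le_pow_left₀ (by norm_num) (by norm_num) n
    rw [hη]; linarith
  have hδ0 : 0 ≤ 4 * (1/2:ℝ)^n := by positivity
  set δ := 4 * (1/2:ℝ)^n
  have e1 : 1/(1+η) * (1+δ) + (1/(1+(9/10)*η) - 1/(1+η)) * 5 =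
      ((1+δ)*(1+(9/10)*η) + 5 * (η/10)) / ((1+η)*(1+(9/10)*η)) := by
    field_simp; ring
  rw [e1, div_le_one (by positivity)]
  nlinarith [mul_nonneg hη0.le hη0.le]

def st : ℕ → ℕ × ℕ
  | 0 => (0, 0)
  | k+1 => if (st k).2 < (st k).1 then ((st k).1, (st k).2 + 1) else ((st k).1 + 1, 0)

lemma st_zero : st 0 = (0, 0) := rfl

lemma st_succ (k : ℕ) : st (k+1) = if (st k).2 < (st k).1 then ((st k).1, (st k).2 + 1)
    else ((st k).1 + 1, 0) := rfl

lemma st_le (k : ℕ) : (st k).2 ≤ (st k).1 := by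
  induction k with
  | zero => simp [st_zero]
  | succ k ih =>
    rw [st_succ]
    split_ifs with h
    · exact h
    · exact Nat.zero_le _

lemma st_mono : Monotone (fun k => (st k).1) := by
  apply monotone_nat_of_le_succ
  intro k
  rw [st_succ]
  split_ifs <;> simp

lemma st_reach (n : ℕ) : ∃ k, st k = (n, 0) := by
  induction n with
  | zero => exact ⟨0, rfl⟩
  | succ n ih =>
    obtain ⟨k, hk⟩ := ih
    have h1 : ∀ j, j ≤ n → st (k + j) = (n, j) := by
      intro j
      induction j with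
      | zero => intro _; rw [add_zero, hk]
      | succ j ih2 =>
        intro hj
        rw [← add_assoc, st_succ, ih2 (by omega)]
        simp only
        rw [if_pos (by omega)]
    refine ⟨k + n + 1, ?_⟩
    rw [st_succ, h1 n le_rfl]
    simp

lemma st_tendsto : Tendsto (fun k => (st k).1) atTop atTop := by
  apply tendsto_atTop_atTop_of_monotone st_mono
  intro b
  obtain ⟨k, hk⟩ := st_reach b
  exact ⟨k, by rw [hk]⟩

def SS (k : ℕ) : ES →ₗ[ℝ] ES :=
  cn (st k).1 • Pn (st k).1 + (cn ((st k).1 + 1) - cn (st k).1) • Pn (st k).2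

lemma SS_apply (k : ℕ) (z : ES) : SS k z = cn (st k).1 • Pn (st k).1 z +
    (cn ((st k).1 + 1) - cn (st k).1) • Pn (st k).2 z := rfl

lemma SS_norm (k : ℕ) (z : ES) : ‖SS k z‖ ≤ ‖z‖ := by
  rw [SS_apply]
  set n := (st k).1
  have hc := cn_pos n
  have hm := sub_nonneg.mpr (cn_mono n)
  calc _ ≤ ‖cn n • Pn n z‖ + ‖(cn (n+1) - cn n) • Pn (st k).2 z‖ := norm_add_le _ _
    _ = cn n * ‖Pn n z‖ + (cn (n+1) - cn n) * ‖Pn (st k).2 z‖ := by
        rw [norm_smul, norm_smul, Real.norm_of_nonneg hc.le, Real.norm_of_nonneg hm]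
    _ ≤ cn n * ((1 + 4 * (1/2)^n) * ‖z‖) + (cn (n+1) - cn n) * (5 * ‖z‖) := by
        apply add_le_add
        · exact mul_le_mul_of_nonneg_left (Pn_norm_le n z) hc.le
        · exact mul_le_mul_of_nonneg_left (Pn_norm5 _ z) hm
    _ = (cn n * (1 + 4 * (1/2)^n) + (cn (n+1) - cn n) * 5) * ‖z‖ := by ring
    _ ≤ 1 * ‖z‖ := mul_le_mul_of_nonneg_right (cn_ineq n) (norm_nonneg _)
    _ = ‖z‖ := one_mul _

lemma SS_zero (z : ES) : SS 0 z = 0 := by
  rw [SS_apply, st_zero]
  simp only
  rw [Pn_zero, smul_zero, smul_zero, add_zero]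

def uu (k : ℕ) : ES := ww (st k).2

lemma SS_succ (k : ℕ) (z : ES) : ∃ a : ℝ, SS (k+1) z - SS k z = a • uu k := by
  have hle := st_le k
  rw [SS_apply, SS_apply, st_succ, uu]
  set n := (st k).1
  set j := (st k).2
  by_cases h : j < n
  · rw [if_pos h]
    simp only
    refine ⟨(cn (n+1) - cn n) * (π0 z) j, ?_⟩
    rw [mul_smul, ← Pn_succ_sub, smul_sub]
    abel
  · rw [if_neg h]
    have hjn : j = n := by omega
    simp only
    refine ⟨cn (n+1) * (π0 z) n, ?_⟩
    rw [hjn, mul_smul, ← Pn_succ_sub, Pn_zero, smul_zero, add_zero, smul_sub, sub_smul]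
    abel

lemma SS_tendsto (z : ES) : Tendsto (fun k => SS k z) atTop (𝓝 z) := by
  have h1 : Tendsto (fun n => cn n • Pn n z) atTop (𝓝 ((1:ℝ) • z)) := cn_tendsto.smul (Pn_tendsto z)
  have h2 : Tendsto (fun n => (cn (n+1) - cn n) * (5 * ‖z‖)) atTop (𝓝 0) := by
    have := ((cn_tendsto.comp (tendsto_add_atTop_nat 1)).sub cn_tendsto).mul_const (5 * ‖z‖)
    rw [sub_self, zero_mul] at this
    exact this
  have h3 : Tendsto (fun k => (cn ((st k).1+1) - cn (st k).1) • Pn (st k).2 z) atTop (𝓝 0) := by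
    apply squeeze_zero_norm _ (h2.comp st_tendsto)
    intro k
    rw [norm_smul, Real.norm_of_nonneg (sub_nonneg.mpr (cn_mono _))]
    exact mul_le_mul_of_nonneg_left (Pn_norm5 _ z) (sub_nonneg.mpr (cn_mono _))
  have h4 := (h1.comp st_tendsto).add h3
  rw [one_smul, add_zero] at h4
  exact h4


/-! ### Generic construction -/

section generic

variable {E : Type} [NormedAddCommGroup E] [NormedSpace ℝ E]

abbrev CC (E : Type) [NormedAddCommGroup E] [NormedSpace ℝ E] := C(OnePoint ℕ, E)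

def evc (x : OnePoint ℕ) : CC E →ₗ[ℝ] E where
  toFun z := z x
  map_add' _ _ := rfl
  map_smul' _ _ := rfl

lemma evc_apply (x : OnePoint ℕ) (z : CC E) : evc x z = z x := rfl

lemma evc_cont (x : OnePoint ℕ) : Continuous (evc (E := E) x) := continuous_eval_const x

def BB (u : ℕ → E) : Submodule ℝ (CC E) where
  carrier := {z | z ((0:ℕ) : OnePoint ℕ) = 0 ∧
    ∀ k : ℕ, z ((k+1 : ℕ) : OnePoint ℕ) - z ((k : ℕ) : OnePoint ℕ) ∈ Submodule.span ℝ {u k}}
  add_mem' := by
    rintro y z ⟨hy1, hy2⟩ ⟨hz1, hz2⟩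
    refine ⟨?_, fun k => ?_⟩
    · rw [ContinuousMap.add_apply, hy1, hz1, add_zero]
    · rw [ContinuousMap.add_apply, ContinuousMap.add_apply, add_sub_add_comm]
      exact Submodule.add_mem _ (hy2 k) (hz2 k)
  zero_mem' := by
    refine ⟨rfl, fun k => ?_⟩
    rw [ContinuousMap.zero_apply, ContinuousMap.zero_apply, sub_zero]
    exact Submodule.zero_mem _
  smul_mem' := by
    rintro a z ⟨hz1, hz2⟩
    refine ⟨?_, fun k => ?_⟩
    · rw [ContinuousMap.smul_apply, hz1, smul_zero]
    · rw [ContinuousMap.smul_apply, ContinuousMap.smul_apply, ← smul_sub]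
      exact Submodule.smul_mem _ _ (hz2 k)

lemma BB_closed (u : ℕ → E) : IsClosed (BB u : Set (CC E)) := by
  have h : (BB u : Set (CC E)) = (evc ((0:ℕ) : OnePoint ℕ)) ⁻¹' {0} ∩
      ⋂ k : ℕ, (fun z : CC E => evc ((k+1 : ℕ) : OnePoint ℕ) z - evc ((k : ℕ) : OnePoint ℕ) z) ⁻¹'
        (Submodule.span ℝ {u k} : Set E) := by
    ext z
    rw [Set.mem_inter_iff, Set.mem_iInter]
    rfl
  rw [h]
  apply (isClosed_singleton.preimage (evc_cont _)).inter
  apply isClosed_iInter
  intro k
  have hfd : FiniteDimensional ℝ (Submodule.span ℝ {u k}) :=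
    FiniteDimensional.span_of_finite ℝ (Set.finite_singleton _)
  exact (Submodule.closed_of_finiteDimensional _).preimage ((evc_cont _).sub (evc_cont _))

lemma OnePoint_cases {p : OnePoint ℕ → Prop} (h1 : ∀ n : ℕ, p (n : OnePoint ℕ)) (h2 : p OnePoint.infty)
    (x : OnePoint ℕ) : p x := OnePoint.rec h2 h1 x

def bv (u : ℕ → E) (k : ℕ) : CC E :=
  OnePoint.continuousMapMkNat (fun i => if k < i then u k else 0) (u k) (by
  refine tendsto_const_nhds.congr' ?_
  filter_upwards [eventually_gt_atTop k] with i hi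
  rw [if_pos hi])

lemma bv_nat (u : ℕ → E) (k i : ℕ) : bv u k (i : OnePoint ℕ) = if k < i then u k else 0 := rfl

lemma bv_inf (u : ℕ → E) (k : ℕ) : bv u k OnePoint.infty = u k := rfl

lemma bv_mem (u : ℕ → E) (k : ℕ) : bv u k ∈ BB u := by
  refine ⟨?_, fun i => ?_⟩
  · rw [bv_nat, if_neg (by omega)]
  · rw [bv_nat, bv_nat]
    rcases lt_trichotomy k i with h | h | h
    · rw [if_pos (by omega), if_pos h, sub_self]; exact Submodule.zero_mem _
    · subst h
      rw [if_pos (by omega), if_neg (by omega), sub_zero]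
      exact Submodule.mem_span_singleton_self _
    · rw [if_neg (by omega), if_neg (by omega), sub_zero]; exact Submodule.zero_mem _

def ee (u : ℕ → E) (k : ℕ) : BB u := ⟨bv u k, bv_mem u k⟩

def sg (u : ℕ → E) (a : ℕ → ℝ) (i : ℕ) : E := ∑ k ∈ Finset.range i, a k • u k

lemma coe_psum (u : ℕ → E) (a : ℕ → ℝ) (n : ℕ) :
    ((∑ k ∈ Finset.range n, a k • ee u k : BB u) : CC E) =
    ∑ k ∈ Finset.range n, a k • bv u k := by
  rw [Submodule.coe_sum]
  rfl

lemma psum_nat (u : ℕ → E) (a : ℕ → ℝ) (n i : ℕ) :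
    ((∑ k ∈ Finset.range n, a k • ee u k : BB u) : CC E) (i : OnePoint ℕ) = sg u a (min n i) := by
  rw [coe_psum, ContinuousMap.sum_apply, sg]
  have h1 : ∀ k ∈ Finset.range n, (a k • bv u k) (i : OnePoint ℕ) = if k < i then a k • u k else 0 := by
    intro k _
    rw [ContinuousMap.smul_apply, bv_nat]
    split_ifs
    · rfl
    · rw [smul_zero]
  rw [Finset.sum_congr rfl h1, ← Finset.sum_filter]
  congr 1
  ext k
  simp only [Finset.mem_filter, Finset.mem_range, lt_min_iff]

lemma psum_inf (u : ℕ → E) (a : ℕ → ℝ) (n : ℕ) :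
    ((∑ k ∈ Finset.range n, a k • ee u k : BB u) : CC E) OnePoint.infty = sg u a n := by
  rw [coe_psum, ContinuousMap.sum_apply, sg]
  rfl

lemma BB_norm_le {u : ℕ → E} (z : BB u) (C : ℝ) (hC : 0 ≤ C)
    (h1 : ∀ n : ℕ, ‖(z : CC E) (n : OnePoint ℕ)‖ ≤ C)
    (h2 : ‖(z : CC E) OnePoint.infty‖ ≤ C) : ‖z‖ ≤ C := by
  change ‖(z : CC E)‖ ≤ C
  rw [ContinuousMap.norm_le _ hC]
  exact OnePoint_cases h1 h2

lemma BB_coe_norm {u : ℕ → E} (z : BB u) (x : OnePoint ℕ) : ‖(z : CC E) x‖ ≤ ‖z‖ :=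
  ContinuousMap.norm_coe_le_norm (z : CC E) x

lemma psum_mono (u : ℕ → E) (a : ℕ → ℝ) (n m : ℕ) (hnm : n ≤ m) :
    ‖∑ k ∈ Finset.range n, a k • ee u k‖ ≤ ‖∑ k ∈ Finset.range m, a k • ee u k‖ := by
  apply BB_norm_le _ _ (norm_nonneg _)
  · intro i
    rw [psum_nat]
    have h := BB_coe_norm (∑ k ∈ Finset.range m, a k • ee u k) ((min n i : ℕ) : OnePoint ℕ)
    rw [psum_nat] at h
    have : min m (min n i) = min n i := by omega
    rw [this] at h
    exact h
  · rw [psum_inf]
    have h := BB_coe_norm (∑ k ∈ Finset.range m, a k • ee u k) ((n : ℕ) : OnePoint ℕ)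
    rw [psum_nat, min_eq_right hnm] at h
    exact h

lemma BB_basis (u : ℕ → E) (hu : ∀ k, u k ≠ 0) (z : BB u) : ∃! a : ℕ → ℝ,
    Tendsto (fun n : ℕ => ∑ i ∈ Finset.range n, a i • ee u i) atTop (𝓝 z) := by
  have hz1 := z.2.1
  have hz2 := z.2.2
  have h1 : ∀ k, ∃ a : ℝ, a • u k = (z : CC E) ((k+1 : ℕ) : OnePoint ℕ) - (z : CC E) ((k : ℕ) : OnePoint ℕ) :=
    fun k => Submodule.mem_span_singleton.mp (hz2 k)
  choose a ha using h1
  have hsg : ∀ i : ℕ, sg u a i = (z : CC E) (i : OnePoint ℕ) := by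
    intro i
    induction i with
    | zero => rw [sg, Finset.range_zero, Finset.sum_empty]; exact hz1.symm
    | succ i ih =>
      have : sg u a (i+1) = sg u a i + a i • u i := Finset.sum_range_succ _ _
      rw [this, ih, ha]; abel
  refine ⟨a, ?_, ?_⟩
  · -- convergence
    change Tendsto (fun n : ℕ => ∑ i ∈ Finset.range n, a i • ee u i) atTop (𝓝 z)
    have hc : Tendsto (fun i : ℕ => (z : CC E) (i : OnePoint ℕ)) atTop (𝓝 ((z : CC E) OnePoint.infty)) :=
      (OnePoint.continuous_iff_from_nat _).mp (z : CC E).continuous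
    rw [Metric.tendsto_atTop] at hc ⊢
    intro ε hε
    obtain ⟨N, hN⟩ := hc (ε/3) (by positivity)
    refine ⟨N, fun n hn => ?_⟩
    rw [dist_eq_norm]
    have hb : ‖(∑ i ∈ Finset.range n, a i • ee u i) - z‖ ≤ 2 * (ε/3) := by
      apply BB_norm_le _ _ (by positivity)
      · intro i
        rw [Submodule.coe_sub, ContinuousMap.sub_apply, psum_nat, hsg]
        rcases le_total i n with h | h
        · rw [min_eq_right h, sub_self, norm_zero]; positivity
        · rw [min_eq_left h]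
          have e1 := hN n hn
          have e2 := hN i (le_trans hn h)
          rw [dist_eq_norm] at e1 e2
          calc _ = ‖((z : CC E) (n : OnePoint ℕ) - (z : CC E) OnePoint.infty) -
                ((z : CC E) (i : OnePoint ℕ) - (z : CC E) OnePoint.infty)‖ := by congr 1; abel
            _ ≤ _ := norm_sub_le _ _
            _ ≤ 2 * (ε/3) := by linarith
      · rw [Submodule.coe_sub, ContinuousMap.sub_apply, psum_inf, hsg]
        have e1 := hN n hn
        rw [dist_eq_norm] at e1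
        linarith
    exact lt_of_le_of_lt hb (by linarith)
  · intro a' ha'
    have hσ : ∀ i : ℕ, sg u a' i = (z : CC E) (i : OnePoint ℕ) := by
      intro i
      have h3 : Tendsto (fun n : ℕ => ((∑ j ∈ Finset.range n, a' j • ee u j : BB u) : CC E) (i : OnePoint ℕ))
          atTop (𝓝 ((z : CC E) (i : OnePoint ℕ))) := by
        have hcont : Continuous (fun y : BB u => (y : CC E) (i : OnePoint ℕ)) :=
          (evc_cont _).comp continuous_subtype_val
        exact (hcont.tendsto z).comp ha'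
      have h4 : Tendsto (fun n : ℕ => ((∑ j ∈ Finset.range n, a' j • ee u j : BB u) : CC E) (i : OnePoint ℕ))
          atTop (𝓝 (sg u a' i)) := by
        refine tendsto_const_nhds.congr' ?_
        filter_upwards [eventually_ge_atTop i] with n hn
        rw [psum_nat, min_eq_right hn]
      exact tendsto_nhds_unique h4 h3
    funext i
    have h5 : a' i • u i = a i • u i := by
      have e1 : sg u a' (i+1) = sg u a' i + a' i • u i := Finset.sum_range_succ _ _
      have e2 : sg u a (i+1) = sg u a i + a i • u i := Finset.sum_range_succ _ _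
      rw [hσ, hσ] at e1
      rw [hsg, hsg, e1] at e2
      exact add_left_cancel e2
    have h6 : (a' i - a i) • u i = 0 := by rw [sub_smul, h5, sub_self]
    rcases smul_eq_zero.mp h6 with h | h
    · linarith
    · exact absurd h (hu _)

def evInf (u : ℕ → E) : BB u →L[ℝ] E := LinearMap.mkContinuous ((evc OnePoint.infty) ∘ₗ (BB u).subtype) 1 (by
  intro z
  rw [one_mul]
  exact BB_coe_norm z _)

/-- abstract form of the counterexample -/
theorem generic [CompleteSpace E] (hEfd : ¬ FiniteDimensional ℝ E) (u : ℕ → E) (hu : ∀ k, u k ≠ 0)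
    (S : ℕ → E →ₗ[ℝ] E) (hS0 : ∀ z, S 0 z = 0)
    (hS1 : ∀ k z, ∃ a : ℝ, S (k+1) z - S k z = a • u k)
    (hSn : ∀ k z, ‖S k z‖ ≤ ‖z‖) (hSt : ∀ z, Tendsto (fun k => S k z) atTop (𝓝 z))
    (hno : ∀ g : ℕ → E, LinearIndependent ℝ ![g 0, g 1] → g 2 ≠ 0 →
      (∀ s t α : ℝ, ‖s • g 0 + t • g 1‖ ≤ ‖s • g 0 + t • g 1 + α • g 2‖) → False) :
    ¬ (∀ (B : Type) [NormedAddCommGroup B] [NormedSpace ℝ B] [CompleteSpace B],
    ¬ FiniteDimensional ℝ B →
    (∃ e : ℕ → B,
      (∀ x : B, ∃! a : ℕ → ℝ,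
        Tendsto (fun n : ℕ => ∑ i ∈ Finset.range n, a i • e i) atTop (𝓝 x)) ∧
      (∀ (a : ℕ → ℝ) (n m : ℕ), n ≤ m →
        ‖∑ i ∈ Finset.range n, a i • e i‖ ≤ ‖∑ i ∈ Finset.range m, a i • e i‖)) →
    ∀ F : Submodule ℝ B, IsClosed (F : Set B) → ¬ FiniteDimensional ℝ F →
      (∃ P : B →L[ℝ] B, (∀ x : B, P x ∈ F) ∧ (∀ x ∈ F, P x = x) ∧ ‖P‖ ≤ 1) →
      ∃ f : ℕ → B, (∀ i : ℕ, f i ∈ F) ∧
        (∀ x ∈ F, ∃! a : ℕ → ℝ,
          Tendsto (fun n : ℕ => ∑ i ∈ Finset.range n, a i • f i) atTop (𝓝 x)) ∧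
        (∀ (a : ℕ → ℝ) (n m : ℕ), n ≤ m →
          ‖∑ i ∈ Finset.range n, a i • f i‖ ≤ ‖∑ i ∈ Finset.range m, a i • f i‖)) := by
  intro hall
  have hcomp : CompleteSpace (BB u) := (BB_closed u).completeSpace_coe
  let JJ : E →ₗᵢ[ℝ] BB u :=
  { toFun := fun z => ⟨OnePoint.continuousMapMkNat (fun k => S k z) z (hSt z), by
      refine ⟨hS0 z, fun k => ?_⟩
      obtain ⟨a, ha⟩ := hS1 k z
      rw [Submodule.mem_span_singleton]
      exact ⟨a, ha.symm⟩⟩
    map_add' := by
      intro y z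
      apply Subtype.ext
      apply ContinuousMap.ext
      apply OnePoint_cases
      · intro n; exact map_add (S n) y z
      · rfl
    map_smul' := by
      intro a z
      apply Subtype.ext
      apply ContinuousMap.ext
      apply OnePoint_cases
      · intro n; exact map_smul (S n) a z
      · rfl
    norm_map' := by
      intro z
      apply le_antisymm
      · apply BB_norm_le _ _ (norm_nonneg _)
        · intro n; exact hSn n z
        · exact le_rfl
      · exact BB_coe_norm (⟨OnePoint.continuousMapMkNat (fun k => S k z) z (hSt z), _⟩ : BB u)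
          OnePoint.infty }
  set F : Submodule ℝ (BB u) := LinearMap.range JJ.toLinearMap with hF
  have hFcl : IsClosed (F : Set (BB u)) := by
    have h1 := JJ.isometry.isClosedEmbedding.isClosed_range
    have h2 : (F : Set (BB u)) = Set.range JJ := by
      rw [hF, LinearMap.coe_range]; rfl
    rw [h2]; exact h1
  have hFfd : ¬ FiniteDimensional ℝ F := by
    intro hfd
    have hfd' : Module.Finite ℝ (LinearMap.range JJ.toLinearMap) := hfd
    have h1 : Module.Finite ℝ E :=
      Module.Finite.equiv (LinearEquiv.ofInjective JJ.toLinearMap JJ.injective).symm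
    exact hEfd h1
  have hBfd : ¬ FiniteDimensional ℝ (BB u) := by
    intro hfd
    exact hFfd inferInstance
  obtain ⟨f, hfF, hfb, hfm⟩ := hall (BB u) hBfd ⟨ee u, BB_basis u hu, psum_mono u⟩ F hFcl hFfd
    ⟨JJ.toContinuousLinearMap.comp (evInf u), fun x => ⟨evInf u x, rfl⟩, by
      rintro _ ⟨x, rfl⟩
      rfl, by
      apply ContinuousLinearMap.opNorm_le_bound _ zero_le_one
      intro z
      rw [one_mul]
      change ‖JJ (evInf u z)‖ ≤ ‖z‖
      rw [LinearIsometry.norm_map]
      exact BB_coe_norm z _⟩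
  choose g hg using hfF
  -- uniqueness of the zero expansion
  have huniq : ∀ a : ℕ → ℝ, (∀ᶠ n in atTop, ∑ i ∈ Finset.range n, a i • f i = 0) → a = 0 := by
    intro a ha
    obtain ⟨a0, _, ha0⟩ := hfb 0 F.zero_mem
    have h1 : a = a0 := ha0 a (tendsto_const_nhds.congr' (by
      filter_upwards [ha] with n hn
      exact hn.symm))
    have h2 : (0 : ℕ → ℝ) = a0 := ha0 0 (tendsto_const_nhds.congr' (by
      filter_upwards with n
      simp))
    rw [h1, h2]
  have hsum3 : ∀ (s t r : ℝ) (n : ℕ), 3 ≤ n →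
      ∑ i ∈ Finset.range n, (fun i : ℕ => if i = 0 then s else if i = 1 then t else if i = 2 then r else 0) i • f i
        = s • f 0 + t • f 1 + r • f 2 := by
    intro s t r n hn
    obtain ⟨m, rfl⟩ := Nat.exists_eq_add_of_le hn
    rw [Finset.sum_range_add]
    have : ∑ x ∈ Finset.range m, (fun i : ℕ => if i = 0 then s else if i = 1 then t else if i = 2 then r else 0) (3 + x) • f (3 + x) = 0 := by
      apply Finset.sum_eq_zero
      intro x _
      simp only
      rw [if_neg (by omega), if_neg (by omega), if_neg (by omega), zero_smul]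
    rw [this, add_zero]
    simp [Finset.sum_range_succ]
  have hlin : ∀ s t r : ℝ, s • f 0 + t • f 1 + r • f 2 = 0 → s = 0 ∧ t = 0 ∧ r = 0 := by
    intro s t r h
    have h1 := huniq _ (by
      filter_upwards [eventually_ge_atTop 3] with n hn
      exact (hsum3 s t r n hn).trans h)
    refine ⟨?_, ?_, ?_⟩
    · simpa using congrFun h1 0
    · simpa using congrFun h1 1
    · simpa using congrFun h1 2
  have hJf : ∀ i, JJ (g i) = f i := hg
  refine hno g ?_ ?_ ?_
  · rw [LinearIndependent.pair_iff]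
    intro s t hst
    have h2 := congrArg (fun z : E => JJ z) hst
    simp only [map_add, map_smul, hJf, map_zero] at h2
    have h3 := hlin s t 0 (by rw [zero_smul, add_zero]; exact h2)
    exact ⟨h3.1, h3.2.1⟩
  · intro h
    have h2 : f 2 = 0 := by rw [← hJf, h, map_zero]
    have h3 := hlin 0 0 1 (by rw [h2]; simp)
    exact one_ne_zero h3.2.2
  · intro s t α
    have h2 := hfm (fun i : ℕ => if i = 0 then s else if i = 1 then t else if i = 2 then α else 0) 2 3
      (by norm_num)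
    have e2 : ∑ i ∈ Finset.range 2, (fun i : ℕ => if i = 0 then s else if i = 1 then t else if i = 2 then α else 0) i • f i
        = JJ (s • g 0 + t • g 1) := by
      rw [map_add, map_smul, map_smul, hJf, hJf]
      simp [Finset.sum_range_succ]
    have e3 : ∑ i ∈ Finset.range 3, (fun i : ℕ => if i = 0 then s else if i = 1 then t else if i = 2 then α else 0) i • f i
        = JJ (s • g 0 + t • g 1 + α • g 2) := by
      rw [map_add, map_add, map_smul, map_smul, map_smul, hJf, hJf, hJf]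
      simp [Finset.sum_range_succ]
    rw [e2, e3, LinearIsometry.norm_map, LinearIsometry.norm_map] at h2
    exact h2

end generic

end

/-- The negation of the preceding statement: If a real infinite-dimensional Banach space has a monotone Schauder basis and F is an infinite-dimensional closed subspace that is the range of a projection of norm at most 1, then F has a monotone Schauder basis. -/
theorem result :
    ¬ (∀ (B : Type) [NormedAddCommGroup B] [NormedSpace ℝ B] [CompleteSpace B],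
    ¬ FiniteDimensional ℝ B →
    (∃ e : ℕ → B,
      (∀ x : B, ∃! a : ℕ → ℝ,
        Tendsto (fun n : ℕ => ∑ i ∈ Finset.range n, a i • e i) atTop (𝓝 x)) ∧
      (∀ (a : ℕ → ℝ) (n m : ℕ), n ≤ m →
        ‖∑ i ∈ Finset.range n, a i • e i‖ ≤ ‖∑ i ∈ Finset.range m, a i • e i‖)) →
    ∀ F : Submodule ℝ B, IsClosed (F : Set B) → ¬ FiniteDimensional ℝ F →
      (∃ P : B →L[ℝ] B, (∀ x : B, P x ∈ F) ∧ (∀ x ∈ F, P x = x) ∧ ‖P‖ ≤ 1) →
      ∃ f : ℕ → B, (∀ i : ℕ, f i ∈ F) ∧
        (∀ x ∈ F, ∃! a : ℕ → ℝ,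
          Tendsto (fun n : ℕ => ∑ i ∈ Finset.range n, a i • f i) atTop (𝓝 x)) ∧
        (∀ (a : ℕ → ℝ) (n m : ℕ), n ≤ m →
          ‖∑ i ∈ Finset.range n, a i • f i‖ ≤ ‖∑ i ∈ Finset.range m, a i • f i‖)) := by
  refine generic not_fd uu (fun k => ww_ne_zero _) SS SS_zero SS_succ SS_norm SS_tendsto ?_
  intro g hg01 hg2 hmono
  set G : Submodule ℝ ES := Submodule.span ℝ {g 0, g 1} with hG
  have h0 : g 0 ∈ G := Submodule.subset_span (by simp)
  have h1 : g 1 ∈ G := Submodule.subset_span (by simp)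
  refine no_strong G ⟨g 0, h0⟩ ⟨g 1, h1⟩ ?_ (g 2) hg2 ?_
  · rw [LinearIndependent.pair_iff] at hg01 ⊢
    intro s t hst
    apply hg01 s t
    have h2 := congrArg (fun z : G => (z : ES)) hst
    simpa using h2
  · intro z hz α
    obtain ⟨s, t, rfl⟩ := Submodule.mem_span_pair.mp hz
    exact hmono s t α

end Pool.Agent.S1796
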