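import Pool.Statements.S1832

set_option autoImplicit false
open Pool Pool.MP_df9bac_an

namespace Pool.Agent.S1832

def q : ℕ := 1024

lemma q_pos : 0 < q := by unfold q; norm_num

lemma q_even : Even q := by unfold q; decide

lemma qR : (q:ℝ) = 1024 := by unfold q; norm_num

noncomputable def pt (l i : ℕ) : ℝ := ((2 * i + 1 : ℕ) : ℝ) / ((2 * q^(2*l+1) : ℕ) : ℝ)

def isLev (l : ℕ) (t : ℝ) : Prop := ∃ i : ℕ, i < q^(2*l+1) ∧ t = pt l i

lemma lev_unique_aux {l l' : ℕ} {t : ℝ} (h : isLev l t) (h' : isLev l' t) (hl : l < l') : False := by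
  obtain ⟨i, hi, h1⟩ := h
  obtain ⟨j, hj, h2⟩ := h'
  rw [h1] at h2
  unfold pt at h2
  have q1 : 0 < q := q_pos
  rw [div_eq_div_iff (by positivity) (by positivity)] at h2
  have h3 : (2 * i + 1) * (2 * q^(2*l'+1)) = (2 * j + 1) * (2 * q^(2*l+1)) := by exact_mod_cast h2
  have h4 : q^(2*l'+1) = q^(2*l+1) * q^(2*(l'-l)) := by
    rw [← pow_add]; congr 1; omega
  rw [h4] at h3
  have h5 : 0 < 2 * q^(2*l+1) := by positivity
  have h6 : (2 * i + 1) * q^(2*(l'-l)) = 2 * j + 1 := by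
    apply Nat.eq_of_mul_eq_mul_right h5
    rw [← h3]; ring
  have h7 : Even (q^(2*(l'-l))) := q_even.pow_of_ne_zero (by omega)
  have h8 : Even (2 * j + 1) := by rw [← h6]; exact h7.mul_left _
  rw [Nat.even_add_one] at h8
  exact h8 (even_two_mul j)

lemma lev_unique {l l' : ℕ} {t : ℝ} (h : isLev l t) (h' : isLev l' t) : l = l' := by
  rcases lt_trichotomy l l' with h1 | h1 | h1
  · exact (lev_unique_aux h h' h1).elim
  · exact h1
  · exact (lev_unique_aux h' h h1).elim

lemma isLev_pt {l i : ℕ} (hi : i < q^(2*l+1)) : isLev l (pt l i) := ⟨i, hi, rfl⟩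

def ltL (n : ℕ) (t : ℝ) : Prop := ∃ l, l < n ∧ isLev l t
def geL (n : ℕ) (t : ℝ) : Prop := ∃ l, n ≤ l ∧ isLev l t
def gb (t : ℝ) : Prop := ¬ ∃ l, isLev l t
def oddL (t : ℝ) : Prop := ∃ l, Odd l ∧ isLev l t

abbrev ι := ℕ × Finset ℕ

def iu : ι := (0, {5})
def ig : ι := (0, {6})

open Classical in
/-- coordinates -/
noncomputable def Fv (t : ℝ) (z : ι) : ℝ :=
  if z = iu then (if oddL t then 1 else 0)
  else if z = ig then (if gb t then 1 else 0)
  else if z.2 ⊆ Finset.range (q^(2*z.1)) ∧ geL z.1 t then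
    (if ⌊((q:ℝ)^(2*z.1)) * t⌋₊ ∈ z.2 then 1 else 0) - (z.2.card : ℝ) / (q:ℝ)^(2*z.1)
  else 0

lemma Fv_bound (t : ℝ) (z : ι) : |Fv t z| ≤ 1 := by
  unfold Fv
  split_ifs with h1 h2 h3 h4 h5 h6
  · simp
  · simp
  · simp
  · simp
  · have hc : z.2.card ≤ q^(2*z.1) := by
      have := Finset.card_le_card h5.1
      rwa [Finset.card_range] at this
    have hq : (0:ℝ) < (q:ℝ)^(2*z.1) := by
      have : (0:ℝ) < q := by rw [qR]; norm_num
      positivity
    have hc' : (z.2.card : ℝ) / (q:ℝ)^(2*z.1) ≤ 1 := by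
      rw [div_le_one hq]
      exact_mod_cast hc
    have hc0 : (0:ℝ) ≤ (z.2.card : ℝ) / (q:ℝ)^(2*z.1) := by positivity
    rw [abs_le]; constructor <;> linarith
  · have hc : z.2.card ≤ q^(2*z.1) := by
      have := Finset.card_le_card h5.1
      rwa [Finset.card_range] at this
    have hq : (0:ℝ) < (q:ℝ)^(2*z.1) := by
      have : (0:ℝ) < q := by rw [qR]; norm_num
      positivity
    have hc' : (z.2.card : ℝ) / (q:ℝ)^(2*z.1) ≤ 1 := by
      rw [div_le_one hq]
      exact_mod_cast hc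
    have hc0 : (0:ℝ) ≤ (z.2.card : ℝ) / (q:ℝ)^(2*z.1) := by positivity
    rw [abs_le]; constructor <;> linarith
  · simp

lemma Fv_supp (t : ℝ) : {z : ι | Fv t z ≠ 0}.Finite := by
  by_cases hl : ∃ l, isLev l t
  · obtain ⟨l, hl⟩ := hl
    have hfin : (↑({iu, ig} ∪ ((Finset.range (l+1)).biUnion fun n =>
        (Finset.range (q^(2*n))).powerset.image fun S => (n, S)) : Finset ι) : Set ι).Finite := Finset.finite_toSet _
    apply hfin.subset
    intro z hz
    by_contra hcon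
    apply hz
    simp only [Finset.coe_union, Set.mem_union, Finset.mem_coe, Finset.mem_insert, Finset.mem_singleton,
      Finset.mem_biUnion, Finset.mem_image, Finset.mem_range, Finset.mem_powerset, not_or, not_exists, not_and] at hcon
    obtain ⟨⟨h1, h2⟩, h3⟩ := hcon
    unfold Fv
    rw [if_neg h1, if_neg h2, if_neg]
    rintro ⟨h4, l', hl', h5⟩
    have : l' = l := lev_unique h5 hl
    exact h3 z.1 (by omega) z.2 h4 rfl
  · apply Set.Finite.subset (s := {iu, ig}) (by simp)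
    intro z hz
    by_contra hcon
    apply hz
    simp only [Set.mem_insert_iff, Set.mem_singleton_iff, not_or] at hcon
    unfold Fv
    rw [if_neg hcon.1, if_neg hcon.2, if_neg]
    rintro ⟨_, l', _, h5⟩
    exact hl ⟨l', h5⟩

noncomputable def e : ι ≃ ℕ := Denumerable.eqv ι

/-- elements of c_0 from finitely supported functions on ι -/
noncomputable def mk (g : ι → ℝ) (hg : {z : ι | g z ≠ 0}.Finite) : ZeroAtInftyContinuousMap ℕ ℝ where
  toFun m := g (e.symm m)
  continuous_toFun := continuous_of_discreteTopology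
  zero_at_infty' := by
    rw [Filter.cocompact_eq_cofinite]
    apply tendsto_const_nhds.congr'
    have h1 : {m : ℕ | g (e.symm m) ≠ 0}.Finite :=
      hg.preimage (e.symm.injective.injOn)
    have h2 : {m : ℕ | g (e.symm m) ≠ 0}ᶜ ∈ Filter.cofinite := h1.compl_mem_cofinite
    filter_upwards [h2] with m hm
    simp only [Set.mem_compl_iff, Set.mem_ofPred_eq, not_not] at hm
    exact hm.symm

lemma mk_apply (g : ι → ℝ) (hg : {z : ι | g z ≠ 0}.Finite) (z : ι) :
    mk g hg (e z) = g z := by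
  show g (e.symm (e z)) = g z
  rw [Equiv.symm_apply_apply]

lemma ext_enc {g h : ZeroAtInftyContinuousMap ℕ ℝ} (H : ∀ z : ι, g (e z) = h (e z)) :
    g = h := by
  ext m
  have := H (e.symm m)
  rwa [Equiv.apply_symm_apply] at this

noncomputable def f (t : ℝ) : ZeroAtInftyContinuousMap ℕ ℝ := mk (Fv t) (Fv_supp t)

lemma f_bound (t : ℝ) : ‖f t‖ ≤ 1 := by
  rw [← ZeroAtInftyContinuousMap.norm_toBCF_eq_norm, BoundedContinuousFunction.norm_le (by norm_num)]
  intro m
  exact Fv_bound t _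

/-- evaluation -/
noncomputable def evl (m : ℕ) : ZeroAtInftyContinuousMap ℕ ℝ →+ ℝ where
  toFun g := g m
  map_zero' := rfl
  map_add' _ _ := rfl

lemma abs_eval_le (g : ZeroAtInftyContinuousMap ℕ ℝ) (m : ℕ) : |g m| ≤ ‖g‖ := by
  rw [← ZeroAtInftyContinuousMap.norm_toBCF_eq_norm]
  exact BoundedContinuousFunction.norm_coe_le_norm g.toBCF m

lemma riemann_apply (p : ℕ) (w t : ℕ → ℝ) (z : ι) :
    (∑ i ∈ Finset.range p, w i • f (t i)) (e z) = ∑ i ∈ Finset.range p, w i * Fv (t i) z := by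
  have h := map_sum (evl (e z)) (fun i => w i • f (t i)) (Finset.range p)
  refine h.trans ?_
  apply Finset.sum_congr rfl
  intro i _
  show w i * (f (t i)) (e z) = _
  rw [f, mk_apply]

/-! ### counting -/

section count
variable (p : ℕ) (x t : ℕ → ℝ) (hx0 : x 0 = 0) (hxp : x p = 1) (hx : ∀ i, i < p → x i < x (i+1))
  (ht : ∀ i, i < p → x i ≤ t i ∧ t i ≤ x (i+1))

include hx in
lemma x_mono {i j : ℕ} (hij : i ≤ j) (hj : j ≤ p) : x i ≤ x j := by
  induction j, hij using Nat.le_induction with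
  | base => exact le_refl _
  | succ j hij ih => exact (ih (by omega)).trans (hx j (by omega)).le

/-- points of level less than n -/
noncomputable def Dl (n : ℕ) : Finset ℝ :=
  (Finset.range n).biUnion fun l => (Finset.range (q^(2*l+1))).image (pt l)

lemma card_Dl (n : ℕ) : 512 * (Dl n).card ≤ q^(2*n) := by
  have h1 : (Dl n).card ≤ ∑ l ∈ Finset.range n, q^(2*l+1) := by
    refine Finset.card_biUnion_le.trans (Finset.sum_le_sum fun l _ => ?_)
    exact Finset.card_image_le.trans (by rw [Finset.card_range])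
  refine (Nat.mul_le_mul_left 512 h1).trans ?_
  clear h1
  induction n with
  | zero => simp
  | succ n ih =>
    rw [Finset.sum_range_succ, mul_add]
    have h2 : q^(2*(n+1)) = q^(2*n) * (1024 * 1024) := by
      rw [show 2*(n+1) = 2*n + 2 by ring, pow_add]; rfl
    have h3 : q^(2*n+1) = q^(2*n) * 1024 := by rw [pow_succ]; rfl
    rw [h2, h3]
    have h4 : 0 < q^(2*n) := by have := q_pos; positivity
    omega

lemma mem_Dl {n : ℕ} {y : ℝ} (h : ltL n y) : y ∈ Dl n := by
  obtain ⟨l, hl, i, hi, rfl⟩ := h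
  simp only [Dl, Finset.mem_biUnion, Finset.mem_image, Finset.mem_range]
  exact ⟨l, hl, i, hi, rfl⟩

open Classical in
/-- indices with tags of level less than n -/
noncomputable def Ind (n : ℕ) : Finset ℕ := (Finset.range p).filter (fun i => ltL n (t i))

include hx ht in
open Classical in
lemma card_Ind (n : ℕ) : (Ind p t n).card ≤ 2 * (Dl n).card := by
  have h1 : (Ind p t n).card ≤ ((Dl n) ×ˢ (Finset.range 2)).card := by
    apply Finset.card_le_card_of_injOn (fun i => (t i, i % 2))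
    · intro i hi
      have hi' : i ∈ Ind p t n := hi
      unfold Ind at hi'
      rw [Finset.mem_filter] at hi'
      show (t i, i % 2) ∈ (Dl n ×ˢ Finset.range 2)
      rw [Finset.mem_product]
      exact ⟨mem_Dl hi'.2, by simp; omega⟩
    · intro i hi j hj hij
      have hi' : i ∈ Ind p t n := hi
      have hj' : j ∈ Ind p t n := hj
      unfold Ind at hi' hj'
      rw [Finset.mem_filter, Finset.mem_range] at hi' hj'
      simp only [Prod.mk.injEq] at hij
      by_contra hne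
      have key : ∀ a b : ℕ, a < p → b < p → a < b → a % 2 = b % 2 → t a = t b → False := by
        intro a b ha hb hab hpar htt
        have h2 : a + 2 ≤ b := by omega
        have h3 := (ht a ha).2
        have h4 := hx (a+1) (by omega)
        have h5 := x_mono p x hx h2 hb.le
        have h6 := (ht b hb).1
        linarith
      rcases lt_or_gt_of_ne hne with h | h
      · exact key i j hi'.1 hj'.1 h hij.2 hij.1
      · exact key j i hj'.1 hi'.1 h hij.2.symm hij.1.symm
  rw [Finset.card_product, Finset.card_range] at h1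
  omega


/-- cells inside the i-th interval -/
noncomputable def J (n i : ℕ) : Finset ℕ :=
  Finset.Ico (⌊(q:ℝ)^(2*n) * x i⌋₊ + 1) (⌊(q:ℝ)^(2*n) * x (i+1)⌋₊)

include hx0 hx hxp ht in
open Classical in
lemma key_count (n : ℕ) : ∃ S : Finset ℕ, S ⊆ Finset.range (q^(2*n)) ∧
    (∀ i, i < p → geL n (t i) → ⌊(q:ℝ)^(2*n) * t i⌋₊ ∉ S) ∧
    (q:ℝ)^(2*n) * (∑ i ∈ Ind p t n, (x (i+1) - x i) - 1/128) ≤ S.card := by
  have hL : (0:ℝ) < (q:ℝ)^(2*n) := by
    have : (0:ℝ) < q := by rw [qR]; norm_num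
    positivity
  have hxnn : ∀ i, i ≤ p → 0 ≤ x i := by
    intro i hi
    have := x_mono p x hx (Nat.zero_le i) hi
    rwa [hx0] at this
  have hx1 : ∀ i, i ≤ p → x i ≤ 1 := by
    intro i hi
    have := x_mono p x hx hi (le_refl p)
    rwa [hxp] at this
  refine ⟨(Ind p t n).biUnion (J x n), ?_, ?_, ?_⟩
  · intro j hj
    rw [Finset.mem_biUnion] at hj
    obtain ⟨i, hi, hj⟩ := hj
    unfold Ind at hi
    rw [Finset.mem_filter, Finset.mem_range] at hi
    unfold J at hj
    rw [Finset.mem_Ico] at hj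
    rw [Finset.mem_range]
    have h1 : (⌊(q:ℝ)^(2*n) * x (i+1)⌋₊ : ℝ) ≤ (q:ℝ)^(2*n) * x (i+1) :=
      Nat.floor_le (mul_nonneg hL.le (hxnn _ (by omega)))
    have h2 : (q:ℝ)^(2*n) * x (i+1) ≤ (q:ℝ)^(2*n) * 1 := mul_le_mul_of_nonneg_left (hx1 _ (by omega)) hL.le
    have h3 : ((⌊(q:ℝ)^(2*n) * x (i+1)⌋₊ : ℕ) : ℝ) ≤ ((q^(2*n) : ℕ) : ℝ) := by push_cast; linarith
    have h4 : ⌊(q:ℝ)^(2*n) * x (i+1)⌋₊ ≤ q^(2*n) := by exact_mod_cast h3
    omega
  · intro i' hi' hge hmem
    rw [Finset.mem_biUnion] at hmem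
    obtain ⟨i, hi, hj⟩ := hmem
    unfold Ind at hi
    rw [Finset.mem_filter, Finset.mem_range] at hi
    unfold J at hj
    rw [Finset.mem_Ico] at hj
    have ht0 : 0 ≤ t i' := (hxnn _ hi'.le).trans (ht i' hi').1
    -- t i' > x i
    have h1 : x i < t i' := by
      have a1 : (q:ℝ)^(2*n) * x i < (⌊(q:ℝ)^(2*n) * x i⌋₊ : ℝ) + 1 := Nat.lt_floor_add_one _
      have a2 : ((⌊(q:ℝ)^(2*n) * x i⌋₊ + 1 : ℕ) : ℝ) ≤ (⌊(q:ℝ)^(2*n) * t i'⌋₊ : ℝ) := by exact_mod_cast hj.1
      have a3 : (⌊(q:ℝ)^(2*n) * t i'⌋₊ : ℝ) ≤ (q:ℝ)^(2*n) * t i' := Nat.floor_le (mul_nonneg hL.le ht0)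
      push_cast at a2
      have a4 : (q:ℝ)^(2*n) * x i < (q:ℝ)^(2*n) * t i' := by linarith
      exact lt_of_mul_lt_mul_left a4 hL.le
    have h2 : t i' < x (i+1) := by
      have a1 : (q:ℝ)^(2*n) * t i' < (⌊(q:ℝ)^(2*n) * t i'⌋₊ : ℝ) + 1 := Nat.lt_floor_add_one _
      have a2 : ((⌊(q:ℝ)^(2*n) * t i'⌋₊ + 1 : ℕ) : ℝ) ≤ (⌊(q:ℝ)^(2*n) * x (i+1)⌋₊ : ℝ) := by exact_mod_cast hj.2
      have a3 : (⌊(q:ℝ)^(2*n) * x (i+1)⌋₊ : ℝ) ≤ (q:ℝ)^(2*n) * x (i+1) :=
        Nat.floor_le (mul_nonneg hL.le (hxnn _ (by omega)))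
      push_cast at a2
      have a4 : (q:ℝ)^(2*n) * t i' < (q:ℝ)^(2*n) * x (i+1) := by linarith
      exact lt_of_mul_lt_mul_left a4 hL.le
    have hii : i' = i := by
      rcases lt_trichotomy i' i with h | h | h
      · have b1 := (ht i' hi').2
        have b2 := x_mono p x hx (show i' + 1 ≤ i by omega) (by omega)
        linarith
      · exact h
      · have b1 := (ht i' hi').1
        have b2 := x_mono p x hx (show i + 1 ≤ i' by omega) (by omega)
        linarith
    subst hii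
    obtain ⟨l, hl, hl1⟩ := hge
    obtain ⟨l', hl', hl1'⟩ := hi.2
    have := lev_unique hl1 hl1'
    omega
  · rw [Finset.card_biUnion]
    · have h1 : ∀ i ∈ Ind p t n, (q:ℝ)^(2*n) * (x (i+1) - x i) - 2 ≤ ((J x n i).card : ℝ) := by
        intro i hi
        unfold Ind at hi
        rw [Finset.mem_filter, Finset.mem_range] at hi
        unfold J
        rw [Nat.card_Ico]
        have a1 : (q:ℝ)^(2*n) * x (i+1) < (⌊(q:ℝ)^(2*n) * x (i+1)⌋₊ : ℝ) + 1 := Nat.lt_floor_add_one _
        have a2 : (⌊(q:ℝ)^(2*n) * x i⌋₊ : ℝ) ≤ (q:ℝ)^(2*n) * x i :=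
          Nat.floor_le (mul_nonneg hL.le (hxnn _ (by omega)))
        have a3 : (⌊(q:ℝ)^(2*n) * x (i+1)⌋₊ : ℝ) ≤
            ((⌊(q:ℝ)^(2*n) * x (i+1)⌋₊ - (⌊(q:ℝ)^(2*n) * x i⌋₊ + 1) : ℕ) : ℝ) + (⌊(q:ℝ)^(2*n) * x i⌋₊ + 1) := by
          have : ⌊(q:ℝ)^(2*n) * x (i+1)⌋₊ ≤
            (⌊(q:ℝ)^(2*n) * x (i+1)⌋₊ - (⌊(q:ℝ)^(2*n) * x i⌋₊ + 1)) + (⌊(q:ℝ)^(2*n) * x i⌋₊ + 1) := by omega
          exact_mod_cast this
        linarith
      have h2 := Finset.sum_le_sum h1
      rw [Finset.sum_sub_distrib, ← Finset.mul_sum, Finset.sum_const, nsmul_eq_mul] at h2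
      have h3 : ((Ind p t n).card : ℝ) ≤ 2 * ((Dl n).card : ℝ) := by exact_mod_cast card_Ind p x t hx ht n
      have h4 : 512 * ((Dl n).card : ℝ) ≤ (q:ℝ)^(2*n) := by exact_mod_cast card_Dl n
      push_cast
      linarith
    · intro i hi j hj hij
      have hi' : i ∈ Ind p t n := hi
      have hj' : j ∈ Ind p t n := hj
      unfold Ind at hi' hj'
      rw [Finset.mem_filter, Finset.mem_range] at hi' hj'
      show Disjoint (J x n i) (J x n j)
      rw [Finset.disjoint_left]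
      have key : ∀ a b : ℕ, a < p → b < p → a < b → ∀ m, m ∈ J x n a → m ∈ J x n b → False := by
        intro a b ha hb hab m h1 h2
        unfold J at h1 h2
        rw [Finset.mem_Ico] at h1 h2
        have h3 : ⌊(q:ℝ)^(2*n) * x (a+1)⌋₊ ≤ ⌊(q:ℝ)^(2*n) * x b⌋₊ := by
          apply Nat.floor_le_floor
          exact mul_le_mul_of_nonneg_left (x_mono p x hx (by omega) hb.le) hL.le
        omega
      intro m h1 h2
      rcases lt_or_gt_of_ne hij with h | h
      · exact key i j hi'.1 hj'.1 h m h1 h2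
      · exact key j i hj'.1 hi'.1 h m h2 h1

open Classical in
/-- mass of tags with a property -/
noncomputable def mass (P : ℝ → Prop) : ℝ := ∑ i ∈ Finset.range p, (x (i+1) - x i) * (if P (t i) then 1 else 0)

include hx0 hx hxp ht in
open Classical in
/-- the main dichotomy estimate -/
lemma main_est (hR : ∀ z : ι, |∑ i ∈ Finset.range p, (x (i+1) - x i) * Fv (t i) z - (if z = iu then 1/2 else 0)| ≤ 1/100) :
    False := by
  have hw : ∀ i ∈ Finset.range p, 0 ≤ x (i+1) - x i := by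
    intro i hi
    have := hx i (Finset.mem_range.mp hi)
    linarith
  have htot : ∑ i ∈ Finset.range p, (x (i+1) - x i) = 1 := by
    rw [Finset.sum_range_sub, hxp, hx0, sub_zero]
  have hadd : ∀ n, mass p x t (ltL n) + mass p x t (geL n) + mass p x t gb = 1 := by
    intro n
    unfold mass
    rw [← Finset.sum_add_distrib, ← Finset.sum_add_distrib]
    refine Eq.trans ?_ htot
    apply Finset.sum_congr rfl
    intro i _
    rw [← mul_add, ← mul_add]
    have : ((if ltL n (t i) then (1:ℝ) else 0) + (if geL n (t i) then 1 else 0) + (if gb (t i) then 1 else 0)) = 1 := by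
      by_cases hl : ∃ l, isLev l (t i)
      · have hg : ¬ gb (t i) := fun h => h hl
        obtain ⟨l, hl⟩ := hl
        rw [if_neg hg]
        by_cases hn : l < n
        · have h1 : ltL n (t i) := ⟨l, hn, hl⟩
          have h2 : ¬ geL n (t i) := by
            rintro ⟨l', hl', h3⟩
            have := lev_unique hl h3
            omega
          rw [if_pos h1, if_neg h2]; norm_num
        · have h1 : ¬ ltL n (t i) := by
            rintro ⟨l', hl', h3⟩
            have := lev_unique hl h3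
            omega
          have h2 : geL n (t i) := ⟨l, by omega, hl⟩
          rw [if_neg h1, if_pos h2]; norm_num
      · have hg : gb (t i) := hl
        have h1 : ¬ ltL n (t i) := by
          rintro ⟨l', hl', h3⟩
          exact hl ⟨l', h3⟩
        have h2 : ¬ geL n (t i) := by
          rintro ⟨l', hl', h3⟩
          exact hl ⟨l', h3⟩
        rw [if_pos hg, if_neg h1, if_neg h2]; norm_num
    rw [this, mul_one]
  have hmono : ∀ P Q : ℝ → Prop, (∀ y, P y → Q y) → mass p x t P ≤ mass p x t Q := by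
    intro P Q hPQ
    unfold mass
    apply Finset.sum_le_sum
    intro i hi
    apply mul_le_mul_of_nonneg_left _ (hw i hi)
    by_cases h : P (t i)
    · rw [if_pos h, if_pos (hPQ _ h)]
    · rw [if_neg h]; split_ifs <;> norm_num
  have hsplit : ∀ P Q S : ℝ → Prop, (∀ y, P y → Q y ∨ S y) → mass p x t P ≤ mass p x t Q + mass p x t S := by
    intro P Q S hPQ
    unfold mass
    rw [← Finset.sum_add_distrib]
    apply Finset.sum_le_sum
    intro i hi
    rw [← mul_add]
    apply mul_le_mul_of_nonneg_left _ (hw i hi)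
    by_cases h : P (t i)
    · rw [if_pos h]
      rcases hPQ _ h with h1 | h1
      · rw [if_pos h1]; split_ifs <;> norm_num
      · rw [if_pos h1]; split_ifs <;> norm_num
    · rw [if_neg h]; split_ifs <;> norm_num
  -- Riemann sums at the coordinates
  have hU : |mass p x t oddL - 1/2| ≤ 1/100 := by
    have := hR iu
    rw [if_pos rfl] at this
    convert this using 3
    unfold mass
    apply Finset.sum_congr rfl
    intro i _
    unfold Fv
    rw [if_pos rfl]
  have hG : |mass p x t gb| ≤ 1/100 := by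
    have := hR ig
    have hne : ig ≠ iu := by
      unfold ig iu
      intro h
      simp at h
    rw [if_neg hne, sub_zero] at this
    convert this using 2
    unfold mass
    apply Finset.sum_congr rfl
    intro i _
    unfold Fv
    rw [if_neg hne, if_pos rfl]
  have hcoord : ∀ n, (mass p x t (ltL n) - 1/128) * mass p x t (geL n) ≤ 1/100 := by
    intro n
    obtain ⟨S, hS1, hS2, hS3⟩ := key_count p x t hx0 hxp hx ht n
    have hL : (0:ℝ) < (q:ℝ)^(2*n) := by
      have : (0:ℝ) < q := by rw [qR]; norm_num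
      positivity
    have hIm : ∑ i ∈ Ind p t n, (x (i+1) - x i) = mass p x t (ltL n) := by
      unfold mass Ind
      rw [Finset.sum_filter]
      apply Finset.sum_congr rfl
      intro i _
      split_ifs <;> ring
    rw [hIm] at hS3
    have hne : ∀ m : ℕ, 0 < m → ((n, S) : ι) ≠ (0, {m}) := by
      intro m hm h
      rw [Prod.mk.injEq] at h
      obtain ⟨h1, h2⟩ := h
      rw [h1, h2] at hS1
      simp at hS1
      omega
    have h1 := hR (n, S)
    have hneu : ((n, S) : ι) ≠ iu := hne 5 (by norm_num)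
    have hneg : ((n, S) : ι) ≠ ig := hne 6 (by norm_num)
    rw [if_neg hneu, sub_zero] at h1
    have h2 : ∑ i ∈ Finset.range p, (x (i+1) - x i) * Fv (t i) (n, S) =
        - ((S.card : ℝ) / (q:ℝ)^(2*n)) * mass p x t (geL n) := by
      unfold mass
      rw [Finset.mul_sum]
      apply Finset.sum_congr rfl
      intro i hi
      unfold Fv
      rw [if_neg hneu, if_neg hneg]
      simp only
      by_cases hg : geL n (t i)
      · rw [if_pos ⟨hS1, hg⟩, if_pos hg, if_neg (hS2 i (Finset.mem_range.mp hi) hg)]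
        ring
      · rw [if_neg (fun h => hg h.2), if_neg hg]
        ring
    rw [h2] at h1
    have hMn : 0 ≤ mass p x t (geL n) := by
      unfold mass
      apply Finset.sum_nonneg
      intro i hi
      apply mul_nonneg (hw i hi)
      split_ifs <;> norm_num
    have h3 : mass p x t (ltL n) - 1/128 ≤ (S.card : ℝ) / (q:ℝ)^(2*n) := by
      rw [le_div_iff₀ hL]
      linarith
    have h4 := mul_le_mul_of_nonneg_right h3 hMn
    have h5 := abs_le.mp h1
    linarith [h5.1]
  -- find the jump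
  have hbig : ∃ n, 1/2 < mass p x t (ltL n) := by
    have hN : ∀ i, ∃ N, ∀ n, N ≤ n → ¬ geL n (t i) := by
      intro i
      by_cases hl : ∃ l, isLev l (t i)
      · obtain ⟨l, hl⟩ := hl
        refine ⟨l+1, ?_⟩
        rintro n hn ⟨l', hl', h3⟩
        have := lev_unique hl h3
        omega
      · refine ⟨0, ?_⟩
        rintro n hn ⟨l', hl', h3⟩
        exact hl ⟨l', h3⟩
    choose N hN using hN
    refine ⟨(Finset.range p).sup N, ?_⟩
    have h0 : mass p x t (geL ((Finset.range p).sup N)) = 0 := by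
      unfold mass
      apply Finset.sum_eq_zero
      intro i hi
      rw [if_neg (hN i _ (Finset.le_sup hi)), mul_zero]
    have h1 := hadd ((Finset.range p).sup N)
    have h2 := abs_le.mp hG
    linarith [h2.2]
  have h0 : mass p x t (ltL 0) = 0 := by
    unfold mass
    apply Finset.sum_eq_zero
    intro i hi
    rw [if_neg, mul_zero]
    rintro ⟨l, hl, _⟩
    omega
  obtain ⟨n, hn1, hn2⟩ : ∃ n, mass p x t (ltL n) ≤ 1/2 ∧ 1/2 < mass p x t (ltL (n+1)) := by
    have hfind := Nat.find_spec hbig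
    have hmin := fun m (hm : m < Nat.find hbig) => Nat.find_min hbig hm
    rcases hc : Nat.find hbig with _ | n
    · rw [hc, h0] at hfind; norm_num at hfind
    · refine ⟨n, ?_, ?_⟩
      · exact not_lt.mp (hmin n (by omega))
      · rw [hc] at hfind; exact hfind
  have hGb := abs_le.mp hG
  have hUb := abs_le.mp hU
  have a1 := hadd n
  have a2 := hadd (n+1)
  have a3 := hcoord n
  have a4 := hcoord (n+1)
  have b1 : mass p x t (ltL n) ≤ 3/100 := by
    by_contra hcon
    push Not at hcon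
    have h1 : 49/100 ≤ mass p x t (geL n) := by linarith [hGb.2]
    nlinarith
  have b2 : mass p x t (geL (n+1)) ≤ 3/100 := by
    by_contra hcon
    push Not at hcon
    nlinarith
  rcases Nat.even_or_odd n with he | ho
  · have h1 := hsplit oddL (ltL n) (geL (n+1)) (by
      rintro y ⟨l, hl, hy⟩
      rcases lt_or_ge l n with h | h
      · left; exact ⟨l, h, hy⟩
      · right
        refine ⟨l, ?_, hy⟩
        rcases h.lt_or_eq with h' | h'
        · exact h'
        · exfalso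
          rw [← h'] at hl
          exact (Nat.not_odd_iff_even.mpr he) hl)
    linarith [hUb.1]
  · have h1 := hmono (isLev n) oddL (fun y hy => ⟨n, ho, hy⟩)
    have h2 := hsplit (ltL (n+1)) (ltL n) (isLev n) (by
      rintro y ⟨l, hl, hy⟩
      rcases Nat.lt_succ_iff_lt_or_eq.mp hl with h | h
      · left; exact ⟨l, h, hy⟩
      · right; rw [← h]; exact hy)
    linarith [hUb.2, hGb.2]

end count


lemma sum_div (g : ℕ → ℝ) (K : ℕ) (hK : 0 < K) (A : ℕ) :
    ∑ i ∈ Finset.range (A * K), g (i / K) = K * ∑ a ∈ Finset.range A, g a := by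
  induction A with
  | zero => simp
  | succ A ih =>
    rw [add_mul, one_mul, Finset.sum_range_add, ih, Finset.sum_range_succ, mul_add]
    congr 1
    have : ∀ j ∈ Finset.range K, g ((A * K + j) / K) = g A := by
      intro j hj
      congr 1
      rw [Nat.mul_comm, Nat.mul_add_div hK, Nat.div_eq_of_lt (Finset.mem_range.mp hj), add_zero]
    rw [Finset.sum_congr rfl this, Finset.sum_const, Finset.card_range, nsmul_eq_mul]

lemma floor_pt (l n i : ℕ) (hn : n ≤ l) : ⌊(q:ℝ)^(2*n) * pt l i⌋₊ = i / q^(2*(l-n)+1) := by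
  have q1 : 0 < q := q_pos
  have hq : (0:ℝ) < q := by exact_mod_cast q1
  have h1 : (q:ℝ)^(2*n) * pt l i = ((2*i+1 : ℕ):ℝ) / ((2 * q^(2*(l-n)+1) : ℕ) : ℝ) := by
    unfold pt
    have h2 : q^(2*l+1) = q^(2*n) * q^(2*(l-n)+1) := by
      rw [← pow_add]; congr 1; omega
    rw [h2]
    push_cast
    field_simp
  rw [h1, Nat.floor_div_eq_div, ← Nat.div_div_eq_div_mul]
  congr 1
  omega

open Classical in
noncomputable def U0 : ZeroAtInftyContinuousMap ℕ ℝ := mk (fun z => if z = iu then 1 else 0)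
  (by
    apply Set.Finite.subset (s := {iu}) (by simp)
    intro z hz
    by_contra hcon
    apply hz
    have hcon' : z ≠ iu := hcon
    rw [if_neg hcon'])

open Classical in
lemma single (l : ℕ) : ∑ i ∈ Finset.range (q^(2*l+1)),
    ((((i+1 : ℕ):ℝ) / ((q^(2*l+1) : ℕ):ℝ)) - ((i:ℕ):ℝ) / ((q^(2*l+1) : ℕ):ℝ)) • f (pt l i) = if Odd l then U0 else 0 := by
  have q1 : 0 < q := q_pos
  have hq : (0:ℝ) < q := by exact_mod_cast q1
  have hN : (0:ℝ) < ((q^(2*l+1) : ℕ):ℝ) := by positivity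
  have hw : ∀ i : ℕ, (((i+1 : ℕ):ℝ) / ((q^(2*l+1) : ℕ):ℝ)) - ((i:ℕ):ℝ) / ((q^(2*l+1) : ℕ):ℝ) = 1 / ((q^(2*l+1) : ℕ):ℝ) := by
    intro i
    rw [← sub_div]; push_cast; ring
  simp only [hw]
  apply ext_enc
  intro z
  rw [riemann_apply (q^(2*l+1)) (fun _ => 1 / ((q^(2*l+1) : ℕ):ℝ)) (pt l) z]
  have hRHS : (if Odd l then U0 else 0) (e z) = if Odd l then (if z = iu then (1:ℝ) else 0) else 0 := by
    split_ifs with h1 h2 h2
    · rw [U0, mk_apply, if_pos h2]
    · rw [U0, mk_apply, if_neg h2]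
    · rfl
  rw [hRHS]
  by_cases hz1 : z = iu
  · rw [if_pos hz1]
    by_cases ho : Odd l
    · have h1 : ∀ i ∈ Finset.range (q^(2*l+1)), (1 / ((q^(2*l+1) : ℕ):ℝ)) * Fv (pt l i) z = 1 / ((q^(2*l+1) : ℕ):ℝ) := by
        intro i hi
        unfold Fv
        rw [if_pos hz1, if_pos ⟨l, ho, isLev_pt (Finset.mem_range.mp hi)⟩, mul_one]
      rw [Finset.sum_congr rfl h1, if_pos ho, Finset.sum_const, Finset.card_range, nsmul_eq_mul]
      exact mul_one_div_cancel hN.ne'
    · rw [if_neg ho]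
      apply Finset.sum_eq_zero
      intro i hi
      unfold Fv
      rw [if_pos hz1, if_neg, mul_zero]
      rintro ⟨l', ho', hl'⟩
      have := lev_unique hl' (isLev_pt (Finset.mem_range.mp hi))
      rw [this] at ho'
      exact ho ho'
  · rw [if_neg hz1]
    have hR0 : (if Odd l then (0:ℝ) else 0) = 0 := by split_ifs <;> rfl
    rw [hR0]
    by_cases hz2 : z = ig
    · apply Finset.sum_eq_zero
      intro i hi
      unfold Fv
      rw [if_neg hz1, if_pos hz2, if_neg, mul_zero]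
      intro hg
      exact hg ⟨l, isLev_pt (Finset.mem_range.mp hi)⟩
    · by_cases hc : z.2 ⊆ Finset.range (q^(2*z.1)) ∧ z.1 ≤ l
      · obtain ⟨hS, hn⟩ := hc
        have h1 : ∀ i ∈ Finset.range (q^(2*l+1)), (1 / ((q^(2*l+1) : ℕ):ℝ)) * Fv (pt l i) z =
            (fun a : ℕ => (1 / ((q^(2*l+1) : ℕ):ℝ)) * ((if a ∈ z.2 then 1 else 0) - (z.2.card:ℝ) / (q:ℝ)^(2*z.1)))
              (i / q^(2*(l-z.1)+1)) := by
          intro i hi
          unfold Fv
          rw [if_neg hz1, if_neg hz2, if_pos ⟨hS, l, hn, isLev_pt (Finset.mem_range.mp hi)⟩, floor_pt l z.1 i hn]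
        rw [Finset.sum_congr rfl h1]
        have h2 : q^(2*l+1) = q^(2*z.1) * q^(2*(l-z.1)+1) := by
          rw [← pow_add]; congr 1; omega
        rw [h2, sum_div (fun a : ℕ => (1 / ((q^(2*z.1) * q^(2*(l-z.1)+1) : ℕ):ℝ)) * ((if a ∈ z.2 then 1 else 0) -
          (z.2.card:ℝ) / (q:ℝ)^(2*z.1))) (q^(2*(l-z.1)+1)) (by positivity) (q^(2*z.1))]
        have h3 : ∑ a ∈ Finset.range (q^(2*z.1)), (if a ∈ z.2 then (1:ℝ) else 0) = z.2.card := by
          rw [Finset.sum_boole]
          congr 2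
          ext a
          simp only [Finset.mem_filter]
          exact ⟨fun h => h.2, fun h => ⟨hS h, h⟩⟩
        rw [← Finset.mul_sum, Finset.sum_sub_distrib, h3, Finset.sum_const, Finset.card_range, nsmul_eq_mul]
        have h4 : (((q^(2*z.1) : ℕ)):ℝ) * ((z.2.card:ℝ) / (q:ℝ)^(2*z.1)) = z.2.card := by
          push_cast
          field_simp
        rw [h4]; ring
      · apply Finset.sum_eq_zero
        intro i hi
        unfold Fv
        rw [if_neg hz1, if_neg hz2, if_neg, mul_zero]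
        rintro ⟨hS, l', hl', h5⟩
        have := lev_unique h5 (isLev_pt (Finset.mem_range.mp hi))
        exact hc ⟨hS, by omega⟩

/-- single level Riemann sums give elements of I(f) -/
lemma mem_I (r : ℕ) : (if Odd r then U0 else 0) ∈ {v : ZeroAtInftyContinuousMap ℕ ℝ |
        ∃ (n : ℕ → ℕ) (x t : ℕ → ℕ → ℝ),
          (∀ k, x k 0 = 0 ∧ x k (n k) = 1 ∧
            (∀ i, i < n k → x k i < x k (i+1)) ∧
            (∀ i, i < n k → x k i ≤ t k i ∧ t k i ≤ x k (i+1))) ∧
          (∀ ε : ℝ, 0 < ε → ∃ K : ℕ, ∀ k, K ≤ k → ∀ i, i < n k → x k (i+1) - x k i < ε) ∧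
          Filter.Tendsto
            (fun k => ∑ i ∈ Finset.range (n k), (x k (i+1) - x k i) • f (t k i))
            Filter.atTop (nhds v)} := by
  have q1 : 0 < q := q_pos
  have hq : (0:ℝ) < q := by exact_mod_cast q1
  refine ⟨fun k => q^(2*(r + 2*k)+1), fun k i => (i:ℝ) / ((q^(2*(r+2*k)+1) : ℕ):ℝ), fun k i => pt (r+2*k) i, ?_, ?_, ?_⟩
  · intro k
    have hN : (0:ℝ) < ((q^(2*(r+2*k)+1) : ℕ):ℝ) := by positivity
    refine ⟨by simp, ?_, ?_, ?_⟩
    · exact div_self hN.ne'
    · intro i _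
      apply div_lt_div_of_pos_right _ hN
      push_cast; linarith
    · intro i _
      have h1 : pt (r+2*k) i = ((i:ℝ) + 1/2) / ((q^(2*(r+2*k)+1) : ℕ):ℝ) := by
        unfold pt
        push_cast
        field_simp
      show (i:ℝ) / ((q^(2*(r+2*k)+1) : ℕ):ℝ) ≤ pt (r+2*k) i ∧ pt (r+2*k) i ≤ ((i+1 : ℕ):ℝ) / ((q^(2*(r+2*k)+1) : ℕ):ℝ)
      rw [h1]
      constructor
      · apply div_le_div_of_nonneg_right _ hN.le
        linarith
      · apply div_le_div_of_nonneg_right _ hN.le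
        push_cast; linarith
  · intro ε hε
    obtain ⟨K, hK⟩ := exists_nat_gt (1/ε)
    refine ⟨K, fun k hk i _ => ?_⟩
    have hN : (0:ℝ) < ((q^(2*(r+2*k)+1) : ℕ):ℝ) := by positivity
    have h1 : ((i+1 : ℕ):ℝ) / ((q^(2*(r+2*k)+1) : ℕ):ℝ) - (i:ℝ) / ((q^(2*(r+2*k)+1) : ℕ):ℝ) = 1 / ((q^(2*(r+2*k)+1) : ℕ):ℝ) := by
      rw [← sub_div]; push_cast; ring
    show ((i+1 : ℕ):ℝ) / ((q^(2*(r+2*k)+1) : ℕ):ℝ) - (i:ℝ) / ((q^(2*(r+2*k)+1) : ℕ):ℝ) < ε
    rw [h1, div_lt_iff₀ hN]
    have h2 : K ≤ q^(2*(r+2*k)+1) := by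
      have h3 : 2*(r+2*k)+1 < q^(2*(r+2*k)+1) := Nat.lt_pow_self (by unfold q; norm_num)
      omega
    have h4 : (K:ℝ) ≤ ((q^(2*(r+2*k)+1) : ℕ):ℝ) := by exact_mod_cast h2
    rw [div_lt_iff₀ hε] at hK
    have h5 : (K:ℝ) * ε ≤ ((q^(2*(r+2*k)+1) : ℕ):ℝ) * ε := mul_le_mul_of_nonneg_right h4 hε.le
    linarith
  · have h1 : (fun k => ∑ i ∈ Finset.range (q^(2*(r + 2*k)+1)),
        (((i+1 : ℕ):ℝ) / ((q^(2*(r+2*k)+1) : ℕ):ℝ) - (i:ℝ) / ((q^(2*(r+2*k)+1) : ℕ):ℝ)) • f (pt (r+2*k) i)) =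
        fun _ => if Odd r then U0 else 0 := by
      funext k
      rw [single (r+2*k)]
      have : Odd (r+2*k) ↔ Odd r := by
        rw [Nat.odd_add]
        simp
      by_cases h : Odd r
      · rw [if_pos h, if_pos (this.mpr h)]
      · rw [if_neg h, if_neg (fun h' => h (this.mp h'))]
    show Filter.Tendsto (fun k => ∑ i ∈ Finset.range (q^(2*(r + 2*k)+1)),
        (((i+1 : ℕ):ℝ) / ((q^(2*(r+2*k)+1) : ℕ):ℝ) - (i:ℝ) / ((q^(2*(r+2*k)+1) : ℕ):ℝ)) • f (pt (r+2*k) i))
        Filter.atTop _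
    rw [h1]
    exact tendsto_const_nhds

/-- The negation of the preceding statement: For every bounded f from [0,1] into real c_0, the set of all norm limits of Riemann sums of f along tagged partitions of [0,1] whose mesh tends to 0 is a convex set. -/
theorem result :
    ¬ (∀ f : ℝ → ZeroAtInftyContinuousMap ℕ ℝ,
      (∃ M : ℝ, ∀ s ∈ Set.Icc (0:ℝ) 1, ‖f s‖ ≤ M) →
      Convex ℝ {v : ZeroAtInftyContinuousMap ℕ ℝ |
        ∃ (n : ℕ → ℕ) (x t : ℕ → ℕ → ℝ),
          (∀ k, x k 0 = 0 ∧ x k (n k) = 1 ∧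
            (∀ i, i < n k → x k i < x k (i+1)) ∧
            (∀ i, i < n k → x k i ≤ t k i ∧ t k i ≤ x k (i+1))) ∧
          (∀ ε : ℝ, 0 < ε → ∃ K : ℕ, ∀ k, K ≤ k → ∀ i, i < n k → x k (i+1) - x k i < ε) ∧
          Filter.Tendsto
            (fun k => ∑ i ∈ Finset.range (n k), (x k (i+1) - x k i) • f (t k i))
            Filter.atTop (nhds v)}) := by
  intro H
  have hconv := H f ⟨1, fun s _ => f_bound s⟩
  have m1 := mem_I 1
  have m0 := mem_I 0
  rw [if_pos (by decide)] at m1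
  rw [if_neg (by decide)] at m0
  have hm := hconv m1 m0 (by norm_num : (0:ℝ) ≤ 1/2) (by norm_num : (0:ℝ) ≤ 1/2) (by norm_num)
  obtain ⟨n, x, t, h1, _, h3⟩ := hm
  rw [Metric.tendsto_atTop] at h3
  obtain ⟨k, hk⟩ := h3 (1/100) (by norm_num)
  have hk := hk k le_rfl
  rw [dist_eq_norm] at hk
  obtain ⟨a1, a2, a3, a4⟩ := h1 k
  apply main_est (n k) (x k) (t k) a1 a2 a3 a4
  intro z
  have h5 := abs_eval_le ((∑ i ∈ Finset.range (n k), (x k (i+1) - x k i) • f (t k i)) -
    ((1/2:ℝ) • U0 + (1/2:ℝ) • (0 : ZeroAtInftyContinuousMap ℕ ℝ))) (e z)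
  refine le_trans (le_of_eq ?_) (h5.trans hk.le)
  congr 1
  rw [ZeroAtInftyContinuousMap.sub_apply, riemann_apply (n k) (fun i => x k (i+1) - x k i) (t k) z]
  congr 1
  have h6 : ((1/2:ℝ) • U0 + (1/2:ℝ) • (0 : ZeroAtInftyContinuousMap ℕ ℝ)) (e z) = (1/2) * U0 (e z) := by
    rw [smul_zero, add_zero]; rfl
  rw [h6, U0, mk_apply]
  split_ifs <;> norm_num

end Pool.Agent.S1832
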