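import Pool.Statements.S1908
-- import your own Pool.Agent.* helpers here

set_option autoImplicit false
open Pool Pool.MP_fc26cf_an

namespace Pool.Agent.S1908

open Filter Topology Complex

noncomputable section

/-! ### The one-variable polynomial -/

def YY (z : ℂ) : ℂ := (1/384) * (z^2 - 1) * (z^2+1)^2 * (24*z^2 + 5*(z^2+1)^2)

def phi (z : ℂ) : ℂ := z^10 + z^5 * YY z + (YY z)^2/2 - (1/128)*z^4*(z^2+1)^6

def EE (z : ℂ) : ℂ := (10 + 15*z^2 + 6*z^4 + z^6)/32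

/-- the real phase -/
def yy (a b : ℝ) : ℝ := b * a^2 * (1/2 + (5/12) * a^2)

/-- value on the unit circle -/
lemma phi_circle (a b : ℝ) (h : a^2 + b^2 = 1) :
    phi ⟨a, b⟩ = (⟨a, b⟩ : ℂ)^10 * ⟨1 - (yy a b)^2/2 - a^6/2, yy a b⟩ := by
  set z : ℂ := ⟨a, b⟩ with hz
  have hz1 : z = (a:ℂ) + b * I := by rw [hz]; exact Complex.mk_eq_add_mul_I a b
  have hb : ((a:ℂ)^2 + (b:ℂ)^2) = 1 := by exact_mod_cast congrArg (fun x : ℝ => (x:ℂ)) h
  have hzz : z * ((a:ℂ) - b * I) = 1 := by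
    rw [hz1]; linear_combination hb - (b:ℂ)^2 * I_sq
  have h1 : z^2 + 1 = 2 * a * z := by
    calc z^2 + 1 = z^2 + z * ((a:ℂ) - b * I) := by rw [hzz]
      _ = z * (z + ((a:ℂ) - b * I)) := by ring
      _ = z * (2 * a) := by rw [hz1]; ring
      _ = _ := by ring
  have h2 : z^2 - 1 = 2 * b * I * z := by
    calc z^2 - 1 = z^2 - z * ((a:ℂ) - b * I) := by rw [hzz]
      _ = z * (z - ((a:ℂ) - b * I)) := by ring
      _ = z * (2 * b * I) := by rw [hz1]; ring
      _ = _ := by ring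
  have h3 : (⟨1 - (yy a b)^2/2 - a^6/2, yy a b⟩ : ℂ) =
      (1 - ((yy a b : ℝ) : ℂ)^2/2 - (a:ℂ)^6/2) + ((yy a b : ℝ) : ℂ) * I := by
    rw [Complex.mk_eq_add_mul_I]; push_cast; ring
  have h4 : YY z = ((yy a b : ℝ) : ℂ) * I * z^5 := by
    unfold YY yy
    rw [h1, h2]
    push_cast
    ring
  rw [h3]
  unfold phi
  rw [h4, h1]
  linear_combination (z^10 * ((yy a b : ℝ) : ℂ)^2/2) * Complex.I_sq

lemma EE_re_circle (a b : ℝ) (h : a^2 + b^2 = 1) : (EE ⟨a, b⟩).re = a^6 := by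
  unfold EE
  have hb : b^2 = 1 - a^2 := by linarith
  have h4 : b^4 = (1-a^2)^2 := by rw [← hb]; ring
  have h6 : b^6 = (1-a^2)^3 := by rw [← hb]; ring
  have : ((10 + 15*(⟨a,b⟩:ℂ)^2 + 6*(⟨a,b⟩:ℂ)^4 + (⟨a,b⟩:ℂ)^6)/32).re =
      (10 + 15*(a^2-b^2) + 6*(a^4 - 6*a^2*b^2+b^4) + (a^6 - 15*a^4*b^2+15*a^2*b^4-b^6))/32 := by
    rw [show (32:ℂ) = ((32:ℝ):ℂ) by norm_num, Complex.div_ofReal_re]
    congr 1
    simp [pow_succ, Complex.mul_re, Complex.mul_im]
    ring
  rw [this, h6, h4, hb]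
  ring

lemma norm_circle {z : ℂ} (hz : ‖z‖ = 1) : z.re^2 + z.im^2 = 1 := by
  have := Complex.sq_norm z
  rw [hz, Complex.normSq_apply] at this
  linarith

lemma phi_circle_norm (a b : ℝ) (h : a^2 + b^2 = 1) :
    ‖phi ⟨a, b⟩‖ ≤ Real.exp (-(7/32) * a^6) := by
  rw [phi_circle a b h, norm_mul, norm_pow]
  have h1 : ‖(⟨a, b⟩ : ℂ)‖ = 1 := by
    have : ‖(⟨a, b⟩ : ℂ)‖^2 = 1 := by
      rw [Complex.sq_norm, Complex.normSq_apply]; simp; nlinarith
    nlinarith [norm_nonneg (⟨a, b⟩ : ℂ)]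
  rw [h1, one_pow, one_mul]
  have h2 : ‖(⟨1 - (yy a b)^2/2 - a^6/2, yy a b⟩ : ℂ)‖^2 ≤ (Real.exp (-(7/32) * a^6))^2 := by
    rw [Complex.sq_norm, Complex.normSq_apply, ← Real.exp_nat_mul]
    have h3 : 1 - (7/16) * a^6 ≤ Real.exp (((2:ℕ):ℝ) * (-(7/32) * a^6)) := by
      have := Real.add_one_le_exp (((2:ℕ):ℝ) * (-(7/32) * a^6))
      push_cast at this ⊢
      linarith
    refine le_trans ?_ h3
    simp only
    have hX0 : 0 ≤ a^2 := sq_nonneg a
    have hX1 : a^2 ≤ 1 := by nlinarith [sq_nonneg b]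
    have hb : b^2 = 1 - a^2 := by linarith
    have hy : (yy a b)^2 = (1 - a^2) * (a^2)^2 * (1/2 + (5/12) * a^2)^2 := by
      unfold yy; rw [← hb]; ring
    have ha6 : a^6 = (a^2)^3 := by ring
    rw [ha6]
    set X := a^2
    set y := yy a b
    have hy2 : y^2 ≤ X^2/2 := by
      rw [hy]
      have e1 : (1 - X) * (1/2 + (5/12) * X) ≤ 1/2 := by nlinarith [mul_nonneg hX0 hX0]
      have e2 : (1/2 + (5/12) * X) ≤ 1 := by linarith
      have e3 : 0 ≤ (1/2 + (5/12) * X) := by positivity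
      have e4 : 0 ≤ (1 - X) * (1/2 + (5/12) * X) := mul_nonneg (by linarith) e3
      calc (1 - X) * X^2 * (1/2 + (5/12) * X)^2 =
          X^2 * (((1 - X) * (1/2 + (5/12) * X)) * (1/2 + (5/12) * X)) := by ring
        _ ≤ X^2 * ((1/2) * 1) := by
            apply mul_le_mul_of_nonneg_left _ (sq_nonneg X)
            exact mul_le_mul e1 e2 e3 (by norm_num)
        _ = X^2/2 := by ring
    set r := y^2/2 + X^3/2 with hr
    have hr0 : 0 ≤ r := by positivity
    have hX3 : X^3 ≤ X^2 := by nlinarith [mul_nonneg hX0 hX0, mul_nonneg (mul_nonneg hX0 hX0) (sub_nonneg.mpr hX1)]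
    have hr1 : r ≤ (3/4) * X^2 := by rw [hr]; linarith
    have hr2 : r^2 ≤ (9/16) * X^3 := by
      have e5 : r^2 ≤ ((3/4) * X^2)^2 := pow_le_pow_left₀ hr0 hr1 2
      have e6 : X^4 ≤ X^3 := by
        have : 0 ≤ X^3 := by positivity
        nlinarith
      nlinarith
    have e7 : (1 - y^2/2 - X^3/2) * (1 - y^2/2 - X^3/2) + y * y = 1 - X^3 + r^2 := by
      rw [hr]; ring
    rw [e7]
    linarith
  exact le_of_sq_le_sq h2 (Real.exp_pos _).le |>.trans le_rfl

lemma phi_mul_exp_le (z : ℂ) (hz : ‖z‖ ≤ 1) : ‖phi z * Complex.exp ((7/32) * EE z)‖ ≤ 1 := by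
  have hd : Differentiable ℂ (fun z => phi z * Complex.exp ((7/32) * EE z)) := by
    unfold phi YY EE; fun_prop
  refine Complex.norm_le_of_forall_mem_frontier_norm_le (U := Metric.ball 0 1)
    Metric.isBounded_ball hd.diffContOnCl ?_ ?_
  · intro w hw
    rw [frontier_ball _ one_ne_zero, mem_sphere_iff_norm, sub_zero] at hw
    have hc := norm_circle hw
    have h1 := phi_circle_norm w.re w.im hc
    have h2 := EE_re_circle w.re w.im hc
    rw [Complex.eta] at h1 h2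
    rw [norm_mul, Complex.norm_exp]
    have h3 : ((7/32) * EE w).re = (7/32) * w.re^6 := by
      rw [show (7/32:ℂ) = ((7/32:ℝ):ℂ) by push_cast; rfl, Complex.re_ofReal_mul, h2]
    rw [h3]
    calc ‖phi w‖ * Real.exp (7/32 * w.re^6) ≤ Real.exp (-(7/32) * w.re^6) * Real.exp (7/32 * w.re^6) :=
          mul_le_mul_of_nonneg_right h1 (Real.exp_pos _).le
      _ = 1 := by rw [← Real.exp_add]; simp
  · rw [closure_ball _ one_ne_zero, mem_closedBall_iff_norm, sub_zero]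
    exact hz

lemma EE_re_ge (z : ℂ) (hz : ‖z‖ ≤ 1) : ‖z^2 + 1‖^6 / 64 ≤ (EE z).re := by
  set u := z^2 with hu
  have hu1 : ‖u‖ ≤ 1 := by rw [hu, norm_pow]; exact pow_le_one₀ (norm_nonneg _) hz
  have hus : u.re^2 + u.im^2 ≤ 1 := by
    have := Complex.sq_norm u
    rw [Complex.normSq_apply] at this
    nlinarith [norm_nonneg u]
  set x := u.re + 1 with hx
  set y := u.im with hy
  have hx0 : 0 ≤ x := by nlinarith [sq_nonneg y]
  have hy2 : y^2 ≤ 2*x - x^2 := by rw [hx]; nlinarith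
  have h1 : (EE z).re = (6*x + 3*(x^2 - y^2) + (x^3 - 3*x*y^2))/32 := by
    unfold EE
    have : 10 + 15*z^2 + 6*z^4 + z^6 = 6*(u+1) + 3*(u+1)^2 + (u+1)^3 := by rw [hu]; ring
    rw [this, show (32:ℂ) = ((32:ℝ):ℂ) by norm_num, Complex.div_ofReal_re]
    congr 1
    have e : u + 1 = ⟨x, y⟩ := by apply Complex.ext <;> simp [hx, hy]
    rw [e]
    simp [pow_succ, Complex.mul_re, Complex.mul_im]
    ring
  have h2 : ‖u + 1‖^2 = x^2 + y^2 := by
    have e : u + 1 = ⟨x, y⟩ := by apply Complex.ext <;> simp [hx, hy]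
    rw [e, Complex.sq_norm, Complex.normSq_apply]; simp; ring
  have h3 : ‖u + 1‖^6 = (x^2 + y^2)^3 := by rw [← h2]; ring
  rw [h3, h1]
  have h4 : x^2 + y^2 ≤ 2 * x := by linarith
  have h5 : 0 ≤ x^2 + y^2 := by positivity
  have h6 : (x^2 + y^2)^3 ≤ (2 * x)^3 := pow_le_pow_left₀ h5 h4 3
  have h7 : 4 * x^3 ≤ 6*x + 3*(x^2 - y^2) + (x^3 - 3*x*y^2) := by
    have : 3 * (1 + x) * y^2 ≤ 3 * (1 + x) * (2*x - x^2) :=
      mul_le_mul_of_nonneg_left hy2 (by positivity)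
    nlinarith
  nlinarith

lemma phi_le_exp (z : ℂ) (hz : ‖z‖ ≤ 1) : ‖phi z‖ ≤ Real.exp (-(7/2048) * ‖z^2+1‖^6) := by
  have h1 := phi_mul_exp_le z hz
  rw [norm_mul, Complex.norm_exp] at h1
  have h3 : ((7/32) * EE z).re = (7/32) * (EE z).re := by
    rw [show (7/32:ℂ) = ((7/32:ℝ):ℂ) by push_cast; rfl, Complex.re_ofReal_mul]
  rw [h3] at h1
  have h2 := EE_re_ge z hz
  have h4 : ‖phi z‖ ≤ Real.exp (-(7/32 * (EE z).re)) := by
    rw [Real.exp_neg, ← one_div, le_div_iff₀ (Real.exp_pos _)]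
    exact h1
  refine h4.trans (Real.exp_le_exp.mpr ?_)
  linarith

lemma one_sub_phi (z : ℂ) (hz : ‖z‖ ≤ 1) : (7/4096) * ‖z^2+1‖^6 ≤ 1 - ‖phi z‖ := by
  have h1 := phi_le_exp z hz
  have hv : ‖z^2+1‖ ≤ 2 := by
    calc ‖z^2+1‖ ≤ ‖z^2‖ + ‖(1:ℂ)‖ := norm_add_le _ _
      _ ≤ 1 + 1 := by
        rw [norm_pow, norm_one]
        have := pow_le_one₀ (norm_nonneg z) hz (n := 2)
        linarith
      _ = 2 := by norm_num
  set v := ‖z^2+1‖ with hvd
  have hv0 : 0 ≤ v := norm_nonneg _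
  have hv4 : v^6 ≤ 64 := by
    calc v^6 ≤ 2^6 := pow_le_pow_left₀ hv0 hv 6
      _ = 64 := by norm_num
  set t := (7/2048) * v^6 with ht
  have ht0 : 0 ≤ t := by positivity
  have ht1 : t ≤ 1 := by rw [ht]; linarith
  have h2 : Real.exp (-t) ≤ 1 - t/2 := by
    rw [Real.exp_neg, inv_le_comm₀ (Real.exp_pos _) (by linarith)]
    have h3 := Real.add_one_le_exp t
    refine le_trans ?_ h3
    rw [inv_le_comm₀ (by linarith) (by linarith), ← one_div, div_le_iff₀ (by linarith)]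
    nlinarith
  have h4 : -(7/2048) * v^6 = -t := by rw [ht]; ring
  rw [h4] at h1
  have : (7/4096) * v^6 = t/2 := by rw [ht]; ring
  rw [this]
  linarith

lemma phi_le_one (z : ℂ) (hz : ‖z‖ ≤ 1) : ‖phi z‖ ≤ 1 := by
  have := one_sub_phi z hz
  have h2 : (0:ℝ) ≤ (7/4096) * ‖z^2+1‖^6 := by positivity
  linarith

/-! ### Part B: local behaviour at `I` -/

def ys (s : ℝ) : ℝ := Real.cos s * (Real.sin s)^2 * (1/2 + (5/12) * (Real.sin s)^2)

def psi (s : ℝ) : ℂ := ⟨1 - (ys s)^2/2 - (Real.sin s)^6/2, ys s⟩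

def pt (s : ℝ) : ℂ := I * Complex.exp (s * I)

lemma pt_eq (s : ℝ) : pt s = ⟨-Real.sin s, Real.cos s⟩ := by
  unfold pt
  rw [Complex.exp_mul_I, Complex.mk_eq_add_mul_I]
  push_cast
  ring_nf
  rw [I_sq]; ring

lemma norm_pt (s : ℝ) : ‖pt s‖ = 1 := by
  unfold pt; rw [norm_mul, norm_I, Complex.norm_exp_ofReal_mul_I, one_mul]

lemma phi_pt (s : ℝ) : phi (pt s) = (pt s)^10 * psi s := by
  rw [pt_eq, phi_circle _ _ (by nlinarith [Real.sin_sq_add_cos_sq s])]
  congr 1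
  have h : yy (-Real.sin s) (Real.cos s) = ys s := by unfold yy ys; ring
  unfold psi
  rw [h]
  congr 1
  ring

lemma norm_psi_le (s : ℝ) : ‖psi s‖ ≤ 1 := by
  have h := phi_le_one (pt s) (norm_pt s).le
  rw [phi_pt, norm_mul, norm_pow, norm_pt, one_pow, one_mul] at h
  exact h

lemma sin_approx (s : ℝ) (hs0 : 0 ≤ s) (hs1 : s ≤ 1) : |Real.sin s - (s - s^3/6)| ≤ s^5/100 := by
  have h := Complex.exp_bound (x := (s:ℂ) * I) (by
    rw [norm_mul, norm_I, mul_one, Complex.norm_real, Real.norm_eq_abs, abs_of_nonneg hs0]; exact hs1)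
    (n := 5) (by norm_num)
  have h1 : ‖(s:ℂ) * I‖ = s := by
    rw [norm_mul, norm_I, mul_one, Complex.norm_real, Real.norm_eq_abs, abs_of_nonneg hs0]
  rw [h1] at h
  have h2 : (Complex.exp ((s:ℂ) * I) - ∑ m ∈ Finset.range 5, ((s:ℂ) * I) ^ m / (m.factorial : ℂ)).im =
      Real.sin s - (s - s^3/6) := by
    rw [Complex.sub_im, Complex.exp_ofReal_mul_I_im]
    congr 1
    have : ∑ m ∈ Finset.range 5, ((s:ℂ) * I) ^ m / (m.factorial : ℂ) =
        ((1 - s^2/2 + s^4/24 : ℝ) : ℂ) + ((s - s^3/6 : ℝ) : ℂ) * I := by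
      simp only [Finset.sum_range_succ, Finset.sum_range_zero, Nat.factorial]
      have hI2 : Complex.I^2 = -1 := I_sq
      have hI3 : Complex.I^3 = -Complex.I := by
        rw [show (3:ℕ) = 2+1 by norm_num, pow_add, I_sq]; ring
      have hI4 : Complex.I^4 = 1 := by
        rw [show (4:ℕ) = 2*2 by norm_num, pow_mul, I_sq]; norm_num
      simp only [mul_pow, hI2, hI3, hI4]
      push_cast
      ring
    rw [this, Complex.add_im, Complex.ofReal_im, Complex.im_ofReal_mul, Complex.I_im]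
    ring
  have h3 := (Complex.abs_im_le_norm _).trans h
  rw [h2] at h3
  refine h3.trans (le_of_eq ?_)
  norm_num [Nat.factorial]
  ring

lemma ys_bound (s : ℝ) (hs0 : 0 ≤ s) (hs1 : s ≤ 1) :
    |ys s - s^2/2| ≤ s^6 ∧ |(ys s)^2 - s^4/4| ≤ 2 * s^6 := by
  have hsin0 : 0 ≤ Real.sin s :=
    Real.sin_nonneg_of_nonneg_of_le_pi hs0 (by linarith [Real.pi_gt_three])
  have hsin1 := Real.sin_le hs0
  have hsin2 := abs_le.mp (sin_approx s hs0 hs1)
  have hcos := abs_le.mp (Real.cos_bound (x := s) (by rw [abs_of_nonneg hs0]; exact hs1))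
  rw [abs_of_nonneg hs0] at hcos
  obtain ⟨e, he⟩ : ∃ e, Real.sin s = s - s^3/6 + e := ⟨Real.sin s - (s - s^3/6), by ring⟩
  obtain ⟨f, hf⟩ : ∃ f, Real.cos s = 1 - s^2/2 + f := ⟨Real.cos s - (1 - s^2/2), by ring⟩
  have he1 : |e| ≤ s^5/100 := by
    have : e = Real.sin s - (s - s^3/6) := by rw [he]; ring
    rw [this]; exact sin_approx s hs0 hs1
  have hf1 : |f| ≤ s^4 * (5/96) := by
    have : f = Real.cos s - (1 - s^2/2) := by rw [hf]; ring
    rw [this]
    have := Real.cos_bound (x := s) (by rw [abs_of_nonneg hs0]; exact hs1)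
    rwa [abs_of_nonneg hs0] at this
  set S := Real.sin s with hS
  have hp2 : 0 ≤ s^2 := by positivity
  have hp4 : 0 ≤ s^4 := by positivity
  have hp6 : 0 ≤ s^6 := by positivity
  have hp62 : s^6 ≤ s^2 := pow_le_pow_of_le_one hs0 hs1 (by norm_num)
  have hp64 : s^6 ≤ s^4 := pow_le_pow_of_le_one hs0 hs1 (by norm_num)
  have hp42 : s^4 ≤ s^2 := pow_le_pow_of_le_one hs0 hs1 (by norm_num)
  have hp21 : s^2 ≤ 1 := pow_le_one₀ hs0 hs1
  -- S^2
  obtain ⟨g, hg⟩ : ∃ g, S^2 = s^2 - s^4/3 + g := ⟨S^2 - (s^2 - s^4/3), by ring⟩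
  have hg1 : |g| ≤ s^6/20 := by
    have e1 : g = s^6/36 + 2*(s - s^3/6)*e + e^2 := by
      have : g = S^2 - (s^2 - s^4/3) := by rw [hg]; ring
      rw [this, he]; ring
    rw [e1]
    have e2 : |2*(s - s^3/6)*e| ≤ 2*s*(s^5/100) := by
      rw [abs_mul]
      apply mul_le_mul _ he1 (abs_nonneg _) (by positivity)
      rw [abs_of_nonneg]
      · have : 0 ≤ s^3 := by positivity
        linarith
      · have : s^3 ≤ s := by nlinarith
        linarith
    have e3 : |e^2| ≤ (s^5/100)^2 := by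
      rw [abs_pow]; exact pow_le_pow_left₀ (abs_nonneg _) he1 2
    have e4 : (s^5/100)^2 ≤ s^6/10000 := by
      have : s^10 ≤ s^6 := pow_le_pow_of_le_one hs0 hs1 (by norm_num)
      nlinarith
    have e5 : |s^6/36| = s^6/36 := abs_of_nonneg (by positivity)
    calc |s^6/36 + 2*(s - s^3/6)*e + e^2| ≤ |s^6/36 + 2*(s - s^3/6)*e| + |e^2| := abs_add_le _ _
      _ ≤ |s^6/36| + |2*(s - s^3/6)*e| + |e^2| := by linarith [abs_add_le (s^6/36) (2*(s - s^3/6)*e)]
      _ ≤ s^6/36 + 2*s*(s^5/100) + s^6/10000 := by linarith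
      _ ≤ s^6/20 := by nlinarith
  have hg2 := abs_le.mp hg1
  -- X := S^2
  have hXlow : 0 ≤ S^2 := sq_nonneg _
  have hXup : S^2 ≤ s^2 := pow_le_pow_left₀ hsin0 hsin1 2
  obtain ⟨g', hg'⟩ : ∃ g', S^4 = s^4 + g' := ⟨S^4 - s^4, by ring⟩
  have hg'1 : |g'| ≤ s^6 := by
    have e1 : g' = (S^2 - s^2) * (S^2 + s^2) := by
      have : g' = S^4 - s^4 := by rw [hg']; ring
      rw [this]; ring
    rw [e1, abs_mul]
    have e2 : |S^2 - s^2| ≤ s^4/2 := by
      rw [abs_le]; constructor <;> linarith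
    have e3 : |S^2 + s^2| ≤ 2*s^2 := by
      rw [abs_of_nonneg (by positivity)]; linarith
    calc |S^2 - s^2| * |S^2 + s^2| ≤ (s^4/2) * (2*s^2) := mul_le_mul e2 e3 (abs_nonneg _) (by positivity)
      _ = s^6 := by ring
  have hg'2 := abs_le.mp hg'1
  -- w
  obtain ⟨h, hh⟩ : ∃ h, S^2 * (1/2 + (5/12) * S^2) = s^2/2 + s^4/4 + h :=
    ⟨S^2 * (1/2 + (5/12) * S^2) - (s^2/2 + s^4/4), by ring⟩
  have hh1 : |h| ≤ s^6/2 := by
    have e1 : h = g/2 + (5/12) * g' := by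
      have : h = S^2 * (1/2 + (5/12) * S^2) - (s^2/2 + s^4/4) := by rw [hh]; ring
      rw [this]
      have : S^2 * (1/2 + (5/12) * S^2) = S^2/2 + (5/12) * S^4 := by ring
      rw [this, hg', hg]; ring
    rw [e1, abs_le]; constructor <;> linarith
  have hh2 := abs_le.mp hh1
  have hw0 : 0 ≤ S^2 * (1/2 + (5/12) * S^2) := by positivity
  have hw1 : S^2 * (1/2 + (5/12) * S^2) ≤ s^2 := by
    have : (1/2 + (5/12) * S^2) ≤ 1 := by linarith
    calc S^2 * (1/2 + (5/12) * S^2) ≤ S^2 * 1 := mul_le_mul_of_nonneg_left this hXlow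
      _ ≤ s^2 := by linarith
  -- y
  have hy : |ys s - s^2/2| ≤ s^6 := by
    have e1 : ys s - s^2/2 = h - s^6/8 - (s^2/2)*h + f * (S^2 * (1/2 + (5/12) * S^2)) := by
      have : ys s = (1 - s^2/2 + f) * (S^2 * (1/2 + (5/12) * S^2)) := by
        unfold ys; rw [hf]; ring
      rw [this, add_mul, hh]; ring
    have e2 : |(s^2/2)*h| ≤ s^6/4 := by
      rw [abs_mul, abs_of_nonneg (by positivity : 0 ≤ s^2/2)]
      calc s^2/2 * |h| ≤ (1/2) * (s^6/2) := mul_le_mul (by linarith) hh1 (abs_nonneg _) (by norm_num)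
        _ = s^6/4 := by ring
    have e3 : |f * (S^2 * (1/2 + (5/12) * S^2))| ≤ s^6/10 := by
      rw [abs_mul, abs_of_nonneg hw0]
      calc |f| * (S^2 * (1/2 + (5/12) * S^2)) ≤ (s^4 * (5/96)) * s^2 :=
            mul_le_mul hf1 hw1 hw0 (by positivity)
        _ ≤ s^6/10 := by nlinarith
    have e2' := abs_le.mp e2
    have e3' := abs_le.mp e3
    rw [e1, abs_le]
    constructor <;> linarith
  have hy2 := abs_le.mp hy
  have hyy : |(ys s)^2 - s^4/4| ≤ 2 * s^6 := by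
    have e1 : (ys s)^2 - s^4/4 = (ys s - s^2/2) * (ys s + s^2/2) := by ring
    rw [e1, abs_mul]
    have e2 : |ys s + s^2/2| ≤ 2 := by
      rw [abs_le]; constructor <;> linarith
    calc _ ≤ s^6 * 2 := mul_le_mul hy e2 (abs_nonneg _) hp6
      _ = _ := by ring
  exact ⟨hy, hyy⟩

lemma psi_approx (s : ℝ) (hs0 : 0 ≤ s) (hs1 : s ≤ 1) :
    ‖psi s - Complex.exp ((s^2/2 : ℝ) * I)‖ ≤ 5 * s^6 := by
  obtain ⟨hy, hyy⟩ := ys_bound s hs0 hs1
  have hsin0 : 0 ≤ Real.sin s :=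
    Real.sin_nonneg_of_nonneg_of_le_pi hs0 (by linarith [Real.pi_gt_three])
  have hsin1 := Real.sin_le hs0
  set S := Real.sin s with hS
  have hp6 : 0 ≤ s^6 := by positivity
  have hp21 : s^2 ≤ 1 := pow_le_one₀ hs0 hs1
  have hyy2 := abs_le.mp hyy
  have hS6 : S^6 ≤ s^6 := pow_le_pow_left₀ hsin0 hsin1 6
  have hS60 : 0 ≤ S^6 := by positivity
  have h1 : ‖psi s - (((1 - s^4/8 : ℝ) : ℂ) + ((s^2/2 : ℝ) : ℂ) * Complex.I)‖ ≤ 3/2 * s^6 + s^6 := by
    have : psi s - (((1 - s^4/8 : ℝ) : ℂ) + ((s^2/2 : ℝ) : ℂ) * Complex.I) =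
        ((-((ys s)^2 - s^4/4)/2 - S^6/2 : ℝ) : ℂ) + ((ys s - s^2/2 : ℝ) : ℂ) * Complex.I := by
      unfold psi
      rw [Complex.mk_eq_add_mul_I, ← hS]; push_cast; ring
    rw [this]
    refine (norm_add_le _ _).trans ?_
    rw [norm_mul, norm_I, mul_one, Complex.norm_real, Complex.norm_real, Real.norm_eq_abs,
      Real.norm_eq_abs]
    apply add_le_add _ hy
    rw [abs_le]; constructor <;> linarith
  have h2 : ‖Complex.exp ((s^2/2 : ℝ) * Complex.I) -
      (((1 - s^4/8 : ℝ) : ℂ) + ((s^2/2 : ℝ) : ℂ) * Complex.I)‖ ≤ s^6 := by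
    have hn : ‖((s^2/2 : ℝ) : ℂ) * Complex.I‖ = s^2/2 := by
      rw [norm_mul, norm_I, mul_one, Complex.norm_real, Real.norm_eq_abs,
        abs_of_nonneg (by positivity)]
    have := Complex.exp_bound (x := ((s^2/2 : ℝ) : ℂ) * Complex.I) (by rw [hn]; linarith)
      (n := 3) (by norm_num)
    rw [hn] at this
    have e1 : ∑ m ∈ Finset.range 3, (((s^2/2 : ℝ) : ℂ) * Complex.I) ^ m / (m.factorial : ℂ) =
        (((1 - s^4/8 : ℝ) : ℂ) + ((s^2/2 : ℝ) : ℂ) * Complex.I) := by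
      simp only [Finset.sum_range_succ, Finset.sum_range_zero, Nat.factorial]
      have hI2 : Complex.I^2 = -1 := I_sq
      simp only [mul_pow, hI2]
      push_cast
      ring
    rw [e1] at this
    refine this.trans ?_
    have e2 : (s^2/2)^3 * (((3:ℕ).succ : ℝ) * (((3:ℕ).factorial : ℝ) * ((3:ℕ):ℝ))⁻¹) = s^6/36 := by
      norm_num [Nat.factorial]; ring
    rw [e2]
    linarith
  have h3 : psi s - Complex.exp ((s^2/2 : ℝ) * Complex.I) =
      (psi s - (((1 - s^4/8 : ℝ) : ℂ) + ((s^2/2 : ℝ) : ℂ) * Complex.I)) -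
      (Complex.exp ((s^2/2 : ℝ) * Complex.I) -
      (((1 - s^4/8 : ℝ) : ℂ) + ((s^2/2 : ℝ) : ℂ) * Complex.I)) := by ring
  rw [h3]
  refine (norm_sub_le _ _).trans ?_
  linarith


lemma norm_pow_sub_le (a b : ℂ) (ha : ‖a‖ ≤ 1) (hb : ‖b‖ ≤ 1) (m : ℕ) :
    ‖a^m - b^m‖ ≤ m * ‖a - b‖ := by
  induction m with
  | zero => simp
  | succ m ih =>
    have : a^(m+1) - b^(m+1) = a * (a^m - b^m) + (a - b) * b^m := by ring
    rw [this]
    calc _ ≤ ‖a * (a^m - b^m)‖ + ‖(a - b) * b^m‖ := norm_add_le _ _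
      _ = ‖a‖ * ‖a^m - b^m‖ + ‖a - b‖ * ‖b^m‖ := by rw [norm_mul, norm_mul]
      _ ≤ 1 * (m * ‖a - b‖) + ‖a - b‖ * 1 := by
          gcongr
          rw [norm_pow]; exact pow_le_one₀ (norm_nonneg _) hb
      _ = _ := by push_cast; ring


lemma psi_pow_approx (s : ℝ) (hs0 : 0 ≤ s) (hs1 : s ≤ 1) (m : ℕ) :
    ‖(psi s)^m - Complex.exp ((m * s^2/2 : ℝ) * I)‖ ≤ m * (5 * s^6) := by
  have h1 : Complex.exp ((m * s^2/2 : ℝ) * I) = (Complex.exp ((s^2/2 : ℝ) * I))^m := by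
    rw [← Complex.exp_nat_mul]; congr 1; push_cast; ring
  rw [h1]
  refine (norm_pow_sub_le _ _ (norm_psi_le s) ?_ m).trans ?_
  · rw [Complex.norm_exp_ofReal_mul_I]
  · exact mul_le_mul_of_nonneg_left (psi_approx s hs0 hs1) (Nat.cast_nonneg _)

/-! ### orthogonality and the bilinear bound -/

lemma orth (R : ℕ) (hR : 0 < R) (j k : ℕ) (hj : j < R) (hk : k < R) (ω : ℂ)
    (hω : IsPrimitiveRoot ω R) :
    ∑ r ∈ Finset.range R, ((ω⁻¹)^j * ω^k)^r = if j = k then (R:ℂ) else 0 := by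
  have hω0 : ω ≠ 0 := hω.ne_zero hR.ne'
  split_ifs with h
  · subst h
    have : (ω⁻¹)^j * ω^j = 1 := by rw [← mul_pow, inv_mul_cancel₀ hω0, one_pow]
    rw [this]; simp
  · have hne : (ω⁻¹)^j * ω^k ≠ 1 := by
      intro he
      apply h
      have : ω^j = ω^k := by
        calc ω^j = ω^j * ((ω⁻¹)^j * ω^k) := by rw [he, mul_one]
          _ = (ω * ω⁻¹)^j * ω^k := by rw [mul_pow]; ring
          _ = ω^k := by rw [mul_inv_cancel₀ hω0, one_pow, one_mul]
      exact hω.pow_inj hj hk this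
    have h1 : ((ω⁻¹)^j * ω^k)^R = 1 := by
      rw [mul_pow, ← pow_mul, ← pow_mul, mul_comm j, mul_comm k, pow_mul, pow_mul, hω.pow_eq_one,
        one_pow, inv_pow, hω.pow_eq_one]; simp
    have h2 := geom_sum_eq hne R
    rw [h2, h1, sub_self, zero_div]

lemma bilinear (N : ℕ) (hN : 0 < N) (ω : ℂ) (hω : IsPrimitiveRoot ω N) (hn : ‖ω‖ = 1)
    (α β : ℕ → ℂ) (hα : ∀ j, ‖α j‖ ≤ 1) (hβ : ∀ j, ‖β j‖ ≤ 1) :
    ‖∑ j ∈ Finset.range N, ∑ l ∈ Finset.range N, (ω⁻¹)^(j*l) * (α j * β l)‖^2 ≤ (N:ℝ)^3 := by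
  set A : ℕ → ℂ := fun l => ∑ j ∈ Finset.range N, (ω⁻¹)^(j*l) * α j with hA
  have h1 : ∑ j ∈ Finset.range N, ∑ l ∈ Finset.range N, (ω⁻¹)^(j*l) * (α j * β l) =
      ∑ l ∈ Finset.range N, A l * β l := by
    rw [Finset.sum_comm]
    apply Finset.sum_congr rfl
    intro l _
    rw [hA, Finset.sum_mul]
    apply Finset.sum_congr rfl
    intro j _
    ring
  have hconj : (starRingEnd ℂ) ω⁻¹ = ω := by
    rw [map_inv₀, ← Complex.inv_eq_conj hn, inv_inv]
  have h2 : ∑ l ∈ Finset.range N, (‖A l‖^2 : ℝ) ≤ (N:ℝ)^2 := by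
    have h3 : ((∑ l ∈ Finset.range N, (‖A l‖^2 : ℝ) : ℝ) : ℂ) =
        ∑ j ∈ Finset.range N, (N:ℂ) * (α j * (starRingEnd ℂ) (α j)) := by
      have e1 : ∀ l, ((‖A l‖^2 : ℝ) : ℂ) = ∑ j ∈ Finset.range N, ∑ k ∈ Finset.range N,
          ((ω⁻¹)^j * ω^k)^l * (α j * (starRingEnd ℂ) (α k)) := by
        intro l
        rw [Complex.ofReal_pow, ← Complex.mul_conj', hA, map_sum, Finset.sum_mul_sum]
        apply Finset.sum_congr rfl
        intro j _
        apply Finset.sum_congr rfl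
        intro k _
        rw [map_mul, map_pow, hconj, mul_pow, ← pow_mul, ← pow_mul]
        ring
      rw [Complex.ofReal_sum]
      simp_rw [e1]
      rw [Finset.sum_comm]
      apply Finset.sum_congr rfl
      intro j hj
      rw [Finset.sum_comm]
      calc ∑ k ∈ Finset.range N, ∑ l ∈ Finset.range N,
            ((ω⁻¹)^j * ω^k)^l * (α j * (starRingEnd ℂ) (α k))
          = ∑ k ∈ Finset.range N, (if j = k then (N:ℂ) else 0) * (α j * (starRingEnd ℂ) (α k)) := by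
            apply Finset.sum_congr rfl
            intro k hk
            rw [← Finset.sum_mul, orth N hN j k (Finset.mem_range.mp hj) (Finset.mem_range.mp hk) ω hω]
        _ = _ := by
            rw [Finset.sum_eq_single j]
            · rw [if_pos rfl]
            · intro k _ hkj
              rw [if_neg (Ne.symm hkj), zero_mul]
            · intro h; exact absurd hj h
    have h4 : (∑ l ∈ Finset.range N, (‖A l‖^2 : ℝ) : ℝ) = ∑ j ∈ Finset.range N, (N:ℝ) * ‖α j‖^2 := by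
      apply Complex.ofReal_injective
      rw [h3]
      push_cast
      apply Finset.sum_congr rfl
      intro j _
      rw [Complex.mul_conj']
    rw [h4]
    calc ∑ j ∈ Finset.range N, (N:ℝ) * ‖α j‖^2 ≤ ∑ j ∈ Finset.range N, (N:ℝ) * 1 := by
          apply Finset.sum_le_sum
          intro j _
          apply mul_le_mul_of_nonneg_left _ (Nat.cast_nonneg _)
          exact pow_le_one₀ (norm_nonneg _) (hα j)
      _ = (N:ℝ)^2 := by simp [sq]
  rw [h1]
  have h5 : ‖∑ l ∈ Finset.range N, A l * β l‖ ≤ ∑ l ∈ Finset.range N, ‖A l‖ * 1 := by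
    refine (norm_sum_le _ _).trans (Finset.sum_le_sum ?_)
    intro l _
    rw [norm_mul]
    exact mul_le_mul_of_nonneg_left (hβ l) (norm_nonneg _)
  have h6 : (∑ l ∈ Finset.range N, ‖A l‖ * 1)^2 ≤
      (∑ l ∈ Finset.range N, ‖A l‖^2) * (∑ l ∈ Finset.range N, (1:ℝ)^2) :=
    Finset.sum_mul_sq_le_sq_mul_sq _ _ _
  have h7 : (∑ l ∈ Finset.range N, (1:ℝ)^2) = N := by simp
  rw [h7] at h6
  calc _ ≤ (∑ l ∈ Finset.range N, ‖A l‖ * 1)^2 := pow_le_pow_left₀ (norm_nonneg _) h5 2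
    _ ≤ (∑ l ∈ Finset.range N, ‖A l‖^2) * N := h6
    _ ≤ (N:ℝ)^2 * N := mul_le_mul_of_nonneg_right h2 (Nat.cast_nonneg _)
    _ = _ := by ring

lemma pt_sq_add_one (s : ℝ) : (pt s)^2 + 1 = ((-(2 * Real.sin s) : ℝ) : ℂ) * pt s := by
  rw [pt_eq]
  have h := Real.sin_sq_add_cos_sq s
  apply Complex.ext
  · rw [Complex.re_ofReal_mul]
    simp [pow_two]
    nlinarith
  · rw [Complex.im_ofReal_mul]
    simp [pow_two]
    ring

def SN (t : ℕ) : Finset (ℕ × ℕ) := Finset.range (t^4) ×ˢ Finset.range (t^4)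

lemma one_var (t m : ℕ) (ht : 0 < t) (hm1 : 6500 * t^6 ≤ m) (hm2 : m ≤ 13000 * t^6) :
    ∃ (c p : ℕ × ℕ → ℂ), (∀ x, ‖p x‖ = 1) ∧
    (∀ k : ℕ, ‖∑ x ∈ SN t, c x * (p x)^k‖ ≤ (t:ℝ)^6) ∧
    (t:ℝ)^8 * ((1/(16 * (t:ℝ)))^7 / 2) ≤ ‖∑ x ∈ SN t, c x * (((p x)^2 + 1)^7 * (phi (p x))^m)‖ := by
  set N : ℕ := t^4 with hNdef
  have hN : 0 < N := by positivity
  have htr : (1:ℝ) ≤ t := by exact_mod_cast ht
  have htr0 : (0:ℝ) < t := by linarith
  have hNt : (N:ℝ) = (t:ℝ)^4 := by rw [hNdef]; push_cast; ring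
  have hNpos : (0:ℝ) < N := by exact_mod_cast hN
  have hm1' : 6500 * (t:ℝ)^6 ≤ m := by exact_mod_cast hm1
  have hm2' : (m:ℝ) ≤ 13000 * (t:ℝ)^6 := by exact_mod_cast hm2
  have hmpos : (0:ℝ) < m := lt_of_lt_of_le (by positivity) hm1'
  set s0 : ℝ := 1/(16 * (t:ℝ)) with hs0def
  have hs0pos : 0 < s0 := by positivity
  have hs0le : s0 ≤ 1/16 := by
    rw [hs0def]; apply one_div_le_one_div_of_le (by norm_num); linarith
  set ε : ℝ := Real.sqrt (2 * Real.pi / (m * N)) with hε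
  have hε0 : 0 ≤ ε := Real.sqrt_nonneg _
  have hε2 : ε^2 = 2 * Real.pi / (m * N) := Real.sq_sqrt (by positivity)
  have hpi := Real.pi_lt_d2
  have hpi0 := Real.pi_pos
  have hεN : 2 * N * ε ≤ s0 := by
    have h1 : (2 * N * ε)^2 ≤ s0^2 := by
      rw [mul_pow, hε2]
      have e1 : (2 * (N:ℝ))^2 * (2 * Real.pi / (m * N)) = 8 * Real.pi * N / m := by field_simp; ring
      rw [e1, div_le_iff₀ hmpos, hNt, hs0def]
      calc 8 * Real.pi * (t:ℝ)^4 ≤ 8 * 3.15 * (t:ℝ)^4 := by gcongr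
        _ ≤ (1/(16 * (t:ℝ)))^2 * (6500 * (t:ℝ)^6) := by
            have : (1/(16 * (t:ℝ)))^2 * (6500 * (t:ℝ)^6) = 6500/256 * (t:ℝ)^4 := by field_simp; ring
            rw [this]
            apply mul_le_mul_of_nonneg_right _ (by positivity)
            norm_num
        _ ≤ _ := mul_le_mul_of_nonneg_left hm1' (by positivity)
    exact le_of_sq_le_sq h1 hs0pos.le |>.trans le_rfl
  set ω : ℂ := Complex.exp (2 * Real.pi * Complex.I / N) with hω
  have hprim : IsPrimitiveRoot ω N := Complex.isPrimitiveRoot_exp N hN.ne'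
  have hωn : ‖ω‖ = 1 := by
    rw [hω, show (2 * Real.pi * Complex.I / N : ℂ) = ((2 * Real.pi / N : ℝ) : ℂ) * Complex.I by
      push_cast; ring, Complex.norm_exp_ofReal_mul_I]
  set κ : ℕ := 7 + 10 * m with hκ
  set a : ℕ → ℂ := fun j => Complex.exp ((-(κ * ε * j) - m * ε^2 * j^2 / 2 - m * s0 * ε * j : ℝ) * Complex.I)
    with ha
  have han : ∀ j, ‖a j‖ = 1 := fun j => Complex.norm_exp_ofReal_mul_I _
  refine ⟨fun x => (ω⁻¹)^(x.1 * x.2) * (a x.1 * a x.2), fun x => pt (s0 + ε * (x.1 + x.2)),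
    fun x => norm_pt _, ?_, ?_⟩
  · intro k
    have h1 : ∑ x ∈ SN t, (ω⁻¹)^(x.1 * x.2) * (a x.1 * a x.2) * (pt (s0 + ε * (x.1 + x.2)))^k =
        ∑ j ∈ Finset.range N, ∑ l ∈ Finset.range N, (ω⁻¹)^(j*l) *
          ((a j * Complex.I^k * Complex.exp ((k * (s0 + ε * j) : ℝ) * Complex.I)) *
            (a l * Complex.exp ((k * ε * l : ℝ) * Complex.I))) := by
      rw [SN, Finset.sum_product]
      apply Finset.sum_congr rfl
      intro j _
      apply Finset.sum_congr rfl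
      intro l _
      have : (pt (s0 + ε * (j + l)))^k = Complex.I^k * (Complex.exp ((k * (s0 + ε * j) : ℝ) * Complex.I) *
          Complex.exp ((k * ε * l : ℝ) * Complex.I)) := by
        unfold pt
        rw [mul_pow, ← Complex.exp_nat_mul, ← Complex.exp_add]
        congr 2
        push_cast; ring
      simp only
      rw [this]; ring
    rw [h1]
    have h2 := bilinear N hN ω hprim hωn
      (fun j => a j * Complex.I^k * Complex.exp ((k * (s0 + ε * j) : ℝ) * Complex.I))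
      (fun l => a l * Complex.exp ((k * ε * l : ℝ) * Complex.I))
      (fun j => by
        rw [norm_mul, norm_mul, han, norm_pow, Complex.norm_I, one_pow,
          Complex.norm_exp_ofReal_mul_I]; simp)
      (fun l => by rw [norm_mul, han, Complex.norm_exp_ofReal_mul_I]; simp)
    have h3 : ((N:ℝ))^3 = ((t:ℝ)^6)^2 := by rw [hNt]; ring
    rw [h3] at h2
    exact le_of_sq_le_sq h2 (by positivity) |>.trans le_rfl
  · set U : ℂ := -(Complex.I^κ * Complex.exp ((κ * s0 : ℝ) * Complex.I) *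
      Complex.exp ((m * s0^2/2 : ℝ) * Complex.I)) with hU
    have hUn : ‖U‖ = 1 := by
      rw [hU, norm_neg, norm_mul, norm_mul, norm_pow, Complex.norm_I, one_pow,
        Complex.norm_exp_ofReal_mul_I, Complex.norm_exp_ofReal_mul_I]; simp
    set G : ℕ × ℕ → ℂ := fun x => ((2^7 * (Real.sin (s0 + ε * (x.1 + x.2)))^7 : ℝ) : ℂ) *
      (Complex.exp ((-(m * (s0 + ε * (x.1 + x.2))^2 / 2) : ℝ) * Complex.I) *
        (psi (s0 + ε * (x.1 + x.2)))^m) with hG
    have hfac : ∀ x ∈ SN t, (ω⁻¹)^(x.1 * x.2) * (a x.1 * a x.2) *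
        (((pt (s0 + ε * (x.1 + x.2)))^2 + 1)^7 * (phi (pt (s0 + ε * (x.1 + x.2))))^m) = U * G x := by
      rintro ⟨j, l⟩ hx
      simp only [hG]
      set s : ℝ := s0 + ε * (j + l) with hs
      rw [pt_sq_add_one, phi_pt]
      have e0 : (((-(2 * Real.sin s) : ℝ) : ℂ) * pt s)^7 * ((pt s)^10 * psi s)^m =
          -((2^7 * (Real.sin s)^7 : ℝ) : ℂ) * ((pt s)^κ * (psi s)^m) := by
        rw [mul_pow, mul_pow, ← pow_mul, hκ, pow_add]
        push_cast
        ring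
      rw [e0]
      have e1 : (pt s)^κ = Complex.I^κ * Complex.exp ((κ * s : ℝ) * Complex.I) := by
        unfold pt
        rw [mul_pow, ← Complex.exp_nat_mul]
        congr 2
        push_cast; ring
      rw [e1]
      have e2 : (ω⁻¹)^(j * l) * (a j * a l) * Complex.exp ((κ * s : ℝ) * Complex.I) =
          Complex.exp ((κ * s0 : ℝ) * Complex.I) * Complex.exp ((m * s0^2/2 : ℝ) * Complex.I) *
          Complex.exp ((-(m * s^2 / 2) : ℝ) * Complex.I) := by
        rw [ha, hω]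
        simp only
        rw [← Complex.exp_neg, ← Complex.exp_nat_mul, ← Complex.exp_add, ← Complex.exp_add,
          ← Complex.exp_add, ← Complex.exp_add, ← Complex.exp_add]
        congr 1
        have e3 : (m:ℂ) * (ε:ℂ)^2 = 2 * Real.pi / N := by
          have : (m:ℝ) * ε^2 = 2 * Real.pi / N := by rw [hε2]; field_simp
          exact_mod_cast congrArg (fun x : ℝ => (x:ℂ)) this
        rw [hs]
        push_cast
        have e4 : ((j:ℂ) * (l:ℂ)) * -(2 * (Real.pi:ℂ) * Complex.I / (N:ℂ)) =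
            -((j:ℂ) * (l:ℂ)) * ((m:ℂ) * (ε:ℂ)^2) * Complex.I := by rw [e3]; ring
        rw [e4]
        ring
      calc (ω⁻¹)^(j * l) * (a j * a l) *
            (-((2^7 * (Real.sin s)^7 : ℝ) : ℂ) * (Complex.I^κ * Complex.exp ((κ * s : ℝ) * Complex.I) * (psi s)^m))
          = -((2^7 * (Real.sin s)^7 : ℝ) : ℂ) * Complex.I^κ * (psi s)^m *
            ((ω⁻¹)^(j * l) * (a j * a l) * Complex.exp ((κ * s : ℝ) * Complex.I)) := by ring
        _ = _ := by rw [e2, hU]; ring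
    rw [Finset.sum_congr rfl hfac, ← Finset.mul_sum, norm_mul, hUn, one_mul]
    have hGre : ∀ x ∈ SN t, s0^7 / 2 ≤ (G x).re := by
      rintro ⟨j, l⟩ hx
      simp only [hG]
      rw [SN, Finset.mem_product, Finset.mem_range, Finset.mem_range] at hx
      obtain ⟨hj, hl⟩ := hx
      simp only at hj hl
      set s : ℝ := s0 + ε * (j + l) with hs
      have hjl : (j:ℝ) + l ≤ 2 * N := by
        have h1 : (j:ℝ) ≤ N := by exact_mod_cast hj.le
        have h2 : (l:ℝ) ≤ N := by exact_mod_cast hl.le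
        linarith
      have hss0 : s0 ≤ s := by
        rw [hs]; have : 0 ≤ ε * ((j:ℝ) + l) := by positivity
        linarith
      have hs2s0 : s ≤ 2 * s0 := by
        have h1 : ε * ((j:ℝ) + l) ≤ ε * (2 * N) := mul_le_mul_of_nonneg_left hjl hε0
        rw [hs]; linarith
      have hs0' : 0 ≤ s := by linarith
      have hs1 : s ≤ 1 := by linarith
      have happ := psi_pow_approx s hs0' hs1 m
      have herr : (m:ℝ) * (5 * s^6) ≤ 1/2 := by
        have h1 : s^6 ≤ (2 * s0)^6 := pow_le_pow_left₀ hs0' hs2s0 6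
        have h2 : (2 * s0)^6 = 1/(262144 * (t:ℝ)^6) := by
          rw [hs0def]; field_simp; norm_num
        calc (m:ℝ) * (5 * s^6) ≤ (13000 * (t:ℝ)^6) * (5 * (1/(262144 * (t:ℝ)^6))) := by
              apply mul_le_mul hm2' _ (by positivity) (by positivity)
              rw [← h2]; linarith
          _ = 65000/262144 := by field_simp; norm_num
          _ ≤ 1/2 := by norm_num
      set W : ℂ := Complex.exp ((-(m * s^2 / 2) : ℝ) * Complex.I) * (psi s)^m with hW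
      have hone : (1:ℂ) = Complex.exp ((-(m * s^2 / 2) : ℝ) * Complex.I) *
          Complex.exp ((m * s^2/2 : ℝ) * Complex.I) := by
        rw [← Complex.exp_add, ← add_mul, ← Complex.ofReal_add, neg_add_cancel]; simp
      have hW1 : ‖W - 1‖ ≤ 1/2 := by
        have : W - 1 = Complex.exp ((-(m * s^2 / 2) : ℝ) * Complex.I) *
            ((psi s)^m - Complex.exp ((m * s^2/2 : ℝ) * Complex.I)) := by
          rw [mul_sub, ← hone]
        rw [this, norm_mul, Complex.norm_exp_ofReal_mul_I, one_mul]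
        exact happ.trans herr
      have hWre : 1/2 ≤ W.re := by
        have h1 := (abs_le.mp ((Complex.abs_re_le_norm (W - 1)).trans hW1)).1
        rw [Complex.sub_re, Complex.one_re] at h1
        linarith
      rw [Complex.re_ofReal_mul]
      have hsin : s/2 ≤ Real.sin s := by
        have h1 := Real.sin_gt_sub_cube (lt_of_lt_of_le hs0pos hss0)
        have h2 : s^3 ≤ s := by nlinarith [mul_nonneg hs0' (sub_nonneg.mpr hs1), mul_nonneg (mul_nonneg hs0' hs0') (sub_nonneg.mpr hs1)]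
        linarith
      have hsin7 : (s/2)^7 ≤ (Real.sin s)^7 := pow_le_pow_left₀ (by linarith) hsin 7
      have hs7 : s0^7 ≤ s^7 := pow_le_pow_left₀ hs0pos.le hss0 7
      calc s0^7/2 ≤ s^7/2 := by linarith
        _ = (2^7 * (s/2)^7) * (1/2) := by ring
        _ ≤ (2^7 * (Real.sin s)^7) * W.re := by
            have hsin0 : 0 ≤ Real.sin s := by linarith
            apply mul_le_mul _ hWre (by norm_num) (by positivity)
            linarith
    have hcard : ((SN t).card : ℝ) = (t:ℝ)^8 := by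
      rw [SN, Finset.card_product, Finset.card_range]; push_cast; ring
    calc (t:ℝ)^8 * (s0^7/2) = ∑ x ∈ SN t, s0^7/2 := by
          rw [Finset.sum_const, nsmul_eq_mul, hcard]
      _ ≤ ∑ x ∈ SN t, (G x).re := Finset.sum_le_sum hGre
      _ = (∑ x ∈ SN t, G x).re := (Complex.re_sum _ _).symm
      _ ≤ ‖∑ x ∈ SN t, G x‖ := Complex.re_le_norm _

/-! ### Part C: polynomials in one variable and coefficients -/

open Polynomial in
def YYP : Polynomial ℂ := C (1/384) * (X^2 - 1) * (X^2+1)^2 * (C 24*X^2 + C 5*(X^2+1)^2)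

open Polynomial in
def phiP : Polynomial ℂ := X^10 + X^5 * YYP + C (1/2) * YYP^2 - C (1/128)*X^4*(X^2+1)^6

open Polynomial in
def gP (m : ℕ) : Polynomial ℂ := (X^2+1)^7 * phiP^m

lemma eval_phiP (x : ℂ) : phiP.eval x = phi x := by
  unfold phiP YYP phi YY
  simp only [Polynomial.eval_add, Polynomial.eval_sub, Polynomial.eval_mul, Polynomial.eval_pow,
    Polynomial.eval_X, Polynomial.eval_C, Polynomial.eval_one]
  ring

lemma eval_gP (m : ℕ) (x : ℂ) : (gP m).eval x = (x^2+1)^7 * (phi x)^m := by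
  unfold gP
  simp only [Polynomial.eval_add, Polynomial.eval_mul, Polynomial.eval_pow,
    Polynomial.eval_X, Polynomial.eval_one, eval_phiP]

def hh (m n : ℕ) : ℂ := (gP m).coeff n

lemma norm_gP_le (m : ℕ) (x : ℂ) (hx : ‖x‖ ≤ 1) : ‖(gP m).eval x‖ ≤ 128 := by
  rw [eval_gP, norm_mul, norm_pow, norm_pow]
  have h1 : ‖x^2+1‖ ≤ 2 := by
    calc ‖x^2+1‖ ≤ ‖x^2‖ + ‖(1:ℂ)‖ := norm_add_le _ _
      _ ≤ 1 + 1 := by
        rw [norm_pow, norm_one]
        have := pow_le_one₀ (norm_nonneg x) hx (n := 2)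
        linarith
      _ = 2 := by norm_num
  have h2 : ‖x^2+1‖^7 ≤ 2^7 := pow_le_pow_left₀ (norm_nonneg _) h1 7
  have h3 : ‖phi x‖^m ≤ 1 := pow_le_one₀ (norm_nonneg _) (phi_le_one x hx)
  calc _ ≤ (2:ℝ)^7 * 1 := mul_le_mul h2 h3 (by positivity) (by norm_num)
    _ = 128 := by norm_num

lemma norm_hh_le (m n : ℕ) : ‖hh m n‖ ≤ 128 := by
  set R : ℕ := (gP m).natDegree + n + 1 with hR
  have hR0 : 0 < R := by omega
  set ω : ℂ := Complex.exp (2 * Real.pi * Complex.I / R) with hω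
  have hprim : IsPrimitiveRoot ω R := Complex.isPrimitiveRoot_exp R hR0.ne'
  have hωn : ‖ω‖ = 1 := by
    rw [hω, show (2 * Real.pi * Complex.I / R : ℂ) = ((2 * Real.pi / R : ℝ) : ℂ) * Complex.I by
      push_cast; ring, Complex.norm_exp_ofReal_mul_I]
  have h1 : ∑ r ∈ Finset.range R, ((ω⁻¹)^n)^r * (gP m).eval (ω^r) = (R:ℂ) * hh m n := by
    have e1 : ∀ r, (gP m).eval (ω^r) = ∑ k ∈ Finset.range R, (gP m).coeff k * (ω^r)^k := by
      intro r
      exact Polynomial.eval_eq_sum_range' (by omega) _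
    simp_rw [e1, Finset.mul_sum]
    rw [Finset.sum_comm]
    calc ∑ k ∈ Finset.range R, ∑ r ∈ Finset.range R, ((ω⁻¹)^n)^r * ((gP m).coeff k * (ω^r)^k)
        = ∑ k ∈ Finset.range R, (if n = k then (R:ℂ) else 0) * (gP m).coeff k := by
          apply Finset.sum_congr rfl
          intro k hk
          rw [← orth R hR0 n k (by omega) (Finset.mem_range.mp hk) ω hprim, Finset.sum_mul]
          apply Finset.sum_congr rfl
          intro r _
          rw [mul_pow, ← pow_mul ω k r, mul_comm k r, pow_mul]; ring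
      _ = _ := by
          rw [Finset.sum_eq_single n]
          · rw [if_pos rfl]; rfl
          · intro k _ hkn
            rw [if_neg (Ne.symm hkn), zero_mul]
          · intro h; exact absurd (Finset.mem_range.mpr (by omega)) h
  have h2 : ‖(R:ℂ) * hh m n‖ ≤ R * 128 := by
    rw [← h1]
    refine (norm_sum_le _ _).trans ?_
    calc ∑ r ∈ Finset.range R, ‖((ω⁻¹)^n)^r * (gP m).eval (ω^r)‖ ≤ ∑ r ∈ Finset.range R, (128:ℝ) := by
          apply Finset.sum_le_sum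
          intro r _
          rw [norm_mul, norm_pow, norm_pow, norm_inv, hωn, inv_one, one_pow, one_pow, one_mul]
          apply norm_gP_le
          rw [norm_pow, hωn, one_pow]
      _ = R * 128 := by rw [Finset.sum_const, Finset.card_range, nsmul_eq_mul]
  rw [norm_mul, Complex.norm_natCast] at h2
  have hRpos : (0:ℝ) < R := by exact_mod_cast hR0
  exact le_of_mul_le_mul_left h2 hRpos

lemma hh_hasSum (w x : ℂ) (hw : ‖w‖ < 1) (hx : ‖x‖ < 1) :
    HasSum (fun p : ℕ × ℕ => hh p.1 p.2 * w ^ p.1 * x ^ p.2) ((x^2+1)^7 / (1 - w * phi x)) := by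
  have hs : Summable (fun p : ℕ × ℕ => hh p.1 p.2 * w ^ p.1 * x ^ p.2) := by
    have h1 : Summable (fun p : ℕ × ℕ => ‖w‖ ^ p.1 * ‖x‖ ^ p.2) :=
      (summable_geometric_of_lt_one (norm_nonneg _) hw).mul_of_nonneg
        (summable_geometric_of_lt_one (norm_nonneg _) hx)
        (fun _ => by positivity) (fun _ => by positivity)
    refine Summable.of_norm_bounded (h1.mul_left 128) ?_
    intro p
    rw [norm_mul, norm_mul, norm_pow, norm_pow, mul_assoc]
    exact mul_le_mul_of_nonneg_right (norm_hh_le _ _) (by positivity)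
  have h2 : ∑' p : ℕ × ℕ, hh p.1 p.2 * w ^ p.1 * x ^ p.2 = (x^2+1)^7 / (1 - w * phi x) := by
    rw [hs.tsum_prod]
    have h3 : ∀ m, ∑' n, hh m n * w ^ m * x ^ n = (x^2+1)^7 * (w * phi x)^m := by
      intro m
      rw [tsum_eq_sum (s := Finset.range ((gP m).natDegree + 1))]
      · calc ∑ n ∈ Finset.range ((gP m).natDegree + 1), hh m n * w ^ m * x ^ n
            = w^m * ∑ n ∈ Finset.range ((gP m).natDegree + 1), (gP m).coeff n * x ^ n := by
              rw [Finset.mul_sum]; apply Finset.sum_congr rfl; intro n _; unfold hh; ring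
          _ = w^m * (gP m).eval x := by rw [← Polynomial.eval_eq_sum_range]
          _ = _ := by rw [eval_gP, mul_pow]; ring
      · intro n hn
        have : hh m n = 0 := by
          unfold hh
          apply Polynomial.coeff_eq_zero_of_natDegree_lt
          rw [Finset.mem_range] at hn; omega
        rw [this]; ring
    simp_rw [h3]
    rw [tsum_mul_left, tsum_geometric_of_norm_lt_one, div_eq_mul_inv]
    rw [norm_mul]
    calc ‖w‖ * ‖phi x‖ ≤ ‖w‖ * 1 := mul_le_mul_of_nonneg_left (phi_le_one x hx.le) (norm_nonneg _)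
      _ < 1 := by rw [mul_one]; exact hw
  rw [← h2]
  exact hs.hasSum

lemma block (t m : ℕ) (ht : 0 < t) (hm1 : 6500 * t^6 ≤ m) (hm2 : m ≤ 13000 * t^6) (D : ℕ)
    (hD : (gP m).natDegree < D) :
    1/(2*16^7*(t:ℝ)^5) ≤ ∑ n ∈ Finset.range D, ‖hh m n‖ := by
  obtain ⟨c, p, hp, h1, h2⟩ := one_var t m ht hm1 hm2
  have htr0 : (0:ℝ) < t := by exact_mod_cast ht
  have h3 : ∑ x ∈ SN t, c x * (((p x)^2 + 1)^7 * (phi (p x))^m) =
      ∑ n ∈ Finset.range D, hh m n * ∑ x ∈ SN t, c x * (p x)^n := by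
    simp_rw [Finset.mul_sum]
    rw [Finset.sum_comm]
    apply Finset.sum_congr rfl
    intro x _
    rw [← eval_gP, Polynomial.eval_eq_sum_range' hD, Finset.mul_sum]
    apply Finset.sum_congr rfl
    intro n _
    unfold hh; ring
  rw [h3] at h2
  have h4 : ‖∑ n ∈ Finset.range D, hh m n * ∑ x ∈ SN t, c x * (p x)^n‖ ≤
      (∑ n ∈ Finset.range D, ‖hh m n‖) * (t:ℝ)^6 := by
    refine (norm_sum_le _ _).trans ?_
    rw [Finset.sum_mul]
    apply Finset.sum_le_sum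
    intro n _
    rw [norm_mul]
    exact mul_le_mul_of_nonneg_left (h1 n) (norm_nonneg _)
  have h5 := h2.trans h4
  have h6 : (t:ℝ)^8 * ((1/(16 * (t:ℝ)))^7 / 2) = (1/(2*16^7*(t:ℝ)^5)) * (t:ℝ)^6 := by
    field_simp
  rw [h6] at h5
  exact le_of_mul_le_mul_right h5 (by positivity)

lemma not_summable_hh : ¬ Summable (fun p : ℕ × ℕ => ‖hh p.1 p.2‖) := by
  intro hs
  set S := ∑' p : ℕ × ℕ, ‖hh p.1 p.2‖ with hS
  obtain ⟨t, ht⟩ := exists_nat_gt (S * (2*16^7) / 6500)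
  have hS0 : 0 ≤ S := tsum_nonneg fun _ => norm_nonneg _
  have htpos : 0 < t := by
    have : (0:ℝ) < t := lt_of_le_of_lt (by positivity) ht
    exact_mod_cast this
  have htr : (0:ℝ) < t := by exact_mod_cast htpos
  set J := Finset.Ico (6500 * t^6) (13000 * t^6) with hJ
  set D := J.sup (fun m => (gP m).natDegree) + 1 with hDd
  have h1 : ∑ p ∈ J ×ˢ Finset.range D, ‖hh p.1 p.2‖ ≤ S :=
    hs.sum_le_tsum _ (fun _ _ => norm_nonneg _)
  rw [Finset.sum_product] at h1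
  have h2 : ∑ m ∈ J, 1/(2*16^7*(t:ℝ)^5) ≤ ∑ m ∈ J, ∑ n ∈ Finset.range D, ‖hh m n‖ := by
    apply Finset.sum_le_sum
    intro m hm
    have hm' := Finset.mem_Ico.mp hm
    apply block t m htpos hm'.1 hm'.2.le
    have := Finset.le_sup (f := fun m => (gP m).natDegree) hm
    omega
  rw [Finset.sum_const, nsmul_eq_mul] at h2
  have h3 : (J.card : ℝ) = 6500 * (t:ℝ)^6 := by
    rw [hJ, Nat.card_Ico]
    have : 13000 * t^6 - 6500 * t^6 = 6500 * t^6 := by omega
    rw [this]; push_cast; ring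
  rw [h3] at h2
  have h4 : 6500 * (t:ℝ)^6 * (1/(2*16^7*(t:ℝ)^5)) = 6500 * t / (2*16^7) := by field_simp
  rw [h4] at h2
  have h5 := h2.trans h1
  rw [div_lt_iff₀ (by norm_num)] at ht
  rw [div_le_iff₀ (by norm_num)] at h5
  linarith

/-! ### Part D: two-variable polynomials -/

open MvPolynomial in
def YYM : MvPolynomial (Fin 2) ℂ :=
  C (1/384) * (X 1^2 - 1) * (X 1^2+1)^2 * (C 24*X 1^2 + C 5*(X 1^2+1)^2)

open MvPolynomial in
def phiM : MvPolynomial (Fin 2) ℂ :=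
  X 1^10 + X 1^5 * YYM + C (1/2) * YYM^2 - C (1/128)*X 1^4*(X 1^2+1)^6

open MvPolynomial in
def AA : MvPolynomial (Fin 2) ℂ := (X 1^2 + 1)^7

open MvPolynomial in
def BB : MvPolynomial (Fin 2) ℂ := 1 - X 0 * phiM

lemma eval_phiM (z : Fin 2 → ℂ) : MvPolynomial.eval z phiM = phi (z 1) := by
  unfold phiM YYM phi YY
  simp only [map_add, map_sub, map_mul, map_pow, MvPolynomial.eval_X, MvPolynomial.eval_C, map_one]
  ring

lemma eval_AA (z : Fin 2 → ℂ) : MvPolynomial.eval z AA = ((z 1)^2 + 1)^7 := by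
  unfold AA
  simp only [map_add, map_pow, MvPolynomial.eval_X, map_one]

lemma eval_BB (z : Fin 2 → ℂ) : MvPolynomial.eval z BB = 1 - z 0 * phi (z 1) := by
  unfold BB
  simp only [map_sub, map_mul, MvPolynomial.eval_X, map_one, eval_phiM]

lemma AA_ne_zero : AA ≠ 0 := by
  intro h
  have h1 := eval_AA (fun _ => 0)
  rw [h, map_zero] at h1
  norm_num at h1

open MvPolynomial in
lemma degreeOf_AA : degreeOf 0 AA = 0 := by
  have h1 : degreeOf (0 : Fin 2) ((X 1 ^ 2 + 1 : MvPolynomial (Fin 2) ℂ)) = 0 := by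
    have h2 := degreeOf_add_le (0 : Fin 2) (X 1 ^ 2 : MvPolynomial (Fin 2) ℂ) 1
    have h3 : degreeOf (0 : Fin 2) (X 1 ^ 2 : MvPolynomial (Fin 2) ℂ) = 0 := by
      have h4 := degreeOf_pow_le (0 : Fin 2) (X 1 : MvPolynomial (Fin 2) ℂ) 2
      rw [degreeOf_X_of_ne (by decide)] at h4
      omega
    rw [h3, degreeOf_one] at h2
    simpa using h2
  have h5 := degreeOf_pow_le (0 : Fin 2) (X 1 ^ 2 + 1 : MvPolynomial (Fin 2) ℂ) 7
  rw [h1] at h5
  unfold AA
  omega

open MvPolynomial in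
lemma relprime : IsRelPrime AA BB := by
  intro r hrP hrQ
  obtain ⟨s, hs⟩ := hrP
  obtain ⟨t, ht⟩ := hrQ
  have hr0 : r ≠ 0 := by rintro rfl; rw [zero_mul] at hs; exact AA_ne_zero hs
  have hs0 : s ≠ 0 := by rintro rfl; rw [mul_zero] at hs; exact AA_ne_zero hs
  have hdeg : degreeOf 0 r = 0 := by
    have h1 := degreeOf_mul_eq (n := (0 : Fin 2)) hr0 hs0
    rw [← hs, degreeOf_AA] at h1
    omega
  -- substitution X 0 ↦ 0
  set σ : MvPolynomial (Fin 2) ℂ →ₐ[ℂ] MvPolynomial (Fin 2) ℂ :=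
    aeval (fun i => if i = 0 then 0 else X i) with hσ
  have hσr : σ r = r := by
    have h1 : σ.toRingHom r = (RingHom.id _) r := by
      apply hom_congr_vars (f₁ := σ.toRingHom) (f₂ := RingHom.id _)
      · ext x; simp [hσ]
      · intro i hi _
        have hi0 : i ≠ 0 := by
          rintro rfl
          rw [mem_vars_iff_mem_support] at hi
          obtain ⟨d, hd, hd2⟩ := hi
          have h3 := monomial_le_degreeOf (0 : Fin 2) hd
          rw [hdeg] at h3
          have : d 0 = 0 := by omega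
          exact (Finsupp.mem_support_iff.mp hd2) this
        simp [hσ, hi0]
      · rfl
    exact h1
  have hσQ : σ BB = 1 := by
    unfold BB
    rw [map_sub, map_one, map_mul]
    have : σ (X 0) = 0 := by rw [hσ, aeval_X]; simp
    rw [this, zero_mul, sub_zero]
  have h1 : r * σ t = 1 := by
    rw [← hσQ, ht, map_mul, hσr]
  exact IsUnit.of_mul_eq_one _ h1

lemma zero_of_BB (z : Fin 2 → ℂ) (hz : ∀ i, ‖z i‖ ≤ 1) (hQ : 1 - z 0 * phi (z 1) = 0) :
    (z 1)^2 + 1 = 0 ∧ ‖z 0‖ = 1 := by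
  have h1 : ‖z 0‖ * ‖phi (z 1)‖ = 1 := by
    have : z 0 * phi (z 1) = 1 := (sub_eq_zero.mp hQ).symm
    have h2 := congrArg norm this
    rwa [norm_mul, norm_one] at h2
  have hphi := phi_le_one (z 1) (hz 1)
  have h4 : 1 ≤ ‖phi (z 1)‖ := by
    calc 1 = ‖z 0‖ * ‖phi (z 1)‖ := h1.symm
      _ ≤ 1 * ‖phi (z 1)‖ := mul_le_mul_of_nonneg_right (hz 0) (norm_nonneg _)
      _ = _ := one_mul _
  have h8 : ‖z 0‖ = 1 := by
    apply le_antisymm (hz 0)
    calc 1 = ‖z 0‖ * ‖phi (z 1)‖ := h1.symm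
      _ ≤ ‖z 0‖ * 1 := mul_le_mul_of_nonneg_left hphi (norm_nonneg _)
      _ = _ := mul_one _
  have h5 := one_sub_phi (z 1) (hz 1)
  have h6 : ‖(z 1)^2 + 1‖^6 ≤ 0 := by linarith
  have h7 : ‖(z 1)^2 + 1‖ = 0 := by
    by_contra hne
    have : 0 < ‖(z 1)^2 + 1‖ := lt_of_le_of_ne (norm_nonneg _) (Ne.symm hne)
    have : 0 < ‖(z 1)^2 + 1‖^6 := by positivity
    linarith
  exact ⟨norm_eq_zero.mp h7, h8⟩

def FF (z : Fin 2 → ℂ) : ℂ :=
  if MvPolynomial.eval z BB = 0 then 0 else MvPolynomial.eval z AA / MvPolynomial.eval z BB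

lemma FF_bound (z : Fin 2 → ℂ) (hz : ∀ i, ‖z i‖ ≤ 1) : ‖FF z‖ ≤ (4096/7) * ‖(z 1)^2 + 1‖ := by
  unfold FF
  split_ifs with h
  · rw [norm_zero]; positivity
  · rw [norm_div, eval_AA, norm_pow]
    set v := ‖(z 1)^2 + 1‖ with hv
    have hv0 : 0 ≤ v := norm_nonneg _
    have hq : (7/4096) * v^6 ≤ ‖MvPolynomial.eval z BB‖ := by
      rw [eval_BB]
      have h1 : ‖z 0 * phi (z 1)‖ ≤ ‖phi (z 1)‖ := by
        rw [norm_mul]
        calc ‖z 0‖ * ‖phi (z 1)‖ ≤ 1 * ‖phi (z 1)‖ := mul_le_mul_of_nonneg_right (hz 0) (norm_nonneg _)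
          _ = _ := one_mul _
      have h4 := one_sub_phi (z 1) (hz 1)
      have h5 := norm_sub_norm_le (1:ℂ) (z 0 * phi (z 1))
      rw [norm_one] at h5
      linarith
    have hq0 : 0 < ‖MvPolynomial.eval z BB‖ := norm_pos_iff.mpr h
    rw [div_le_iff₀ hq0]
    calc v^7 = (4096/7) * v * ((7/4096) * v^6) := by ring
      _ ≤ (4096/7) * v * ‖MvPolynomial.eval z BB‖ :=
          mul_le_mul_of_nonneg_left hq (by positivity)

lemma FF_continuousOn : ContinuousOn FF {z : Fin 2 → ℂ | ∀ i, ‖z i‖ ≤ 1} := by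
  intro z hz
  by_cases h : MvPolynomial.eval z BB = 0
  · have hv : (z 1)^2 + 1 = 0 := (zero_of_BB z hz (by rw [← eval_BB]; exact h)).1
    have hFz : FF z = 0 := by unfold FF; rw [if_pos h]
    unfold ContinuousWithinAt
    rw [hFz]
    apply squeeze_zero_norm' (a := fun z : Fin 2 → ℂ => (4096/7) * ‖(z 1)^2 + 1‖)
    · filter_upwards [self_mem_nhdsWithin] with w hw
      exact FF_bound w hw
    · have hc : Continuous (fun z : Fin 2 → ℂ => (4096/7) * ‖(z 1)^2 + 1‖) := by fun_prop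
      have := (hc.tendsto z).mono_left (nhdsWithin_le_nhds (s := {z : Fin 2 → ℂ | ∀ i, ‖z i‖ ≤ 1}))
      simp only [hv, norm_zero, mul_zero] at this
      exact this
  · apply ContinuousAt.continuousWithinAt
    have h1 : ContinuousAt (fun z : Fin 2 → ℂ =>
        MvPolynomial.eval z AA / MvPolynomial.eval z BB) z :=
      (MvPolynomial.continuous_eval AA).continuousAt.div (MvPolynomial.continuous_eval BB).continuousAt h
    refine h1.congr ?_
    have h2 : ∀ᶠ w in 𝓝 z, MvPolynomial.eval w BB ≠ 0 :=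
      (MvPolynomial.continuous_eval BB).continuousAt.eventually_ne h
    filter_upwards [h2] with w hw
    unfold FF
    rw [if_neg hw]

end

/-- The negation of the preceding statement: For coprime A,B in two variables whose B-zeros in the closed bidisc lie on the torus and are zeros of A, the Taylor coefficients of A/B are absolutely summable iff A/B extends continuously from the open to the closed bidisc. -/
theorem result :
    ¬ (∀ A B : MvPolynomial (Fin 2) ℂ,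
      IsRelPrime A B →
      (∀ z : Fin 2 → ℂ, (∀ i, ‖z i‖ ≤ 1) → MvPolynomial.eval z B = 0 →
        (∀ i, ‖z i‖ = 1) ∧ MvPolynomial.eval z A = 0) →
      ∀ h : ℕ → ℕ → ℂ,
        (∀ z : Fin 2 → ℂ, (∀ i, ‖z i‖ < 1) →
          HasSum (fun p : ℕ × ℕ => h p.1 p.2 * z 0 ^ p.1 * z 1 ^ p.2)
            (MvPolynomial.eval z A / MvPolynomial.eval z B)) →
        (Summable (fun p : ℕ × ℕ => ‖h p.1 p.2‖) ↔
          ∃ F : (Fin 2 → ℂ) → ℂ,
            ContinuousOn F {z : Fin 2 → ℂ | ∀ i, ‖z i‖ ≤ 1} ∧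
            ∀ z : Fin 2 → ℂ, (∀ i, ‖z i‖ < 1) →
              F z = MvPolynomial.eval z A / MvPolynomial.eval z B)) := by
  intro H
  have h1 := H AA BB relprime ?_ hh ?_
  · apply not_summable_hh
    rw [h1]
    refine ⟨FF, FF_continuousOn, ?_⟩
    intro z hz
    unfold FF
    rw [if_neg]
    intro h0
    rw [eval_BB] at h0
    have := (zero_of_BB z (fun i => (hz i).le) h0).2
    have h2 := hz 0
    linarith
  · intro z hz hB
    rw [eval_BB] at hB
    obtain ⟨h2, h3⟩ := zero_of_BB z hz hB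
    refine ⟨?_, ?_⟩
    · intro i
      fin_cases i
      · exact h3
      · show ‖z 1‖ = 1
        have h4 : (z 1)^2 = -1 := by linear_combination h2
        have h5 := congrArg norm h4
        rw [norm_pow, norm_neg, norm_one] at h5
        nlinarith [norm_nonneg (z 1)]
    · rw [eval_AA, h2]; ring
  · intro z hz
    rw [eval_AA, eval_BB]
    exact hh_hasSum (z 0) (z 1) (hz 0) (hz 1)

end Pool.Agent.S1908
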