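import Pool.Statements.S1911
-- import your own Pool.Agent.* helpers here

set_option autoImplicit false
open Pool Pool.MP_fd6048_an

namespace Pool.Agent.S1911

open Polynomial

/-! ### Part 1 : finite dimensional spaces carry no hypercyclic operators -/

lemma pow_mem_span {𝕂 V : Type*} [Field 𝕂] [AddCommGroup V] [Module 𝕂 V] (S : V →ₗ[𝕂] V) (v : V)
    (p : 𝕂[X]) (hp : p ≠ 0) (h : ∀ y, aeval S p y = 0) (k : ℕ) :
    (S^k) v ∈ Submodule.span 𝕂 (Set.range fun i : Fin p.natDegree => (S^(i:ℕ)) v) := by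
  have h1 : (X^k : 𝕂[X]) = p * (X^k / p) + X^k % p := (EuclideanDomain.div_add_mod (X^k) p).symm
  have h2 : (S^k) v = aeval S (X^k % p) v := by
    have : (S^k) v = aeval S (X^k : 𝕂[X]) v := by simp
    rw [this]
    conv_lhs => rw [h1]
    rw [map_add, LinearMap.add_apply, map_mul, Module.End.mul_apply, h, zero_add]
  rw [h2]
  have h3 : (X^k % p).degree < p.degree := EuclideanDomain.mod_lt _ hp
  have h4 : (X^k % p) = 0 ∨ (X^k % p).natDegree < p.natDegree := by
    by_cases h0 : X^k % p = 0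
    · left; exact h0
    · right; exact Polynomial.natDegree_lt_natDegree h0 h3
  rw [Polynomial.aeval_eq_sum_range, LinearMap.sum_apply]
  apply Submodule.sum_mem
  intro i hi
  rw [LinearMap.smul_apply]
  rcases h4 with h0 | h4
  · rw [h0]; simp
  · apply Submodule.smul_mem
    apply Submodule.subset_span
    rw [Finset.mem_range] at hi
    exact ⟨⟨i, by omega⟩, rfl⟩

lemma no_hc_findim {𝕂 V : Type*} [RCLike 𝕂] [AddCommGroup V] [Module 𝕂 V] [TopologicalSpace V]
    [IsTopologicalAddGroup V] [ContinuousSMul 𝕂 V] [T2Space V] [FiniteDimensional 𝕂 V] [Nontrivial V]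
    (S : V →ₗ[𝕂] V) (v : V) (hd : Dense (Set.range fun n : ℕ => (S^n) v)) : False := by
  set n := Module.finrank 𝕂 V with hn
  have hnpos : 0 < n := Module.finrank_pos
  let e : Module.Basis (Fin n) 𝕂 V := Module.finBasis 𝕂 V
  -- spanning
  have hchar := S.charpoly_natDegree
  have hcp0 : S.charpoly ≠ 0 := S.charpoly_monic.ne_zero
  have hspan : Submodule.span 𝕂 (Set.range fun i : Fin n => (S^(i:ℕ)) v) = ⊤ := by
    set W := Submodule.span 𝕂 (Set.range fun i : Fin n => (S^(i:ℕ)) v) with hW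
    have h1 : ∀ k, (S^k) v ∈ W := by
      intro k
      have := pow_mem_span S v S.charpoly hcp0 (by
        intro y; rw [LinearMap.aeval_self_charpoly]; rfl) k
      rw [hW]
      rw [hchar] at this
      exact this
    have h2 : IsClosed (W : Set V) := Submodule.closed_of_finiteDimensional W
    have h3 : (W : Set V) = Set.univ := by
      rw [← h2.closure_eq]
      apply Set.eq_univ_of_univ_subset
      rw [← hd.closure_eq]
      apply closure_mono
      rintro _ ⟨k, rfl⟩
      exact h1 k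
    exact SetLike.coe_injective (by simpa using h3)
  have hli : LinearIndependent 𝕂 (fun i : Fin n => (S^(i:ℕ)) v) :=
    linearIndependent_of_top_le_span_of_card_eq_finrank hspan.ge (by simp [hn])
  set F : V → 𝕂 := fun y => e.det (fun i : Fin n => (S^(i:ℕ)) y) with hF
  have hFv : F v ≠ 0 := by
    have := (e.is_basis_iff_det (v := fun i : Fin n => (S^(i:ℕ)) v)).mp ⟨hli, hspan⟩
    exact this.ne_zero
  have hFS : ∀ y, F (S y) = LinearMap.det S * F y := by
    intro y
    rw [hF]
    simp only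
    rw [← e.det_comp]
    congr 1
    ext i
    simp only [Function.comp]
    rw [← Module.End.mul_apply, ← Module.End.mul_apply, ← pow_succ, ← pow_succ']
  have hFk : ∀ k, F ((S^k) v) = (LinearMap.det S)^k * F v := by
    intro k
    induction k with
    | zero => simp
    | succ k ih => rw [pow_succ' S, Module.End.mul_apply, hFS, ih]; ring
  have hFc : Continuous F := by
    rw [hF]
    simp only [Module.Basis.det_apply]
    apply Continuous.matrix_det
    apply continuous_matrix
    intro i j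
    simp only [Module.Basis.toMatrix_apply]
    have : Continuous (((e.coord i).comp (S^(j:ℕ))) : V →ₗ[𝕂] 𝕂) :=
      LinearMap.continuous_of_finiteDimensional _
    exact this
  have hF0 : F 0 = 0 := by
    rw [hF]
    simp only [map_zero]
    exact (e.det : V [⋀^Fin n]→ₗ[𝕂] 𝕂).map_coord_zero (⟨0, hnpos⟩ : Fin n) rfl
  have hF2 : F ((2:𝕂) • v) = 2^n * F v := by
    rw [hF]
    simp only [map_smul]
    have := (e.det : V [⋀^Fin n]→ₗ[𝕂] 𝕂).toMultilinearMap.map_smul_univ (fun _ => (2:𝕂))
      (fun i : Fin n => (S^(i:ℕ)) v)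
    simp only [AlternatingMap.coe_multilinearMap] at this
    rw [this]
    simp
  have hpos : 0 < ‖F v‖ := norm_pos_iff.mpr hFv
  rcases le_total ‖LinearMap.det S‖ 1 with h | h
  · have h1 : ∀ y, ‖F y‖ ≤ ‖F v‖ := by
      have hcl : IsClosed {y | ‖F y‖ ≤ ‖F v‖} := isClosed_le hFc.norm continuous_const
      intro y
      have : y ∈ closure (Set.range fun n : ℕ => (S^n) v) := hd y
      have h2 : closure (Set.range fun n : ℕ => (S^n) v) ⊆ {y | ‖F y‖ ≤ ‖F v‖} := by
        apply closure_minimal _ hcl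
        rintro _ ⟨k, rfl⟩
        show ‖F ((S^k) v)‖ ≤ ‖F v‖
        rw [hFk, norm_mul, norm_pow]
        calc _ ≤ 1 * ‖F v‖ := mul_le_mul_of_nonneg_right (pow_le_one₀ (norm_nonneg _) h) hpos.le
          _ = _ := one_mul _
      exact h2 this
    have h3 := h1 ((2:𝕂) • v)
    rw [hF2, norm_mul, norm_pow, RCLike.norm_ofNat] at h3
    have h4 : (2:ℝ) ≤ 2^n := by
      calc (2:ℝ) = 2^1 := by norm_num
        _ ≤ 2^n := pow_le_pow_right₀ (by norm_num) hnpos
    nlinarith
  · have h1 : ∀ y, ‖F v‖ ≤ ‖F y‖ := by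
      have hcl : IsClosed {y | ‖F v‖ ≤ ‖F y‖} := isClosed_le continuous_const hFc.norm
      intro y
      have : y ∈ closure (Set.range fun n : ℕ => (S^n) v) := hd y
      have h2 : closure (Set.range fun n : ℕ => (S^n) v) ⊆ {y | ‖F v‖ ≤ ‖F y‖} := by
        apply closure_minimal _ hcl
        rintro _ ⟨k, rfl⟩
        show ‖F v‖ ≤ ‖F ((S^k) v)‖
        rw [hFk, norm_mul, norm_pow]
        calc ‖F v‖ = 1 * ‖F v‖ := (one_mul _).symm
          _ ≤ _ := mul_le_mul_of_nonneg_right (one_le_pow₀ h) hpos.le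
      exact h2 this
    have h3 := h1 0
    rw [hF0, norm_zero] at h3
    linarith

/-! ### Part 2 : polynomials in a hypercyclic operator have dense range -/

section
variable {𝕂 E : Type*} [RCLike 𝕂] [AddCommGroup E] [Module 𝕂 E] [TopologicalSpace E]
    [IsTopologicalAddGroup E] [ContinuousSMul 𝕂 E]

/-- `x` has a dense orbit under `T`. -/
def HC (T : E →L[𝕂] E) (x : E) : Prop := Dense (Set.range fun n : ℕ => (T^n) x)

lemma aeval_comm (T : E →L[𝕂] E) (p q : 𝕂[X]) (y : E) :
    aeval T p (aeval T q y) = aeval T q (aeval T p y) := by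
  have h : aeval T p * aeval T q = aeval T q * aeval T p := by
    rw [← map_mul, ← map_mul, mul_comm]
  exact congrArg (fun A : E →L[𝕂] E => A y) h

lemma comm_T (T : E →L[𝕂] E) (p : 𝕂[X]) (y : E) :
    aeval T p (T y) = T (aeval T p y) := by
  have := aeval_comm T p X y
  rwa [aeval_X] at this

lemma comm_pow (T : E →L[𝕂] E) (p : 𝕂[X]) (n : ℕ) (y : E) :
    aeval T p ((T^n) y) = (T^n) (aeval T p y) := by
  have := aeval_comm T p (X^n) y
  rwa [map_pow, aeval_X] at this

lemma dense_range_aeval (T : E →L[𝕂] E) (x : E) (hx : HC T x) (p : 𝕂[X]) (hp : p ≠ 0) :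
    DenseRange (aeval T p : E →L[𝕂] E) := by
  set P : E →L[𝕂] E := aeval T p with hP
  set Y : Submodule 𝕂 E := (LinearMap.range (P : E →ₗ[𝕂] E)).topologicalClosure with hY
  have hYclosed : IsClosed (Y : Set E) := Submodule.isClosed_topologicalClosure _
  have hPY : ∀ y, P y ∈ Y := fun y => Submodule.le_topologicalClosure _ ⟨y, rfl⟩
  have hTY : Y ≤ Y.comap (T : E →ₗ[𝕂] E) := by
    intro y hy
    have h1 : Set.MapsTo T (LinearMap.range (P : E →ₗ[𝕂] E) : Set E) (LinearMap.range (P : E →ₗ[𝕂] E) : Set E) := by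
      rintro _ ⟨z, rfl⟩
      refine ⟨T z, ?_⟩
      exact comm_T T p z
    have h2 := h1.closure T.continuous
    exact h2 hy
  haveI : IsClosed (Y : Set E) := hYclosed
  haveI : T2Space (E ⧸ Y) := by infer_instance
  let S : (E ⧸ Y) →ₗ[𝕂] (E ⧸ Y) := Y.mapQ Y (T : E →ₗ[𝕂] E) hTY
  have hS : ∀ y, S (Y.mkQ y) = Y.mkQ (T y) := fun y => rfl
  have hSk : ∀ k y, (S^k) (Y.mkQ y) = Y.mkQ ((T^k) y) := by
    intro k
    induction k with
    | zero => intro y; simp
    | succ k ih =>
      intro y
      rw [pow_succ, pow_succ, Module.End.mul_apply, hS, ih]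
      rfl
  have hSp : ∀ q : 𝕂[X], ∀ y, aeval S q (Y.mkQ y) = Y.mkQ (aeval T q y) := by
    intro q y
    rw [Polynomial.aeval_eq_sum_range, Polynomial.aeval_eq_sum_range, LinearMap.sum_apply,
      ContinuousLinearMap.sum_apply, map_sum]
    apply Finset.sum_congr rfl
    intro i _
    rw [LinearMap.smul_apply, hSk, ContinuousLinearMap.smul_apply, map_smul]
  have hSp0 : ∀ y, aeval S p y = 0 := by
    intro y
    obtain ⟨y, rfl⟩ := Y.mkQ_surjective y
    rw [hSp, ← hP]
    exact (Submodule.Quotient.mk_eq_zero Y).mpr (hPY y)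
  have hmkc : Continuous (Y.mkQ) := continuous_quot_mk
  have hdense : Dense (Set.range fun n : ℕ => (S^n) (Y.mkQ x)) := by
    have h1 : DenseRange (Y.mkQ ∘ fun n : ℕ => (T^n) x) :=
      DenseRange.comp (Y.mkQ_surjective.denseRange) hx hmkc
    have h2 : (Y.mkQ ∘ fun n : ℕ => (T^n) x) = fun n : ℕ => (S^n) (Y.mkQ x) := by
      ext n; simp only [Function.comp]; rw [hSk]
    rw [h2] at h1
    exact h1
  have hfin : FiniteDimensional 𝕂 (E ⧸ Y) := by
    set W := Submodule.span 𝕂 (Set.range fun i : Fin p.natDegree => (S^(i:ℕ)) (Y.mkQ x)) with hW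
    have hWfin : FiniteDimensional 𝕂 W := FiniteDimensional.span_of_finite 𝕂 (Set.finite_range _)
    have h2 : IsClosed (W : Set (E ⧸ Y)) := Submodule.closed_of_finiteDimensional W
    have h3 : (W : Set (E ⧸ Y)) = Set.univ := by
      rw [← h2.closure_eq]
      apply Set.eq_univ_of_univ_subset
      rw [← hdense.closure_eq]
      apply closure_mono
      rintro _ ⟨k, rfl⟩
      exact pow_mem_span S (Y.mkQ x) p hp hSp0 k
    have h4 : W = ⊤ := SetLike.coe_injective (by simpa using h3)
    rw [h4] at hWfin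
    exact Module.Finite.equiv (Submodule.topEquiv (R := 𝕂) (M := E ⧸ Y))
  have htriv : Y = ⊤ := by
    by_contra hne
    haveI : Nontrivial (E ⧸ Y) := Submodule.Quotient.nontrivial_iff.mpr hne
    exact no_hc_findim S (Y.mkQ x) hdense
  intro y
  have : y ∈ Y := by rw [htriv]; trivial
  exact this

lemma HC_aeval (T : E →L[𝕂] E) (x : E) (hx : HC T x) (p : 𝕂[X]) (hp : p ≠ 0) :
    HC T (aeval T p x) := by
  have h1 : DenseRange ((aeval T p : E →L[𝕂] E) ∘ fun n : ℕ => (T^n) x) :=
    DenseRange.comp (dense_range_aeval T x hx p hp) hx (aeval T p : E →L[𝕂] E).continuous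
  have h2 : ((aeval T p : E →L[𝕂] E) ∘ fun n : ℕ => (T^n) x) = fun n : ℕ => (T^n) (aeval T p x) := by
    ext n; simp only [Function.comp]; rw [comm_pow]
  rw [h2] at h1
  exact h1

lemma HC_smul (T : E →L[𝕂] E) (x : E) (hx : HC T x) (c : 𝕂) (hc : c ≠ 0) : HC T (c • x) := by
  have h1 := HC_aeval T x hx (C c) (by simpa using hc)
  simpa [Algebra.algebraMap_eq_smul_one] using h1

lemma HC_not_zero [Nontrivial E] [T2Space E] (T : E →L[𝕂] E) : ¬ HC T 0 := by
  intro h
  have h1 : (Set.range fun n : ℕ => (T^n) (0:E)) = {0} := by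
    ext y; simp [eq_comm]
  unfold HC at h
  rw [h1] at h
  obtain ⟨y, hy⟩ := exists_ne (0:E)
  have : y ∈ closure ({0} : Set E) := h y
  rw [closure_singleton] at this
  exact hy this

/-- late orbit points are dense -/
lemma exists_late (T : E →L[𝕂] E) (x : E) (hx : HC T x) (N : ℕ) (U : Set E) (hU : IsOpen U)
    (hne : U.Nonempty) : ∃ n, N ≤ n ∧ (T^n) x ∈ U := by
  have h1 : HC T (aeval T (X^N : 𝕂[X]) x) := HC_aeval T x hx _ (by simp)
  obtain ⟨y, hyU, ⟨n, rfl⟩⟩ := h1.inter_open_nonempty U hU hne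
  refine ⟨n + N, by omega, ?_⟩
  rw [pow_add]
  simpa using hyU

lemma exists_separated (T : E →L[𝕂] E) (x : E) (hx : HC T x) {ι : Type*} [Fintype ι] (U : ι → Set E)
    (hU : ∀ i, IsOpen (U i)) (hne : ∀ i, (U i).Nonempty) (m : ℕ) :
    ∃ a : ι → ℕ, (∀ i, (T^(a i)) x ∈ U i) ∧ (∀ i j, i ≠ j → a i + m < a j ∨ a j + m < a i) := by
  classical
  have key : ∀ s : Finset ι, ∃ a : ι → ℕ, (∀ i ∈ s, (T^(a i)) x ∈ U i) ∧
      (∀ i ∈ s, ∀ j ∈ s, i ≠ j → a i + m < a j ∨ a j + m < a i) := by
    intro s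
    induction s using Finset.induction_on with
    | empty => exact ⟨fun _ => 0, by simp, by simp⟩
    | insert i0 s hi0 ih =>
      obtain ⟨a, ha1, ha2⟩ := ih
      obtain ⟨n, hn, hnU⟩ := exists_late T x hx (s.sup a + m + 1) (U i0) (hU i0) (hne i0)
      refine ⟨Function.update a i0 n, ?_, ?_⟩
      · intro i hi
        by_cases h : i = i0
        · subst h; simpa using hnU
        · rw [Function.update_of_ne h]
          exact ha1 i (Finset.mem_of_mem_insert_of_ne hi h)
      · intro i hi j hj hij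
        by_cases h : i = i0
        · subst h
          have hj' : j ∈ s := Finset.mem_of_mem_insert_of_ne hj (Ne.symm hij)
          rw [Function.update_self, Function.update_of_ne (Ne.symm hij)]
          right
          have := Finset.le_sup (f := a) hj'
          omega
        · by_cases h' : j = i0
          · subst h'
            have hi' : i ∈ s := Finset.mem_of_mem_insert_of_ne hi hij
            rw [Function.update_self, Function.update_of_ne hij]
            left
            have := Finset.le_sup (f := a) hi'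
            omega
          · rw [Function.update_of_ne h, Function.update_of_ne h']
            exact ha2 i (Finset.mem_of_mem_insert_of_ne hi h) j (Finset.mem_of_mem_insert_of_ne hj h') hij
  obtain ⟨a, h1, h2⟩ := key Finset.univ
  exact ⟨a, fun i => h1 i (Finset.mem_univ _), fun i j => h2 i (Finset.mem_univ _) j (Finset.mem_univ _)⟩

lemma HC_comb (T : E →L[𝕂] E) (x : E) (hx : HC T x) {ι : Type*} [Fintype ι] (c : ι → 𝕂)
    (hc : c ≠ 0) (a : ι → ℕ) (ha : Function.Injective a) :
    HC T (∑ i, c i • (T^(a i)) x) := by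
  set q : 𝕂[X] := ∑ i, C (c i) * X^(a i) with hq
  have h1 : aeval T q x = ∑ i, c i • (T^(a i)) x := by
    rw [hq, map_sum, ContinuousLinearMap.sum_apply]
    apply Finset.sum_congr rfl
    intro i _
    rw [map_mul, map_pow, aeval_X, aeval_C]
    simp [Algebra.algebraMap_eq_smul_one]
  rw [← h1]
  apply HC_aeval T x hx
  intro h0
  obtain ⟨i, hi⟩ := Function.ne_iff.mp hc
  apply hi
  have h2 : q.coeff (a i) = 0 := by rw [h0]; simp
  rw [hq, Polynomial.finsetSum_coeff] at h2
  simp only [Polynomial.coeff_C_mul_X_pow] at h2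
  rw [Finset.sum_eq_single i] at h2
  · simpa using h2
  · intro j _ hji
    rw [if_neg]
    intro h; exact hji (ha h).symm
  · intro h; exact absurd (Finset.mem_univ _) h

end

/-! ### Part 3 : the Baire category argument -/

abbrev Kan : Type := ℕ → Bool
abbrev Wd (m : ℕ) : Type := Fin m → Bool

def trunc (m : ℕ) (s : Kan) : Wd m := fun i => s i

def ext (m : ℕ) (w : Wd m) : Kan := fun i => if h : i < m then w ⟨i, h⟩ else false

lemma trunc_ext (m : ℕ) (w : Wd m) : trunc m (ext m w) = w := by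
  funext i; simp [trunc, ext]

lemma trunc_continuous (m : ℕ) : Continuous (trunc m) := by
  unfold trunc; fun_prop

def AA (m : ℕ) : Set (Wd m → Kan) := {s | ∀ w, trunc m (s w) = w}

lemma AA_compact (m : ℕ) : IsCompact (AA m) := by
  apply IsClosed.isCompact
  unfold AA
  rw [Set.setOf_forall]
  apply isClosed_iInter
  intro w
  have : Continuous fun s : Wd m → Kan => trunc m (s w) := (trunc_continuous m).comp (continuous_apply w)
  exact isClosed_eq this continuous_const

section
variable {𝕂 E : Type*} [RCLike 𝕂] [AddCommGroup E] [Module 𝕂 E] [MetricSpace E]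
    [IsTopologicalAddGroup E] [ContinuousSMul 𝕂 E]

def vec (T : E →L[𝕂] E) (m : ℕ) (f : C(Kan, E)) (s : Wd m → Kan) (c : Fin m × Wd m → 𝕂) : E :=
  ∑ i : Fin m × Wd m, c i • (T^(i.1:ℕ)) (f (s i.2))

def OO (T : E →L[𝕂] E) (m : ℕ) (V : Set E) : Set C(Kan, E) :=
  {f | ∀ z ∈ AA m ×ˢ (Metric.sphere (0 : Fin m × Wd m → 𝕂) 1), ∃ k : ℕ, (T^k) (vec T m f z.1 z.2) ∈ V}

lemma OO_isOpen (T : E →L[𝕂] E) (m : ℕ) (V : Set E) (hV : IsOpen V) : IsOpen (OO T m V) := by
  rw [isOpen_iff_mem_nhds]
  intro f hf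
  have hc : IsCompact (AA m ×ˢ (Metric.sphere (0 : Fin m × Wd m → 𝕂) 1)) :=
    (AA_compact m).prod (isCompact_sphere _ _)
  apply hc.eventually_forall_of_forall_eventually
  intro z hz
  obtain ⟨k, hk⟩ := hf z hz
  have hcont : Continuous (fun y : C(Kan, E) × ((Wd m → Kan) × (Fin m × Wd m → 𝕂)) =>
      (T^k) (vec T m y.1 y.2.1 y.2.2)) := by
    apply (T^k).continuous.comp
    unfold vec
    apply continuous_finsetSum
    intro i _
    apply Continuous.smul
    · fun_prop
    · apply (T^(i.1:ℕ)).continuous.comp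
      fun_prop
  have h1 : ∀ᶠ y in nhds (f, z), (T^k) (vec T m y.1 y.2.1 y.2.2) ∈ V :=
    hcont.continuousAt.eventually_mem (hV.mem_nhds hk)
  filter_upwards [h1] with y hy
  exact ⟨k, hy⟩

omit [Module 𝕂 E] [IsTopologicalAddGroup E] [ContinuousSMul 𝕂 E] [RCLike 𝕂] [AddCommGroup E] in
lemma osc (f : C(Kan, E)) (ε : ℝ) (hε : 0 < ε) :
    ∃ N, ∀ s t : Kan, (∀ i < N, s i = t i) → dist (f s) (f t) < ε := by
  have h1 : ∀ s : Kan, ∃ n, ∀ t ∈ PiNat.cylinder s n, dist (f t) (f s) < ε/2 := by
    intro s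
    have ho : IsOpen (f ⁻¹' (Metric.ball (f s) (ε/2))) := Metric.isOpen_ball.preimage f.continuous
    obtain ⟨v, ⟨x, n, rfl⟩, hs, hv⟩ :=
      (PiNat.isTopologicalBasis_cylinders (fun _ : ℕ => Bool)).exists_subset_of_mem_open
        (show s ∈ f ⁻¹' (Metric.ball (f s) (ε/2)) by simp [hε]) ho
    refine ⟨n, ?_⟩
    intro t ht
    have : t ∈ PiNat.cylinder x n := by
      intro i hi
      rw [ht i hi, hs i hi]
    exact hv this
  choose n hn using h1
  obtain ⟨F, hF⟩ := isCompact_univ.elim_nhds_subcover (fun s : Kan => PiNat.cylinder s (n s)) (by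
    intro s _
    exact (PiNat.isOpen_cylinder (fun _ : ℕ => Bool) s (n s)).mem_nhds (PiNat.self_mem_cylinder s _))
  refine ⟨F.sup n, ?_⟩
  intro s t hst
  have hs := hF.2 (Set.mem_univ s)
  simp only [Set.mem_iUnion] at hs
  obtain ⟨u, hu, hsu⟩ := hs
  have hle : n u ≤ F.sup n := Finset.le_sup hu
  have htu : t ∈ PiNat.cylinder u (n u) := by
    intro i hi
    rw [← hst i (lt_of_lt_of_le hi hle)]
    exact hsu i hi
  have h1 := hn u s hsu
  have h2 := hn u t htu
  calc dist (f s) (f t) ≤ dist (f s) (f u) + dist (f u) (f t) := dist_triangle _ _ _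
    _ < ε := by rw [dist_comm (f u)]; linarith

lemma OO_dense (T : E →L[𝕂] E) (x : E) (hx : HC T x) (m : ℕ) (V : Set E) (hV : IsOpen V)
    (hVne : V.Nonempty) : Dense (OO T m V) := by
  rw [Metric.dense_iff]
  intro f ε hε
  obtain ⟨N, hN⟩ := osc f (ε/2) (by linarith)
  set m' := max m N with hm'
  obtain ⟨a, ha1, ha2⟩ := exists_separated T x hx (ι := Wd m')
    (fun w => Metric.ball (f (ext m' w)) (ε/2)) (fun _ => Metric.isOpen_ball)
    (fun w => ⟨f (ext m' w), Metric.mem_ball_self (by linarith)⟩) m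
  have hgc : Continuous (fun s : Kan => (T^(a (trunc m' s))) x) :=
    (continuous_of_discreteTopology (f := fun w : Wd m' => (T^(a w)) x)).comp (trunc_continuous m')
  refine ⟨⟨fun s => (T^(a (trunc m' s))) x, hgc⟩, ?_, ?_⟩
  · rw [Metric.mem_ball, ContinuousMap.dist_lt_iff hε]
    intro s
    simp only [ContinuousMap.coe_mk]
    have h1 := ha1 (trunc m' s)
    rw [Metric.mem_ball] at h1
    have h2 : dist (f (ext m' (trunc m' s))) (f s) < ε/2 := by
      apply hN
      intro i hi
      have : i < m' := lt_of_lt_of_le hi (le_max_right _ _)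
      simp [ext, trunc, this]
    calc _ ≤ dist ((T^(a (trunc m' s))) x) (f (ext m' (trunc m' s))) +
            dist (f (ext m' (trunc m' s))) (f s) := dist_triangle _ _ _
      _ < ε := by linarith
  · rintro ⟨s, c⟩ ⟨hs, hc⟩
    simp only at hs hc
    have hc0 : c ≠ 0 := by
      intro h; rw [h] at hc; simp at hc
    have hvec : vec T m ⟨fun s => (T^(a (trunc m' s))) x, hgc⟩ s c =
        ∑ i : Fin m × Wd m, c i • (T^((i.1:ℕ) + a (trunc m' (s i.2)))) x := by
      unfold vec
      apply Finset.sum_congr rfl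
      intro i _
      rw [ContinuousMap.coe_mk, pow_add]
      rfl
    have hinj : Function.Injective (fun i : Fin m × Wd m => (i.1:ℕ) + a (trunc m' (s i.2))) := by
      rintro ⟨j, w⟩ ⟨j', w'⟩ h
      simp only at h
      by_cases hw : w = w'
      · subst hw
        have : j = j' := by apply Fin.ext; omega
        rw [this]
      · exfalso
        have hne : trunc m' (s w) ≠ trunc m' (s w') := by
          intro he
          apply hw
          rw [← hs w, ← hs w']
          funext i
          have := congrFun he ⟨i, lt_of_lt_of_le i.2 (le_max_left _ _)⟩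
          exact this
        have := ha2 _ _ hne
        have := j.2
        have := j'.2
        omega
    have hHC := HC_comb T x hx c hc0 _ hinj
    simp only
    rw [hvec]
    obtain ⟨y, hyV, ⟨k, rfl⟩⟩ := hHC.inter_open_nonempty V hV hVne
    exact ⟨k, hyV⟩

lemma exists_generic [CompleteSpace E] [SecondCountableTopology E] (T : E →L[𝕂] E) (x : E) (hx : HC T x) :
    ∃ f : C(Kan, E), ∀ m, ∀ s ∈ AA m, ∀ c : Fin m × Wd m → 𝕂, c ≠ 0 → HC T (vec T m f s c) := by
  obtain ⟨B, hBc, hBe, hB⟩ := TopologicalSpace.exists_countable_basis E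
  have h1 : Dense (⋂ p : ℕ × B, OO T p.1 (p.2 : Set E)) := by
    haveI : Countable B := hBc
    apply dense_iInter_of_isOpen
    · intro p
      exact OO_isOpen T _ _ (hB.isOpen p.2.2)
    · intro p
      exact OO_dense T x hx _ _ (hB.isOpen p.2.2) (by
        rw [Set.nonempty_iff_ne_empty]
        intro h
        exact hBe (h ▸ p.2.2))
  obtain ⟨f, hf⟩ := h1.nonempty
  refine ⟨f, ?_⟩
  rw [Set.mem_iInter] at hf
  have h2 : ∀ m, ∀ s ∈ AA m, ∀ c ∈ Metric.sphere (0 : Fin m × Wd m → 𝕂) 1, HC T (vec T m f s c) := by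
    intro m s hs c hc
    unfold HC
    rw [hB.dense_iff]
    intro V hV hVne
    obtain ⟨k, hk⟩ := hf (m, ⟨V, hV⟩) (s, c) ⟨hs, hc⟩
    exact ⟨_, hk, ⟨k, rfl⟩⟩
  intro m s hs c hc
  have hr : 0 < ‖c‖ := norm_pos_iff.mpr hc
  have h3 := h2 m s hs (((‖c‖:𝕂))⁻¹ • c) (by
    rw [mem_sphere_iff_norm, sub_zero, norm_smul, norm_inv, RCLike.norm_ofReal, abs_of_pos hr,
      inv_mul_cancel₀ hr.ne'])
  have h4 : vec T m f s c = (‖c‖:𝕂) • vec T m f s (((‖c‖:𝕂))⁻¹ • c) := by
    unfold vec
    rw [Finset.smul_sum]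
    apply Finset.sum_congr rfl
    intro i _
    rw [Pi.smul_apply, smul_eq_mul, smul_smul, ← mul_assoc, mul_inv_cancel₀, one_mul]
    exact_mod_cast hr.ne'
  rw [h4]
  apply HC_smul T _ h3
  exact_mod_cast hr.ne'

/-- the big family -/
def fam (T : E →L[𝕂] E) (f : C(Kan, E)) (p : ℕ × Kan) : E := (T^p.1) (f p.2)

lemma HC_fam (T : E →L[𝕂] E) (f : C(Kan, E))
    (hf : ∀ m, ∀ s ∈ AA m, ∀ c : Fin m × Wd m → 𝕂, c ≠ 0 → HC T (vec T m f s c))
    (c : (ℕ × Kan) →₀ 𝕂) (hc : c ≠ 0) : HC T (Finsupp.linearCombination 𝕂 (fam T f) c) := by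
  classical
  -- choose m
  obtain ⟨m, hm1, hm2⟩ : ∃ m, (∀ p ∈ c.support, p.1 < m) ∧
      (∀ p ∈ c.support, ∀ q ∈ c.support, p.2 ≠ q.2 → trunc m p.2 ≠ trunc m q.2) := by
    have h1 : ∀ p q : ℕ × Kan, ∃ n, p.2 ≠ q.2 → p.2 n ≠ q.2 n := by
      intro p q
      by_cases h : p.2 = q.2
      · exact ⟨0, fun h' => absurd h h'⟩
      · obtain ⟨n, hn⟩ := Function.ne_iff.mp h
        exact ⟨n, fun _ => hn⟩
    choose n hn using h1
    refine ⟨c.support.sup (fun p => p.1) + (c.support ×ˢ c.support).sup (fun z => n z.1 z.2) + 1, ?_, ?_⟩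
    · intro p hp
      have := Finset.le_sup (f := fun p : ℕ × Kan => p.1) hp
      omega
    · intro p hp q hq hne h
      have h2 := hn p q hne
      have h3 := Finset.le_sup (f := fun z : (ℕ × Kan) × (ℕ × Kan) => n z.1 z.2)
        (Finset.mk_mem_product hp hq)
      simp only at h3
      apply h2
      exact congrFun h ⟨n p q, by omega⟩
  -- choose s
  have hs : ∀ w : Wd m, ∃ s : Kan, trunc m s = w ∧ (∀ p ∈ c.support, trunc m p.2 = w → p.2 = s) := by
    intro w
    by_cases h : ∃ p ∈ c.support, trunc m p.2 = w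
    · obtain ⟨p, hp, hpw⟩ := h
      refine ⟨p.2, hpw, ?_⟩
      intro q hq hqw
      by_contra hne
      exact hm2 q hq p hp hne (by rw [hqw, hpw])
    · refine ⟨ext m w, trunc_ext m w, ?_⟩
      intro p hp hpw
      exact absurd ⟨p, hp, hpw⟩ h
  choose s hs1 hs2 using hs
  set ι : Fin m × Wd m → ℕ × Kan := fun i => ((i.1:ℕ), s i.2) with hι
  have hinj : Function.Injective ι := by
    rintro ⟨j, w⟩ ⟨j', w'⟩ h
    simp only [hι, Prod.mk.injEq] at h
    have h1 : j = j' := Fin.ext h.1
    have h2 : w = w' := by rw [← hs1 w, ← hs1 w', h.2]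
    rw [h1, h2]
  have hsup : ∀ p ∈ c.support, ∃ i, ι i = p := by
    intro p hp
    refine ⟨(⟨p.1, hm1 p hp⟩, trunc m p.2), ?_⟩
    simp only [hι]
    rw [← hs2 (trunc m p.2) p hp rfl]
  have hsum : Finsupp.linearCombination 𝕂 (fam T f) c = vec T m f s (fun i => c (ι i)) := by
    rw [Finsupp.linearCombination_apply, Finsupp.sum]
    have h1 : ∑ p ∈ c.support, c p • fam T f p = ∑ p ∈ Finset.univ.image ι, c p • fam T f p := by
      apply Finset.sum_subset
      · intro p hp
        obtain ⟨i, hi⟩ := hsup p hp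
        exact Finset.mem_image.mpr ⟨i, Finset.mem_univ _, hi⟩
      · intro p _ hp
        rw [Finsupp.notMem_support_iff.mp hp, zero_smul]
    rw [h1, Finset.sum_image (fun a _ b _ h => hinj h)]
    rfl
  rw [hsum]
  apply hf m s hs1
  intro h0
  apply hc
  ext p
  by_cases hp : p ∈ c.support
  · obtain ⟨i, hi⟩ := hsup p hp
    have := congrFun h0 i
    rw [hi] at this
    simpa using this
  · simpa using hp

lemma card_le_continuum (X : Type) [TopologicalSpace X] [T0Space X] [SecondCountableTopology X] :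
    Cardinal.mk X ≤ Cardinal.continuum := by
  obtain ⟨B, hBc, hBe, hB⟩ := TopologicalSpace.exists_countable_basis X
  haveI : Countable B := hBc
  have h1 : Function.Injective (fun x : X => {b : B | x ∈ (b : Set X)}) := by
    intro x y h
    by_contra hne
    have hins : ¬ Inseparable x y := fun hi => hne hi.eq
    rw [hB.inseparable_iff] at hins
    apply hins
    intro b hb
    have := Set.ext_iff.mp h ⟨b, hb⟩
    exact this
  have h2 := Cardinal.mk_le_of_injective h1
  refine h2.trans ?_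
  rw [Cardinal.mk_set]
  calc (2:Cardinal)^(Cardinal.mk B) ≤ 2^Cardinal.aleph0 :=
        Cardinal.power_le_power_left two_ne_zero (Cardinal.mk_le_aleph0)
    _ = Cardinal.continuum := Cardinal.two_power_aleph0

lemma main {𝕂 X : Type} [RCLike 𝕂] [AddCommGroup X] [Module 𝕂 X] [MetricSpace X]
    [IsTopologicalAddGroup X] [ContinuousSMul 𝕂 X] [CompleteSpace X] [Nontrivial X]
    (T : X →L[𝕂] X) (x : X) (hx : HC T x) :
    ∃ M : Submodule 𝕂 X, Dense (M : Set X) ∧ (∀ x ∈ M, x ≠ 0 → HC T x) ∧
      Module.rank 𝕂 M = Module.rank 𝕂 X := by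
  haveI : TopologicalSpace.SeparableSpace X :=
    ⟨⟨_, Set.countable_range _, hx⟩⟩
  haveI : SecondCountableTopology X := UniformSpace.secondCountable_of_separable X
  obtain ⟨f, hf⟩ := exists_generic T x hx
  have hfam := HC_fam T f hf
  have hli : LinearIndependent 𝕂 (fam T f) := by
    rw [linearIndependent_iff]
    intro c hc
    by_contra hne
    have := hfam c hne
    rw [hc] at this
    exact HC_not_zero T this
  set M : Submodule 𝕂 X := Submodule.span 𝕂 (Set.range (fam T f)) with hM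
  have hMHC : ∀ x ∈ M, x ≠ 0 → HC T x := by
    intro y hy hy0
    rw [hM, Finsupp.mem_span_range_iff_exists_finsupp] at hy
    obtain ⟨c, rfl⟩ := hy
    apply hfam c
    rintro rfl
    exact hy0 (by simp)
  refine ⟨M, ?_, hMHC, ?_⟩
  · -- dense
    have h0 : HC T (fam T f (0, fun _ => false)) := by
      have := hfam (Finsupp.single (0, fun _ => false) 1) (by simp)
      simpa using this
    refine h0.mono ?_
    rintro _ ⟨n, rfl⟩
    apply Submodule.subset_span
    refine ⟨(n, fun _ => false), ?_⟩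
    simp [fam]
  · apply le_antisymm
    · exact Submodule.rank_le M
    · refine (rank_le_card 𝕂 X).trans ((card_le_continuum X).trans ?_)
      rw [hM, rank_span hli, Cardinal.mk_range_eq _ hli.injective]
      have : Cardinal.mk (ℕ × Kan) = Cardinal.continuum := by
        rw [Cardinal.mk_prod]
        simp
      rw [this]
end

/-- For every real or complex F-space X and every hypercyclic operator T on X, some dense subspace of X, with the same Hamel dimension as X, has all its nonzero vectors hypercyclic for T. -/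
theorem result :
    ∀ (𝕂 : Type) [RCLike 𝕂] (X : Type) [AddCommGroup X] [Module 𝕂 X] [UniformSpace X]
      [IsUniformAddGroup X] [CompleteSpace X] [ContinuousSMul 𝕂 X]
      [TopologicalSpace.MetrizableSpace X] (T : X →L[𝕂] X),
      (∃ x : X, Dense (Set.range fun n : ℕ => (⇑T)^[n] x)) →
      ∃ M : Submodule 𝕂 X, Dense (M : Set X) ∧
        (∀ x ∈ M, x ≠ 0 → Dense (Set.range fun n : ℕ => (⇑T)^[n] x)) ∧
        Module.rank 𝕂 M = Module.rank 𝕂 X := by
  intro 𝕂 _ X _ _ _ _ _ _ _ T ⟨x, hx⟩
  rcases subsingleton_or_nontrivial X with hsub | hnt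
  · refine ⟨⊤, by simp, ?_, rank_top 𝕂 X⟩
    intro y _ hy
    exact absurd (Subsingleton.elim y 0) hy
  · have hiter : ∀ (n : ℕ) (y : X), (⇑T)^[n] y = (T^n) y := by
      intro n
      induction n with
      | zero => intro y; simp
      | succ n ih =>
        intro y
        rw [Function.iterate_succ_apply, ih, pow_succ]
        rfl
    simp_rw [hiter] at hx ⊢
    haveI : (uniformity X).IsCountablyGenerated := IsUniformAddGroup.uniformity_countably_generated
    letI : MetricSpace X := UniformSpace.metricSpace X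
    exact main T x hx

end Pool.Agent.S1911
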