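import Pool.Statements.S2317
-- import your own Pool.Agent.* helpers here

set_option autoImplicit false
open Pool Pool.MP_63a4dd_co

namespace Pool.Agent.S2317

namespace Aux

def pr (j : ℕ) : ℕ × ℕ := Nat.unpair (Nat.unpair j).1

lemma pr_spec (a b M : ℕ) : ∃ j, M ≤ j ∧ pr j = (a, b) := by
  refine ⟨Nat.pair (Nat.pair a b) M, Nat.right_le_pair _ _, ?_⟩
  simp [pr]

def cond (G : SimpleGraph ℕ) (v a b : ℕ) : Prop :=
  a < v ∧ b < v ∧ a ≠ b ∧ ¬ G.Adj a b ∧ ∀ u, ¬ (G.Adj a u ∧ G.Adj u b)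

def step (G : SimpleGraph ℕ) (v a b : ℕ) : SimpleGraph ℕ where
  Adj x y := G.Adj x y ∨
    (cond G v a b ∧ ((x = v ∧ (y = a ∨ y = b)) ∨ (y = v ∧ (x = a ∨ x = b))))
  symm := ⟨by
    intro x y h
    rcases h with h | ⟨h1, h2⟩
    · exact Or.inl h.symm
    · exact Or.inr ⟨h1, h2.symm⟩⟩
  loopless := ⟨by
    intro x h
    rcases h with h | ⟨⟨h1, h2, -⟩, h3⟩
    · exact G.loopless.irrefl x h
    · rcases h3 with ⟨rfl, h | h⟩ | ⟨rfl, h | h⟩ <;> omega⟩

def stage (B : SimpleGraph ℕ) (c : ℕ) : ℕ → SimpleGraph ℕ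
  | 0 => B
  | n+1 => step (stage B c n) (c+n) (pr n).1 (pr n).2

def lim (B : SimpleGraph ℕ) (c : ℕ) : SimpleGraph ℕ where
  Adj x y := ∃ n, (stage B c n).Adj x y
  symm := ⟨by rintro x y ⟨n, h⟩; exact ⟨n, h.symm⟩⟩
  loopless := ⟨by rintro x ⟨n, h⟩; exact (stage B c n).loopless.irrefl x h⟩

def Bd (G : SimpleGraph ℕ) (v : ℕ) : Prop := ∀ x y, G.Adj x y → x < v ∧ y < v
def TF (G : SimpleGraph ℕ) : Prop := ∀ x y u, G.Adj x y → G.Adj x u → ¬ G.Adj u y
def CF (G : SimpleGraph ℕ) : Prop :=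
  ∀ x y u w, x ≠ y → G.Adj x u → G.Adj u y → G.Adj x w → G.Adj w y → u = w

lemma step_v {G : SimpleGraph ℕ} {v a b : ℕ} (h : Bd G v) (y : ℕ)
    (hy : (step G v a b).Adj v y) : cond G v a b ∧ (y = a ∨ y = b) := by
  rcases hy with hy | ⟨hc, hy⟩
  · exact absurd (h _ _ hy).1 (lt_irrefl _)
  · refine ⟨hc, ?_⟩
    rcases hy with ⟨-, hy⟩ | ⟨hy, hy2⟩
    · exact hy
    · obtain ⟨h1, h2, -⟩ := hc
      rcases hy2 with h3 | h3 <;> omega

lemma step_ne {G : SimpleGraph ℕ} {v a b : ℕ} {x y : ℕ} (hx : x ≠ v) (hy : y ≠ v)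
    (h : (step G v a b).Adj x y) : G.Adj x y := by
  rcases h with h | ⟨-, h⟩
  · exact h
  · rcases h with ⟨h, -⟩ | ⟨h, -⟩
    · exact absurd h hx
    · exact absurd h hy

lemma step_bd {G : SimpleGraph ℕ} {v a b : ℕ} (h : Bd G v) : Bd (step G v a b) (v+1) := by
  intro x y hxy
  rcases hxy with hxy | ⟨⟨h1, h2, -⟩, h3⟩
  · have := h _ _ hxy
    omega
  · rcases h3 with ⟨h4, h | h⟩ | ⟨h4, h | h⟩ <;> omega

lemma step_tf {G : SimpleGraph ℕ} {v a b : ℕ} (h : Bd G v) (ht : TF G) :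
    TF (step G v a b) := by
  intro x y u h1 h2 h3
  by_cases hx : x = v
  · subst hx
    have e1 := step_v h y h1
    have e2 := step_v h u h2
    obtain ⟨⟨c1, c2, c3, c4, c5⟩, e1⟩ := e1
    obtain ⟨-, e2⟩ := e2
    have hy : y ≠ x := by rcases e1 with e | e <;> omega
    have hu : u ≠ x := by rcases e2 with e | e <;> omega
    have h3' := step_ne hu hy h3
    rcases e1 with rfl | rfl <;> rcases e2 with rfl | rfl
    · exact G.loopless.irrefl _ h3'
    · exact c4 h3'.symm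
    · exact c4 h3'
    · exact G.loopless.irrefl _ h3'
  · by_cases hy : y = v
    · subst hy
      have e1 := step_v h x h1.symm
      have e2 := step_v h u h3.symm
      obtain ⟨⟨c1, c2, c3, c4, c5⟩, e1⟩ := e1
      obtain ⟨-, e2⟩ := e2
      have hu : u ≠ y := by rcases e2 with e | e <;> omega
      have h3' := step_ne hx hu h2
      rcases e1 with rfl | rfl <;> rcases e2 with rfl | rfl
      · exact G.loopless.irrefl _ h3'
      · exact c4 h3'
      · exact c4 h3'.symm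
      · exact G.loopless.irrefl _ h3'
    · by_cases hu : u = v
      · subst hu
        have e1 := step_v h x h2.symm
        have e2 := step_v h y h3
        obtain ⟨⟨c1, c2, c3, c4, c5⟩, e1⟩ := e1
        obtain ⟨-, e2⟩ := e2
        have h3' := step_ne hx hy h1
        rcases e1 with rfl | rfl <;> rcases e2 with rfl | rfl
        · exact G.loopless.irrefl _ h3'
        · exact c4 h3'
        · exact c4 h3'.symm
        · exact G.loopless.irrefl _ h3'
      · exact ht x y u (step_ne hx hy h1) (step_ne hx hu h2) (step_ne hu hy h3)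

lemma step_cf {G : SimpleGraph ℕ} {v a b : ℕ} (h : Bd G v) (ht : CF G) :
    CF (step G v a b) := by
  intro x y u w hxy h1 h2 h3 h4
  by_cases hx : x = v
  · subst hx
    obtain ⟨⟨c1, c2, c3, c4, c5⟩, e1⟩ := step_v h u h1
    obtain ⟨-, e2⟩ := step_v h w h3
    have hu : u ≠ x := by rcases e1 with e | e <;> omega
    have hw : w ≠ x := by rcases e2 with e | e <;> omega
    have hy : y ≠ x := fun e => hxy e.symm
    have h2' := step_ne hu hy h2
    have h4' := step_ne hw hy h4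
    rcases e1 with rfl | rfl <;> rcases e2 with rfl | rfl
    · rfl
    · exact absurd ⟨h2', h4'.symm⟩ (c5 y)
    · exact absurd ⟨h4', h2'.symm⟩ (c5 y)
    · rfl
  · by_cases hy : y = v
    · subst hy
      obtain ⟨⟨c1, c2, c3, c4, c5⟩, e1⟩ := step_v h u h2.symm
      obtain ⟨-, e2⟩ := step_v h w h4.symm
      have hu : u ≠ y := by rcases e1 with e | e <;> omega
      have hw : w ≠ y := by rcases e2 with e | e <;> omega
      have h2' := step_ne hx hu h1
      have h4' := step_ne hx hw h3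
      rcases e1 with rfl | rfl <;> rcases e2 with rfl | rfl
      · rfl
      · exact absurd ⟨h2'.symm, h4'⟩ (c5 x)
      · exact absurd ⟨h4'.symm, h2'⟩ (c5 x)
      · rfl
    · by_cases hu : u = v
      · subst hu
        by_cases hw : w = u
        · exact hw.symm
        · obtain ⟨⟨c1, c2, c3, c4, c5⟩, e1⟩ := step_v h x h1.symm
          obtain ⟨-, e2⟩ := step_v h y h2
          have h3' := step_ne hx hw h3
          have h4' := step_ne hw hy h4
          rcases e1 with rfl | rfl <;> rcases e2 with rfl | rfl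
          · exact absurd rfl hxy
          · exact absurd ⟨h3', h4'⟩ (c5 w)
          · exact absurd ⟨h4'.symm, h3'.symm⟩ (c5 w)
          · exact absurd rfl hxy
      · by_cases hw : w = v
        · subst hw
          obtain ⟨⟨c1, c2, c3, c4, c5⟩, e1⟩ := step_v h x h3.symm
          obtain ⟨-, e2⟩ := step_v h y h4
          have h3' := step_ne hx hu h1
          have h4' := step_ne hu hy h2
          rcases e1 with rfl | rfl <;> rcases e2 with rfl | rfl
          · exact absurd rfl hxy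
          · exact absurd ⟨h3', h4'⟩ (c5 u)
          · exact absurd ⟨h4'.symm, h3'.symm⟩ (c5 u)
          · exact absurd rfl hxy
        · exact ht x y u w hxy (step_ne hx hu h1) (step_ne hu hy h2) (step_ne hx hw h3)
            (step_ne hw hy h4)

lemma stage_bd {B : SimpleGraph ℕ} {c : ℕ} (h : Bd B c) (n : ℕ) : Bd (stage B c n) (c+n) := by
  induction n with
  | zero => exact h
  | succ n ih => exact step_bd ih

lemma stage_tf {B : SimpleGraph ℕ} {c : ℕ} (h : Bd B c) (ht : TF B) (n : ℕ) :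
    TF (stage B c n) := by
  induction n with
  | zero => exact ht
  | succ n ih => exact step_tf (stage_bd h n) ih

lemma stage_cf {B : SimpleGraph ℕ} {c : ℕ} (h : Bd B c) (ht : CF B) (n : ℕ) :
    CF (stage B c n) := by
  induction n with
  | zero => exact ht
  | succ n ih => exact step_cf (stage_bd h n) ih

lemma stage_mono {B : SimpleGraph ℕ} {c : ℕ} {n m : ℕ} (hnm : n ≤ m) {x y : ℕ}
    (hxy : (stage B c n).Adj x y) : (stage B c m).Adj x y := by
  induction m, hnm using Nat.le_induction with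
  | base => exact hxy
  | succ m _ ih => exact Or.inl ih

lemma stage_back {B : SimpleGraph ℕ} {c : ℕ} {n m : ℕ} (hnm : n ≤ m) {x y : ℕ}
    (hx : x < c + n) (hy : y < c + n)
    (hxy : (stage B c m).Adj x y) : (stage B c n).Adj x y := by
  induction m, hnm using Nat.le_induction with
  | base => exact hxy
  | succ m hm ih => exact ih (step_ne (by omega) (by omega) hxy)

lemma lim_stage {B : SimpleGraph ℕ} {c : ℕ} {n : ℕ} {x y : ℕ}
    (hx : x < c + n) (hy : y < c + n)
    (hxy : (lim B c).Adj x y) : (stage B c n).Adj x y := by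
  obtain ⟨m, hm⟩ := hxy
  rcases le_total n m with h | h
  · exact stage_back h hx hy hm
  · exact stage_mono h hm

lemma lim_tf {B : SimpleGraph ℕ} {c : ℕ} (h : Bd B c) (ht : TF B) : TF (lim B c) := by
  rintro x y u ⟨n1, h1⟩ ⟨n2, h2⟩ ⟨n3, h3⟩
  exact stage_tf h ht (n1 + n2 + n3) x y u (stage_mono (by omega) h1) (stage_mono (by omega) h2)
    (stage_mono (by omega) h3)

lemma lim_cf {B : SimpleGraph ℕ} {c : ℕ} (h : Bd B c) (ht : CF B) : CF (lim B c) := by
  rintro x y u w hxy ⟨n1, h1⟩ ⟨n2, h2⟩ ⟨n3, h3⟩ ⟨n4, h4⟩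
  exact stage_cf h ht (n1 + n2 + n3 + n4) x y u w hxy (stage_mono (by omega) h1)
    (stage_mono (by omega) h2) (stage_mono (by omega) h3) (stage_mono (by omega) h4)

lemma lim_conn {B : SimpleGraph ℕ} {c : ℕ} (x y : ℕ) (hxy : x ≠ y) :
    (lim B c).Adj x y ∨ ∃ u, (lim B c).Adj x u ∧ (lim B c).Adj u y := by
  obtain ⟨j, hj, hp⟩ := pr_spec x y (x + y + 1)
  by_cases hc : cond (stage B c j) (c + j) x y
  · right
    refine ⟨c + j, ⟨j+1, ?_⟩, ⟨j+1, ?_⟩⟩
    · refine Or.inr ⟨?_, Or.inr ⟨rfl, ?_⟩⟩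
      · rw [hp]; exact hc
      · left; rw [hp]
    · refine Or.inr ⟨?_, Or.inl ⟨rfl, ?_⟩⟩
      · rw [hp]; exact hc
      · right; rw [hp]
  · by_contra hcon
    push Not at hcon
    apply hc
    refine ⟨by omega, by omega, hxy, ?_, ?_⟩
    · intro h
      exact hcon.1 ⟨j, h⟩
    · rintro u ⟨h1, h2⟩
      exact hcon.2 u ⟨j, h1⟩ ⟨j, h2⟩

lemma lim_inf {B : SimpleGraph ℕ} {c : ℕ} (h : Bd B c) (v : ℕ) :
    ((lim B c).neighborSet v).Infinite := by
  intro hfin
  obtain ⟨M, hM⟩ := hfin.bddAbove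
  obtain ⟨j, hj, hp⟩ := pr_spec 0 0 (M + v + 1)
  have hiso : ∀ u, u < c + j → ¬ (lim B c).Adj u (c + j) := by
    intro u hu hadj
    have h1 : (stage B c (j+1)).Adj u (c+j) := lim_stage (by omega) (by omega) hadj
    rcases h1 with h1 | ⟨h1, -⟩
    · exact absurd (stage_bd h j _ _ h1).2 (lt_irrefl _)
    · rw [hp] at h1
      exact h1.2.2.1 rfl
  rcases lim_conn (B := B) (c := c) v (c + j) (by omega) with h1 | ⟨u, h1, h2⟩
  · have := hM h1
    omega
  · have := hM h1
    exact hiso u (by omega) h2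

lemma lim_card {B : SimpleGraph ℕ} {c : ℕ} (h : Bd B c) (v : ℕ) :
    Cardinal.mk ((lim B c).neighborSet v) = Cardinal.aleph0 := by
  have : Infinite ((lim B c).neighborSet v) := (lim_inf h v).to_subtype
  exact Cardinal.mk_eq_aleph0 _

lemma lim_ediam {B : SimpleGraph ℕ} {c : ℕ} (h : Bd B c) (ht : TF B) :
    (lim B c).ediam = ((2 : ℕ) : ℕ∞) := by
  apply le_antisymm
  · refine SimpleGraph.ediam_le_of_edist_le ?_
    intro x y
    by_cases hxy : x = y
    · subst hxy
      simp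
    · rcases lim_conn (B := B) (c := c) x y hxy with h1 | ⟨u, h1, h2⟩
      · have := SimpleGraph.edist_le (SimpleGraph.Walk.cons h1 SimpleGraph.Walk.nil)
        refine this.trans ?_
        simp
      · have := SimpleGraph.edist_le (SimpleGraph.Walk.cons h1 (SimpleGraph.Walk.cons h2 SimpleGraph.Walk.nil))
        refine this.trans ?_
        simp
  · have hinf := lim_inf h 0
    obtain ⟨x, hx, y, hy, hxy⟩ := hinf.nontrivial
    have hnadj : ¬ (lim B c).Adj x y := by
      intro hadj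
      exact lim_tf h ht 0 y x hy hx hadj
    have h0 : (lim B c).edist x y ≠ 0 := by
      intro h0
      exact hxy (SimpleGraph.edist_eq_zero_iff.1 h0)
    have h1 : (lim B c).edist x y ≠ 1 := by
      intro h1
      exact hnadj (SimpleGraph.edist_eq_one_iff_adj.1 h1)
    have h2 : ((2:ℕ) : ℕ∞) ≤ (lim B c).edist x y := by
      generalize (lim B c).edist x y = e at h0 h1
      induction e using ENat.recTopCoe with
      | top => exact le_top
      | coe a =>
        have ha0 : a ≠ 0 := by rintro rfl; exact h0 rfl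
        have ha1 : a ≠ 1 := by rintro rfl; exact h1 rfl
        exact_mod_cast (show 2 ≤ a by omega)
    exact h2.trans SimpleGraph.edist_le_ediam

lemma lim_girth {B : SimpleGraph ℕ} {c : ℕ} (h : Bd B c) (ht : TF B) (hc : CF B) :
    ((2 * 2 : ℕ) : ℕ∞) < (lim B c).egirth := by
  have h5 : ((5 : ℕ) : ℕ∞) ≤ (lim B c).egirth := by
    rw [SimpleGraph.le_egirth]
    intro a w hw
    have hT := lim_tf h ht
    have hC := lim_cf h hc
    have h3 := hw.three_le_length
    by_contra hlt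
    have hlt' : w.length < 5 := by
      by_contra h'
      push Not at h'
      exact hlt (by exact_mod_cast h')
    have hnd := hw.support_nodup
    match w, h3, hlt', hnd with
    | .cons h1 (.cons h2 (.cons h3 .nil)), _, _, _ =>
      exact hT _ _ _ h1 h3.symm h2.symm
    | .cons h1 (.cons h2 (.cons h3 (.cons h4 .nil))), _, _, hnd =>
      simp at hnd
      have := hC _ _ _ _ (by tauto) h1 h2 h4.symm h3.symm
      tauto
    | .cons h1 (.cons h2 (.cons h3 (.cons h4 (.cons h5 w')))), _, hl, _ =>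
      simp at hl
      omega
  refine lt_of_lt_of_le ?_ h5
  exact_mod_cast (show 2 * 2 < 5 by norm_num)

def E : List (ℕ × ℕ) := [(0,1),(1,2),(2,3),(3,4),(4,0),(5,7),(7,9),(9,6),(6,8),(8,5),
  (0,5),(1,6),(2,7),(3,8),(4,9)]

def aB (x y : ℕ) : Bool := E.contains (x, y) || E.contains (y, x)

lemma E_bd : ∀ p ∈ E, (p.1 < 10 ∧ p.2 < 10) ∧ p.1 ≠ p.2 := by decide

def pet : SimpleGraph ℕ where
  Adj x y := aB x y = true
  symm := ⟨by
    intro x y h
    simp only [aB, Bool.or_eq_true] at h ⊢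
    exact h.symm⟩
  loopless := ⟨by
    intro x h
    simp only [aB, Bool.or_eq_true, List.contains_iff_mem] at h
    rcases h with h | h
    · exact (E_bd _ h).2 rfl
    · exact (E_bd _ h).2 rfl⟩

lemma pet_bd : Bd pet 10 := by
  intro x y h
  change aB x y = true at h
  simp only [aB, Bool.or_eq_true, List.contains_iff_mem] at h
  rcases h with h | h
  · have := (E_bd _ h).1; exact this
  · have := (E_bd _ h).1; exact ⟨this.2, this.1⟩

lemma pet_tf0 : ∀ x y u : Fin 10, aB x y = true → aB x u = true →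
    ¬ (aB u y = true) := by decide +kernel

lemma pet_cf0 : ∀ x y u w : Fin 10, x ≠ y → aB x u = true → aB u y = true →
    aB x w = true → aB w y = true → u = w := by decide +kernel

lemma pet_tf : TF pet := by
  intro x y u h1 h2 h3
  have b1 := pet_bd _ _ h1
  have b2 := pet_bd _ _ h2
  exact pet_tf0 ⟨x, b1.1⟩ ⟨y, b1.2⟩ ⟨u, b2.2⟩ h1 h2 h3

lemma pet_cf : CF pet := by
  intro x y u w hxy h1 h2 h3 h4
  have b1 := pet_bd _ _ h1
  have b2 := pet_bd _ _ h2
  have b3 := pet_bd _ _ h3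
  have := pet_cf0 ⟨x, b1.1⟩ ⟨y, b2.2⟩ ⟨u, b1.2⟩ ⟨w, b3.2⟩ (by
    intro h; exact hxy (by simpa using h)) h1 h2 h3 h4
  simpa using this

def degB (x : Fin 10) : Bool :=
  decide (3 ≤ ((Finset.univ : Finset (Fin 10)).filter (fun a : Fin 10 => aB (x : ℕ) (a : ℕ) = true)).card)

lemma degB_all : ∀ x : Fin 10, degB x = true := by decide +kernel

lemma pet_deg (x : Fin 10) : ∃ a b c : Fin 10, a ≠ b ∧ a ≠ c ∧ b ≠ c ∧
    aB x a = true ∧ aB x b = true ∧ aB x c = true := by
  have h := degB_all x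
  simp only [degB, decide_eq_true_eq] at h
  obtain ⟨a, b, c, ha, hb, hc, h1, h2, h3⟩ := Finset.two_lt_card_iff.1 h
  refine ⟨a, b, c, h1, h2, h3, ?_, ?_, ?_⟩
  · exact (Finset.mem_filter.1 ha).2
  · exact (Finset.mem_filter.1 hb).2
  · exact (Finset.mem_filter.1 hc).2

def Pr {V : Type} (G : SimpleGraph V) : Prop :=
  ∃ S : Set V, S.Finite ∧ S.Nonempty ∧ ∀ v ∈ S, ∃ a ∈ S, ∃ b ∈ S, ∃ c ∈ S,
    a ≠ b ∧ a ≠ c ∧ b ≠ c ∧ G.Adj v a ∧ G.Adj v b ∧ G.Adj v c

lemma pr_iso {V W : Type} {G : SimpleGraph V} {H : SimpleGraph W} (e : G ≃g H) (h : Pr G) :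
    Pr H := by
  obtain ⟨S, hf, hn, hS⟩ := h
  refine ⟨e '' S, hf.image _, hn.image _, ?_⟩
  rintro _ ⟨v, hv, rfl⟩
  obtain ⟨a, ha, b, hb, c, hc, h1, h2, h3, h4, h5, h6⟩ := hS v hv
  exact ⟨e a, ⟨a, ha, rfl⟩, e b, ⟨b, hb, rfl⟩, e c, ⟨c, hc, rfl⟩, e.injective.ne h1,
    e.injective.ne h2, e.injective.ne h3, e.map_adj_iff.2 h4, e.map_adj_iff.2 h5,
    e.map_adj_iff.2 h6⟩

lemma pr_pet : Pr (lim pet 10) := by
  refine ⟨Set.Iio 10, Set.finite_Iio 10, ⟨0, by simp⟩, ?_⟩
  intro v hv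
  obtain ⟨a, b, c, h1, h2, h3, h4, h5, h6⟩ := pet_deg ⟨v, hv⟩
  refine ⟨a, a.2, b, b.2, c, c.2, ?_, ?_, ?_, ⟨0, h4⟩, ⟨0, h5⟩, ⟨0, h6⟩⟩
  · exact fun h => h1 (Fin.ext h)
  · exact fun h => h2 (Fin.ext h)
  · exact fun h => h3 (Fin.ext h)

lemma bot_bd : Bd (⊥ : SimpleGraph ℕ) 0 := by
  intro x y h; exact absurd h (by simp)

lemma bot_tf : TF (⊥ : SimpleGraph ℕ) := by
  intro x y u h; exact absurd h (by simp)

lemma bot_cf : CF (⊥ : SimpleGraph ℕ) := by
  intro x y u w _ h; exact absurd h (by simp)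

lemma low2 (v a : ℕ) (hav : a < v) (h : (lim (⊥ : SimpleGraph ℕ) 0).Adj v a) :
    a = (pr v).1 ∨ a = (pr v).2 := by
  have h1 : (stage (⊥ : SimpleGraph ℕ) 0 (v+1)).Adj v a := lim_stage (by omega) (by omega) h
  rcases h1 with h1 | ⟨-, h1⟩
  · have := (stage_bd bot_bd v _ _ h1).1
    omega
  · rcases h1 with ⟨-, h1⟩ | ⟨h1, -⟩
    · exact h1
    · omega

lemma not_pr_bot : ¬ Pr (lim (⊥ : SimpleGraph ℕ) 0) := by
  rintro ⟨S, hf, hn, hS⟩
  obtain ⟨v, hv, hmax⟩ := hf.exists_maximal hn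
  have hmax' : ∀ a ∈ S, a ≤ v := by
    intro a ha
    rcases le_total a v with h | h
    · exact h
    · exact hmax ha h
  obtain ⟨a, ha, b, hb, c, hc, h1, h2, h3, h4, h5, h6⟩ := hS v hv
  have ha' : a < v := lt_of_le_of_ne (hmax' a ha) h4.ne'
  have hb' : b < v := lt_of_le_of_ne (hmax' b hb) h5.ne'
  have hc' : c < v := lt_of_le_of_ne (hmax' c hc) h6.ne'
  have e1 := low2 v a ha' h4
  have e2 := low2 v b hb' h5
  have e3 := low2 v c hc' h6
  omega

end Aux

open Aux in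
/-- There exist a cardinal d and an integer k>1 and two non-isomorphic graphs, each d-regular with diameter exactly k and with no cycle of length at most 2k. -/
theorem result :
    ∃ d : Cardinal.{0}, ∃ k : ℕ, 1 < k ∧
      ∃ (V W : Type) (G : SimpleGraph V) (H : SimpleGraph W),
        (∀ v : V, Cardinal.mk (G.neighborSet v) = d) ∧
        G.ediam = (k : ℕ∞) ∧
        ((2 * k : ℕ) : ℕ∞) < G.egirth ∧
        (∀ w : W, Cardinal.mk (H.neighborSet w) = d) ∧
        H.ediam = (k : ℕ∞) ∧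
        ((2 * k : ℕ) : ℕ∞) < H.egirth ∧
        IsEmpty (G ≃g H) := by
  refine ⟨Cardinal.aleph0, 2, by norm_num, ℕ, ℕ, lim pet 10, lim ⊥ 0, lim_card pet_bd,
    lim_ediam pet_bd pet_tf, lim_girth pet_bd pet_tf pet_cf, lim_card bot_bd,
    lim_ediam bot_bd bot_tf, lim_girth bot_bd bot_tf bot_cf, ⟨?_⟩⟩
  intro e
  exact not_pr_bot (pr_iso e pr_pet)

end Pool.Agent.S2317
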