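import Pool.Statements.S2342
-- import your own Pool.Agent.* helpers here

set_option autoImplicit false
open Pool Pool.MP_6b8a7b_co

namespace Pool.Agent.S2342

namespace Aux

lemma two_edges (C : Set (Set ℕ)) (hC : ∀ e ∈ C, e.Finite) (hU : ⋃₀ C = Set.univ) :
    ∃ e ∈ C, ∃ f ∈ C, e ≠ f := by
  have hinf : C.Infinite := by
    intro hfin
    have h1 : (⋃₀ C).Finite := Set.Finite.sUnion hfin hC
    rw [hU] at h1
    exact Set.infinite_univ h1
  obtain ⟨e, he, f, hf, hef⟩ := hinf.nontrivial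
  exact ⟨e, he, f, hf, hef⟩

end Aux

open Aux in
/-- The negation of the preceding statement: Take any hypergraph whose edges are all finite and in which every vertex lies in some edge. Then some edge cover C exists such that, for every edge cover C', the cardinality of C minus C' is at most the cardinality of C' minus C. -/
theorem result :
    ¬ (∀ (V : Type) (E : Set (Set V)),
      (∀ e ∈ E, e.Finite) →
      (∀ v : V, ∃ e ∈ E, v ∈ e) →
      ∃ C ⊆ E, ⋃₀ C = Set.univ ∧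
        ∀ C' ⊆ E, ⋃₀ C' = Set.univ →
          Cardinal.mk ↥(C \ C') ≤ Cardinal.mk ↥(C' \ C)) := by
  intro H
  obtain ⟨C, hCE, hU, hmin⟩ := H ℕ {e | e.Finite} (fun e he => he)
    (fun v => ⟨{v}, Set.finite_singleton v, rfl⟩)
  obtain ⟨e, he, f, hf, hef⟩ := two_edges C (fun e he => hCE he) hU
  obtain ⟨C', hC'⟩ : ∃ C' : Set (Set ℕ), C' = (C \ {e, f}) ∪ {e ∪ f} := ⟨_, rfl⟩
  have h1 : C' ⊆ {e : Set ℕ | e.Finite} := by
    rw [hC']
    rintro x (hx | hx)
    · exact hCE hx.1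
    · rw [Set.mem_singleton_iff] at hx
      rw [hx]
      exact Set.Finite.union (hCE he) (hCE hf)
  have h2 : ⋃₀ C' = Set.univ := by
    rw [Set.eq_univ_iff_forall]
    intro v
    have hv : v ∈ ⋃₀ C := by rw [hU]; trivial
    obtain ⟨x, hx, hvx⟩ := hv
    by_cases hxe : x = e ∨ x = f
    · refine ⟨e ∪ f, by rw [hC']; right; rfl, ?_⟩
      rcases hxe with rfl | rfl
      · left; exact hvx
      · right; exact hvx
    · refine ⟨x, ?_, hvx⟩
      rw [hC']
      left
      refine ⟨hx, ?_⟩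
      simpa using hxe
  have h3 := hmin C' h1 h2
  rw [Cardinal.le_def] at h3
  obtain ⟨φ⟩ := h3
  have hφ : ∀ x : ↥(C \ C'), ((φ x : ↥(C' \ C)) : Set ℕ) = e ∪ f ∧ e ∪ f ∉ C := by
    intro x
    have hx := (φ x).2
    have hx1 : ((φ x : ↥(C' \ C)) : Set ℕ) ∈ C' := hx.1
    have hx2 : ((φ x : ↥(C' \ C)) : Set ℕ) ∉ C := hx.2
    have hx3 : ((φ x : ↥(C' \ C)) : Set ℕ) ∈ (C \ {e, f}) ∪ {e ∪ f} := by
      have hsub : C' ⊆ (C \ {e, f}) ∪ {e ∪ f} := by rw [hC']
      exact hsub hx1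
    rcases hx3 with h | h
    · exact absurd h.1 hx2
    · rw [Set.mem_singleton_iff] at h
      rw [h] at hx2
      exact ⟨h, hx2⟩
  have hmem : ∀ x, x ∈ C → (x = e ∨ x = f) → x ≠ e ∪ f → x ∈ C \ C' := by
    intro x hx hxe hne
    refine ⟨hx, ?_⟩
    rw [hC']
    rintro (h | h)
    · exact h.2 (by simpa using hxe)
    · exact hne h
  by_cases hE : e = e ∪ f
  · have hfne : f ≠ e ∪ f := by rw [← hE]; exact fun h => hef h.symm
    have := (hφ ⟨f, hmem f hf (Or.inr rfl) hfne⟩).2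
    rw [← hE] at this
    exact this he
  · by_cases hF : f = e ∪ f
    · have := (hφ ⟨e, hmem e he (Or.inl rfl) hE⟩).2
      rw [← hF] at this
      exact this hf
    · have a1 := (hφ ⟨e, hmem e he (Or.inl rfl) hE⟩).1
      have a2 := (hφ ⟨f, hmem f hf (Or.inr rfl) hF⟩).1
      have a3 : φ ⟨e, hmem e he (Or.inl rfl) hE⟩ = φ ⟨f, hmem f hf (Or.inr rfl) hF⟩ :=
        Subtype.ext (a1.trans a2.symm)
      have a4 := φ.injective a3
      exact hef (congrArg Subtype.val a4)

end Pool.Agent.S2342
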