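import Pool.Statements.S2356
-- import your own Pool.Agent.* helpers here

set_option autoImplicit false
open Pool Pool.MP_6f5d90_co

namespace Pool.Agent.S2356

namespace Aux

def LB : List (List (Fin 12)) := [
  [6,7,8,9,10,11],
  [0,5,6,11],
  [0,5,7,10],
  [0,5,8,9],
  [1,4,6,11],
  [1,4,7,10],
  [1,4,8,9],
  [2,3,6,11],
  [2,3,7,10],
  [2,3,8,9],
  [1,5,7,11],
  [1,5,6,8],
  [1,5,9,10],
  [0,2,7,11],
  [0,2,6,8],
  [0,2,9,10],
  [3,4,7,11],
  [3,4,6,8],
  [3,4,9,10],
  [2,5,8,11],
  [2,5,7,9],
  [2,5,6,10],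
  [1,3,8,11],
  [1,3,7,9],
  [1,3,6,10],
  [0,4,8,11],
  [0,4,7,9],
  [0,4,6,10],
  [3,5,9,11],
  [3,5,8,10],
  [3,5,6,7],
  [2,4,9,11],
  [2,4,8,10],
  [2,4,6,7],
  [0,1,9,11],
  [0,1,8,10],
  [0,1,6,7],
  [4,5,10,11],
  [4,5,6,9],
  [4,5,7,8],
  [0,3,10,11],
  [0,3,6,9],
  [0,3,7,8],
  [1,2,10,11],
  [1,2,6,9],
  [1,2,7,8]]

def blocks : List (Finset (Fin 12)) := LB.map List.toFinset

def K1 : Finset (Fin 12) := Finset.univ.filter (fun x => x.val < 6)

lemma K1_card : K1.card = 6 := by rfl

def Ind (S : Finset (Fin 12)) : Prop := S.card ≤ 3 ∨ (S.card = 4 ∧ ∀ B ∈ blocks, ¬ S ⊆ B)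

lemma ind_iff (S : Finset (Fin 12)) :
    Ind S ↔ S.card ≤ 3 ∨ (S.card = 4 ∧ ∀ B ∈ blocks, ¬ S ⊆ B) := Iff.rfl

def R (l l' : List (Fin 12)) : Bool := decide ((l.filter (fun x => l'.contains x)).length ≤ 2)

lemma L_pw : LB.Pairwise (fun l l' => R l l' = true) := by decide +kernel

lemma inter_eq (l l' : List (Fin 12)) :
    l.toFinset ∩ l'.toFinset = (l.filter (fun x => l'.contains x)).toFinset := by
  ext x
  simp

lemma R_card {l l' : List (Fin 12)} (h : R l l' = true) :
    (l.toFinset ∩ l'.toFinset).card ≤ 2 := by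
  rw [inter_eq]
  simp only [R, decide_eq_true_eq] at h
  exact (List.toFinset_card_le _).trans h

lemma LF_pw : blocks.Pairwise (fun A A' => (A ∩ A').card ≤ 2) := by
  rw [blocks, List.pairwise_map]
  exact L_pw.imp R_card

lemma blocks_inter : ∀ B ∈ blocks, ∀ B' ∈ blocks, B ≠ B' → (B ∩ B').card ≤ 2 := by
  intro A hA A' hA' hne
  have hs : Std.Symm (fun A A' : Finset (Fin 12) => (A ∩ A').card ≤ 2) := ⟨by
    intro x y h
    rw [Finset.inter_comm]
    exact h⟩
  exact List.Pairwise.forall LF_pw hA hA' hne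

lemma LB_K1 : ∀ l ∈ LB, (l.filter (fun x => decide (x.val < 6))).length ≤ 2 := by decide +kernel

lemma block_K1 {T B : Finset (Fin 12)} (hB : B ∈ blocks) (hT : T ⊆ K1) (hTB : T ⊆ B) :
    T.card ≤ 2 := by
  obtain ⟨l, hl, rfl⟩ := List.mem_map.1 hB
  refine le_trans (Finset.card_le_card (t := (l.filter (fun x => decide (x.val < 6))).toFinset) ?_)
    ((List.toFinset_card_le _).trans (LB_K1 l hl))
  intro x hx
  have h1 := hT hx
  have h2 := hTB hx
  simp only [K1, Finset.mem_filter, Finset.mem_univ, true_and] at h1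
  simp only [List.mem_toFinset] at h2
  simp [h1, h2]

def covB (a b c : Fin 12) : Bool :=
  (decide (a.val < 6) && decide (b.val < 6) && decide (c.val < 6)) ||
    LB.any (fun l => l.contains a && l.contains b && l.contains c)

lemma cov_all : ∀ a b c : Fin 12, covB a b c = true := by decide +kernel

lemma cover (I : Finset (Fin 12)) (hI : I.card = 3) : I ⊆ K1 ∨ ∃ B ∈ blocks, I ⊆ B := by
  obtain ⟨a, b, c, -, -, -, rfl⟩ := Finset.card_eq_three.1 hI
  have h := cov_all a b c
  simp only [covB, Bool.or_eq_true, Bool.and_eq_true, decide_eq_true_eq, List.any_eq_true,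
    List.contains_iff_mem] at h
  rcases h with ⟨⟨h1, h2⟩, h3⟩ | ⟨l, hl, ⟨h1, h2⟩, h3⟩
  · left
    intro x hx
    simp only [Finset.mem_insert, Finset.mem_singleton] at hx
    simp only [K1, Finset.mem_filter, Finset.mem_univ, true_and]
    rcases hx with rfl | rfl | rfl <;> assumption
  · right
    refine ⟨l.toFinset, List.mem_map.2 ⟨l, hl, rfl⟩, ?_⟩
    intro x hx
    simp only [Finset.mem_insert, Finset.mem_singleton] at hx
    rw [List.mem_toFinset]
    rcases hx with rfl | rfl | rfl <;> assumption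

lemma ind_card {S : Finset (Fin 12)} (h : Ind S) : S.card ≤ 4 := by
  rw [ind_iff] at h
  omega

lemma ind_aug : ∀ ⦃I J : Finset (Fin 12)⦄, Ind I → Ind J → I.card < J.card →
    ∃ e ∈ J, e ∉ I ∧ Ind (insert e I) := by
  intro I J hI hJ hlt
  have hJ4 := ind_card hJ
  by_cases h2 : I.card ≤ 2
  · obtain ⟨e, he, heI⟩ := Finset.exists_mem_notMem_of_card_lt_card hlt
    refine ⟨e, he, heI, ?_⟩
    rw [ind_iff]
    left
    rw [Finset.card_insert_of_notMem heI]
    omega
  · have hI3 : I.card = 3 := by omega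
    have hJ4' : J.card = 4 := by omega
    rw [ind_iff] at hJ
    have hJb : ∀ B ∈ blocks, ¬ J ⊆ B := by
      rcases hJ with hJ | hJ
      · omega
      · exact hJ.2
    by_cases hb : ∃ B ∈ blocks, I ⊆ B
    · obtain ⟨B, hB, hIB⟩ := hb
      obtain ⟨e, he, heB⟩ := Finset.not_subset.1 (hJb B hB)
      have heI : e ∉ I := fun h => heB (hIB h)
      refine ⟨e, he, heI, ?_⟩
      rw [ind_iff]
      right
      refine ⟨by rw [Finset.card_insert_of_notMem heI, hI3], ?_⟩
      intro B' hB' hsub
      by_cases hBB : B = B'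
      · subst hBB
        exact heB (hsub (Finset.mem_insert_self _ _))
      · have h1 := blocks_inter B hB B' hB' hBB
        have h2 : I ⊆ B ∩ B' := Finset.subset_inter hIB
          ((Finset.subset_insert _ _).trans hsub)
        have := Finset.card_le_card h2
        omega
    · push Not at hb
      obtain ⟨e, he, heI⟩ := Finset.exists_mem_notMem_of_card_lt_card hlt
      refine ⟨e, he, heI, ?_⟩
      rw [ind_iff]
      right
      refine ⟨by rw [Finset.card_insert_of_notMem heI, hI3], ?_⟩
      intro B hB hsub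
      exact hb B hB ((Finset.subset_insert _ _).trans hsub)

lemma ind_sub : ∀ ⦃I J : Finset (Fin 12)⦄, Ind J → I ⊆ J → Ind I := by
  intro I J hJ hIJ
  rw [ind_iff] at hJ ⊢
  have hc := Finset.card_le_card hIJ
  rcases hJ with hJ | ⟨hJ, hB⟩
  · left; omega
  · by_cases h : I.card ≤ 3
    · left; exact h
    · right
      have h4 : I.card = 4 := by omega
      refine ⟨h4, ?_⟩
      have : I = J := Finset.eq_of_subset_of_card_le hIJ (by omega)
      rw [this]; exact hB

def Mt : Matroid (Fin 12) :=
  (IndepMatroid.ofFinset Set.univ Ind (by rw [ind_iff]; simp) ind_sub ind_aug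
    (fun _ _ => Set.subset_univ _)).matroid

lemma mt_E : Mt.E = Set.univ := rfl

lemma mt_ind (I : Finset (Fin 12)) : Mt.Indep (I : Set (Fin 12)) ↔ Ind I := by
  simp only [Mt, IndepMatroid.matroid_Indep]
  exact IndepMatroid.ofFinset_indep _ _ _ _ _ _

open Classical in
noncomputable def clos (I : Finset (Fin 12)) : Finset (Fin 12) :=
  Finset.univ.filter (fun x => x ∈ I ∨ ¬ Ind (insert x I))

lemma mem_clos (I : Finset (Fin 12)) (x : Fin 12) : x ∈ clos I ↔ x ∈ I ∨ ¬ Ind (insert x I) := by
  simp [clos]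

lemma closure_eq {I : Finset (Fin 12)} (hI : Ind I) : Mt.closure (I : Set (Fin 12)) = (clos I : Set (Fin 12)) := by
  ext x
  rw [Matroid.Indep.mem_closure_iff ((mt_ind I).2 hI), Matroid.Dep]
  have h1 : (insert x (I : Set (Fin 12))) = ((insert x I : Finset (Fin 12)) : Set (Fin 12)) := by
    simp
  rw [h1, mt_ind, mt_E]
  simp only [Set.subset_univ, and_true, Finset.mem_coe, mem_clos]
  tauto

def AF : Finset (Finset (Fin 12)) :=
  (Finset.powersetCard 3 K1) ∪ (Finset.powersetCard 2 Finset.univ).filter (fun S => ¬ S ⊆ K1)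

lemma AF_card : AF.card = 71 := by
  have hdisj : Disjoint (Finset.powersetCard 3 K1)
      ((Finset.powersetCard 2 (Finset.univ : Finset (Fin 12))).filter (fun S => ¬ S ⊆ K1)) := by
    rw [Finset.disjoint_left]
    intro S h1 h2
    rw [Finset.mem_powersetCard] at h1
    rw [Finset.mem_filter, Finset.mem_powersetCard] at h2
    omega
  rw [AF, Finset.card_union_of_disjoint hdisj, Finset.card_powersetCard, K1_card]
  have h1 := Finset.card_filter_add_card_filter_not (s := Finset.powersetCard 2 (Finset.univ : Finset (Fin 12)))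
    (fun S => S ⊆ K1)
  have h2 : (Finset.powersetCard 2 (Finset.univ : Finset (Fin 12))).filter (fun S => S ⊆ K1) =
      Finset.powersetCard 2 K1 := by
    ext S
    simp only [Finset.mem_filter, Finset.mem_powersetCard]
    constructor
    · rintro ⟨⟨-, h⟩, h'⟩; exact ⟨h', h⟩
    · rintro ⟨h', h⟩; exact ⟨⟨Finset.subset_univ _, h⟩, h'⟩
  rw [h2, Finset.card_powersetCard, Finset.card_powersetCard, K1_card, Finset.card_univ,
    Fintype.card_fin] at h1
  have e1 : Nat.choose 6 3 = 20 := by rfl
  have e2 : Nat.choose 6 2 = 15 := by rfl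
  have e3 : Nat.choose 12 2 = 66 := by rfl
  rw [e2, e3] at h1
  rw [e1]
  omega

lemma AF_mem {S : Finset (Fin 12)} (hS : S ∈ AF) : (S ⊆ K1 ∧ S.card = 3) ∨ S.card = 2 := by
  simp only [AF, Finset.mem_union, Finset.mem_filter, Finset.mem_powersetCard] at hS
  rcases hS with ⟨h1, h2⟩ | ⟨⟨h1, h2⟩, h3⟩
  · left; exact ⟨h1, h2⟩
  · right; exact h2

lemma AF_ind : ∀ S ∈ AF, Ind S := by
  intro S hS
  rw [ind_iff]
  left
  rcases AF_mem hS with ⟨-, h⟩ | h <;> omega

lemma clos_self {S : Finset (Fin 12)} (h : ∀ x, x ∉ S → Ind (insert x S)) : clos S = S := by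
  ext x
  rw [mem_clos]
  constructor
  · rintro (hx | hx)
    · exact hx
    · by_contra hxS
      exact hx (h x hxS)
  · intro hx; left; exact hx

lemma AF_clos : ∀ S ∈ AF, clos S = S := by
  intro S hS
  apply clos_self
  intro x hx
  rw [ind_iff, Finset.card_insert_of_notMem hx]
  rcases AF_mem hS with ⟨h1, h2⟩ | h
  · right
    refine ⟨by omega, ?_⟩
    intro B hB hsub
    have := block_K1 hB h1 ((Finset.subset_insert _ _).trans hsub)
    omega
  · left; omega

lemma AF_anti : ∀ S ∈ AF, ∀ T ∈ AF, S ⊆ T → S = T := by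
  intro S hS T hT h
  simp only [AF, Finset.mem_union, Finset.mem_filter, Finset.mem_powersetCard] at hS hT
  have hc := Finset.card_le_card h
  rcases hS with ⟨h1, h2⟩ | ⟨⟨h1, h2⟩, h3⟩
  · rcases hT with ⟨h4, h5⟩ | ⟨⟨h4, h5⟩, h6⟩
    · exact Finset.eq_of_subset_of_card_le h (by omega)
    · omega
  · rcases hT with ⟨h4, h5⟩ | ⟨⟨h4, h5⟩, h6⟩
    · exact absurd (h.trans h4) h3
    · exact Finset.eq_of_subset_of_card_le h (by omega)

def H3 : Finset (Finset (Fin 12)) := blocks.toFinset ∪ Finset.powersetCard 3 K1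

lemma H3_card : H3.card ≤ 66 := by
  refine (Finset.card_union_le _ _).trans ?_
  have h1 : blocks.toFinset.card ≤ 46 := (List.toFinset_card_le _).trans (by decide)
  have h2 : (Finset.powersetCard 3 K1).card = 20 := by
    rw [Finset.card_powersetCard, K1_card]; rfl
  omega

lemma clos3 : ∀ I ∈ Finset.powersetCard 3 (Finset.univ : Finset (Fin 12)), clos I ∈ H3 := by
  intro I hI
  have hI3 := (Finset.mem_powersetCard.1 hI).2
  by_cases hb : ∃ B ∈ blocks, I ⊆ B
  · obtain ⟨B, hB, hIB⟩ := hb
    have : clos I = B := by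
      ext x
      rw [mem_clos]
      constructor
      · rintro (hx | hx)
        · exact hIB hx
        · by_contra hxB
          have hxI : x ∉ I := fun h => hxB (hIB h)
          apply hx
          rw [ind_iff, Finset.card_insert_of_notMem hxI]
          right
          refine ⟨by omega, ?_⟩
          intro B' hB' hsub
          by_cases hBB : B = B'
          · subst hBB
            exact hxB (hsub (Finset.mem_insert_self _ _))
          · have h1 := blocks_inter B hB B' hB' hBB
            have h2 : I ⊆ B ∩ B' := Finset.subset_inter hIB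
              ((Finset.subset_insert _ _).trans hsub)
            have := Finset.card_le_card h2
            omega
      · intro hxB
        by_cases hxI : x ∈ I
        · left; exact hxI
        · right
          rw [ind_iff, Finset.card_insert_of_notMem hxI]
          push Not
          refine ⟨by omega, fun _ => ⟨B, hB, Finset.insert_subset hxB hIB⟩⟩
    rw [this, H3, Finset.mem_union]
    left
    exact List.mem_toFinset.2 hB
  · have hK : I ⊆ K1 := by
      rcases cover I hI3 with h | h
      · exact h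
      · exact absurd h hb
    push Not at hb
    have : clos I = I := by
      apply clos_self
      intro x hx
      rw [ind_iff, Finset.card_insert_of_notMem hx]
      right
      refine ⟨by omega, ?_⟩
      intro B hB hsub
      exact hb B hB ((Finset.subset_insert _ _).trans hsub)
    rw [this, H3, Finset.mem_union]
    right
    exact Finset.mem_powersetCard.2 ⟨hK, hI3⟩

open Classical in
lemma flats_sub (k : ℕ) : {F : Set (Fin 12) | Mt.IsFlat F ∧ Mt.eRk F = (k : ℕ∞)} ⊆
    (fun S : Finset (Fin 12) => (S : Set (Fin 12))) ''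
      ((((Finset.powersetCard k Finset.univ).filter (fun I => Ind I)).image clos : Finset (Finset (Fin 12))) :
        Set (Finset (Fin 12))) := by
  rintro F ⟨hF, hr⟩
  obtain ⟨I, hI⟩ := Mt.exists_isBasis F hF.subset_ground
  obtain ⟨J, rfl⟩ : ∃ J : Finset (Fin 12), I = (J : Set (Fin 12)) := ⟨I.toFinite.toFinset, (Set.Finite.coe_toFinset _).symm⟩
  have h1 : Ind J := (mt_ind J).1 hI.indep
  have h2 : Mt.closure (J : Set (Fin 12)) = F := by rw [hI.closure_eq_closure, hF.closure]
  have h3 : J.card = k := by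
    have := hI.encard_eq_eRk
    rw [hr, Set.encard_coe_eq_coe_finsetCard] at this
    exact_mod_cast this
  refine ⟨clos J, ?_, ?_⟩
  · simp only [Finset.coe_image, Set.mem_image, Finset.mem_coe, Finset.mem_filter,
      Finset.mem_powersetCard]
    exact ⟨J, ⟨⟨Finset.subset_univ _, h3⟩, h1⟩, rfl⟩
  · change ((clos J : Finset (Fin 12)) : Set (Fin 12)) = F
    rw [← h2, closure_eq h1]

open Classical in
lemma flats_card (k : ℕ) : {F : Set (Fin 12) | Mt.IsFlat F ∧ Mt.eRk F = (k : ℕ∞)}.ncard ≤
    (((Finset.powersetCard k Finset.univ).filter (fun I => Ind I)).image clos).card := by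
  refine (Set.ncard_le_ncard (flats_sub k) (Set.toFinite _)).trans ?_
  refine (Set.ncard_image_le (Set.toFinite _)).trans ?_
  rw [Set.ncard_coe_finset]

open Classical in
lemma flats66 (k : ℕ) : {F : Set (Fin 12) | Mt.IsFlat F ∧ Mt.eRk F = (k : ℕ∞)}.ncard ≤ 66 := by
  refine (flats_card k).trans ?_
  by_cases hk2 : k ≤ 2
  · refine Finset.card_image_le.trans ((Finset.card_filter_le _ _).trans ?_)
    rw [Finset.card_powersetCard, Finset.card_univ, Fintype.card_fin]
    interval_cases k <;> decide
  · by_cases hk3 : k = 3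
    · subst hk3
      refine le_trans (Finset.card_le_card ?_) H3_card
      intro S hS
      obtain ⟨I, hI, rfl⟩ := Finset.mem_image.1 hS
      exact clos3 I (Finset.mem_filter.1 hI).1
    · refine le_trans (Finset.card_le_card (t := {Finset.univ}) ?_) (by simp)
      intro S hS
      obtain ⟨I, hI, rfl⟩ := Finset.mem_image.1 hS
      rw [Finset.mem_filter, Finset.mem_powersetCard] at hI
      obtain ⟨⟨-, hc⟩, hi⟩ := hI
      rw [Finset.mem_singleton]
      ext x
      simp only [mem_clos, Finset.mem_univ, iff_true]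
      by_cases hx : x ∈ I
      · left; exact hx
      · right
        intro h
        have := ind_card h
        rw [Finset.card_insert_of_notMem hx] at this
        omega

lemma paving : ∀ C : Set (Fin 12), Mt.IsCircuit C → Mt.eRk Mt.E ≤ C.encard := by
  intro C hC
  have h1 : Mt.eRk Mt.E ≤ 4 := by
    obtain ⟨I, hI⟩ := Mt.exists_isBasis Mt.E
    obtain ⟨J, rfl⟩ : ∃ J : Finset (Fin 12), I = (J : Set (Fin 12)) := ⟨I.toFinite.toFinset, (Set.Finite.coe_toFinset _).symm⟩
    rw [← hI.encard_eq_eRk, Set.encard_coe_eq_coe_finsetCard]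
    have := ind_card ((mt_ind J).1 hI.indep)
    exact_mod_cast this
  refine h1.trans ?_
  obtain ⟨J, rfl⟩ : ∃ J : Finset (Fin 12), C = (J : Set (Fin 12)) := ⟨C.toFinite.toFinset, (Set.Finite.coe_toFinset _).symm⟩
  have hd := hC.not_indep
  rw [mt_ind, ind_iff] at hd
  push Not at hd
  rw [Set.encard_coe_eq_coe_finsetCard]
  have := hd.1
  exact_mod_cast this

end Aux

open Aux in
/-- The negation of the preceding statement: For every matroid on a finite set whose circuits all have size at least its rank (paving), some rank level of its flats is at least as large as every antichain of flats under inclusion, i.e. the lattice of flats is Sperner. -/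
theorem result :
    ¬ (∀ (α : Type) [Finite α] (M : Matroid α),
      (∀ C : Set α, M.IsCircuit C → M.eRk M.E ≤ C.encard) →
      ∃ k : ℕ, ∀ A : Set (Set α), (∀ F ∈ A, M.IsFlat F) →
        IsAntichain (· ⊆ ·) A →
        A.ncard ≤ {F : Set α | M.IsFlat F ∧ M.eRk F = (k : ℕ∞)}.ncard) := by
  intro H
  obtain ⟨k, hk⟩ := H (Fin 12) Mt paving
  have h := hk ((fun S : Finset (Fin 12) => (S : Set (Fin 12))) '' (AF : Set (Finset (Fin 12)))) ?_ ?_
  · rw [Set.ncard_image_of_injective _ Finset.coe_injective, Set.ncard_coe_finset, AF_card] at h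
    have := flats66 k
    omega
  · rintro _ ⟨S, hS, rfl⟩
    have hS' : S ∈ AF := hS
    have h1 := closure_eq (AF_ind S hS')
    rw [AF_clos S hS'] at h1
    change Mt.IsFlat (S : Set (Fin 12))
    rw [← h1]
    exact Mt.isFlat_closure _
  · rintro _ ⟨S, hS, rfl⟩ _ ⟨T, hT, rfl⟩ hne hsub
    apply hne
    have hsub' : S ⊆ T := by
      intro x hx
      exact_mod_cast hsub (show x ∈ (S : Set (Fin 12)) from by exact_mod_cast hx)
    rw [AF_anti S hS T hT hsub']

end Pool.Agent.S2356
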