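import Pool.Statements.S2368
-- import your own Pool.Agent.* helpers here

set_option autoImplicit false
open Pool Pool.MP_71ab31_co

namespace Pool.Agent.S2368

namespace Aux

def L : List (List (Fin 26)) := [
  [0,1,2,3,4,25],
  [0,1,5,6,17,19],
  [0,1,7,9,22,24],
  [0,1,8,13,15,16],
  [0,1,10,11,18,23],
  [0,1,12,14,20,21],
  [0,2,5,7,11,21],
  [0,2,6,16,20,22],
  [0,2,8,9,10,12],
  [0,2,13,14,18,19],
  [0,2,15,17,23,24],
  [0,3,5,8,14,24],
  [0,3,6,7,10,13],
  [0,3,9,19,20,23],
  [0,3,11,12,16,17],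
  [0,3,15,18,21,22],
  [0,4,5,9,16,18],
  [0,4,6,8,21,23],
  [0,4,7,12,15,19],
  [0,4,10,14,17,22],
  [0,4,11,13,20,24],
  [0,5,10,15,20,25],
  [0,5,12,13,22,23],
  [0,6,9,11,14,15],
  [0,6,12,18,24,25],
  [0,7,8,17,18,20],
  [0,7,14,16,23,25],
  [0,8,11,19,22,25],
  [0,9,13,17,21,25],
  [0,10,16,19,21,24],
  [1,2,5,8,20,23],
  [1,2,6,7,15,18],
  [1,2,9,14,16,17],
  [1,2,10,13,21,22],
  [1,2,11,12,19,24],
  [1,3,5,9,11,13],
  [1,3,6,8,12,22],
  [1,3,7,17,21,23],
  [1,3,10,14,15,19],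
  [1,3,16,18,20,24],
  [1,4,5,15,21,24],
  [1,4,6,9,10,20],
  [1,4,7,8,11,14],
  [1,4,12,13,17,18],
  [1,4,16,19,22,23],
  [1,5,7,10,12,16],
  [1,5,14,18,22,25],
  [1,6,11,16,21,25],
  [1,6,13,14,23,24],
  [1,7,13,19,20,25],
  [1,8,9,18,19,21],
  [1,8,10,17,24,25],
  [1,9,12,15,23,25],
  [1,11,15,17,20,22],
  [2,3,5,10,17,18],
  [2,3,6,9,21,24],
  [2,3,7,8,16,19],
  [2,3,11,14,22,23],
  [2,3,12,13,15,20],
  [2,4,5,6,12,14],
  [2,4,7,9,13,23],
  [2,4,8,18,22,24],
  [2,4,10,11,15,16],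
  [2,4,17,19,20,21],
  [2,5,9,15,19,22],
  [2,5,13,16,24,25],
  [2,6,8,11,13,17],
  [2,6,10,19,23,25],
  [2,7,10,14,20,24],
  [2,7,12,17,22,25],
  [2,8,14,15,21,25],
  [2,9,11,18,20,25],
  [2,12,16,18,21,23],
  [3,4,5,7,20,22],
  [3,4,6,11,18,19],
  [3,4,8,9,15,17],
  [3,4,10,12,23,24],
  [3,4,13,14,16,21],
  [3,5,6,15,16,23],
  [3,5,12,19,21,25],
  [3,6,14,17,20,25],
  [3,7,9,12,14,18],
  [3,7,11,15,24,25],
  [3,8,10,11,20,21],
  [3,8,13,18,23,25],
  [3,9,10,16,22,25],
  [3,13,17,19,22,24],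
  [4,5,8,10,13,19],
  [4,5,11,17,23,25],
  [4,6,7,16,17,24],
  [4,6,13,15,22,25],
  [4,7,10,18,21,25],
  [4,8,12,16,20,25],
  [4,9,11,12,21,22],
  [4,9,14,19,24,25],
  [4,14,15,18,20,23],
  [5,6,7,8,9,25],
  [5,6,10,11,22,24],
  [5,6,13,18,20,21],
  [5,7,13,14,15,17],
  [5,7,18,19,23,24],
  [5,8,11,12,15,18],
  [5,8,16,17,21,22],
  [5,9,10,14,21,23],
  [5,9,12,17,20,24],
  [5,11,14,16,19,20],
  [6,7,11,12,20,23],
  [6,7,14,19,21,22],
  [6,8,10,14,16,18],
  [6,8,15,19,20,24],
  [6,9,12,13,16,19],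
  [6,9,17,18,22,23],
  [6,10,12,15,17,21],
  [7,8,10,15,22,23],
  [7,8,12,13,21,24],
  [7,9,10,11,17,19],
  [7,9,15,16,20,21],
  [7,11,13,16,18,22],
  [8,9,11,16,23,24],
  [8,9,13,14,20,22],
  [8,12,14,17,19,23],
  [9,10,13,15,18,24],
  [10,11,12,13,14,25],
  [10,12,18,19,20,22],
  [10,13,16,17,20,23],
  [11,13,15,19,21,23],
  [11,14,17,18,21,24],
  [12,14,15,16,22,24],
  [15,16,17,18,19,25],
  [20,21,22,23,24,25]]

def R (l l' : List (Fin 26)) : Bool := decide ((l.filter (fun x => l'.contains x)).length ≤ 2)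

lemma L_pw : L.Pairwise (fun l l' => R l l' = true) := by decide +kernel

lemma L_six : ∀ l ∈ L, l.length = 6 ∧ l.Nodup := by decide +kernel

lemma inter_eq (l l' : List (Fin 26)) :
    l.toFinset ∩ l'.toFinset = (l.filter (fun x => l'.contains x)).toFinset := by
  ext x
  simp

lemma R_card {l l' : List (Fin 26)} (h : R l l' = true) :
    (l.toFinset ∩ l'.toFinset).card ≤ 2 := by
  rw [inter_eq]
  simp only [R, decide_eq_true_eq] at h
  exact (List.toFinset_card_le _).trans h

lemma L_card6 {l : List (Fin 26)} (h : l ∈ L) : l.toFinset.card = 6 := by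
  have := L_six l h
  rw [List.toFinset_card_of_nodup this.2, this.1]

def LF : List (Finset (Fin 26)) := L.map List.toFinset

lemma LF_pw : LF.Pairwise (fun A A' => (A ∩ A').card ≤ 2) := by
  rw [LF, List.pairwise_map]
  exact L_pw.imp R_card

lemma LF_six {A : Finset (Fin 26)} (h : A ∈ LF) : A.card = 6 := by
  obtain ⟨l, hl, rfl⟩ := List.mem_map.1 h
  exact L_card6 hl

lemma LF_nodup : LF.Nodup := by
  have h := LF_pw
  refine List.Pairwise.imp_of_mem ?_ h
  intro A A' hA hA' hle heq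
  subst heq
  rw [Finset.inter_self, LF_six hA] at hle
  omega

def Zb : Finset (Finset (Fin 26)) := LF.toFinset

lemma Zb_card : Zb.card = 130 := by
  rw [Zb, List.toFinset_card_of_nodup LF_nodup, LF, List.length_map]
  decide +kernel

lemma Zb_six {A : Finset (Fin 26)} (h : A ∈ Zb) : A.card = 6 := LF_six (by simpa [Zb] using h)

lemma Zb_thin : ∀ A ∈ Zb, ∀ A' ∈ Zb, A ≠ A' → (A ∩ A').card ≤ 2 := by
  intro A hA A' hA' hne
  have hs : Std.Symm (fun A A' : Finset (Fin 26) => (A ∩ A').card ≤ 2) := ⟨by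
    intro x y h
    rw [Finset.inter_comm]
    exact h⟩
  have hA1 : A ∈ LF := by simpa [Zb] using hA
  have hA2 : A' ∈ LF := by simpa [Zb] using hA'
  exact List.Pairwise.forall LF_pw hA1 hA2 hne

lemma Zb_anti : IsAntichain (· ⊆ ·) (Zb : Set (Finset (Fin 26))) := by
  intro A hA A' hA' hne hsub
  have h1 := Zb_thin A hA A' hA' hne
  rw [Finset.inter_eq_left.2 hsub, Zb_six hA] at h1
  omega

lemma inf_mem {S : Finset (Finset (Fin 26))} (x : Fin 26) : x ∈ S.inf id ↔ ∀ A ∈ S, x ∈ A := by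
  simp [Finset.mem_inf]

lemma term_eq {S : Finset (Finset (Fin 26))} (hS : S ⊆ Zb) (hne : S.Nonempty) :
    (if 3 ≤ (S.inf id).card then 3 * ((S.inf id).card : ℤ) - 6
      else if (S.inf id).card = 2 then 1 else 0) =
    (((S.inf id).card.choose 2 : ℕ) : ℤ) - (if S.card = 1 then 3 else 0) := by
  by_cases h1 : S.card = 1
  · obtain ⟨A, rfl⟩ := Finset.card_eq_one.1 h1
    have hA : A.card = 6 := Zb_six (hS (by simp))
    simp only [Finset.inf_singleton, id, hA, h1]
    norm_num [Nat.choose]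
  · have h2 : 2 ≤ S.card := by
      have := hne.card_pos
      omega
    obtain ⟨A, hA, A', hA', hAA⟩ := Finset.one_lt_card.1 h2
    have hle : (S.inf id).card ≤ 2 := by
      refine (Finset.card_le_card ?_).trans (Zb_thin A (hS hA) A' (hS hA') hAA)
      intro x hx
      rw [inf_mem] at hx
      exact Finset.mem_inter.2 ⟨hx A hA, hx A' hA'⟩
    rw [if_neg h1]
    generalize (S.inf id).card = k at hle
    interval_cases k <;> simp

lemma inf'_card {S : Finset (Finset (Fin 26))} (hne : S.Nonempty) :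
    (S.inf' hne (fun A => A.powersetCard 2)).card = (S.inf id).card.choose 2 := by
  rw [← Finset.card_powersetCard]
  congr 1
  ext b
  rw [Finset.mem_powersetCard]
  constructor
  · intro h
    have h' : ∀ A ∈ S, b ∈ A.powersetCard 2 := by
      intro A hA
      have : S.inf' hne (fun A => A.powersetCard 2) ≤ A.powersetCard 2 :=
        Finset.inf'_le (f := fun A : Finset (Fin 26) => A.powersetCard 2) hA
      exact this h
    refine ⟨?_, ?_⟩
    · intro x hx
      rw [inf_mem]
      intro A hA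
      exact (Finset.mem_powersetCard.1 (h' A hA)).1 hx
    · obtain ⟨A, hA⟩ := hne
      exact (Finset.mem_powersetCard.1 (h' A hA)).2
  · rintro ⟨h1, h2⟩
    have : ({b} : Finset (Finset (Fin 26))) ≤ S.inf' hne (fun A => A.powersetCard 2) := by
      apply Finset.le_inf'
      intro A hA
      intro c hc
      rw [Finset.mem_singleton] at hc
      subst hc
      rw [Finset.mem_powersetCard]
      refine ⟨?_, h2⟩
      intro x hx
      have := h1 hx
      rw [inf_mem] at this
      exact this A hA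
    exact this (Finset.mem_singleton_self b)

set_option maxRecDepth 100000 in
lemma sum_choose : (∑ S ∈ Zb.powerset.filter (fun S => S.Nonempty),
    (-1 : ℤ) ^ (S.card + 1) * (((S.inf id).card.choose 2 : ℕ) : ℤ)) ≤ 325 := by
  have h := Finset.inclusion_exclusion_card_biUnion Zb (fun A => A.powersetCard 2)
  have h2 : (∑ S ∈ Zb.powerset.filter (fun S => S.Nonempty),
    (-1 : ℤ) ^ (S.card + 1) * (((S.inf id).card.choose 2 : ℕ) : ℤ)) =
    ((Zb.biUnion (fun A => A.powersetCard 2)).card : ℤ) := by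
    rw [h]
    rw [← Finset.sum_coe_sort (Zb.powerset.filter (fun S => S.Nonempty))]
    apply Finset.sum_congr rfl
    intro S _
    rw [inf'_card]
  rw [h2]
  have h3 : (Zb.biUnion (fun A => A.powersetCard 2)).card ≤
      ((Finset.univ : Finset (Fin 26)).powersetCard 2).card := by
    apply Finset.card_le_card
    intro b hb
    rw [Finset.mem_biUnion] at hb
    obtain ⟨A, hA, hb⟩ := hb
    rw [Finset.mem_powersetCard] at hb ⊢
    exact ⟨Finset.subset_univ _, hb.2⟩
  rw [Finset.card_powersetCard, Finset.card_univ, Fintype.card_fin] at h3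
  have h4 : Nat.choose 26 2 = 325 := by rw [Nat.choose_two_right]
  rw [h4] at h3
  exact_mod_cast h3

lemma sum_single : (∑ S ∈ Zb.powerset.filter (fun S => S.Nonempty),
    (-1 : ℤ) ^ (S.card + 1) * (if S.card = 1 then (3 : ℤ) else 0)) = 390 := by
  have h1 : ∀ S ∈ Zb.powerset.filter (fun S => S.Nonempty),
      (-1 : ℤ) ^ (S.card + 1) * (if S.card = 1 then (3 : ℤ) else 0) =
      if S.card = 1 then (3 : ℤ) else 0 := by
    intro S _
    split_ifs with h
    · rw [h]; norm_num
    · ring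
  rw [Finset.sum_congr rfl h1, ← Finset.sum_filter, Finset.sum_const]
  have h2 : (Zb.powerset.filter (fun S => S.Nonempty)).filter (fun S => S.card = 1) =
      Zb.powersetCard 1 := by
    ext S
    simp only [Finset.mem_filter, Finset.mem_powerset, Finset.mem_powersetCard]
    constructor
    · rintro ⟨⟨h1, h2⟩, h3⟩
      exact ⟨h1, h3⟩
    · rintro ⟨h1, h3⟩
      refine ⟨⟨h1, ?_⟩, h3⟩
      rw [← Finset.card_pos]
      omega
  rw [h2, Finset.card_powersetCard, Zb_card]
  norm_num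

lemma chi_neg : (∑ S ∈ Zb.powerset.filter (fun S => S.Nonempty),
                (-1 : ℤ) ^ (S.card + 1) *
                  (if 3 ≤ (S.inf id).card then 3 * ((S.inf id).card : ℤ) - 6
                   else if (S.inf id).card = 2 then 1 else 0)) < 0 := by
  have h : ∀ S ∈ Zb.powerset.filter (fun S => S.Nonempty),
      (-1 : ℤ) ^ (S.card + 1) *
                  (if 3 ≤ (S.inf id).card then 3 * ((S.inf id).card : ℤ) - 6
                   else if (S.inf id).card = 2 then 1 else 0) =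
      (-1 : ℤ) ^ (S.card + 1) * (((S.inf id).card.choose 2 : ℕ) : ℤ) -
      (-1 : ℤ) ^ (S.card + 1) * (if S.card = 1 then (3 : ℤ) else 0) := by
    intro S hS
    rw [Finset.mem_filter, Finset.mem_powerset] at hS
    rw [term_eq hS.1 hS.2]
    ring
  rw [Finset.sum_congr rfl h, Finset.sum_sub_distrib, sum_single]
  have := sum_choose
  linarith

end Aux

open Aux in
/-- The negation of the preceding statement: For every finite set P, let r(B) be the least characteristic over thin antichains covering a bar set B. Then r satisfies the matroid rank axioms on pairs: 0 ≤ r(B) ≤ ∣B∣, r is monotone, and r is submodular. -/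
theorem result :
    ¬ (∀ (n : ℕ) (r : Finset (Finset (Fin n)) → ℤ),
    (∀ B : Finset (Finset (Fin n)),
      B ⊆ (Finset.univ : Finset (Fin n)).powersetCard 2 →
      IsLeast {x : ℤ | ∃ Z : Finset (Finset (Fin n)),
          IsAntichain (· ⊆ ·) (Z : Set (Finset (Fin n))) ∧
          (∀ A ∈ Z, ∀ A' ∈ Z, A ≠ A' → (A ∩ A').card ≤ 2) ∧
          (∀ b ∈ B, ∃ A ∈ Z, b ⊆ A) ∧
          x = ∑ S ∈ Z.powerset.filter (fun S => S.Nonempty),
                (-1 : ℤ) ^ (S.card + 1) *
                  (if 3 ≤ (S.inf id).card then 3 * ((S.inf id).card : ℤ) - 6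
                   else if (S.inf id).card = 2 then 1 else 0)} (r B)) →
    (∀ B : Finset (Finset (Fin n)),
        B ⊆ (Finset.univ : Finset (Fin n)).powersetCard 2 →
        0 ≤ r B ∧ r B ≤ (B.card : ℤ)) ∧
    (∀ B C : Finset (Finset (Fin n)), B ⊆ C →
        C ⊆ (Finset.univ : Finset (Fin n)).powersetCard 2 → r B ≤ r C) ∧
    (∀ B C : Finset (Finset (Fin n)),
        B ⊆ (Finset.univ : Finset (Fin n)).powersetCard 2 →
        C ⊆ (Finset.univ : Finset (Fin n)).powersetCard 2 →
        r (B ∪ C) + r (B ∩ C) ≤ r B + r C)) := by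
  intro H
  obtain ⟨T, hT⟩ : ∃ T : Finset (Finset (Fin 26)) → Set ℤ, T = fun B =>
      {x : ℤ | ∃ Z : Finset (Finset (Fin 26)),
          IsAntichain (· ⊆ ·) (Z : Set (Finset (Fin 26))) ∧
          (∀ A ∈ Z, ∀ A' ∈ Z, A ≠ A' → (A ∩ A').card ≤ 2) ∧
          (∀ b ∈ B, ∃ A ∈ Z, b ⊆ A) ∧
          x = ∑ S ∈ Z.powerset.filter (fun S => S.Nonempty),
                (-1 : ℤ) ^ (S.card + 1) *
                  (if 3 ≤ (S.inf id).card then 3 * ((S.inf id).card : ℤ) - 6
                   else if (S.inf id).card = 2 then 1 else 0)} := ⟨_, rfl⟩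
  have hfin : ∀ B, (T B).Finite := by
    intro B
    refine (Set.finite_range (fun Z : Finset (Finset (Fin 26)) =>
      ∑ S ∈ Z.powerset.filter (fun S => S.Nonempty),
                (-1 : ℤ) ^ (S.card + 1) *
                  (if 3 ≤ (S.inf id).card then 3 * ((S.inf id).card : ℤ) - 6
                   else if (S.inf id).card = 2 then 1 else 0))).subset ?_
    intro x hx
    rw [hT] at hx
    obtain ⟨Z, -, -, -, hx⟩ := hx
    exact ⟨Z, hx.symm⟩
  have hne : ∀ B : Finset (Finset (Fin 26)),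
      B ⊆ (Finset.univ : Finset (Fin 26)).powersetCard 2 → (T B).Nonempty := by
    intro B hB
    rw [hT]
    refine ⟨_, B, ?_, ?_, ?_, rfl⟩
    · intro A hA A' hA' hAA hsub
      have h1 := (Finset.mem_powersetCard.1 (hB hA)).2
      have h2 := (Finset.mem_powersetCard.1 (hB hA')).2
      exact hAA (Finset.eq_of_subset_of_card_le hsub (by omega))
    · intro A hA A' hA' hAA
      have h1 := (Finset.mem_powersetCard.1 (hB hA)).2
      exact (Finset.card_le_card Finset.inter_subset_left).trans h1.le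
    · intro b hb
      exact ⟨b, hb, Finset.Subset.refl _⟩
  have hleast : ∀ B : Finset (Finset (Fin 26)),
      B ⊆ (Finset.univ : Finset (Fin 26)).powersetCard 2 → ∃ x, IsLeast (T B) x := by
    intro B hB
    obtain ⟨x, hx, hmin⟩ := Set.exists_min_image (T B) id (hfin B) (hne B hB)
    exact ⟨x, hx, fun y hy => hmin y hy⟩
  choose! r hr using hleast
  have key := H 26 r (by
    intro B hB
    have h' := hr B hB
    rw [hT] at h'
    exact h')
  have h0 := (key.1 ∅ (Finset.empty_subset _)).1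
  have h' := (hr ∅ (Finset.empty_subset _)).2
  have hmem : (∑ S ∈ Zb.powerset.filter (fun S => S.Nonempty),
                (-1 : ℤ) ^ (S.card + 1) *
                  (if 3 ≤ (S.inf id).card then 3 * ((S.inf id).card : ℤ) - 6
                   else if (S.inf id).card = 2 then 1 else 0)) ∈ T ∅ := by
    rw [hT]
    exact ⟨Zb, Zb_anti, Zb_thin, by intro b hb; exact absurd hb (Finset.notMem_empty b), rfl⟩
  have := h' hmem
  have h4 := chi_neg
  linarith

end Pool.Agent.S2368
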