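import Pool.Statements.S2560
-- import your own Pool.Agent.* helpers here

set_option autoImplicit false
open Pool Pool.MP_a94970_co

namespace Pool.Agent.S2560

namespace Aux

def c (T : Finset ℕ) (j z : ℕ) : ℕ := (T.filter (fun x => x / 2^j = z / 2^j)).card

def Gs (k a : ℕ) (T : Finset ℕ) : ℕ :=
  ∑ j ∈ Finset.range (k+1), ((Finset.Ico (a * 2^k) ((a+1) * 2^k)).filter (fun z => c T j z = 1)).card

lemma mem_iff (k a z : ℕ) : z ∈ Finset.Ico (a * 2^k) ((a+1) * 2^k) ↔ z / 2^k = a := by
  rw [Finset.mem_Ico]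
  have hp : 0 < 2^k := Nat.pos_of_ne_zero (by positivity)
  constructor
  · rintro ⟨h1, h2⟩
    exact Nat.div_eq_of_lt_le h1 h2
  · intro h
    subst h
    have h1 := Nat.div_add_mod z (2^k)
    have h2 := Nat.mod_lt z hp
    constructor
    · exact Nat.div_mul_le_self _ _
    · rw [add_mul, one_mul, mul_comm]
      omega

lemma div_le_div_pow {x z j k : ℕ} (hjk : j ≤ k) (h : x / 2^j = z / 2^j) : x / 2^k = z / 2^k := by
  obtain ⟨d, rfl⟩ := Nat.exists_eq_add_of_le hjk
  rw [pow_add, ← Nat.div_div_eq_div_mul, ← Nat.div_div_eq_div_mul, h]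

lemma Gs_empty (k a : ℕ) (T : Finset ℕ) (h : (T.filter (fun x => x / 2^k = a)).card = 0) :
    Gs k a T = 0 := by
  rw [Finset.card_eq_zero] at h
  apply Finset.sum_eq_zero
  intro j hj
  rw [Finset.card_eq_zero, Finset.filter_eq_empty_iff]
  intro z hz hc
  rw [mem_iff] at hz
  have hjk : j ≤ k := by
    have := Finset.mem_range.1 hj
    omega
  have hpos : 0 < (T.filter (fun x => x / 2^j = z / 2^j)).card := by
    change c T j z = 1 at hc
    unfold c at hc
    omega
  obtain ⟨x, hx⟩ := Finset.card_pos.1 hpos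
  rw [Finset.mem_filter] at hx
  have h1 := div_le_div_pow hjk hx.2
  have : x ∈ T.filter (fun x => x / 2^k = a) := Finset.mem_filter.2 ⟨hx.1, by rw [h1, hz]⟩
  rw [h] at this
  exact absurd this (Finset.notMem_empty _)

lemma Gs_bound (k : ℕ) : ∀ (a : ℕ) (T : Finset ℕ), Gs k a T + 1 ≤ 2^(k+1) := by
  induction k with
  | zero =>
    intro a T
    unfold Gs
    rw [Finset.sum_range_one]
    have h1 := Finset.card_filter_le (Finset.Ico (a * 2^0) ((a+1) * 2^0)) (fun z => c T 0 z = 1)
    rw [Nat.card_Ico] at h1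
    simp only [pow_zero, mul_one] at h1 ⊢
    omega
  | succ k ih =>
    intro a T
    have hsplit : ∀ j, ((Finset.Ico (a * 2^(k+1)) ((a+1) * 2^(k+1))).filter (fun z => c T j z = 1)).card =
        ((Finset.Ico ((2*a) * 2^k) ((2*a+1) * 2^k)).filter (fun z => c T j z = 1)).card +
        ((Finset.Ico ((2*a+1) * 2^k) ((2*a+1+1) * 2^k)).filter (fun z => c T j z = 1)).card := by
      intro j
      rw [← Finset.card_union_of_disjoint, ← Finset.filter_union]
      · congr 2
        ext z
        rw [Finset.mem_union, mem_iff, mem_iff, mem_iff, pow_succ, ← Nat.div_div_eq_div_mul]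
        omega
      · rw [Finset.disjoint_left]
        intro z h1 h2
        rw [Finset.mem_filter, mem_iff] at h1 h2
        omega
    have hG : Gs (k+1) a T = Gs k (2*a) T + Gs k (2*a+1) T +
        ((Finset.Ico (a * 2^(k+1)) ((a+1) * 2^(k+1))).filter (fun z => c T (k+1) z = 1)).card := by
      unfold Gs
      rw [Finset.sum_range_succ _ (k+1), Finset.sum_congr rfl (fun j _ => hsplit j),
        Finset.sum_add_distrib]
    have hsum : (T.filter (fun x => x / 2^(k+1) = a)).card =
        (T.filter (fun x => x / 2^k = 2*a)).card + (T.filter (fun x => x / 2^k = 2*a+1)).card := by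
      rw [← Finset.card_union_of_disjoint, ← Finset.filter_or]
      · congr 1
        ext x
        rw [Finset.mem_filter, Finset.mem_filter, pow_succ, ← Nat.div_div_eq_div_mul]
        constructor
        · rintro ⟨h1, h2⟩
          exact ⟨h1, by omega⟩
        · rintro ⟨h1, h2⟩
          exact ⟨h1, by omega⟩
      · rw [Finset.disjoint_left]
        intro z h1 h2
        rw [Finset.mem_filter] at h1 h2
        omega
    have i1 := ih (2*a) T
    have i2 := ih (2*a+1) T
    have hpow : 2^(k+1+1) = 2 * 2^(k+1) := by ring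
    rw [hG, hpow]
    by_cases hone : (T.filter (fun x => x / 2^(k+1) = a)).card = 1
    · have hle : ((Finset.Ico (a * 2^(k+1)) ((a+1) * 2^(k+1))).filter (fun z => c T (k+1) z = 1)).card ≤ 2^(k+1) := by
        refine (Finset.card_filter_le _ _).trans ?_
        rw [Nat.card_Ico, add_mul, one_mul]
        omega
      rw [hsum] at hone
      by_cases h0 : (T.filter (fun x => x / 2^k = 2*a)).card = 0
      · have := Gs_empty k (2*a) T h0
        omega
      · have h0' : (T.filter (fun x => x / 2^k = 2*a+1)).card = 0 := by omega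
        have := Gs_empty k (2*a+1) T h0'
        omega
    · have hz : ((Finset.Ico (a * 2^(k+1)) ((a+1) * 2^(k+1))).filter (fun z => c T (k+1) z = 1)).card = 0 := by
        rw [Finset.card_eq_zero, Finset.filter_eq_empty_iff]
        intro z hz hc
        rw [mem_iff] at hz
        unfold c at hc
        rw [hz] at hc
        exact hone hc
      omega

abbrev VV := Fin (2^14) ⊕ (Fin 15 × Fin (2^14))

def adjP (x : Fin (2^14)) (p : Fin 15 × Fin (2^14)) : Prop := x.val / 2^p.1.val = p.2.val / 2^p.1.val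

def GG : SimpleGraph VV where
  Adj u v := (∃ x p, u = Sum.inl x ∧ v = Sum.inr p ∧ adjP x p) ∨
    (∃ x p, v = Sum.inl x ∧ u = Sum.inr p ∧ adjP x p)
  symm := ⟨by
    intro u v h
    exact h.symm⟩
  loopless := ⟨by
    rintro u (⟨x, p, h1, h2, -⟩ | ⟨x, p, h1, h2, -⟩)
    · rw [h1] at h2; cases h2
    · rw [h1] at h2; cases h2⟩

lemma GG_conn : GG.Connected := by
  rw [SimpleGraph.connected_iff_exists_forall_reachable]
  have hl : ∀ x : Fin (2^14), GG.Adj (Sum.inr ((14 : Fin 15), (0 : Fin (2^14)))) (Sum.inl x) := by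
    intro x
    right
    refine ⟨x, _, rfl, rfl, ?_⟩
    have hx := x.2
    change x.val / 2^14 = 0 / 2^14
    rw [Nat.div_eq_of_lt hx, Nat.zero_div]
  refine ⟨Sum.inr ((14 : Fin 15), (0 : Fin (2^14))), ?_⟩
  rintro (x | p)
  · exact (hl x).reachable
  · refine (hl p.2).reachable.trans ?_
    have : GG.Adj (Sum.inl p.2) (Sum.inr p) := by
      left
      exact ⟨p.2, p, rfl, rfl, rfl⟩
    exact this.reachable

end Aux

open Aux in
/-- The negation of the preceding statement: Every connected finite simple graph on n ≥ 3 vertices has a 0/1/2 labelling where each 0-vertex has exactly one neighbour labelled 2, with total label sum at most 4n/5. -/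
theorem result :
    ¬ (∀ (V : Type) [Fintype V] (G : SimpleGraph V),
      G.Connected → 3 ≤ Fintype.card V →
      ∃ f : V → ℕ, (∀ v, f v ≤ 2) ∧
        (∀ v, f v = 0 → ∃! u, G.Adj v u ∧ f u = 2) ∧
        5 * (∑ v, f v) ≤ 4 * Fintype.card V) := by
  intro H
  have hcard : Fintype.card VV = 262144 := by
    rw [Fintype.card_sum, Fintype.card_prod, Fintype.card_fin, Fintype.card_fin]
    norm_num
  obtain ⟨f, hf2, hf0, hsum⟩ := H VV GG GG_conn (by rw [hcard]; norm_num)
  rw [hcard, Fintype.sum_sum_type] at hsum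
  obtain ⟨T, hT⟩ : ∃ T : Finset ℕ, T = ((Finset.univ : Finset (Fin (2^14))).filter
      (fun x => f (Sum.inl x) = 2)).map Fin.valEmbedding := ⟨_, rfl⟩
  have hmemT : ∀ x : Fin (2^14), f (Sum.inl x) = 2 → x.val ∈ T := by
    intro x hx
    rw [hT, Finset.mem_map]
    exact ⟨x, Finset.mem_filter.2 ⟨Finset.mem_univ _, hx⟩, rfl⟩
  have hmemT' : ∀ n ∈ T, ∃ x : Fin (2^14), x.val = n ∧ f (Sum.inl x) = 2 := by
    intro n hn
    rw [hT, Finset.mem_map] at hn
    obtain ⟨x, hx, rfl⟩ := hn
    exact ⟨x, rfl, (Finset.mem_filter.1 hx).2⟩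
  have hzero : ∀ p : Fin 15 × Fin (2^14), f (Sum.inr p) = 0 → c T p.1.val p.2.val = 1 := by
    intro p hp
    obtain ⟨u, ⟨hadj, hu2⟩, huniq⟩ := hf0 _ hp
    rcases hadj with ⟨x, q, h1, h2, h3⟩ | ⟨x, q, h1, h2, h3⟩
    · cases h1
    · have hq : p = q := Sum.inr_injective h2
      subst hq
      subst h1
      unfold c
      rw [Finset.card_eq_one]
      refine ⟨x.val, ?_⟩
      ext n
      rw [Finset.mem_filter, Finset.mem_singleton]
      constructor
      · rintro ⟨hn, hn2⟩
        obtain ⟨y, hy, hy2⟩ := hmemT' n hn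
        have := huniq (Sum.inl y) ⟨Or.inr ⟨y, p, rfl, rfl, by
          change y.val / 2^p.1.val = p.2.val / 2^p.1.val
          rw [hy]; exact hn2⟩, hy2⟩
        have hyx : y = x := Sum.inl_injective this
        rw [← hy, hyx]
      · rintro rfl
        exact ⟨hmemT x hu2, h3⟩
  have hG := Gs_bound 14 0 T
  have hlow : ∑ p : Fin 15 × Fin (2^14), 1 ≤ (∑ p : Fin 15 × Fin (2^14), f (Sum.inr p)) + Gs 14 0 T := by
    have h1 : ∀ p : Fin 15 × Fin (2^14), 1 ≤ f (Sum.inr p) + (if c T p.1.val p.2.val = 1 then 1 else 0) := by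
      intro p
      by_cases h : f (Sum.inr p) = 0
      · rw [if_pos (hzero p h)]; omega
      · omega
    refine (Finset.sum_le_sum (fun p _ => h1 p)).trans ?_
    rw [Finset.sum_add_distrib]
    apply Nat.add_le_add_left
    rw [Fintype.sum_prod_type]
    unfold Gs
    rw [← Fin.sum_univ_eq_sum_range (fun j => ((Finset.Ico (0 * 2^14) ((0+1) * 2^14)).filter (fun z => c T j z = 1)).card) (14+1)]
    apply Finset.sum_le_sum
    intro j _
    rw [← Finset.sum_filter, Finset.sum_const, smul_eq_mul, mul_one]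
    refine Finset.card_le_card_of_injOn (fun z : Fin (2^14) => z.val) ?_ ?_
    · intro z hz
      have hz' := (Finset.mem_filter.1 hz).2
      apply Finset.mem_coe.2
      rw [Finset.mem_filter, Finset.mem_Ico, Nat.zero_mul, Nat.zero_add, Nat.one_mul]
      exact ⟨⟨Nat.zero_le _, z.2⟩, hz'⟩
    · intro z _ w _ h
      exact Fin.ext h
  have hone : ∑ p : Fin 15 × Fin (2^14), 1 = 245760 := by
    rw [Finset.sum_const, smul_eq_mul, mul_one, Finset.card_univ, Fintype.card_prod,
      Fintype.card_fin, Fintype.card_fin]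
    norm_num
  rw [hone] at hlow
  norm_num at hG
  omega

end Pool.Agent.S2560
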