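import Pool.Statements.S2738
-- import your own Pool.Agent.* helpers here

set_option autoImplicit false
open Pool Pool.MP_d26300_co

namespace Pool.Agent.S2738

namespace Aux
open Matrix

def ET : List (Fin 12 × Fin 12) := [(0,1),(0,2),(0,3),(0,4),(0,5),(0,6),(1,7),(2,8),(3,9),(4,10),(5,11)]
def ES : List (Fin 12 × Fin 12) := [(0,1),(1,2),(2,3),(3,4),(4,5),(0,6),(6,7),(7,8),(0,9),(9,10),(10,11)]

def aB (E : List (Fin 12 × Fin 12)) (x y : Fin 12) : Bool := E.contains (x, y) || E.contains (y, x)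

lemma aB_symm (E : List (Fin 12 × Fin 12)) (x y : Fin 12) : aB E x y = aB E y x := by
  simp only [aB, Bool.or_comm]

def GT : SimpleGraph (Fin 12) where
  Adj x y := aB ET x y = true
  symm := ⟨by intro x y h; rw [aB_symm]; exact h⟩
  loopless := ⟨by
    have : ∀ x, ¬ (aB ET x x = true) := by decide +kernel
    exact this⟩

def GS : SimpleGraph (Fin 12) where
  Adj x y := aB ES x y = true
  symm := ⟨by intro x y h; rw [aB_symm]; exact h⟩
  loopless := ⟨by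
    have : ∀ x, ¬ (aB ES x x = true) := by decide +kernel
    exact this⟩

instance : DecidableRel GT.Adj := fun x y => inferInstanceAs (Decidable (aB ET x y = true))
instance : DecidableRel GS.Adj := fun x y => inferInstanceAs (Decidable (aB ES x y = true))

lemma conn_of_par (G : SimpleGraph (Fin 12)) (par : Fin 12 → Fin 12)
    (h : ∀ w, w ≠ 0 → par w < w ∧ G.Adj (par w) w) : G.Connected := by
  rw [SimpleGraph.connected_iff_exists_forall_reachable]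
  refine ⟨0, ?_⟩
  intro w
  induction w using WellFoundedLT.induction with
  | ind w ih =>
    by_cases hw : w = 0
    · subst hw; exact SimpleGraph.Reachable.refl _
    · obtain ⟨h1, h2⟩ := h w hw
      exact (ih _ h1).trans h2.reachable

def parT : Fin 12 → Fin 12 := ![0,0,0,0,0,0,0,1,2,3,4,5]
def parS : Fin 12 → Fin 12 := ![0,0,1,2,3,4,0,6,7,0,9,10]

lemma GT_tree : GT.IsTree := by
  rw [SimpleGraph.isTree_iff_connected_and_card]
  constructor
  · exact conn_of_par GT parT (by decide +kernel)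
  · rw [Nat.card_eq_fintype_card, Nat.card_eq_fintype_card, ← SimpleGraph.edgeFinset_card]
    decide +kernel

lemma GS_tree : GS.IsTree := by
  rw [SimpleGraph.isTree_iff_connected_and_card]
  constructor
  · exact conn_of_par GS parS (by decide +kernel)
  · rw [Nat.card_eq_fintype_card, Nat.card_eq_fintype_card, ← SimpleGraph.edgeFinset_card]
    decide +kernel

def MT : Matrix (Fin 12) (Fin 12) ℤ := Matrix.of (fun x y => if aB ET x y then 1 else 0)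
def MS : Matrix (Fin 12) (Fin 12) ℤ := Matrix.of (fun x y => if aB ES x y then 1 else 0)

lemma adjT : GT.adjMatrix ℝ = MT.map (Int.castRingHom ℝ) := by
  ext x y
  rw [SimpleGraph.adjMatrix_apply, Matrix.map_apply]
  change (if aB ET x y = true then (1:ℝ) else 0) = ((if aB ET x y = true then (1:ℤ) else 0 : ℤ) : ℝ)
  split_ifs <;> simp

lemma adjS : GS.adjMatrix ℝ = MS.map (Int.castRingHom ℝ) := by
  ext x y
  rw [SimpleGraph.adjMatrix_apply, Matrix.map_apply]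
  change (if aB ES x y = true then (1:ℝ) else 0) = ((if aB ES x y = true then (1:ℤ) else 0 : ℤ) : ℝ)
  split_ifs <;> simp

def T2 : Matrix (Fin 12) (Fin 12) ℤ := Matrix.of ![![6, 0, 0, 0, 0, 0, 0, 1, 1, 1, 1, 1], ![0, 2, 1, 1, 1, 1, 1, 0, 0, 0, 0, 0], ![0, 1, 2, 1, 1, 1, 1, 0, 0, 0, 0, 0], ![0, 1, 1, 2, 1, 1, 1, 0, 0, 0, 0, 0], ![0, 1, 1, 1, 2, 1, 1, 0, 0, 0, 0, 0], ![0, 1, 1, 1, 1, 2, 1, 0, 0, 0, 0, 0], ![0, 1, 1, 1, 1, 1, 1, 0, 0, 0, 0, 0], ![1, 0, 0, 0, 0, 0, 0, 1, 0, 0, 0, 0], ![1, 0, 0, 0, 0, 0, 0, 0, 1, 0, 0, 0], ![1, 0, 0, 0, 0, 0, 0, 0, 0, 1, 0, 0], ![1, 0, 0, 0, 0, 0, 0, 0, 0, 0, 1, 0], ![1, 0, 0, 0, 0, 0, 0, 0, 0, 0, 0, 1]]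

def T4 : Matrix (Fin 12) (Fin 12) ℤ := Matrix.of ![![41, 0, 0, 0, 0, 0, 0, 7, 7, 7, 7, 7], ![0, 9, 8, 8, 8, 8, 7, 0, 0, 0, 0, 0], ![0, 8, 9, 8, 8, 8, 7, 0, 0, 0, 0, 0], ![0, 8, 8, 9, 8, 8, 7, 0, 0, 0, 0, 0], ![0, 8, 8, 8, 9, 8, 7, 0, 0, 0, 0, 0], ![0, 8, 8, 8, 8, 9, 7, 0, 0, 0, 0, 0], ![0, 7, 7, 7, 7, 7, 6, 0, 0, 0, 0, 0], ![7, 0, 0, 0, 0, 0, 0, 2, 1, 1, 1, 1], ![7, 0, 0, 0, 0, 0, 0, 1, 2, 1, 1, 1], ![7, 0, 0, 0, 0, 0, 0, 1, 1, 2, 1, 1], ![7, 0, 0, 0, 0, 0, 0, 1, 1, 1, 2, 1], ![7, 0, 0, 0, 0, 0, 0, 1, 1, 1, 1, 2]]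

def IT : Matrix (Fin 12) (Fin 12) ℤ := Matrix.of (fun x y =>
  if x.val + 6 = y.val ∨ y.val + 6 = x.val then 1 else
  if (x.val = 6 ∧ 7 ≤ y.val) ∨ (y.val = 6 ∧ 7 ≤ x.val) then -1 else 0)

lemma mulI : MT * IT = 1 := by decide +kernel
lemma mul2 : MT * MT = T2 := by decide +kernel
lemma mul4 : T2 * T2 = T4 := by decide +kernel
lemma mul6 : T4 * T2 - 8 * T4 + 8 * T2 - 1 = 0 := by decide +kernel
lemma tr2 : T2.trace = 22 := by decide +kernel
lemma tr4 : T4.trace = 102 := by decide +kernel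

lemma trk {n : ℕ} (A : Matrix (Fin n) (Fin n) ℝ) (hA : A.IsHermitian) (k : ℕ) :
    (A^k).trace = ∑ i, (hA.eigenvalues i)^k := by
  have h := hA.spectral_theorem
  conv_lhs => rw [h]
  rw [← map_pow, Unitary.conjStarAlgAut_apply, Matrix.trace_mul_comm, ← mul_assoc]
  simp [Matrix.diagonal_pow, Matrix.trace_diagonal]

lemma roots_sum {n : ℕ} (A : Matrix (Fin n) (Fin n) ℝ) (hA : A.IsHermitian) :
    (A.charpoly.roots.map (fun x : ℝ => |x|)).sum = ∑ i, |hA.eigenvalues i| := by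
  rw [hA.roots_charpoly_eq_eigenvalues, Multiset.map_map]
  rfl

lemma roots_prod {n : ℕ} (A : Matrix (Fin n) (Fin n) ℝ) (hA : A.IsHermitian) :
    (A.charpoly.roots.map (fun x : ℝ => |x|)).prod = |A.det| := by
  rw [hA.roots_charpoly_eq_eigenvalues, Multiset.map_map, hA.det_eq_prod_eigenvalues,
    Finset.abs_prod]
  rfl

lemma hermT : (GT.adjMatrix ℝ).IsHermitian := by
  rw [Matrix.IsHermitian, Matrix.conjTranspose_eq_transpose_of_trivial]
  exact SimpleGraph.isSymm_adjMatrix _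

lemma hermS : (GS.adjMatrix ℝ).IsHermitian := by
  rw [Matrix.IsHermitian, Matrix.conjTranspose_eq_transpose_of_trivial]
  exact SimpleGraph.isSymm_adjMatrix _

lemma prodT : ((GT.adjMatrix ℝ).charpoly.roots.map (fun x : ℝ => |x|)).prod = 1 := by
  rw [roots_prod _ hermT, adjT]
  have h1 : MT.det * IT.det = 1 := by rw [← Matrix.det_mul, mulI, Matrix.det_one]
  have h2 : |MT.det| = 1 := Int.isUnit_iff_abs_eq.1 (IsUnit.of_mul_eq_one _ h1)
  have h3 : (MT.map (Int.castRingHom ℝ)).det = ((MT.det : ℤ) : ℝ) := by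
    have := RingHom.map_det (Int.castRingHom ℝ) MT
    simpa using this.symm
  rw [h3, ← Int.cast_abs, h2]
  norm_num

lemma T_quad (i : Fin 12) : (hermT.eigenvalues i)^6 - 8 * (hermT.eigenvalues i)^4 +
    8 * (hermT.eigenvalues i)^2 - 1 = 0 := by
  obtain ⟨A, hA⟩ : ∃ A, A = GT.adjMatrix ℝ := ⟨_, rfl⟩
  have hv := hermT.mulVec_eigenvectorBasis i
  have hne : (⇑(hermT.eigenvectorBasis i) : Fin 12 → ℝ) ≠ 0 := by
    intro h0
    have := hermT.eigenvectorBasis.orthonormal.ne_zero i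
    apply this
    ext j
    exact congrFun h0 j
  obtain ⟨v, hvdef⟩ : ∃ v : Fin 12 → ℝ, v = ⇑(hermT.eigenvectorBasis i) := ⟨_, rfl⟩
  obtain ⟨l, hl⟩ : ∃ l : ℝ, l = hermT.eigenvalues i := ⟨_, rfl⟩
  rw [← hvdef] at hv hne
  rw [← hl] at hv ⊢
  rw [← hA] at hv
  have h1 : A *ᵥ v = l • v := hv
  have h2 : (A * A) *ᵥ v = l^2 • v := by
    rw [← Matrix.mulVec_mulVec, h1, Matrix.mulVec_smul, h1, smul_smul]
    congr 1; ring
  have h4 : (A * A * (A * A)) *ᵥ v = l^4 • v := by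
    rw [← Matrix.mulVec_mulVec, h2, Matrix.mulVec_smul, h2, smul_smul]
    congr 1; ring
  have h6 : (A * A * (A * A) * (A * A)) *ᵥ v = l^6 • v := by
    rw [← Matrix.mulVec_mulVec, h2, Matrix.mulVec_smul, h4, smul_smul]
    congr 1; ring
  have hz : A * A * (A * A) * (A * A) - 8 * (A * A * (A * A)) + 8 * (A * A) - 1 = 0 := by
    have h := congrArg (fun X => X.map (Int.castRingHom ℝ)) mul6
    rw [← mul4, ← mul2] at h
    have hf : ∀ X : Matrix (Fin 12) (Fin 12) ℤ, X.map (Int.castRingHom ℝ) =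
      (Int.castRingHom ℝ).mapMatrix X := fun X => rfl
    rw [hA, adjT]
    simp only [hf] at h ⊢
    simpa only [map_sub, map_add, map_mul, map_one, map_zero, map_ofNat] using h
  have h8 := congrArg (fun X => X *ᵥ v) hz
  have e8 : (8 : Matrix (Fin 12) (Fin 12) ℝ) = (8:ℝ) • 1 := by
    ext a b
    simp [Matrix.ofNat_apply, Matrix.one_apply, Matrix.smul_apply]
  simp only [Matrix.sub_mulVec, Matrix.add_mulVec, Matrix.one_mulVec, Matrix.zero_mulVec, e8,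
    smul_mul_assoc, one_mul, Matrix.smul_mulVec, h6, h4, h2] at h8
  have h9 : (l^6 - 8 * l^4 + 8 * l^2 - 1) • v = 0 := by
    rw [← h8]
    ext j
    simp only [Pi.smul_apply, Pi.sub_apply, Pi.add_apply, smul_eq_mul]
    ring
  rcases smul_eq_zero.1 h9 with h | h
  · exact h
  · exact absurd h hne

lemma abs_eq {x : ℝ} (h : x^6 - 8 * x^4 + 8 * x^2 - 1 = 0) : |x| = (-x^4 + 12 * x^2 + 4) / 15 := by
  have h0 : 0 ≤ |x| := abs_nonneg x
  have e2 : x^2 = |x|^2 := (sq_abs x).symm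
  have e4 : x^4 = |x|^4 := by
    have : x^4 = (x^2)^2 := by ring
    rw [this, e2]; ring
  have e6 : x^6 = |x|^6 := by
    have : x^6 = (x^2)^3 := by ring
    rw [this, e2]; ring
  rw [e2, e4]
  rw [e2, e4, e6] at h
  generalize |x| = t at *
  have hf : (t - 1) * (t + 1) * ((t^2 - 3 * t + 1) * (t^2 + 3 * t + 1)) = 0 := by
    linear_combination h
  rcases mul_eq_zero.1 hf with h1 | h1
  · rcases mul_eq_zero.1 h1 with h2 | h2
    · have : t = 1 := by linarith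
      subst this
      norm_num
    · linarith
  · rcases mul_eq_zero.1 h1 with h2 | h2
    · have h3 : t^2 = 3 * t - 1 := by linarith
      have h4 : t^4 = 21 * t - 8 := by
        have : t^4 = (t^2)^2 := by ring
        rw [this, h3]; nlinarith
      rw [h3, h4]; ring
    · nlinarith [sq_nonneg t]

lemma sumT : ((GT.adjMatrix ℝ).charpoly.roots.map (fun x : ℝ => |x|)).sum = 14 := by
  rw [roots_sum _ hermT]
  rw [Finset.sum_congr rfl (fun i _ => abs_eq (T_quad i))]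
  have h2 := trk _ hermT 2
  have h4 := trk _ hermT 4
  have hf : ∀ X : Matrix (Fin 12) (Fin 12) ℤ, X.map (Int.castRingHom ℝ) =
      (Int.castRingHom ℝ).mapMatrix X := fun X => rfl
  have ht : ∀ X : Matrix (Fin 12) (Fin 12) ℤ, (X.map (Int.castRingHom ℝ)).trace = ((X.trace : ℤ) : ℝ) := by
    intro X
    simp [Matrix.trace]
  have e2 : ((GT.adjMatrix ℝ)^2).trace = 22 := by
    rw [adjT, hf, ← map_pow, ← hf, ht, pow_two, mul2, tr2]; norm_num
  have e4 : ((GT.adjMatrix ℝ)^4).trace = 102 := by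
    have : MT^4 = T4 := by rw [← mul4, ← mul2]; noncomm_ring
    rw [adjT, hf, ← map_pow, ← hf, ht, this, tr4]; norm_num
  rw [e2] at h2
  rw [e4] at h4
  rw [← Finset.sum_div, Finset.sum_add_distrib, Finset.sum_add_distrib, Finset.sum_neg_distrib,
    ← Finset.mul_sum, ← h2, ← h4]
  simp
  norm_num


def z0 : Fin 12 → ℤ := ![0,0,0,0,0,0,1,0,-1,-1,0,1]

lemma prodS : ((GS.adjMatrix ℝ).charpoly.roots.map (fun x : ℝ => |x|)).prod = 0 := by
  rw [roots_prod _ hermS, adjS]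
  have h1 : MS.det = 0 := by
    rw [← Matrix.exists_mulVec_eq_zero_iff]
    exact ⟨z0, by decide +kernel, by decide +kernel⟩
  have h3 : (MS.map (Int.castRingHom ℝ)).det = ((MS.det : ℤ) : ℝ) := by
    have := RingHom.map_det (Int.castRingHom ℝ) MS
    simpa using this.symm
  rw [h3, h1]
  norm_num

lemma mem_roots {n : ℕ} (A : Matrix (Fin n) (Fin n) ℝ) (x : ℝ) (v : Fin n → ℝ) (hv : v ≠ 0)
    (h : A *ᵥ v = x • v) : x ∈ A.charpoly.roots := by
  rw [Polynomial.mem_roots (Matrix.charpoly_monic A).ne_zero, Polynomial.IsRoot, Matrix.eval_charpoly,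
    ← Matrix.exists_mulVec_eq_zero_iff]
  refine ⟨v, hv, ?_⟩
  rw [Matrix.sub_mulVec, h]
  ext i
  simp [Matrix.scalar_apply, Matrix.mulVec_diagonal]

def nb : Fin 12 → Finset (Fin 12) :=
  ![{1,6,9},{0,2},{1,3},{2,4},{3,5},{4},{0,7},{6,8},{7},{0,10},{9,11},{10}]

lemma nb_eq : ∀ i, GS.neighborFinset i = nb i := by decide +kernel

def w (x : ℝ) : Fin 12 → ℝ :=
  ![(x^5-4*x^3+3*x)*(x^3-2*x), (x^4-3*x^2+1)*(x^3-2*x), (x^3-2*x)*(x^3-2*x), (x^2-1)*(x^3-2*x),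
    x*(x^3-2*x), (x^3-2*x), (x^2-1)*(x^5-4*x^3+3*x), x*(x^5-4*x^3+3*x), (x^5-4*x^3+3*x),
    (x^2-1)*(x^5-4*x^3+3*x), x*(x^5-4*x^3+3*x), (x^5-4*x^3+3*x)]

def u (x : ℝ) : Fin 12 → ℝ := ![0,0,0,0,0,0,1,x,1,-1,-x,-1]

lemma eig_w (x : ℝ) (hx : x^8 - 9*x^6 + 26*x^4 - 27*x^2 + 8 = 0) :
    GS.adjMatrix ℝ *ᵥ w x = x • w x := by
  ext i
  rw [SimpleGraph.adjMatrix_mulVec_apply, nb_eq]
  fin_cases i <;> simp [nb, w]
  · linear_combination (-x) * hx
  all_goals ring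

lemma eig_u (x : ℝ) (hx : x^2 = 2) :
    GS.adjMatrix ℝ *ᵥ u x = x • u x := by
  ext i
  rw [SimpleGraph.adjMatrix_mulVec_apply, nb_eq]
  fin_cases i <;> simp [nb, u]
  all_goals nlinarith

lemma mem_w (x : ℝ) (hx : x^8 - 9*x^6 + 26*x^4 - 27*x^2 + 8 = 0) :
    x ∈ (GS.adjMatrix ℝ).charpoly.roots := by
  refine mem_roots _ x (w x) ?_ (eig_w x hx)
  intro h0
  have h5 : x^3 - 2*x = 0 := by
    have := congrFun h0 5
    simpa [w] using this
  have h6 : x * (x^2 - 2) = 0 := by linarith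
  rcases mul_eq_zero.1 h6 with h | h
  · rw [h] at hx
    norm_num at hx
  · have e2 : x^2 = 2 := by linarith
    have e4 : x^4 = 4 := by
      have : x^4 = (x^2)^2 := by ring
      rw [this, e2]; norm_num
    have e6 : x^6 = 8 := by
      have : x^6 = (x^2)^3 := by ring
      rw [this, e2]; norm_num
    have e8 : x^8 = 16 := by
      have : x^8 = (x^2)^4 := by ring
      rw [this, e2]; norm_num
    rw [e2, e4, e6, e8] at hx
    norm_num at hx

lemma mem_u (x : ℝ) (hx : x^2 = 2) : x ∈ (GS.adjMatrix ℝ).charpoly.roots := by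
  refine mem_roots _ x (u x) ?_ (eig_u x hx)
  intro h0
  have := congrFun h0 6
  simp [u] at this

lemma ivt_up (a b : ℝ) (hab : a ≤ b) (h1 : a^8 - 9*a^6 + 26*a^4 - 27*a^2 + 8 ≤ 0)
    (h2 : 0 ≤ b^8 - 9*b^6 + 26*b^4 - 27*b^2 + 8) :
    ∃ x, a ≤ x ∧ x ≤ b ∧ x^8 - 9*x^6 + 26*x^4 - 27*x^2 + 8 = 0 := by
  have hc : ContinuousOn (fun x : ℝ => x^8 - 9*x^6 + 26*x^4 - 27*x^2 + 8) (Set.Icc a b) := by
    fun_prop
  obtain ⟨x, hx, hx0⟩ := intermediate_value_Icc hab hc ⟨h1, h2⟩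
  exact ⟨x, hx.1, hx.2, hx0⟩

lemma ivt_dn (a b : ℝ) (hab : a ≤ b) (h1 : 0 ≤ a^8 - 9*a^6 + 26*a^4 - 27*a^2 + 8)
    (h2 : b^8 - 9*b^6 + 26*b^4 - 27*b^2 + 8 ≤ 0) :
    ∃ x, a ≤ x ∧ x ≤ b ∧ x^8 - 9*x^6 + 26*x^4 - 27*x^2 + 8 = 0 := by
  have hc : ContinuousOn (fun x : ℝ => x^8 - 9*x^6 + 26*x^4 - 27*x^2 + 8) (Set.Icc a b) := by
    fun_prop
  obtain ⟨x, hx, hx0⟩ := intermediate_value_Icc' hab hc ⟨h2, h1⟩
  exact ⟨x, hx.1, hx.2, hx0⟩

lemma sumS : 14 ≤ ((GS.adjMatrix ℝ).charpoly.roots.map (fun x : ℝ => |x|)).sum := by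
  obtain ⟨x1, a1, b1, h1⟩ := ivt_dn 0.70 0.71 (by norm_num) (by norm_num) (by norm_num)
  obtain ⟨x2, a2, b2, h2⟩ := ivt_up 1.14 1.15 (by norm_num) (by norm_num) (by norm_num)
  obtain ⟨x3, a3, b3, h3⟩ := ivt_dn 1.68 1.69 (by norm_num) (by norm_num) (by norm_num)
  obtain ⟨x4, a4, b4, h4⟩ := ivt_up 2.08 2.09 (by norm_num) (by norm_num) (by norm_num)
  obtain ⟨s, hs⟩ : ∃ s, s = Real.sqrt 2 := ⟨_, rfl⟩
  have hs2 : s^2 = 2 := by rw [hs]; norm_num
  have a5 : 1.414 ≤ s := by rw [hs]; apply Real.le_sqrt_of_sq_le; norm_num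
  have b5 : s ≤ 1.42 := by rw [hs]; apply Real.sqrt_le_iff.2; norm_num
  have hneg : ∀ x : ℝ, x^8 - 9*x^6 + 26*x^4 - 27*x^2 + 8 = 0 →
      (-x)^8 - 9*(-x)^6 + 26*(-x)^4 - 27*(-x)^2 + 8 = 0 := by
    intro x hx
    rw [← hx]; ring
  obtain ⟨L, hL⟩ : ∃ L : List ℝ, L = [x1, x2, x3, x4, s, -x1, -x2, -x3, -x4, -s] := ⟨_, rfl⟩
  norm_num at a1 b1 a2 b2 a3 b3 a4 b4 a5 b5
  have hnd : L.Nodup := by
    rw [hL]
    simp only [List.nodup_cons, List.mem_cons, List.not_mem_nil, or_false, not_or, List.nodup_nil,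
      not_false_eq_true, and_true]
    refine ⟨⟨?_, ?_, ?_, ?_, ?_, ?_, ?_, ?_, ?_⟩, ⟨?_, ?_, ?_, ?_, ?_, ?_, ?_, ?_⟩,
      ⟨?_, ?_, ?_, ?_, ?_, ?_, ?_⟩, ⟨?_, ?_, ?_, ?_, ?_, ?_⟩, ⟨?_, ?_, ?_, ?_, ?_⟩,
      ⟨?_, ?_, ?_, ?_⟩, ⟨?_, ?_, ?_⟩, ⟨?_, ?_⟩, ?_⟩ <;> intro h <;> linarith
  have hsub : (L : Multiset ℝ) ≤ (GS.adjMatrix ℝ).charpoly.roots := by
    rw [Multiset.le_iff_subset (by exact_mod_cast hnd)]
    intro x hx
    have hx' : x ∈ L := by exact_mod_cast hx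
    rw [hL] at hx'
    simp only [List.mem_cons, List.not_mem_nil, or_false] at hx'
    rcases hx' with rfl | rfl | rfl | rfl | rfl | rfl | rfl | rfl | rfl | rfl
    · exact mem_w _ h1
    · exact mem_w _ h2
    · exact mem_w _ h3
    · exact mem_w _ h4
    · exact mem_u _ hs2
    · exact mem_w _ (hneg _ h1)
    · exact mem_w _ (hneg _ h2)
    · exact mem_w _ (hneg _ h3)
    · exact mem_w _ (hneg _ h4)
    · exact mem_u _ (by rw [neg_sq]; exact hs2)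
  obtain ⟨R, hR⟩ := Multiset.le_iff_exists_add.1 hsub
  rw [hR, Multiset.map_add, Multiset.sum_add]
  have hR0 : 0 ≤ (R.map (fun x : ℝ => |x|)).sum := by
    apply Multiset.sum_nonneg
    intro y hy
    obtain ⟨x, -, rfl⟩ := Multiset.mem_map.1 hy
    exact abs_nonneg x
  have hLs : ((L : Multiset ℝ).map (fun x : ℝ => |x|)).sum =
      |x1| + (|x2| + (|x3| + (|x4| + (|s| + (|x1| + (|x2| + (|x3| + (|x4| + |s|)))))))) := by
    rw [hL]
    simp
  rw [hLs]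
  have t1 := le_abs_self x1
  have t2 := le_abs_self x2
  have t3 := le_abs_self x3
  have t4 := le_abs_self x4
  have t5 := le_abs_self s
  linarith

end Aux

open Aux in
/-- The negation of the preceding statement: For trees T, S on the same even number of vertices: if the product of absolute adjacency eigenvalues is 1 for T and 0 for S, then the sum of absolute eigenvalues (energy) of T is strictly larger than that of S. -/
theorem result :
    ¬ (∀ (n : ℕ) (T S : SimpleGraph (Fin n)) [DecidableRel T.Adj] [DecidableRel S.Adj],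
      Even n → T.IsTree → S.IsTree →
      ((T.adjMatrix ℝ).charpoly.roots.map (fun x : ℝ => |x|)).prod = 1 →
      ((S.adjMatrix ℝ).charpoly.roots.map (fun x : ℝ => |x|)).prod = 0 →
      ((S.adjMatrix ℝ).charpoly.roots.map (fun x : ℝ => |x|)).sum <
        ((T.adjMatrix ℝ).charpoly.roots.map (fun x : ℝ => |x|)).sum) := by
  intro H
  have h := H 12 GT GS (by decide) GT_tree GS_tree prodT prodS
  rw [sumT] at h
  exact absurd sumS (not_le.2 h)

end Pool.Agent.S2738
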