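import Pool.Statements.S3358
-- import your own Pool.Agent.* helpers here

set_option autoImplicit false
open Topology Pointwise
open Pool Pool.MP_ede847_gt

namespace Pool.Agent.S3358

namespace Aux

abbrev W : Type := (Cardinal.aleph 1).ord.ToType
abbrev X : Type := W ×ₗ ℚ

lemma W_uncountable : ¬ Countable W := by
  intro h
  have h1 : Cardinal.mk W = Cardinal.aleph 1 := by simp [W]
  have h2 : Cardinal.mk W ≤ Cardinal.aleph0 := Cardinal.mk_le_aleph0_iff.2 h
  rw [h1] at h2
  exact absurd h2 (not_le.2 Cardinal.aleph0_lt_aleph_one)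

lemma W_Iic_countable (i : W) : (Set.Iic i).Countable := by
  have h : (Set.Iio i).Countable := by
    rw [← Cardinal.le_aleph0_iff_set_countable, ← Order.lt_succ_iff]
    have h1 := Cardinal.mk_Iio_toType_ord_lt i
    rw [Cardinal.succ_aleph0]
    exact h1
  rw [← Set.Iio_insert]
  exact h.insert i

instance : Nonempty W := by
  by_contra h
  rw [not_nonempty_iff] at h
  exact W_uncountable inferInstance

lemma X_uncountable : ¬ Countable X := by
  intro h
  apply W_uncountable
  have : Function.Injective (fun w : W => (toLex (w, (0:ℚ)) : X)) := by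
    intro a b hab
    have := congrArg (fun p : X => (ofLex p).1) hab
    simpa using this
  exact this.countable

lemma X_Iic_countable (z : X) : (Set.Iic z).Countable := by
  have h : Set.Iic z ⊆ (fun p : W × ℚ => (toLex p : X)) '' (Set.Iic (ofLex z).1 ×ˢ Set.univ) := by
    intro p hp
    refine ⟨ofLex p, ⟨?_, Set.mem_univ _⟩, rfl⟩
    have hp' : p ≤ z := hp
    rw [Prod.Lex.le_iff] at hp'
    rcases hp' with h | h
    · exact le_of_lt h
    · exact le_of_eq h.1
  exact (((W_Iic_countable _).prod Set.countable_univ).image _).mono h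

lemma X_bdd (F : Set X) (hF : F.Countable) : ∃ c : X, ∀ f ∈ F, f < c := by
  by_contra hcon
  push Not at hcon
  apply X_uncountable
  rw [← Set.countable_univ_iff]
  have h : (Set.univ : Set X) ⊆ ⋃ f ∈ F, Set.Iic f := by
    intro c _
    obtain ⟨f, hf, hfc⟩ := hcon c
    exact Set.mem_biUnion hf hfc
  exact (hF.biUnion fun f _ => X_Iic_countable f).mono h

instance : NoMinOrder X := inferInstance
instance : NoMaxOrder X := inferInstance
instance : DenselyOrdered X := inferInstance

lemma iio_iso (z : X) : Nonempty (Set.Iio z ≃o ℚ) := by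
  haveI : Countable (Set.Iio z) := ((X_Iic_countable z).mono Set.Iio_subset_Iic_self).to_subtype
  haveI : Nonempty (Set.Iio z) := by
    obtain ⟨y, hy⟩ := exists_lt z
    exact ⟨⟨y, hy⟩⟩
  exact Order.iso_of_countable_dense _ _


/-- glue an automorphism of `Iio z` with the identity -/
noncomputable def glue (z : X) (φ : Set.Iio z ≃o Set.Iio z) (x : X) : X :=
  open Classical in if h : x < z then (φ ⟨x, h⟩ : X) else x

lemma glue_lt (z : X) (φ : Set.Iio z ≃o Set.Iio z) (x : X) (h : x < z) :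
    glue z φ x = (φ ⟨x, h⟩ : X) := dif_pos h
lemma glue_ge (z : X) (φ : Set.Iio z ≃o Set.Iio z) (x : X) (h : ¬ x < z) :
    glue z φ x = x := dif_neg h

lemma glue_glue (z : X) (φ : Set.Iio z ≃o Set.Iio z) (x : X) :
    glue z φ.symm (glue z φ x) = x := by
  by_cases h : x < z
  · rw [glue_lt z φ x h, glue_lt z φ.symm _ (φ ⟨x, h⟩).2]
    simp
  · rw [glue_ge z φ x h, glue_ge z φ.symm x h]

lemma glue_mono (z : X) (φ : Set.Iio z ≃o Set.Iio z) : Monotone (glue z φ) := by
  intro x y hxy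
  by_cases hy : y < z
  · have hx : x < z := lt_of_le_of_lt hxy hy
    rw [glue_lt z φ x hx, glue_lt z φ y hy]
    exact φ.monotone (show (⟨x, hx⟩ : Set.Iio z) ≤ ⟨y, hy⟩ from hxy)
  · by_cases hx : x < z
    · rw [glue_lt z φ x hx, glue_ge z φ y hy]
      have h1 : ((φ ⟨x, hx⟩ : Set.Iio z) : X) < z := (φ ⟨x, hx⟩).2
      exact (le_of_lt h1).trans (not_lt.1 hy)
    · rw [glue_ge z φ x hx, glue_ge z φ y hy]; exact hxy

noncomputable def glueIso (z : X) (φ : Set.Iio z ≃o Set.Iio z) : X ≃o X where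
  toFun := glue z φ
  invFun := glue z φ.symm
  left_inv := glue_glue z φ
  right_inv := by
    intro x
    have := glue_glue z φ.symm x
    simpa using this
  map_rel_iff' := by
    intro a b
    constructor
    · intro h
      have h' : glue z φ a ≤ glue z φ b := h
      have h1 := glue_mono z φ.symm h'
      rwa [glue_glue, glue_glue] at h1
    · intro h; exact glue_mono z φ h

lemma move (x c : X) : ∃ k : X ≃o X, k x = c := by
  obtain ⟨z, hz⟩ := exists_gt (max x c)
  have hx : x < z := lt_of_le_of_lt (le_max_left _ _) hz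
  have hc : c < z := lt_of_le_of_lt (le_max_right _ _) hz
  obtain ⟨e⟩ := iio_iso z
  set s : ℚ := e ⟨c, hc⟩ - e ⟨x, hx⟩ with hs
  refine ⟨glueIso z ((e.trans (OrderIso.addRight s)).trans e.symm), ?_⟩
  change glue z _ x = c
  rw [glue_lt z _ x hx]
  have h1 : ((e.trans (OrderIso.addRight s)).trans e.symm) ⟨x, hx⟩ = ⟨c, hc⟩ := by
    simp only [OrderIso.trans_apply, OrderIso.addRight_apply]
    have : e ⟨x, hx⟩ + s = e ⟨c, hc⟩ := by rw [hs]; ring
    rw [this, e.symm_apply_apply]
  rw [h1]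

/-- a countable coinitial set -/
lemma coinit : ∃ c : ℕ → X, ∀ x, ∃ n, c n ≤ x := by
  obtain ⟨z⟩ : Nonempty X := ⟨toLex (Classical.arbitrary W, 0)⟩
  obtain ⟨e⟩ := iio_iso z
  refine ⟨fun n => (e.symm (-(n:ℚ)) : X), fun x => ?_⟩
  by_cases hx : x < z
  · obtain ⟨n, hn⟩ := exists_nat_ge (-(e ⟨x, hx⟩))
    refine ⟨n, ?_⟩
    have h1 : e.symm (-(n:ℚ)) ≤ e.symm (e ⟨x, hx⟩) := e.symm.monotone (by linarith)
    rw [e.symm_apply_apply] at h1
    exact h1
  · refine ⟨0, ?_⟩
    have h1 : ((e.symm (-((0:ℕ):ℚ)) : Set.Iio z) : X) < z := (e.symm _).2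
    exact (le_of_lt h1).trans (not_lt.1 hx)

abbrev G : Type := X ≃o X

instance topG : TopologicalSpace G :=
  TopologicalSpace.generateFrom {S | ∃ x y : X, S = {g : G | g x ≤ y}}

lemma isOpen_V (x y : X) : IsOpen {g : G | g x ≤ y} :=
  TopologicalSpace.isOpen_generateFrom_of_mem ⟨x, y, rfl⟩

instance contMul : ContinuousMul G where
  continuous_mul := by
    apply continuous_generateFrom_iff.2
    rintro S ⟨x, y, rfl⟩
    have h : (fun p : G × G => p.1 * p.2) ⁻¹' {g : G | g x ≤ y} =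
        ⋃ z : X, {g : G | g z ≤ y} ×ˢ {g : G | g x ≤ z} := by
      ext ⟨g, h⟩
      simp only [Set.mem_preimage, Set.mem_iUnion, Set.mem_prod]
      constructor
      · intro hh
        exact ⟨h x, hh, le_refl (h x)⟩
      · rintro ⟨z, h1, h2⟩
        have h1' : g z ≤ y := h1
        have h2' : h x ≤ z := h2
        change g (h x) ≤ y
        exact (g.monotone h2').trans h1'
    rw [h]
    exact isOpen_iUnion fun z => (isOpen_V z y).prod (isOpen_V x z)

lemma nhds_base (U : Set G) (hU : U ∈ 𝓝 (1 : G)) :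
    ∃ s : Finset X, {g : G | ∀ x ∈ s, g x ≤ x} ⊆ U := by
  obtain ⟨O, hOU, hO, h1⟩ := mem_nhds_iff.1 hU
  have key : ∀ O : Set G, TopologicalSpace.GenerateOpen {S | ∃ x y : X, S = {g : G | g x ≤ y}} O →
      (1 : G) ∈ O → ∃ s : Finset X, {g : G | ∀ x ∈ s, g x ≤ x} ⊆ O := by
    intro O hO
    induction hO with
    | basic S hS =>
      obtain ⟨x, y, rfl⟩ := hS
      intro h1
      have h1' : x ≤ y := h1
      refine ⟨{x}, fun g hg => ?_⟩
      exact (hg x (Finset.mem_singleton_self x)).trans h1'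
    | univ => intro _; exact ⟨∅, fun g _ => Set.mem_univ g⟩
    | inter S T _ _ ihS ihT =>
      intro h1
      classical
      obtain ⟨s, hs⟩ := ihS h1.1
      obtain ⟨t, ht⟩ := ihT h1.2
      refine ⟨s ∪ t, fun g hg => ⟨hs fun x hx => hg x (Finset.mem_union_left _ hx),
        ht fun x hx => hg x (Finset.mem_union_right _ hx)⟩⟩
    | sUnion C _ ih =>
      rintro ⟨T, hT, h1⟩
      obtain ⟨s, hs⟩ := ih T hT h1
      exact ⟨s, hs.trans (Set.subset_sUnion_of_mem hT)⟩
  obtain ⟨s, hs⟩ := key O hO h1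
  exact ⟨s, hs.trans hOU⟩

lemma mul_apply' (g h : G) (x : X) : (g * h) x = g (h x) := rfl
lemma inv_apply_self' (g : G) (x : X) : g⁻¹ (g x) = x := g.symm_apply_apply x
lemma apply_inv_self' (g : G) (x : X) : g (g⁻¹ x) = x := g.apply_symm_apply x

end Aux

open Aux in
/-- The negation of the preceding statement: In every group with a topology making multiplication continuous, if each neighbourhood U of the identity admits a countable F with U·F = G, then each such U also admits a countable F with F·U = G. -/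
theorem result :
    ¬ (∀ (G : Type) [Group G] [TopologicalSpace G] [ContinuousMul G],
      (∀ U ∈ 𝓝 (1 : G), ∃ F : Set G, F.Countable ∧ U * F = Set.univ) →
      (∀ U ∈ 𝓝 (1 : G), ∃ F : Set G, F.Countable ∧ F * U = Set.univ)) := by
  intro H
  have H1 := H Aux.G (by
    intro U hU
    obtain ⟨s, hs⟩ := nhds_base U hU
    obtain ⟨c, hc⟩ := coinit
    obtain ⟨z⟩ : Nonempty X := ⟨toLex (Classical.arbitrary W, 0)⟩
    -- x0 above all of s
    obtain ⟨x0, hx0⟩ : ∃ x0 : X, ∀ x ∈ s, x ≤ x0 := by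
      obtain ⟨x0, h⟩ := X_bdd (s : Set X) s.countable_toSet
      exact ⟨x0, fun x hx => (h x hx).le⟩
    choose k hk using fun n => move x0 (c n)
    refine ⟨Set.range (fun n => (k n)⁻¹), Set.countable_range _, ?_⟩
    apply Set.eq_univ_of_forall
    intro g
    -- lower bound of g⁻¹ x over s
    obtain ⟨n, hn⟩ : ∃ n, ∀ x ∈ s, c n ≤ g⁻¹ x := by
      classical
      by_cases hse : s.Nonempty
      · obtain ⟨y, hy, hmin⟩ := s.exists_min_image (fun x => g⁻¹ x) hse
        obtain ⟨n, hn⟩ := hc (g⁻¹ y)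
        exact ⟨n, fun x hx => hn.trans (hmin x hx)⟩
      · exact ⟨0, fun x hx => absurd ⟨x, hx⟩ hse⟩
    refine ⟨g * k n, hs ?_, (k n)⁻¹, ⟨n, rfl⟩, by simp⟩
    intro x hx
    rw [mul_apply']
    have h1 : k n x ≤ k n x0 := (k n).monotone (hx0 x hx)
    rw [hk] at h1
    have h2 : k n x ≤ g⁻¹ x := h1.trans (hn x hx)
    have h3 := g.monotone h2
    rwa [apply_inv_self'] at h3)
  obtain ⟨x⟩ : Nonempty X := ⟨toLex (Classical.arbitrary W, 0)⟩
  obtain ⟨F, hF, hFU⟩ := H1 {g : Aux.G | g x ≤ x} ((isOpen_V x x).mem_nhds (le_refl x))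
  obtain ⟨c, hc⟩ := X_bdd ((fun f : Aux.G => f x) '' F) (hF.image _)
  obtain ⟨g, hg⟩ := move x c
  have hgm : g ∈ F * {g : Aux.G | g x ≤ x} := by rw [hFU]; exact Set.mem_univ g
  obtain ⟨f, hf, h, hh, hfh⟩ := hgm
  have h1 : h x ≤ x := hh
  have h2 : g x ≤ f x := by
    rw [← hfh]
    exact f.monotone h1
  rw [hg] at h2
  exact absurd (hc (f x) ⟨f, hf, rfl⟩) (not_lt.2 h2)

end Pool.Agent.S3358
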