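import Pool.Statements.S3530
-- import your own Pool.Agent.* helpers here

set_option autoImplicit false
open Pool Pool.MP_5708a2_lc

namespace Pool.Agent.S3530

namespace Aux

/-- `S` is a finite Boolean combination of members of `G` and rectangles. -/
def Det (G : Set (Set (ℝ × ℝ))) (S : Set (ℝ × ℝ)) : Prop :=
  ∃ (α β : Type) (_ : Finite α) (_ : Finite β) (p : ℝ → α) (q : ℝ → β),
    ∀ x y x' y', p x = p x' → q y = q y' → (∀ T ∈ G, (x, y) ∈ T ↔ (x', y') ∈ T) →
      ((x, y) ∈ S → (x', y') ∈ S)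

variable {G : Set (Set (ℝ × ℝ))}

lemma det_mem {T : Set (ℝ × ℝ)} (hT : T ∈ G) : Det G T :=
  ⟨Unit, Unit, inferInstance, inferInstance, fun _ => (), fun _ => (),
    fun _ _ _ _ _ _ h => (h T hT).1⟩

lemma det_compl {S : Set (ℝ × ℝ)} (h : Det G S) : Det G Sᶜ := by
  obtain ⟨α, β, hα, hβ, p, q, h⟩ := h
  refine ⟨α, β, hα, hβ, p, q, ?_⟩
  intro x y x' y' h1 h2 h3 h4 h5
  exact h4 (h x' y' x y h1.symm h2.symm (fun T hT => (h3 T hT).symm) h5)

lemma det_union {S S' : Set (ℝ × ℝ)} (h : Det G S) (h' : Det G S') : Det G (S ∪ S') := by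
  obtain ⟨α, β, hα, hβ, p, q, h⟩ := h
  obtain ⟨α', β', hα', hβ', p', q', h'⟩ := h'
  refine ⟨α × α', β × β', inferInstance, inferInstance, fun x => (p x, p' x), fun y => (q y, q' y), ?_⟩
  intro x y x' y' h1 h2 h3 h4
  rw [Prod.mk.injEq] at h1 h2
  rcases h4 with h4 | h4
  · exact Or.inl (h x y x' y' h1.1 h2.1 h3 h4)
  · exact Or.inr (h' x y x' y' h1.2 h2.2 h3 h4)

lemma det_rect (A B : ℝ → Prop) : Det G {p : ℝ × ℝ | A p.1 ∧ B p.2} := by
  refine ⟨Prop, Prop, inferInstance, inferInstance, A, B, ?_⟩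
  intro x y x' y' h1 h2 _ h4
  obtain ⟨h5, h6⟩ := h4
  exact ⟨h1 ▸ h5, h2 ▸ h6⟩

lemma exists_enum : Nonempty (ℝ ≃ (ℕ → ℕ)) := by
  rw [← Cardinal.eq, Cardinal.mk_real]
  simp

end Aux

open Aux in
/-- The negation of the preceding statement: For every countable family of subsets of the real plane there is a finite family of plane sets such that every class containing it and closed under complement, union, projections onto the axes and products of axis sets contains the whole countable family. -/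
theorem result :
    ¬ (∀ F : Set (Set (ℝ × ℝ)), F.Countable →
      ∃ G : Set (Set (ℝ × ℝ)), G.Finite ∧
        ∀ S ∈ F, ∀ C : Set (Set (ℝ × ℝ)),
          (∀ T ∈ C, Tᶜ ∈ C) →
          (∀ T ∈ C, ∀ U ∈ C, T ∪ U ∈ C) →
          (∀ T ∈ C, {p : ℝ × ℝ | p.2 = 0 ∧ ∃ y : ℝ, (p.1, y) ∈ T} ∈ C) →
          (∀ T ∈ C, {p : ℝ × ℝ | p.1 = 0 ∧ ∃ x : ℝ, (x, p.2) ∈ T} ∈ C) →
          (∀ A ∈ C, ∀ B ∈ C, A ⊆ {p : ℝ × ℝ | p.2 = 0} → B ⊆ {p : ℝ × ℝ | p.1 = 0} →
            {p : ℝ × ℝ | ((p.1, (0:ℝ)) ∈ A) ∧ (((0:ℝ), p.2) ∈ B)} ∈ C) →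
          G ⊆ C → S ∈ C) := by
  classical
  intro H
  obtain ⟨e⟩ := exists_enum
  let Cn : ℕ → Set (ℝ × ℝ) := fun n => {z | ∃ k : ℕ, z.1 = k ∧ e z.2 k = n}
  obtain ⟨G, hG, hgen⟩ := H (Set.range Cn) (Set.countable_range Cn)
  have hdet : ∀ n, Det G (Cn n) := by
    intro n
    have := hgen (Cn n) ⟨n, rfl⟩ {S | Det G S}
      (fun T hT => det_compl hT) (fun T hT U hU => det_union hT hU)
      (fun T hT => by
        have := det_rect (G := G) (fun x => ∃ y : ℝ, (x, y) ∈ T) (fun y => y = 0)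
        have e : {p : ℝ × ℝ | p.2 = 0 ∧ ∃ y : ℝ, (p.1, y) ∈ T} =
            {p : ℝ × ℝ | (∃ y : ℝ, (p.1, y) ∈ T) ∧ p.2 = 0} := by
          ext p; exact and_comm
        rw [e]; exact this)
      (fun T hT => det_rect (G := G) (fun x => x = 0) (fun y => ∃ x : ℝ, (x, y) ∈ T))
      (fun A hA B hB _ _ => det_rect (G := G) (fun x => (x, (0:ℝ)) ∈ A) (fun y => ((0:ℝ), y) ∈ B))
      (fun T hT => det_mem hT)
    exact this
  have hGf : Finite G := hG
  choose α β hα hβ p q hpq using hdet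
  let N := Nat.card (Set G)
  let P : ℕ → (n : Fin (N + 1)) → α n := fun k n => p n k
  let Q : ℝ → (n : Fin (N + 1)) → β n := fun y n => q n y
  obtain ⟨a, ha⟩ := Finite.exists_infinite_fiber P
  have hPinf : (P ⁻¹' {a}).Infinite := Set.infinite_coe_iff.1 ha
  -- a value `b` of `Q` such that the rectangle has all colours
  have hb : ∃ b : (n : Fin (N + 1)) → β n, ∀ n : Fin (N + 1), ∃ (k : ℕ) (y : ℝ),
      P k = a ∧ Q y = b ∧ e y k = n := by
    by_contra hcon
    push Not at hcon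
    choose m hm using hcon
    -- an injection from the finite type into the infinite set
    have hf : Nonempty (((n : Fin (N + 1)) → β n) ↪ (P ⁻¹' {a})) := by
      have := Fintype.ofFinite ((n : Fin (N + 1)) → β n)
      exact ⟨((Fintype.equivFin ((n : Fin (N + 1)) → β n)).toEmbedding.trans Fin.valEmbedding).trans
        (Infinite.natEmbedding (P ⁻¹' {a}))⟩
    obtain ⟨f⟩ := hf
    let g : ℕ → ℕ := fun k => if h : ∃ b, (f b : ℕ) = k then (m h.choose : ℕ) else 0
    have hg : ∀ b, g (f b) = m b := by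
      intro b
      have h : ∃ b', (f b' : ℕ) = f b := ⟨b, rfl⟩
      have h2 : h.choose = b := f.injective (Subtype.ext h.choose_spec)
      simp only [g, dif_pos h, h2]
    have h1 := hm (Q (e.symm g)) (f (Q (e.symm g))) (e.symm g) (f (Q (e.symm g))).2 rfl
    apply h1
    rw [Equiv.apply_symm_apply, hg]
  obtain ⟨b, hb⟩ := hb
  choose k y hk hy hky using hb
  -- two points of the same type
  let t : Fin (N + 1) → Set G := fun n => {T | ((k n : ℝ), y n) ∈ (T : Set (ℝ × ℝ))}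
  have hnot : ¬ Function.Injective t := by
    intro hinj
    have := Nat.card_le_card_of_injective t hinj
    rw [Nat.card_fin] at this
    omega
  have : ∃ n m, t n = t m ∧ n ≠ m := by
    simpa [Function.Injective] using hnot
  obtain ⟨n, m, htm, hnm⟩ := this
  have hmem : ((k n : ℝ), y n) ∈ Cn n := ⟨k n, rfl, hky n⟩
  have h2 := hpq n (k n) (y n) (k m) (y m)
    (by
      have e1 := congrFun (hk n) n
      have e2 := congrFun (hk m) n
      exact e1.trans e2.symm)
    (by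
      have e1 := congrFun (hy n) n
      have e2 := congrFun (hy m) n
      exact e1.trans e2.symm)
    (fun T hT => by
      have := congrArg (fun s : Set G => (⟨T, hT⟩ : G) ∈ s) htm
      exact iff_of_eq this)
    hmem
  obtain ⟨k', hk', hk2⟩ := h2
  have hk4 : (k m : ℝ) = k' := hk'
  have hk3 : k m = k' := by exact_mod_cast hk4
  rw [← hk3] at hk2
  have := hky m
  simp only at hk2
  rw [this] at hk2
  exact hnm (Fin.ext hk2.symm)

end Pool.Agent.S3530
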