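import Pool.Statements.S3636
-- import your own Pool.Agent.* helpers here

set_option autoImplicit false
open Pool Pool.MP_9c356a_lc

namespace Pool.Agent.S3636

namespace Aux

/-- the morphism a ↦ ba, b ↦ aba (a = 0, b = 1) -/
def hh : Fin 2 → List (Fin 2) := ![[1, 0], [0, 1, 0]]

def F : List (Fin 2) → List (Fin 2) := fun u => u.flatMap hh

lemma F_append (u v : List (Fin 2)) : F (u ++ v) = F u ++ F v := by
  simp [F]

lemma F_iter_append (k : ℕ) (u v : List (Fin 2)) : F^[k] (u ++ v) = F^[k] u ++ F^[k] v := by
  induction k generalizing u v with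
  | zero => rfl
  | succ k ih => rw [Function.iterate_succ_apply, F_append, ih]; rfl

lemma F_iter_nil (k : ℕ) : F^[k] [] = [] := by
  induction k with
  | zero => rfl
  | succ k ih => rw [Function.iterate_succ_apply]; exact ih

lemma F_iter_flatten (k : ℕ) (L : List (List (Fin 2))) :
    F^[k] L.flatten = (L.map (F^[k])).flatten := by
  induction L with
  | nil => exact F_iter_nil k
  | cons u L ih => rw [List.flatten_cons, F_iter_append, ih]; rfl

lemma hh0 : hh 0 = [1, 0] := rfl
lemma hh1 : hh 1 = [0, 1, 0] := rfl

lemma F_inj : Function.Injective F := by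
  intro u
  induction u with
  | nil =>
    intro v hv
    cases v with
    | nil => rfl
    | cons y v =>
      exfalso
      fin_cases y <;> simp [F, hh0, hh1] at hv
  | cons x u ih =>
    intro v hv
    cases v with
    | nil =>
      exfalso
      fin_cases x <;> simp [F, hh0, hh1] at hv
    | cons y v =>
      have h1 : F (x :: u) = hh x ++ F u := by simp [F]
      have h2 : F (y :: v) = hh y ++ F v := by simp [F]
      rw [h1, h2] at hv
      fin_cases x <;> fin_cases y
      · simp [hh0] at hv
        rw [ih hv]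
      · simp [hh0, hh1] at hv
      · simp [hh0, hh1] at hv
      · simp [hh1] at hv
        rw [ih hv]

lemma le_of_foldr (L : List ℕ) (i : ℕ) (hi : i ∈ L) : i ≤ L.foldr max 0 := by
  induction L with
  | nil => simp at hi
  | cons a L ih =>
    simp only [List.mem_cons] at hi
    simp only [List.foldr_cons]
    rcases hi with rfl | hi
    · exact le_max_left _ _
    · exact (ih hi).trans (le_max_right _ _)

lemma F0 : F^[0] [1] = [1] := rfl
lemma F1 : F^[1] [1] = [0, 1, 0] := by decide
lemma F2 : F^[2] [1] = [1, 0, 0, 1, 0, 1, 0] := by decide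

lemma no_factor (L : List ℕ) (hL : ∀ i ∈ L, i = 1 ∨ i = 2)
    (h : F^[2] [1] = (L.map (fun i => F^[2 - i] [1])).flatten) : False := by
  rw [F2] at h
  cases L with
  | nil => simp at h
  | cons a L =>
    rcases hL a (by simp) with rfl | rfl
    · rw [List.map_cons, List.flatten_cons, show (2 - 1) = 1 from rfl, F1] at h
      simp at h
    · rw [List.map_cons, List.flatten_cons, show (2 - 2) = 0 from rfl, F0] at h
      cases L with
      | nil => simp at h
      | cons b L =>
        rcases hL b (by simp) with rfl | rfl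
        · rw [List.map_cons, List.flatten_cons, show (2 - 1) = 1 from rfl, F1] at h
          simp at h
        · rw [List.map_cons, List.flatten_cons, show (2 - 2) = 0 from rfl, F0] at h
          simp at h

end Aux

open Aux in
/-- The negation of the preceding statement: For every D0L system over an n-letter alphabet, words w_m = h^m(w): if eventually w_m = w_{m-i_1}…w_{m-i_k} for some nonempty list of positive i_j, then such a formula exists with max i_j ≤ n!, and conversely. -/
theorem result :
    ¬ (∀ (n : ℕ) (h : Fin n → List (Fin n)) (w : List (Fin n)),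
    (∃ d : ℕ, ∃ L : List ℕ, ∃ N : ℕ, L ≠ [] ∧ (∀ i ∈ L, 0 < i) ∧ L.foldr max 0 = d ∧ d ≤ N ∧
        ∀ m : ℕ, N ≤ m →
          (fun u : List (Fin n) => u.flatMap h)^[m] w =
            (L.map (fun i => (fun u : List (Fin n) => u.flatMap h)^[m - i] w)).flatten) ↔
    (∃ d : ℕ, d ≤ n.factorial ∧ ∃ L : List ℕ, ∃ N : ℕ, L ≠ [] ∧ (∀ i ∈ L, 0 < i) ∧
        L.foldr max 0 = d ∧ d ≤ N ∧
        ∀ m : ℕ, N ≤ m →
          (fun u : List (Fin n) => u.flatMap h)^[m] w =
            (L.map (fun i => (fun u : List (Fin n) => u.flatMap h)^[m - i] w)).flatten)) := by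
  intro H
  have H1 := (H 2 hh [1]).1 ⟨3, [2, 3, 2, 2, 1], 3, by simp, by simp, by simp, le_rfl, by
    intro m hm
    obtain ⟨k, rfl⟩ : ∃ k, m = k + 3 := ⟨m - 3, by omega⟩
    change F^[k+3] [1] = (([2, 3, 2, 2, 1] : List ℕ).map (fun i => F^[k + 3 - i] [1])).flatten
    have e : ∀ i ∈ ([2, 3, 2, 2, 1] : List ℕ),
        (fun i => F^[k + 3 - i] [1]) i = (F^[k] ∘ (fun i => F^[3 - i] [1])) i := by
      intro i hi
      have hi3 : i ≤ 3 := by
        simp at hi; omega
      have e1 : k + 3 - i = k + (3 - i) := by omega
      simp only [Function.comp]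
      rw [e1, Function.iterate_add_apply]
    rw [List.map_congr_left e, ← List.map_map, ← F_iter_flatten, Function.iterate_add_apply]
    congr 1⟩
  obtain ⟨d, hd, L, N, hL, hpos, hmax, hdN, hN⟩ := H1
  have hd2 : d ≤ 2 := by simpa using hd
  have hL2 : ∀ i ∈ L, i = 1 ∨ i = 2 := by
    intro i hi
    have h1 := hpos i hi
    have h2 := le_of_foldr L i hi
    omega
  have h3 := hN (N + 2) (by omega)
  change F^[N+2] [1] = (L.map (fun i => F^[N + 2 - i] [1])).flatten at h3
  have e : ∀ i ∈ L,
      (fun i => F^[N + 2 - i] [1]) i = (F^[N] ∘ (fun i => F^[2 - i] [1])) i := by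
    intro i hi
    have hi3 := hL2 i hi
    have e1 : N + 2 - i = N + (2 - i) := by omega
    simp only [Function.comp]
    rw [e1, Function.iterate_add_apply]
  rw [List.map_congr_left e, ← List.map_map, ← F_iter_flatten, Function.iterate_add_apply] at h3
  exact no_factor L hL2 ((F_inj.iterate N) h3)

end Pool.Agent.S3636
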