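import Pool.Statements.S5710
-- import your own Pool.Agent.* helpers here

set_option autoImplicit false
open Filter Topology
open Pool Pool.MP_8aef71_pr

namespace Pool.Agent.S5710

namespace Aux

lemma sum_units (f : ℤˣ → ℝ) : ∑ s, f s = f 1 + f (-1) := by
  rw [show (Finset.univ : Finset ℤˣ) = {1,-1} from rfl, Finset.sum_pair (by decide)]

lemma sum_prod_gen (m : ℕ) (f : Fin m → ℤˣ → ℝ) :
    ∑ g : Fin m → ℤˣ, ∏ i, f i (g i) = ∏ i, (f i 1 + f i (-1)) := by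
  have h := Finset.prod_univ_sum (fun _ : Fin m => (Finset.univ : Finset ℤˣ)) f
  rw [Fintype.piFinset_univ] at h
  rw [← h]
  exact Finset.prod_congr rfl fun i _ => sum_units _

section conv
variable {G : Type} [Group G] [Fintype G] [DecidableEq G]

noncomputable def L (p : G → ℝ) (k : ℕ) (g : G) : ℝ :=
  ∑ f ∈ (Finset.univ : Finset (Fin k → G)).filter (fun f => (List.ofFn f).prod = g), ∏ i, p (f i)

lemma L_zero (p : G → ℝ) (g : G) : L p 0 g = if g = 1 then 1 else 0 := by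
  unfold L
  rw [Finset.sum_filter]
  simp [eq_comm]

lemma L_succ (p : G → ℝ) (k : ℕ) (g : G) : L p (k+1) g = ∑ h, p h * L p k (h⁻¹ * g) := by
  unfold L
  simp only [Finset.sum_filter]
  rw [← (Fin.consEquiv (fun _ => G)).sum_comp, Fintype.sum_prod_type]
  apply Finset.sum_congr rfl
  intro h _
  rw [Finset.mul_sum]
  apply Finset.sum_congr rfl
  intro f _
  simp only [Fin.consEquiv, Equiv.coe_fn_mk, List.ofFn_succ, Fin.cons_zero, Fin.cons_succ,
    List.prod_cons, Fin.prod_univ_succ]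
  by_cases hc : (List.ofFn f).prod = h⁻¹ * g
  · rw [if_pos hc, if_pos (by rw [hc]; group)]
  · rw [if_neg hc, if_neg (by intro h'; apply hc; rw [← h']; group), mul_zero]

lemma L_tv_mono (p : G → ℝ) (hp : ∀ g, 0 ≤ p g) (hs : ∑ g, p g = 1) (c : ℝ) (k : ℕ) :
    ∑ g, |L p (k+1) g - c| ≤ ∑ g, |L p k g - c| := by
  have h1 : ∀ g, |L p (k+1) g - c| ≤ ∑ h, p h * |L p k (h⁻¹ * g) - c| := by
    intro g
    have : L p (k+1) g - c = ∑ h, p h * (L p k (h⁻¹ * g) - c) := by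
      rw [L_succ]
      simp only [mul_sub, Finset.sum_sub_distrib]
      rw [← Finset.sum_mul, hs, one_mul]
    rw [this]
    refine (Finset.abs_sum_le_sum_abs _ _).trans (le_of_eq ?_)
    apply Finset.sum_congr rfl
    intro h _
    rw [abs_mul, abs_of_nonneg (hp h)]
  calc ∑ g, |L p (k+1) g - c| ≤ ∑ g, ∑ h, p h * |L p k (h⁻¹ * g) - c| :=
        Finset.sum_le_sum fun g _ => h1 g
    _ = ∑ h, ∑ g, p h * |L p k (h⁻¹ * g) - c| := Finset.sum_comm
    _ = ∑ h, p h * ∑ g, |L p k g - c| := by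
        apply Finset.sum_congr rfl
        intro h _
        rw [← Finset.mul_sum]
        congr 1
        exact Equiv.sum_comp (Equiv.mulLeft h⁻¹) (fun g => |L p k g - c|)
    _ = ∑ g, |L p k g - c| := by rw [← Finset.sum_mul, hs, one_mul]

end conv

/-- product law with bias `2^{-k}` -/
noncomputable def q (m k : ℕ) (g : Fin m → ℤˣ) : ℝ :=
  ∏ i, (1 + (1/2 : ℝ)^k * ((g i : ℤ) : ℝ))/2

lemma unit_cases (s : ℤˣ) : ((s : ℤ) : ℝ) = 1 ∨ ((s : ℤ) : ℝ) = -1 := by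
  rcases Int.units_eq_one_or s with h | h <;> simp [h]

lemma q_nonneg (m k : ℕ) (g : Fin m → ℤˣ) : 0 ≤ q m k g := by
  unfold q
  apply Finset.prod_nonneg
  intro i _
  have h1 : (1/2 : ℝ)^k ≤ 1 := pow_le_one₀ (by norm_num) (by norm_num)
  have h0 : (0:ℝ) ≤ (1/2 : ℝ)^k := by positivity
  rcases unit_cases (g i) with h | h <;> rw [h] <;> linarith

lemma q_sum (m k : ℕ) : ∑ g, q m k g = 1 := by
  unfold q
  rw [sum_prod_gen m (fun _ s => (1 + (1/2 : ℝ)^k * ((s : ℤ) : ℝ))/2)]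
  apply Finset.prod_eq_one
  intro i _
  simp only [Units.val_one, Int.cast_one, Units.val_neg, Int.cast_neg]
  ring

lemma q_conv (m k : ℕ) (g : Fin m → ℤˣ) : ∑ h, q m 1 h * q m k (h⁻¹ * g) = q m (k+1) g := by
  unfold q
  have h1 : ∀ h : Fin m → ℤˣ, (∏ i, (1 + (1/2 : ℝ)^1 * ((h i : ℤ) : ℝ))/2) *
      (∏ i, (1 + (1/2 : ℝ)^k * (((h⁻¹ * g) i : ℤ) : ℝ))/2) =
      ∏ i, (fun (i : Fin m) (s : ℤˣ) => ((1 + (1/2 : ℝ)^1 * ((s : ℤ) : ℝ))/2) *
        ((1 + (1/2 : ℝ)^k * (((s⁻¹ * g i : ℤˣ) : ℤ) : ℝ))/2)) i (h i) := by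
    intro h
    rw [← Finset.prod_mul_distrib]
    rfl
  rw [Finset.sum_congr rfl (fun h _ => h1 h), sum_prod_gen m (fun (i : Fin m) (s : ℤˣ) => ((1 + (1/2 : ℝ)^1 * ((s : ℤ) : ℝ))/2) *
        ((1 + (1/2 : ℝ)^k * (((s⁻¹ * g i : ℤˣ) : ℤ) : ℝ))/2))]
  apply Finset.prod_congr rfl
  intro i _
  rcases Int.units_eq_one_or (g i) with h | h <;> simp [h, pow_succ] <;> ring

lemma q_zero (m : ℕ) (g : Fin m → ℤˣ) : q m 0 g = if g = 1 then 1 else 0 := by
  unfold q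
  split_ifs with h
  · subst h
    apply Finset.prod_eq_one
    intro i _
    simp
  · have : ∃ i, g i ≠ 1 := by
      by_contra hcon
      push Not at hcon
      exact h (funext hcon)
    obtain ⟨i, hi⟩ := this
    apply Finset.prod_eq_zero (Finset.mem_univ i)
    have : g i = -1 := by
      rcases Int.units_eq_one_or (g i) with h' | h'
      · exact absurd h' hi
      · exact h'
    rw [this]; simp

noncomputable def P (m : ℕ) (e : ℝ) (g : Fin m → ℤˣ) : ℝ :=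
  (1 - e) * q m 1 g + e * (1 / (2:ℝ)^m)

lemma card_G (m : ℕ) : (Fintype.card (Fin m → ℤˣ) : ℝ) = 2^m := by
  simp

lemma sum_const' (m : ℕ) (c : ℝ) : ∑ _g : Fin m → ℤˣ, c = 2^m * c := by
  rw [Finset.sum_const, Finset.card_univ, nsmul_eq_mul, card_G]

lemma P_nonneg (m : ℕ) (e : ℝ) (he : 0 ≤ e) (he1 : e ≤ 1) (g : Fin m → ℤˣ) : 0 ≤ P m e g := by
  unfold P
  have := q_nonneg m 1 g
  have h2 : 0 ≤ 1 - e := by linarith
  positivity

lemma P_sum (m : ℕ) (e : ℝ) : ∑ g, P m e g = 1 := by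
  unfold P
  rw [Finset.sum_add_distrib, ← Finset.mul_sum, q_sum, sum_const']
  have : (2:ℝ)^m ≠ 0 := by positivity
  field_simp
  ring

lemma L_P (m : ℕ) (e : ℝ) (k : ℕ) (g : Fin m → ℤˣ) :
    L (P m e) k g = (1-e)^k * q m k g + (1 - (1-e)^k) * (1/(2:ℝ)^m) := by
  induction k generalizing g with
  | zero => rw [L_zero, q_zero]; simp
  | succ k ih =>
    rw [L_succ]
    simp only [ih]
    have h1 : ∀ h : Fin m → ℤˣ, P m e h * ((1-e)^k * q m k (h⁻¹ * g) + (1 - (1-e)^k) * (1/(2:ℝ)^m)) =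
        (1-e)^(k+1) * (q m 1 h * q m k (h⁻¹ * g)) + e * (1/(2:ℝ)^m) * (1-e)^k * q m k (h⁻¹ * g)
        + (1 - (1-e)^k) * (1/(2:ℝ)^m) * P m e h := by
      intro h
      unfold P
      ring
    rw [Finset.sum_congr rfl (fun h _ => h1 h), Finset.sum_add_distrib, Finset.sum_add_distrib,
      ← Finset.mul_sum, ← Finset.mul_sum, ← Finset.mul_sum, q_conv, P_sum]
    have h2 : ∑ h : Fin m → ℤˣ, q m k (h⁻¹ * g) = 1 := by
      rw [← q_sum m k]
      exact Equiv.sum_comp ((Equiv.inv (Fin m → ℤˣ)).trans (Equiv.mulRight g)) (fun h => q m k h)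
    rw [h2]
    ring

noncomputable def D (m k : ℕ) : ℝ := ∑ g, |q m k g - 1/(2:ℝ)^m|

lemma tv_eq (m : ℕ) (e : ℝ) (he1 : e ≤ 1) (k : ℕ) :
    ∑ g, |L (P m e) k g - 1/(2:ℝ)^m| = (1-e)^k * D m k := by
  unfold D
  rw [Finset.mul_sum]
  apply Finset.sum_congr rfl
  intro g _
  rw [L_P]
  have h1 : 0 ≤ (1-e)^k := pow_nonneg (by linarith) k
  have : (1-e)^k * q m k g + (1 - (1-e)^k) * (1/(2:ℝ)^m) - 1/(2:ℝ)^m =
      (1-e)^k * (q m k g - 1/(2:ℝ)^m) := by ring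
  rw [this, abs_mul, abs_of_nonneg h1]

lemma D_le_two (m k : ℕ) : D m k ≤ 2 := by
  unfold D
  calc ∑ g, |q m k g - 1/(2:ℝ)^m| ≤ ∑ g, (q m k g + 1/(2:ℝ)^m) := by
        apply Finset.sum_le_sum
        intro g _
        have h1 := q_nonneg m k g
        have h2 : (0:ℝ) ≤ 1/2^m := by positivity
        rw [abs_le]; constructor <;> linarith
    _ = 2 := by
        rw [Finset.sum_add_distrib, q_sum, sum_const']
        have : (2:ℝ)^m ≠ 0 := by positivity
        field_simp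
        norm_num

lemma D_nonneg (m k : ℕ) : 0 ≤ D m k := Finset.sum_nonneg fun _ _ => abs_nonneg _

lemma q_sq_sum (m k : ℕ) : (2:ℝ)^m * ∑ g, (q m k g)^2 = (1 + (1/4:ℝ)^k)^m := by
  have h1 : ∀ g : Fin m → ℤˣ, (q m k g)^2 =
      ∏ i, (fun (_ : Fin m) (s : ℤˣ) => ((1 + (1/2 : ℝ)^k * ((s : ℤ) : ℝ))/2)^2) i (g i) := by
    intro g
    unfold q
    rw [← Finset.prod_pow]
  rw [Finset.sum_congr rfl (fun g _ => h1 g),
    sum_prod_gen m (fun (_ : Fin m) (s : ℤˣ) => ((1 + (1/2 : ℝ)^k * ((s : ℤ) : ℝ))/2)^2)]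
  simp only [Units.val_one, Int.cast_one, Units.val_neg, Int.cast_neg, Finset.prod_const,
    Finset.card_univ, Fintype.card_fin]
  rw [← mul_pow]
  congr 1
  have : (1/4:ℝ)^k = ((1/2:ℝ)^k)^2 := by rw [← pow_mul, mul_comm, pow_mul]; norm_num
  rw [this]
  ring

lemma q_cube_sum (m k : ℕ) : ((2:ℝ)^m)^2 * ∑ g, (q m k g)^3 = (1 + 3 * (1/4:ℝ)^k)^m := by
  have h1 : ∀ g : Fin m → ℤˣ, (q m k g)^3 =
      ∏ i, (fun (_ : Fin m) (s : ℤˣ) => ((1 + (1/2 : ℝ)^k * ((s : ℤ) : ℝ))/2)^3) i (g i) := by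
    intro g
    unfold q
    rw [← Finset.prod_pow]
  rw [Finset.sum_congr rfl (fun g _ => h1 g),
    sum_prod_gen m (fun (_ : Fin m) (s : ℤˣ) => ((1 + (1/2 : ℝ)^k * ((s : ℤ) : ℝ))/2)^3)]
  simp only [Units.val_one, Int.cast_one, Units.val_neg, Int.cast_neg, Finset.prod_const,
    Finset.card_univ, Fintype.card_fin]
  rw [← pow_mul, mul_comm m 2, pow_mul, ← mul_pow]
  congr 1
  have : (1/4:ℝ)^k = ((1/2:ℝ)^k)^2 := by rw [← pow_mul, mul_comm, pow_mul]; norm_num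
  rw [this]
  ring

/-- upper bound -/
lemma D_sq_le (m k : ℕ) : (D m k)^2 ≤ (1 + (1/4:ℝ)^k)^m - 1 := by
  have h1 : (D m k)^2 ≤ (Finset.univ : Finset (Fin m → ℤˣ)).card * ∑ g, |q m k g - 1/(2:ℝ)^m|^2 :=
    sq_sum_le_card_mul_sum_sq
  rw [Finset.card_univ, card_G] at h1
  refine h1.trans (le_of_eq ?_)
  have h2 : ∀ g : Fin m → ℤˣ, |q m k g - 1/(2:ℝ)^m|^2 =
      (q m k g)^2 - 2 * (1/(2:ℝ)^m) * q m k g + (1/(2:ℝ)^m)^2 := by
    intro g; rw [sq_abs]; ring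
  rw [Finset.sum_congr rfl (fun g _ => h2 g), Finset.sum_add_distrib, Finset.sum_sub_distrib,
    ← Finset.mul_sum, q_sum, sum_const', mul_add, mul_sub, q_sq_sum]
  have : (2:ℝ)^m ≠ 0 := by positivity
  field_simp
  ring

/-- lower bound when `4^k = m` -/
lemma D_lower (m k : ℕ) (hm : (m:ℝ) * (1/4:ℝ)^k = 1) : 1/24 ≤ D m k := by
  set x : ℝ := (1/4:ℝ)^k with hx
  have hx0 : 0 < x := by positivity
  have h2m : (2:ℝ)^m ≠ 0 := by positivity
  have h2m' : (0:ℝ) < (2:ℝ)^m := by positivity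
  -- F = 2^m q
  have e1 : ∑ g, (q m k g - 1/(2:ℝ)^m) * ((2:ℝ)^m * q m k g) = (1 + x)^m - 1 := by
    have : ∀ g : Fin m → ℤˣ, (q m k g - 1/(2:ℝ)^m) * ((2:ℝ)^m * q m k g) =
        (2:ℝ)^m * (q m k g)^2 - q m k g := by
      intro g; field_simp
    rw [Finset.sum_congr rfl (fun g _ => this g), Finset.sum_sub_distrib, ← Finset.mul_sum,
      q_sq_sum, q_sum]
  have e2 : ∑ g, (q m k g + 1/(2:ℝ)^m) * ((2:ℝ)^m * q m k g)^2 = (1 + 3*x)^m + (1 + x)^m := by
    have : ∀ g : Fin m → ℤˣ, (q m k g + 1/(2:ℝ)^m) * ((2:ℝ)^m * q m k g)^2 =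
        ((2:ℝ)^m)^2 * (q m k g)^3 + (2:ℝ)^m * (q m k g)^2 := by
      intro g; field_simp
    rw [Finset.sum_congr rfl (fun g _ => this g), Finset.sum_add_distrib, ← Finset.mul_sum,
      ← Finset.mul_sum, q_sq_sum, q_cube_sum]
  have b1 : 2 ≤ (1 + x)^m := by
    have := one_add_mul_le_pow (a := x) (by linarith) m
    linarith
  have b2 : (1 + x)^m ≤ 3 := by
    have h1 : (1 + x)^m ≤ (Real.exp x)^m := by
      apply pow_le_pow_left₀ (by positivity)
      have := Real.add_one_le_exp x; linarith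
    rw [← Real.exp_nat_mul, hm] at h1
    have := Real.exp_one_lt_d9
    norm_num at this
    linarith
  have b3 : (1 + 3*x)^m ≤ 21 := by
    have h1 : (1 + 3*x)^m ≤ (Real.exp (3*x))^m := by
      apply pow_le_pow_left₀ (by positivity)
      have := Real.add_one_le_exp (3*x); linarith
    rw [← Real.exp_nat_mul, show (m:ℝ) * (3*x) = ((3:ℕ):ℝ) * 1 by push_cast; linarith,
      Real.exp_nat_mul] at h1
    have h3 := Real.exp_one_lt_d9
    have h4 : (Real.exp 1)^3 ≤ (2.7182818286:ℝ)^3 :=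
      pow_le_pow_left₀ (Real.exp_pos 1).le h3.le 3
    norm_num at h4 h1 ⊢
    linarith
  have key : ∀ g : Fin m → ℤˣ, (q m k g - 1/(2:ℝ)^m) * ((2:ℝ)^m * q m k g) ≤
      12 * |q m k g - 1/(2:ℝ)^m| + (1/48) * ((q m k g + 1/(2:ℝ)^m) * ((2:ℝ)^m * q m k g)^2) := by
    intro g
    have hq := q_nonneg m k g
    have hu : (0:ℝ) ≤ 1/(2:ℝ)^m := by positivity
    set F : ℝ := (2:ℝ)^m * q m k g with hF
    have hF0 : 0 ≤ F := by positivity
    have h1 : |q m k g - 1/(2:ℝ)^m| ≤ q m k g + 1/(2:ℝ)^m := by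
      rw [abs_le]; constructor <;> linarith
    have h2 : (q m k g - 1/(2:ℝ)^m) * F ≤ |q m k g - 1/(2:ℝ)^m| * F :=
      mul_le_mul_of_nonneg_right (le_abs_self _) hF0
    have h3 : F ≤ 12 + (1/48) * F^2 := by nlinarith [sq_nonneg (F - 24)]
    have h4 : |q m k g - 1/(2:ℝ)^m| * F ≤ |q m k g - 1/(2:ℝ)^m| * (12 + (1/48) * F^2) :=
      mul_le_mul_of_nonneg_left h3 (abs_nonneg _)
    have h5 : |q m k g - 1/(2:ℝ)^m| * F^2 ≤ (q m k g + 1/(2:ℝ)^m) * F^2 :=
      mul_le_mul_of_nonneg_right h1 (by positivity)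
    nlinarith
  have h6 := Finset.sum_le_sum (fun g (_ : g ∈ (Finset.univ : Finset (Fin m → ℤˣ))) => key g)
  rw [e1, Finset.sum_add_distrib, ← Finset.mul_sum, ← Finset.mul_sum, e2] at h6
  change (1 + x)^m - 1 ≤ 12 * D m k + _ at h6
  linarith

end Aux

open Aux in
/-- The negation of the preceding statement: Every sequence of random walks on finite groups with a precut-off (distance to uniform →0 at b·tₙ but eventually ≥ε at a·tₙ, tₙ→∞) has a cut-off: some sₙ→∞ with distance →0 at (1+ε)sₙ and →1 at (1−ε)sₙ for all ε in (0,1). -/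
theorem result :
    ¬ (∀ (G : ℕ → Type) [∀ n, Group (G n)] [∀ n, Fintype (G n)] [∀ n, DecidableEq (G n)]
    (p : ∀ n, G n → ℝ) (d : ℕ → ℕ → ℝ),
    (∀ n g, 0 ≤ p n g) → (∀ n, ∑ g, p n g = 1) →
    (∀ n k, d n k = (1 / 2 : ℝ) * ∑ g : G n,
        |(∑ f ∈ (Finset.univ : Finset (Fin k → G n)).filter (fun f => (List.ofFn f).prod = g),
            ∏ i, p n (f i)) - 1 / (Fintype.card (G n) : ℝ)|) →
    (∃ t : ℕ → ℝ, Tendsto t atTop atTop ∧ ∃ a b : ℝ, 0 < a ∧ a < b ∧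
        Tendsto (fun n => d n ⌊b * t n⌋₊) atTop (𝓝 0) ∧
        ∃ ε : ℝ, 0 < ε ∧ ∀ᶠ n in atTop, ε ≤ d n ⌊a * t n⌋₊) →
    ∃ s : ℕ → ℝ, Tendsto s atTop atTop ∧ ∀ ε : ℝ, 0 < ε → ε < 1 →
        Tendsto (fun n => d n ⌊(1 + ε) * s n⌋₊) atTop (𝓝 0) ∧
        Tendsto (fun n => d n ⌊(1 - ε) * s n⌋₊) atTop (𝓝 1)) := by
  intro H
  set ee : ℕ → ℝ := fun n => 1/((n:ℝ)+1) with hee
  have ee0 : ∀ n, 0 ≤ ee n := fun n => by simp only [hee]; positivity
  have ee1 : ∀ n, ee n ≤ 1 := fun n => by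
    simp only [hee]
    rw [div_le_one (by positivity)]
    have : (0:ℝ) ≤ n := by positivity
    linarith
  set d : ℕ → ℕ → ℝ := fun n k => (1/2:ℝ) * ((1 - ee n)^k * D (4^n) k) with hd
  have hdL : ∀ n k, d n k = (1/2:ℝ) * ∑ g, |L (P (4^n) (ee n)) k g - 1/(2:ℝ)^(4^n)| := by
    intro n k
    rw [tv_eq _ _ (ee1 n)]
  have hmono : ∀ n, Antitone (d n) := by
    intro n
    apply antitone_nat_of_succ_le
    intro k
    rw [hdL, hdL]
    have := L_tv_mono (P (4^n) (ee n)) (P_nonneg _ _ (ee0 n) (ee1 n)) (P_sum _ _) (1/(2:ℝ)^(4^n)) k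
    linarith
  have hdle : ∀ n k, d n k ≤ (1 - ee n)^k := by
    intro n k
    have h1 := D_le_two (4^n) k
    have h2 : 0 ≤ (1 - ee n)^k := pow_nonneg (by linarith [ee1 n]) k
    simp only [hd]
    nlinarith
  have hd0 : ∀ n k, 0 ≤ d n k := by
    intro n k
    have h1 := D_nonneg (4^n) k
    have h2 : 0 ≤ (1 - ee n)^k := pow_nonneg (by linarith [ee1 n]) k
    simp only [hd]
    positivity
  -- lower bound at time n
  have hlow : ∀ n : ℕ, 1 ≤ n → 1/144 ≤ d n n := by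
    intro n hn
    have h1 : 1/24 ≤ D (4^n) n := by
      apply D_lower
      push_cast
      rw [← mul_pow]
      norm_num
    have hn' : (0:ℝ) < n := by exact_mod_cast hn
    have h2 : 1/3 ≤ (1 - ee n)^n := by
      have e1 : 1 - ee n = (1 + 1/(n:ℝ))⁻¹ := by
        simp only [hee]
        field_simp
        ring
      rw [e1, inv_pow, one_div]
      apply inv_anti₀ (by positivity)
      have h3 : (1 + 1/(n:ℝ))^n ≤ (Real.exp (1/(n:ℝ)))^n := by
        apply pow_le_pow_left₀ (by positivity)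
        have := Real.add_one_le_exp (1/(n:ℝ)); linarith
      rw [← Real.exp_nat_mul, mul_one_div_cancel hn'.ne'] at h3
      have := Real.exp_one_lt_d9
      norm_num at this
      linarith
    simp only [hd]
    nlinarith
  obtain ⟨s, hs, hcut⟩ := H (fun n => (Fin (4^n) → ℤˣ)) (fun n => P (4^n) (ee n)) d
    (fun n g => P_nonneg _ _ (ee0 n) (ee1 n) g) (fun n => P_sum _ _)
    (by
      intro n k
      rw [hdL, card_G]
      rfl)
    ⟨fun n => (n:ℝ), tendsto_natCast_atTop_atTop, 1, 2, one_pos, one_lt_two, by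
      have e : ∀ n : ℕ, ⌊2 * (n:ℝ)⌋₊ = 2 * n := by
        intro n
        have : (2 * (n:ℝ)) = ((2*n : ℕ) : ℝ) := by push_cast; ring
        rw [this, Nat.floor_natCast]
      simp only [e]
      -- D (4^n) (2n) ^2 ≤ exp(4^{-n}) - 1
      have hb : ∀ n : ℕ, d n (2*n) ≤ Real.sqrt (Real.exp ((1/4:ℝ)^n) - 1) := by
        intro n
        have h1 := D_sq_le (4^n) (2*n)
        have h2 : (1 + (1/4:ℝ)^(2*n))^(4^n) ≤ Real.exp ((1/4:ℝ)^n) := by
          have h3 : (1 + (1/4:ℝ)^(2*n))^(4^n) ≤ (Real.exp ((1/4:ℝ)^(2*n)))^(4^n) := by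
            apply pow_le_pow_left₀ (by positivity)
            have := Real.add_one_le_exp ((1/4:ℝ)^(2*n)); linarith
          rw [← Real.exp_nat_mul] at h3
          have h4 : ((4^n : ℕ) : ℝ) * (1/4:ℝ)^(2*n) = (1/4:ℝ)^n := by
            push_cast
            rw [two_mul, pow_add, ← mul_assoc, ← mul_pow]
            norm_num
          rwa [h4] at h3
        have h5 : D (4^n) (2*n) ≤ Real.sqrt (Real.exp ((1/4:ℝ)^n) - 1) :=
          Real.le_sqrt_of_sq_le (by linarith)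
        have h6 : (1 - ee n)^(2*n) ≤ 1 := pow_le_one₀ (by linarith [ee1 n]) (by linarith [ee0 n])
        have h7 := D_nonneg (4^n) (2*n)
        have h8 : 0 ≤ (1 - ee n)^(2*n) := pow_nonneg (by linarith [ee1 n]) _
        simp only [hd]
        nlinarith
      have hlim : Tendsto (fun n : ℕ => Real.sqrt (Real.exp ((1/4:ℝ)^n) - 1)) atTop (𝓝 0) := by
        have h1 : Tendsto (fun n : ℕ => (1/4:ℝ)^n) atTop (𝓝 0) :=
          tendsto_pow_atTop_nhds_zero_of_lt_one (by norm_num) (by norm_num)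
        have h2 : Continuous (fun x : ℝ => Real.sqrt (Real.exp x - 1)) := by fun_prop
        have h3 := (h2.tendsto 0).comp h1
        simpa [Function.comp_def] using h3
      exact squeeze_zero (fun n => hd0 n _) hb hlim, 1/144, by norm_num, by
      filter_upwards [eventually_ge_atTop 1] with n hn
      rw [one_mul, Nat.floor_natCast]
      exact hlow n hn⟩
  obtain ⟨h0, h1⟩ := hcut (1/2) (by norm_num) (by norm_num)
  -- d n ⌊s/2⌋ → 1
  have hev1 : ∀ᶠ n in atTop, Real.exp (-(1/16)) < d n ⌊(1 - 1/2) * s n⌋₊ :=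
    h1.eventually (lt_mem_nhds (by
      rw [Real.exp_lt_one_iff]; norm_num))
  have hev2 : ∀ᶠ n in atTop, d n ⌊(1 + 1/2) * s n⌋₊ < 1/144 :=
    h0.eventually (gt_mem_nhds (by norm_num))
  obtain ⟨n, hn1, hn2, hn3, hn4⟩ := (hev1.and (hev2.and ((eventually_ge_atTop 100).and
    (hs.eventually (eventually_ge_atTop 0))))).exists
  set k := ⌊(1 - 1/2) * s n⌋₊ with hk
  have hnR : (100:ℝ) ≤ n := by exact_mod_cast hn3
  -- k ≤ n / 8
  have hk8 : (k:ℝ) < n/8 := by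
    by_contra hcon
    push Not at hcon
    have h2 := hdle n k
    have h3 : (1 - ee n)^k ≤ (Real.exp (-(ee n)))^k := by
      apply pow_le_pow_left₀ (by linarith [ee1 n])
      have := Real.add_one_le_exp (-(ee n)); linarith
    rw [← Real.exp_nat_mul] at h3
    have h4 : Real.exp ((k:ℝ) * -(ee n)) ≤ Real.exp (-(1/16)) := by
      apply Real.exp_le_exp.2
      have h5 : 1/16 ≤ (k:ℝ) * ee n := by
        have h6 : (n:ℝ)/8 * ee n ≤ (k:ℝ) * ee n := mul_le_mul_of_nonneg_right hcon (ee0 n)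
        have h7 : 1/16 ≤ (n:ℝ)/8 * ee n := by
          simp only [hee]
          rw [mul_one_div, le_div_iff₀ (by positivity)]
          linarith
        linarith
      linarith
    linarith
  have hs1 : (1 - 1/2) * s n < k + 1 := Nat.lt_floor_add_one _
  have hfl : ⌊(1 + 1/2) * s n⌋₊ ≤ n := by
    apply Nat.floor_le_of_le
    linarith
  have h5 := hmono n hfl
  have h6 := hlow n (by omega)
  linarith

end Pool.Agent.S5710
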